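import Pool.Agent.MKA.DefsC
import Pool.Agent.Pal.Divisor

/-!
# MKA/AsymC: the parameters for large `N`

`Y = ⌈N^(1/16000)⌉`, `Z = Y⁴`, `L = log N`.  All statements are for `N ≥ N₀` and uniform in the rest.
* `YY_bounds`: `⌈x⌉ ≤ x + 1 ≤ 2x` for `x ≥ 1`.
* `ZC_pow_le`: `Z ≤ 16 N^(1/4000)`.
* `ZC_lower`: `Z ≥ N^(1/4000)`, so `log Z ≥ L/4000`; `log Y ≥ L/16000`.
* `log_pow_le`: `L^k ≤ N^(ε/4000) ≤ Z^ε` for large `N` (`isLittleO_log_rpow_atTop` or similar).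
* `div_small`: `Pal.card_divisors_le_rpow` with exponent `ε/6`: `τ(s) ≤ C s^(ε/6) ≤ C N^(ε/2) ≤ N^ε` (`s ≤ N³`).
* `bs_small`: let `1 ≤ n ≤ Z^15`.  `ω(n) ≤ √L + log n / log √L`: at most `√L` prime factors are `≤ √L`, and the
  product of the others (`k` of them) is `≥ (√L)^k` and `≤ n`.  `Nat.log 2 B + 1 ≤ 4 L`
  (`B ≤ √N Z ≤ N`).  So `(Nat.log 2 B + 1)^ω(n) ≤ exp(√L log(4L) + log n · log(4L)/log √L)`, and
  `log(4L)/log √L ≤ 3` for large `N`, `log n ≤ 15 (log 16 + L/4000)`; the total is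
  `≤ exp(L/1000 + 45 L/4000 + 45 log 16) ≤ N^(1/50)`.
* `mu_facts`: `μ = ⌊√N⌋/(D²Y)` (natural division; `√N/(2 D² Y) ≤ μ ≤ √N/(D² Y)`), `13 ≤ D ≤ L`;
  `K_i ≤ √N Y` for `i ≤ J`; `K_J ≥ √N Y/2`; `2√N - 2 ≤ K_0 ≤ 2√N`; `(JJ : ℝ) ≤ 2 D² Y²`.
Size: 200 lines.
-/

set_option autoImplicit false

namespace Pool.Agent.MKA

open Finset

open Filter in
private theorem log_ev (C : ℝ) : ∀ᶠ N : ℕ in atTop, C ≤ Real.log N :=
  (Real.tendsto_log_atTop.comp tendsto_natCast_atTop_atTop).eventually_ge_atTop C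

theorem log_large (C : ℝ) : ∃ N₀ : ℕ, ∀ N : ℕ, N₀ ≤ N → C ≤ Real.log N :=
  Filter.eventually_atTop.1 (log_ev C)

private theorem YY_ge (N : ℕ) : (N : ℝ) ^ (1 / 16000 : ℝ) ≤ (YY N : ℝ) := Nat.le_ceil _

private theorem YY_le (N : ℕ) (hN : 1 ≤ N) : (YY N : ℝ) ≤ 2 * (N : ℝ) ^ (1 / 16000 : ℝ) := by
  have h1 : (1 : ℝ) ≤ (N : ℝ) ^ (1 / 16000 : ℝ) :=
    Real.one_le_rpow (by exact_mod_cast hN) (by norm_num)
  have h2 : (YY N : ℝ) < (N : ℝ) ^ (1 / 16000 : ℝ) + 1 := Nat.ceil_lt_add_one (by positivity)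
  linarith

theorem YY_bounds : ∃ N₀ : ℕ, ∀ N : ℕ, N₀ ≤ N →
    (N : ℝ) ^ (1 / 16000 : ℝ) ≤ (YY N : ℝ) ∧ (YY N : ℝ) ≤ 2 * (N : ℝ) ^ (1 / 16000 : ℝ) :=
  ⟨1, fun N hN => ⟨YY_ge N, YY_le N hN⟩⟩

private theorem ZC_ge (N : ℕ) : (N : ℝ) ^ (1 / 4000 : ℝ) ≤ (ZC N : ℝ) := by
  have h1 := pow_le_pow_left₀ (by positivity) (YY_ge N) 4
  rw [← Real.rpow_natCast, ← Real.rpow_mul (by positivity)] at h1
  unfold ZC
  push_cast
  norm_num at h1 ⊢
  exact h1

private theorem ZC_le (N : ℕ) (hN : 1 ≤ N) : (ZC N : ℝ) ≤ 16 * (N : ℝ) ^ (1 / 4000 : ℝ) := by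
  have h1 := pow_le_pow_left₀ (by positivity) (YY_le N hN) 4
  rw [mul_pow, ← Real.rpow_natCast ((N : ℝ) ^ (1 / 16000 : ℝ)), ← Real.rpow_mul (by positivity)]
    at h1
  unfold ZC
  push_cast
  norm_num at h1 ⊢
  exact h1

open Filter in
private theorem rpow_ev (C ε : ℝ) (hε : 0 < ε) : ∀ᶠ N : ℕ in atTop, C ≤ (N : ℝ) ^ ε :=
  ((tendsto_rpow_atTop hε).comp tendsto_natCast_atTop_atTop).eventually_ge_atTop C

theorem ZC_pow_le (k : ℕ) (ε : ℝ) (hε : (k : ℝ) / 4000 < ε) :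
    ∃ N₀ : ℕ, ∀ N : ℕ, N₀ ≤ N → (ZC N : ℝ) ^ k ≤ (N : ℝ) ^ ε := by
  refine Filter.eventually_atTop.1 ?_
  filter_upwards [rpow_ev ((16 : ℝ) ^ k) (ε - (k : ℝ) / 4000) (by linarith),
    Filter.eventually_ge_atTop 1] with N h1 hN
  have h0 : (0 : ℝ) < N := by exact_mod_cast hN
  have h2 := pow_le_pow_left₀ (by positivity) (ZC_le N hN) k
  refine h2.trans ?_
  rw [mul_pow, ← Real.rpow_natCast ((N : ℝ) ^ (1 / 4000 : ℝ)), ← Real.rpow_mul (by positivity)]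
  have h3 : (N : ℝ) ^ ε = (N : ℝ) ^ (ε - (k : ℝ) / 4000) * (N : ℝ) ^ (1 / 4000 * (k : ℝ)) := by
    rw [← Real.rpow_add h0]
    congr 1
    ring
  rw [h3]
  exact mul_le_mul_of_nonneg_right h1 (by positivity)

theorem ZC_large (C : ℝ) : ∃ N₀ : ℕ, ∀ N : ℕ, N₀ ≤ N → C ≤ (ZC N : ℝ) := by
  refine Filter.eventually_atTop.1 ?_
  filter_upwards [rpow_ev C (1 / 4000) (by norm_num)] with N h1
  exact h1.trans (ZC_ge N)

theorem ZC_lower : ∃ N₀ : ℕ, ∀ N : ℕ, N₀ ≤ N →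
    Real.log N / 4000 ≤ Real.log (ZC N) ∧ Real.log N / 16000 ≤ Real.log (YY N) := by
  refine ⟨1, fun N hN => ?_⟩
  have h0 : (0 : ℝ) < N := by exact_mod_cast hN
  constructor
  · have h1 := Real.log_le_log (by positivity) (ZC_ge N)
    rw [Real.log_rpow h0] at h1
    linarith
  · have h1 := Real.log_le_log (by positivity) (YY_ge N)
    rw [Real.log_rpow h0] at h1
    linarith

private theorem log_pow_ev (k : ℕ) (ε : ℝ) (hε : 0 < ε) :
    ∀ᶠ N : ℕ in Filter.atTop, (Real.log N) ^ k ≤ (N : ℝ) ^ ε := by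
  have h1 := ((isLittleO_log_rpow_rpow_atTop (k : ℝ) hε).bound (by norm_num : (0 : ℝ) < 1))
  have h2 := tendsto_natCast_atTop_atTop (R := ℝ) |>.eventually h1
  filter_upwards [h2, log_ev 0] with N h3 h4
  rw [one_mul, Real.rpow_natCast, Real.norm_of_nonneg (by positivity),
    Real.norm_of_nonneg (by positivity)] at h3
  exact h3

theorem log_pow_le (k : ℕ) (ε : ℝ) (hε : 0 < ε) :
    ∃ N₀ : ℕ, ∀ N : ℕ, N₀ ≤ N → (Real.log N) ^ k ≤ (ZC N : ℝ) ^ ε := by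
  refine Filter.eventually_atTop.1 ?_
  filter_upwards [log_pow_ev k (1 / 4000 * ε) (by positivity)] with N h1
  refine h1.trans ?_
  rw [Real.rpow_mul (by positivity)]
  exact Real.rpow_le_rpow (by positivity) (ZC_ge N) hε.le

theorem log_pow_le' (k : ℕ) (ε : ℝ) (hε : 0 < ε) :
    ∃ N₀ : ℕ, ∀ N : ℕ, N₀ ≤ N → (Real.log N) ^ k ≤ (N : ℝ) ^ ε :=
  Filter.eventually_atTop.1 (log_pow_ev k ε hε)

theorem div_small (ε : ℝ) (hε : 0 < ε) :
    ∃ N₀ : ℕ, ∀ N : ℕ, N₀ ≤ N → ∀ s : ℕ, 1 ≤ s → (s : ℝ) ≤ (N : ℝ) ^ 3 →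
      (s.divisors.card : ℝ) ≤ (N : ℝ) ^ ε := by
  obtain ⟨C, hC1, hC⟩ := Pal.card_divisors_le_rpow (η := ε / 6) (by positivity)
  refine Filter.eventually_atTop.1 ?_
  filter_upwards [rpow_ev C (ε / 2) (by positivity), Filter.eventually_ge_atTop 1] with N h1 hN
  intro s hs hsN
  have h0 : (0 : ℝ) < N := by exact_mod_cast hN
  refine (hC s hs).trans ?_
  have h2 : (s : ℝ) ^ (ε / 6) ≤ ((N : ℝ) ^ 3) ^ (ε / 6) :=
    Real.rpow_le_rpow (by positivity) hsN (by positivity)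
  have h3 : ((N : ℝ) ^ 3) ^ (ε / 6) = (N : ℝ) ^ (ε / 2) := by
    rw [← Real.rpow_natCast (N : ℝ) 3, ← Real.rpow_mul h0.le]
    congr 1
    push_cast
    ring
  have h4 : (N : ℝ) ^ ε = (N : ℝ) ^ (ε / 2) * (N : ℝ) ^ (ε / 2) := by
    rw [← Real.rpow_add h0]
    congr 1
    ring
  rw [h4]
  rw [h3] at h2
  exact mul_le_mul h1 h2 (by positivity) (by positivity)

private theorem omega_le (n : ℕ) (hn : 1 ≤ n) (w : ℝ) (hw : 1 < w) :
    (n.primeFactors.card : ℝ) ≤ w + Real.log n / Real.log w := by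
  have hlw : 0 < Real.log w := Real.log_pos hw
  have h1 : (n.primeFactors.card : ℝ) =
      ((n.primeFactors.filter fun p : ℕ => (p : ℝ) ≤ w).card : ℝ) +
      ((n.primeFactors.filter fun p : ℕ => ¬ (p : ℝ) ≤ w).card : ℝ) := by
    rw [← Nat.cast_add, card_filter_add_card_filter_not]
  have h2 : ((n.primeFactors.filter fun p : ℕ => (p : ℝ) ≤ w).card : ℝ) ≤ w := by
    have h3 : (n.primeFactors.filter fun p : ℕ => (p : ℝ) ≤ w) ⊆ Icc 1 ⌊w⌋₊ := by
      intro p hp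
      rw [mem_filter] at hp
      rw [mem_Icc]
      exact ⟨(Nat.prime_of_mem_primeFactors hp.1).pos, Nat.le_floor hp.2⟩
    have h4 := card_le_card h3
    rw [Nat.card_Icc, Nat.add_sub_cancel] at h4
    have h5 : ((n.primeFactors.filter fun p : ℕ => (p : ℝ) ≤ w).card : ℝ) ≤ (⌊w⌋₊ : ℝ) := by
      exact_mod_cast h4
    exact h5.trans (Nat.floor_le (by linarith))
  have h3 : ((n.primeFactors.filter fun p : ℕ => ¬ (p : ℝ) ≤ w).card : ℝ) ≤
      Real.log n / Real.log w := by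
    rw [le_div_iff₀ hlw]
    have h4 : w ^ ((n.primeFactors.filter fun p : ℕ => ¬ (p : ℝ) ≤ w).card) ≤ n := by
      have h5 : w ^ ((n.primeFactors.filter fun p : ℕ => ¬ (p : ℝ) ≤ w).card) ≤
          ∏ p ∈ n.primeFactors.filter (fun p : ℕ => ¬ (p : ℝ) ≤ w), (p : ℝ) := by
        rw [← prod_const]
        refine prod_le_prod (fun _ _ => by linarith) fun p hp => ?_
        rw [mem_filter, not_le] at hp
        exact hp.2.le
      refine h5.trans ?_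
      have h6 : ∏ p ∈ n.primeFactors.filter (fun p : ℕ => ¬ (p : ℝ) ≤ w), p ∣ n :=
        (prod_dvd_prod_of_subset _ _ _ (filter_subset _ _)).trans (Nat.prod_primeFactors_dvd n)
      have h7 := Nat.le_of_dvd hn h6
      rw [← Nat.cast_prod]
      exact Nat.cast_le.2 h7
    have h5 := Real.log_le_log (by positivity) h4
    rw [Real.log_pow] at h5
    exact h5
  rw [h1]
  linarith

private theorem natLog_le (B : ℕ) (hB : 1 ≤ B) : (Nat.log 2 B : ℝ) ≤ 2 * Real.log B := by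
  have h1 := Nat.pow_log_le_self 2 (x := B) (by omega)
  have h2 : (2 : ℝ) ^ (Nat.log 2 B) ≤ B := by exact_mod_cast h1
  have h3 := Real.log_le_log (by positivity) h2
  rw [Real.log_pow] at h3
  have h4 : (1 : ℝ) / 2 ≤ Real.log 2 := by
    have := Real.log_two_gt_d9
    linarith
  have h5 : (Nat.log 2 B : ℝ) * (1 / 2) ≤ Nat.log 2 B * Real.log 2 :=
    mul_le_mul_of_nonneg_left h4 (Nat.cast_nonneg _)
  linarith

theorem bs_small :
    ∃ N₀ : ℕ, ∀ N : ℕ, N₀ ≤ N → ∀ B n : ℕ, (B : ℝ) ≤ Real.sqrt N * ZC N → 1 ≤ n →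
      n ≤ (ZC N) ^ 15 →
      (((Nat.log 2 B + 1) ^ (n.primeFactors.card) : ℕ) : ℝ) ≤ (N : ℝ) ^ (1 / 50 : ℝ) := by
  obtain ⟨N₁, hN₁⟩ := ZC_pow_le 1 (1 / 2) (by norm_num)
  have hlog := ((isLittleO_log_rpow_atTop (r := 1 / 4) (by norm_num)).bound
    (by norm_num : (0 : ℝ) < 1))
  have hlog2 := (Real.tendsto_log_atTop.comp (tendsto_natCast_atTop_atTop (R := ℝ))).eventually
    hlog
  refine Filter.eventually_atTop.1 ?_
  filter_upwards [Filter.eventually_ge_atTop N₁, Filter.eventually_ge_atTop 1,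
    log_ev (10 ^ 20), hlog2] with N hNN₁ hN hL hlog3
  intro B n hB hn hnZ
  have h0 : (0 : ℝ) < N := by exact_mod_cast hN
  simp only [Function.comp_apply] at hlog3
  set L : ℝ := Real.log N with hLdef
  have hL0 : 0 < L := by linarith
  have hlogL0 : 0 ≤ Real.log L := Real.log_nonneg (by linarith)
  rw [one_mul, Real.norm_of_nonneg hlogL0, Real.norm_of_nonneg (by positivity)] at hlog3
  -- the base
  have hbase : ((Nat.log 2 B + 1 : ℕ) : ℝ) ≤ 4 * L := by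
    rcases Nat.eq_zero_or_pos B with hB0 | hB0
    · subst hB0
      simp
      linarith
    · have h1 := natLog_le B hB0
      have h2 : (B : ℝ) ≤ N := by
        have h3 := hN₁ N hNN₁
        rw [pow_one, ← Real.sqrt_eq_rpow] at h3
        calc (B : ℝ) ≤ Real.sqrt N * ZC N := hB
          _ ≤ Real.sqrt N * Real.sqrt N := mul_le_mul_of_nonneg_left h3 (Real.sqrt_nonneg _)
          _ = N := Real.mul_self_sqrt h0.le
      have h3 : Real.log B ≤ L := Real.log_le_log (by exact_mod_cast hB0) h2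
      push_cast
      linarith
  -- the exponent
  have hsq : Real.sqrt L * Real.sqrt L = L := Real.mul_self_sqrt hL0.le
  have hsqrt1 : (10 : ℝ) ^ 10 ≤ Real.sqrt L := by
    rw [show (10 : ℝ) ^ 10 = Real.sqrt (10 ^ 20) by
      rw [show (10 : ℝ) ^ 20 = (10 ^ 10) ^ 2 by norm_num, Real.sqrt_sq (by norm_num)]]
    exact Real.sqrt_le_sqrt hL
  have hom := omega_le n hn (Real.sqrt L) (by linarith)
  have hlogsq : Real.log (Real.sqrt L) = Real.log L / 2 := Real.log_sqrt hL0.le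
  rw [hlogsq] at hom
  -- `log L ≥ 40`
  have hlogLbig : 2 * Real.log 4 ≤ Real.log L := by
    have h1 : Real.log (4 ^ 2) ≤ Real.log L := Real.log_le_log (by norm_num) (by linarith)
    rw [Real.log_pow] at h1
    exact_mod_cast h1
  have hlog4 : 0 < Real.log 4 := Real.log_pos (by norm_num)
  have hlog4L : Real.log (4 * L) = Real.log 4 + Real.log L :=
    Real.log_mul (by norm_num) hL0.ne'
  have hlogn0 : 0 ≤ Real.log n := Real.log_natCast_nonneg n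
  have hlogn : Real.log n ≤ 15 * (Real.log 16 + L / 4000) := by
    have h1 : (n : ℝ) ≤ (ZC N : ℝ) ^ 15 := by exact_mod_cast hnZ
    have h2 : (n : ℝ) ≤ (16 * (N : ℝ) ^ (1 / 4000 : ℝ)) ^ 15 :=
      h1.trans (pow_le_pow_left₀ (by positivity) (ZC_le N hN) 15)
    have h3 := Real.log_le_log (by exact_mod_cast hn) h2
    rw [Real.log_pow, Real.log_mul (by norm_num) (by positivity), Real.log_rpow h0, ← hLdef] at h3
    push_cast at h3
    linarith
  have hlog16 : Real.log 16 ≤ 3 := by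
    rw [show (16 : ℝ) = 2 ^ 4 by norm_num, Real.log_pow]
    have := Real.log_two_lt_d9
    push_cast
    linarith
  have hexp : (n.primeFactors.card : ℝ) * Real.log (4 * L) ≤ L * (1 / 50) := by
    have h1 : (n.primeFactors.card : ℝ) * Real.log (4 * L) ≤
        (Real.sqrt L + Real.log n / (Real.log L / 2)) * Real.log (4 * L) :=
      mul_le_mul_of_nonneg_right hom (by rw [hlog4L]; linarith)
    have h2 : Real.log n / (Real.log L / 2) * Real.log (4 * L) ≤ 3 * Real.log n := by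
      have hpos : 0 < Real.log L := by linarith
      rw [hlog4L, div_mul_eq_mul_div, div_le_iff₀ (by positivity)]
      nlinarith
    have h3 : Real.sqrt L * Real.log (4 * L) ≤ L / 1000 := by
      have h4 : Real.log (4 * L) ≤ 2 * L ^ (1 / 4 : ℝ) := by
        rw [hlog4L]
        linarith
      have h5 : L ^ (1 / 4 : ℝ) * L ^ (1 / 4 : ℝ) = Real.sqrt L := by
        rw [← Real.rpow_add hL0, Real.sqrt_eq_rpow]
        norm_num
      have h6 : (10 : ℝ) ^ 5 ≤ L ^ (1 / 4 : ℝ) := by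
        by_contra hcon
        rw [not_le] at hcon
        have h7 : L ^ (1 / 4 : ℝ) * L ^ (1 / 4 : ℝ) < 10 ^ 5 * 10 ^ 5 :=
          mul_lt_mul'' hcon hcon (by positivity) (by positivity)
        rw [h5] at h7
        norm_num at h7 hsqrt1
        linarith
      have h7 : 0 ≤ L ^ (1 / 4 : ℝ) := by positivity
      have h8 : 2 * L ^ (1 / 4 : ℝ) ≤ Real.sqrt L / 1000 := by
        rw [← h5]
        nlinarith
      calc Real.sqrt L * Real.log (4 * L) ≤ Real.sqrt L * (Real.sqrt L / 1000) :=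
            mul_le_mul_of_nonneg_left (h4.trans h8) (Real.sqrt_nonneg _)
        _ = (Real.sqrt L * Real.sqrt L) / 1000 := by ring
        _ = L / 1000 := by rw [hsq]
    rw [add_mul] at h1
    linarith
  have hpos4 : 0 < 4 * L := by linarith
  push_cast
  calc ((Nat.log 2 B : ℝ) + 1) ^ (n.primeFactors.card) ≤ (4 * L) ^ (n.primeFactors.card) :=
        pow_le_pow_left₀ (by positivity) (by exact_mod_cast hbase) _
    _ = Real.exp ((n.primeFactors.card : ℝ) * Real.log (4 * L)) := by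
        rw [Real.exp_nat_mul, Real.exp_log hpos4]
    _ ≤ Real.exp (L * (1 / 50)) := Real.exp_le_exp.2 hexp
    _ = (N : ℝ) ^ (1 / 50 : ℝ) := by rw [Real.rpow_def_of_pos h0]

theorem mu_facts : ∃ N₀ : ℕ, ∀ N : ℕ, N₀ ≤ N → ∀ D : ℕ, 13 ≤ D → (D : ℝ) ≤ Real.log N →
    1 ≤ muc N D ∧
    Real.sqrt N / (2 * (D : ℝ) ^ 2 * YY N) ≤ (muc N D : ℝ) ∧
    (muc N D : ℝ) ≤ Real.sqrt N / ((D : ℝ) ^ 2 * YY N) ∧
    (∀ i : ℕ, i ≤ JJ N D → (KK N D i : ℝ) ≤ Real.sqrt N * YY N) ∧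
    Real.sqrt N * YY N / 2 ≤ (KK N D (JJ N D) : ℝ) ∧
    2 * Real.sqrt N - 2 ≤ (KK N D 0 : ℝ) ∧ (KK N D 0 : ℝ) ≤ 2 * Real.sqrt N ∧
    (JJ N D : ℝ) ≤ 2 * (D : ℝ) ^ 2 * (YY N : ℝ) ^ 2 := by
  refine Filter.eventually_atTop.1 ?_
  filter_upwards [Filter.eventually_ge_atTop 2, log_pow_ev 2 (1 / 4) (by norm_num),
    rpow_ev 16 (1 / 4 - 1 / 16000) (by norm_num)] with N hN hL2 hbig
  intro D hD hDL
  have h0 : (0 : ℝ) < N := by
    have : 0 < N := by omega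
    exact_mod_cast this
  have h1N : (1 : ℝ) < N := by
    have : 1 < N := by omega
    exact_mod_cast this
  -- `Y ≥ 2`
  have hY2 : 2 ≤ YY N := by
    have h1 : (1 : ℝ) < (N : ℝ) ^ (1 / 16000 : ℝ) := Real.one_lt_rpow h1N (by norm_num)
    have h2 : (1 : ℝ) < (YY N : ℝ) := h1.trans_le (YY_ge N)
    have h3 : 1 < YY N := by exact_mod_cast h2
    omega
  have hYle := YY_le N (by omega)
  set Y : ℕ := YY N with hYdef
  set s : ℕ := Nat.sqrt N with hsdef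
  have hs1 : (s : ℝ) ≤ Real.sqrt N := Real.nat_sqrt_le_real_sqrt
  have hs2 : Real.sqrt N ≤ s + 1 := Real.real_sqrt_le_nat_sqrt_succ
  have hD13 : (13 : ℝ) ≤ D := by exact_mod_cast hD
  have hY2' : (2 : ℝ) ≤ Y := by exact_mod_cast hY2
  have hx0 : 0 < D ^ 2 * Y := by positivity
  have hx1 : (1 : ℝ) ≤ (D : ℝ) ^ 2 * Y := by
    have : 1 ≤ D ^ 2 * Y := hx0
    exact_mod_cast this
  -- the main inequality
  have hx8 : 8 * ((D : ℝ) ^ 2 * Y) ≤ Real.sqrt N := by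
    have h1 : (D : ℝ) ^ 2 ≤ (N : ℝ) ^ (1 / 4 : ℝ) :=
      (pow_le_pow_left₀ (by positivity) hDL 2).trans hL2
    have h2 : (D : ℝ) ^ 2 * Y ≤ (N : ℝ) ^ (1 / 4 : ℝ) * (2 * (N : ℝ) ^ (1 / 16000 : ℝ)) :=
      mul_le_mul h1 hYle (by positivity) (by positivity)
    have h3 : Real.sqrt N = (N : ℝ) ^ (1 / 4 : ℝ) * ((N : ℝ) ^ (1 / 4 - 1 / 16000 : ℝ) *
        (N : ℝ) ^ (1 / 16000 : ℝ)) := by
      rw [← Real.rpow_add h0, ← Real.rpow_add h0, Real.sqrt_eq_rpow]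
      congr 1
      norm_num
    rw [h3]
    have h4 : 16 * (N : ℝ) ^ (1 / 16000 : ℝ) ≤ (N : ℝ) ^ (1 / 4 - 1 / 16000 : ℝ) *
        (N : ℝ) ^ (1 / 16000 : ℝ) := mul_le_mul_of_nonneg_right hbig (by positivity)
    have h5 : (N : ℝ) ^ (1 / 4 : ℝ) * (16 * (N : ℝ) ^ (1 / 16000 : ℝ)) ≤
        (N : ℝ) ^ (1 / 4 : ℝ) * ((N : ℝ) ^ (1 / 4 - 1 / 16000 : ℝ) *
        (N : ℝ) ^ (1 / 16000 : ℝ)) := mul_le_mul_of_nonneg_left h4 (by positivity)
    linarith
  have hsq0 : 0 ≤ Real.sqrt N := Real.sqrt_nonneg _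
  -- `μ`
  have hμle : (muc N D : ℝ) ≤ (s : ℝ) / ((D : ℝ) ^ 2 * Y) := by
    have h1 : ((s / (D ^ 2 * Y) : ℕ) : ℝ) ≤ (s : ℝ) / ((D ^ 2 * Y : ℕ) : ℝ) := Nat.cast_div_le
    unfold muc
    push_cast at h1
    exact h1
  have hμgt : (s : ℝ) / ((D : ℝ) ^ 2 * Y) - 1 ≤ (muc N D : ℝ) := by
    have h1 : s < (s / (D ^ 2 * Y) + 1) * (D ^ 2 * Y) := by
      have h2 := Nat.div_add_mod s (D ^ 2 * Y)
      have h3 := Nat.mod_lt s hx0
      nlinarith
    have h2 : (s : ℝ) < ((muc N D : ℝ) + 1) * ((D : ℝ) ^ 2 * Y) := by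
      unfold muc
      exact_mod_cast h1
    have h3 : (s : ℝ) / ((D : ℝ) ^ 2 * Y) < (muc N D : ℝ) + 1 := by
      rw [div_lt_iff₀ (by linarith)]
      exact h2
    linarith
  have hμlow : Real.sqrt N / (2 * (D : ℝ) ^ 2 * Y) ≤ (muc N D : ℝ) := by
    refine le_trans ?_ hμgt
    have hx : (0 : ℝ) < (D : ℝ) ^ 2 * Y := by linarith
    rw [mul_assoc, div_sub_one hx.ne', div_le_div_iff₀ (by linarith) hx]
    nlinarith
  have hμup : (muc N D : ℝ) ≤ Real.sqrt N / ((D : ℝ) ^ 2 * Y) :=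
    hμle.trans (div_le_div_of_nonneg_right hs1 (by linarith))
  have hμ1 : 1 ≤ muc N D := by
    have h1 : (4 : ℝ) ≤ (muc N D : ℝ) := by
      refine le_trans ?_ hμlow
      rw [mul_assoc, le_div_iff₀ (by linarith)]
      linarith
    have h2 : 4 ≤ muc N D := by exact_mod_cast h1
    omega
  have hJ : JJ N D * muc N D ≤ s * (Y - 2) := by
    unfold JJ
    exact Nat.div_mul_le_self _ _
  have hJ2 : s * (Y - 2) < (JJ N D + 1) * muc N D := by
    unfold JJ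
    have h2 := Nat.div_add_mod (s * (Y - 2)) (muc N D)
    have h3 := Nat.mod_lt (s * (Y - 2)) (show 0 < muc N D by omega)
    nlinarith
  have hsY : s * (Y - 2) + 2 * s = s * Y := by
    obtain ⟨k, hk⟩ := Nat.exists_eq_add_of_le hY2
    rw [hk, Nat.add_sub_cancel_left]
    ring
  have hμ169 : (muc N D : ℝ) ≤ Real.sqrt N / 169 := by
    refine hμup.trans (div_le_div_of_nonneg_left hsq0 (by norm_num) ?_)
    nlinarith
  refine ⟨hμ1, hμlow, hμup, fun i hi => ?_, ?_, ?_, ?_, ?_⟩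
  · have h1 : KK N D i ≤ s * Y := by
      unfold KK
      have h2 : i * muc N D ≤ JJ N D * muc N D := Nat.mul_le_mul_right _ hi
      rw [← hsdef]
      omega
    have h2 : (KK N D i : ℝ) ≤ (s : ℝ) * Y := by exact_mod_cast h1
    exact h2.trans (mul_le_mul_of_nonneg_right hs1 (by positivity))
  · have h1 : s * Y ≤ KK N D (JJ N D) + muc N D := by
      unfold KK
      rw [add_mul, one_mul] at hJ2
      rw [← hsdef]
      omega
    have h2 : (s : ℝ) * Y ≤ (KK N D (JJ N D) : ℝ) + muc N D := by exact_mod_cast h1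
    have h3 : (8 : ℝ) ≤ Real.sqrt N := by linarith
    nlinarith
  · unfold KK
    push_cast
    linarith
  · unfold KK
    push_cast
    linarith
  · have h1 : (JJ N D : ℝ) * muc N D ≤ Real.sqrt N * Y := by
      have h2 : JJ N D * muc N D ≤ s * Y := hJ.trans (by omega)
      have h3 : (JJ N D : ℝ) * muc N D ≤ (s : ℝ) * Y := by exact_mod_cast h2
      exact h3.trans (mul_le_mul_of_nonneg_right hs1 (by positivity))
    have hJ0 : (0 : ℝ) ≤ JJ N D := Nat.cast_nonneg _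
    have h2 : (JJ N D : ℝ) * (Real.sqrt N / (2 * (D : ℝ) ^ 2 * Y)) ≤ Real.sqrt N * Y :=
      (mul_le_mul_of_nonneg_left hμlow hJ0).trans h1
    have hs0 : 0 < Real.sqrt N := Real.sqrt_pos.2 h0
    rw [mul_div_assoc', div_le_iff₀ (by positivity)] at h2
    have h3 : (JJ N D : ℝ) * Real.sqrt N ≤ (2 * (D : ℝ) ^ 2 * (Y : ℝ) ^ 2) * Real.sqrt N := by
      nlinarith
    exact le_of_mul_le_mul_right h3 hs0

end Pool.Agent.MKA
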