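import Pool.Agent.MKA.AvgA

/-!
# MKA/AvgT: average of `TG(gcd)^4`

`α_x = AA a x ^2 - 1`, `0 < α_x ≤ Z^5`, `l = log Z`, `X_m = ∑_{x ∈ XS, m ∣ α_x} 1/x`.  By `TG_le_sum` the
left side is at most `Λ₀² + ∑_{w < m ≤ Z^5, coprime to 2q} τ(m)^4 X_m²`, and `X_m ≤ τ(m)(1/Z + l/(2qm))`
(`xsum_a`).  Use this for one factor:
`∑ τ^4 X_m² ≤ (1/Z) ∑_m τ^5 X_m + (l/(2q)) ∑_m (τ^5/m) X_m`.
First part: `∑_m τ(m)^5 X_m = ∑_x (1/x) ∑_{m ∣ α_x} τ(m)^5 ≤ Λ₀ max τ(α_x)^6 ≤ Λ₀ C Z^(1/8)` (`tau_pow 6`).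
Second part, with the bound for `X_m` again:
`≤ (l/(2q))(1/Z) ∑_m τ^6/m + (l/(2q))² ∑_{m>w} τ^6/m² ≤ (l/(2q)) C Z^(-3/4) + (l/(2q))² C/√w`
(`tau_sum`, `tau_tail`).  Conclude with `lam0_lower`.
-/

set_option autoImplicit false

namespace Pool.Agent.MKA

open Finset

/-- the sizes of `x` and `AA a x ^ 2 - 1` for `x ∈ XS` -/
lemma alpha_facts {Z a q : ℕ} {x₀ A₀ : ℤ} (hZ : 4 ≤ Z) (ha : 1 ≤ a)
    (haZ : (a : ℝ) ≤ (Z : ℝ) ^ (1 / 100 : ℝ)) (hA : (a : ℤ) * x₀ = 2 * A₀) {x : ℤ}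
    (hx : x ∈ XS q x₀ Z) :
    (0 : ℝ) < (x : ℝ) ∧ 0 < AA a x ^ 2 - 1 ∧ AA a x ^ 2 - 1 ≤ ((Z ^ 5 : ℕ) : ℤ) := by
  unfold XS at hx
  rw [Finset.mem_filter, Finset.mem_Ioc] at hx
  obtain ⟨⟨h1, h2⟩, h3⟩ := hx
  have hspec := AA_spec a q x x₀ A₀ hA h3
  have hZ' : (4 : ℤ) ≤ (Z : ℤ) := by exact_mod_cast hZ
  have hx0 : (0 : ℤ) < x := by linarith
  have ha' : (1 : ℤ) ≤ (a : ℤ) := by exact_mod_cast ha
  have haa : (a : ℤ) ^ 2 ≤ (Z : ℤ) := by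
    have hZr : (1 : ℝ) ≤ (Z : ℝ) := by
      have : (4 : ℝ) ≤ (Z : ℝ) := by exact_mod_cast hZ
      linarith
    have h4 : (a : ℝ) ≤ (Z : ℝ) ^ (1 / 2 : ℝ) :=
      haZ.trans (Real.rpow_le_rpow_of_exponent_le hZr (by norm_num))
    have h5 : (a : ℝ) ^ 2 ≤ ((Z : ℝ) ^ (1 / 2 : ℝ)) ^ 2 :=
      pow_le_pow_left₀ (by positivity) h4 2
    have h6 : ((Z : ℝ) ^ (1 / 2 : ℝ)) ^ 2 = (Z : ℝ) := by
      rw [← Real.rpow_natCast, ← Real.rpow_mul (by positivity)]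
      norm_num
    rw [h6] at h5
    exact_mod_cast h5
  have hAx : (a : ℤ) * x ≤ a * (Z : ℤ) ^ 2 := mul_le_mul_of_nonneg_left h2 (by linarith)
  have hAx' : (Z : ℤ) < (a : ℤ) * x := by nlinarith
  have hpos : 2 < AA a x := by omega
  refine ⟨by exact_mod_cast hx0, by nlinarith, ?_⟩
  have h7 : (2 * AA a x) ^ 2 ≤ (a * (Z : ℤ) ^ 2) ^ 2 := by
    rw [hspec]
    exact pow_le_pow_left₀ (by positivity) hAx 2
  have h8 : (a * (Z : ℤ) ^ 2) ^ 2 ≤ (Z : ℤ) * (Z : ℤ) ^ 4 := by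
    have : (a * (Z : ℤ) ^ 2) ^ 2 = (a : ℤ) ^ 2 * (Z : ℤ) ^ 4 := by ring
    rw [this]
    exact mul_le_mul_of_nonneg_right haa (by positivity)
  push_cast
  nlinarith [sq_nonneg (AA a x)]

/-- expanding the average -/
lemma avg_t_step1 (S : Finset ℤ) (α : ℤ → ℤ) (V q w : ℕ) (hq : 1 ≤ q)
    (hw : ∀ p : ℕ, p.Prime → p ≤ w → p ∣ 2 * q)
    (hS : ∀ x ∈ S, (0 : ℝ) < (x : ℝ) ∧ 0 < α x ∧ α x ≤ (V : ℤ)) :
    ∑ x ∈ S, ∑ x' ∈ S, 1 / ((x : ℝ) * x') * (TG q (Int.gcd (α x) (α x'))) ^ 4 ≤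
      (∑ x ∈ S, 1 / (x : ℝ)) ^ 2 +
        ∑ m ∈ (Ioc w V).filter (fun m => Nat.Coprime m (2 * q)),
          (m.divisors.card : ℝ) ^ 4 *
            (∑ x ∈ S.filter (fun x => (m : ℤ) ∣ α x), 1 / (x : ℝ)) ^ 2 := by
  classical
  set M := (Ioc w V).filter (fun m => Nat.Coprime m (2 * q)) with hM
  let ix : ℕ → ℤ → ℝ := fun m x => if (m : ℤ) ∣ α x then 1 / (x : ℝ) else 0
  have key : ∀ x ∈ S, ∀ x' ∈ S,
      1 / ((x : ℝ) * x') * (TG q (Int.gcd (α x) (α x'))) ^ 4 ≤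
        1 / (x : ℝ) * (1 / (x' : ℝ)) + ∑ m ∈ M, (m.divisors.card : ℝ) ^ 4 * (ix m x * ix m x') := by
    intro x hx x' hx'
    obtain ⟨h1, h2, h3⟩ := hS x hx
    obtain ⟨h1', h2', h3'⟩ := hS x' hx'
    have hg : Int.gcd (α x) (α x') ≠ 0 := by
      intro h
      rw [Int.gcd_eq_zero_iff] at h
      omega
    have h4 := TG_le_sum q w hq hw (Int.gcd (α x) (α x')) hg
    have h5 : (Int.gcd (α x) (α x')).divisors.filter (fun m => w < m ∧ Nat.Coprime m (2 * q)) ⊆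
        M.filter (fun m : ℕ => (m : ℤ) ∣ α x ∧ (m : ℤ) ∣ α x') := by
      intro m hm
      rw [Finset.mem_filter, Nat.mem_divisors] at hm
      obtain ⟨⟨hm1, -⟩, hm2, hm3⟩ := hm
      have d1 : (m : ℤ) ∣ α x := (Int.natCast_dvd_natCast.2 hm1).trans (Int.gcd_dvd_left _ _)
      have d2 : (m : ℤ) ∣ α x' := (Int.natCast_dvd_natCast.2 hm1).trans (Int.gcd_dvd_right _ _)
      have hle : (m : ℤ) ≤ V := (Int.le_of_dvd h2 d1).trans h3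
      rw [Finset.mem_filter, hM, Finset.mem_filter, Finset.mem_Ioc]
      exact ⟨⟨⟨hm2, by exact_mod_cast hle⟩, hm3⟩, d1, d2⟩
    have h6 : (TG q (Int.gcd (α x) (α x'))) ^ 4 ≤
        1 + ∑ m ∈ M.filter (fun m : ℕ => (m : ℤ) ∣ α x ∧ (m : ℤ) ∣ α x'),
          (m.divisors.card : ℝ) ^ 4 :=
      h4.trans (add_le_add le_rfl (Finset.sum_le_sum_of_subset_of_nonneg h5
        fun i _ _ => by positivity))
    have h7 : (0 : ℝ) ≤ 1 / ((x : ℝ) * x') := by positivity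
    refine (mul_le_mul_of_nonneg_left h6 h7).trans (le_of_eq ?_)
    rw [mul_add, mul_one, Finset.sum_filter, Finset.mul_sum]
    have e1 : 1 / ((x : ℝ) * x') = 1 / (x : ℝ) * (1 / (x' : ℝ)) := by
      rw [one_div_mul_one_div]
    rw [e1]
    congr 1
    refine Finset.sum_congr rfl fun m _ => ?_
    show _ = (m.divisors.card : ℝ) ^ 4 * ((if (m : ℤ) ∣ α x then 1 / (x : ℝ) else 0) *
      (if (m : ℤ) ∣ α x' then 1 / (x' : ℝ) else 0))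
    by_cases c1 : (m : ℤ) ∣ α x
    · by_cases c2 : (m : ℤ) ∣ α x'
      · rw [if_pos ⟨c1, c2⟩, if_pos c1, if_pos c2]; ring
      · rw [if_neg (fun h => c2 h.2), if_neg c2]; ring
    · rw [if_neg (fun h => c1 h.1), if_neg c1]; ring
  have h8 : ∀ m : ℕ, ∑ x ∈ S.filter (fun x => (m : ℤ) ∣ α x), 1 / (x : ℝ) = ∑ x ∈ S, ix m x :=
    fun m => Finset.sum_filter _ _
  calc ∑ x ∈ S, ∑ x' ∈ S, 1 / ((x : ℝ) * x') * (TG q (Int.gcd (α x) (α x'))) ^ 4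
      ≤ ∑ x ∈ S, ∑ x' ∈ S, (1 / (x : ℝ) * (1 / (x' : ℝ)) +
          ∑ m ∈ M, (m.divisors.card : ℝ) ^ 4 * (ix m x * ix m x')) :=
        Finset.sum_le_sum fun x hx => Finset.sum_le_sum fun x' hx' => key x hx x' hx'
    _ = (∑ x ∈ S, 1 / (x : ℝ)) ^ 2 + ∑ m ∈ M, (m.divisors.card : ℝ) ^ 4 *
          (∑ x ∈ S.filter (fun x => (m : ℤ) ∣ α x), 1 / (x : ℝ)) ^ 2 := by
        simp_rw [Finset.sum_add_distrib]
        rw [pow_two, Finset.sum_mul_sum]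
        congr 1
        have h9 : ∀ x ∈ S, ∑ x' ∈ S, ∑ m ∈ M, (m.divisors.card : ℝ) ^ 4 * (ix m x * ix m x') =
            ∑ m ∈ M, ∑ x' ∈ S, (m.divisors.card : ℝ) ^ 4 * (ix m x * ix m x') :=
          fun x _ => Finset.sum_comm
        rw [Finset.sum_congr rfl h9, Finset.sum_comm]
        refine Finset.sum_congr rfl fun m _ => ?_
        rw [h8, pow_two, Finset.sum_mul_sum, Finset.mul_sum]
        refine Finset.sum_congr rfl fun x _ => ?_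
        rw [Finset.mul_sum]

/-- the divisor sums over one `x` -/
lemma avg_t_step3 (S : Finset ℤ) (α : ℤ → ℤ) (V q w : ℕ) (K : ℝ)
    (hS : ∀ x ∈ S, (0 : ℝ) < (x : ℝ) ∧ 0 < α x ∧ α x ≤ (V : ℤ))
    (hK : ∀ n : ℕ, 1 ≤ n → n ≤ V → (n.divisors.card : ℝ) ^ 6 ≤ K) :
    ∑ m ∈ (Ioc w V).filter (fun m => Nat.Coprime m (2 * q)),
      (m.divisors.card : ℝ) ^ 5 * (∑ x ∈ S.filter (fun x => (m : ℤ) ∣ α x), 1 / (x : ℝ)) ≤
      (∑ x ∈ S, 1 / (x : ℝ)) * K := by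
  classical
  set M := (Ioc w V).filter (fun m => Nat.Coprime m (2 * q)) with hM
  have h1 : ∀ m ∈ M, (m.divisors.card : ℝ) ^ 5 *
      (∑ x ∈ S.filter (fun x => (m : ℤ) ∣ α x), 1 / (x : ℝ)) =
      ∑ x ∈ S, (if (m : ℤ) ∣ α x then (m.divisors.card : ℝ) ^ 5 * (1 / (x : ℝ)) else 0) := by
    intro m _
    rw [Finset.mul_sum, Finset.sum_filter]
  rw [Finset.sum_congr rfl h1, Finset.sum_comm, Finset.sum_mul]
  refine Finset.sum_le_sum fun x hx => ?_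
  obtain ⟨h2, h3, h4⟩ := hS x hx
  rw [← Finset.sum_filter, ← Finset.sum_mul, mul_comm]
  refine mul_le_mul_of_nonneg_left ?_ (by positivity)
  have h5 : M.filter (fun m : ℕ => (m : ℤ) ∣ α x) ⊆ (α x).natAbs.divisors := by
    intro m hm
    rw [Finset.mem_filter] at hm
    rw [Nat.mem_divisors]
    exact ⟨Int.natCast_dvd.1 hm.2, by omega⟩
  have h6 : ∀ m ∈ (α x).natAbs.divisors, (m.divisors.card : ℝ) ^ 5 ≤
      ((α x).natAbs.divisors.card : ℝ) ^ 5 := by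
    intro m hm
    rw [Nat.mem_divisors] at hm
    refine pow_le_pow_left₀ (by positivity) ?_ 5
    exact_mod_cast Finset.card_le_card (Nat.divisors_subset_of_dvd hm.2 hm.1)
  calc ∑ m ∈ M.filter (fun m : ℕ => (m : ℤ) ∣ α x), (m.divisors.card : ℝ) ^ 5
      ≤ ∑ m ∈ (α x).natAbs.divisors, (m.divisors.card : ℝ) ^ 5 :=
        Finset.sum_le_sum_of_subset_of_nonneg h5 fun i _ _ => by positivity
    _ ≤ ∑ _m ∈ (α x).natAbs.divisors, ((α x).natAbs.divisors.card : ℝ) ^ 5 :=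
        Finset.sum_le_sum h6
    _ = ((α x).natAbs.divisors.card : ℝ) ^ 6 := by
        rw [Finset.sum_const, nsmul_eq_mul]; ring
    _ ≤ K := hK _ (by omega) (by omega)

theorem avg_t : ∃ C : ℝ, 0 < C ∧ ∃ Z₀ : ℕ, ∀ Z : ℕ, Z₀ ≤ Z → ∀ (a q w : ℕ) (x₀ A₀ : ℤ),
    1 ≤ a → (a : ℝ) ≤ (Z : ℝ) ^ (1 / 100 : ℝ) → 1 ≤ q → (q : ℝ) ≤ (Z : ℝ) ^ (1 / 100 : ℝ) →
    1 ≤ w → (w : ℝ) ≤ (Z : ℝ) ^ (1 / 100 : ℝ) → (∀ p : ℕ, p.Prime → p ≤ w → p ∣ 2 * q) →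
    (a : ℤ) * x₀ = 2 * A₀ →
    ∑ x ∈ XS q x₀ Z, ∑ x' ∈ XS q x₀ Z,
      1 / ((x : ℝ) * x') * (TG q (Int.gcd (AA a x ^ 2 - 1) (AA a x' ^ 2 - 1))) ^ 4 ≤
      (1 + C / Real.sqrt w) * (∑ x ∈ XS q x₀ Z, 1 / (x : ℝ)) ^ 2 := by
  classical
  obtain ⟨C6, hC6, h6⟩ := tau_pow 6
  obtain ⟨Ct, hCt, ht⟩ := tau_tail 6
  obtain ⟨Cs, hCs, hs⟩ := tau_sum 6
  obtain ⟨Z1, hZ1⟩ := lam0_lower
  refine ⟨C6 + 2 * Cs + 4 * Ct, by linarith, max Z1 4, ?_⟩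
  intro Z hZ a q w x₀ A₀ ha1 haZ hq1 hqZ hw1 hwZ hwp hA
  have hZ1' : Z1 ≤ Z := (le_max_left _ _).trans hZ
  have hZ4 : 4 ≤ Z := (le_max_right _ _).trans hZ
  have hZr : (4 : ℝ) ≤ (Z : ℝ) := by exact_mod_cast hZ4
  have hZr1 : (1 : ℝ) ≤ (Z : ℝ) := by linarith
  have hZpos : (0 : ℝ) < (Z : ℝ) := by linarith
  obtain ⟨hl1, hl2⟩ := hZ1 Z hZ1' q x₀ hq1 hqZ
  set S := XS q x₀ Z with hSd
  set Λ : ℝ := ∑ x ∈ S, 1 / (x : ℝ) with hΛ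
  set L : ℝ := Real.log Z / (2 * q) with hL
  have hqr : (1 : ℝ) ≤ (q : ℝ) := by exact_mod_cast hq1
  have hL0 : 0 ≤ L := by
    have : 0 ≤ Real.log Z := Real.log_nonneg hZr1
    positivity
  have hV1 : 1 ≤ Z ^ 5 := Nat.one_le_pow _ _ (by omega)
  have hfacts : ∀ x ∈ S, (0 : ℝ) < (x : ℝ) ∧ 0 < AA a x ^ 2 - 1 ∧
      AA a x ^ 2 - 1 ≤ ((Z ^ 5 : ℕ) : ℤ) := fun x hx => alpha_facts hZ4 ha1 haZ hA hx
  have hΛ0 : 0 < Λ := lt_of_lt_of_le (Real.rpow_pos_of_pos hZpos _) hl2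
  set M := (Ioc w (Z ^ 5)).filter (fun m => Nat.Coprime m (2 * q)) with hM
  set X : ℕ → ℝ := fun m => ∑ x ∈ S.filter (fun x => (m : ℤ) ∣ AA a x ^ 2 - 1), 1 / (x : ℝ)
    with hX
  have hX0 : ∀ m, 0 ≤ X m := fun m => Finset.sum_nonneg fun x hx => by
    have := (hfacts x (Finset.mem_filter.1 hx).1).1
    positivity
  have hXb : ∀ m ∈ M, X m ≤ (m.divisors.card : ℝ) * (1 / (Z : ℝ) + L * (1 / m)) := by
    intro m hm
    rw [hM, Finset.mem_filter, Finset.mem_Ioc] at hm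
    have h := xsum_a a q Z m x₀ A₀ hA hq1 (by omega) hm.2
    have hm0 : (0 : ℝ) < (m : ℝ) := by
      have : 0 < m := by omega
      exact_mod_cast this
    have e : Real.log Z / (2 * q * m) = L * (1 / m) := by
      rw [hL]; field_simp
    rw [e] at h
    exact h
  have s1 := avg_t_step1 S (fun x => AA a x ^ 2 - 1) (Z ^ 5) q w hq1 hwp hfacts
  -- the exponential sizes
  have hKb : ∀ n : ℕ, 1 ≤ n → n ≤ Z ^ 5 → (n.divisors.card : ℝ) ^ 6 ≤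
      C6 * (Z : ℝ) ^ (1 / 8 : ℝ) := by
    intro n hn hn'
    refine (h6 n hn).trans (mul_le_mul_of_nonneg_left ?_ (by linarith))
    have h1 : (n : ℝ) ≤ (Z : ℝ) ^ (5 : ℝ) := by
      have : (n : ℝ) ≤ (Z : ℝ) ^ (5 : ℕ) := by exact_mod_cast hn'
      rwa [← Real.rpow_natCast] at this
    have h2 : (n : ℝ) ^ (1 / 40 : ℝ) ≤ ((Z : ℝ) ^ (5 : ℝ)) ^ (1 / 40 : ℝ) :=
      Real.rpow_le_rpow (by positivity) h1 (by norm_num)
    rw [← Real.rpow_mul (by positivity)] at h2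
    refine h2.trans (le_of_eq ?_)
    norm_num
  have s3 := avg_t_step3 S (fun x => AA a x ^ 2 - 1) (Z ^ 5) q w _ hfacts hKb
  -- step 2
  have s2 : ∑ m ∈ M, (m.divisors.card : ℝ) ^ 4 * (X m) ^ 2 ≤
      1 / (Z : ℝ) * (∑ m ∈ M, (m.divisors.card : ℝ) ^ 5 * X m) +
        L * ∑ m ∈ M, (m.divisors.card : ℝ) ^ 5 / (m : ℝ) * X m := by
    rw [Finset.mul_sum, Finset.mul_sum, ← Finset.sum_add_distrib]
    refine Finset.sum_le_sum fun m hm => ?_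
    have h1 := hXb m hm
    have h2 := hX0 m
    have h3 : (m.divisors.card : ℝ) ^ 4 * (X m) ^ 2 ≤ (m.divisors.card : ℝ) ^ 4 *
        (X m * ((m.divisors.card : ℝ) * (1 / (Z : ℝ) + L * (1 / m)))) := by
      refine mul_le_mul_of_nonneg_left ?_ (by positivity)
      rw [pow_two]
      exact mul_le_mul_of_nonneg_left h1 h2
    refine h3.trans (le_of_eq ?_)
    ring
  -- step 4
  have s4 : ∑ m ∈ M, (m.divisors.card : ℝ) ^ 5 / (m : ℝ) * X m ≤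
      1 / (Z : ℝ) * (Cs * (Z : ℝ) ^ (1 / 4 : ℝ)) + L * (Ct / Real.sqrt w) := by
    have h1 : ∑ m ∈ M, (m.divisors.card : ℝ) ^ 5 / (m : ℝ) * X m ≤
        1 / (Z : ℝ) * (∑ m ∈ M, (m.divisors.card : ℝ) ^ 6 / (m : ℝ)) +
          L * ∑ m ∈ M, (m.divisors.card : ℝ) ^ 6 / (m : ℝ) ^ 2 := by
      rw [Finset.mul_sum, Finset.mul_sum, ← Finset.sum_add_distrib]
      refine Finset.sum_le_sum fun m hm => ?_
      have h2 := hXb m hm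
      have hm' := hm
      rw [hM, Finset.mem_filter, Finset.mem_Ioc] at hm'
      have hm0 : (0 : ℝ) < (m : ℝ) := by
        have : 0 < m := by omega
        exact_mod_cast this
      refine (mul_le_mul_of_nonneg_left h2 (by positivity)).trans (le_of_eq ?_)
      field_simp
    have h2 : ∑ m ∈ M, (m.divisors.card : ℝ) ^ 6 / (m : ℝ) ≤ Cs * (Z : ℝ) ^ (1 / 4 : ℝ) := by
      have h3 : ∑ m ∈ M, (m.divisors.card : ℝ) ^ 6 / (m : ℝ) ≤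
          ∑ m ∈ Icc 1 (Z ^ 5), (m.divisors.card : ℝ) ^ 6 / (m : ℝ) := by
        refine Finset.sum_le_sum_of_subset_of_nonneg ?_ fun i _ _ => by positivity
        intro m hm
        rw [hM, Finset.mem_filter, Finset.mem_Ioc] at hm
        rw [Finset.mem_Icc]
        omega
      refine h3.trans ((hs (Z ^ 5) hV1).trans (mul_le_mul_of_nonneg_left (le_of_eq ?_)
        (by linarith)))
      rw [show (((Z ^ 5 : ℕ)) : ℝ) = (Z : ℝ) ^ (5 : ℝ) by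
        push_cast
        rw [← Real.rpow_natCast]
        norm_num, ← Real.rpow_mul (by positivity)]
      norm_num
    have h3 : ∑ m ∈ M, (m.divisors.card : ℝ) ^ 6 / (m : ℝ) ^ 2 ≤ Ct / Real.sqrt w := by
      refine le_trans ?_ (ht w (Z ^ 5) hw1)
      exact Finset.sum_le_sum_of_subset_of_nonneg (Finset.filter_subset _ _)
        fun i _ _ => by positivity
    refine h1.trans (add_le_add (mul_le_mul_of_nonneg_left h2 (by positivity))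
      (mul_le_mul_of_nonneg_left h3 hL0))
  -- collecting
  have hwr : (1 : ℝ) ≤ (w : ℝ) := by exact_mod_cast hw1
  have hsw : 0 < Real.sqrt w := Real.sqrt_pos.2 (by linarith)
  have hsw' : (Z : ℝ) ^ (-(1 / 200) : ℝ) ≤ 1 / Real.sqrt w := by
    have h1 : Real.sqrt w ≤ (Z : ℝ) ^ (1 / 200 : ℝ) := by
      have h2 : Real.sqrt w ≤ Real.sqrt ((Z : ℝ) ^ (1 / 100 : ℝ)) := Real.sqrt_le_sqrt hwZ
      rw [Real.sqrt_eq_rpow ((Z : ℝ) ^ (1 / 100 : ℝ)), ← Real.rpow_mul (by positivity)] at h2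
      refine h2.trans (le_of_eq ?_)
      norm_num
    rw [Real.rpow_neg (by positivity), ← one_div]
    exact one_div_le_one_div_of_le hsw h1
  set R := 1 / Real.sqrt w with hR
  have hR0 : 0 < R := by positivity
  -- Z^(-7/8) ≤ Λ R
  have hsmall : ∀ e : ℝ, e ≤ -(3 / 4) → (Z : ℝ) ^ e ≤ Λ * R := by
    intro e he
    have h1 : (Z : ℝ) ^ e ≤ (Z : ℝ) ^ (-(1 / 50) + -(1 / 200) : ℝ) :=
      Real.rpow_le_rpow_of_exponent_le hZr1 (by linarith)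
    rw [Real.rpow_add hZpos] at h1
    exact h1.trans (mul_le_mul hl2 hsw' (by positivity) hΛ0.le)
  have t1 : 1 / (Z : ℝ) * (Λ * (C6 * (Z : ℝ) ^ (1 / 8 : ℝ))) ≤ C6 * R * Λ ^ 2 := by
    have e1 : 1 / (Z : ℝ) * (Λ * (C6 * (Z : ℝ) ^ (1 / 8 : ℝ))) =
        C6 * Λ * (Z : ℝ) ^ (-1 + 1 / 8 : ℝ) := by
      rw [Real.rpow_add hZpos, Real.rpow_neg_one, one_div]; ring
    rw [e1]
    have := mul_le_mul_of_nonneg_left (hsmall (-1 + 1 / 8) (by norm_num))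
      (show 0 ≤ C6 * Λ by positivity)
    calc C6 * Λ * (Z : ℝ) ^ (-1 + 1 / 8 : ℝ) ≤ C6 * Λ * (Λ * R) := this
      _ = C6 * R * Λ ^ 2 := by ring
  have t2 : 1 / (Z : ℝ) * (Cs * (Z : ℝ) ^ (1 / 4 : ℝ)) ≤ Cs * (Λ * R) := by
    have e1 : 1 / (Z : ℝ) * (Cs * (Z : ℝ) ^ (1 / 4 : ℝ)) = Cs * (Z : ℝ) ^ (-1 + 1 / 4 : ℝ) := by
      rw [Real.rpow_add hZpos, Real.rpow_neg_one, one_div]; ring
    rw [e1]
    exact mul_le_mul_of_nonneg_left (hsmall (-1 + 1 / 4) (by norm_num)) (by linarith)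
  have t3 : L * (1 / (Z : ℝ) * (Cs * (Z : ℝ) ^ (1 / 4 : ℝ)) + L * (Ct / Real.sqrt w)) ≤
      (2 * Cs + 4 * Ct) * R * Λ ^ 2 := by
    have e1 : Ct / Real.sqrt w = Ct * R := by rw [hR]; ring
    rw [e1]
    have h1 : L * (1 / (Z : ℝ) * (Cs * (Z : ℝ) ^ (1 / 4 : ℝ))) ≤ (2 * Λ) * (Cs * (Λ * R)) :=
      mul_le_mul hl1 t2 (by positivity) (by positivity)
    have h2 : L * L ≤ (2 * Λ) * (2 * Λ) := mul_le_mul hl1 hl1 hL0 (by positivity)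
    have h3 : L * (L * (Ct * R)) ≤ (2 * Λ) * (2 * Λ) * (Ct * R) := by
      have := mul_le_mul_of_nonneg_right h2 (show 0 ≤ Ct * R by positivity)
      calc L * (L * (Ct * R)) = L * L * (Ct * R) := by ring
        _ ≤ _ := this
    rw [mul_add]
    calc L * (1 / (Z : ℝ) * (Cs * (Z : ℝ) ^ (1 / 4 : ℝ))) + L * (L * (Ct * R))
        ≤ (2 * Λ) * (Cs * (Λ * R)) + (2 * Λ) * (2 * Λ) * (Ct * R) := add_le_add h1 h3
      _ = (2 * Cs + 4 * Ct) * R * Λ ^ 2 := by ring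
  have hfin : ∑ m ∈ M, (m.divisors.card : ℝ) ^ 4 * (X m) ^ 2 ≤
      (C6 + 2 * Cs + 4 * Ct) * R * Λ ^ 2 := by
    have u1 : 1 / (Z : ℝ) * (∑ m ∈ M, (m.divisors.card : ℝ) ^ 5 * X m) ≤
        1 / (Z : ℝ) * (Λ * (C6 * (Z : ℝ) ^ (1 / 8 : ℝ))) :=
      mul_le_mul_of_nonneg_left s3 (by positivity)
    have u2 := mul_le_mul_of_nonneg_left s4 hL0
    calc ∑ m ∈ M, (m.divisors.card : ℝ) ^ 4 * (X m) ^ 2
        ≤ _ := s2
      _ ≤ C6 * R * Λ ^ 2 + (2 * Cs + 4 * Ct) * R * Λ ^ 2 :=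
          add_le_add (u1.trans t1) (u2.trans t3)
      _ = (C6 + 2 * Cs + 4 * Ct) * R * Λ ^ 2 := by ring
  refine s1.trans ?_
  have e2 : (1 + (C6 + 2 * Cs + 4 * Ct) / Real.sqrt w) * Λ ^ 2 =
      Λ ^ 2 + (C6 + 2 * Cs + 4 * Ct) * R * Λ ^ 2 := by rw [hR]; ring
  rw [e2]
  exact add_le_add le_rfl hfin

end Pool.Agent.MKA
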