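import Pool.Agent.MKA.SbEuler

/-!
# MKA/FPa: from the Euler product to separate factors

Let `P(n)` be the set of the primes `p ∣ n`, `p ∤ 2q` (so `FP c q n = ∏_{P(n)} (1 + c/p)`).
(1) `P(αβγ) = P(α) ∪ P(β) ∪ P(γ)`, all factors `1 + 6/p ≥ 1`, so
`∏_{P(αβγ)} (1+6/p) ≤ FP 6 q α · FP 6 q β · FP 6 q γ`.
(2) `∏_{p ∈ P(αβγ)} (1 + vv p α β) = ∏_{p ∣ g, p ∤ 2q} (1 + v_p(g)) = TG q g` with `g = gcd(α,β)`:
`vv p α β = v_p(g)` (it is `0` if `p ∤ g`), and the divisors of `g` coprime to `2q` are the divisors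
of `g' = ∏_{p ∣ g, p ∤ 2q} p^(v_p(g))` (`Nat.card_divisors`).
(3) `a b c d ≤ (a⁴ + b⁴ + c⁴ + d⁴)/4` for nonnegative reals.
(4) `(1 + 6/p)^4 ≤ 1 + 48/p` for `p ≥ 13` (`(1+t)^4 ≤ 1 + 8t` for `0 ≤ t ≤ 1/2`), so
`(FP 6 q n)^4 ≤ FP 48 q n` (all primes `≤ 12` divide `2q`).
Size: 120-150 lines.
-/

set_option autoImplicit false

namespace Pool.Agent.MKA

open Finset


private lemma fpa_union (A B : Finset ℕ) (f : ℕ → ℝ) (hf : ∀ p, 1 ≤ f p) :
    ∏ p ∈ A ∪ B, f p ≤ (∏ p ∈ A, f p) * ∏ p ∈ B, f p := by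
  rw [← Finset.prod_union_inter]
  have h1 : 1 ≤ ∏ p ∈ A ∩ B, f p := Finset.one_le_prod (fun p _ => hf p)
  have h2 : 0 ≤ ∏ p ∈ A ∪ B, f p := Finset.prod_nonneg (fun p _ => le_trans zero_le_one (hf p))
  nlinarith

private lemma fpa_pow (q : ℕ) (n : ℤ) (h12 : ∀ p : ℕ, p.Prime → p ≤ 12 → p ∣ 2 * q) :
    (FP 6 q n) ^ 4 ≤ FP 48 q n := by
  unfold FP
  rw [← Finset.prod_pow]
  apply Finset.prod_le_prod
  · intro p _
    positivity
  · intro p hp
    rw [mem_filter, Nat.mem_primeFactors] at hp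
    have h13 : 13 ≤ p := by
      by_contra h
      exact hp.2 (h12 p hp.1.1 (by omega))
    have hpr : (13 : ℝ) ≤ p := by exact_mod_cast h13
    have ht0 : 0 < 1 / (p : ℝ) := by positivity
    have ht1 : 1 / (p : ℝ) ≤ 1 / 13 := one_div_le_one_div_of_le (by norm_num) hpr
    have e1 : 6 / (p : ℝ) = 6 * (1 / (p : ℝ)) := by ring
    have e2 : 48 / (p : ℝ) = 8 * (6 * (1 / (p : ℝ))) := by ring
    rw [e1, e2]
    have hs0 : 0 ≤ 6 * (1 / (p : ℝ)) := by positivity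
    have hs1 : 6 * (1 / (p : ℝ)) ≤ 6 / 13 := by linarith
    generalize 6 * (1 / (p : ℝ)) = s at hs0 hs1
    have h2 : s ^ 2 ≤ 6 / 13 * s := by nlinarith
    have h3 : s ^ 3 ≤ (6 / 13) ^ 2 * s := by nlinarith [mul_nonneg hs0 hs0]
    have h4 : s ^ 4 ≤ (6 / 13) ^ 3 * s := by nlinarith [mul_nonneg hs0 hs0, pow_nonneg hs0 3]
    nlinarith

private lemma fpa_amgm (a b c d : ℝ) : a * b * c * d ≤ (a ^ 4 + b ^ 4 + c ^ 4 + d ^ 4) / 4 := by
  nlinarith [sq_nonneg (a * b - c * d), sq_nonneg (a ^ 2 - b ^ 2), sq_nonneg (c ^ 2 - d ^ 2)]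

private lemma fpa_FPnn (q : ℕ) (n : ℤ) : 0 ≤ FP 6 q n := by
  unfold FP
  exact Finset.prod_nonneg (fun p _ => by positivity)

private lemma fpa_div (q g : ℕ) (hg : g ≠ 0) :
    ∏ p ∈ g.primeFactors.filter (fun p : ℕ => ¬ p ∣ 2 * q), (1 + (g.factorization p : ℝ)) ≤
      TG q g := by
  obtain ⟨f, hf⟩ : ∃ f : ℕ →₀ ℕ, f = g.factorization.filter (fun p => ¬ p ∣ 2 * q) := ⟨_, rfl⟩
  have hsupp : f.support = g.primeFactors.filter (fun p : ℕ => ¬ p ∣ 2 * q) := by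
    rw [hf, Finsupp.support_filter, Nat.support_factorization]
  have hpr : ∀ p ∈ f.support, Nat.Prime p := by
    intro p hp
    rw [hsupp, mem_filter, Nat.mem_primeFactors] at hp
    exact hp.1.1
  obtain ⟨g', hg'⟩ : ∃ g' : ℕ, g' = f.prod (fun p k => p ^ k) := ⟨_, rfl⟩
  have hfac : g'.factorization = f := by
    rw [hg']
    exact Nat.prod_pow_factorization_eq_self hpr
  have hg0 : g' ≠ 0 := by
    rw [hg', Finsupp.prod]
    exact Finset.prod_ne_zero_iff.2 (fun p hp => pow_ne_zero _ (hpr p hp).ne_zero)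
  have hval : ∀ p ∈ f.support, f p = g.factorization p := by
    intro p hp
    rw [hsupp, mem_filter] at hp
    rw [hf]
    exact Finsupp.filter_apply_pos _ _ hp.2
  have hdvd : g' ∣ g := by
    rw [← Nat.factorization_le_iff_dvd hg0 hg, hfac, hf]
    intro p
    by_cases hp : ¬ p ∣ 2 * q
    · exact le_of_eq (Finsupp.filter_apply_pos (fun p => ¬ p ∣ 2 * q) g.factorization hp)
    · rw [Finsupp.filter_apply_neg (fun p => ¬ p ∣ 2 * q) g.factorization hp]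
      exact Nat.zero_le _
  have hcard : (g'.divisors.card : ℝ) =
      ∏ p ∈ g.primeFactors.filter (fun p : ℕ => ¬ p ∣ 2 * q), (1 + (g.factorization p : ℝ)) := by
    rw [Nat.card_divisors hg0, ← Nat.support_factorization, hfac, ← hsupp]
    push_cast
    apply Finset.prod_congr rfl
    intro p hp
    rw [hval p hp]
    ring
  rw [← hcard]
  unfold TG
  have : g'.divisors ⊆ g.divisors.filter (fun d => Nat.Coprime d (2 * q)) := by
    intro d hd
    rw [Nat.mem_divisors] at hd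
    rw [mem_filter, Nat.mem_divisors]
    refine ⟨⟨hd.1.trans hdvd, hg⟩, ?_⟩
    apply Nat.Coprime.coprime_dvd_left hd.1
    apply Nat.coprime_of_dvd
    intro p hp hpg
    have : p ∈ f.support := by
      rw [← hfac, Nat.support_factorization, Nat.mem_primeFactors]
      exact ⟨hp, hpg, hg0⟩
    rw [hsupp, mem_filter] at this
    exact this.2
  exact_mod_cast Finset.card_le_card this

theorem Sb_le_avg (α β γ : ℤ) (hα : α ≠ 0) (hβ : β ≠ 0) (hγ : γ ≠ 0) (q B : ℕ) (hq : 1 ≤ q)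
    (h12 : ∀ p : ℕ, p.Prime → p ≤ 12 → p ∣ 2 * q) :
    Sb α β γ q B ≤
      (FP 48 q α + FP 48 q β + FP 48 q γ + (TG q (Int.gcd α β)) ^ 4) / 4 := by
  have h10 : ∀ p : ℕ, p.Prime → p ≤ 10 → p ∣ 2 * q := fun p hp h => h12 p hp (by omega)
  refine (Sb_le_prod α β γ hα hβ hγ q B hq h10).trans ?_
  rw [Finset.prod_mul_distrib]
  have hg : Int.gcd α β ≠ 0 := by
    intro h
    exact hα (Int.gcd_eq_zero_iff.1 h).1
  -- the set of primes
  have hset : (α * β * γ).natAbs.primeFactors.filter (fun p : ℕ => ¬ p ∣ 2 * q) =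
      (α.natAbs.primeFactors.filter (fun p : ℕ => ¬ p ∣ 2 * q) ∪
        β.natAbs.primeFactors.filter (fun p : ℕ => ¬ p ∣ 2 * q)) ∪
        γ.natAbs.primeFactors.filter (fun p : ℕ => ¬ p ∣ 2 * q) := by
    rw [Int.natAbs_mul, Int.natAbs_mul, Nat.primeFactors_mul, Nat.primeFactors_mul,
      Finset.filter_union, Finset.filter_union]
    · exact Int.natAbs_ne_zero.2 hα
    · exact Int.natAbs_ne_zero.2 hβ
    · exact mul_ne_zero (Int.natAbs_ne_zero.2 hα) (Int.natAbs_ne_zero.2 hβ)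
    · exact Int.natAbs_ne_zero.2 hγ
  have hf1 : ∀ p : ℕ, (1 : ℝ) ≤ 1 + 6 / (p : ℝ) := by
    intro p
    have : (0 : ℝ) ≤ 6 / (p : ℝ) := by positivity
    linarith
  have h1 : ∏ p ∈ (α * β * γ).natAbs.primeFactors.filter (fun p : ℕ => ¬ p ∣ 2 * q),
      (1 + 6 / (p : ℝ)) ≤ FP 6 q α * FP 6 q β * FP 6 q γ := by
    rw [hset]
    refine (fpa_union _ _ _ hf1).trans ?_
    have h2 := fpa_union (α.natAbs.primeFactors.filter (fun p : ℕ => ¬ p ∣ 2 * q))
      (β.natAbs.primeFactors.filter (fun p : ℕ => ¬ p ∣ 2 * q)) (fun p => 1 + 6 / (p : ℝ)) hf1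
    exact mul_le_mul_of_nonneg_right h2 (fpa_FPnn q γ)
  have h2 : ∏ p ∈ (α * β * γ).natAbs.primeFactors.filter (fun p : ℕ => ¬ p ∣ 2 * q),
      (1 + (vv p α β : ℝ)) ≤ TG q (Int.gcd α β) := by
    refine le_trans (le_of_eq ?_) (fpa_div q (Int.gcd α β) hg)
    have hvv : ∀ p : ℕ, p.Prime → vv p α β = (Int.gcd α β).factorization p := by
      intro p hp
      unfold vv
      rw [Int.gcd_def, Nat.factorization_gcd (Int.natAbs_ne_zero.2 hα) (Int.natAbs_ne_zero.2 hβ)]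
      rw [Finsupp.inf_apply, Nat.factorization_def _ hp, Nat.factorization_def _ hp]
      rfl
    symm
    have hsub : (Int.gcd α β).primeFactors.filter (fun p : ℕ => ¬ p ∣ 2 * q) ⊆
        (α * β * γ).natAbs.primeFactors.filter (fun p : ℕ => ¬ p ∣ 2 * q) := by
      intro p hp
      rw [mem_filter, Nat.mem_primeFactors] at hp
      rw [hset]
      apply Finset.mem_union_left
      apply Finset.mem_union_left
      rw [mem_filter, Nat.mem_primeFactors]
      refine ⟨⟨hp.1.1, ?_, Int.natAbs_ne_zero.2 hα⟩, hp.2⟩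
      exact hp.1.2.1.trans (Nat.gcd_dvd_left _ _)
    rw [← Finset.prod_subset hsub]
    · apply Finset.prod_congr rfl
      intro p hp
      rw [mem_filter, Nat.mem_primeFactors] at hp
      rw [hvv p hp.1.1]
    · intro p hp hnp
      rw [mem_filter, Nat.mem_primeFactors] at hp
      rw [mem_filter, Nat.mem_primeFactors] at hnp
      have hnd : ¬ p ∣ Int.gcd α β := fun h => hnp ⟨⟨hp.1.1, h, hg⟩, hp.2⟩
      rw [hvv p hp.1.1, Nat.factorization_eq_zero_of_not_dvd hnd]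
      simp
  have hTG : 0 ≤ TG q (Int.gcd α β) := by unfold TG; positivity
  have hA := fpa_FPnn q α
  have hB := fpa_FPnn q β
  have hC := fpa_FPnn q γ
  have hnn : 0 ≤ ∏ p ∈ (α * β * γ).natAbs.primeFactors.filter (fun p : ℕ => ¬ p ∣ 2 * q),
      (1 + 6 / (p : ℝ)) := Finset.prod_nonneg (fun p _ => by positivity)
  calc _ ≤ TG q (Int.gcd α β) * (FP 6 q α * FP 6 q β * FP 6 q γ) :=
        mul_le_mul h2 h1 hnn hTG
    _ = FP 6 q α * FP 6 q β * FP 6 q γ * TG q (Int.gcd α β) := by ring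
    _ ≤ _ := fpa_amgm _ _ _ _
    _ ≤ _ := by
      have ha := fpa_pow q α h12
      have hb := fpa_pow q β h12
      have hc := fpa_pow q γ h12
      linarith

end Pool.Agent.MKA
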