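import Pool.Agent.MKA.AvgG
import Pool.Agent.MKA.AvgT
import Pool.Agent.MKA.FPa

/-!
# MKA/Avg: average of the bad factor over `x ≠ x'`

`AA a x = a x/2` (real division; `AA_spec`), so `1/(AA AA') = (4/a²) · 1/(x x')` and
`∑ 1/AA = (2/a) ∑ 1/x`; it suffices to bound `∑_x ∑_{x' ≠ x} (1/(x x')) Sb(…)` by
`(1 + C/√w) Λ₀²`.  By `Sb_le_avg` (the primes `≤ 12` divide `2q` since `w ≥ 13`; `α, β > 0`,
`γ = x'² - x² ≠ 0`) it is at most a quarter of the sum of four averages; each is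
`≤ (1 + C/√w) Λ₀²`: `avg_a` (times `Λ₀`) for `FP 48 q α` and, by symmetry, for `FP 48 q β`
(all terms are nonnegative, the condition `x' ≠ x` may be dropped), `avg_g` for `γ`, `avg_t`.
`lam_lower`: `∑ 1/AA = (2/a) Λ₀ ≥ (1/(2aq)) log Z` by `lam0_lower`.
Size: 100-130 lines.
-/

set_option autoImplicit false

namespace Pool.Agent.MKA

open Finset

private theorem XS_pos {q Z : ℕ} {x₀ x : ℤ} (hx : x ∈ XS q x₀ Z) : (0 : ℝ) < x := by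
  unfold XS at hx
  rw [Finset.mem_filter, Finset.mem_Ioc] at hx
  have h1 : (0 : ℤ) ≤ (Z : ℤ) := Int.natCast_nonneg Z
  have h2 : (0 : ℤ) < x := by linarith [hx.1.1]
  exact_mod_cast h2

private theorem AA_real {a q Z : ℕ} {x₀ A₀ x : ℤ} (hA : (a : ℤ) * x₀ = 2 * A₀)
    (hx : x ∈ XS q x₀ Z) : (AA a x : ℝ) = (a : ℝ) * x / 2 := by
  have h1 := AA_spec a q x x₀ A₀ hA (Finset.mem_filter.1 hx).2
  have h2 : (2 : ℝ) * (AA a x : ℝ) = (a : ℝ) * x := by exact_mod_cast h1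
  linarith

private theorem FP_nonneg (q : ℕ) (n : ℤ) : 0 ≤ FP 48 q n := by
  unfold FP
  exact Finset.prod_nonneg fun p _ => by positivity

private theorem lam_eq {a q Z : ℕ} {x₀ A₀ : ℤ} (hA : (a : ℤ) * x₀ = 2 * A₀) :
    ∑ x ∈ XS q x₀ Z, 1 / (AA a x : ℝ) = 2 / (a : ℝ) * ∑ x ∈ XS q x₀ Z, 1 / (x : ℝ) := by
  rw [Finset.mul_sum]
  refine Finset.sum_congr rfl fun x hx => ?_
  rw [AA_real hA hx, div_mul_div_comm, mul_one, one_div_div]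

theorem lam_lower : ∃ Z₀ : ℕ, ∀ Z : ℕ, Z₀ ≤ Z → ∀ (a q : ℕ) (x₀ A₀ : ℤ), 1 ≤ a → 1 ≤ q →
    (q : ℝ) ≤ (Z : ℝ) ^ (1 / 100 : ℝ) → (a : ℤ) * x₀ = 2 * A₀ →
    Real.log Z / (2 * a * q) ≤ ∑ x ∈ XS q x₀ Z, 1 / (AA a x : ℝ) := by
  obtain ⟨Z₀, h⟩ := lam0_lower
  refine ⟨Z₀, fun Z hZ a q x₀ A₀ ha hq hqZ hA => ?_⟩
  have h1 := (h Z hZ q x₀ hq hqZ).1
  rw [lam_eq hA]
  have ha' : (0 : ℝ) < a := by exact_mod_cast ha
  have hq' : (0 : ℝ) < q := by exact_mod_cast hq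
  have h2 : Real.log Z / (2 * a * q) = 1 / (a : ℝ) * (Real.log Z / (2 * q)) := by
    field_simp
  rw [h2]
  have h3 : 1 / (a : ℝ) * (Real.log Z / (2 * q)) ≤
      1 / (a : ℝ) * (2 * ∑ x ∈ XS q x₀ Z, 1 / (x : ℝ)) :=
    mul_le_mul_of_nonneg_left h1 (by positivity)
  refine h3.trans (le_of_eq ?_)
  ring

theorem avg_Sb : ∃ C : ℝ, 0 < C ∧ ∃ Z₀ : ℕ, ∀ Z : ℕ, Z₀ ≤ Z → ∀ (a q w B : ℕ) (x₀ A₀ : ℤ),
    1 ≤ a → (a : ℝ) ≤ (Z : ℝ) ^ (1 / 100 : ℝ) → 1 ≤ q → (q : ℝ) ≤ (Z : ℝ) ^ (1 / 100 : ℝ) →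
    13 ≤ w → (w : ℝ) ≤ (Z : ℝ) ^ (1 / 100 : ℝ) → (∀ p : ℕ, p.Prime → p ≤ w → p ∣ 2 * q) →
    (a : ℤ) * x₀ = 2 * A₀ →
    ∑ x ∈ XS q x₀ Z, ∑ x' ∈ (XS q x₀ Z).erase x,
      1 / ((AA a x : ℝ) * AA a x') *
        Sb (AA a x ^ 2 - 1) (AA a x' ^ 2 - 1) (x' ^ 2 - x ^ 2) q B ≤
      (1 + C / Real.sqrt w) * (∑ x ∈ XS q x₀ Z, 1 / (AA a x : ℝ)) ^ 2 := by
  classical
  obtain ⟨C1, hC1, Z1, h1⟩ := avg_a
  obtain ⟨C2, hC2, Z2, h2⟩ := avg_g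
  obtain ⟨C3, hC3, Z3, h3⟩ := avg_t
  refine ⟨C1 + C2 + C3, by positivity, max (max Z1 Z2) (max Z3 4), ?_⟩
  intro Z hZ a q w B x₀ A₀ ha haZ hq hqZ hw hwZ hpr hA
  have hZ1 : Z1 ≤ Z := le_trans (le_trans (le_max_left _ _) (le_max_left _ _)) hZ
  have hZ2 : Z2 ≤ Z := le_trans (le_trans (le_max_right _ _) (le_max_left _ _)) hZ
  have hZ3 : Z3 ≤ Z := le_trans (le_trans (le_max_left _ _) (le_max_right _ _)) hZ
  have hZ4 : 4 ≤ Z := le_trans (le_trans (le_max_right _ _) (le_max_right _ _)) hZ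
  have hw1 : 1 ≤ w := by omega
  have ha' : (0 : ℝ) < a := by exact_mod_cast ha
  have hwR : (0 : ℝ) < w := by
    have : 0 < w := by omega
    exact_mod_cast this
  have hsw : 0 < Real.sqrt w := Real.sqrt_pos.2 hwR
  have g1 := h1 Z hZ1 a q w x₀ A₀ ha haZ hq hqZ hw1 hwZ hpr hA
  have g2 := h2 Z hZ2 q w x₀ hq hqZ hw1 hwZ hpr
  have g3 := h3 Z hZ3 a q w x₀ A₀ ha haZ hq hqZ hw1 hwZ hpr hA
  set S := XS q x₀ Z with hS
  set Λ : ℝ := ∑ x ∈ S, 1 / (x : ℝ) with hΛ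
  have hpos : ∀ x ∈ S, (0 : ℝ) < x := fun x hx => XS_pos hx
  have hΛ0 : 0 ≤ Λ := Finset.sum_nonneg fun x hx => (one_div_pos.2 (hpos x hx)).le
  set α : ℤ → ℤ := fun x => AA a x ^ 2 - 1 with hα
  -- pointwise bound
  have hpt : ∀ x ∈ S, ∀ x' ∈ S.erase x, 1 / ((AA a x : ℝ) * AA a x') *
        Sb (AA a x ^ 2 - 1) (AA a x' ^ 2 - 1) (x' ^ 2 - x ^ 2) q B ≤
      1 / (a : ℝ) ^ 2 * ((1 / (x : ℝ) * FP 48 q (α x)) * (1 / (x' : ℝ)) +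
        (1 / (x : ℝ)) * (1 / (x' : ℝ) * FP 48 q (α x')) +
        1 / ((x : ℝ) * x') * FP 48 q (x' ^ 2 - x ^ 2) +
        1 / ((x : ℝ) * x') * (TG q (Int.gcd (AA a x ^ 2 - 1) (AA a x' ^ 2 - 1))) ^ 4) := by
    intro x hx x' hx'
    obtain ⟨hne, hx'S⟩ := Finset.mem_erase.1 hx'
    have hxp := hpos x hx
    have hxp' := hpos x' hx'S
    have e1 := AA_real hA hx
    have e2 := AA_real hA hx'S
    have f1 := alpha_facts hZ4 ha haZ hA hx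
    have f2 := alpha_facts hZ4 ha haZ hA hx'S
    have hγ : x' ^ 2 - x ^ 2 ≠ 0 := by
      intro h
      have h4 : (x' - x) * (x' + x) = 0 := by linear_combination h
      have hxi : (0 : ℤ) < x := by exact_mod_cast hxp
      have hxi' : (0 : ℤ) < x' := by exact_mod_cast hxp'
      rcases mul_eq_zero.1 h4 with h5 | h5
      · exact hne (by linarith)
      · linarith
    have hb := Sb_le_avg (AA a x ^ 2 - 1) (AA a x' ^ 2 - 1) (x' ^ 2 - x ^ 2) f1.2.1.ne'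
      f2.2.1.ne' hγ q B hq (fun p hp hp12 => hpr p hp (by omega))
    have e3 : 1 / ((AA a x : ℝ) * AA a x') = 4 / (a : ℝ) ^ 2 * (1 / ((x : ℝ) * x')) := by
      rw [e1, e2]
      field_simp
      ring
    rw [e3]
    refine (mul_le_mul_of_nonneg_left hb (by positivity)).trans (le_of_eq ?_)
    simp only [hα]
    field_simp
  have hFP := FP_nonneg q
  -- the four sums
  have t1 : ∑ x ∈ S, ∑ x' ∈ S.erase x, (1 / (x : ℝ) * FP 48 q (α x)) * (1 / (x' : ℝ)) ≤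
      (1 + C1 / Real.sqrt w) * Λ ^ 2 := by
    calc ∑ x ∈ S, ∑ x' ∈ S.erase x, (1 / (x : ℝ) * FP 48 q (α x)) * (1 / (x' : ℝ))
        ≤ ∑ x ∈ S, ∑ x' ∈ S, (1 / (x : ℝ) * FP 48 q (α x)) * (1 / (x' : ℝ)) := by
          refine Finset.sum_le_sum fun x hx => ?_
          refine Finset.sum_le_sum_of_subset_of_nonneg (Finset.erase_subset _ _) ?_
          intro x' hx' _
          exact mul_nonneg (mul_nonneg (one_div_pos.2 (hpos x hx)).le (hFP _))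
            (one_div_pos.2 (hpos x' hx')).le
      _ = (∑ x ∈ S, 1 / (x : ℝ) * FP 48 q (α x)) * Λ := by
          rw [hΛ, Finset.sum_mul_sum]
      _ ≤ ((1 + C1 / Real.sqrt w) * Λ) * Λ := mul_le_mul_of_nonneg_right g1 hΛ0
      _ = _ := by ring
  have t2 : ∑ x ∈ S, ∑ x' ∈ S.erase x, (1 / (x : ℝ)) * (1 / (x' : ℝ) * FP 48 q (α x')) ≤
      (1 + C1 / Real.sqrt w) * Λ ^ 2 := by
    calc ∑ x ∈ S, ∑ x' ∈ S.erase x, (1 / (x : ℝ)) * (1 / (x' : ℝ) * FP 48 q (α x'))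
        ≤ ∑ x ∈ S, ∑ x' ∈ S, (1 / (x : ℝ)) * (1 / (x' : ℝ) * FP 48 q (α x')) := by
          refine Finset.sum_le_sum fun x hx => ?_
          refine Finset.sum_le_sum_of_subset_of_nonneg (Finset.erase_subset _ _) ?_
          intro x' hx' _
          exact mul_nonneg (one_div_pos.2 (hpos x hx)).le
            (mul_nonneg (one_div_pos.2 (hpos x' hx')).le (hFP _))
      _ = Λ * (∑ x ∈ S, 1 / (x : ℝ) * FP 48 q (α x)) := by
          rw [hΛ, Finset.sum_mul_sum]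
      _ ≤ Λ * ((1 + C1 / Real.sqrt w) * Λ) := mul_le_mul_of_nonneg_left g1 hΛ0
      _ = _ := by ring
  have t4 : ∑ x ∈ S, ∑ x' ∈ S.erase x, 1 / ((x : ℝ) * x') *
      (TG q (Int.gcd (AA a x ^ 2 - 1) (AA a x' ^ 2 - 1))) ^ 4 ≤
      (1 + C3 / Real.sqrt w) * Λ ^ 2 := by
    refine le_trans ?_ g3
    refine Finset.sum_le_sum fun x hx => ?_
    refine Finset.sum_le_sum_of_subset_of_nonneg (Finset.erase_subset _ _) ?_
    intro x' hx' _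
    have := hpos x hx
    have := hpos x' hx'
    positivity
  have hsum : ∑ x ∈ S, ∑ x' ∈ S.erase x, 1 / ((AA a x : ℝ) * AA a x') *
        Sb (AA a x ^ 2 - 1) (AA a x' ^ 2 - 1) (x' ^ 2 - x ^ 2) q B ≤
      1 / (a : ℝ) ^ 2 * ((1 + C1 / Real.sqrt w) * Λ ^ 2 + (1 + C1 / Real.sqrt w) * Λ ^ 2 +
        (1 + C2 / Real.sqrt w) * Λ ^ 2 + (1 + C3 / Real.sqrt w) * Λ ^ 2) := by
    calc _ ≤ ∑ x ∈ S, ∑ x' ∈ S.erase x,
          1 / (a : ℝ) ^ 2 * ((1 / (x : ℝ) * FP 48 q (α x)) * (1 / (x' : ℝ)) +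
          (1 / (x : ℝ)) * (1 / (x' : ℝ) * FP 48 q (α x')) +
          1 / ((x : ℝ) * x') * FP 48 q (x' ^ 2 - x ^ 2) +
          1 / ((x : ℝ) * x') * (TG q (Int.gcd (AA a x ^ 2 - 1) (AA a x' ^ 2 - 1))) ^ 4) :=
          Finset.sum_le_sum fun x hx => Finset.sum_le_sum fun x' hx' => hpt x hx x' hx'
      _ = 1 / (a : ℝ) ^ 2 *
          ((∑ x ∈ S, ∑ x' ∈ S.erase x, (1 / (x : ℝ) * FP 48 q (α x)) * (1 / (x' : ℝ))) +
          (∑ x ∈ S, ∑ x' ∈ S.erase x, (1 / (x : ℝ)) * (1 / (x' : ℝ) * FP 48 q (α x'))) +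
          (∑ x ∈ S, ∑ x' ∈ S.erase x, 1 / ((x : ℝ) * x') * FP 48 q (x' ^ 2 - x ^ 2)) +
          (∑ x ∈ S, ∑ x' ∈ S.erase x, 1 / ((x : ℝ) * x') *
            (TG q (Int.gcd (AA a x ^ 2 - 1) (AA a x' ^ 2 - 1))) ^ 4)) := by
          simp only [← Finset.mul_sum, Finset.sum_add_distrib]
      _ ≤ _ := by
          apply mul_le_mul_of_nonneg_left _ (by positivity)
          exact add_le_add (add_le_add (add_le_add t1 t2) g2) t4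
  refine hsum.trans ?_
  rw [lam_eq hA, ← hΛ]
  have hR : 0 < 1 / Real.sqrt w := by positivity
  have e5 : (1 + (C1 + C2 + C3) / Real.sqrt w) * (2 / (a : ℝ) * Λ) ^ 2 =
      1 / (a : ℝ) ^ 2 * (4 * (1 + (C1 + C2 + C3) / Real.sqrt w) * Λ ^ 2) := by
    field_simp
    ring
  rw [e5]
  apply mul_le_mul_of_nonneg_left _ (by positivity)
  have e6 : (1 + C1 / Real.sqrt w) * Λ ^ 2 + (1 + C1 / Real.sqrt w) * Λ ^ 2 +
        (1 + C2 / Real.sqrt w) * Λ ^ 2 + (1 + C3 / Real.sqrt w) * Λ ^ 2 =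
      (4 + (2 * C1 + C2 + C3) / Real.sqrt w) * Λ ^ 2 := by ring
  have e7 : 4 * (1 + (C1 + C2 + C3) / Real.sqrt w) * Λ ^ 2 =
      (4 + (4 * C1 + 4 * C2 + 4 * C3) / Real.sqrt w) * Λ ^ 2 := by ring
  rw [e6, e7]
  apply mul_le_mul_of_nonneg_right _ (by positivity)
  have : (2 * C1 + C2 + C3) / Real.sqrt w ≤ (4 * C1 + 4 * C2 + 4 * C3) / Real.sqrt w :=
    div_le_div_of_nonneg_right (by linarith) hsw.le
  linarith

end Pool.Agent.MKA
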