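import Pool.Agent.MKA.Defs

/-!
# MKA/FPsum: expansion of the products

`FP_le_sum`: expanding the product (`Finset.prod_one_add`), `FP 48 q n = ∑_m 48^(ω(m))/m` over the
squarefree `m ∣ n` coprime to `2q`.  The term `m = 1` is `1`; every other `m` is `> w`, since it has
a prime factor, which does not divide `2q` and so is `> w`; and `48^(ω(m)) ≤ 64^(ω(m)) = τ(m)^6` for
squarefree `m`.
`TG_le_sum`: let `g'` be the largest divisor of `g` coprime to `2q`
(`g' = ∏_{p ∣ g, p ∤ 2q} p^(v_p(g))`); `TG q g = τ(g')`.  If `g' = 1` then `TG = 1`; otherwise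
`g' > w` and `TG^4 = τ(g')^4` is one of the terms of the sum.  Nonnegative terms.
Size: 80-120 lines.
-/

set_option autoImplicit false

namespace Pool.Agent.MKA

open Finset

private theorem gt_of_coprime {q w m : ℕ} (hw : ∀ p : ℕ, p.Prime → p ≤ w → p ∣ 2 * q)
    (hm : m ≠ 0) (h1 : m ≠ 1) (hc : Nat.Coprime m (2 * q)) : w < m := by
  by_contra hcon
  have hp := Nat.minFac_prime h1
  have hle : m.minFac ≤ w := (Nat.minFac_le (Nat.pos_of_ne_zero hm)).trans (not_lt.1 hcon)
  have h2 := hw _ hp hle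
  have h3 := Nat.dvd_gcd (Nat.minFac_dvd m) h2
  rw [Nat.Coprime.gcd_eq_one hc] at h3
  exact hp.one_lt.ne' (Nat.dvd_one.1 h3)

private theorem two_pow_le (t : Finset ℕ) (ht : ∀ p ∈ t, p.Prime) :
    2 ^ t.card ≤ (∏ p ∈ t, p).divisors.card := by
  have h0 : ∏ p ∈ t, p ≠ 0 := Finset.prod_ne_zero_iff.2 fun p hp => (ht p hp).ne_zero
  rw [Nat.card_divisors h0, Nat.primeFactors_prod ht, ← Finset.prod_const]
  refine Finset.prod_le_prod' fun p hp => ?_
  have h1 : 1 ≤ (∏ p ∈ t, p).factorization p :=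
    ((ht p hp).dvd_iff_one_le_factorization h0).1 (Finset.dvd_prod_of_mem _ hp)
  omega

theorem FP_le_sum (q w : ℕ) (hq : 1 ≤ q) (hw : ∀ p : ℕ, p.Prime → p ≤ w → p ∣ 2 * q) (n : ℤ)
    (hn : n ≠ 0) :
    FP 48 q n ≤ 1 + ∑ m ∈ n.natAbs.divisors.filter
      (fun m => w < m ∧ Squarefree m ∧ Nat.Coprime m (2 * q)),
        (m.divisors.card : ℝ) ^ 6 / (m : ℝ) := by
  classical
  unfold FP
  set S := n.natAbs.primeFactors.filter (fun p : ℕ => ¬ p ∣ 2 * q) with hS
  have hprime : ∀ t ∈ S.powerset, ∀ p ∈ t, p.Prime := by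
    intro t ht p hp
    have h1 := (Finset.mem_powerset.1 ht) hp
    rw [hS, mem_filter] at h1
    exact Nat.prime_of_mem_primeFactors h1.1
  rw [Finset.prod_one_add, ← Finset.add_sum_erase _ _ (Finset.empty_mem_powerset S),
    Finset.prod_empty]
  have h1 : ∀ t ∈ S.powerset.erase ∅, ∏ p ∈ t, (48 / (p : ℝ)) ≤
      ((∏ p ∈ t, p).divisors.card : ℝ) ^ 6 / ((∏ p ∈ t, p : ℕ) : ℝ) := by
    intro t ht
    have ht' := hprime t (Finset.mem_of_mem_erase ht)
    rw [Finset.prod_div_distrib, Finset.prod_const]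
    push_cast
    have h2 : (0 : ℝ) < ∏ p ∈ t, (p : ℝ) :=
      Finset.prod_pos fun p hp => by exact_mod_cast (ht' p hp).pos
    apply div_le_div_of_nonneg_right _ h2.le
    have h3 : (2 : ℝ) ^ t.card ≤ ((∏ p ∈ t, p).divisors.card : ℝ) := by
      exact_mod_cast two_pow_le t ht'
    calc (48 : ℝ) ^ t.card ≤ 64 ^ t.card := by
          apply pow_le_pow_left₀ (by norm_num) (by norm_num)
      _ = ((2 : ℝ) ^ t.card) ^ 6 := by
          rw [← pow_mul, mul_comm, pow_mul]
          norm_num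
      _ ≤ _ := pow_le_pow_left₀ (by positivity) h3 6
  have hinj : Set.InjOn (fun t : Finset ℕ => ∏ p ∈ t, p)
      (S.powerset.erase ∅ : Set (Finset ℕ)) := by
    intro t ht s hs hts
    have h2 := Nat.primeFactors_prod (hprime t (Finset.mem_of_mem_erase (Finset.mem_coe.1 ht)))
    have h3 := Nat.primeFactors_prod (hprime s (Finset.mem_of_mem_erase (Finset.mem_coe.1 hs)))
    simp only at hts
    rw [← h2, ← h3, hts]
  have h2 := Finset.sum_le_sum h1
  have h3 : ∑ t ∈ S.powerset.erase ∅,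
      ((∏ p ∈ t, p).divisors.card : ℝ) ^ 6 / ((∏ p ∈ t, p : ℕ) : ℝ) =
      ∑ m ∈ (S.powerset.erase ∅).image (fun t : Finset ℕ => ∏ p ∈ t, p),
        (m.divisors.card : ℝ) ^ 6 / (m : ℝ) :=
    (Finset.sum_image (f := fun m : ℕ => (m.divisors.card : ℝ) ^ 6 / (m : ℝ)) hinj).symm
  have h4 : (S.powerset.erase ∅).image (fun t : Finset ℕ => ∏ p ∈ t, p) ⊆
      n.natAbs.divisors.filter (fun m => w < m ∧ Squarefree m ∧ Nat.Coprime m (2 * q)) := by
    intro m hm
    rw [mem_image] at hm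
    obtain ⟨t, ht, rfl⟩ := hm
    have ht' := hprime t (Finset.mem_of_mem_erase ht)
    have hts := Finset.mem_powerset.1 (Finset.mem_of_mem_erase ht)
    have hne := Finset.ne_of_mem_erase ht
    have h0 : ∏ p ∈ t, p ≠ 0 := Finset.prod_ne_zero_iff.2 fun p hp => (ht' p hp).ne_zero
    have hcop : Nat.Coprime (∏ p ∈ t, p) (2 * q) := by
      apply Nat.Coprime.prod_left
      intro p hp
      have h5 := hts hp
      rw [hS, mem_filter] at h5
      exact (Nat.Prime.coprime_iff_not_dvd (ht' p hp)).2 h5.2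
    have hdvd : ∏ p ∈ t, p ∣ n.natAbs := by
      refine (Finset.prod_dvd_prod_of_subset _ _ _ ?_).trans (Nat.prod_primeFactors_dvd n.natAbs)
      intro p hp
      have h5 := hts hp
      rw [hS, mem_filter] at h5
      exact h5.1
    rw [mem_filter, Nat.mem_divisors]
    refine ⟨⟨hdvd, Int.natAbs_ne_zero.2 hn⟩, ?_, ?_, hcop⟩
    · apply gt_of_coprime hw h0 _ hcop
      intro h6
      obtain ⟨p, hp⟩ := Finset.nonempty_of_ne_empty hne
      have h7 := Finset.dvd_prod_of_mem (fun p => p) hp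
      rw [h6] at h7
      exact (ht' p hp).one_lt.ne' (Nat.dvd_one.1 h7)
    · refine Finset.squarefree_prod_of_pairwise_isCoprime (fun p hp r hr hpr => ?_)
        fun p hp => (ht' p hp).squarefree
      simp only [Function.onFun, ← Nat.coprime_iff_isRelPrime]
      exact (Nat.coprime_primes (ht' p hp) (ht' r hr)).2 hpr
  have h5 : ∑ m ∈ (S.powerset.erase ∅).image (fun t : Finset ℕ => ∏ p ∈ t, p),
        (m.divisors.card : ℝ) ^ 6 / (m : ℝ) ≤ ∑ m ∈ n.natAbs.divisors.filter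
      (fun m => w < m ∧ Squarefree m ∧ Nat.Coprime m (2 * q)),
        (m.divisors.card : ℝ) ^ 6 / (m : ℝ) :=
    Finset.sum_le_sum_of_subset_of_nonneg h4 fun m _ _ => by positivity
  linarith

private theorem exists_big (q g : ℕ) (F : Finset ℕ)
    (hF : ∀ d ∈ F, d ∣ g ∧ Nat.Coprime d (2 * q)) :
    ∃ m, m ∣ g ∧ Nat.Coprime m (2 * q) ∧ ∀ d ∈ F, d ∣ m := by
  classical
  induction F using Finset.induction_on with
  | empty => exact ⟨1, one_dvd _, Nat.coprime_one_left _, by simp⟩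
  | insert d F hd ih =>
    obtain ⟨m, h1, h2, h3⟩ := ih fun x hx => hF x (Finset.mem_insert_of_mem hx)
    obtain ⟨h4, h5⟩ := hF d (Finset.mem_insert_self d F)
    refine ⟨Nat.lcm d m, Nat.lcm_dvd h4 h1, ?_, ?_⟩
    · exact Nat.Coprime.coprime_dvd_left (Nat.lcm_dvd_mul d m) (Nat.Coprime.mul_left h5 h2)
    · intro x hx
      rw [Finset.mem_insert] at hx
      rcases hx with rfl | hx
      · exact Nat.dvd_lcm_left _ _
      · exact (h3 x hx).trans (Nat.dvd_lcm_right _ _)

theorem TG_le_sum (q w : ℕ) (hq : 1 ≤ q) (hw : ∀ p : ℕ, p.Prime → p ≤ w → p ∣ 2 * q) (g : ℕ)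
    (hg : g ≠ 0) :
    (TG q g) ^ 4 ≤ 1 + ∑ m ∈ g.divisors.filter (fun m => w < m ∧ Nat.Coprime m (2 * q)),
        (m.divisors.card : ℝ) ^ 4 := by
  classical
  obtain ⟨m, h1, h2, h3⟩ := exists_big q g
    (g.divisors.filter (fun d => Nat.Coprime d (2 * q))) (by
      intro d hd
      rw [mem_filter, Nat.mem_divisors] at hd
      exact ⟨hd.1.1, hd.2⟩)
  have hm0 : m ≠ 0 := ne_zero_of_dvd_ne_zero hg h1
  have h4 : TG q g ≤ (m.divisors.card : ℝ) := by
    unfold TG
    have h5 : g.divisors.filter (fun d => Nat.Coprime d (2 * q)) ⊆ m.divisors := by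
      intro d hd
      rw [Nat.mem_divisors]
      exact ⟨h3 d hd, hm0⟩
    exact_mod_cast Finset.card_le_card h5
  have h5 : 0 ≤ TG q g := by
    unfold TG
    positivity
  have h6 : (TG q g) ^ 4 ≤ (m.divisors.card : ℝ) ^ 4 := pow_le_pow_left₀ h5 h4 4
  have h7 : 0 ≤ ∑ m ∈ g.divisors.filter (fun m => w < m ∧ Nat.Coprime m (2 * q)),
        (m.divisors.card : ℝ) ^ 4 := Finset.sum_nonneg fun m _ => by positivity
  by_cases hm1 : m = 1
  · rw [hm1] at h6
    simp only [Nat.divisors_one, Finset.card_singleton, Nat.cast_one, one_pow] at h6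
    linarith
  · have h8 := gt_of_coprime hw hm0 hm1 h2
    have h9 : m ∈ g.divisors.filter (fun m => w < m ∧ Nat.Coprime m (2 * q)) := by
      rw [mem_filter, Nat.mem_divisors]
      exact ⟨⟨h1, hg⟩, h8, h2⟩
    have h10 := Finset.single_le_sum (f := fun m : ℕ => (m.divisors.card : ℝ) ^ 4)
      (fun m _ => by positivity) h9
    linarith

end Pool.Agent.MKA
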