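import Pool.Agent.MKA.Defs
import Pool.Agent.Pal.Divisor

/-!
# MKA/TauSum: sums of powers of the divisor function

By `Pal.card_divisors_le_rpow` with exponent `1/(40 k)`: `τ(m)^k ≤ C m^(1/40)`.
`tau_tail`: `∑_{w < m ≤ V} τ(m)^k/m² ≤ C ∑_{m > w} m^(-3/2) ≤ 2C... /√w` (telescoping
`m^(-3/2) ≤ 2((m-1)^(-1/2) - m^(-1/2))·…`, or an integral comparison).
`tau_sum`: `∑_{m ≤ V} τ(m)^k/m ≤ C V^(1/40) (1 + log V) ≤ C' V^(1/20)`.
Size: 80-100 lines.
-/

set_option autoImplicit false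

namespace Pool.Agent.MKA

open Finset

theorem tau_pow (k : ℕ) : ∃ C : ℝ, 1 ≤ C ∧ ∀ m : ℕ, 1 ≤ m →
    (m.divisors.card : ℝ) ^ k ≤ C * (m : ℝ) ^ (1 / 40 : ℝ) := by
  obtain ⟨C, hC, h⟩ := Pal.card_divisors_le_rpow (η := 1 / (40 * ((k : ℝ) + 1))) (by positivity)
  refine ⟨C ^ k, one_le_pow₀ hC, fun m hm => ?_⟩
  have hm1 : (1 : ℝ) ≤ (m : ℝ) := by exact_mod_cast hm
  have h1 := pow_le_pow_left₀ (by positivity) (h m hm) k
  rw [mul_pow, ← Real.rpow_mul_natCast (by positivity)] at h1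
  refine h1.trans (mul_le_mul_of_nonneg_left ?_ (by positivity))
  apply Real.rpow_le_rpow_of_exponent_le hm1
  rw [div_mul_eq_mul_div, one_mul, div_le_div_iff₀ (by positivity) (by norm_num)]
  nlinarith [Nat.cast_nonneg (α := ℝ) k]

private theorem ts_step (m : ℕ) (hm : 1 ≤ m) :
    Real.sqrt ((m + 1 : ℕ) : ℝ) / ((m + 1 : ℕ) : ℝ) ^ 2
      ≤ 2 * (1 / Real.sqrt (m : ℝ) - 1 / Real.sqrt ((m + 1 : ℕ) : ℝ)) := by
  have hm0 : (0 : ℝ) < (m : ℝ) := by exact_mod_cast hm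
  set a := Real.sqrt (m : ℝ) with ha
  set b := Real.sqrt ((m + 1 : ℕ) : ℝ) with hb
  have ha0 : 0 < a := Real.sqrt_pos.2 hm0
  have hb0 : 0 < b := Real.sqrt_pos.2 (by positivity)
  have ha2 : a ^ 2 = m := Real.sq_sqrt hm0.le
  have hb2 : b ^ 2 = ((m + 1 : ℕ) : ℝ) := Real.sq_sqrt (by positivity)
  have hab : b ^ 2 = a ^ 2 + 1 := by rw [ha2, hb2]; push_cast; ring
  have hle : a ≤ b := by
    apply Real.sqrt_le_sqrt; push_cast; linarith
  rw [← hb2]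
  have e1 : b / (b ^ 2) ^ 2 = 1 / b ^ 3 := by field_simp
  rw [e1, div_sub_div _ _ ha0.ne' hb0.ne', one_mul, mul_one, ← mul_div_assoc,
    div_le_div_iff₀ (by positivity) (by positivity)]
  have h3 : (b - a) * (b + a) = 1 := by nlinarith
  have h4 : 0 ≤ b - a := by linarith
  -- need a * b ≤ 2 (b - a) b^3
  have h5 : a ≤ 2 * (b - a) * b ^ 2 := by
    have h6 : 1 ≤ (b - a) * (2 * b) := by nlinarith
    nlinarith [mul_le_mul_of_nonneg_right h6 hb0.le]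
  nlinarith [mul_le_mul_of_nonneg_right h5 hb0.le]

theorem tau_tail (k : ℕ) : ∃ C : ℝ, 1 ≤ C ∧ ∀ w V : ℕ, 1 ≤ w →
    ∑ m ∈ Ioc w V, (m.divisors.card : ℝ) ^ k / (m : ℝ) ^ 2 ≤ C / Real.sqrt w := by
  obtain ⟨C, hC, h⟩ := tau_pow k
  refine ⟨2 * C, by linarith, fun w V hw => ?_⟩
  have hterm : ∀ m : ℕ, 1 ≤ m → (m.divisors.card : ℝ) ^ k / (m : ℝ) ^ 2
      ≤ C * (Real.sqrt (m : ℝ) / (m : ℝ) ^ 2) := by
    intro m hm
    have hm1 : (1 : ℝ) ≤ (m : ℝ) := by exact_mod_cast hm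
    rw [← mul_div_assoc]
    apply div_le_div_of_nonneg_right _ (by positivity)
    refine (h m hm).trans (mul_le_mul_of_nonneg_left ?_ (by linarith))
    rw [Real.sqrt_eq_rpow]
    exact Real.rpow_le_rpow_of_exponent_le hm1 (by norm_num)
  have hind : ∀ d : ℕ, ∑ m ∈ Ioc w (w + d), (m.divisors.card : ℝ) ^ k / (m : ℝ) ^ 2
      ≤ 2 * C * (1 / Real.sqrt (w : ℝ) - 1 / Real.sqrt ((w + d : ℕ) : ℝ)) := by
    intro d
    induction d with
    | zero => simp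
    | succ d ih =>
      rw [show w + (d + 1) = (w + d) + 1 by ring, Finset.sum_Ioc_succ_top (by omega)]
      have h1 := hterm (w + d + 1) (by omega)
      have h2 := ts_step (w + d) (by omega)
      have h3 := mul_le_mul_of_nonneg_left h2 (by linarith : (0 : ℝ) ≤ C)
      have := add_le_add ih (h1.trans h3)
      refine this.trans (le_of_eq ?_)
      ring
  rcases le_total w V with hV | hV
  · obtain ⟨d, rfl⟩ := Nat.exists_eq_add_of_le hV
    refine (hind d).trans ?_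
    rw [div_eq_mul_one_div (2 * C)]
    apply mul_le_mul_of_nonneg_left _ (by linarith)
    have : 0 ≤ 1 / Real.sqrt ((w + d : ℕ) : ℝ) := by positivity
    linarith
  · rw [Finset.Ioc_eq_empty_of_le hV, Finset.sum_empty]
    positivity

private theorem ts_step2 (m : ℕ) :
    ((m + 1 : ℕ) : ℝ) ^ (1 / 20 : ℝ) / ((m + 1 : ℕ) : ℝ)
      ≤ 20 * (((m + 1 : ℕ) : ℝ) ^ (1 / 20 : ℝ) - (m : ℝ) ^ (1 / 20 : ℝ)) := by
  set x : ℝ := ((m + 1 : ℕ) : ℝ) with hx
  have hx0 : 0 < x := by rw [hx]; positivity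
  have hx1 : 1 ≤ x := by rw [hx]; push_cast; linarith [Nat.cast_nonneg (α := ℝ) m]
  have hm : (m : ℝ) = x * (1 + -(1 / x)) := by
    have : x * (1 + -(1 / x)) = x - 1 := by field_simp; ring
    rw [this, hx]; push_cast; ring
  have h1 : (0 : ℝ) ≤ 1 + -(1 / x) := by
    have : 1 / x ≤ 1 := by rw [div_le_one hx0]; exact hx1
    linarith
  have h2 := rpow_one_add_le_one_add_mul_self (s := -(1 / x)) (p := 1 / 20)
    (by linarith) (by norm_num) (by norm_num)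
  rw [hm, Real.mul_rpow hx0.le h1]
  have hp : 0 < x ^ (1 / 20 : ℝ) := by positivity
  have h3 := mul_le_mul_of_nonneg_left h2 hp.le
  have e : x ^ (1 / 20 : ℝ) * (1 + 1 / 20 * -(1 / x))
      = x ^ (1 / 20 : ℝ) - 1 / 20 * (x ^ (1 / 20 : ℝ) / x) := by
    field_simp; ring
  rw [e] at h3
  linarith

theorem tau_sum (k : ℕ) : ∃ C : ℝ, 1 ≤ C ∧ ∀ V : ℕ, 1 ≤ V →
    ∑ m ∈ Icc 1 V, (m.divisors.card : ℝ) ^ k / (m : ℝ) ≤ C * (V : ℝ) ^ (1 / 20 : ℝ) := by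
  obtain ⟨C, hC, h⟩ := tau_pow k
  refine ⟨C * 20, by linarith, fun V hV => ?_⟩
  clear hV
  have hterm : ∀ m : ℕ, 1 ≤ m → (m.divisors.card : ℝ) ^ k / (m : ℝ)
      ≤ C * ((m : ℝ) ^ (1 / 20 : ℝ) / (m : ℝ)) := by
    intro m hm
    have hm1 : (1 : ℝ) ≤ (m : ℝ) := by exact_mod_cast hm
    rw [← mul_div_assoc]
    apply div_le_div_of_nonneg_right _ (by positivity)
    refine (h m hm).trans (mul_le_mul_of_nonneg_left ?_ (by linarith))
    exact Real.rpow_le_rpow_of_exponent_le hm1 (by norm_num)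
  induction V with
  | zero => simp
  | succ d ih =>
    rw [Finset.sum_Icc_succ_top (by omega)]
    have h1 := hterm (d + 1) (by omega)
    have h2 := mul_le_mul_of_nonneg_left (ts_step2 d) (by linarith : (0 : ℝ) ≤ C)
    refine (add_le_add ih (h1.trans h2)).trans (le_of_eq ?_)
    ring

end Pool.Agent.MKA
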