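import Pool.Agent.MKA.XSum
import Pool.Agent.MKA.TauSum
import Pool.Agent.MKA.FPsum

/-!
# MKA/AvgA: average of `FP 48` at `AA² - 1`

Write `Λ₀ = ∑_{x ∈ XS} 1/x`, `l = log Z`.  All `x ∈ XS` are `> Z`, so `AA a x ≥ 2` and
`0 < AA² - 1 ≤ (aZ²/2)² ≤ Z^5`.  By `FP_le_sum` and exchanging sums,
`∑_x (1/x) FP 48 q (AA²-1) ≤ Λ₀ + ∑_{w < m ≤ Z^5, squarefree, coprime to 2q} (τ(m)^6/m) ∑_{x : m ∣ AA²-1} 1/x`
and by `xsum_a` the last sum is at most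
`∑_{w<m≤Z^5} (τ(m)^7/m)(1/Z + l/(2qm)) ≤ (1/Z) C (Z^5)^(1/20) + (l/(2q)) C/√w` (`tau_sum`, `tau_tail`).
By `harm_lower` (`M = 2q`), `Λ₀ ≥ l/(2q) - 1/Z`; since `q, w ≤ Z^(1/100)`, for large `Z`:
`l/(2q) ≤ 2 Λ₀` and `C Z^(-3/4) ≤ Λ₀/√w`.
`lam0_lower` records the lower bounds.
Size: 120-150 lines.
-/

set_option autoImplicit false

namespace Pool.Agent.MKA

open Finset

private theorem aa_log81 {Z : ℕ} (hZ : 81 ≤ Z) : (4 : ℝ) ≤ Real.log Z := by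
  have h1 : (81 : ℝ) ≤ Z := by exact_mod_cast hZ
  have h2 : Real.log 81 ≤ Real.log Z := Real.log_le_log (by norm_num) h1
  have h3 : (81 : ℝ) = 3 ^ (4 : ℕ) := by norm_num
  have h4 : (1 : ℝ) ≤ Real.log 3 := by
    rw [Real.le_log_iff_exp_le (by norm_num)]
    have := Real.exp_one_lt_d9
    linarith
  rw [h3, Real.log_pow] at h2
  push_cast at h2
  linarith

private theorem aa_XS (q : ℕ) (x₀ : ℤ) (Z : ℕ) :
    XS q x₀ Z = (Ioc (Z : ℤ) ((Z : ℤ) ^ 2)).filter (fun x => ((2 * q : ℕ) : ℤ) ∣ x - x₀) := by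
  unfold XS
  push_cast
  rfl

private theorem aa_pos {q : ℕ} {x₀ : ℤ} {Z : ℕ} {x : ℤ} (hx : x ∈ XS q x₀ Z) :
    (Z : ℤ) < x ∧ x ≤ (Z : ℤ) ^ 2 ∧ (2 * q : ℤ) ∣ x - x₀ := by
  unfold XS at hx
  rw [mem_filter, mem_Ioc] at hx
  exact ⟨hx.1.1, hx.1.2, hx.2⟩

private theorem lam0_aux {Z : ℕ} (hZ : 81 ≤ Z) (q : ℕ) (x₀ : ℤ) (hq : 1 ≤ q)
    (hqZ : (q : ℝ) ≤ (Z : ℝ) ^ (1 / 100 : ℝ)) :
    Real.log Z / (2 * q) ≤ 2 * ∑ x ∈ XS q x₀ Z, 1 / (x : ℝ) ∧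
      (Z : ℝ) ^ (-(1 / 50) : ℝ) ≤ ∑ x ∈ XS q x₀ Z, 1 / (x : ℝ) := by
  have hl := aa_log81 hZ
  have h := harm_lower Z (2 * q) x₀ (by omega) (by omega)
  rw [← aa_XS] at h
  have hZ1 : (1 : ℝ) ≤ Z := by exact_mod_cast (by omega : 1 ≤ Z)
  have hZ0 : (0 : ℝ) < Z := by linarith
  have hq1 : (1 : ℝ) ≤ q := by exact_mod_cast hq
  have hq0 : (0 : ℝ) < q := by linarith
  have hqZ' : (q : ℝ) ≤ Z := by
    refine hqZ.trans ?_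
    calc (Z : ℝ) ^ (1 / 100 : ℝ) ≤ (Z : ℝ) ^ (1 : ℝ) :=
          Real.rpow_le_rpow_of_exponent_le hZ1 (by norm_num)
      _ = Z := Real.rpow_one _
  have e : ((2 * q : ℕ) : ℝ) = 2 * q := by push_cast; ring
  rw [e] at h
  have h1 : 2 * (1 / (Z : ℝ)) ≤ Real.log Z / (2 * q) := by
    rw [le_div_iff₀ (by positivity), mul_one_div, div_mul_eq_mul_div, div_le_iff₀ hZ0]
    nlinarith
  have h2 : Real.log Z / (2 * q) ≤ 2 * ∑ x ∈ XS q x₀ Z, 1 / (x : ℝ) := by linarith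
  refine ⟨h2, ?_⟩
  have h3 : (Z : ℝ) ^ (-(1 / 50) : ℝ) ≤ 1 / q := by
    have h4 : (q : ℝ) ≤ (Z : ℝ) ^ (1 / 50 : ℝ) :=
      hqZ.trans (Real.rpow_le_rpow_of_exponent_le hZ1 (by norm_num))
    rw [Real.rpow_neg hZ0.le, ← one_div]
    exact one_div_le_one_div_of_le hq0 h4
  have h5 : 2 * (1 / (q : ℝ)) ≤ Real.log Z / (2 * q) := by
    rw [le_div_iff₀ (by positivity)]
    have : 2 * (1 / (q : ℝ)) * (2 * q) = 4 := by field_simp; norm_num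
    linarith
  linarith

theorem lam0_lower : ∃ Z₀ : ℕ, ∀ Z : ℕ, Z₀ ≤ Z → ∀ (q : ℕ) (x₀ : ℤ), 1 ≤ q →
    (q : ℝ) ≤ (Z : ℝ) ^ (1 / 100 : ℝ) →
    Real.log Z / (2 * q) ≤ 2 * ∑ x ∈ XS q x₀ Z, 1 / (x : ℝ) ∧
      (Z : ℝ) ^ (-(1 / 50) : ℝ) ≤ ∑ x ∈ XS q x₀ Z, 1 / (x : ℝ) :=
  ⟨81, fun _ hZ q x₀ hq hqZ => lam0_aux hZ q x₀ hq hqZ⟩

private theorem aa_bound {a q Z : ℕ} {x₀ A₀ x : ℤ} (hZ : 81 ≤ Z) (ha : 1 ≤ a)
    (haZ : (a : ℝ) ≤ (Z : ℝ) ^ (1 / 100 : ℝ)) (hA : (a : ℤ) * x₀ = 2 * A₀)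
    (hx : x ∈ XS q x₀ Z) :
    0 < AA a x ^ 2 - 1 ∧ (AA a x ^ 2 - 1).natAbs ≤ Z ^ 5 := by
  obtain ⟨h1, h2, h3⟩ := aa_pos hx
  have h4 := AA_spec a q x x₀ A₀ hA h3
  have haz : (1 : ℤ) ≤ a := by exact_mod_cast ha
  have hZz : (81 : ℤ) ≤ Z := by exact_mod_cast hZ
  have hx0 : (0 : ℤ) < x := by linarith
  have h5 : (2 : ℤ) ≤ AA a x := by nlinarith
  have h6 : 0 < AA a x ^ 2 - 1 := by nlinarith
  refine ⟨h6, ?_⟩
  have hZ1 : (1 : ℝ) ≤ Z := by exact_mod_cast (by omega : 1 ≤ Z)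
  have ha2 : (a : ℝ) ^ 2 ≤ Z := by
    have h7 : (a : ℝ) ≤ (Z : ℝ) ^ (1 / 2 : ℝ) :=
      haZ.trans (Real.rpow_le_rpow_of_exponent_le hZ1 (by norm_num))
    calc (a : ℝ) ^ (2 : ℕ) ≤ ((Z : ℝ) ^ (1 / 2 : ℝ)) ^ (2 : ℕ) := by gcongr
      _ = (Z : ℝ) := by
        rw [← Real.rpow_mul_natCast (by linarith)]
        norm_num
  have ha2' : (a : ℤ) ^ 2 ≤ Z := by exact_mod_cast ha2
  have h8 : (AA a x ^ 2 - 1) ≤ (Z : ℤ) ^ 5 := by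
    have h9 : 4 * AA a x ^ 2 = (a : ℤ) ^ 2 * x ^ 2 := by
      have : 4 * AA a x ^ 2 = (2 * AA a x) ^ 2 := by ring
      rw [this, h4]; ring
    have h10 : x ^ 2 ≤ ((Z : ℤ) ^ 2) ^ 2 := pow_le_pow_left₀ hx0.le h2 2
    have h11 : (a : ℤ) ^ 2 * x ^ 2 ≤ Z * ((Z : ℤ) ^ 2) ^ 2 :=
      mul_le_mul ha2' h10 (by positivity) (by linarith)
    have h12 : (Z : ℤ) * ((Z : ℤ) ^ 2) ^ 2 = (Z : ℤ) ^ 5 := by ring
    have h13 : 0 ≤ AA a x ^ 2 := sq_nonneg _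
    nlinarith
  have h14 : ((AA a x ^ 2 - 1).natAbs : ℤ) ≤ ((Z ^ 5 : ℕ) : ℤ) := by
    rw [Int.natAbs_of_nonneg h6.le]
    push_cast
    exact h8
  exact_mod_cast h14

theorem avg_a : ∃ C : ℝ, 0 < C ∧ ∃ Z₀ : ℕ, ∀ Z : ℕ, Z₀ ≤ Z → ∀ (a q w : ℕ) (x₀ A₀ : ℤ),
    1 ≤ a → (a : ℝ) ≤ (Z : ℝ) ^ (1 / 100 : ℝ) → 1 ≤ q → (q : ℝ) ≤ (Z : ℝ) ^ (1 / 100 : ℝ) →
    1 ≤ w → (w : ℝ) ≤ (Z : ℝ) ^ (1 / 100 : ℝ) → (∀ p : ℕ, p.Prime → p ≤ w → p ∣ 2 * q) →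
    (a : ℤ) * x₀ = 2 * A₀ →
    ∑ x ∈ XS q x₀ Z, 1 / (x : ℝ) * FP 48 q (AA a x ^ 2 - 1) ≤
      (1 + C / Real.sqrt w) * ∑ x ∈ XS q x₀ Z, 1 / (x : ℝ) := by
  classical
  obtain ⟨C₁, hC₁, htau⟩ := tau_sum 7
  obtain ⟨C₂, hC₂, htail⟩ := tau_tail 7
  refine ⟨C₁ + 2 * C₂, by linarith, 81, ?_⟩
  intro Z hZ a q w x₀ A₀ ha haZ hq hqZ hw hwZ hpw hA
  obtain ⟨hlow1, hlow2⟩ := lam0_aux hZ q x₀ hq hqZ
  have hl := aa_log81 hZ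
  have hZ1 : (1 : ℝ) ≤ Z := by exact_mod_cast (by omega : 1 ≤ Z)
  have hZ0 : (0 : ℝ) < Z := by linarith
  have hq1 : (1 : ℝ) ≤ q := by exact_mod_cast hq
  have hw1 : (1 : ℝ) ≤ w := by exact_mod_cast hw
  set L := ∑ x ∈ XS q x₀ Z, 1 / (x : ℝ) with hL
  set V := Z ^ 5 with hV
  have hxpos : ∀ x ∈ XS q x₀ Z, (0 : ℝ) < x := by
    intro x hx
    obtain ⟨h1, _, _⟩ := aa_pos hx
    have : (0 : ℤ) < x := by
      have h0 : (0 : ℤ) ≤ Z := Int.natCast_nonneg Z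
      linarith
    exact_mod_cast this
  -- the set of moduli
  set MM := (Ioc w V).filter (fun m => Nat.Coprime m (2 * q)) with hMM
  have hstep1 : ∀ x ∈ XS q x₀ Z, FP 48 q (AA a x ^ 2 - 1) ≤
      1 + ∑ m ∈ MM, if (m : ℤ) ∣ AA a x ^ 2 - 1 then
        (m.divisors.card : ℝ) ^ 6 / (m : ℝ) else 0 := by
    intro x hx
    obtain ⟨hb1, hb2⟩ := aa_bound hZ ha haZ hA hx
    refine (FP_le_sum q w hq hpw _ hb1.ne').trans ?_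
    have : Finset.sum (Finset.filter (fun m : ℕ => w < m ∧ Squarefree m ∧ Nat.Coprime m (2 * q))
          (Nat.divisors (Int.natAbs (AA a x ^ 2 - 1))))
          (fun m : ℕ => (m.divisors.card : ℝ) ^ 6 / (m : ℝ)) ≤
        ∑ m ∈ MM, if (m : ℤ) ∣ AA a x ^ 2 - 1 then
          (m.divisors.card : ℝ) ^ 6 / (m : ℝ) else 0 := by
      rw [← Finset.sum_filter]
      apply Finset.sum_le_sum_of_subset_of_nonneg
      · intro m hm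
        rw [mem_filter, Nat.mem_divisors] at hm
        obtain ⟨⟨hm1, hm2⟩, hm3, hm4, hm5⟩ := hm
        rw [mem_filter, hMM, mem_filter, mem_Ioc]
        refine ⟨⟨⟨hm3, ?_⟩, hm5⟩, ?_⟩
        · exact (Nat.le_of_dvd (Nat.pos_of_ne_zero hm2) hm1).trans hb2
        · exact Int.natCast_dvd.2 hm1
      · intro m _ _
        positivity
    linarith
  have hstep2 : ∑ x ∈ XS q x₀ Z, 1 / (x : ℝ) * FP 48 q (AA a x ^ 2 - 1) ≤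
      L + ∑ m ∈ MM, (m.divisors.card : ℝ) ^ 6 / (m : ℝ) *
        ∑ x ∈ (XS q x₀ Z).filter (fun x => (m : ℤ) ∣ AA a x ^ 2 - 1), 1 / (x : ℝ) := by
    have h1 : ∑ x ∈ XS q x₀ Z, 1 / (x : ℝ) * FP 48 q (AA a x ^ 2 - 1) ≤
        ∑ x ∈ XS q x₀ Z, (1 / (x : ℝ) + ∑ m ∈ MM, if (m : ℤ) ∣ AA a x ^ 2 - 1 then
        1 / (x : ℝ) * ((m.divisors.card : ℝ) ^ 6 / (m : ℝ)) else 0) := by
      apply Finset.sum_le_sum
      intro x hx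
      have h2 := hstep1 x hx
      have h3 : (0 : ℝ) ≤ 1 / x := by
        have := hxpos x hx
        positivity
      have h4 := mul_le_mul_of_nonneg_left h2 h3
      refine h4.trans (le_of_eq ?_)
      rw [mul_add, mul_one, Finset.mul_sum]
      congr 1
      apply Finset.sum_congr rfl
      intro m _
      split_ifs
      · rfl
      · rw [mul_zero]
    refine h1.trans (le_of_eq ?_)
    rw [Finset.sum_add_distrib, Finset.sum_comm]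
    congr 1
    apply Finset.sum_congr rfl
    intro m _
    rw [← Finset.sum_filter, Finset.mul_sum]
    apply Finset.sum_congr rfl
    intro x _
    ring
  have hstep3 : ∑ m ∈ MM, (m.divisors.card : ℝ) ^ 6 / (m : ℝ) *
        ∑ x ∈ (XS q x₀ Z).filter (fun x => (m : ℤ) ∣ AA a x ^ 2 - 1), 1 / (x : ℝ) ≤
      1 / (Z : ℝ) * ∑ m ∈ Icc 1 V, (m.divisors.card : ℝ) ^ 7 / (m : ℝ) +
      Real.log Z / (2 * q) * ∑ m ∈ Ioc w V, (m.divisors.card : ℝ) ^ 7 / (m : ℝ) ^ 2 := by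
    have h1 : ∑ m ∈ MM, (m.divisors.card : ℝ) ^ 6 / (m : ℝ) *
        ∑ x ∈ (XS q x₀ Z).filter (fun x => (m : ℤ) ∣ AA a x ^ 2 - 1), 1 / (x : ℝ) ≤
        ∑ m ∈ MM, (1 / (Z : ℝ) * ((m.divisors.card : ℝ) ^ 7 / (m : ℝ)) +
          Real.log Z / (2 * q) * ((m.divisors.card : ℝ) ^ 7 / (m : ℝ) ^ 2)) := by
      apply Finset.sum_le_sum
      intro m hm
      rw [hMM, mem_filter, mem_Ioc] at hm
      have hx := xsum_a a q Z m x₀ A₀ hA hq (by omega) hm.2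
      have hm0 : (0 : ℝ) < m := by exact_mod_cast (by omega : 0 < m)
      have hm1 : (0 : ℝ) ≤ (m.divisors.card : ℝ) ^ 6 / (m : ℝ) := by positivity
      refine (mul_le_mul_of_nonneg_left hx hm1).trans (le_of_eq ?_)
      have hq0 : (q : ℝ) ≠ 0 := by linarith
      field_simp
    refine h1.trans ?_
    rw [Finset.sum_add_distrib, ← Finset.mul_sum, ← Finset.mul_sum]
    have h2 : ∑ m ∈ MM, (m.divisors.card : ℝ) ^ 7 / (m : ℝ) ≤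
        ∑ m ∈ Icc 1 V, (m.divisors.card : ℝ) ^ 7 / (m : ℝ) := by
      apply Finset.sum_le_sum_of_subset_of_nonneg
      · intro m hm
        rw [hMM, mem_filter, mem_Ioc] at hm
        rw [mem_Icc]
        omega
      · intro m _ _
        positivity
    have h3 : ∑ m ∈ MM, (m.divisors.card : ℝ) ^ 7 / (m : ℝ) ^ 2 ≤
        ∑ m ∈ Ioc w V, (m.divisors.card : ℝ) ^ 7 / (m : ℝ) ^ 2 := by
      apply Finset.sum_le_sum_of_subset_of_nonneg (Finset.filter_subset _ _)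
      intro m _ _
      positivity
    have h4 : 0 ≤ Real.log Z / (2 * q) := by positivity
    gcongr
  have hV1 : 1 ≤ V := Nat.one_le_pow _ _ (by omega)
  have ht1 := htau V hV1
  have ht2 := htail w V hw
  have hVp : ((V : ℕ) : ℝ) ^ (1 / 20 : ℝ) = (Z : ℝ) ^ (1 / 4 : ℝ) := by
    rw [hV]
    push_cast
    rw [← Real.rpow_natCast_mul hZ0.le]
    norm_num
  rw [hVp] at ht1
  have hsw : 0 < Real.sqrt w := Real.sqrt_pos.2 (by linarith)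
  have hL0 : 0 < L := lt_of_lt_of_le (by positivity) hlow2
  -- first error term
  have he1 : 1 / (Z : ℝ) * ∑ m ∈ Icc 1 V, (m.divisors.card : ℝ) ^ 7 / (m : ℝ) ≤
      C₁ / Real.sqrt w * L := by
    have h1 : 1 / (Z : ℝ) * ∑ m ∈ Icc 1 V, (m.divisors.card : ℝ) ^ 7 / (m : ℝ) ≤
        1 / (Z : ℝ) * (C₁ * (Z : ℝ) ^ (1 / 4 : ℝ)) := by gcongr
    refine h1.trans ?_
    have h2 : 1 / (Z : ℝ) * (C₁ * (Z : ℝ) ^ (1 / 4 : ℝ)) = C₁ * (Z : ℝ) ^ (-(3 / 4) : ℝ) := by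
      have : (Z : ℝ) ^ (-(3 / 4) : ℝ) = (Z : ℝ) ^ (1 / 4 : ℝ) / Z := by
        rw [← Real.rpow_sub_one hZ0.ne']
        norm_num
      rw [this]
      ring
    rw [h2, div_mul_eq_mul_div, le_div_iff₀ hsw, mul_assoc]
    have h3 : Real.sqrt w ≤ (Z : ℝ) ^ (1 / 100 : ℝ) := by
      refine le_trans ?_ hwZ
      rw [Real.sqrt_le_left (by linarith)]
      nlinarith
    have h4 : (Z : ℝ) ^ (-(3 / 4) : ℝ) * Real.sqrt w ≤ L := by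
      calc (Z : ℝ) ^ (-(3 / 4) : ℝ) * Real.sqrt w
          ≤ (Z : ℝ) ^ (-(3 / 4) : ℝ) * (Z : ℝ) ^ (1 / 100 : ℝ) := by gcongr
        _ = (Z : ℝ) ^ (-(3 / 4) + 1 / 100 : ℝ) := (Real.rpow_add hZ0 _ _).symm
        _ ≤ (Z : ℝ) ^ (-(1 / 50) : ℝ) :=
            Real.rpow_le_rpow_of_exponent_le hZ1 (by norm_num)
        _ ≤ L := hlow2
    exact mul_le_mul_of_nonneg_left h4 (by linarith)
  have he2 : Real.log Z / (2 * q) * ∑ m ∈ Ioc w V, (m.divisors.card : ℝ) ^ 7 / (m : ℝ) ^ 2 ≤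
      2 * C₂ / Real.sqrt w * L := by
    have h4 : 0 ≤ Real.log Z / (2 * q) := by positivity
    calc Real.log Z / (2 * q) * ∑ m ∈ Ioc w V, (m.divisors.card : ℝ) ^ 7 / (m : ℝ) ^ 2
        ≤ Real.log Z / (2 * q) * (C₂ / Real.sqrt w) := by gcongr
      _ ≤ (2 * L) * (C₂ / Real.sqrt w) := by
          have : 0 ≤ C₂ / Real.sqrt w := by positivity
          gcongr
      _ = 2 * C₂ / Real.sqrt w * L := by ring
  have : (1 + (C₁ + 2 * C₂) / Real.sqrt w) * L =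
      L + (C₁ / Real.sqrt w * L + 2 * C₂ / Real.sqrt w * L) := by
    rw [add_div]; ring
  rw [this]
  linarith

end Pool.Agent.MKA
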