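import Pool.Agent.MKA.AvgA

/-!
# MKA/AvgG: average of `FP 48` at `x'² - x²`

Same as `avg_a`, for each fixed `x`, with `xsum_x` (only squarefree `m` occur in `FP_le_sum`);
`0 < |x'² - x²| ≤ Z^4`.  For each `x` the inner sum `∑_{x' ≠ x} (1/x') FP 48 q (x'²-x²)` is at most
`(1 + C/√w) Λ₀`.
Size: 80-100 lines.
-/

set_option autoImplicit false

namespace Pool.Agent.MKA

open Finset

theorem avg_g : ∃ C : ℝ, 0 < C ∧ ∃ Z₀ : ℕ, ∀ Z : ℕ, Z₀ ≤ Z → ∀ (q w : ℕ) (x₀ : ℤ),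
    1 ≤ q → (q : ℝ) ≤ (Z : ℝ) ^ (1 / 100 : ℝ) →
    1 ≤ w → (w : ℝ) ≤ (Z : ℝ) ^ (1 / 100 : ℝ) → (∀ p : ℕ, p.Prime → p ≤ w → p ∣ 2 * q) →
    ∑ x ∈ XS q x₀ Z, ∑ x' ∈ (XS q x₀ Z).erase x,
      1 / ((x : ℝ) * x') * FP 48 q (x' ^ 2 - x ^ 2) ≤
      (1 + C / Real.sqrt w) * (∑ x ∈ XS q x₀ Z, 1 / (x : ℝ)) ^ 2 := by
  obtain ⟨C1, hC1, hsum⟩ := tau_sum 7
  obtain ⟨C2, hC2, htail⟩ := tau_tail 7
  obtain ⟨Z1, hlam⟩ := lam0_lower
  refine ⟨C1 + 2 * C2, by positivity, max Z1 2, ?_⟩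
  intro Z hZ q w x₀ hq hqZ hw hwZ hpr
  have hZ1 : Z1 ≤ Z := le_trans (le_max_left _ _) hZ
  have hZ2 : 2 ≤ Z := le_trans (le_max_right _ _) hZ
  obtain ⟨hl1, hl2⟩ := hlam Z hZ1 q x₀ hq hqZ
  set Λ : ℝ := ∑ x ∈ XS q x₀ Z, 1 / (x : ℝ) with hΛ
  have hXS : ∀ x ∈ XS q x₀ Z, (Z : ℤ) < x ∧ x ≤ (Z : ℤ) ^ 2 := by
    intro x hx
    exact Finset.mem_Ioc.1 (Finset.mem_filter.1 hx).1
  have hXpos : ∀ x ∈ XS q x₀ Z, (0 : ℝ) < x := by
    intro x hx
    have h1 := (hXS x hx).1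
    have h2 : (0 : ℤ) < x := by
      have : (0 : ℤ) ≤ Z := by positivity
      omega
    exact_mod_cast h2
  have hZr : (1 : ℝ) ≤ Z := by
    have : 1 ≤ Z := by omega
    exact_mod_cast this
  have hZp : (0 : ℝ) < Z := by linarith
  have hwp : (1 : ℝ) ≤ w := by exact_mod_cast hw
  have hsw : 0 < Real.sqrt w := Real.sqrt_pos.2 (by linarith)
  have hqp : (1 : ℝ) ≤ q := by exact_mod_cast hq
  have hlog : 0 ≤ Real.log Z := Real.log_nonneg hZr
  have hΛp : 0 < Λ := lt_of_lt_of_le (Real.rpow_pos_of_pos hZp _) hl2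
  -- the error term
  have herr : 1 / (Z : ℝ) * (C1 * (((Z ^ 4 : ℕ) : ℝ)) ^ (1 / 20 : ℝ)) +
      Real.log Z / (2 * q) * (C2 / Real.sqrt w) ≤ (C1 + 2 * C2) / Real.sqrt w * Λ := by
    have h1 : Real.log Z / (2 * q) * (C2 / Real.sqrt w) ≤ 2 * Λ * (C2 / Real.sqrt w) := by
      apply mul_le_mul_of_nonneg_right hl1 (by positivity)
    have h2 : 1 / (Z : ℝ) * (C1 * (((Z ^ 4 : ℕ) : ℝ)) ^ (1 / 20 : ℝ)) ≤ C1 / Real.sqrt w * Λ := by
      have e1 : (((Z ^ 4 : ℕ) : ℝ)) ^ (1 / 20 : ℝ) = (Z : ℝ) ^ (1 / 5 : ℝ) := by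
        push_cast
        rw [← Real.rpow_natCast, ← Real.rpow_mul hZp.le]
        norm_num
      have e2 : Real.sqrt w ≤ (Z : ℝ) ^ (1 / 200 : ℝ) := by
        rw [Real.sqrt_eq_rpow]
        calc (w : ℝ) ^ (1 / 2 : ℝ) ≤ ((Z : ℝ) ^ (1 / 100 : ℝ)) ^ (1 / 2 : ℝ) :=
              Real.rpow_le_rpow (by positivity) hwZ (by norm_num)
          _ = (Z : ℝ) ^ (1 / 200 : ℝ) := by
              rw [← Real.rpow_mul hZp.le]; norm_num
      have e3 : 1 / (Z : ℝ) * (Z : ℝ) ^ (1 / 5 : ℝ) * Real.sqrt w ≤ Λ := by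
        calc 1 / (Z : ℝ) * (Z : ℝ) ^ (1 / 5 : ℝ) * Real.sqrt w
            ≤ 1 / (Z : ℝ) * (Z : ℝ) ^ (1 / 5 : ℝ) * (Z : ℝ) ^ (1 / 200 : ℝ) := by
              apply mul_le_mul_of_nonneg_left e2 (by positivity)
          _ = (Z : ℝ) ^ (-(159 / 200) : ℝ) := by
              rw [one_div, ← Real.rpow_neg_one, ← Real.rpow_add hZp, ← Real.rpow_add hZp]
              norm_num
          _ ≤ (Z : ℝ) ^ (-(1 / 50) : ℝ) := by
              apply Real.rpow_le_rpow_of_exponent_le hZr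
              norm_num
          _ ≤ Λ := hl2
      rw [e1]
      have hC1p : 0 ≤ C1 := by linarith
      calc 1 / (Z : ℝ) * (C1 * (Z : ℝ) ^ (1 / 5 : ℝ))
          = C1 / Real.sqrt w * (1 / (Z : ℝ) * (Z : ℝ) ^ (1 / 5 : ℝ) * Real.sqrt w) := by
            field_simp
        _ ≤ C1 / Real.sqrt w * Λ := mul_le_mul_of_nonneg_left e3 (by positivity)
    calc _ ≤ C1 / Real.sqrt w * Λ + 2 * Λ * (C2 / Real.sqrt w) := add_le_add h2 h1
      _ = (C1 + 2 * C2) / Real.sqrt w * Λ := by ring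
  set M : Finset ℕ := (Ioc w (Z ^ 4)).filter (fun m => Squarefree m ∧ Nat.Coprime m (2 * q))
    with hM
  set T : ℕ → ℝ := fun m => (m.divisors.card : ℝ) ^ 6 / (m : ℝ) with hT
  have hT0 : ∀ m, 0 ≤ T m := by intro m; simp only [hT]; positivity
  have key : ∀ x ∈ XS q x₀ Z, ∑ x' ∈ (XS q x₀ Z).erase x,
      1 / (x' : ℝ) * FP 48 q (x' ^ 2 - x ^ 2) ≤
      (1 + (C1 + 2 * C2) / Real.sqrt w) * Λ := by
    intro x hx
    have hpt : ∀ x' ∈ (XS q x₀ Z).erase x, 1 / (x' : ℝ) * FP 48 q (x' ^ 2 - x ^ 2) ≤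
        1 / (x' : ℝ) + ∑ m ∈ M, if (m : ℤ) ∣ x' ^ 2 - x ^ 2 then T m * (1 / (x' : ℝ)) else 0 := by
      intro x' hx'
      obtain ⟨hne, hx'X⟩ := Finset.mem_erase.1 hx'
      obtain ⟨b1, b2⟩ := hXS x hx
      obtain ⟨b3, b4⟩ := hXS x' hx'X
      have hZ0 : (0 : ℤ) ≤ Z := by positivity
      have hn : x' ^ 2 - x ^ 2 ≠ 0 := by
        intro h
        have h2 : (x' - x) * (x' + x) = 0 := by linarith [h, (by ring : (x' - x) * (x' + x) = x' ^ 2 - x ^ 2)]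
        rcases mul_eq_zero.1 h2 with h3 | h3
        · exact hne (by linarith)
        · linarith
      have hnab : (x' ^ 2 - x ^ 2).natAbs ≤ Z ^ 4 := by
        have h1 : x ^ 2 ≤ ((Z : ℤ) ^ 2) ^ 2 := by
          apply pow_le_pow_left₀ (by linarith) b2
        have h2 : x' ^ 2 ≤ ((Z : ℤ) ^ 2) ^ 2 := by
          apply pow_le_pow_left₀ (by linarith) b4
        have h3 : ((Z : ℤ) ^ 2) ^ 2 = ((Z ^ 4 : ℕ) : ℤ) := by push_cast; ring
        have h4 : 0 ≤ x ^ 2 := sq_nonneg _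
        have h5 : 0 ≤ x' ^ 2 := sq_nonneg _
        rw [h3] at h1 h2
        omega
      have h1 := FP_le_sum q w hq hpr (x' ^ 2 - x ^ 2) hn
      have h2 : ∑ m ∈ (x' ^ 2 - x ^ 2).natAbs.divisors.filter
          (fun m => w < m ∧ Squarefree m ∧ Nat.Coprime m (2 * q)),
            (m.divisors.card : ℝ) ^ 6 / (m : ℝ) ≤
          ∑ m ∈ M, if (m : ℤ) ∣ x' ^ 2 - x ^ 2 then T m else 0 := by
        rw [← Finset.sum_filter]
        apply Finset.sum_le_sum_of_subset_of_nonneg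
        · intro m hm
          obtain ⟨c1, c2, c3, c4⟩ := Finset.mem_filter.1 hm
          have c5 := (Nat.mem_divisors.1 c1).1
          have c6 := Nat.le_of_dvd (Int.natAbs_pos.2 hn) c5
          refine Finset.mem_filter.2 ⟨Finset.mem_filter.2 ⟨Finset.mem_Ioc.2 ⟨c2, ?_⟩, c3, c4⟩, ?_⟩
          · exact c6.trans hnab
          · exact Int.natCast_dvd.2 c5
        · intro m _ _; exact hT0 m
      have h3 : 0 ≤ 1 / (x' : ℝ) := (one_div_pos.2 (hXpos x' hx'X)).le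
      calc 1 / (x' : ℝ) * FP 48 q (x' ^ 2 - x ^ 2)
          ≤ 1 / (x' : ℝ) * (1 + ∑ m ∈ M, if (m : ℤ) ∣ x' ^ 2 - x ^ 2 then T m else 0) := by
            apply mul_le_mul_of_nonneg_left _ h3
            linarith
        _ = _ := by
            rw [mul_add, mul_one, Finset.mul_sum]
            congr 1
            apply Finset.sum_congr rfl
            intro m _
            split_ifs
            · ring
            · rw [mul_zero]
    have hxs : ∀ m ∈ M, ∑ x' ∈ XS q x₀ Z, (if (m : ℤ) ∣ x' ^ 2 - x ^ 2 then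
        T m * (1 / (x' : ℝ)) else 0) ≤
        1 / (Z : ℝ) * ((m.divisors.card : ℝ) ^ 7 / (m : ℝ)) +
          Real.log Z / (2 * q) * ((m.divisors.card : ℝ) ^ 7 / (m : ℝ) ^ 2) := by
      intro m hm
      obtain ⟨c1, c2, c3⟩ := Finset.mem_filter.1 hm
      have h1 := xsum_x q Z m x x₀ hq hZ2 c3 c2
      have hm0 : (0 : ℝ) < m := by
        have := (Finset.mem_Ioc.1 c1).1
        have : 0 < m := by omega
        exact_mod_cast this
      rw [← Finset.sum_filter, ← Finset.mul_sum]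
      calc T m * ∑ x' ∈ (XS q x₀ Z).filter (fun x' => (m : ℤ) ∣ x' ^ 2 - x ^ 2), 1 / (x' : ℝ)
          ≤ T m * ((m.divisors.card : ℝ) * (1 / (Z : ℝ) + Real.log Z / (2 * q * m))) :=
            mul_le_mul_of_nonneg_left h1 (hT0 m)
        _ = _ := by
            simp only [hT]
            field_simp
    calc ∑ x' ∈ (XS q x₀ Z).erase x, 1 / (x' : ℝ) * FP 48 q (x' ^ 2 - x ^ 2)
        ≤ ∑ x' ∈ (XS q x₀ Z).erase x, (1 / (x' : ℝ) + ∑ m ∈ M,
            if (m : ℤ) ∣ x' ^ 2 - x ^ 2 then T m * (1 / (x' : ℝ)) else 0) :=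
          Finset.sum_le_sum hpt
      _ ≤ ∑ x' ∈ XS q x₀ Z, (1 / (x' : ℝ) + ∑ m ∈ M,
            if (m : ℤ) ∣ x' ^ 2 - x ^ 2 then T m * (1 / (x' : ℝ)) else 0) := by
          apply Finset.sum_le_sum_of_subset_of_nonneg (Finset.erase_subset _ _)
          intro x' hx' _
          have h3 : 0 ≤ 1 / (x' : ℝ) := (one_div_pos.2 (hXpos x' hx')).le
          apply add_nonneg h3
          apply Finset.sum_nonneg
          intro m _
          split_ifs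
          · exact mul_nonneg (hT0 m) h3
          · exact le_refl _
      _ = Λ + ∑ m ∈ M, ∑ x' ∈ XS q x₀ Z, (if (m : ℤ) ∣ x' ^ 2 - x ^ 2 then
            T m * (1 / (x' : ℝ)) else 0) := by
          rw [Finset.sum_add_distrib, Finset.sum_comm]
      _ ≤ Λ + ∑ m ∈ M, (1 / (Z : ℝ) * ((m.divisors.card : ℝ) ^ 7 / (m : ℝ)) +
          Real.log Z / (2 * q) * ((m.divisors.card : ℝ) ^ 7 / (m : ℝ) ^ 2)) := by
          gcongr with m hm
          exact hxs m hm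
      _ ≤ Λ + ∑ m ∈ Ioc w (Z ^ 4), (1 / (Z : ℝ) * ((m.divisors.card : ℝ) ^ 7 / (m : ℝ)) +
          Real.log Z / (2 * q) * ((m.divisors.card : ℝ) ^ 7 / (m : ℝ) ^ 2)) := by
          apply add_le_add_right
          apply Finset.sum_le_sum_of_subset_of_nonneg (Finset.filter_subset _ _)
          intro m _ _
          positivity
      _ = Λ + (1 / (Z : ℝ) * (∑ m ∈ Ioc w (Z ^ 4), (m.divisors.card : ℝ) ^ 7 / (m : ℝ)) +
          Real.log Z / (2 * q) *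
            (∑ m ∈ Ioc w (Z ^ 4), (m.divisors.card : ℝ) ^ 7 / (m : ℝ) ^ 2)) := by
          rw [Finset.sum_add_distrib, Finset.mul_sum, Finset.mul_sum]
      _ ≤ Λ + (1 / (Z : ℝ) * (C1 * (((Z ^ 4 : ℕ) : ℝ)) ^ (1 / 20 : ℝ)) +
          Real.log Z / (2 * q) * (C2 / Real.sqrt w)) := by
          have h1 : ∑ m ∈ Ioc w (Z ^ 4), (m.divisors.card : ℝ) ^ 7 / (m : ℝ) ≤
              C1 * (((Z ^ 4 : ℕ) : ℝ)) ^ (1 / 20 : ℝ) := by
            refine le_trans ?_ (hsum (Z ^ 4) (Nat.one_le_pow _ _ (by omega)))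
            apply Finset.sum_le_sum_of_subset_of_nonneg
            · intro m hm
              rw [Finset.mem_Ioc] at hm
              rw [Finset.mem_Icc]
              omega
            · intro m _ _; positivity
          have h2 := htail w (Z ^ 4) hw
          gcongr
      _ ≤ Λ + (C1 + 2 * C2) / Real.sqrt w * Λ := by linarith
      _ = (1 + (C1 + 2 * C2) / Real.sqrt w) * Λ := by ring
  calc ∑ x ∈ XS q x₀ Z, ∑ x' ∈ (XS q x₀ Z).erase x,
        1 / ((x : ℝ) * x') * FP 48 q (x' ^ 2 - x ^ 2)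
      = ∑ x ∈ XS q x₀ Z, 1 / (x : ℝ) * ∑ x' ∈ (XS q x₀ Z).erase x,
          1 / (x' : ℝ) * FP 48 q (x' ^ 2 - x ^ 2) := by
        apply Finset.sum_congr rfl
        intro x _
        rw [Finset.mul_sum]
        apply Finset.sum_congr rfl
        intro x' _
        rw [← mul_assoc, one_div_mul_one_div]
    _ ≤ ∑ x ∈ XS q x₀ Z, 1 / (x : ℝ) * ((1 + (C1 + 2 * C2) / Real.sqrt w) * Λ) := by
        apply Finset.sum_le_sum
        intro x hx
        exact mul_le_mul_of_nonneg_left (key x hx) (one_div_pos.2 (hXpos x hx)).le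
    _ = (1 + (C1 + 2 * C2) / Real.sqrt w) * Λ ^ 2 := by
        rw [← Finset.sum_mul, ← hΛ]; ring

end Pool.Agent.MKA
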