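import Mathlib

/-!
# MKA/Geo: geometric sums of additive characters
-/

set_option autoImplicit false

namespace Pool.Agent.MKA

open Finset ZMod

variable {m : ℕ} [NeZero m]

private theorem char_sub_one {c : ZMod m} (hc : c ≠ 0) :
    4 / (m : ℝ) / (1 / (c.val : ℝ) + 1 / ((m : ℝ) - c.val)) ≤ ‖(stdAddChar c : ℂ) - 1‖ := by
  have hm0 : 0 < m := Nat.pos_of_ne_zero (NeZero.ne m)
  have hm : (0 : ℝ) < m := by exact_mod_cast hm0
  have hx0 : 0 < c.val := Nat.pos_of_ne_zero (by rwa [Ne, ZMod.val_eq_zero])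
  have hx1 : c.val < m := ZMod.val_lt c
  set x : ℝ := (c.val : ℝ) with hx
  have hx0' : 0 < x := by rw [hx]; exact_mod_cast hx0
  have hx1' : x < m := by rw [hx]; exact_mod_cast hx1
  have h1 : (stdAddChar c : ℂ) = Complex.exp (Complex.I * ((2 * Real.pi * x / m : ℝ) : ℂ)) := by
    have h2 := ZMod.stdAddChar_coe (N := m) (c.val : ℤ)
    rw [Int.cast_natCast, ZMod.natCast_zmod_val] at h2
    rw [h2, hx]
    congr 1
    push_cast
    ring
  rw [h1, Complex.norm_exp_I_mul_ofReal_sub_one, Real.norm_eq_abs, abs_mul, abs_two]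
  have h3 : 2 * Real.pi * x / m / 2 = Real.pi * x / m := by ring
  rw [h3]
  have hpi := Real.pi_pos
  have h4 : 0 < Real.pi * x / m := by positivity
  have h5 : Real.pi * x / m < Real.pi := by
    rw [div_lt_iff₀ hm]
    exact mul_lt_mul_of_pos_left hx1' hpi
  have h6 : 0 < Real.sin (Real.pi * x / m) := Real.sin_pos_of_pos_of_lt_pi h4 h5
  rw [abs_of_pos h6]
  have hmx : 0 < (m : ℝ) - x := by linarith
  have h7 : 1 / (1 / x + 1 / ((m : ℝ) - x)) ≤ x ∧
      1 / (1 / x + 1 / ((m : ℝ) - x)) ≤ (m : ℝ) - x := by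
    have e : 1 / (1 / x + 1 / ((m : ℝ) - x)) = x * (m - x) / m := by
      field_simp
      ring
    rw [e]
    constructor
    · rw [div_le_iff₀ hm]
      nlinarith
    · rw [div_le_iff₀ hm]
      nlinarith
  have h8 : 4 / (m : ℝ) / (1 / x + 1 / ((m : ℝ) - x)) =
      4 / m * (1 / (1 / x + 1 / ((m : ℝ) - x))) := by
    rw [div_eq_mul_one_div (4 / (m : ℝ))]
  rw [h8]
  rcases le_total x (m / 2) with h9 | h9
  · have h10 := Real.mul_le_sin h4.le (by
      rw [div_le_iff₀ hm]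
      nlinarith)
    calc 4 / (m : ℝ) * (1 / (1 / x + 1 / ((m : ℝ) - x))) ≤ 4 / m * x := by
          apply mul_le_mul_of_nonneg_left h7.1 (by positivity)
      _ = 2 * (2 / Real.pi * (Real.pi * x / m)) := by field_simp; ring
      _ ≤ 2 * Real.sin (Real.pi * x / m) := by linarith
  · have h11 : Real.sin (Real.pi * x / m) = Real.sin (Real.pi * (m - x) / m) := by
      rw [← Real.sin_pi_sub]
      congr 1
      field_simp
    have h10 := Real.mul_le_sin (x := Real.pi * (m - x) / m) (by positivity) (by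
      rw [div_le_iff₀ hm]
      nlinarith)
    calc 4 / (m : ℝ) * (1 / (1 / x + 1 / ((m : ℝ) - x))) ≤ 4 / m * (m - x) := by
          apply mul_le_mul_of_nonneg_left h7.2 (by positivity)
      _ = 2 * (2 / Real.pi * (Real.pi * (m - x) / m)) := by field_simp; ring
      _ ≤ 2 * Real.sin (Real.pi * x / m) := by rw [h11]; linarith

/-- a geometric sum of an additive character -/
theorem geo_le {c : ZMod m} (hc : c ≠ 0) (L : ℕ) :
    ‖∑ i ∈ range L, (stdAddChar (c * (i : ZMod m)) : ℂ)‖ ≤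
      (m : ℝ) / 2 * (1 / (c.val : ℝ) + 1 / ((m : ℝ) - c.val)) := by
  have hm0 : 0 < m := Nat.pos_of_ne_zero (NeZero.ne m)
  have hm : (0 : ℝ) < m := by exact_mod_cast hm0
  have hx0 : 0 < c.val := Nat.pos_of_ne_zero (by rwa [Ne, ZMod.val_eq_zero])
  have hx1 : c.val < m := ZMod.val_lt c
  have hx0' : (0 : ℝ) < c.val := by exact_mod_cast hx0
  have hx1' : (0 : ℝ) < (m : ℝ) - c.val := by
    have : (c.val : ℝ) < m := by exact_mod_cast hx1
    linarith
  have hT : 0 < 1 / (c.val : ℝ) + 1 / ((m : ℝ) - c.val) := by positivity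
  have h1 := char_sub_one hc
  have h2 : 0 < 4 / (m : ℝ) / (1 / (c.val : ℝ) + 1 / ((m : ℝ) - c.val)) := by positivity
  set z : ℂ := stdAddChar c with hz
  have hz1 : z ≠ 1 := by
    intro h
    rw [h, sub_self, norm_zero] at h1
    linarith
  have h3 : ∑ i ∈ range L, (stdAddChar (c * (i : ZMod m)) : ℂ) = ∑ i ∈ range L, z ^ i := by
    apply sum_congr rfl
    intro i _
    rw [hz, ← AddChar.map_nsmul_eq_pow, nsmul_eq_mul, mul_comm]
  rw [h3, geom_sum_eq hz1, norm_div]
  have hzn : ‖z‖ = 1 := by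
    rw [hz]
    exact AddChar.norm_apply _ _
  have h4 : ‖z ^ L - 1‖ ≤ 2 := by
    calc ‖z ^ L - 1‖ ≤ ‖z ^ L‖ + ‖(1 : ℂ)‖ := norm_sub_le _ _
      _ = 2 := by rw [norm_pow, hzn, one_pow, norm_one]; norm_num
  calc ‖z ^ L - 1‖ / ‖z - 1‖ ≤ 2 / (4 / (m : ℝ) / (1 / (c.val : ℝ) + 1 / ((m : ℝ) - c.val))) :=
        div_le_div₀ (by norm_num) h4 h2 h1
    _ = (m : ℝ) / 2 * (1 / (c.val : ℝ) + 1 / ((m : ℝ) - c.val)) := by
        field_simp
        ring

/-- the sum of the bounds of `geo_le` -/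
theorem geo_sum : ∑ c ∈ univ.erase (0 : ZMod m),
    (m : ℝ) / 2 * (1 / (c.val : ℝ) + 1 / ((m : ℝ) - c.val)) ≤ m * (1 + Real.log m) := by
  have hm0 : 0 < m := Nat.pos_of_ne_zero (NeZero.ne m)
  have hm : (0 : ℝ) < m := by exact_mod_cast hm0
  rw [← mul_sum, sum_add_distrib]
  have h1 : ∑ c ∈ univ.erase (0 : ZMod m), (1 / (c.val : ℝ)) =
      ∑ i ∈ range (m - 1), 1 / ((i + 1 : ℕ) : ℝ) := by
    refine sum_bij' (fun c _ => c.val - 1) (fun i _ => ((i + 1 : ℕ) : ZMod m)) ?_ ?_ ?_ ?_ ?_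
    · intro c hc
      have h3 : 0 < c.val := Nat.pos_of_ne_zero (by
        rw [Ne, ZMod.val_eq_zero]; exact (mem_erase.1 hc).1)
      have h4 := ZMod.val_lt c
      rw [mem_range]
      omega
    · intro i hi
      rw [mem_range] at hi
      rw [mem_erase]
      refine ⟨?_, mem_univ _⟩
      rw [Ne, ZMod.natCast_eq_zero_iff]
      intro h
      have := Nat.le_of_dvd (by omega) h
      omega
    · intro c hc
      have h3 : 0 < c.val := Nat.pos_of_ne_zero (by
        rw [Ne, ZMod.val_eq_zero]; exact (mem_erase.1 hc).1)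
      rw [Nat.sub_add_cancel h3, ZMod.natCast_zmod_val]
    · intro i hi
      rw [mem_range] at hi
      rw [ZMod.val_natCast, Nat.mod_eq_of_lt (by omega)]
      omega
    · intro c hc
      have h3 : 0 < c.val := Nat.pos_of_ne_zero (by
        rw [Ne, ZMod.val_eq_zero]; exact (mem_erase.1 hc).1)
      rw [Nat.sub_add_cancel h3]
  have h2 : ∑ c ∈ univ.erase (0 : ZMod m), (1 / ((m : ℝ) - c.val)) =
      ∑ c ∈ univ.erase (0 : ZMod m), (1 / (c.val : ℝ)) := by
    apply sum_nbij' (fun c => -c) (fun c => -c)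
    · intro c hc
      rw [mem_erase] at hc ⊢
      exact ⟨neg_ne_zero.2 hc.1, mem_univ _⟩
    · intro c hc
      rw [mem_erase] at hc ⊢
      exact ⟨neg_ne_zero.2 hc.1, mem_univ _⟩
    · intro c _
      exact neg_neg c
    · intro c _
      exact neg_neg c
    · intro c hc
      have hc0 : c ≠ 0 := (mem_erase.1 hc).1
      rw [ZMod.neg_val, if_neg hc0, Nat.cast_sub (ZMod.val_lt c).le]
  rw [h2, h1]
  have h3 : ∑ i ∈ range (m - 1), 1 / ((i + 1 : ℕ) : ℝ) ≤ 1 + Real.log m := by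
    rcases Nat.eq_zero_or_pos (m - 1) with h | h
    · rw [h]
      simp only [range_zero, sum_empty]
      have : 0 ≤ Real.log m := Real.log_nonneg (by exact_mod_cast hm0)
      linarith
    · have h4 := harmonic_le_one_add_log (m - 1)
      have h5 : ((harmonic (m - 1) : ℚ) : ℝ) = ∑ i ∈ range (m - 1), 1 / ((i + 1 : ℕ) : ℝ) := by
        rw [harmonic]
        push_cast
        apply sum_congr rfl
        intro i _
        rw [one_div]
      rw [← h5]
      refine h4.trans ?_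
      have h6 : Real.log ((m - 1 : ℕ) : ℝ) ≤ Real.log m := by
        apply Real.log_le_log (by exact_mod_cast h)
        exact_mod_cast Nat.sub_le m 1
      linarith
  calc (m : ℝ) / 2 * (∑ i ∈ range (m - 1), 1 / ((i + 1 : ℕ) : ℝ) +
      ∑ i ∈ range (m - 1), 1 / ((i + 1 : ℕ) : ℝ)) =
      m * ∑ i ∈ range (m - 1), 1 / ((i + 1 : ℕ) : ℝ) := by ring
    _ ≤ m * (1 + Real.log m) := mul_le_mul_of_nonneg_left h3 hm.le

end Pool.Agent.MKA
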