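import Pool.Agent.MKA.ConicSum
import Pool.Agent.MKA.Geo

/-!
# MKA/Box: points of a conic modulo a prime in a box
-/

set_option autoImplicit false

namespace Pool.Agent.MKA

open Finset ZMod

variable {p : ℕ} [hp : Fact p.Prime]

private theorem box_orth (s : ZMod p × ZMod p) : ∑ κ : ZMod p × ZMod p,
    (stdAddChar (κ.1 * s.1 + κ.2 * s.2) : ℂ) = if s = 0 then (p : ℂ) ^ 2 else 0 := by
  classical
  simp_rw [AddChar.map_add_eq_mul]
  rw [Fintype.sum_prod_type]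
  simp_rw [← mul_sum]
  rw [← sum_mul, AddChar.sum_mulShift _ (isPrimitive_stdAddChar p),
    AddChar.sum_mulShift _ (isPrimitive_stdAddChar p), ZMod.card]
  by_cases h : s = 0
  · rw [if_pos h, h]
    simp [sq]
  · rw [if_neg h]
    by_cases h3 : s.1 = 0
    · have h4 : s.2 ≠ 0 := fun h5 => h (Prod.ext h3 h5)
      rw [if_neg h4]
      simp
    · rw [if_neg h3]
      simp

private theorem box_ind (al be n : ZMod p) (s : ZMod p × ZMod p) :
    (p : ℂ) ^ 2 * (if s ∈ con al be n then 1 else 0) =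
      ∑ κ : ZMod p × ZMod p, ESc al be n (-κ.1) (-κ.2) * stdAddChar (κ.1 * s.1 + κ.2 * s.2) := by
  classical
  unfold ESc
  simp_rw [sum_mul]
  rw [sum_comm]
  have h1 : ∀ q ∈ con al be n, ∑ κ : ZMod p × ZMod p, (stdAddChar (-κ.1 * q.1 + -κ.2 * q.2) : ℂ) *
      stdAddChar (κ.1 * s.1 + κ.2 * s.2) = if q = s then (p : ℂ) ^ 2 else 0 := by
    intro q _
    have h3 := box_orth (s - q)
    have h4 : (s - q = 0) ↔ (q = s) := by rw [sub_eq_zero, eq_comm]
    simp only [h4] at h3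
    rw [← h3]
    apply sum_congr rfl
    intro κ _
    rw [← AddChar.map_add_eq_mul]
    congr 1
    simp only [Prod.fst_sub, Prod.snd_sub]
    ring
  rw [sum_congr rfl h1, sum_ite_eq']
  split_ifs <;> simp

/-- the sum over an arithmetic progression -/
private noncomputable def GA (L : ℕ) (r F k : ZMod p) : ℂ :=
  ∑ i ∈ range L, stdAddChar (k * (r + F * (i : ZMod p)))

private theorem GA_zero (L : ℕ) (r F : ZMod p) : GA L r F 0 = L := by
  unfold GA
  simp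

private theorem GA_sum (L : ℕ) (r : ZMod p) {F : ZMod p} (hF : F ≠ 0) :
    ∑ k : ZMod p, ‖GA L r F k‖ ≤ L + p * (1 + Real.log p) := by
  classical
  rw [← add_sum_erase univ _ (mem_univ (0 : ZMod p)), GA_zero, Complex.norm_natCast]
  have h1 : ∀ k ∈ univ.erase (0 : ZMod p), ‖GA L r F k‖ ≤
      (p : ℝ) / 2 * (1 / ((k * F).val : ℝ) + 1 / ((p : ℝ) - (k * F).val)) := by
    intro k hk
    have hk0 : k ≠ 0 := (mem_erase.1 hk).1
    have h3 : GA L r F k = stdAddChar (k * r) *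
        ∑ i ∈ range L, (stdAddChar (k * F * (i : ZMod p)) : ℂ) := by
      unfold GA
      rw [mul_sum]
      apply sum_congr rfl
      intro i _
      rw [← AddChar.map_add_eq_mul]
      congr 1
      ring
    rw [h3, norm_mul, AddChar.norm_apply, one_mul]
    exact geo_le (mul_ne_zero hk0 hF) L
  have h2 : ∑ k ∈ univ.erase (0 : ZMod p),
      (p : ℝ) / 2 * (1 / ((k * F).val : ℝ) + 1 / ((p : ℝ) - (k * F).val)) =
      ∑ c ∈ univ.erase (0 : ZMod p),
      (p : ℝ) / 2 * (1 / (c.val : ℝ) + 1 / ((p : ℝ) - c.val)) := by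
    apply sum_nbij' (fun k => k * F) (fun c => c * F⁻¹)
    · intro k hk
      rw [mem_erase] at hk ⊢
      exact ⟨mul_ne_zero hk.1 hF, mem_univ _⟩
    · intro c hc
      rw [mem_erase] at hc ⊢
      exact ⟨mul_ne_zero hc.1 (inv_ne_zero hF), mem_univ _⟩
    · intro k _
      rw [mul_assoc, mul_inv_cancel₀ hF, mul_one]
    · intro c _
      rw [mul_assoc, inv_mul_cancel₀ hF, mul_one]
    · intro k _
      rfl
  have h3 := geo_sum (m := p)
  have h4 := (sum_le_sum h1).trans (h2.le.trans h3)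
  linarith

/-- **Points of a conic modulo a prime in a box.** -/
theorem box_prime (h2 : p ≠ 2) {al be n F F' : ℤ} (hal : ¬ (p : ℤ) ∣ al) (hbe : ¬ (p : ℤ) ∣ be)
    (hn : ¬ (p : ℤ) ∣ n) (hF : ¬ (p : ℤ) ∣ F) (hF' : ¬ (p : ℤ) ∣ F') (r r' : ℤ) (L L' : ℕ) :
    ((((range L ×ˢ range L').filter fun q : ℕ × ℕ =>
      (p : ℤ) ∣ al * (r + F * q.1) ^ 2 - be * (r' + F' * q.2) ^ 2 - n).card : ℕ) : ℝ) ≤
      (L : ℝ) * L' * (p + 1) / (p : ℝ) ^ 2 + 2 * (p : ℝ) ^ (3 / 4 : ℝ) *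
        ((1 + Real.log p) ^ 2 + ((L : ℝ) + L') * (1 + Real.log p) / p) := by
  classical
  have hp0 : (0 : ℝ) < p := by exact_mod_cast hp.out.pos
  have hz : ∀ x : ℤ, ¬ (p : ℤ) ∣ x → (x : ZMod p) ≠ 0 := by
    intro x hx h
    exact hx ((ZMod.intCast_zmod_eq_zero_iff_dvd x p).1 h)
  set A : ZMod p := (al : ZMod p) with hA
  set B : ZMod p := (be : ZMod p) with hB
  set Nn : ZMod p := (n : ZMod p) with hNn
  set f : ZMod p := (F : ZMod p) with hf
  set f' : ZMod p := (F' : ZMod p) with hf'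
  set ρ : ZMod p := (r : ZMod p) with hρ
  set ρ' : ZMod p := (r' : ZMod p) with hρ'
  have hmem : ∀ q : ℕ × ℕ, (p : ℤ) ∣ al * (r + F * q.1) ^ 2 - be * (r' + F' * q.2) ^ 2 - n ↔
      (ρ + f * (q.1 : ZMod p), ρ' + f' * (q.2 : ZMod p)) ∈ con A B Nn := by
    intro q
    rw [mem_con, ← ZMod.intCast_zmod_eq_zero_iff_dvd]
    push_cast
    rw [sub_eq_zero]
  -- the number as a sum of indicators
  have h1 : (p : ℂ) ^ 2 * ((((range L ×ˢ range L').filter fun q : ℕ × ℕ =>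
      (p : ℤ) ∣ al * (r + F * q.1) ^ 2 - be * (r' + F' * q.2) ^ 2 - n).card : ℕ) : ℂ) =
      ∑ κ : ZMod p × ZMod p, ESc A B Nn (-κ.1) (-κ.2) * (GA L ρ f κ.1 * GA L' ρ' f' κ.2) := by
    rw [filter_congr fun q _ => hmem q, card_filter]
    push_cast
    rw [mul_sum]
    rw [sum_congr rfl fun q _ => box_ind A B Nn _, sum_comm]
    apply sum_congr rfl
    intro κ _
    rw [← mul_sum]
    congr 1
    unfold GA
    rw [sum_mul_sum, sum_product]
    apply sum_congr rfl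
    intro i _
    apply sum_congr rfl
    intro j _
    rw [← AddChar.map_add_eq_mul]
  -- take norms
  set N : ℕ := ((range L ×ˢ range L').filter fun q : ℕ × ℕ =>
      (p : ℤ) ∣ al * (r + F * q.1) ^ 2 - be * (r' + F' * q.2) ^ 2 - n).card with hN
  have h3 : (p : ℝ) ^ 2 * (N : ℝ) ≤
      ∑ κ : ZMod p × ZMod p, ‖ESc A B Nn (-κ.1) (-κ.2)‖ * (‖GA L ρ f κ.1‖ * ‖GA L' ρ' f' κ.2‖) := by
    have h4 := congrArg norm h1
    rw [norm_mul, norm_pow, Complex.norm_natCast, Complex.norm_natCast] at h4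
    rw [h4]
    refine (norm_sum_le _ _).trans (le_of_eq ?_)
    apply sum_congr rfl
    intro κ _
    rw [norm_mul, norm_mul]
  have hES0 : ‖ESc A B Nn 0 0‖ ≤ p + 1 := by
    rw [ES_zero, Complex.norm_natCast]
    exact_mod_cast card_con_le h2 (hz al hal) (hz be hbe) (hz n hn)
  have h5 : ∀ κ ∈ univ.erase (0 : ZMod p × ZMod p),
      ‖ESc A B Nn (-κ.1) (-κ.2)‖ * (‖GA L ρ f κ.1‖ * ‖GA L' ρ' f' κ.2‖) ≤
      2 * (p : ℝ) ^ (3 / 4 : ℝ) * (‖GA L ρ f κ.1‖ * ‖GA L' ρ' f' κ.2‖) := by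
    intro κ hκ
    apply mul_le_mul_of_nonneg_right _ (by positivity)
    apply norm_ES_le h2 (hz al hal) (hz be hbe) (hz n hn)
    intro h
    rw [Prod.mk.injEq, neg_eq_zero, neg_eq_zero] at h
    exact (mem_erase.1 hκ).1 (Prod.ext h.1 h.2)
  have h6 : ∑ κ ∈ univ.erase (0 : ZMod p × ZMod p), (‖GA L ρ f κ.1‖ * ‖GA L' ρ' f' κ.2‖) ≤
      ((L : ℝ) + L') * (p * (1 + Real.log p)) + (p * (1 + Real.log p)) ^ 2 := by
    have h7 : ∑ κ : ZMod p × ZMod p, (‖GA L ρ f κ.1‖ * ‖GA L' ρ' f' κ.2‖) =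
        (∑ k, ‖GA L ρ f k‖) * ∑ l, ‖GA L' ρ' f' l‖ := by
      rw [Fintype.sum_prod_type, sum_mul_sum]
    rw [← add_sum_erase univ _ (mem_univ (0 : ZMod p × ZMod p))] at h7
    simp only [Prod.fst_zero, Prod.snd_zero, GA_zero, Complex.norm_natCast] at h7
    have h8 := GA_sum L ρ (hz F hF)
    have h9 := GA_sum L' ρ' (hz F' hF')
    have h10 : (∑ k, ‖GA L ρ f k‖) * ∑ l, ‖GA L' ρ' f' l‖ ≤
        ((L : ℝ) + p * (1 + Real.log p)) * (L' + p * (1 + Real.log p)) := by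
      apply mul_le_mul h8 h9 (sum_nonneg fun _ _ => norm_nonneg _)
      have : 0 ≤ Real.log p := Real.log_nonneg (by exact_mod_cast hp.out.one_le)
      positivity
    nlinarith
  have hlog : 0 ≤ Real.log p := Real.log_nonneg (by exact_mod_cast hp.out.one_le)
  have hpow : (0 : ℝ) ≤ (p : ℝ) ^ (3 / 4 : ℝ) := by positivity
  have h11 : (p : ℝ) ^ 2 * (N : ℝ) ≤ (p + 1) * ((L : ℝ) * L') + 2 * (p : ℝ) ^ (3 / 4 : ℝ) *
      (((L : ℝ) + L') * (p * (1 + Real.log p)) + (p * (1 + Real.log p)) ^ 2) := by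
    refine h3.trans ?_
    rw [← add_sum_erase univ _ (mem_univ (0 : ZMod p × ZMod p))]
    simp only [Prod.fst_zero, Prod.snd_zero, neg_zero, GA_zero, Complex.norm_natCast]
    apply add_le_add
    · exact mul_le_mul_of_nonneg_right hES0 (by positivity)
    · refine (sum_le_sum h5).trans ?_
      rw [← mul_sum]
      exact mul_le_mul_of_nonneg_left h6 (by positivity)
  have h12 : (L : ℝ) * L' * (p + 1) / (p : ℝ) ^ 2 + 2 * (p : ℝ) ^ (3 / 4 : ℝ) *
        ((1 + Real.log p) ^ 2 + ((L : ℝ) + L') * (1 + Real.log p) / p) =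
      ((p + 1) * ((L : ℝ) * L') + 2 * (p : ℝ) ^ (3 / 4 : ℝ) *
      (((L : ℝ) + L') * (p * (1 + Real.log p)) + (p * (1 + Real.log p)) ^ 2)) /
        (p : ℝ) ^ 2 := by
    field_simp
    ring
  rw [h12, le_div_iff₀ (by positivity), mul_comm]
  exact h11

end Pool.Agent.MKA
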