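import Pool.Agent.MKA.Sqf
import Pool.Agent.MKA.Geo

/-!
# MKA/BoxSqf: points of a conic modulo a squarefree number in a box
-/

set_option autoImplicit false

namespace Pool.Agent.MKA

open Finset ZMod

variable {m : ℕ} [NeZero m]

private theorem orth (s : ZMod m × ZMod m) : ∑ κ : ZMod m × ZMod m,
    (stdAddChar (κ.1 * s.1 + κ.2 * s.2) : ℂ) = if s = 0 then (m : ℂ) ^ 2 else 0 := by
  classical
  have hor : ∀ b : ZMod m, ∑ x : ZMod m, (stdAddChar (x * b) : ℂ) =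
      if b = 0 then (m : ℂ) else 0 := by
    intro b
    rw [AddChar.sum_mulShift _ (isPrimitive_stdAddChar m), ZMod.card]
    push_cast
    rfl
  simp_rw [AddChar.map_add_eq_mul]
  rw [Fintype.sum_prod_type]
  simp_rw [← mul_sum]
  rw [← sum_mul, hor, hor]
  by_cases h : s = 0
  · rw [if_pos h, h]
    simp [sq]
  · rw [if_neg h]
    by_cases h3 : s.1 = 0
    · have h4 : s.2 ≠ 0 := fun h5 => h (Prod.ext h3 h5)
      rw [if_neg h4]
      simp
    · rw [if_neg h3]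
      simp

private theorem ind (al be n : ℤ) (s : ZMod m × ZMod m) :
    (m : ℂ) ^ 2 * (if s ∈ con (al : ZMod m) (be : ZMod m) (n : ZMod m) then 1 else 0) =
      ∑ κ : ZMod m × ZMod m, EZ m al be n (-(κ.1.val : ℤ)) (-(κ.2.val : ℤ)) *
        stdAddChar (κ.1 * s.1 + κ.2 * s.2) := by
  classical
  unfold EZ
  simp_rw [sum_mul]
  rw [sum_comm]
  have h1 : ∀ q ∈ con (al : ZMod m) (be : ZMod m) (n : ZMod m), ∑ κ : ZMod m × ZMod m,
      (stdAddChar (((-(κ.1.val : ℤ) : ℤ) : ZMod m) * q.1 +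
        ((-(κ.2.val : ℤ) : ℤ) : ZMod m) * q.2) : ℂ) *
      stdAddChar (κ.1 * s.1 + κ.2 * s.2) = if q = s then (m : ℂ) ^ 2 else 0 := by
    intro q _
    have h3 := orth (s - q)
    have h4 : (s - q = 0) ↔ (q = s) := by rw [sub_eq_zero, eq_comm]
    simp only [h4] at h3
    rw [← h3]
    apply sum_congr rfl
    intro κ _
    rw [← AddChar.map_add_eq_mul]
    congr 1
    simp only [Prod.fst_sub, Prod.snd_sub]
    push_cast
    rw [ZMod.natCast_zmod_val, ZMod.natCast_zmod_val]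
    ring
  rw [sum_congr rfl h1, sum_ite_eq']
  split_ifs <;> simp

/-- the sum over an arithmetic progression -/
private noncomputable def GB (L : ℕ) (r F k : ZMod m) : ℂ :=
  ∑ i ∈ range L, stdAddChar (k * (r + F * (i : ZMod m)))

private theorem GB_zero (L : ℕ) (r F : ZMod m) : GB L r F 0 = L := by
  unfold GB
  simp

/-- the nonzero residues divisible by `g` -/
private def DG (m : ℕ) [NeZero m] (g : ℕ) : Finset (ZMod m) :=
  (univ.erase 0).filter fun k => g ∣ k.val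

private theorem DG_sum {g : ℕ} (hg : g ∣ m) :
    ∑ c ∈ DG m g, (m : ℝ) / 2 * (1 / (c.val : ℝ) + 1 / ((m : ℝ) - c.val)) ≤
      (m : ℝ) / g * (1 + Real.log m) := by
  classical
  have hm0 : 0 < m := Nat.pos_of_ne_zero (NeZero.ne m)
  have hm : (0 : ℝ) < m := by exact_mod_cast hm0
  obtain ⟨d, hd⟩ := hg
  have hg0 : 0 < g := Nat.pos_of_ne_zero (by rintro rfl; omega)
  have hd0 : 0 < d := Nat.pos_of_ne_zero (by rintro rfl; omega)
  have hgr : (0 : ℝ) < g := by exact_mod_cast hg0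
  have hdr : (0 : ℝ) < d := by exact_mod_cast hd0
  have hmem : ∀ c : ZMod m, c ∈ DG m g ↔ c ≠ 0 ∧ g ∣ c.val := by
    intro c
    simp [DG]
  have hneg : ∀ c ∈ DG m g, -c ∈ DG m g := by
    intro c hc
    rw [hmem] at hc ⊢
    refine ⟨neg_ne_zero.2 hc.1, ?_⟩
    rw [ZMod.neg_val, if_neg hc.1]
    exact Nat.dvd_sub (hd ▸ dvd_mul_right g d) hc.2
  have h2 : ∑ c ∈ DG m g, (1 / ((m : ℝ) - c.val)) = ∑ c ∈ DG m g, (1 / (c.val : ℝ)) := by
    apply sum_nbij' (fun c => -c) (fun c => -c)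
    · exact hneg
    · exact hneg
    · intro c _
      exact neg_neg c
    · intro c _
      exact neg_neg c
    · intro c hc
      have hc0 : c ≠ 0 := ((hmem c).1 hc).1
      rw [ZMod.neg_val, if_neg hc0, Nat.cast_sub (ZMod.val_lt c).le]
  have h1 : ∑ c ∈ DG m g, (1 / (c.val : ℝ)) = ∑ i ∈ range (d - 1), 1 / ((g * (i + 1) : ℕ) : ℝ) := by
    refine sum_bij' (fun c _ => c.val / g - 1) (fun i _ => ((g * (i + 1) : ℕ) : ZMod m))
      ?_ ?_ ?_ ?_ ?_
    · intro c hc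
      obtain ⟨hc0, e, he⟩ := (hmem c).1 hc
      have h3 : 0 < c.val := Nat.pos_of_ne_zero (by rwa [Ne, ZMod.val_eq_zero])
      have h4 := ZMod.val_lt c
      rw [mem_range, he, Nat.mul_div_cancel_left e hg0]
      have h5 : e < d := by
        rw [he, hd] at h4
        exact Nat.lt_of_mul_lt_mul_left h4
      have h6 : 0 < e := Nat.pos_of_ne_zero (by rintro rfl; omega)
      omega
    · intro i hi
      rw [mem_range] at hi
      have h4 : g * (i + 1) < m := by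
        rw [hd]
        exact Nat.mul_lt_mul_of_pos_left (by omega) hg0
      rw [hmem]
      refine ⟨?_, ?_⟩
      · rw [Ne, ZMod.natCast_eq_zero_iff]
        intro h
        have h5 : 0 < g * (i + 1) := by positivity
        have := Nat.le_of_dvd h5 h
        omega
      · rw [ZMod.val_natCast, Nat.mod_eq_of_lt h4]
        exact dvd_mul_right _ _
    · intro c hc
      obtain ⟨hc0, e, he⟩ := (hmem c).1 hc
      have h3 : 0 < c.val := Nat.pos_of_ne_zero (by rwa [Ne, ZMod.val_eq_zero])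
      have h6 : 0 < e := Nat.pos_of_ne_zero (by rintro rfl; omega)
      rw [he, Nat.mul_div_cancel_left e hg0, Nat.sub_add_cancel h6, ← he, ZMod.natCast_zmod_val]
    · intro i hi
      rw [mem_range] at hi
      have h4 : g * (i + 1) < m := by
        rw [hd]
        exact Nat.mul_lt_mul_of_pos_left (by omega) hg0
      rw [ZMod.val_natCast, Nat.mod_eq_of_lt h4, Nat.mul_div_cancel_left _ hg0]
      omega
    · intro c hc
      obtain ⟨hc0, e, he⟩ := (hmem c).1 hc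
      have h3 : 0 < c.val := Nat.pos_of_ne_zero (by rwa [Ne, ZMod.val_eq_zero])
      have h6 : 0 < e := Nat.pos_of_ne_zero (by rintro rfl; omega)
      rw [he, Nat.mul_div_cancel_left e hg0, Nat.sub_add_cancel h6]
  rw [← mul_sum, sum_add_distrib, h2, h1]
  have h5 : ∑ i ∈ range (d - 1), 1 / ((g * (i + 1) : ℕ) : ℝ) ≤ (1 + Real.log m) / g := by
    have e1 : ∑ i ∈ range (d - 1), 1 / ((g * (i + 1) : ℕ) : ℝ) =
        (∑ i ∈ range (d - 1), 1 / ((i + 1 : ℕ) : ℝ)) / g := by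
      rw [sum_div]
      apply sum_congr rfl
      intro i _
      push_cast
      field_simp
    rw [e1]
    apply div_le_div_of_nonneg_right _ hgr.le
    rcases Nat.eq_zero_or_pos (d - 1) with h | h
    · rw [h]
      simp only [range_zero, sum_empty]
      have : 0 ≤ Real.log m := Real.log_nonneg (by exact_mod_cast hm0)
      linarith
    · have h4 := harmonic_le_one_add_log (d - 1)
      have h5 : ((harmonic (d - 1) : ℚ) : ℝ) = ∑ i ∈ range (d - 1), 1 / ((i + 1 : ℕ) : ℝ) := by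
        rw [harmonic]
        push_cast
        apply sum_congr rfl
        intro i _
        rw [one_div]
      rw [← h5]
      refine h4.trans ?_
      have h6 : Real.log ((d - 1 : ℕ) : ℝ) ≤ Real.log m := by
        apply Real.log_le_log (by exact_mod_cast h)
        have h7 : d - 1 ≤ m := by
          rw [hd]
          exact (Nat.sub_le d 1).trans (Nat.le_mul_of_pos_left d hg0)
        exact_mod_cast h7
      linarith
  calc (m : ℝ) / 2 * (∑ i ∈ range (d - 1), 1 / ((g * (i + 1) : ℕ) : ℝ) +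
      ∑ i ∈ range (d - 1), 1 / ((g * (i + 1) : ℕ) : ℝ)) =
      m * ∑ i ∈ range (d - 1), 1 / ((g * (i + 1) : ℕ) : ℝ) := by ring
    _ ≤ m * ((1 + Real.log m) / g) := mul_le_mul_of_nonneg_left h5 hm.le
    _ = (m : ℝ) / g * (1 + Real.log m) := by ring

private theorem GB_sum (L : ℕ) (r : ZMod m) {F : ZMod m} (hF : IsUnit F) {g : ℕ} (hg : g ∣ m) :
    ∑ k ∈ DG m g, ‖GB L r F k‖ ≤ (m : ℝ) / g * (1 + Real.log m) := by
  classical
  obtain ⟨u, hu⟩ := hF
  have hmem : ∀ c : ZMod m, c ∈ DG m g ↔ c ≠ 0 ∧ g ∣ c.val := by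
    intro c
    simp [DG]
  have hdv : ∀ (c : ZMod m) (v : ZMod m), g ∣ c.val → g ∣ (c * v).val := by
    intro c v hc
    rw [ZMod.val_mul]
    exact (Nat.dvd_mod_iff hg).2 (dvd_mul_of_dvd_left hc _)
  have hmul : ∀ k ∈ DG m g, k * F ∈ DG m g := by
    intro k hk
    rw [hmem] at hk ⊢
    refine ⟨?_, hdv k F hk.2⟩
    rw [← hu]
    intro h
    apply hk.1
    have h3 := congrArg (fun x => x * ((u⁻¹ : (ZMod m)ˣ) : ZMod m)) h
    simpa [mul_assoc] using h3
  have hmul' : ∀ k ∈ DG m g, k * ((u⁻¹ : (ZMod m)ˣ) : ZMod m) ∈ DG m g := by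
    intro k hk
    rw [hmem] at hk ⊢
    refine ⟨?_, hdv k _ hk.2⟩
    intro h
    apply hk.1
    have h3 := congrArg (fun x => x * (u : ZMod m)) h
    simpa [mul_assoc] using h3
  have h1 : ∀ k ∈ DG m g, ‖GB L r F k‖ ≤
      (m : ℝ) / 2 * (1 / ((k * F).val : ℝ) + 1 / ((m : ℝ) - (k * F).val)) := by
    intro k hk
    have h3 : GB L r F k = stdAddChar (k * r) *
        ∑ i ∈ range L, (stdAddChar (k * F * (i : ZMod m)) : ℂ) := by
      unfold GB
      rw [mul_sum]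
      apply sum_congr rfl
      intro i _
      rw [← AddChar.map_add_eq_mul]
      congr 1
      ring
    rw [h3, norm_mul, AddChar.norm_apply, one_mul]
    exact geo_le ((hmem _).1 (hmul k hk)).1 L
  have h2 : ∑ k ∈ DG m g,
      (m : ℝ) / 2 * (1 / ((k * F).val : ℝ) + 1 / ((m : ℝ) - (k * F).val)) =
      ∑ c ∈ DG m g, (m : ℝ) / 2 * (1 / (c.val : ℝ) + 1 / ((m : ℝ) - c.val)) := by
    apply sum_nbij' (fun k => k * F) (fun c => c * ((u⁻¹ : (ZMod m)ˣ) : ZMod m))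
    · exact hmul
    · exact hmul'
    · intro k _
      rw [← hu, mul_assoc, Units.mul_inv, mul_one]
    · intro c _
      rw [← hu, mul_assoc, Units.inv_mul, mul_one]
    · intro k _
      rfl
  exact (sum_le_sum h1).trans (h2.le.trans (DG_sum hg))

/-- **Points of a conic modulo a squarefree number in a box**, with the exact number of points modulo `m`. -/
theorem box_sqf_card (hsq : Squarefree m) (h2 : ¬ 2 ∣ m) {al be n F F' : ℤ}
    (hu : Unit3 m al be n) (hF : IsCoprime (m : ℤ) F) (hF' : IsCoprime (m : ℤ) F')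
    (r r' : ℤ) (L L' : ℕ) :
    ((((range L ×ˢ range L').filter fun q : ℕ × ℕ =>
      (m : ℤ) ∣ al * (r + F * q.1) ^ 2 - be * (r' + F' * q.2) ^ 2 - n).card : ℕ) : ℝ) ≤
      (L : ℝ) * L' * ((con (al : ZMod m) (be : ZMod m) (n : ZMod m)).card : ℝ) / (m : ℝ) ^ 2 +
        2 ^ m.primeFactors.card * m.divisors.card * (m : ℝ) ^ (3 / 4 : ℝ) *
        ((1 + Real.log m) ^ 2 + ((L : ℝ) + L') * (1 + Real.log m) / m) := by
  classical
  have hm0 : 0 < m := Nat.pos_of_ne_zero (NeZero.ne m)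
  have hm : (0 : ℝ) < m := by exact_mod_cast hm0
  have hm1 : (1 : ℝ) ≤ m := by exact_mod_cast hm0
  have hun : ∀ x : ℤ, IsCoprime (m : ℤ) x → IsUnit (x : ZMod m) := by
    rintro x ⟨c, d, hcd⟩
    refine IsUnit.of_mul_eq_one (d : ZMod m) ?_
    have h3 := congrArg (fun y : ℤ => (y : ZMod m)) hcd
    push_cast at h3
    rw [ZMod.natCast_self, mul_zero, zero_add] at h3
    rw [mul_comm]
    exact h3
  set f : ZMod m := (F : ZMod m) with hf
  set f' : ZMod m := (F' : ZMod m) with hf'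
  set ρ : ZMod m := (r : ZMod m) with hρ
  set ρ' : ZMod m := (r' : ZMod m) with hρ'
  have hmem : ∀ q : ℕ × ℕ, (m : ℤ) ∣ al * (r + F * q.1) ^ 2 - be * (r' + F' * q.2) ^ 2 - n ↔
      (ρ + f * (q.1 : ZMod m), ρ' + f' * (q.2 : ZMod m)) ∈
        con (al : ZMod m) (be : ZMod m) (n : ZMod m) := by
    intro q
    rw [mem_con, ← ZMod.intCast_zmod_eq_zero_iff_dvd]
    push_cast
    rw [sub_eq_zero]
  set N : ℕ := ((range L ×ˢ range L').filter fun q : ℕ × ℕ =>
      (m : ℤ) ∣ al * (r + F * q.1) ^ 2 - be * (r' + F' * q.2) ^ 2 - n).card with hN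
  have h1 : (m : ℂ) ^ 2 * (N : ℂ) =
      ∑ κ : ZMod m × ZMod m, EZ m al be n (-(κ.1.val : ℤ)) (-(κ.2.val : ℤ)) *
        (GB L ρ f κ.1 * GB L' ρ' f' κ.2) := by
    rw [hN, filter_congr fun q _ => hmem q, card_filter]
    push_cast
    rw [mul_sum]
    rw [sum_congr rfl fun q _ => ind al be n _, sum_comm]
    apply sum_congr rfl
    intro κ _
    rw [← mul_sum]
    congr 1
    unfold GB
    rw [sum_mul_sum, sum_product]
    apply sum_congr rfl
    intro i _
    apply sum_congr rfl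
    intro j _
    rw [← AddChar.map_add_eq_mul]
  have h3 : (m : ℝ) ^ 2 * (N : ℝ) ≤
      ∑ κ : ZMod m × ZMod m, ‖EZ m al be n (-(κ.1.val : ℤ)) (-(κ.2.val : ℤ))‖ *
        (‖GB L ρ f κ.1‖ * ‖GB L' ρ' f' κ.2‖) := by
    have h4 := congrArg norm h1
    rw [norm_mul, norm_pow, Complex.norm_natCast, Complex.norm_natCast] at h4
    rw [h4]
    refine (norm_sum_le _ _).trans (le_of_eq ?_)
    apply sum_congr rfl
    intro κ _
    rw [norm_mul, norm_mul]
  have hE0 : ‖EZ m al be n 0 0‖ ≤ ((con (al : ZMod m) (be : ZMod m) (n : ZMod m)).card : ℝ) := by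
    have h4 : EZ m al be n 0 0 =
        ((con (al : ZMod m) (be : ZMod m) (n : ZMod m)).card : ℂ) := by
      unfold EZ
      simp
    rw [h4, Complex.norm_natCast]
  set C : ℝ := 2 ^ m.primeFactors.card * (m : ℝ) ^ (3 / 4 : ℝ) with hC
  have hC0 : 0 ≤ C := by positivity
  set Λ : ℝ := 1 + Real.log m with hΛ
  have hΛ1 : 1 ≤ Λ := by
    have : 0 ≤ Real.log m := Real.log_nonneg hm1
    linarith
  -- the nonzero frequencies with a given common divisor
  have h5 : ∀ κ ∈ univ.erase (0 : ZMod m × ZMod m),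
      ‖EZ m al be n (-(κ.1.val : ℤ)) (-(κ.2.val : ℤ))‖ * (‖GB L ρ f κ.1‖ * ‖GB L' ρ' f' κ.2‖) ≤
      C * ∑ g ∈ m.divisors, (g : ℝ) ^ (1 / 4 : ℝ) *
        (if g ∣ κ.1.val ∧ g ∣ κ.2.val then ‖GB L ρ f κ.1‖ * ‖GB L' ρ' f' κ.2‖ else 0) := by
    intro κ hκ
    have h6 := norm_EZ_le m hsq h2 al be n hu (-(κ.1.val : ℤ)) (-(κ.2.val : ℤ))
    set g : ℕ := Nat.gcd (Int.gcd (-(κ.1.val : ℤ)) (-(κ.2.val : ℤ))) m with hg
    have hgm : g ∣ m := Nat.gcd_dvd_right _ _
    have hg1 : g ∣ κ.1.val := by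
      have h7 : g ∣ Int.gcd (-(κ.1.val : ℤ)) (-(κ.2.val : ℤ)) := Nat.gcd_dvd_left _ _
      rw [Int.gcd_neg, Int.neg_gcd, Int.gcd_natCast_natCast] at h7
      exact h7.trans (Nat.gcd_dvd_left _ _)
    have hg2 : g ∣ κ.2.val := by
      have h7 : g ∣ Int.gcd (-(κ.1.val : ℤ)) (-(κ.2.val : ℤ)) := Nat.gcd_dvd_left _ _
      rw [Int.gcd_neg, Int.neg_gcd, Int.gcd_natCast_natCast] at h7
      exact h7.trans (Nat.gcd_dvd_right _ _)
    have h8 : (g : ℝ) ^ (1 / 4 : ℝ) * (‖GB L ρ f κ.1‖ * ‖GB L' ρ' f' κ.2‖) ≤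
        ∑ g ∈ m.divisors, (g : ℝ) ^ (1 / 4 : ℝ) *
        (if g ∣ κ.1.val ∧ g ∣ κ.2.val then ‖GB L ρ f κ.1‖ * ‖GB L' ρ' f' κ.2‖ else 0) := by
      have h9 := single_le_sum (f := fun g : ℕ => (g : ℝ) ^ (1 / 4 : ℝ) *
        (if g ∣ κ.1.val ∧ g ∣ κ.2.val then ‖GB L ρ f κ.1‖ * ‖GB L' ρ' f' κ.2‖ else 0))
        (s := m.divisors) (fun i _ => by positivity) (Nat.mem_divisors.2 ⟨hgm, hm0.ne'⟩)
      simp only [hg1, hg2, and_self, if_true] at h9
      exact h9
    calc _ ≤ C * (g : ℝ) ^ (1 / 4 : ℝ) * (‖GB L ρ f κ.1‖ * ‖GB L' ρ' f' κ.2‖) :=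
          mul_le_mul_of_nonneg_right h6 (by positivity)
      _ = C * ((g : ℝ) ^ (1 / 4 : ℝ) * (‖GB L ρ f κ.1‖ * ‖GB L' ρ' f' κ.2‖)) := by ring
      _ ≤ _ := mul_le_mul_of_nonneg_left h8 hC0
  have h6 : ∀ g ∈ m.divisors, ∑ κ ∈ univ.erase (0 : ZMod m × ZMod m),
      (if g ∣ κ.1.val ∧ g ∣ κ.2.val then ‖GB L ρ f κ.1‖ * ‖GB L' ρ' f' κ.2‖ else 0) ≤
      ((L : ℝ) + L') * (m / g * Λ) + (m / g * Λ) ^ 2 := by
    intro g hg
    have hgm : g ∣ m := (Nat.mem_divisors.1 hg).1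
    have hg0 : 0 < g := Nat.pos_of_dvd_of_pos hgm hm0
    have hgr : (0 : ℝ) < g := by exact_mod_cast hg0
    -- all frequencies
    have h7 : ∑ κ : ZMod m × ZMod m,
        (if g ∣ κ.1.val ∧ g ∣ κ.2.val then ‖GB L ρ f κ.1‖ * ‖GB L' ρ' f' κ.2‖ else 0) =
        (∑ k : ZMod m, if g ∣ k.val then ‖GB L ρ f k‖ else 0) *
          ∑ l : ZMod m, if g ∣ l.val then ‖GB L' ρ' f' l‖ else 0 := by
      rw [Fintype.sum_prod_type, sum_mul_sum]
      apply sum_congr rfl
      intro k _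
      apply sum_congr rfl
      intro l _
      by_cases hk : g ∣ k.val
      · by_cases hl : g ∣ l.val
        · simp [hk, hl]
        · simp [hl]
      · simp [hk]
    have h8 : ∀ (L : ℕ) (ρ f : ZMod m), IsUnit f →
        (∑ k : ZMod m, if g ∣ k.val then ‖GB L ρ f k‖ else 0) ≤ L + m / g * Λ := by
      intro L ρ f hf
      rw [← add_sum_erase univ _ (mem_univ (0 : ZMod m)), ZMod.val_zero, if_pos (dvd_zero g),
        GB_zero, Complex.norm_natCast, ← sum_filter]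
      have := GB_sum L ρ hf hgm
      unfold DG at this
      linarith
    rw [← add_sum_erase univ _ (mem_univ (0 : ZMod m × ZMod m))] at h7
    simp only [Prod.fst_zero, Prod.snd_zero, ZMod.val_zero, dvd_zero, and_self, if_true,
      GB_zero, Complex.norm_natCast] at h7
    have h9 := h8 L ρ f (hun F hF)
    have h10 := h8 L' ρ' f' (hun F' hF')
    have h11 := mul_le_mul h9 h10 (sum_nonneg fun _ _ => by positivity)
      (by positivity)
    nlinarith
  have h7 : ∑ κ ∈ univ.erase (0 : ZMod m × ZMod m),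
      ‖EZ m al be n (-(κ.1.val : ℤ)) (-(κ.2.val : ℤ))‖ * (‖GB L ρ f κ.1‖ * ‖GB L' ρ' f' κ.2‖) ≤
      C * (m.divisors.card * (((L : ℝ) + L') * (m * Λ) + (m * Λ) ^ 2)) := by
    refine (sum_le_sum h5).trans ?_
    rw [← mul_sum, sum_comm]
    apply mul_le_mul_of_nonneg_left _ hC0
    rw [← nsmul_eq_mul, ← sum_const]
    apply sum_le_sum
    intro g hg
    rw [← mul_sum]
    have hgm : g ∣ m := (Nat.mem_divisors.1 hg).1
    have hg0 : 0 < g := Nat.pos_of_dvd_of_pos hgm hm0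
    have hgr : (1 : ℝ) ≤ g := by exact_mod_cast hg0
    have hgr0 : (0 : ℝ) < g := by linarith
    have h8 := h6 g hg
    have h9 : (g : ℝ) ^ (1 / 4 : ℝ) ≤ g := by
      calc (g : ℝ) ^ (1 / 4 : ℝ) ≤ (g : ℝ) ^ (1 : ℝ) :=
            Real.rpow_le_rpow_of_exponent_le hgr (by norm_num)
        _ = g := Real.rpow_one _
    have h10 : (m : ℝ) / g * Λ * g = m * Λ := by field_simp
    have h11 : (m : ℝ) / g * Λ ≤ m * Λ := by
      apply mul_le_mul_of_nonneg_right _ (by linarith)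
      exact div_le_self hm.le hgr
    have h12 : 0 ≤ (m : ℝ) / g * Λ := by positivity
    calc (g : ℝ) ^ (1 / 4 : ℝ) * ∑ κ ∈ univ.erase (0 : ZMod m × ZMod m),
        (if g ∣ κ.1.val ∧ g ∣ κ.2.val then ‖GB L ρ f κ.1‖ * ‖GB L' ρ' f' κ.2‖ else 0)
        ≤ g * (((L : ℝ) + L') * (m / g * Λ) + (m / g * Λ) ^ 2) := by
          apply mul_le_mul h9 h8 (sum_nonneg fun _ _ => by positivity) hgr0.le
      _ = ((L : ℝ) + L') * (m / g * Λ * g) + (m / g * Λ * g) * (m / g * Λ) := by ring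
      _ = ((L : ℝ) + L') * (m * Λ) + (m * Λ) * (m / g * Λ) := by rw [h10]
      _ ≤ ((L : ℝ) + L') * (m * Λ) + (m * Λ) * (m * Λ) := by
          apply add_le_add le_rfl
          apply mul_le_mul_of_nonneg_left h11 (by positivity)
      _ = ((L : ℝ) + L') * (m * Λ) + (m * Λ) ^ 2 := by ring
  have h11 : (m : ℝ) ^ 2 * (N : ℝ) ≤
      ((con (al : ZMod m) (be : ZMod m) (n : ZMod m)).card : ℝ) * ((L : ℝ) * L') +
      C * (m.divisors.card * (((L : ℝ) + L') * (m * Λ) + (m * Λ) ^ 2)) := by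
    refine h3.trans ?_
    rw [← add_sum_erase univ _ (mem_univ (0 : ZMod m × ZMod m))]
    simp only [Prod.fst_zero, Prod.snd_zero, ZMod.val_zero, Nat.cast_zero, neg_zero, GB_zero,
      Complex.norm_natCast]
    apply add_le_add
    · exact mul_le_mul_of_nonneg_right hE0 (by positivity)
    · exact h7
  have h12 : (L : ℝ) * L' * ((con (al : ZMod m) (be : ZMod m) (n : ZMod m)).card : ℝ) /
          (m : ℝ) ^ 2 +
        2 ^ m.primeFactors.card * m.divisors.card * (m : ℝ) ^ (3 / 4 : ℝ) *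
        ((1 + Real.log m) ^ 2 + ((L : ℝ) + L') * (1 + Real.log m) / m) =
      (((con (al : ZMod m) (be : ZMod m) (n : ZMod m)).card : ℝ) * ((L : ℝ) * L') +
      C * (m.divisors.card * (((L : ℝ) + L') * (m * Λ) + (m * Λ) ^ 2))) / (m : ℝ) ^ 2 := by
    rw [hC, hΛ]
    field_simp
    ring
  rw [h12, le_div_iff₀ (by positivity), mul_comm]
  exact h11

/-- **Points of a conic modulo a squarefree number in a box.** -/
theorem box_sqf (hsq : Squarefree m) (h2 : ¬ 2 ∣ m) {al be n F F' : ℤ}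
    (hu : Unit3 m al be n) (hF : IsCoprime (m : ℤ) F) (hF' : IsCoprime (m : ℤ) F')
    (r r' : ℤ) (L L' : ℕ) :
    ((((range L ×ˢ range L').filter fun q : ℕ × ℕ =>
      (m : ℤ) ∣ al * (r + F * q.1) ^ 2 - be * (r' + F' * q.2) ^ 2 - n).card : ℕ) : ℝ) ≤
      (L : ℝ) * L' * (∏ p ∈ m.primeFactors, ((p : ℝ) + 1)) / (m : ℝ) ^ 2 +
        2 ^ m.primeFactors.card * m.divisors.card * (m : ℝ) ^ (3 / 4 : ℝ) *
        ((1 + Real.log m) ^ 2 + ((L : ℝ) + L') * (1 + Real.log m) / m) := by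
  refine (box_sqf_card hsq h2 hu hF hF' r r' L L').trans ?_
  have h5 := card_con_sqf m hsq h2 al be n hu
  have h6 : ((con (al : ZMod m) (be : ZMod m) (n : ZMod m)).card : ℝ) ≤
      ∏ p ∈ m.primeFactors, ((p : ℝ) + 1) := by
    calc (((con (al : ZMod m) (be : ZMod m) (n : ZMod m)).card : ℕ) : ℝ) ≤
        ((∏ p ∈ m.primeFactors, (p + 1) : ℕ) : ℝ) := by exact_mod_cast h5
      _ = ∏ p ∈ m.primeFactors, ((p : ℝ) + 1) := by push_cast; rfl
  gcongr

end Pool.Agent.MKA
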