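import Pool.Agent.MKA.Defs

/-!
# MKA/BsCountC: number of integers composed of given primes

The map `s ↦ (v_p(s))_{p ∣ n}` from `bs n q B` to functions `n.natAbs.primeFactors → {0,…,J}`,
`J = Nat.log 2 B`, is injective (all primes of `s` divide `n`; `p^v ≤ s ≤ B` gives `v ≤ J`); so
`#bs ≤ (J+1)^(ω(n))`.
Size: 50-80 lines.
-/

set_option autoImplicit false

namespace Pool.Agent.MKA

open Finset

theorem bs_card_le (n : ℤ) (hn : n ≠ 0) (q B : ℕ) :
    (bs n q B).card ≤ (Nat.log 2 B + 1) ^ (n.natAbs.primeFactors.card) := by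
  classical
  have hcard : (Fintype.piFinset
      (fun _ : {p // p ∈ n.natAbs.primeFactors} => Finset.range (Nat.log 2 B + 1))).card =
      (Nat.log 2 B + 1) ^ (n.natAbs.primeFactors.card) := by
    rw [Fintype.card_piFinset]
    simp
  rw [← hcard]
  apply Finset.card_le_card_of_injOn
    (fun s => fun p : {p // p ∈ n.natAbs.primeFactors} => s.factorization p.1)
  · intro s hs
    have hs' : s ∈ bs n q B := hs
    rw [bs, Finset.mem_filter, Finset.mem_Icc] at hs'
    show _ ∈ (_ : Set _)
    rw [Finset.mem_coe, Fintype.mem_piFinset]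
    intro p
    rw [Finset.mem_range, Nat.lt_succ_iff]
    have hp : (p.1).Prime := Nat.prime_of_mem_primeFactors p.2
    have hs0 : s ≠ 0 := by omega
    have hB0 : B ≠ 0 := by omega
    apply Nat.le_log_of_pow_le (by norm_num)
    calc 2 ^ s.factorization p.1 ≤ p.1 ^ s.factorization p.1 :=
          Nat.pow_le_pow_left hp.two_le _
      _ ≤ s := Nat.le_of_dvd (by omega) (Nat.ordProj_dvd s p.1)
      _ ≤ B := hs'.1.2
  · intro s hs t ht hst
    have hs' : s ∈ bs n q B := hs
    have ht' : t ∈ bs n q B := ht
    rw [bs, Finset.mem_filter, Finset.mem_Icc] at hs' ht'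
    have hs0 : s ≠ 0 := by omega
    have ht0 : t ≠ 0 := by omega
    apply Nat.eq_of_factorization_eq hs0 ht0
    intro p
    by_cases hp : p ∈ n.natAbs.primeFactors
    · exact congrFun hst ⟨p, hp⟩
    · by_cases hpp : p.Prime
      · have hpn : ¬ (p : ℤ) ∣ n := by
          intro h
          apply hp
          rw [Nat.mem_primeFactors]
          exact ⟨hpp, Int.natCast_dvd.1 h, Int.natAbs_ne_zero.2 hn⟩
        have h1 : s.factorization p = 0 := by
          by_contra h
          exact hpn (hs'.2.2 p (Nat.support_factorization s ▸ Finsupp.mem_support_iff.2 h))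
        have h2 : t.factorization p = 0 := by
          by_contra h
          exact hpn (ht'.2.2 p (Nat.support_factorization t ▸ Finsupp.mem_support_iff.2 h))
        rw [h1, h2]
      · rw [Nat.factorization_eq_zero_of_not_prime s hpp,
          Nat.factorization_eq_zero_of_not_prime t hpp]

end Pool.Agent.MKA
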