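import Pool.Agent.MKA.XSum

/-!
# MKA/CS: Cauchy–Schwarz, and the values are represented

`cauchy`: let `T = {(x,t) : x ∈ X, t ∈ YU x}` (`Finset.sigma` or a product filter), `f(x,t) = BB a x t.1 t.2`,
`V = vals`, the image of `f`.  `#T = ∑_{b ∈ V} r(b)`, `r(b) = #f⁻¹(b)`, so `(#T)² ≤ #V ∑ r(b)²`
(`sq_sum_le_card_mul_sum_sq`) and `∑_b r(b)² = #{pairs with the same value} = ∑_{x,x'} #PXX`.
`vals_spec`: if `b = BB a x y u` with `x ∈ XS`, `(y,u) ∈ YU`, `m = g q₃`, then with `A = AA a x`,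
`2A = a x` (`AA_spec`), `z = u + A y`: `x² + y² + z² - a x y z = x² + y² + z(z - 2Ay) = x² + y² + u² - A²y² = b`.
Congruence: `2q ∣ x - x₀` gives `q ∣ A - A₀` and `q ∣ x² - x₀²`; `q ∣ y - y₀`; `u = u₀ + g q₃ t`:
`u² - u₀² = 2u₀ g q₃ t + g² q₃² t² = g² q₃ (c₀ t + q₃ t²)` is divisible by `q = g² q₃`.  So
`q ∣ b - (u₀² - (A₀²-1)y₀² + x₀²)`, hence `q ∣ b - b₀`.
Size: 100-130 lines.
-/

set_option autoImplicit false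

namespace Pool.Agent.MKA

open Finset

open Classical in
/-- The values taken. -/
noncomputable def vals (a q m : ℕ) (y₀ u₀ M₁ M₂ U N₁ H : ℤ) (X : Finset ℤ) : Finset ℤ :=
  (Ioc N₁ (N₁ + H)).filter
    (fun b => ∃ x ∈ X, ∃ t ∈ YU a q m y₀ u₀ M₁ M₂ U N₁ H x, BB a x t.1 t.2 = b)

theorem cauchy (a q m : ℕ) (y₀ u₀ M₁ M₂ U N₁ H : ℤ) (X : Finset ℤ) :
    (∑ x ∈ X, ((YU a q m y₀ u₀ M₁ M₂ U N₁ H x).card : ℝ)) ^ 2 ≤
      ((vals a q m y₀ u₀ M₁ M₂ U N₁ H X).card : ℝ) *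
        ∑ x ∈ X, ∑ x' ∈ X, ((PXX a q m y₀ u₀ M₁ M₂ U N₁ H x x').card : ℝ) := by
  classical
  set V := vals a q m y₀ u₀ M₁ M₂ U N₁ H X with hV
  set n : ℤ → ℤ → ℕ := fun x b =>
    ((YU a q m y₀ u₀ M₁ M₂ U N₁ H x).filter (fun t : ℤ × ℤ => BB a x t.1 t.2 = b)).card with hn
  have hmem : ∀ x ∈ X, ∀ t ∈ YU a q m y₀ u₀ M₁ M₂ U N₁ H x, BB a x t.1 t.2 ∈ V := by
    intro x hx t ht
    obtain ⟨_, _, h1, h2⟩ := Finset.mem_filter.1 ht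
    exact Finset.mem_filter.2 ⟨Finset.mem_Ioc.2 ⟨h1, h2⟩, x, hx, t, ht, rfl⟩
  have h1 : ∀ x ∈ X, (YU a q m y₀ u₀ M₁ M₂ U N₁ H x).card = ∑ b ∈ V, n x b := by
    intro x hx
    exact Finset.card_eq_sum_card_fiberwise (fun t ht => hmem x hx t ht)
  have h2 : ∀ x ∈ X, ∀ x' ∈ X, (PXX a q m y₀ u₀ M₁ M₂ U N₁ H x x').card =
      ∑ b ∈ V, n x b * n x' b := by
    intro x hx x' hx'
    rw [Finset.card_eq_sum_card_fiberwise (f := fun t : (ℤ × ℤ) × (ℤ × ℤ) => BB a x t.1.1 t.1.2)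
      (t := V)]
    · apply Finset.sum_congr rfl
      intro b _
      simp only [hn]
      rw [← Finset.card_product]
      congr 1
      ext ⟨t, t'⟩
      simp only [PXX, Finset.mem_filter, Finset.mem_product]
      constructor
      · rintro ⟨⟨⟨h3, h4⟩, h5⟩, h6⟩
        exact ⟨⟨h3, h6⟩, h4, by rw [← h5]; exact h6⟩
      · rintro ⟨⟨h3, h4⟩, h5, h6⟩
        exact ⟨⟨⟨h3, h5⟩, by rw [h4, h6]⟩, h4⟩
    · intro t ht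
      obtain ⟨h3, _⟩ := Finset.mem_filter.1 ht
      exact hmem x hx _ (Finset.mem_product.1 h3).1
  have e1 : ∑ x ∈ X, ((YU a q m y₀ u₀ M₁ M₂ U N₁ H x).card : ℝ) =
      ∑ b ∈ V, ∑ x ∈ X, (n x b : ℝ) := by
    rw [Finset.sum_comm]
    apply Finset.sum_congr rfl
    intro x hx
    rw [h1 x hx]
    push_cast
    rfl
  have e2 : ∑ x ∈ X, ∑ x' ∈ X, ((PXX a q m y₀ u₀ M₁ M₂ U N₁ H x x').card : ℝ) =
      ∑ b ∈ V, (∑ x ∈ X, (n x b : ℝ)) ^ 2 := by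
    have e3 : ∀ b ∈ V, (∑ x ∈ X, (n x b : ℝ)) ^ 2 =
        ∑ x ∈ X, ∑ x' ∈ X, (n x b : ℝ) * (n x' b : ℝ) := by
      intro b _
      rw [sq, Finset.sum_mul_sum]
    rw [Finset.sum_congr rfl e3]
    rw [Finset.sum_comm (s := V) (t := X)]
    apply Finset.sum_congr rfl
    intro x hx
    rw [Finset.sum_comm (s := V) (t := X)]
    apply Finset.sum_congr rfl
    intro x' hx'
    rw [h2 x hx x' hx']
    push_cast
    rfl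
  rw [e1, e2]
  exact sq_sum_le_card_mul_sum_sq

theorem vals_spec (a q g q₃ : ℕ) (x₀ A₀ y₀ u₀ c₀ b₀ M₁ M₂ U N₁ H : ℤ) (Z : ℕ)
    (hq : q = g ^ 2 * q₃) (hA : (a : ℤ) * x₀ = 2 * A₀) (hu : 2 * u₀ = (g : ℤ) * c₀)
    (hb : (q : ℤ) ∣ u₀ ^ 2 - (A₀ ^ 2 - 1) * y₀ ^ 2 + x₀ ^ 2 - b₀) (b : ℤ)
    (h : b ∈ vals a q (g * q₃) y₀ u₀ M₁ M₂ U N₁ H (XS q x₀ Z)) :
    (q : ℤ) ∣ b - b₀ ∧ Sol a b := by
  classical
  obtain ⟨_, x, hx, ⟨y, u⟩, ht, hbb⟩ := Finset.mem_filter.1 h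
  obtain ⟨_, ⟨k, hk⟩⟩ := Finset.mem_filter.1 hx
  obtain ⟨hprod, ⟨t, hut⟩, _, _⟩ := Finset.mem_filter.1 ht
  obtain ⟨hy, _⟩ := Finset.mem_product.1 hprod
  obtain ⟨_, ⟨l, hl⟩, _, _⟩ := Finset.mem_filter.1 hy
  simp only at hut hl hbb
  have hAA := AA_spec a q x x₀ A₀ hA ⟨k, hk⟩
  set A := AA a x with hAdef
  have hb' : u ^ 2 - (A ^ 2 - 1) * y ^ 2 + x ^ 2 = b := hbb
  obtain ⟨s, hs⟩ := hb
  constructor
  · have hx' : x = x₀ + 2 * q * k := by linarith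
    have hy' : y = y₀ + q * l := by linarith
    have hu' : u = u₀ + ((g * q₃ : ℕ) : ℤ) * t := by linarith
    have hA' : A = A₀ + a * q * k := by
      have h2 : 2 * A = 2 * (A₀ + a * q * k) := by
        rw [hAA, hx', mul_add, hA]; ring
      linarith
    have hqz : (q : ℤ) = (g : ℤ) ^ 2 * q₃ := by rw [hq]; push_cast; ring
    have h3 : u ^ 2 - u₀ ^ 2 = (q : ℤ) * (t * (c₀ + q₃ * t)) := by
      have : u ^ 2 - u₀ ^ 2 = ((g : ℤ) * q₃ * t) * (2 * u₀ + (g : ℤ) * q₃ * t) := by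
        rw [hu']; push_cast; ring
      rw [this, hu, hqz]; ring
    refine ⟨t * (c₀ + q₃ * t) - (a * k * (2 * A₀ + a * q * k) * y ^ 2 +
      (A₀ ^ 2 - 1) * (l * (2 * y₀ + q * l))) + (2 * k * (2 * x₀ + 2 * q * k)) + s, ?_⟩
    have h4 : b - b₀ = (u ^ 2 - u₀ ^ 2) - ((A ^ 2 - A₀ ^ 2) * y ^ 2 +
        (A₀ ^ 2 - 1) * (y ^ 2 - y₀ ^ 2)) + (x ^ 2 - x₀ ^ 2) +
        (u₀ ^ 2 - (A₀ ^ 2 - 1) * y₀ ^ 2 + x₀ ^ 2 - b₀) := by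
      rw [← hb']; ring
    rw [h4, h3, hs]
    have h5 : A ^ 2 - A₀ ^ 2 = q * (a * k * (2 * A₀ + a * q * k)) := by rw [hA']; ring
    have h6 : y ^ 2 - y₀ ^ 2 = q * (l * (2 * y₀ + q * l)) := by rw [hy']; ring
    have h7 : x ^ 2 - x₀ ^ 2 = q * (2 * k * (2 * x₀ + 2 * q * k)) := by rw [hx']; ring
    rw [h5, h6, h7]
    ring
  · refine ⟨x, y, u + A * y, ?_⟩
    rw [← hb', ← hAA]
    ring

end Pool.Agent.MKA
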