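import Mathlib

/-!
# MKA/Conic: points of conics over `ZMod p` and the norm one torus
-/

set_option autoImplicit false

namespace Pool.Agent.MKA

open Finset

/-- the points of the conic `al u² - be v² = n` -/
def con {p : ℕ} [NeZero p] (al be n : ZMod p) : Finset (ZMod p × ZMod p) :=
  univ.filter fun q => al * q.1 ^ 2 - be * q.2 ^ 2 = n

theorem mem_con {p : ℕ} [NeZero p] {al be n : ZMod p} {q : ZMod p × ZMod p} :
    q ∈ con al be n ↔ al * q.1 ^ 2 - be * q.2 ^ 2 = n := by
  simp [con]

variable {p : ℕ} [hp : Fact p.Prime]

theorem con_scale {al : ZMod p} (be n : ZMod p) (hal : al ≠ 0) :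
    con al be n = con 1 (be / al) (n / al) := by
  ext q
  rw [mem_con, mem_con]
  constructor
  · intro h
    rw [← h]
    field_simp
  · intro h
    have h2 : al * (1 * q.1 ^ 2 - be / al * q.2 ^ 2) = al * (n / al) := by rw [h]
    have h3 : al * (n / al) = n := by field_simp
    have h4 : al * (be / al) = be := by field_simp
    linear_combination h2 + h3 + q.2 ^ 2 * h4

private theorem two_ne (h2 : p ≠ 2) : (2 : ZMod p) ≠ 0 := by
  intro h
  have h3 : ((2 : ℕ) : ZMod p) = 0 := by exact_mod_cast h
  rw [ZMod.natCast_eq_zero_iff] at h3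
  exact h2 ((Nat.prime_dvd_prime_iff_eq hp.out Nat.prime_two).1 h3)

/-- the rational parametrisation of the torus: upper bound -/
theorem card_tor_le (h2 : p ≠ 2) {de : ZMod p} (hde : de ≠ 0) : (con 1 de 1).card ≤ p + 1 := by
  have h22 := two_ne h2
  have h1 : con 1 de 1 ⊆ insert ((-1 : ZMod p), (0 : ZMod p))
      ((con 1 de 1).filter fun q => q.1 ≠ -1) := by
    intro q hq
    by_cases h : q.1 = -1
    · rw [mem_insert]
      left
      rw [mem_con, h] at hq
      have h3 : de * q.2 ^ 2 = 0 := by linear_combination -hq
      have h4 : q.2 = 0 := by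
        rcases mul_eq_zero.1 h3 with h5 | h5
        · exact absurd h5 hde
        · exact pow_eq_zero_iff (two_ne_zero) |>.1 h5
      exact Prod.ext h h4
    · rw [mem_insert]
      right
      rw [mem_filter]
      exact ⟨hq, h⟩
  have h3 : ((con 1 de 1).filter fun q => q.1 ≠ -1).card ≤ (univ : Finset (ZMod p)).card := by
    apply card_le_card_of_injOn (fun q => q.2 / (q.1 + 1)) (fun _ _ => mem_coe.2 (mem_univ _))
    intro q hq q' hq' hqq
    rw [mem_coe, mem_filter, mem_con] at hq hq'
    simp only at hqq
    obtain ⟨s, t⟩ := q
    obtain ⟨s', t'⟩ := q'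
    simp only at hq hq' hqq
    have hs : s + 1 ≠ 0 := fun h => hq.2 (eq_neg_of_add_eq_zero_left h)
    have hs' : s' + 1 ≠ 0 := fun h => hq'.2 (eq_neg_of_add_eq_zero_left h)
    set r := t / (s + 1) with hr
    have ht : t = r * (s + 1) := by rw [hr]; field_simp
    have ht' : t' = r * (s' + 1) := by rw [hqq]; field_simp
    have e1 : s - 1 = de * r ^ 2 * (s + 1) := by
      have h4 := hq.1
      rw [ht] at h4
      apply mul_left_cancel₀ hs
      linear_combination h4
    have e2 : s' - 1 = de * r ^ 2 * (s' + 1) := by
      have h4 := hq'.1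
      rw [ht'] at h4
      apply mul_left_cancel₀ hs'
      linear_combination h4
    have h5 : (1 - de * r ^ 2) ≠ 0 := by
      intro h
      have h6 : (2 : ZMod p) = 0 := by linear_combination (-1) * e1 + (s + 1) * h
      exact h22 h6
    have h6 : s = s' := by
      apply mul_left_cancel₀ h5
      linear_combination e1 - e2
    rw [ht, ht', h6]
  calc (con 1 de 1).card ≤ _ := card_le_card h1
    _ ≤ ((con 1 de 1).filter fun q => q.1 ≠ -1).card + 1 := card_insert_le _ _
    _ ≤ (univ : Finset (ZMod p)).card + 1 := by omega
    _ = p + 1 := by rw [card_univ, ZMod.card]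

/-- the rational parametrisation of the torus: lower bound -/
theorem le_card_tor (h2 : p ≠ 2) {de : ZMod p} : p ≤ (con 1 de 1).card + 1 := by
  have h22 := two_ne h2
  set B : Finset (ZMod p) := univ.filter fun r => de * r ^ 2 ≠ 1 with hB
  have h1 : p ≤ B.card + 2 := by
    have h3 : (univ.filter fun r : ZMod p => de * r ^ 2 = 1).card ≤ 2 := by
      by_cases h4 : ∃ r : ZMod p, de * r ^ 2 = 1
      · obtain ⟨r, hr⟩ := h4
        have h5 : (univ.filter fun r : ZMod p => de * r ^ 2 = 1) ⊆ {r, -r} := by
          intro s hs
          rw [mem_filter] at hs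
          have h6 : (s - r) * (s + r) = 0 := by
            have hde : de ≠ 0 := by
              rintro rfl
              simp at hr
            apply mul_left_cancel₀ hde
            linear_combination hs.2 - hr
          rw [mem_insert, mem_singleton]
          rcases mul_eq_zero.1 h6 with h7 | h7
          · left; exact sub_eq_zero.1 h7
          · right; exact eq_neg_of_add_eq_zero_left h7
        exact (card_le_card h5).trans card_le_two
      · rw [filter_eq_empty_iff.2]
        · simp
        · intro r _ hr
          exact h4 ⟨r, hr⟩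
    have h4 : B.card + (univ.filter fun r : ZMod p => de * r ^ 2 = 1).card = p := by
      have h5 := card_filter_add_card_filter_not (s := (univ : Finset (ZMod p)))
        (fun r => de * r ^ 2 ≠ 1)
      rw [card_univ, ZMod.card] at h5
      have h6 : (univ.filter fun r : ZMod p => ¬ de * r ^ 2 ≠ 1) =
          univ.filter fun r : ZMod p => de * r ^ 2 = 1 := by
        ext r
        simp
      rw [h6] at h5
      exact h5
    omega
  have h3 : B.card + 1 ≤ (con 1 de 1).card := by
    have h4 : B.card ≤ ((con 1 de 1).erase (-1, 0)).card := by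
      apply card_le_card_of_injOn
        (fun r => ((1 + de * r ^ 2) / (1 - de * r ^ 2), 2 * r / (1 - de * r ^ 2)))
      · intro r hr
        rw [mem_coe, hB, mem_filter] at hr
        have h5 : 1 - de * r ^ 2 ≠ 0 := fun h => hr.2 (sub_eq_zero.1 h).symm
        simp only [mem_coe]
        rw [mem_erase, mem_con]
        refine ⟨?_, ?_⟩
        · intro h
          have h6 := congrArg Prod.fst h
          simp only at h6
          rw [div_eq_iff h5] at h6
          exact h22 (by linear_combination h6)
        · simp only
          field_simp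
          ring
      · intro r hr r' hr' h
        rw [mem_coe, hB, mem_filter] at hr hr'
        have h5 : 1 - de * r ^ 2 ≠ 0 := fun h => hr.2 (sub_eq_zero.1 h).symm
        have h5' : 1 - de * r' ^ 2 ≠ 0 := fun h => hr'.2 (sub_eq_zero.1 h).symm
        have h6 := congrArg Prod.fst h
        have h7 := congrArg Prod.snd h
        simp only at h6 h7
        rw [div_eq_div_iff h5 h5'] at h6 h7
        have h8 : de * r ^ 2 = de * r' ^ 2 := by
          apply mul_left_cancel₀ h22
          linear_combination h6
        rw [← h8] at h7
        have h9 := mul_right_cancel₀ h5 h7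
        exact mul_left_cancel₀ h22 h9
    rw [card_erase_of_mem] at h4
    · have h5 : 0 < (con 1 de 1).card := by
        apply card_pos.2
        refine ⟨(1, 0), ?_⟩
        rw [mem_con]
        simp
      omega
    · rw [mem_con]
      simp
  omega

/-- the number of points of a conic -/
theorem card_con_le (h2 : p ≠ 2) {al be n : ZMod p} (hal : al ≠ 0) (hbe : be ≠ 0) (hn : n ≠ 0) :
    (con al be n).card ≤ p + 1 := by
  rw [con_scale be n hal]
  set de := be / al with hde
  set m := n / al with hm
  have hde0 : de ≠ 0 := div_ne_zero hbe hal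
  have hm0 : m ≠ 0 := div_ne_zero hn hal
  rcases (con 1 de m).eq_empty_or_nonempty with h | ⟨⟨u0, v0⟩, h⟩
  · rw [h]; simp
  · rw [mem_con] at h
    simp only at h
    refine le_trans ?_ (card_tor_le h2 hde0)
    apply card_le_card_of_surjOn (fun q => (q.1 * u0 + de * q.2 * v0, q.2 * u0 + q.1 * v0))
    rintro ⟨u, v⟩ hq
    rw [mem_coe, mem_con] at hq
    simp only at hq
    refine ⟨((u * u0 - de * v * v0) / m, (v * u0 - u * v0) / m), ?_, ?_⟩
    · rw [mem_coe, mem_con]
      simp only
      field_simp
      have e : m ^ 2 = (1 * u ^ 2 - de * v ^ 2) * (1 * u0 ^ 2 - de * v0 ^ 2) := by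
        rw [h, hq]; ring
      rw [e]
      ring
    · simp only
      refine Prod.ext ?_ ?_
      · simp only
        field_simp
        rw [← h]
        ring
      · simp only
        field_simp
        rw [← h]
        ring

end Pool.Agent.MKA
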