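import Pool.Agent.MKA.Conic

/-!
# MKA/ConicSum: exponential sums over conics, fourth moment over the norm one torus
-/

set_option autoImplicit false

namespace Pool.Agent.MKA

open Finset ZMod

variable {p : ℕ} [hp : Fact p.Prime]

/-- the exponential sum over the conic -/
noncomputable def ESc (al be n k l : ZMod p) : ℂ :=
  ∑ q ∈ con al be n, stdAddChar (k * q.1 + l * q.2)

/-- number of representations of `s` as a sum of two points of the conic -/
def rs (al be n : ZMod p) (s : ZMod p × ZMod p) : ℕ :=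
  ((con al be n).filter fun q => s - q ∈ con al be n).card

private theorem two_ne' (h2 : p ≠ 2) : (2 : ZMod p) ≠ 0 := by
  intro h
  have h3 : ((2 : ℕ) : ZMod p) = 0 := by exact_mod_cast h
  rw [ZMod.natCast_eq_zero_iff] at h3
  exact h2 ((Nat.prime_dvd_prime_iff_eq hp.out Nat.prime_two).1 h3)

/-- a line meets the conic in at most two points -/
theorem rs_le_two (h2 : p ≠ 2) {de n : ZMod p} (hn : n ≠ 0)
    {s : ZMod p × ZMod p} (hde : de ≠ 0) (hs : s ≠ 0) : rs 1 de n s ≤ 2 := by
  have h22 := two_ne' h2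
  classical
  obtain ⟨s1, s2⟩ := s
  -- the linear equation satisfied by the points
  have hlin : ∀ q ∈ (con 1 de n).filter fun q => (s1, s2) - q ∈ con 1 de n,
      1 * q.1 ^ 2 - de * q.2 ^ 2 = n ∧
        2 * s1 * q.1 - 2 * de * s2 * q.2 = s1 ^ 2 - de * s2 ^ 2 := by
    intro q hq
    rw [mem_filter, mem_con, mem_con] at hq
    refine ⟨hq.1, ?_⟩
    have h3 := hq.2
    simp only [Prod.fst_sub, Prod.snd_sub] at h3
    linear_combination hq.1 - h3
  unfold rs
  by_contra hcon
  rw [not_le, two_lt_card] at hcon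
  obtain ⟨q, hq, q', hq', q'', hq'', h12, h13, h23⟩ := hcon
  obtain ⟨c1, l1⟩ := hlin q hq
  obtain ⟨c2, l2⟩ := hlin q' hq'
  obtain ⟨c3, l3⟩ := hlin q'' hq''
  obtain ⟨u, v⟩ := q
  obtain ⟨u', v'⟩ := q'
  obtain ⟨u'', v''⟩ := q''
  simp only at c1 c2 c3 l1 l2 l3
  by_cases hs2 : s2 = 0
  · have hs1 : s1 ≠ 0 := by
      intro h
      exact hs (by rw [h, hs2]; rfl)
    have e1 : 2 * s1 * (u - u') = 0 := by rw [hs2] at l1 l2; linear_combination l1 - l2
    have e2 : 2 * s1 * (u - u'') = 0 := by rw [hs2] at l1 l3; linear_combination l1 - l3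
    have f1 : u = u' := by
      rcases mul_eq_zero.1 e1 with h | h
      · exact absurd h (mul_ne_zero h22 hs1)
      · exact sub_eq_zero.1 h
    have f2 : u = u'' := by
      rcases mul_eq_zero.1 e2 with h | h
      · exact absurd h (mul_ne_zero h22 hs1)
      · exact sub_eq_zero.1 h
    have g1 : de * ((v - v') * (v + v')) = 0 := by rw [f1] at c1; linear_combination c2 - c1
    have g2 : de * ((v - v'') * (v + v'')) = 0 := by rw [f2] at c1; linear_combination c3 - c1
    have k1 : v - v' ≠ 0 := fun h => h12 (Prod.ext f1 (sub_eq_zero.1 h))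
    have k2 : v - v'' ≠ 0 := fun h => h13 (Prod.ext f2 (sub_eq_zero.1 h))
    have m1 : v + v' = 0 := by
      rcases mul_eq_zero.1 g1 with h | h
      · exact absurd h hde
      · rcases mul_eq_zero.1 h with h' | h'
        · exact absurd h' k1
        · exact h'
    have m2 : v + v'' = 0 := by
      rcases mul_eq_zero.1 g2 with h | h
      · exact absurd h hde
      · rcases mul_eq_zero.1 h with h' | h'
        · exact absurd h' k2
        · exact h'
    exact h23 (Prod.ext (f1.symm.trans f2) (by linear_combination m1 - m2))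
  · -- parametrise by the first coordinate
    have hds : de * s2 ≠ 0 := mul_ne_zero hde hs2
    have huv : ∀ x x' y y' : ZMod p, 2 * s1 * x - 2 * de * s2 * y = s1 ^ 2 - de * s2 ^ 2 →
        2 * s1 * x' - 2 * de * s2 * y' = s1 ^ 2 - de * s2 ^ 2 →
        de * s2 * (y - y') = s1 * (x - x') := by
      intro x x' y y' h h'
      apply mul_left_cancel₀ h22
      linear_combination h' - h
    have a1 := huv u u' v v' l1 l2
    have a2 := huv u u'' v v'' l1 l3
    have a3 := huv u' u'' v' v'' l2 l3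
    have n1 : u ≠ u' := by
      intro h
      apply h12
      refine Prod.ext h ?_
      rw [h, sub_self, mul_zero] at a1
      rcases mul_eq_zero.1 a1 with h' | h'
      · exact absurd h' hds
      · exact sub_eq_zero.1 h'
    have n2 : u ≠ u'' := by
      intro h
      apply h13
      refine Prod.ext h ?_
      rw [h, sub_self, mul_zero] at a2
      rcases mul_eq_zero.1 a2 with h' | h'
      · exact absurd h' hds
      · exact sub_eq_zero.1 h'
    have n3 : u' ≠ u'' := by
      intro h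
      apply h23
      refine Prod.ext h ?_
      rw [h, sub_self, mul_zero] at a3
      rcases mul_eq_zero.1 a3 with h' | h'
      · exact absurd h' hds
      · exact sub_eq_zero.1 h'
    -- chord slopes
    have b1 : de * s2 ^ 2 * de * ((v - v') * (v + v')) = de * s2 ^ 2 * ((u - u') * (u + u')) := by
      linear_combination (de * s2 ^ 2) * (c2 - c1)
    have b1' : s2 * (s1 * (v + v')) = s2 ^ 2 * (u + u') := by
      apply mul_left_cancel₀ (sub_ne_zero.2 n1)
      apply mul_left_cancel₀ hde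
      linear_combination b1 - de * s2 * (v + v') * a1
    have b2 : de * s2 ^ 2 * de * ((v - v'') * (v + v'')) =
        de * s2 ^ 2 * ((u - u'') * (u + u'')) := by
      linear_combination (de * s2 ^ 2) * (c3 - c1)
    have b2' : s2 * (s1 * (v + v'')) = s2 ^ 2 * (u + u'') := by
      apply mul_left_cancel₀ (sub_ne_zero.2 n2)
      apply mul_left_cancel₀ hde
      linear_combination b2 - de * s2 * (v + v'') * a2
    -- subtract
    have d1 : s1 * (v' - v'') = s2 * (u' - u'') := by
      apply mul_left_cancel₀ hs2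
      linear_combination b1' - b2'
    have d2 : (de * s2 ^ 2 - s1 ^ 2) * (u' - u'') = 0 := by
      linear_combination s1 * a3 - de * s2 * d1
    have d3 : de * s2 ^ 2 = s1 ^ 2 := by
      rcases mul_eq_zero.1 d2 with h | h
      · exact sub_eq_zero.1 h
      · exact absurd (sub_eq_zero.1 h) n3
    have d4 : s1 * u = de * s2 * v := by
      apply mul_left_cancel₀ h22
      linear_combination l1 - d3
    have d5 : de * s2 ^ 2 * n = 0 := by
      linear_combination (-(de * s2 ^ 2)) * c1 + u ^ 2 * d3 + (s1 * u + de * s2 * v) * d4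
    rcases mul_eq_zero.1 d5 with h | h
    · exact absurd h (mul_ne_zero hde (pow_ne_zero 2 hs2))
    · exact hn h

theorem sum_rs (al be n : ZMod p) :
    ∑ s : ZMod p × ZMod p, rs al be n s = (con al be n).card ^ 2 := by
  classical
  unfold rs
  simp_rw [card_filter]
  rw [sum_comm, sq, ← smul_eq_mul, ← sum_const]
  apply sum_congr rfl
  intro q _
  rw [← card_filter]
  apply card_bij (fun s _ => s - q)
  · intro s hs
    exact (mem_filter.1 hs).2
  · intro s _ s' _ h
    exact sub_left_inj.1 h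
  · intro r hr
    refine ⟨r + q, ?_, by simp⟩
    rw [mem_filter]
    exact ⟨mem_univ _, by simpa using hr⟩

theorem sum_rs_sq (h2 : p ≠ 2) {de n : ZMod p} (hde : de ≠ 0) (hn : n ≠ 0) :
    ∑ s : ZMod p × ZMod p, rs 1 de n s ^ 2 ≤ 3 * (p + 1) ^ 2 := by
  have hc := card_con_le h2 one_ne_zero hde hn
  have h0 : rs 1 de n 0 ≤ p + 1 := (card_filter_le _ _).trans hc
  have h1 : ∀ s ∈ univ.erase (0 : ZMod p × ZMod p), rs 1 de n s ^ 2 ≤ 2 * rs 1 de n s := by
    intro s hs
    have h3 := rs_le_two h2 hn hde (ne_of_mem_erase hs)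
    rw [sq]
    exact Nat.mul_le_mul_right _ h3
  rw [← add_sum_erase univ _ (mem_univ (0 : ZMod p × ZMod p))]
  have h4 : ∑ s ∈ univ.erase (0 : ZMod p × ZMod p), rs 1 de n s ^ 2 ≤
      2 * (con 1 de n).card ^ 2 := by
    rw [← sum_rs 1 de n, mul_sum]
    refine (sum_le_sum h1).trans ?_
    exact sum_le_sum_of_subset (erase_subset _ _)
  have h5 : (con 1 de n).card ^ 2 ≤ (p + 1) ^ 2 := Nat.pow_le_pow_left hc 2
  have h6 : rs 1 de n 0 ^ 2 ≤ (p + 1) ^ 2 := Nat.pow_le_pow_left h0 2
  omega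

theorem ES_sq (al be n k l : ZMod p) : ESc al be n k l ^ 2 =
    ∑ s : ZMod p × ZMod p, (rs al be n s : ℂ) * stdAddChar (k * s.1 + l * s.2) := by
  classical
  have h1 : ∀ q ∈ con al be n, ESc al be n k l * stdAddChar (k * q.1 + l * q.2) =
      ∑ s : ZMod p × ZMod p, if s - q ∈ con al be n then
        (stdAddChar (k * s.1 + l * s.2) : ℂ) else 0 := by
    intro q _
    rw [← sum_filter, ESc, sum_mul]
    symm
    apply sum_bij (fun s _ => s - q)
    · intro s hs
      exact (mem_filter.1 hs).2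
    · intro s _ s' _ h
      exact sub_left_inj.1 h
    · intro r hr
      refine ⟨r + q, ?_, by simp⟩
      rw [mem_filter]
      exact ⟨mem_univ _, by simpa using hr⟩
    · intro s _
      rw [← AddChar.map_add_eq_mul]
      congr 1
      simp only [Prod.fst_sub, Prod.snd_sub]
      ring
  rw [sq]
  nth_rewrite 2 [ESc]
  rw [mul_sum, sum_congr rfl h1, sum_comm]
  apply sum_congr rfl
  intro s _
  rw [← sum_filter, sum_const, nsmul_eq_mul]
  rfl

theorem parseval (c : ZMod p × ZMod p → ℂ) :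
    ∑ κ : ZMod p × ZMod p, ‖∑ s : ZMod p × ZMod p, c s *
      stdAddChar (κ.1 * s.1 + κ.2 * s.2)‖ ^ 2 = (p : ℝ) ^ 2 * ∑ s, ‖c s‖ ^ 2 := by
  classical
  have horth : ∀ s s' : ZMod p × ZMod p, ∑ κ : ZMod p × ZMod p,
      (stdAddChar (κ.1 * s.1 + κ.2 * s.2) : ℂ) *
        (starRingEnd ℂ) (stdAddChar (κ.1 * s'.1 + κ.2 * s'.2)) =
      if s = s' then (p : ℂ) ^ 2 else 0 := by
    intro s s'
    have h1 : ∀ κ : ZMod p × ZMod p, (stdAddChar (κ.1 * s.1 + κ.2 * s.2) : ℂ) *
        (starRingEnd ℂ) (stdAddChar (κ.1 * s'.1 + κ.2 * s'.2)) =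
        stdAddChar (κ.1 * (s.1 - s'.1)) * stdAddChar (κ.2 * (s.2 - s'.2)) := by
      intro κ
      rw [← AddChar.map_neg_eq_conj, ← AddChar.map_add_eq_mul, ← AddChar.map_add_eq_mul]
      congr 1
      ring
    simp_rw [h1]
    rw [Fintype.sum_prod_type]
    simp_rw [← mul_sum]
    rw [← sum_mul, AddChar.sum_mulShift _ (isPrimitive_stdAddChar p),
      AddChar.sum_mulShift _ (isPrimitive_stdAddChar p), ZMod.card]
    by_cases h : s = s'
    · rw [if_pos h, h]
      simp [sq]
    · rw [if_neg h]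
      by_cases h3 : s.1 - s'.1 = 0
      · have h4 : s.2 - s'.2 ≠ 0 := fun h5 =>
          h (Prod.ext (sub_eq_zero.1 h3) (sub_eq_zero.1 h5))
        rw [if_neg h4]
        simp
      · rw [if_neg h3]
        simp
  have h2 : ((∑ κ : ZMod p × ZMod p, ‖∑ s : ZMod p × ZMod p, c s *
      stdAddChar (κ.1 * s.1 + κ.2 * s.2)‖ ^ 2 : ℝ) : ℂ) =
      (((p : ℝ) ^ 2 * ∑ s, ‖c s‖ ^ 2 : ℝ) : ℂ) := by
    push_cast
    simp_rw [← Complex.mul_conj']
    simp_rw [map_sum, map_mul, sum_mul_sum]
    rw [sum_comm]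
    rw [mul_sum]
    apply sum_congr rfl
    intro s _
    rw [sum_comm]
    have h3 : ∀ s' : ZMod p × ZMod p, ∑ κ : ZMod p × ZMod p,
        c s * stdAddChar (κ.1 * s.1 + κ.2 * s.2) *
        ((starRingEnd ℂ) (c s') * (starRingEnd ℂ) (stdAddChar (κ.1 * s'.1 + κ.2 * s'.2))) =
        if s = s' then c s * (starRingEnd ℂ) (c s') * (p : ℂ) ^ 2 else 0 := by
      intro s'
      have h4 := horth s s'
      calc _ = c s * (starRingEnd ℂ) (c s') * ∑ κ : ZMod p × ZMod p,
          (stdAddChar (κ.1 * s.1 + κ.2 * s.2) : ℂ) *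
        (starRingEnd ℂ) (stdAddChar (κ.1 * s'.1 + κ.2 * s'.2)) := by
            rw [mul_sum]
            apply sum_congr rfl
            intro κ _
            ring
        _ = _ := by
            rw [h4]
            split_ifs <;> simp
    rw [sum_congr rfl fun s' _ => h3 s']
    rw [sum_ite_eq]
    simp only [mem_univ, if_true]
    ring
  exact_mod_cast h2

/-- invariance under the norm one torus -/
theorem ES_act {de n : ZMod p} (k l : ZMod p) {g : ZMod p × ZMod p} (hg : g ∈ con 1 de 1) :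
    ESc 1 de n (k * g.1 + l * g.2) (k * de * g.2 + l * g.1) = ESc 1 de n k l := by
  obtain ⟨s, t⟩ := g
  rw [mem_con] at hg
  simp only at hg
  unfold ESc
  apply sum_nbij' (fun q => (s * q.1 + de * t * q.2, t * q.1 + s * q.2))
    (fun q => (s * q.1 - de * t * q.2, -(t * q.1) + s * q.2))
  · rintro ⟨u, v⟩ hq
    rw [mem_con] at hq ⊢
    simp only at hq ⊢
    linear_combination hq + (u ^ 2 - de * v ^ 2) * hg
  · rintro ⟨u, v⟩ hq
    rw [mem_con] at hq ⊢
    simp only at hq ⊢
    linear_combination hq + (u ^ 2 - de * v ^ 2) * hg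
  · rintro ⟨u, v⟩ _
    simp only
    refine Prod.ext ?_ ?_
    · simp only
      linear_combination u * hg
    · simp only
      linear_combination v * hg
  · rintro ⟨u, v⟩ _
    simp only
    refine Prod.ext ?_ ?_
    · simp only
      linear_combination u * hg
    · simp only
      linear_combination v * hg
  · rintro ⟨u, v⟩ _
    simp only
    congr 1
    ring

theorem act_inj (h2 : p ≠ 2) {de k l : ZMod p} (hde : de ≠ 0) (hkl : (k, l) ≠ (0, 0)) :
    Set.InjOn (fun g : ZMod p × ZMod p => (k * g.1 + l * g.2, k * de * g.2 + l * g.1))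
      (con 1 de 1 : Finset (ZMod p × ZMod p)) := by
  have h22 := two_ne' h2
  rintro ⟨s, t⟩ hg ⟨s', t'⟩ hg' h
  rw [mem_coe, mem_con] at hg hg'
  simp only [Prod.mk.injEq] at h hg hg'
  obtain ⟨ha, hb⟩ := h
  have e1 : k * (s - s') = -(l * (t - t')) := by linear_combination ha
  have e2 : l * (s - s') = -(k * de * (t - t')) := by linear_combination hb
  by_cases ht : t - t' = 0
  · rw [ht, mul_zero, neg_zero] at e1 e2
    have hs : s - s' = 0 := by
      by_contra hs
      rcases mul_eq_zero.1 e1 with h3 | h3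
      · rcases mul_eq_zero.1 e2 with h4 | h4
        · exact hkl (by rw [h3, h4])
        · exact hs h4
      · exact hs h3
    rw [sub_eq_zero.1 ht, sub_eq_zero.1 hs]
  · exfalso
    have e3 : (s - s') * (s + s') = de * (t - t') * (t + t') := by linear_combination hg - hg'
    have f1 : l * (s + s') = -(k * de * (t + t')) := by
      apply mul_left_cancel₀ ht
      linear_combination (-k) * e3 + (s + s') * e1
    have f2 : k * (s + s') = -(l * (t + t')) := by
      apply mul_left_cancel₀ hde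
      apply mul_left_cancel₀ ht
      linear_combination (-l) * e3 + (s + s') * e2
    have g1 : k * s = -(l * t) := by
      apply mul_left_cancel₀ h22
      linear_combination f2 + e1
    have g2 : l * s = -(k * de * t) := by
      apply mul_left_cancel₀ h22
      linear_combination f1 + e2
    have k0 : k = 0 := by linear_combination (-k) * hg + s * g1 - t * g2
    have l0 : l = 0 := by
      rw [k0] at g1 g2
      linear_combination (-l) * hg + s * g2 - de * t * g1
    exact hkl (by rw [k0, l0])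

private theorem ES_four_one (h2 : p ≠ 2) {de n k l : ZMod p} (hde : de ≠ 0) (hn : n ≠ 0)
    (hkl : (k, l) ≠ (0, 0)) : ‖ESc 1 de n k l‖ ^ 4 ≤ 16 * (p : ℝ) ^ 3 := by
  classical
  have hp2 : 2 ≤ p := hp.out.two_le
  have hp3 : (3 : ℝ) ≤ p := by
    have : 3 ≤ p := by omega
    exact_mod_cast this
  -- the fourth moment
  have h1 : ∑ κ : ZMod p × ZMod p, ‖ESc 1 de n κ.1 κ.2‖ ^ 4 ≤ (p : ℝ) ^ 2 * (3 * (p + 1) ^ 2) := by
    have h3 : ∀ κ : ZMod p × ZMod p, ‖ESc 1 de n κ.1 κ.2‖ ^ 4 =
        ‖∑ s : ZMod p × ZMod p, (rs 1 de n s : ℂ) *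
          stdAddChar (κ.1 * s.1 + κ.2 * s.2)‖ ^ 2 := by
      intro κ
      rw [← ES_sq, norm_pow]
      ring
    simp_rw [h3]
    rw [parseval]
    apply mul_le_mul_of_nonneg_left _ (by positivity)
    have h4 := sum_rs_sq h2 hde hn
    have h5 : ((∑ s : ZMod p × ZMod p, rs 1 de n s ^ 2 : ℕ) : ℝ) ≤
        ((3 * (p + 1) ^ 2 : ℕ) : ℝ) := by exact_mod_cast h4
    push_cast at h5
    refine le_trans (le_of_eq ?_) h5
    apply sum_congr rfl
    intro s _
    rw [Complex.norm_natCast]
  -- the orbit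
  have h6 : ((con 1 de 1).card : ℝ) * ‖ESc 1 de n k l‖ ^ 4 ≤
      ∑ κ : ZMod p × ZMod p, ‖ESc 1 de n κ.1 κ.2‖ ^ 4 := by
    have h7 : ((con 1 de 1).card : ℝ) * ‖ESc 1 de n k l‖ ^ 4 =
        ∑ κ ∈ (con 1 de 1).image fun g : ZMod p × ZMod p =>
          (k * g.1 + l * g.2, k * de * g.2 + l * g.1), ‖ESc 1 de n κ.1 κ.2‖ ^ 4 := by
      rw [sum_image (act_inj h2 hde hkl)]
      rw [sum_congr rfl fun g hg => by rw [ES_act k l hg]]
      rw [sum_const, nsmul_eq_mul]
    rw [h7]
    apply sum_le_sum_of_subset_of_nonneg (subset_univ _)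
    intro κ _ _
    positivity
  have h8 : (p : ℝ) - 1 ≤ ((con 1 de 1).card : ℝ) := by
    have h9 : p ≤ (con 1 de 1).card + 1 := le_card_tor h2
    have h10 : (p : ℝ) ≤ ((con 1 de 1).card : ℝ) + 1 := by exact_mod_cast h9
    linarith
  have h11 : ((p : ℝ) - 1) * ‖ESc 1 de n k l‖ ^ 4 ≤ (p : ℝ) ^ 2 * (3 * (p + 1) ^ 2) :=
    (mul_le_mul_of_nonneg_right h8 (by positivity)).trans (h6.trans h1)
  have h12 : (p : ℝ) ^ 2 * (3 * (p + 1) ^ 2) ≤ ((p : ℝ) - 1) * (16 * (p : ℝ) ^ 3) := by
    have h13 : 0 ≤ 13 * (p : ℝ) ^ 2 - 22 * p - 3 := by nlinarith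
    nlinarith [mul_nonneg (sq_nonneg (p : ℝ)) h13]
  have h14 : 0 < (p : ℝ) - 1 := by linarith
  exact le_of_mul_le_mul_left (h11.trans h12) h14

/-- **Exponential sums over conics.** -/
theorem ES_four (h2 : p ≠ 2) {al be n k l : ZMod p} (hal : al ≠ 0) (hbe : be ≠ 0) (hn : n ≠ 0)
    (hkl : (k, l) ≠ (0, 0)) : ‖ESc al be n k l‖ ^ 4 ≤ 16 * (p : ℝ) ^ 3 := by
  have h : ESc al be n k l = ESc 1 (be / al) (n / al) k l := by
    unfold ESc
    rw [con_scale be n hal]
  rw [h]
  exact ES_four_one h2 (div_ne_zero hbe hal) (div_ne_zero hn hal) hkl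

theorem norm_ES_le (h2 : p ≠ 2) {al be n k l : ZMod p} (hal : al ≠ 0) (hbe : be ≠ 0) (hn : n ≠ 0)
    (hkl : (k, l) ≠ (0, 0)) : ‖ESc al be n k l‖ ≤ 2 * (p : ℝ) ^ (3 / 4 : ℝ) := by
  have h := ES_four h2 hal hbe hn hkl
  have hp0 : (0 : ℝ) ≤ p := Nat.cast_nonneg p
  have h3 : (2 * (p : ℝ) ^ (3 / 4 : ℝ)) ^ 4 = 16 * (p : ℝ) ^ 3 := by
    rw [mul_pow, ← Real.rpow_natCast ((p : ℝ) ^ (3 / 4 : ℝ)) 4, ← Real.rpow_mul hp0]
    norm_num
  rw [← h3] at h
  exact le_of_pow_le_pow_left₀ (by norm_num) (by positivity) h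

theorem ES_zero (al be n : ZMod p) : ESc al be n 0 0 = (con al be n).card := by
  unfold ESc
  simp

end Pool.Agent.MKA
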