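import Pool.Agent.MKA.PairXC
import Pool.Agent.MKA.Avg

/-!
# MKA/CoreAC: the off-diagonal pairs

`PXX_cells`: `PXX` for the full range `(K_0, K_J]` is the (disjoint) union over the pairs of cells `i, i' < J` of the
`PXC` (every value `AA·y ∈ (K_0, K_J]` lies in exactly one cell `(K_i, K_(i+1)]`; `K_(i+1) = K_i + μ`, `μ ≥ 1`; the
least `i` with `AA·y ≤ K_(i+1)`), so its cardinality is at most the double sum (`card_biUnion_le`).
`offdiag`: sum `pairX` over `i, i'` and over `x ≠ x'` in `XS q x₀ (ZC N)`.  The main term is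
`(1+400/D)(1+1/w) (μ/q)² (N/D)/(4q₃) · Kap² · ∑_x ∑_{x' ≠ x} (1/(AA AA')) Sb(…) q N`
(`∑_i ∑_i' (1/√W_i)(1/√W_i') = Kap²`, `Finset.sum_mul_sum`), which by `avg_Sb` (`Z = ZC N`, `B = N`; hypotheses:
`a ≤ L²`, `q ≤ L`, `w ≤ D ≤ L` are all `≤ Z^(1/100)` for large `N`, `log_pow_le`) is
`≤ (1+400/D)(1+1/w)(1+C/√w) MM`, and `1/w, 1/D ≤ 1/√w` (`w ≤ D`), so the product of the three factors is
`≤ 1 + C'/√w`.  The error terms: `#XS² · J² ≤ (Z²)² (2D²Y²)²` times `N^(19/20)`; `Z⁴ ≤ N^(2/1000)`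
(`ZC_pow_le 4`), `J² ≤ 4 L⁴ Y⁴ = 4 L⁴ Z ≤ N^(1/1000)`; total `≤ N^(24/25)`.
(`XS q x₀ Z ⊆ Ioc Z (Z²)` has at most `Z²` elements.)
Size: 150 lines.
-/

set_option autoImplicit false

namespace Pool.Agent.MKA

open Finset

private theorem coreac_cell (f : ℕ → ℤ) (v : ℤ) (h0 : f 0 < v) :
    ∀ J : ℕ, v ≤ f J → ∃ i < J, f i < v ∧ v ≤ f (i + 1) := by
  intro J
  induction J with
  | zero => intro h; exact absurd h (not_le.2 h0)
  | succ J ih =>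
    intro h
    by_cases h1 : v ≤ f J
    · obtain ⟨i, hi, h2⟩ := ih h1
      exact ⟨i, by omega, h2⟩
    · exact ⟨J, by omega, not_le.1 h1, h⟩

private theorem coreac_YU (a q m : ℕ) (y₀ u₀ U N₁ H x : ℤ) (N D J : ℕ) (t : ℤ × ℤ)
    (ht : t ∈ YU a q m y₀ u₀ (KK N D 0) (KK N D J) U N₁ H x) :
    ∃ i < J, t ∈ YU a q m y₀ u₀ (KK N D i) (KK N D (i + 1)) U N₁ H x := by
  unfold YU YS at ht
  simp only [mem_filter, mem_product, mem_Icc] at ht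
  obtain ⟨⟨⟨⟨hy1, hy2⟩, hy3, hy4, hy5⟩, hu⟩, h6⟩ := ht
  obtain ⟨i, hi, h1, h2⟩ := coreac_cell (fun i => (KK N D i : ℤ)) _ hy4 J hy5
  refine ⟨i, hi, ?_⟩
  unfold YU YS
  simp only [mem_filter, mem_product, mem_Icc]
  have hA : 1 ≤ AA a x := by
    by_contra hc
    have h7 : AA a x * t.1 ≤ 0 := by nlinarith
    have h8 : (0 : ℤ) ≤ (KK N D 0 : ℤ) := Int.natCast_nonneg _
    linarith
  refine ⟨⟨⟨⟨hy1, ?_⟩, hy3, h1, h2⟩, hu⟩, h6⟩
  nlinarith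

theorem PXX_cells : ∃ N₀ : ℕ, ∀ N : ℕ, N₀ ≤ N → ∀ (a q m D : ℕ) (y₀ u₀ U N₁ H x x' : ℤ),
    13 ≤ D → (D : ℝ) ≤ Real.log N →
    (PXX a q m y₀ u₀ (KK N D 0) (KK N D (JJ N D)) U N₁ H x x').card ≤
      ∑ i ∈ range (JJ N D), ∑ i' ∈ range (JJ N D),
        (PXC a q m y₀ u₀ (KK N D i) (KK N D (i + 1)) (KK N D i') (KK N D (i' + 1)) U N₁ H
          x x').card := by
  classical
  refine ⟨0, fun N _ a q m D y₀ u₀ U N₁ H x x' _ _ => ?_⟩
  have hsub : PXX a q m y₀ u₀ (KK N D 0) (KK N D (JJ N D)) U N₁ H x x' ⊆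
      (range (JJ N D)).biUnion (fun i => (range (JJ N D)).biUnion (fun i' =>
        PXC a q m y₀ u₀ (KK N D i) (KK N D (i + 1)) (KK N D i') (KK N D (i' + 1)) U N₁ H
          x x')) := by
    intro t ht
    unfold PXX at ht
    rw [mem_filter, mem_product] at ht
    obtain ⟨⟨h1, h2⟩, h3⟩ := ht
    obtain ⟨i, hi, h4⟩ := coreac_YU a q m y₀ u₀ U N₁ H x N D (JJ N D) t.1 h1
    obtain ⟨i', hi', h5⟩ := coreac_YU a q m y₀ u₀ U N₁ H x' N D (JJ N D) t.2 h2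
    rw [mem_biUnion]
    refine ⟨i, mem_range.2 hi, ?_⟩
    rw [mem_biUnion]
    refine ⟨i', mem_range.2 hi', ?_⟩
    unfold PXC
    rw [mem_filter, mem_product]
    exact ⟨⟨h4, h5⟩, h3⟩
  refine (card_le_card hsub).trans (card_biUnion_le.trans ?_)
  exact sum_le_sum fun i _ => card_biUnion_le

private theorem coreac_factor (C s : ℝ) (hC : 0 < C) (hs : 0 ≤ s) (hs1 : s ≤ 1) (d w : ℝ)
    (hw0 : 0 ≤ w) (hd : d ≤ 400 * s) (hw : w ≤ s) :
    (1 + d) * (1 + w) * (1 + C * s) ≤ 1 + (801 + 802 * C) * s := by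
  have h1 : (1 + d) * (1 + w) ≤ 1 + 801 * s := by
    have h2 : (1 + d) * (1 + w) ≤ (1 + 400 * s) * (1 + s) :=
      mul_le_mul (by linarith) (by linarith) (by linarith) (by linarith)
    nlinarith
  have h2 : (1 + d) * (1 + w) * (1 + C * s) ≤ (1 + 801 * s) * (1 + C * s) :=
    mul_le_mul_of_nonneg_right h1 (by positivity)
  have h3 : 0 ≤ C * s * (1 - s) := mul_nonneg (by positivity) (by linarith)
  nlinarith

private theorem coreac_XS_card (q : ℕ) (x₀ : ℤ) (Z : ℕ) : ((XS q x₀ Z).card : ℝ) ≤ (Z : ℝ) ^ 2 := by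
  have h1 : (XS q x₀ Z).card ≤ Z ^ 2 := by
    unfold XS
    refine (card_filter_le _ _).trans ?_
    rw [Int.card_Ioc]
    have h2 : ((Z : ℤ) ^ 2 - (Z : ℤ)).toNat ≤ ((Z ^ 2 : ℕ) : ℤ).toNat := by
      apply Int.toNat_le_toNat
      push_cast
      have : (0 : ℤ) ≤ (Z : ℤ) := Int.natCast_nonneg _
      linarith
    rw [Int.toNat_natCast] at h2
    exact h2
  exact_mod_cast h1

theorem offdiag : ∃ C : ℝ, 0 < C ∧ ∃ N₀ : ℕ, ∀ N : ℕ, N₀ ≤ N →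
    ∀ (a q g q₃ w D : ℕ) (x₀ A₀ y₀ u₀ c₀ N₁ : ℤ),
    1 ≤ a → (a : ℝ) ≤ (Real.log N) ^ 2 → 1 ≤ g → 1 ≤ q₃ → q = g ^ 2 * q₃ → 2 ∣ q₃ →
    (∀ p : ℕ, p.Prime → p ∣ q → p ∣ q₃) → (q : ℝ) ≤ Real.log N →
    (a : ℤ) * x₀ = 2 * A₀ → 2 * u₀ = (g : ℤ) * c₀ →
    (∀ p : ℕ, p.Prime → p ∣ q → ¬ (p : ℤ) ∣ c₀) →
    13 ≤ w → w ≤ D → (D : ℝ) ≤ Real.log N → (∀ p : ℕ, p.Prime → p ≤ w → p ∣ q) →
    -(N : ℤ) ≤ N₁ → N₁ ≤ N →
    ∑ x ∈ XS q x₀ (ZC N), ∑ x' ∈ (XS q x₀ (ZC N)).erase x,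
      ((PXX a q (g * q₃) y₀ u₀ (KK N D 0) (KK N D (JJ N D)) N N₁ ((N / D : ℕ) : ℤ)
        x x').card : ℝ) ≤
      (1 + C / Real.sqrt w) * MM N D a q q₃ x₀ N₁ + (N : ℝ) ^ (24 / 25 : ℝ) := by
  classical
  obtain ⟨C, hC, Z₀, havg⟩ := avg_Sb
  obtain ⟨N1, hcells⟩ := PXX_cells
  obtain ⟨N2, hpair⟩ := pairX
  obtain ⟨N3, hZl⟩ := ZC_large Z₀
  obtain ⟨N4, hmu⟩ := mu_facts
  obtain ⟨N5, hlog2⟩ := log_pow_le 2 (1 / 100) (by norm_num)
  obtain ⟨N6, hlog1⟩ := log_pow_le 1 (1 / 100) (by norm_num)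
  obtain ⟨N7, hlog5⟩ := log_pow_le' 5 (1 / 1000) (by norm_num)
  obtain ⟨N8, hZ5⟩ := ZC_pow_le 5 (2 / 1000) (by norm_num)
  obtain ⟨N9, hlogL⟩ := log_large 4
  refine ⟨801 + 802 * C, by positivity,
    N1 + N2 + N3 + N4 + N5 + N6 + N7 + N8 + N9 + 1, ?_⟩
  intro N hN a q g q₃ w D x₀ A₀ y₀ u₀ c₀ N₁ ha haL hg hq₃ hq h2 hpq hqL hA hu hc hw hwD hDL hp
    hN1 hN1'
  have hD : 13 ≤ D := hw.trans hwD
  have hcells := hcells N (by omega)
  have hpair := hpair N (by omega)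
  have hZl := hZl N (by omega)
  obtain ⟨hmu1, -, -, -, -, -, -, hJ⟩ := hmu N (by omega) D hD hDL
  have hlog2 := hlog2 N (by omega)
  have hlog1 := hlog1 N (by omega)
  have hlog5 := hlog5 N (by omega)
  have hZ5 := hZ5 N (by omega)
  have hlogL := hlogL N (by omega)
  rw [pow_one] at hlog1
  have hN0 : (1 : ℝ) ≤ N := by
    have : 1 ≤ N := by omega
    exact_mod_cast this
  have hq1 : 1 ≤ q := by
    rw [hq]
    exact Nat.succ_le_of_lt (by positivity)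
  have hp2 : ∀ p : ℕ, p.Prime → p ≤ w → p ∣ 2 * q := fun p h3 h4 => (hp p h3 h4).mul_left 2
  have hwL : (w : ℝ) ≤ Real.log N := le_trans (by exact_mod_cast hwD) hDL
  have hav := havg (ZC N) (by exact_mod_cast hZl) a q w N x₀ A₀ ha (haL.trans hlog2) hq1
    (hqL.trans hlog1) hw (hwL.trans hlog1) hp2 hA
  set X := XS q x₀ (ZC N) with hX
  set J := JJ N D with hJdef
  set F : ℝ := (1 + 400 / (D : ℝ)) * (1 + 1 / (w : ℝ)) with hF
  set G : ℝ := ((muc N D : ℝ) / q) ^ 2 * ((N : ℝ) / D) / (4 * q₃) with hG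
  set E : ℝ := (N : ℝ) ^ (19 / 20 : ℝ) with hE
  set κ : ℕ → ℝ := fun i => 1 / Real.sqrt ((N₁ : ℝ) + (KK N D i : ℝ) ^ 2) with hκ
  set S : ℤ → ℤ → ℝ := fun x x' => 1 / ((AA a x : ℝ) * AA a x') *
        Sb (AA a x ^ 2 - 1) (AA a x' ^ 2 - 1) (x' ^ 2 - x ^ 2) q N with hS
  have hDpos : (0 : ℝ) < D := by
    have : 0 < D := by omega
    exact_mod_cast this
  have hwpos : (0 : ℝ) < w := by
    have : 0 < w := by omega
    exact_mod_cast this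
  have hF0 : 0 ≤ F := by positivity
  have hG0 : 0 ≤ G := by positivity
  have hE0 : 0 ≤ E := by positivity
  have hKap : Kap N D N₁ = ∑ i ∈ range J, κ i := rfl
  -- bound for one pair
  have hone : ∀ x ∈ X, ∀ x' ∈ X.erase x,
      ((PXX a q (g * q₃) y₀ u₀ (KK N D 0) (KK N D J) N N₁ ((N / D : ℕ) : ℤ)
        x x').card : ℝ) ≤ F * G * (Kap N D N₁) ^ 2 * S x x' + (J : ℝ) ^ 2 * E := by
    intro x hx x' hx'
    have h3 := hcells a q (g * q₃) D y₀ u₀ N N₁ ((N / D : ℕ) : ℤ) x x' hD hDL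
    have h4 : ((PXX a q (g * q₃) y₀ u₀ (KK N D 0) (KK N D J) N N₁ ((N / D : ℕ) : ℤ)
        x x').card : ℝ) ≤ ∑ i ∈ range J, ∑ i' ∈ range J,
        ((PXC a q (g * q₃) y₀ u₀ (KK N D i) (KK N D (i + 1)) (KK N D i') (KK N D (i' + 1))
          N N₁ ((N / D : ℕ) : ℤ) x x').card : ℝ) := by
      exact_mod_cast h3
    refine h4.trans ?_
    have h5 : ∀ i ∈ range J, ∀ i' ∈ range J,
        ((PXC a q (g * q₃) y₀ u₀ (KK N D i) (KK N D (i + 1)) (KK N D i') (KK N D (i' + 1))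
          N N₁ ((N / D : ℕ) : ℤ) x x').card : ℝ) ≤
          F * (G * (κ i * κ i')) * S x x' + E := by
      intro i hi i' hi'
      exact hpair a q g q₃ w D i i' x₀ A₀ y₀ u₀ c₀ N₁ x x' ha haL hg hq₃ hq h2 hpq hqL hA hu hc
        (by omega) hp2 hD hDL hN1 hN1' (mem_range.1 hi) (mem_range.1 hi') hx hx'
    refine (sum_le_sum fun i hi => sum_le_sum fun i' hi' => h5 i hi i' hi').trans ?_
    apply le_of_eq
    simp only [sum_add_distrib, sum_const, card_range, nsmul_eq_mul]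
    rw [hKap, sq (∑ i ∈ range J, κ i), sum_mul_sum, mul_sum, sum_mul]
    congr 1
    · refine sum_congr rfl fun i _ => ?_
      rw [mul_sum, sum_mul]
      refine sum_congr rfl fun i' _ => ?_
      ring
    · ring
  have hsum : ∑ x ∈ X, ∑ x' ∈ X.erase x,
      ((PXX a q (g * q₃) y₀ u₀ (KK N D 0) (KK N D J) N N₁ ((N / D : ℕ) : ℤ)
        x x').card : ℝ) ≤
      F * G * (Kap N D N₁) ^ 2 * (∑ x ∈ X, ∑ x' ∈ X.erase x, S x x') +
        (X.card : ℝ) ^ 2 * ((J : ℝ) ^ 2 * E) := by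
    refine (sum_le_sum fun x hx => sum_le_sum fun x' hx' => hone x hx x' hx').trans ?_
    have h0 : ∑ x ∈ X, ∑ x' ∈ X.erase x,
        (F * G * (Kap N D N₁) ^ 2 * S x x' + (J : ℝ) ^ 2 * E) =
        F * G * (Kap N D N₁) ^ 2 * (∑ x ∈ X, ∑ x' ∈ X.erase x, S x x') +
          ∑ x ∈ X, ((X.erase x).card : ℝ) * ((J : ℝ) ^ 2 * E) := by
      rw [mul_sum, ← sum_add_distrib]
      refine sum_congr rfl fun x _ => ?_
      rw [sum_add_distrib, mul_sum, sum_const, nsmul_eq_mul]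
    rw [h0]
    refine add_le_add le_rfl ?_
    have h3 : ∑ x ∈ X, ((X.erase x).card : ℝ) * ((J : ℝ) ^ 2 * E) ≤
        ∑ x ∈ X, (X.card : ℝ) * ((J : ℝ) ^ 2 * E) := by
      refine sum_le_sum fun x _ => ?_
      refine mul_le_mul_of_nonneg_right ?_ (by positivity)
      exact_mod_cast card_le_card (erase_subset x X)
    refine h3.trans (le_of_eq ?_)
    rw [sum_const, nsmul_eq_mul]
    ring
  refine hsum.trans (add_le_add ?_ ?_)
  · -- main term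
    have h3 : F * G * (Kap N D N₁) ^ 2 * (∑ x ∈ X, ∑ x' ∈ X.erase x, S x x') ≤
        F * G * (Kap N D N₁) ^ 2 * ((1 + C / Real.sqrt w) *
          (∑ x ∈ X, 1 / (AA a x : ℝ)) ^ 2) :=
      mul_le_mul_of_nonneg_left hav (by positivity)
    refine h3.trans ?_
    have h4 : F * G * (Kap N D N₁) ^ 2 * ((1 + C / Real.sqrt w) *
          (∑ x ∈ X, 1 / (AA a x : ℝ)) ^ 2) =
        (F * (1 + C / Real.sqrt w)) * MM N D a q q₃ x₀ N₁ := by
      unfold MM Lam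
      rw [← hG]
      ring
    rw [h4]
    have hMM : 0 ≤ MM N D a q q₃ x₀ N₁ := by
      unfold MM
      positivity
    refine mul_le_mul_of_nonneg_right ?_ hMM
    have hw1 : (1 : ℝ) ≤ w := by
      have : 1 ≤ w := by omega
      exact_mod_cast this
    have hsq1 : 1 ≤ Real.sqrt w := by
      rw [show (1 : ℝ) = Real.sqrt 1 by simp]
      exact Real.sqrt_le_sqrt hw1
    have hsqw : Real.sqrt w ≤ w := by
      have h5 := Real.mul_self_sqrt hwpos.le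
      nlinarith
    have h5 : 1 / (w : ℝ) ≤ 1 / Real.sqrt w :=
      one_div_le_one_div_of_le (by linarith) hsqw
    have h6 : 1 / (D : ℝ) ≤ 1 / (w : ℝ) :=
      one_div_le_one_div_of_le hwpos (by exact_mod_cast hwD)
    have h7 := coreac_factor C (1 / Real.sqrt w) hC (by positivity)
      (by rw [div_le_one (by linarith)]; exact hsq1) (400 / (D : ℝ)) (1 / (w : ℝ))
      (by positivity)
      (by
        have h8 : 400 / (D : ℝ) = 400 * (1 / (D : ℝ)) := by ring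
        rw [h8]
        linarith) h5
    have h8 : C / Real.sqrt w = C * (1 / Real.sqrt w) := by ring
    have h9 : (801 + 802 * C) / Real.sqrt w = (801 + 802 * C) * (1 / Real.sqrt w) := by ring
    rw [h8, h9, hF]
    exact h7
  · -- error term
    have hZ0 : (0 : ℝ) ≤ ZC N := Nat.cast_nonneg _
    have hXc := coreac_XS_card q x₀ (ZC N)
    rw [← hX] at hXc
    have h3 : (X.card : ℝ) ^ 2 ≤ ((ZC N : ℝ) ^ 2) ^ 2 := pow_le_pow_left₀ (by positivity) hXc 2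
    have hY4 : (YY N : ℝ) ^ 4 = ZC N := by
      unfold ZC
      push_cast
      rfl
    have h4 : (J : ℝ) ^ 2 ≤ 4 * (Real.log N) ^ 4 * ZC N := by
      have h5 : (J : ℝ) ^ 2 ≤ (2 * (D : ℝ) ^ 2 * (YY N : ℝ) ^ 2) ^ 2 :=
        pow_le_pow_left₀ (by positivity) hJ 2
      have h6 : (2 * (D : ℝ) ^ 2 * (YY N : ℝ) ^ 2) ^ 2 = 4 * (D : ℝ) ^ 4 * ZC N := by
        rw [← hY4]
        ring
      rw [h6] at h5
      refine h5.trans ?_
      have h7 : (D : ℝ) ^ 4 ≤ (Real.log N) ^ 4 := pow_le_pow_left₀ (by positivity) hDL 4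
      exact mul_le_mul_of_nonneg_right (by linarith) hZ0
    have h5 : 4 * (Real.log N) ^ 4 ≤ (Real.log N) ^ 5 := by
      have h6 : 0 ≤ (Real.log N) ^ 4 := by positivity
      have h7 : (Real.log N) ^ 5 = Real.log N * (Real.log N) ^ 4 := by ring
      rw [h7]
      exact mul_le_mul_of_nonneg_right hlogL h6
    have h6 : (X.card : ℝ) ^ 2 * (J : ℝ) ^ 2 ≤
        (N : ℝ) ^ (2 / 1000 : ℝ) * (N : ℝ) ^ (1 / 1000 : ℝ) := by
      have h7 : (X.card : ℝ) ^ 2 * (J : ℝ) ^ 2 ≤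
          ((ZC N : ℝ) ^ 2) ^ 2 * (4 * (Real.log N) ^ 4 * ZC N) :=
        mul_le_mul h3 h4 (by positivity) (by positivity)
      have h8 : ((ZC N : ℝ) ^ 2) ^ 2 * (4 * (Real.log N) ^ 4 * ZC N) =
          (ZC N : ℝ) ^ 5 * (4 * (Real.log N) ^ 4) := by ring
      rw [h8] at h7
      refine h7.trans ?_
      exact mul_le_mul hZ5 (h5.trans hlog5) (by positivity) (by positivity)
    calc (X.card : ℝ) ^ 2 * ((J : ℝ) ^ 2 * E) = (X.card : ℝ) ^ 2 * (J : ℝ) ^ 2 * E := by ring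
      _ ≤ (N : ℝ) ^ (2 / 1000 : ℝ) * (N : ℝ) ^ (1 / 1000 : ℝ) * E :=
          mul_le_mul_of_nonneg_right h6 hE0
      _ = (N : ℝ) ^ (2 / 1000 + 1 / 1000 + 19 / 20 : ℝ) := by
          rw [hE, ← Real.rpow_add (by linarith), ← Real.rpow_add (by linarith)]
      _ ≤ (N : ℝ) ^ (24 / 25 : ℝ) :=
          Real.rpow_le_rpow_of_exponent_le hN0 (by norm_num)

end Pool.Agent.MKA
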