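import Pool.Agent.MKA.URangeC
import Pool.Agent.MKA.Avg

/-!
# MKA/CoreBC: orders of magnitude

`L = log N`, `μ = muc N D`, `K_i = KK N D i`, `J = JJ N D`, `Λ = Lam N a q x₀`.
* `Kap_lower`: by `W_lower`, `1/√(N₁+K_i²) ≥ (√3/2)/K_i`; `μ/K_i ≥ log(K_(i+1)/K_i)` (`log(1+t) ≤ t`), so
  `μ Kap ≥ (√3/2) log(K_J/K_0) ≥ (√3/2) log(Y/4) ≥ (√3/2)(L/16000 - log 4) ≥ L/25000`
  (`mu_facts`: `K_J ≥ √N Y/2`, `K_0 ≤ 2√N`; `ZC_lower`; `sum_range_sub` telescoping).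
* `lam_lower` (`Z = ZC N`, `q ≤ L ≤ Z^(1/100)`), `ZC_lower`: `Λ ≥ log Z/(2aq) ≥ L/(8000 a q)`.
* `SS = (μ/q) Kap Λ (N/D)/(2 g q₃)`, `MM = (μ/q)² (N/D)/(4q₃) Kap² Λ²`:
  `SS² = MM · (N/D)/q` because `(g q₃)² = q q₃` (`q = g² q₃`).
* `SS/MM = 2q/(g μ Kap Λ) ≤ 2 q · 25000 · 8000 a q/L² = 4·10⁸ a q²/L² ≤ 1/D ≤ 1/√w` if `C₁ = 4·10⁸`
  (hypothesis `C₁ a q² D ≤ L²`, `w ≤ D`, `1 ≤ w`).
* `MM ≥ (1/q²)(N/D)/(4q) (L/25000)² (L/(8000aq))² ≥ N L⁴/(C D q⁵ a²) ≥ N/(C L⁶)` (`a ≤ L²`, `q, D ≤ L`), so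
  `MM/√w ≥ N/(C L⁷) ≥ N L^(-8)`, and `N^(24/25) ≤ N L^(-8)`, `N Z^(-1/4) ≤ N L^(-8)` for large `N`
  (`log_pow_le' 8`, `log_pow_le 8 (1/4)`).
Size: 150-200 lines.  (The old module `MKA/CoreB`, proved by helper78, is a model.)
-/

set_option autoImplicit false

namespace Pool.Agent.MKA

open Finset

theorem Kap_lower : ∃ N₀ : ℕ, ∀ N : ℕ, N₀ ≤ N → ∀ (D : ℕ) (N₁ : ℤ), 13 ≤ D →
    (D : ℝ) ≤ Real.log N → -(N : ℤ) ≤ N₁ → N₁ ≤ N →
    Real.log N / 25000 ≤ (muc N D : ℝ) * Kap N D N₁ := by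
  obtain ⟨Na, hNa⟩ := W_lower
  obtain ⟨Nb, hNb⟩ := mu_facts
  obtain ⟨Nc, hNc⟩ := ZC_lower
  obtain ⟨Nd, hNd⟩ := log_large 200000
  refine ⟨Na + Nb + Nc + Nd + 4, fun N hN D N₁ hD hDL h1 h2 => ?_⟩
  have hW := hNa N (by omega) D
  obtain ⟨hμ1, -, -, -, hKJ, hK0, hK0', -⟩ := hNb N (by omega) D hD hDL
  have hY := (hNc N (by omega)).2
  have hL := hNd N (by omega)
  have hNpos : (0 : ℝ) < N := by
    have : 0 < N := by omega
    exact_mod_cast this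
  have hN4 : (4 : ℝ) ≤ N := by
    have : 4 ≤ N := by omega
    exact_mod_cast this
  have hsN : 2 ≤ Real.sqrt N := by
    rw [Real.le_sqrt (by norm_num) hNpos.le]
    linarith
  have hμ0 : (0 : ℝ) < muc N D := by exact_mod_cast hμ1
  have hKpos : ∀ i : ℕ, (0 : ℝ) < KK N D i := by
    intro i
    have h3 : (KK N D 0 : ℝ) ≤ KK N D i := by
      have : KK N D 0 ≤ KK N D i := by
        unfold KK
        have : 0 ≤ i * muc N D := Nat.zero_le _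
        omega
      exact_mod_cast this
    linarith
  have hstep : ∀ i ∈ range (JJ N D), (5 / 6 : ℝ) * (Real.log (KK N D (i + 1)) -
      Real.log (KK N D i)) ≤ muc N D * (1 / Real.sqrt ((N₁ : ℝ) + (KK N D i : ℝ) ^ 2)) := by
    intro i hi
    rw [mem_range] at hi
    obtain ⟨w1, w2, -⟩ := hW i N₁ hD hDL hi.le h1 h2
    have hK := hKpos i
    have hK' := hKpos (i + 1)
    have hW0 : 0 < (N₁ : ℝ) + (KK N D i : ℝ) ^ 2 := by
      have : 0 < (29 / 10 : ℝ) * N := by positivity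
      linarith
    have hsq : Real.sqrt ((N₁ : ℝ) + (KK N D i : ℝ) ^ 2) ≤ 6 / 5 * KK N D i := by
      rw [Real.sqrt_le_left (by positivity)]
      have : (0 : ℝ) ≤ (KK N D i : ℝ) ^ 2 := by positivity
      nlinarith
    have hlog : Real.log (KK N D (i + 1)) - Real.log (KK N D i) ≤ muc N D / KK N D i := by
      rw [← Real.log_div hK'.ne' hK.ne']
      have h4 := Real.log_le_sub_one_of_pos (div_pos hK' hK)
      have h5 : (KK N D (i + 1) : ℝ) = KK N D i + muc N D := by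
        unfold KK
        push_cast
        ring
      have h6 : (KK N D (i + 1) : ℝ) / KK N D i - 1 = muc N D / KK N D i := by
        rw [h5]
        field_simp
        ring
      rw [h6] at h4
      exact h4
    have hsq0 : 0 < Real.sqrt ((N₁ : ℝ) + (KK N D i : ℝ) ^ 2) := Real.sqrt_pos.2 hW0
    calc (5 / 6 : ℝ) * (Real.log (KK N D (i + 1)) - Real.log (KK N D i))
        ≤ 5 / 6 * (muc N D / KK N D i) := by gcongr
      _ = muc N D * (1 / (6 / 5 * KK N D i)) := by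
          field_simp
          try norm_num
      _ ≤ muc N D * (1 / Real.sqrt ((N₁ : ℝ) + (KK N D i : ℝ) ^ 2)) := by gcongr
  have hsum := Finset.sum_le_sum hstep
  rw [← Finset.mul_sum, ← Finset.mul_sum, Finset.sum_range_sub
    (fun i => Real.log (KK N D i))] at hsum
  have hYpos : (0 : ℝ) < YY N := by
    by_contra hcon
    have h7 : (YY N : ℝ) = 0 := le_antisymm (not_lt.1 hcon) (Nat.cast_nonneg _)
    rw [h7, Real.log_zero] at hY
    linarith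
  have hlogJ : Real.log (YY N) - Real.log 4 ≤
      Real.log (KK N D (JJ N D)) - Real.log (KK N D 0) := by
    have h8 : Real.log (Real.sqrt N * YY N / 2) ≤ Real.log (KK N D (JJ N D)) :=
      Real.log_le_log (by positivity) hKJ
    have h9 : Real.log (KK N D 0) ≤ Real.log (2 * Real.sqrt N) :=
      Real.log_le_log (hKpos 0) hK0'
    have hs0 : (0 : ℝ) < Real.sqrt N := by linarith
    have h10 : Real.log (Real.sqrt N * YY N / 2) =
        Real.log (Real.sqrt N) + Real.log (YY N) - Real.log 2 := by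
      rw [Real.log_div (by positivity) (by norm_num), Real.log_mul hs0.ne' hYpos.ne']
    have h11 : Real.log (2 * Real.sqrt N) = Real.log 2 + Real.log (Real.sqrt N) :=
      Real.log_mul (by norm_num) hs0.ne'
    have h12 : Real.log 4 = 2 * Real.log 2 := by
      rw [show (4 : ℝ) = 2 ^ 2 by norm_num, Real.log_pow]
      norm_num
    rw [h10] at h8
    rw [h11] at h9
    linarith
  have hlog4 : Real.log 4 ≤ 1.4 := by
    have h12 : Real.log 4 = 2 * Real.log 2 := by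
      rw [show (4 : ℝ) = 2 ^ 2 by norm_num, Real.log_pow]
      norm_num
    have := Real.log_two_lt_d9
    rw [h12]
    linarith
  unfold Kap
  linarith

theorem Lam_lower : ∃ N₀ : ℕ, ∀ N : ℕ, N₀ ≤ N → ∀ (a q : ℕ) (x₀ A₀ : ℤ), 1 ≤ a → 1 ≤ q →
    (q : ℝ) ≤ Real.log N → (a : ℤ) * x₀ = 2 * A₀ →
    Real.log N / (8000 * a * q) ≤ Lam N a q x₀ := by
  obtain ⟨Z₀, hZ₀⟩ := lam_lower
  obtain ⟨Na, hNa⟩ := ZC_large Z₀
  obtain ⟨Nb, hNb⟩ := log_pow_le 1 (1 / 100) (by norm_num)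
  obtain ⟨Nc, hNc⟩ := ZC_lower
  refine ⟨Na + Nb + Nc, fun N hN a q x₀ A₀ ha hq hqL hax => ?_⟩
  have h1 := hNa N (by omega)
  have h2 := hNb N (by omega)
  have h3 := (hNc N (by omega)).1
  rw [pow_one] at h2
  have h4 : Z₀ ≤ ZC N := by exact_mod_cast h1
  have h5 := hZ₀ (ZC N) h4 a q x₀ A₀ ha hq (hqL.trans h2) hax
  have ha0 : (0 : ℝ) < a := by exact_mod_cast ha
  have hq0 : (0 : ℝ) < q := by exact_mod_cast hq
  refine le_trans ?_ h5
  calc Real.log N / (8000 * a * q) = Real.log N / 4000 / (2 * a * q) := by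
        rw [div_div]
        congr 1
        ring
    _ ≤ Real.log (ZC N) / (2 * a * q) := by gcongr

theorem orders : ∃ C₁ : ℝ, 1 ≤ C₁ ∧ ∃ N₀ : ℕ, ∀ N : ℕ, N₀ ≤ N →
    ∀ (a q g q₃ w D : ℕ) (x₀ A₀ N₁ : ℤ),
    1 ≤ a → 1 ≤ g → 1 ≤ q₃ → q = g ^ 2 * q₃ → (q : ℝ) ≤ Real.log N →
    (a : ℤ) * x₀ = 2 * A₀ → 1 ≤ w → w ≤ D → 13 ≤ D → (D : ℝ) ≤ Real.log N →
    C₁ * a * (q : ℝ) ^ 2 * D ≤ (Real.log N) ^ 2 → -(N : ℤ) ≤ N₁ → N₁ ≤ N →
    0 < MM N D a q q₃ x₀ N₁ ∧ 0 < SS N D a q g q₃ x₀ N₁ ∧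
    (N : ℝ) ^ (24 / 25 : ℝ) ≤ MM N D a q q₃ x₀ N₁ / Real.sqrt w ∧
    (N : ℝ) * (ZC N : ℝ) ^ (-(1 / 4) : ℝ) ≤ MM N D a q q₃ x₀ N₁ / Real.sqrt w ∧
    SS N D a q g q₃ x₀ N₁ ≤ MM N D a q q₃ x₀ N₁ / Real.sqrt w ∧
    (SS N D a q g q₃ x₀ N₁) ^ 2 = MM N D a q q₃ x₀ N₁ * ((N : ℝ) / (D * q)) := by
  obtain ⟨Na, hNa⟩ := Kap_lower
  obtain ⟨Nb, hNb⟩ := Lam_lower
  obtain ⟨Nc, hNc⟩ := log_pow_le' 1 (1 / 25) (by norm_num)
  obtain ⟨Nd, hNd⟩ := log_pow_le 1 (1 / 4) (by norm_num)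
  obtain ⟨Ne, hNe⟩ := ZC_large 1
  refine ⟨4 * 10 ^ 8, by norm_num, Na + Nb + Nc + Nd + Ne + 2,
    fun N hN a q g q₃ w D x₀ A₀ N₁ ha hg hq₃ hqe hqL hax hw hwD hD hDL hC hN₁ hN₁' => ?_⟩
  have hq1n : 1 ≤ q := by
    rw [hqe]
    exact Nat.one_le_iff_ne_zero.2 (by positivity)
  have hK := hNa N (by omega) D N₁ hD hDL hN₁ hN₁'
  have hΛ := hNb N (by omega) a q x₀ A₀ ha hq1n hqL hax
  have h3 := hNc N (by omega)
  have h4 := hNd N (by omega)
  have h5 := hNe N (by omega)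
  rw [pow_one] at h3 h4
  have hNpos : (0 : ℝ) < N := by
    have : 0 < N := by omega
    exact_mod_cast this
  set L := Real.log N with hL
  have hq1 : (1 : ℝ) ≤ q := by exact_mod_cast hq1n
  have hq0 : (0 : ℝ) < q := by linarith
  have hq31 : (1 : ℝ) ≤ q₃ := by exact_mod_cast hq₃
  have hq30 : (0 : ℝ) < q₃ := by linarith
  have hg1 : (1 : ℝ) ≤ g := by exact_mod_cast hg
  have hg0 : (0 : ℝ) < g := by linarith
  have ha1 : (1 : ℝ) ≤ a := by exact_mod_cast ha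
  have ha0 : (0 : ℝ) < a := by linarith
  have hD13 : (13 : ℝ) ≤ D := by exact_mod_cast hD
  have hD0 : (0 : ℝ) < D := by linarith
  have hL0 : 0 < L := by linarith
  have hq3q : (q₃ : ℝ) ≤ q := by
    have : q₃ ≤ q := by
      rw [hqe]
      exact Nat.le_mul_of_pos_left _ (by positivity)
    exact_mod_cast this
  have hqeR : (q : ℝ) = g ^ 2 * q₃ := by
    rw [hqe]
    push_cast
    ring
  have hw1 : (1 : ℝ) ≤ w := by exact_mod_cast hw
  have hw0 : (0 : ℝ) < w := by linarith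
  have hwDr : (w : ℝ) ≤ D := by exact_mod_cast hwD
  have hsw0 : 0 < Real.sqrt w := Real.sqrt_pos.2 hw0
  have hswD : Real.sqrt w ≤ D := by
    have : Real.sqrt w ≤ w := by
      rw [Real.sqrt_le_left (by linarith)]
      nlinarith
    linarith
  -- the product
  set κ := (muc N D : ℝ) * Kap N D N₁ with hκ
  set Λ := Lam N a q x₀ with hΛd
  set P := κ * Λ / q with hP
  have hPD : 2 * (D : ℝ) ≤ P := by
    have h6 : L / 25000 * (L / (8000 * a * q)) ≤ κ * Λ := by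
      have : 0 ≤ L / 25000 := by positivity
      have : 0 ≤ L / (8000 * a * q) := by positivity
      exact mul_le_mul hK hΛ this (le_trans (by positivity) hK)
    have h7 : 2 * (D : ℝ) ≤ L / 25000 * (L / (8000 * a * q)) / q := by
      have e : L / 25000 * (L / (8000 * a * q)) / q = L ^ 2 / (2 * 10 ^ 8 * a * q ^ 2) := by
        field_simp
        try norm_num
      rw [e, le_div_iff₀ (by positivity)]
      calc 2 * (D : ℝ) * (2 * 10 ^ 8 * a * q ^ 2) = 4 * 10 ^ 8 * a * (q : ℝ) ^ 2 * D := by ring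
        _ ≤ L ^ 2 := hC
    refine h7.trans ?_
    rw [hP]
    gcongr
  have hP0 : 0 < P := by linarith
  have hMMe : MM N D a q q₃ x₀ N₁ = P ^ 2 * ((N : ℝ) / D) / (4 * q₃) := by
    unfold MM
    rw [hP, hκ, hΛd]
    field_simp
  have hSSe : SS N D a q g q₃ x₀ N₁ = P * ((N : ℝ) / D) / (2 * (g * q₃)) := by
    unfold SS
    rw [hP, hκ, hΛd]
    field_simp
  have hND : 0 < (N : ℝ) / D := by positivity
  have hMM0 : 0 < MM N D a q q₃ x₀ N₁ := by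
    rw [hMMe]
    positivity
  have hSS0 : 0 < SS N D a q g q₃ x₀ N₁ := by
    rw [hSSe]
    positivity
  have hsq : (SS N D a q g q₃ x₀ N₁) ^ 2 = MM N D a q q₃ x₀ N₁ * ((N : ℝ) / (D * q)) := by
    rw [hMMe, hSSe, hqeR]
    field_simp
    try ring
  have hNL : (N : ℝ) / L ≤ MM N D a q q₃ x₀ N₁ / Real.sqrt w := by
    have h8 : (N : ℝ) / L ≤ N / q := by gcongr
    refine h8.trans ?_
    rw [le_div_iff₀ hsw0, hMMe]
    calc (N : ℝ) / q * Real.sqrt w ≤ N / q₃ * D := by gcongr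
      _ = (2 * D) ^ 2 * ((N : ℝ) / D) / (4 * q₃) := by
          field_simp
          try ring
      _ ≤ P ^ 2 * ((N : ℝ) / D) / (4 * q₃) := by gcongr
  refine ⟨hMM0, hSS0, ?_, ?_, ?_, hsq⟩
  · refine le_trans ?_ hNL
    rw [le_div_iff₀ hL0]
    calc (N : ℝ) ^ (24 / 25 : ℝ) * L ≤ (N : ℝ) ^ (24 / 25 : ℝ) * (N : ℝ) ^ (1 / 25 : ℝ) := by
          gcongr
      _ = N := by
          rw [← Real.rpow_add hNpos]
          norm_num
  · refine le_trans ?_ hNL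
    have hZ0 : (0 : ℝ) < ZC N := by linarith
    have h7 : (ZC N : ℝ) ^ (-(1 / 4) : ℝ) ≤ L⁻¹ := by
      rw [Real.rpow_neg hZ0.le]
      gcongr
    calc (N : ℝ) * (ZC N : ℝ) ^ (-(1 / 4) : ℝ) ≤ N * L⁻¹ :=
          mul_le_mul_of_nonneg_left h7 hNpos.le
      _ = N / L := (div_eq_mul_inv _ _).symm
  · rw [le_div_iff₀ hsw0, hMMe, hSSe]
    have h9 : 2 * Real.sqrt w ≤ P * g := by
      calc 2 * Real.sqrt w ≤ 2 * D * 1 := by linarith
        _ ≤ P * g := by gcongr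
    calc P * ((N : ℝ) / D) / (2 * (g * q₃)) * Real.sqrt w
        = P * ((N : ℝ) / D) * (2 * Real.sqrt w) / (4 * q₃ * g) := by
          field_simp
          try norm_num
      _ ≤ P * ((N : ℝ) / D) * (P * g) / (4 * q₃ * g) := by gcongr
      _ = P ^ 2 * ((N : ℝ) / D) / (4 * q₃) := by
          field_simp

end Pool.Agent.MKA
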