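import Pool.Agent.MKA.XSum
import Pool.Agent.MKA.AsymC

/-!
# MKA/URangeC: size of `u`

`Z = ZC N = Y⁴`, `Y = YY N`, `13 ≤ D ≤ L = log N`, `K_i = KK N D i`, `μ = muc N D`, cell `i`: `K_i < A y ≤ K_(i+1)`,
`i < J`.
`AA_bounds`: `Z < x ≤ Z²`, `2A = a x` (`AA_spec`).
`u_range`: let `(y,u) ∈ YU` (cell `i`), `A = AA a x`, `b = BB a x y u ∈ (N₁, N₁ + N/D]`.  Then
`u² = b + (Ay)² - y² - x²`.
Lower bound: `y ≤ K_J/A ≤ 2√N Y/Z`, so `y² ≤ 4N Y²/Z²`, `x² ≤ Z⁴`; `(Ay)² ≥ K_i²`.  So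
`u² > N₁ + K_i² - (4N Y²/Z² + Z⁴)` and the bracket is `≤ N/D²` for large `N`.
Upper bound: `(Ay)² ≤ (K_i+μ)² ≤ K_i² + 2·(√N Y)(√N/(D²Y)) + μ² ≤ K_i² + 3N/D²`; `b ≤ N₁ + N/D`.
`u_range_all`: the same for the whole range `(K_0, K_J]`: `u ≤ N` (crude), `0 < u`.
`W_lower`: `N₁ + K_i² ≥ 2.9 N` since `K_i ≥ K_0 ≥ 2√N - 2` and `N₁ ≥ -N`; `N₁ + K_i² ≤ (4/3) K_i²` (as `N ≤ K_i²/3.9`);
and `N₁ + K_i² ≤ N Y² + N`.
Size: 120-150 lines.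
-/

set_option autoImplicit false

namespace Pool.Agent.MKA

open Finset

private theorem uc_xs {q Z : ℕ} {x₀ x : ℤ} (hx : x ∈ XS q x₀ Z) :
    (Z : ℤ) < x ∧ x ≤ (Z : ℤ) ^ 2 ∧ (2 * q : ℤ) ∣ x - x₀ := by
  unfold XS at hx
  rw [Finset.mem_filter, Finset.mem_Ioc] at hx
  exact ⟨hx.1.1, hx.1.2, hx.2⟩

private theorem uc_KK_mono (N D i : ℕ) : (KK N D 0 : ℝ) ≤ (KK N D i : ℝ) := by
  unfold KK
  have h : 2 * Nat.sqrt N + 0 * muc N D ≤ 2 * Nat.sqrt N + i * muc N D := by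
    rw [zero_mul, add_zero]
    exact Nat.le_add_right _ _
  exact_mod_cast h

theorem AA_bounds : ∃ N₀ : ℕ, ∀ N : ℕ, N₀ ≤ N → ∀ (a q : ℕ) (x₀ A₀ x : ℤ), 1 ≤ a →
    (a : ℤ) * x₀ = 2 * A₀ → x ∈ XS q x₀ (ZC N) →
    (2 : ℤ) ≤ AA a x ∧ (ZC N : ℝ) / 2 ≤ (AA a x : ℝ) ∧ (x : ℝ) / 2 ≤ (AA a x : ℝ) ∧
      (AA a x : ℝ) ≤ (a : ℝ) * (ZC N : ℝ) ^ 2 / 2 := by
  obtain ⟨N₀, h⟩ := ZC_large 4
  refine ⟨N₀, fun N hN a q x₀ A₀ x ha hA hx => ?_⟩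
  have hZ := h N hN
  obtain ⟨h1, h2, h3⟩ := uc_xs hx
  have h4 := AA_spec a q x x₀ A₀ hA h3
  have h4r : 2 * (AA a x : ℝ) = (a : ℝ) * (x : ℝ) := by exact_mod_cast h4
  have h1r : (ZC N : ℝ) < (x : ℝ) := by exact_mod_cast h1
  have h2r : (x : ℝ) ≤ (ZC N : ℝ) ^ 2 := by exact_mod_cast h2
  have har : (1 : ℝ) ≤ (a : ℝ) := by exact_mod_cast ha
  have hx0 : (0 : ℝ) < (x : ℝ) := by linarith
  have h5 : (x : ℝ) ≤ (a : ℝ) * (x : ℝ) := by nlinarith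
  refine ⟨?_, by linarith, by linarith, ?_⟩
  · have h6 : (2 : ℝ) ≤ (AA a x : ℝ) := by linarith
    exact_mod_cast h6
  · have h7 := mul_le_mul_of_nonneg_left h2r (by linarith : (0 : ℝ) ≤ (a : ℝ))
    linarith

theorem W_lower : ∃ N₀ : ℕ, ∀ N : ℕ, N₀ ≤ N → ∀ (D i : ℕ) (N₁ : ℤ), 13 ≤ D →
    (D : ℝ) ≤ Real.log N → i ≤ JJ N D → -(N : ℤ) ≤ N₁ → N₁ ≤ N →
    (29 / 10 : ℝ) * N ≤ (N₁ : ℝ) + (KK N D i : ℝ) ^ 2 ∧
    (N₁ : ℝ) + (KK N D i : ℝ) ^ 2 ≤ (4 / 3 : ℝ) * (KK N D i : ℝ) ^ 2 ∧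
    (N₁ : ℝ) + (KK N D i : ℝ) ^ 2 ≤ (N : ℝ) * (YY N : ℝ) ^ 2 + N := by
  obtain ⟨N₀, h⟩ := mu_facts
  refine ⟨max N₀ 6400, fun N hN D i N₁ hD hDL hi h1 h2 => ?_⟩
  obtain ⟨-, -, -, hK, -, hK0, -, -⟩ := h N (le_of_max_le_left hN) D hD hDL
  have hN2 : (6400 : ℝ) ≤ (N : ℝ) := by exact_mod_cast le_of_max_le_right hN
  have h1r : -(N : ℝ) ≤ (N₁ : ℝ) := by exact_mod_cast h1
  have h2r : (N₁ : ℝ) ≤ (N : ℝ) := by exact_mod_cast h2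
  have hs : Real.sqrt N ^ 2 = (N : ℝ) := Real.sq_sqrt (by linarith)
  have hs80 : (80 : ℝ) ≤ Real.sqrt N := by
    rw [show (80 : ℝ) = Real.sqrt 6400 by
      rw [show (6400 : ℝ) = 80 ^ 2 by norm_num, Real.sqrt_sq (by norm_num)]]
    exact Real.sqrt_le_sqrt hN2
  have h3 : 2 * Real.sqrt N - 2 ≤ (KK N D i : ℝ) := hK0.trans (uc_KK_mono N D i)
  have h4 : (39 / 10 : ℝ) * N ≤ (KK N D i : ℝ) ^ 2 := by
    have h5 : (2 * Real.sqrt N - 2) ^ 2 ≤ (KK N D i : ℝ) ^ 2 :=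
      pow_le_pow_left₀ (by linarith) h3 2
    nlinarith
  refine ⟨by linarith, by linarith, ?_⟩
  have h6 : (KK N D i : ℝ) ^ 2 ≤ (Real.sqrt N * YY N) ^ 2 :=
    pow_le_pow_left₀ (by positivity) (hK i hi) 2
  rw [mul_pow, hs] at h6
  linarith

theorem u_range : ∃ N₀ : ℕ, ∀ N : ℕ, N₀ ≤ N →
    ∀ (a q m D i : ℕ) (x₀ A₀ y₀ u₀ U N₁ x : ℤ),
    1 ≤ a → (a : ℤ) * x₀ = 2 * A₀ → x ∈ XS q x₀ (ZC N) → 13 ≤ D → (D : ℝ) ≤ Real.log N →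
    i < JJ N D → -(N : ℤ) ≤ N₁ → N₁ ≤ N →
    ∀ t ∈ YU a q m y₀ u₀ (KK N D i) (KK N D (i + 1)) U N₁ ((N / D : ℕ) : ℤ) x,
      (N₁ : ℝ) + (KK N D i : ℝ) ^ 2 - N / (D : ℝ) ^ 2 < (t.2 : ℝ) ^ 2 ∧
        (t.2 : ℝ) ^ 2 ≤
          (N₁ : ℝ) + (KK N D i : ℝ) ^ 2 + N / (D : ℝ) + 3 * N / (D : ℝ) ^ 2 := by
  obtain ⟨Na, ha⟩ := AA_bounds
  obtain ⟨Nb, hb⟩ := mu_facts
  obtain ⟨Nc, hc⟩ := ZC_large 81
  obtain ⟨Nd, hd⟩ := ZC_pow_le 6 1 (by norm_num)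
  obtain ⟨Ne, he⟩ := log_pow_le 2 1 one_pos
  refine ⟨max Na (max Nb (max Nc (max Nd Ne))), ?_⟩
  intro N hN a q m D i x₀ A₀ y₀ u₀ U N₁ x ha1 hA hx hD hDL hi _ _ t ht
  have hNa : Na ≤ N := le_trans (le_max_left _ _) hN
  have hN' := le_trans (le_max_right _ _) hN
  have hNb : Nb ≤ N := le_trans (le_max_left _ _) hN'
  have hN'' := le_trans (le_max_right _ _) hN'
  have hNc : Nc ≤ N := le_trans (le_max_left _ _) hN''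
  have hN''' := le_trans (le_max_right _ _) hN''
  have hNd : Nd ≤ N := le_trans (le_max_left _ _) hN'''
  have hNe : Ne ≤ N := le_trans (le_max_right _ _) hN'''
  obtain ⟨-, hAZ, -, -⟩ := ha N hNa a q x₀ A₀ x ha1 hA hx
  obtain ⟨-, -, hμ, hK, -, -, -, -⟩ := hb N hNb D hD hDL
  have hZ81 := hc N hNc
  have hZ6 := hd N hNd
  rw [Real.rpow_one] at hZ6
  have hLZ := he N hNe
  rw [Real.rpow_one] at hLZ
  obtain ⟨hx1, hx2, -⟩ := uc_xs hx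
  -- the parameters
  have hZY : (ZC N : ℝ) = (YY N : ℝ) ^ 4 := by
    unfold ZC
    push_cast
    rfl
  have hY3 : (3 : ℝ) ≤ (YY N : ℝ) := by
    by_contra hlt
    push Not at hlt
    have h1 : (ZC N : ℝ) < 81 := by
      rw [hZY]
      calc (YY N : ℝ) ^ 4 < 3 ^ 4 := pow_lt_pow_left₀ hlt (by positivity) (by norm_num)
        _ = 81 := by norm_num
    linarith
  have hD13 : (13 : ℝ) ≤ (D : ℝ) := by exact_mod_cast hD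
  have hD0 : (0 : ℝ) < (D : ℝ) := by linarith
  have hDZ : (D : ℝ) ^ 2 ≤ (ZC N : ℝ) := (pow_le_pow_left₀ hD0.le hDL 2).trans hLZ
  have hZ0 : (0 : ℝ) < (ZC N : ℝ) := by linarith
  have hY0 : (0 : ℝ) < (YY N : ℝ) := by linarith
  have hN0 : (0 : ℝ) < (N : ℝ) := lt_of_lt_of_le (by positivity) hZ6
  have hs : Real.sqrt N ^ 2 = (N : ℝ) := Real.sq_sqrt hN0.le
  have hs0 : 0 ≤ Real.sqrt N := Real.sqrt_nonneg _
  -- the pair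
  unfold YU YS at ht
  simp only [Finset.mem_filter, Finset.mem_product, Finset.mem_Icc] at ht
  obtain ⟨⟨⟨⟨hy1, -⟩, -, hAy1, hAy2⟩, -, -⟩, -, hB1, hB2⟩ := ht
  set y := t.1 with hy
  set u := t.2 with hu
  set A := AA a x with hAdef
  have hy1r : (1 : ℝ) ≤ (y : ℝ) := by exact_mod_cast hy1
  have hAy1r : (KK N D i : ℝ) < (A : ℝ) * (y : ℝ) := by exact_mod_cast hAy1
  have hAy2r : (A : ℝ) * (y : ℝ) ≤ (KK N D (i + 1) : ℝ) := by exact_mod_cast hAy2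
  have hBr : (BB a x y u : ℝ) = (u : ℝ) ^ 2 - ((A : ℝ) ^ 2 - 1) * (y : ℝ) ^ 2 + (x : ℝ) ^ 2 := by
    unfold BB
    push_cast
    rfl
  have hB1r : (N₁ : ℝ) < (BB a x y u : ℝ) := by exact_mod_cast hB1
  have hB2r : (BB a x y u : ℝ) ≤ (N₁ : ℝ) + (N : ℝ) / (D : ℝ) := by
    have h1 : ((BB a x y u : ℤ) : ℝ) ≤ ((N₁ + ((N / D : ℕ) : ℤ) : ℤ) : ℝ) := Int.cast_le.2 hB2
    rw [Int.cast_add, Int.cast_natCast] at h1
    have h2 : ((N / D : ℕ) : ℝ) ≤ (N : ℝ) / (D : ℝ) := Nat.cast_div_le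
    linarith
  have hu2 : (u : ℝ) ^ 2 =
      (BB a x y u : ℝ) + ((A : ℝ) * y) ^ 2 - (y : ℝ) ^ 2 - (x : ℝ) ^ 2 := by
    rw [hBr]; ring
  have hK0 : (0 : ℝ) ≤ (KK N D i : ℝ) := by positivity
  have hKi1 : (KK N D (i + 1) : ℝ) ≤ Real.sqrt N * YY N := hK (i + 1) hi
  have hKi : (KK N D i : ℝ) ≤ Real.sqrt N * YY N := hK i hi.le
  constructor
  · -- lower bound
    have h1 : (KK N D i : ℝ) ^ 2 < ((A : ℝ) * y) ^ 2 := pow_lt_pow_left₀ hAy1r hK0 (by norm_num)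
    have h2 : (ZC N : ℝ) / 2 * (y : ℝ) ≤ Real.sqrt N * YY N :=
      (mul_le_mul_of_nonneg_right hAZ (by linarith)).trans (hAy2r.trans hKi1)
    have h3 : ((ZC N : ℝ) / 2 * (y : ℝ)) ^ 2 ≤ (Real.sqrt N * YY N) ^ 2 :=
      pow_le_pow_left₀ (by positivity) h2 2
    have h4 : (y : ℝ) ^ 2 ≤ N / (2 * (D : ℝ) ^ 2) := by
      rw [mul_pow _ (YY N : ℝ), hs, hZY] at h3
      have h5 : ((YY N : ℝ) ^ 4 / 2 * (y : ℝ)) ^ 2 = (YY N : ℝ) ^ 2 *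
          ((YY N : ℝ) ^ 6 * (y : ℝ) ^ 2 / 4) := by ring
      rw [h5, mul_comm (N : ℝ)] at h3
      have h6 : (YY N : ℝ) ^ 6 * (y : ℝ) ^ 2 / 4 ≤ N := le_of_mul_le_mul_left h3 (by positivity)
      have h7 : 8 * (D : ℝ) ^ 2 ≤ (YY N : ℝ) ^ 6 := by
        have h8 : (D : ℝ) ^ 2 ≤ (YY N : ℝ) ^ 4 := by rw [← hZY]; exact hDZ
        have h9 : (8 : ℝ) ≤ (YY N : ℝ) ^ 2 := by nlinarith
        calc 8 * (D : ℝ) ^ 2 ≤ (YY N : ℝ) ^ 2 * (YY N : ℝ) ^ 4 :=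
              mul_le_mul h9 h8 (by positivity) (by positivity)
          _ = (YY N : ℝ) ^ 6 := by ring
      rw [le_div_iff₀ (by positivity)]
      have h10 := mul_le_mul_of_nonneg_right h7 (sq_nonneg (y : ℝ))
      nlinarith
    have h11 : (x : ℝ) ^ 2 ≤ N / (2 * (D : ℝ) ^ 2) := by
      have hx1r : (ZC N : ℝ) < (x : ℝ) := by exact_mod_cast hx1
      have hx2r : (x : ℝ) ≤ (ZC N : ℝ) ^ 2 := by exact_mod_cast hx2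
      have h12 : (x : ℝ) ^ 2 ≤ (ZC N : ℝ) ^ 4 := by
        calc (x : ℝ) ^ 2 ≤ ((ZC N : ℝ) ^ 2) ^ 2 := pow_le_pow_left₀ (by linarith) hx2r 2
          _ = (ZC N : ℝ) ^ 4 := by ring
      rw [le_div_iff₀ (by positivity)]
      calc (x : ℝ) ^ 2 * (2 * (D : ℝ) ^ 2) ≤ (ZC N : ℝ) ^ 4 * (ZC N * ZC N) := by
            refine mul_le_mul h12 ?_ (by positivity) (by positivity)
            nlinarith
        _ = (ZC N : ℝ) ^ 6 := by ring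
        _ ≤ N := hZ6
    have h13 : (N : ℝ) / (2 * (D : ℝ) ^ 2) + N / (2 * (D : ℝ) ^ 2) = N / (D : ℝ) ^ 2 := by
      field_simp
      ring
    rw [hu2]
    linarith
  · -- upper bound
    have h1 : ((A : ℝ) * y) ^ 2 ≤ (KK N D (i + 1) : ℝ) ^ 2 :=
      pow_le_pow_left₀ (by linarith) hAy2r 2
    have h2 : (KK N D (i + 1) : ℝ) = (KK N D i : ℝ) + (muc N D : ℝ) := by
      unfold KK
      push_cast
      ring
    have h3 : (muc N D : ℝ) ≤ Real.sqrt N / ((D : ℝ) ^ 2 * YY N) := hμ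
    have hμ0 : (0 : ℝ) ≤ (muc N D : ℝ) := by positivity
    have h4 : (KK N D i : ℝ) * (muc N D : ℝ) ≤ N / (D : ℝ) ^ 2 := by
      calc (KK N D i : ℝ) * (muc N D : ℝ)
          ≤ (Real.sqrt N * YY N) * (Real.sqrt N / ((D : ℝ) ^ 2 * YY N)) :=
            mul_le_mul hKi h3 hμ0 (by positivity)
        _ = Real.sqrt N ^ 2 / (D : ℝ) ^ 2 := by
            field_simp
        _ = N / (D : ℝ) ^ 2 := by rw [hs]
    have h5 : (muc N D : ℝ) ^ 2 ≤ N / (D : ℝ) ^ 2 := by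
      calc (muc N D : ℝ) ^ 2 ≤ (Real.sqrt N / ((D : ℝ) ^ 2 * YY N)) ^ 2 :=
            pow_le_pow_left₀ hμ0 h3 2
        _ = N / ((D : ℝ) ^ 2 * YY N) ^ 2 := by rw [div_pow, hs]
        _ ≤ N / (D : ℝ) ^ 2 := by
            refine div_le_div_of_nonneg_left hN0.le (by positivity) ?_
            have h6 : (1 : ℝ) ≤ (D : ℝ) ^ 2 * (YY N : ℝ) ^ 2 := by
              have := one_le_pow₀ (n := 2) (by linarith : (1 : ℝ) ≤ (D : ℝ))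
              have := one_le_pow₀ (n := 2) (by linarith : (1 : ℝ) ≤ (YY N : ℝ))
              nlinarith
            calc (D : ℝ) ^ 2 = (D : ℝ) ^ 2 * 1 := by ring
              _ ≤ (D : ℝ) ^ 2 * ((D : ℝ) ^ 2 * (YY N : ℝ) ^ 2) :=
                mul_le_mul_of_nonneg_left h6 (by positivity)
              _ = ((D : ℝ) ^ 2 * YY N) ^ 2 := by ring
    have h7 : (KK N D (i + 1) : ℝ) ^ 2 ≤ (KK N D i : ℝ) ^ 2 + 3 * N / (D : ℝ) ^ 2 := by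
      rw [h2]
      have h8 : 3 * (N : ℝ) / (D : ℝ) ^ 2 = 3 * (N / (D : ℝ) ^ 2) := by ring
      rw [h8]
      nlinarith
    have h9 := sq_nonneg (y : ℝ)
    have h10 := sq_nonneg (x : ℝ)
    rw [hu2]
    linarith

end Pool.Agent.MKA
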