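import Pool.Agent.MKA.DivPair
import Pool.Agent.MKA.URangeC
import Pool.Agent.MKA.TauSum

/-!
# MKA/DiagC: the diagonal `x = x'`

`α = AA a x ^2 - 1 ≥ 3`.  In `PXX x x`: if `y = y'` then `u = u'` (both positive), which gives at most `#YU x`
pairs.  If `y ≠ y'`: `(u-u')(u+u') = α (y²-y'²) ≠ 0`, `u+u' > 0` is a divisor of `|α (y²-y'²)|` and
determines `(u,u')`; so the number of these pairs is at most
`∑_{y ≠ y'} τ(α) τ(|y²-y'²|)`, over `y, y' ∈ [1, M_x]`, `M_x = ⌊K_J/AA⌋` (natural number; `YS x ⊆ [1,M_x]`), which by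
`div_pair` is `≤ 8 τ(α) M_x² (1 + log(2M_x))²` (if `M_x = 0` there are no `y`).
`τ(α) ≤ C (Z^5)^(1/40)` (`tau_pow 1`, `α ≤ Z^5`), `M_x ≤ √N Y · 2/x` (`K_J ≤ √N Y`, `AA ≥ x/2`),
`1 + log(2M_x) ≤ 2 log N`, so the sum over `x` is at most
`C' N Y² (log N)² Z^(1/8) ∑_{x > Z} 1/x² ≤ C' N (log N)² Z^(1/2) Z^(1/8) / Z = C' (log N)² N Z^(-3/8)
≤ N Z^(-1/4)` for large `N` (`Y² = Z^(1/2)`; `log_pow_le`).
Size: 150 lines.
-/

set_option autoImplicit false

namespace Pool.Agent.MKA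

open Finset

private theorem dc_diag (a q m : ℕ) (y₀ u₀ M₁ M₂ U N₁ H x : ℤ) :
    ((PXX a q m y₀ u₀ M₁ M₂ U N₁ H x x).filter (fun t => t.1.1 = t.2.1)).card ≤
      (YU a q m y₀ u₀ M₁ M₂ U N₁ H x).card := by
  apply Finset.card_le_card_of_injOn (fun t => t.1)
  · intro t ht
    simp only [PXX, coe_filter, mem_filter, mem_product, Set.mem_ofPred_eq] at ht
    exact ht.1.1.1
  · intro t ht s hs hts
    simp only [PXX, YU, coe_filter, mem_filter, mem_product, Set.mem_ofPred_eq, mem_Icc] at ht hs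
    obtain ⟨⟨⟨h1, h2⟩, h3⟩, h4⟩ := ht
    obtain ⟨⟨⟨k1, k2⟩, k3⟩, k4⟩ := hs
    simp only at hts
    obtain ⟨⟨y, u⟩, ⟨y', u'⟩⟩ := t
    obtain ⟨⟨w, v⟩, ⟨w', v'⟩⟩ := s
    simp only [Prod.mk.injEq] at *
    obtain ⟨rfl, rfl⟩ := hts
    subst h4
    subst k4
    unfold BB at h3 k3
    have e1 : u' ^ 2 = v' ^ 2 := by linarith
    have e2 : (u' - v') * (u' + v') = 0 := by linear_combination e1
    have e3 : 0 < u' + v' := by linarith [h2.1.2.1, k2.1.2.1]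
    rcases mul_eq_zero.1 e2 with e | e
    · exact ⟨⟨rfl, rfl⟩, ⟨rfl, by linarith⟩⟩
    · omega

private theorem dc_off (a q m : ℕ) (y₀ u₀ M₁ M₂ U N₁ H x : ℤ) (M : ℕ) (hα : 0 < AA a x ^ 2 - 1)
    (hM : ∀ y ∈ YS a q y₀ M₁ M₂ x, y ≤ M) :
    ((PXX a q m y₀ u₀ M₁ M₂ U N₁ H x x).filter (fun t => ¬ t.1.1 = t.2.1)).card ≤
      ∑ t ∈ ((Icc (1 : ℤ) M) ×ˢ (Icc (1 : ℤ) M)).filter (fun t : ℤ × ℤ => t.1 ≠ t.2),
        ((AA a x ^ 2 - 1) * (t.1 ^ 2 - t.2 ^ 2)).natAbs.divisors.card := by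
  rw [← Finset.card_sigma]
  apply Finset.card_le_card_of_injOn
    (fun t => (⟨(t.1.1, t.2.1), (t.1.2 + t.2.2).natAbs⟩ : (_ : ℤ × ℤ) × ℕ))
  · intro t ht
    simp only [PXX, coe_filter, mem_filter, mem_product, Set.mem_ofPred_eq] at ht
    obtain ⟨⟨⟨h1, h2⟩, h3⟩, h4⟩ := ht
    simp only [YU, mem_filter, mem_product, mem_Icc] at h1 h2
    have y1 : 1 ≤ t.1.1 := by
      have := h1.1.1
      simp only [YS, mem_filter, mem_Icc] at this
      exact this.1.1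
    have y2 : 1 ≤ t.2.1 := by
      have := h2.1.1
      simp only [YS, mem_filter, mem_Icc] at this
      exact this.1.1
    have y3 := hM _ h1.1.1
    have y4 := hM _ h2.1.1
    simp only [coe_sigma, Set.mem_sigma_iff, mem_coe, mem_filter, mem_product, mem_Icc,
      Nat.mem_divisors]
    refine ⟨⟨⟨⟨y1, y3⟩, ⟨y2, y4⟩⟩, h4⟩, ?_, ?_⟩
    · apply Int.natAbs_dvd_natAbs.2
      refine ⟨t.1.2 - t.2.2, ?_⟩
      unfold BB at h3
      linear_combination -h3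
    · rw [Int.natAbs_ne_zero]
      apply mul_ne_zero hα.ne'
      intro h0
      have : (t.1.1 - t.2.1) * (t.1.1 + t.2.1) = 0 := by linear_combination h0
      rcases mul_eq_zero.1 this with e | e
      · exact h4 (by linarith)
      · omega
  · intro t ht s hs hts
    simp only [PXX, YU, coe_filter, mem_filter, mem_product, Set.mem_ofPred_eq, mem_Icc] at ht hs
    obtain ⟨⟨⟨h1, h2⟩, h3⟩, h4⟩ := ht
    obtain ⟨⟨⟨k1, k2⟩, k3⟩, k4⟩ := hs
    obtain ⟨⟨y, u⟩, ⟨y', u'⟩⟩ := t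
    obtain ⟨⟨w, v⟩, ⟨w', v'⟩⟩ := s
    simp only [Sigma.mk.injEq, Prod.mk.injEq, heq_eq_eq] at *
    obtain ⟨⟨rfl, rfl⟩, hs⟩ := hts
    unfold BB at h3 k3
    have hu := h1.1.2.1
    have hu' := h2.1.2.1
    have hv := k1.1.2.1
    have hv' := k2.1.2.1
    have e1 : u + u' = v + v' := by omega
    have e2 : (u - u') * (u + u') = (v - v') * (v + v') := by linear_combination h3 - k3
    rw [← e1] at e2
    have e3 : u - u' = v - v' := mul_right_cancel₀ (by omega : u + u' ≠ 0) e2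
    refine ⟨⟨rfl, ?_⟩, ⟨rfl, ?_⟩⟩ <;> omega

private theorem dc_tau (α n : ℤ) :
    (α * n).natAbs.divisors.card ≤ α.natAbs.divisors.card * n.natAbs.divisors.card := by
  rw [Int.natAbs_mul, Nat.divisors_mul]
  exact Finset.card_mul_le

private theorem dc_tele (Z n : ℕ) (hZ : 1 ≤ Z) :
    ∑ i ∈ range n, 1 / (((Z : ℝ) + 1 + i) ^ 2) ≤ 1 / (Z : ℝ) - 1 / ((Z : ℝ) + n) := by
  have hZ' : (1 : ℝ) ≤ Z := by exact_mod_cast hZ
  induction n with
  | zero => simp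
  | succ k ih =>
    rw [sum_range_succ]
    push_cast
    have hk : (0 : ℝ) ≤ k := Nat.cast_nonneg k
    have h1 : 1 / (((Z : ℝ) + 1 + k) ^ 2) ≤ 1 / ((Z : ℝ) + k) - 1 / ((Z : ℝ) + (k + 1)) := by
      rw [div_sub_div _ _ (by positivity) (by positivity), div_le_div_iff₀ (by positivity)
        (by positivity)]
      nlinarith
    linarith

private theorem dc_sum (q Z : ℕ) (x₀ : ℤ) (hZ : 1 ≤ Z) :
    ∑ x ∈ XS q x₀ Z, 1 / (x : ℝ) ^ 2 ≤ 1 / (Z : ℝ) := by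
  have h1 : XS q x₀ Z ⊆ (range (Z ^ 2)).image (fun i : ℕ => (Z : ℤ) + 1 + i) := by
    intro x hx
    simp only [XS, mem_filter, mem_Ioc] at hx
    obtain ⟨⟨h1, h2⟩, -⟩ := hx
    rw [mem_image]
    refine ⟨(x - Z - 1).toNat, ?_, ?_⟩
    · rw [mem_range]
      have : ((x - Z - 1).toNat : ℤ) = x - Z - 1 := Int.toNat_of_nonneg (by omega)
      zify
      rw [this]
      have : (0 : ℤ) ≤ Z := by positivity
      linarith
    · have : ((x - Z - 1).toNat : ℤ) = x - Z - 1 := Int.toNat_of_nonneg (by omega)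
      simp only [this]
      ring
  calc ∑ x ∈ XS q x₀ Z, 1 / (x : ℝ) ^ 2
      ≤ ∑ x ∈ (range (Z ^ 2)).image (fun i : ℕ => (Z : ℤ) + 1 + i), 1 / (x : ℝ) ^ 2 :=
        Finset.sum_le_sum_of_subset_of_nonneg h1 (fun _ _ _ => by positivity)
    _ = ∑ i ∈ range (Z ^ 2), 1 / (((Z : ℝ) + 1 + i) ^ 2) := by
        rw [Finset.sum_image]
        · apply sum_congr rfl
          intro i _
          push_cast
          ring
        · intro i _ j _ hij
          simp only at hij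
          omega
    _ ≤ 1 / (Z : ℝ) - 1 / ((Z : ℝ) + (Z ^ 2 : ℕ)) := dc_tele Z _ hZ
    _ ≤ 1 / (Z : ℝ) := by
        have : (0 : ℝ) ≤ 1 / ((Z : ℝ) + (Z ^ 2 : ℕ)) := by positivity
        linarith

private theorem dc_point (a q m : ℕ) (y₀ u₀ M₁ M₂ U N₁ H x : ℤ) (M : ℕ)
    (hα : 0 < AA a x ^ 2 - 1) (hM1 : 1 ≤ M)
    (hM : ∀ y ∈ YS a q y₀ M₁ M₂ x, y ≤ M) :
    ((PXX a q m y₀ u₀ M₁ M₂ U N₁ H x x).card : ℝ) ≤
      ((YU a q m y₀ u₀ M₁ M₂ U N₁ H x).card : ℝ) +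
      ((AA a x ^ 2 - 1).natAbs.divisors.card : ℝ) *
        (8 * (M : ℝ) ^ 2 * (1 + Real.log (2 * M)) ^ 2) := by
  have h1 := dc_diag a q m y₀ u₀ M₁ M₂ U N₁ H x
  have h2 := dc_off a q m y₀ u₀ M₁ M₂ U N₁ H x M hα hM
  have h3 := Finset.card_filter_add_card_filter_not (s := PXX a q m y₀ u₀ M₁ M₂ U N₁ H x x)
    (fun t => t.1.1 = t.2.1)
  have h4 : ((∑ t ∈ ((Icc (1 : ℤ) M) ×ˢ (Icc (1 : ℤ) M)).filter (fun t : ℤ × ℤ => t.1 ≠ t.2),
        ((AA a x ^ 2 - 1) * (t.1 ^ 2 - t.2 ^ 2)).natAbs.divisors.card : ℕ) : ℝ) ≤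
        ((AA a x ^ 2 - 1).natAbs.divisors.card : ℝ) *
        (8 * (M : ℝ) ^ 2 * (1 + Real.log (2 * M)) ^ 2) := by
    refine le_trans ?_ (mul_le_mul_of_nonneg_left (div_pair M hM1) (Nat.cast_nonneg _))
    rw [mul_sum]
    push_cast
    apply sum_le_sum
    intro t _
    exact_mod_cast dc_tau _ _
  have h5 : ((PXX a q m y₀ u₀ M₁ M₂ U N₁ H x x).card : ℝ) =
      (((PXX a q m y₀ u₀ M₁ M₂ U N₁ H x x).filter (fun t => t.1.1 = t.2.1)).card : ℝ) +
      (((PXX a q m y₀ u₀ M₁ M₂ U N₁ H x x).filter (fun t => ¬ t.1.1 = t.2.1)).card : ℝ) := by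
    exact_mod_cast h3.symm
  have h6 : ((((PXX a q m y₀ u₀ M₁ M₂ U N₁ H x x).filter (fun t => ¬ t.1.1 = t.2.1)).card : ℕ) : ℝ)
      ≤ ((∑ t ∈ ((Icc (1 : ℤ) M) ×ˢ (Icc (1 : ℤ) M)).filter (fun t : ℤ × ℤ => t.1 ≠ t.2),
        ((AA a x ^ 2 - 1) * (t.1 ^ 2 - t.2 ^ 2)).natAbs.divisors.card : ℕ) : ℝ) := by
    exact_mod_cast h2
  have h7 : ((((PXX a q m y₀ u₀ M₁ M₂ U N₁ H x x).filter (fun t => t.1.1 = t.2.1)).card : ℕ) : ℝ)
      ≤ ((YU a q m y₀ u₀ M₁ M₂ U N₁ H x).card : ℝ) := by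
    exact_mod_cast h1
  linarith

theorem diag_bound : ∃ N₀ : ℕ, ∀ N : ℕ, N₀ ≤ N → ∀ (a q m D : ℕ) (x₀ A₀ y₀ u₀ N₁ : ℤ),
    1 ≤ a → (a : ℝ) ≤ (Real.log N) ^ 2 → 1 ≤ q → (a : ℤ) * x₀ = 2 * A₀ →
    13 ≤ D → (D : ℝ) ≤ Real.log N → -(N : ℤ) ≤ N₁ → N₁ ≤ N →
    ∑ x ∈ XS q x₀ (ZC N),
      ((PXX a q m y₀ u₀ (KK N D 0) (KK N D (JJ N D)) N N₁ ((N / D : ℕ) : ℤ) x x).card : ℝ) ≤
      (∑ x ∈ XS q x₀ (ZC N),
        ((YU a q m y₀ u₀ (KK N D 0) (KK N D (JJ N D)) N N₁ ((N / D : ℕ) : ℤ) x).card : ℝ)) +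
        (N : ℝ) * (ZC N : ℝ) ^ (-(1 / 4) : ℝ) := by
  obtain ⟨C, hC, htau⟩ := tau_pow 1
  obtain ⟨Na, hNa⟩ := AA_bounds
  obtain ⟨Nb, hNb⟩ := mu_facts
  obtain ⟨Nc, hNc⟩ := log_large (128 * C)
  obtain ⟨Nd, hNd⟩ := log_pow_le 3 (1 / 8) (by norm_num)
  obtain ⟨Ne, hNe⟩ := log_pow_le 4 1 (by norm_num)
  refine ⟨Na + Nb + Nc + Nd + Ne + 16, fun N hN a q m D x₀ A₀ y₀ u₀ N₁ ha haL hq hA hD hDL hN1 hN2 => ?_⟩
  have hL := hNc N (by omega)
  have hW := hNd N (by omega)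
  have hZ4 := hNe N (by omega)
  rw [Real.rpow_one] at hZ4
  set L := Real.log N with hLdef
  have hL1 : 1 ≤ L := by linarith
  have hN16 : (16 : ℝ) ≤ N := by exact_mod_cast (by omega : 16 ≤ N)
  set Z : ℝ := (ZC N : ℝ) with hZdef
  have hZ1 : 1 ≤ Z := by
    refine le_trans ?_ hZ4
    exact one_le_pow₀ hL1
  have hZn : 1 ≤ ZC N := by
    have h := hZ1
    rw [hZdef] at h
    exact_mod_cast h
  have hY4 : Z = (YY N : ℝ) ^ 4 := by
    rw [hZdef]
    unfold ZC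
    push_cast
    rfl
  have hY0 : (0 : ℝ) ≤ (YY N : ℝ) := Nat.cast_nonneg _
  have hYn : 1 ≤ YY N := by
    by_contra h
    have h0 : YY N = 0 := by omega
    unfold ZC at hZn
    rw [h0] at hZn
    simp at hZn
  have hY1 : (1 : ℝ) ≤ (YY N : ℝ) := by exact_mod_cast hYn
  set W : ℝ := Z ^ (1 / 8 : ℝ) with hWdef
  have hW0 : 0 < W := Real.rpow_pos_of_pos (by linarith) _
  have hW8 : W ^ 8 = Z := by
    rw [hWdef, ← Real.rpow_natCast, ← Real.rpow_mul (by linarith)]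
    norm_num
  have hW2 : W ^ 2 = (YY N : ℝ) := by
    have h1 : (W ^ 2) ^ 4 = (YY N : ℝ) ^ 4 := by rw [← hY4, ← hW8]; ring
    exact (pow_left_inj₀ (by positivity) hY0 (by norm_num)).1 h1
  have hZm : Z ^ (-(1 / 4) : ℝ) = 1 / W ^ 2 := by
    rw [Real.rpow_neg (by linarith), hW2]
    have : Z ^ (1 / 4 : ℝ) = (YY N : ℝ) := by
      rw [hY4, ← Real.rpow_natCast, ← Real.rpow_mul hY0]
      norm_num
    rw [this, one_div]
  have hmu := hNb N (by omega) D hD hDL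
  have hKJ := hmu.2.2.2.1 (JJ N D) le_rfl
  have hsN : Real.sqrt N ^ 2 = N := Real.sq_sqrt (by linarith)
  have hsN0 : 0 ≤ Real.sqrt N := Real.sqrt_nonneg _
  have hsN4 : 4 ≤ Real.sqrt N := by
    rw [show (4 : ℝ) = Real.sqrt 16 by
      rw [show (16 : ℝ) = 4 ^ 2 by norm_num, Real.sqrt_sq (by norm_num)]]
    exact Real.sqrt_le_sqrt hN16
  have key : ∀ x ∈ XS q x₀ (ZC N),
      ((PXX a q m y₀ u₀ (KK N D 0) (KK N D (JJ N D)) N N₁ ((N / D : ℕ) : ℤ) x x).card : ℝ) ≤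
      ((YU a q m y₀ u₀ (KK N D 0) (KK N D (JJ N D)) N N₁ ((N / D : ℕ) : ℤ) x).card : ℝ) +
        128 * C * L ^ 2 * N * W ^ 5 * (1 / (x : ℝ) ^ 2) := by
    intro x hx
    obtain ⟨hA2, hAZ, hAx, hAup⟩ := hNa N (by omega) a q x₀ A₀ x ha hA hx
    have hxZ : Z < (x : ℝ) := by
      simp only [XS, mem_filter, mem_Ioc] at hx
      have := hx.1.1
      rw [hZdef]
      exact_mod_cast this
    have hx0 : (0 : ℝ) < x := by linarith
    have hα : 0 < AA a x ^ 2 - 1 := by nlinarith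
    have hA0 : (0 : ℝ) < (AA a x : ℝ) := by
      have : (2 : ℝ) ≤ (AA a x : ℝ) := by exact_mod_cast hA2
      linarith
    obtain ⟨M, hMdef⟩ : ∃ M : ℕ, M = (((KK N D (JJ N D) : ℕ) : ℤ) / AA a x).toNat := ⟨_, rfl⟩
    have hMup : ∀ y ∈ YS a q y₀ (KK N D 0) (KK N D (JJ N D)) x, y ≤ M := by
      intro y hy
      simp only [YS, mem_filter, mem_Icc] at hy
      obtain ⟨⟨y1, y2⟩, -, -, y4⟩ := hy
      have h1 : y ≤ ((KK N D (JJ N D) : ℕ) : ℤ) / AA a x := by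
        rw [Int.le_ediv_iff_mul_le (by omega)]
        linarith [mul_comm y (AA a x)]
      rw [hMdef]
      exact h1.trans (Int.self_le_toNat _)
    have hnn : (0 : ℝ) ≤ 128 * C * L ^ 2 * N * W ^ 5 * (1 / (x : ℝ) ^ 2) := by positivity
    rcases Nat.eq_zero_or_pos M with hM0 | hMpos
    · have hempty : YU a q m y₀ u₀ (KK N D 0) (KK N D (JJ N D)) N N₁ ((N / D : ℕ) : ℤ) x = ∅ := by
        rw [Finset.eq_empty_iff_forall_notMem]
        intro t ht
        simp only [YU, mem_filter, mem_product] at ht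
        have h1 := hMup _ ht.1.1
        have h2 := ht.1.1
        simp only [YS, mem_filter, mem_Icc] at h2
        rw [hM0] at h1
        have := h2.1.1
        push_cast at h1
        omega
      have h0 : PXX a q m y₀ u₀ (KK N D 0) (KK N D (JJ N D)) N N₁ ((N / D : ℕ) : ℤ) x x = ∅ := by
        unfold PXX
        rw [hempty]
        simp
      rw [h0, hempty]
      simpa using hnn
    · have hp := dc_point a q m y₀ u₀ (KK N D 0) (KK N D (JJ N D)) N N₁ ((N / D : ℕ) : ℤ) x M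
        hα hMpos hMup
      refine hp.trans ?_
      have hMr : (M : ℝ) ≤ 2 * Real.sqrt N * (YY N : ℝ) / x := by
        have h1 : ((M : ℤ)) = ((KK N D (JJ N D) : ℕ) : ℤ) / AA a x := by
          rw [hMdef]
          apply Int.toNat_of_nonneg
          apply Int.ediv_nonneg (by positivity) (by omega)
        have h2 : (M : ℤ) * AA a x ≤ ((KK N D (JJ N D) : ℕ) : ℤ) := by
          rw [h1]
          exact Int.ediv_mul_le _ (by omega)
        have h3 : (M : ℝ) * (AA a x : ℝ) ≤ (KK N D (JJ N D) : ℝ) := by exact_mod_cast h2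
        rw [le_div_iff₀ hx0]
        have h4 : (M : ℝ) * (x / 2) ≤ (M : ℝ) * (AA a x : ℝ) :=
          mul_le_mul_of_nonneg_left hAx (Nat.cast_nonneg _)
        linarith
      have hM1 : (1 : ℝ) ≤ M := by exact_mod_cast hMpos
      have hlog : 1 + Real.log (2 * M) ≤ 2 * L := by
        have h1 : (2 : ℝ) * M ≤ N := by
          have h2 : 2 * Real.sqrt N * (YY N : ℝ) / x ≤ 2 * Real.sqrt N := by
            rw [div_le_iff₀ hx0]
            have h3 : (YY N : ℝ) ≤ x := by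
              refine le_trans ?_ hxZ.le
              rw [hY4]
              calc (YY N : ℝ) = (YY N : ℝ) ^ 1 := (pow_one _).symm
                _ ≤ (YY N : ℝ) ^ 4 := pow_le_pow_right₀ hY1 (by norm_num)
            exact mul_le_mul_of_nonneg_left h3 (by positivity)
          nlinarith
        have h4 : Real.log (2 * M) ≤ L := Real.log_le_log (by linarith) h1
        linarith
      have hlog0 : 0 ≤ 1 + Real.log (2 * M) := by
        have := Real.log_nonneg (by linarith : (1 : ℝ) ≤ 2 * M)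
        linarith
      have htau' : ((AA a x ^ 2 - 1).natAbs.divisors.card : ℝ) ≤ C * W := by
        have h1 := htau ((AA a x ^ 2 - 1).natAbs) (by omega)
        rw [pow_one] at h1
        refine h1.trans ?_
        apply mul_le_mul_of_nonneg_left _ (by linarith)
        have h2 : (((AA a x ^ 2 - 1).natAbs : ℕ) : ℝ) ≤ Z ^ 5 := by
          have h3 : (((AA a x ^ 2 - 1).natAbs : ℕ) : ℝ) = (AA a x : ℝ) ^ 2 - 1 := by
            have h4 : (((AA a x ^ 2 - 1).natAbs : ℕ) : ℤ) = AA a x ^ 2 - 1 :=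
              Int.natAbs_of_nonneg hα.le
            have h5 : (((AA a x ^ 2 - 1).natAbs : ℕ) : ℝ) =
                ((((AA a x ^ 2 - 1).natAbs : ℕ) : ℤ) : ℝ) := (Int.cast_natCast _).symm
            rw [h5, h4]
            push_cast
            ring
          rw [h3]
          have h6 : (AA a x : ℝ) ≤ L ^ 2 * Z ^ 2 / 2 := by
            refine hAup.trans ?_
            apply div_le_div_of_nonneg_right _ (by norm_num)
            exact mul_le_mul_of_nonneg_right haL (by positivity)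
          have h7 : (AA a x : ℝ) ^ 2 ≤ (L ^ 2 * Z ^ 2 / 2) ^ 2 :=
            pow_le_pow_left₀ hA0.le h6 2
          have h8 : (L ^ 2 * Z ^ 2 / 2) ^ 2 = L ^ 4 * Z ^ 4 / 4 := by ring
          have h9 : L ^ 4 * Z ^ 4 ≤ Z * Z ^ 4 := mul_le_mul_of_nonneg_right hZ4 (by positivity)
          have h10 : Z * Z ^ 4 = Z ^ 5 := by ring
          have h11 : (0 : ℝ) ≤ Z ^ 5 := by positivity
          linarith
        calc ((((AA a x ^ 2 - 1).natAbs : ℕ) : ℝ)) ^ (1 / 40 : ℝ)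
            ≤ (Z ^ 5) ^ (1 / 40 : ℝ) := Real.rpow_le_rpow (Nat.cast_nonneg _) h2 (by norm_num)
          _ = W := by
              rw [hWdef, ← Real.rpow_natCast, ← Real.rpow_mul (by linarith)]
              norm_num
      have hfin : ((AA a x ^ 2 - 1).natAbs.divisors.card : ℝ) *
          (8 * (M : ℝ) ^ 2 * (1 + Real.log (2 * M)) ^ 2) ≤
          (C * W) * (8 * (2 * Real.sqrt N * (YY N : ℝ) / x) ^ 2 * (2 * L) ^ 2) := by
        apply mul_le_mul htau' _ (by positivity) (by positivity)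
        apply mul_le_mul _ (pow_le_pow_left₀ hlog0 hlog 2) (by positivity) (by positivity)
        apply mul_le_mul_of_nonneg_left (pow_le_pow_left₀ (by linarith) hMr 2) (by norm_num)
      have heq : (C * W) * (8 * (2 * Real.sqrt N * (YY N : ℝ) / x) ^ 2 * (2 * L) ^ 2) =
          128 * C * L ^ 2 * N * W ^ 5 * (1 / (x : ℝ) ^ 2) := by
        rw [← hW2]
        have : (2 * Real.sqrt N * W ^ 2 / x) ^ 2 = 4 * (Real.sqrt N ^ 2) * W ^ 4 / (x : ℝ) ^ 2 := by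
          field_simp
          ring
        rw [this, hsN]
        field_simp
        ring
      linarith
  refine (sum_le_sum key).trans ?_
  rw [sum_add_distrib, ← mul_sum]
  have hs := dc_sum q (ZC N) x₀ hZn
  rw [← hZdef] at hs
  have h1 : 128 * C * L ^ 2 * N * W ^ 5 * ∑ x ∈ XS q x₀ (ZC N), 1 / (x : ℝ) ^ 2 ≤
      128 * C * L ^ 2 * N * W ^ 5 * (1 / Z) := mul_le_mul_of_nonneg_left hs (by positivity)
  have h2 : 128 * C * L ^ 2 * N * W ^ 5 * (1 / Z) ≤ (N : ℝ) * Z ^ (-(1 / 4) : ℝ) := by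
    rw [hZm, ← hW8]
    have h3 : 128 * C * L ^ 2 ≤ W := by
      calc 128 * C * L ^ 2 ≤ L * L ^ 2 := mul_le_mul_of_nonneg_right hL (by positivity)
        _ = L ^ 3 := by ring
        _ ≤ W := hW
    have e1 : 128 * C * L ^ 2 * N * W ^ 5 * (1 / W ^ 8) = N * (128 * C * L ^ 2 * (1 / W ^ 3)) := by
      field_simp
    have e2 : (N : ℝ) * (1 / W ^ 2) = N * (W * (1 / W ^ 3)) := by
      field_simp
    rw [e1, e2]
    apply mul_le_mul_of_nonneg_left _ (by linarith)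
    exact mul_le_mul_of_nonneg_right h3 (by positivity)
  linarith

end Pool.Agent.MKA
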