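import Pool.Agent.MKA.Defs

/-!
# MKA/UCount: number of `u` with `u²` in an interval

The `u` with `u ≡ u₀ mod m` and `√v < u ≤ √(v+H)` : the real interval `(√v, √(v+H)]` contains at least
`(√(v+H) - √v)/m - 1` integers of the class, all in `[1,U]` (`0 ≤ √v < u`, `u ≤ √(v+H) ≤ √V ≤ U`), and
`√(v+H) - √v = H/(√(v+H)+√v) ≥ H/(2√V)`.
Size: 50-70 lines.
-/

set_option autoImplicit false

namespace Pool.Agent.MKA

open Finset

theorem u_count (m : ℕ) (hm : 1 ≤ m) (v H U u₀ : ℤ) (V : ℝ) (hv : 0 ≤ v) (hH : 0 ≤ H)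
    (hV : (v : ℝ) + H ≤ V) (hV0 : 0 < V) (hU : Real.sqrt V ≤ (U : ℝ)) :
    (H : ℝ) / (2 * Real.sqrt V * m) - 1 ≤
      (((Icc 1 U).filter (fun u : ℤ => (m : ℤ) ∣ u - u₀ ∧ v < u ^ 2 ∧ u ^ 2 ≤ v + H)).card : ℝ) := by
  classical
  have hmr : (1 : ℝ) ≤ (m : ℝ) := by exact_mod_cast hm
  have hmp : (0 : ℝ) < (m : ℝ) := by linarith
  have hvr : (0 : ℝ) ≤ (v : ℝ) := by exact_mod_cast hv
  have hHr : (0 : ℝ) ≤ (H : ℝ) := by exact_mod_cast hH
  set α : ℝ := Real.sqrt v with hα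
  set β : ℝ := Real.sqrt ((v : ℝ) + H) with hβ
  have hα0 : 0 ≤ α := Real.sqrt_nonneg _
  have hβ0 : 0 ≤ β := Real.sqrt_nonneg _
  have hα2 : α ^ 2 = v := Real.sq_sqrt hvr
  have hβ2 : β ^ 2 = v + H := Real.sq_sqrt (by linarith)
  have hαβ : α ≤ β := Real.sqrt_le_sqrt (by linarith)
  have hβV : β ≤ Real.sqrt V := Real.sqrt_le_sqrt hV
  have hsV : 0 < Real.sqrt V := Real.sqrt_pos.2 hV0
  have hdiff : (H : ℝ) / (2 * Real.sqrt V) ≤ β - α := by
    rw [div_le_iff₀ (by positivity)]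
    have h1 : (H : ℝ) = (β - α) * (β + α) := by
      have : (β - α) * (β + α) = β ^ 2 - α ^ 2 := by ring
      rw [this, hα2, hβ2]; ring
    rw [h1]
    apply mul_le_mul_of_nonneg_left _ (by linarith)
    linarith
  set a : ℝ := (α - u₀) / m with ha
  set b : ℝ := (β - u₀) / m with hb
  have hab : b - a = (β - α) / m := by rw [ha, hb]; field_simp; ring
  have hab' : a ≤ b := by
    have : 0 ≤ (β - α) / m := div_nonneg (by linarith) hmp.le
    linarith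
  have hcard : (H : ℝ) / (2 * Real.sqrt V * m) - 1 ≤ ((Ioc ⌊a⌋ ⌊b⌋).card : ℝ) := by
    rw [Int.card_Ioc]
    have h1 : (((⌊b⌋ - ⌊a⌋).toNat : ℕ) : ℝ) = (⌊b⌋ : ℝ) - ⌊a⌋ := by
      have h2 : ((⌊b⌋ - ⌊a⌋).toNat : ℤ) = ⌊b⌋ - ⌊a⌋ :=
        Int.toNat_of_nonneg (by have := Int.floor_le_floor hab'; linarith)
      have : ((((⌊b⌋ - ⌊a⌋).toNat : ℕ) : ℤ) : ℝ) = ((⌊b⌋ - ⌊a⌋ : ℤ) : ℝ) := by rw [h2]
      push_cast at this
      exact this
    rw [h1]
    have h3 := Int.floor_le a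
    have h4 := Int.lt_floor_add_one b
    have h5 : (H : ℝ) / (2 * Real.sqrt V * m) ≤ b - a := by
      rw [hab, ← div_div]
      exact div_le_div_of_nonneg_right hdiff hmp.le
    linarith
  refine hcard.trans ?_
  have hinj : Function.Injective (fun η : ℤ => u₀ + m * η) := by
    intro η η' h
    have hq' : (m : ℤ) ≠ 0 := by
      have : 0 < (m : ℤ) := by exact_mod_cast hm
      exact this.ne'
    have h2 : (m : ℤ) * η = m * η' := by
      have : u₀ + (m : ℤ) * η = u₀ + m * η' := h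
      linarith
    exact mul_left_cancel₀ hq' h2
  rw [← Finset.card_image_of_injective _ hinj]
  have hle : ((Ioc ⌊a⌋ ⌊b⌋).image (fun η : ℤ => u₀ + m * η)).card ≤
      ((Icc 1 U).filter (fun u : ℤ => (m : ℤ) ∣ u - u₀ ∧ v < u ^ 2 ∧ u ^ 2 ≤ v + H)).card := by
    apply Finset.card_le_card
    intro u hu
    obtain ⟨η, hη, rfl⟩ := Finset.mem_image.1 hu
    obtain ⟨h1, h2⟩ := Finset.mem_Ioc.1 hη
    have h3 : a < η := Int.floor_lt.1 h1
    have h4 : (η : ℝ) ≤ b := Int.le_floor.1 h2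
    rw [ha, div_lt_iff₀ hmp] at h3
    rw [hb, le_div_iff₀ hmp] at h4
    set w : ℤ := u₀ + m * η with hw
    have hwr : (w : ℝ) = u₀ + m * η := by rw [hw]; push_cast; ring
    have h5 : α < w := by rw [hwr]; linarith
    have h6 : (w : ℝ) ≤ β := by rw [hwr]; linarith
    have h7 : (0 : ℝ) < w := lt_of_le_of_lt hα0 h5
    have h8 : 0 < w := by exact_mod_cast h7
    refine Finset.mem_filter.2 ⟨Finset.mem_Icc.2 ⟨by linarith, ?_⟩, ⟨η, by rw [hw]; ring⟩, ?_, ?_⟩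
    · have : (w : ℝ) ≤ U := h6.trans (hβV.trans hU)
      exact_mod_cast this
    · have : (v : ℝ) < (w : ℝ) ^ 2 := by
        rw [← hα2]
        exact pow_lt_pow_left₀ h5 hα0 (by norm_num)
      exact_mod_cast this
    · have : (w : ℝ) ^ 2 ≤ (v : ℝ) + H := by
        rw [← hβ2]
        exact pow_le_pow_left₀ h7.le h6 2
      exact_mod_cast this
  exact_mod_cast hle

end Pool.Agent.MKA
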