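import Pool.Agent.MKA.Defs

/-!
# MKA/YInt: `YS` is an arithmetic progression

With `A = AA a x ≥ 1`: `y = y₀ + qη ∈ YS` iff `M₁ < A(y₀+qη) ≤ M₂` (then `1 ≤ y ≤ M₂` automatically, because
`A y > M₁ ≥ 0` and `y ≤ A y ≤ M₂`).  The integers `η` with
`(M₁/A - y₀)/q < η ≤ (M₂/A - y₀)/q` form `Ico j (j+l)`, `j = ⌊(M₁/A-y₀)/q⌋ + 1`,
`j + l = ⌊(M₂/A-y₀)/q⌋ + 1`, so `|l - (M₂-M₁)/(Aq)| ≤ 1`.
`YS_cnt`: the map `η ↦ y₀ + qη` is injective (`q ≥ 1`), so counting over `YS × YS` is counting over the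
box.
Size: 80-100 lines.
-/

set_option autoImplicit false

namespace Pool.Agent.MKA

open Finset

theorem YS_interval (a q : ℕ) (y₀ : ℤ) (M₁ M₂ : ℕ) (x : ℤ) (hA : 1 ≤ AA a x) (hq : 1 ≤ q)
    (hM : M₁ ≤ M₂) :
    ∃ (j : ℤ) (l : ℕ),
      YS a q y₀ M₁ M₂ x = (Ico j (j + l)).image (fun η : ℤ => y₀ + q * η) ∧
      ((M₂ : ℝ) - M₁) / ((AA a x : ℝ) * q) - 1 ≤ l ∧
      (l : ℝ) ≤ ((M₂ : ℝ) - M₁) / ((AA a x : ℝ) * q) + 1 := by
  classical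
  set A : ℤ := AA a x with hAdef
  have hAr : (1 : ℝ) ≤ (A : ℝ) := by exact_mod_cast hA
  have hAp : (0 : ℝ) < (A : ℝ) := by linarith
  have hqr : (1 : ℝ) ≤ (q : ℝ) := by exact_mod_cast hq
  have hqp : (0 : ℝ) < (q : ℝ) := by linarith
  have hMr : (M₁ : ℝ) ≤ M₂ := by exact_mod_cast hM
  set u : ℝ := ((M₁ : ℝ) / A - y₀) / q with hu
  set v : ℝ := ((M₂ : ℝ) / A - y₀) / q with hv
  have huv : u ≤ v := by
    rw [hu, hv]
    gcongr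
  have hfl : ⌊u⌋ ≤ ⌊v⌋ := Int.floor_le_floor huv
  have hvu : v - u = ((M₂ : ℝ) - M₁) / ((A : ℝ) * q) := by
    rw [hu, hv]; field_simp; ring
  have hl : ((⌊v⌋ - ⌊u⌋).toNat : ℤ) = ⌊v⌋ - ⌊u⌋ := Int.toNat_of_nonneg (by linarith)
  have hlr : (((⌊v⌋ - ⌊u⌋).toNat : ℕ) : ℝ) = (⌊v⌋ : ℝ) - ⌊u⌋ := by
    have : ((((⌊v⌋ - ⌊u⌋).toNat : ℕ) : ℤ) : ℝ) = ((⌊v⌋ - ⌊u⌋ : ℤ) : ℝ) := by rw [hl]
    push_cast at this
    exact this
  have hlow : ∀ η : ℤ, u < η ↔ (M₁ : ℤ) < A * (y₀ + q * η) := by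
    intro η
    rw [hu, div_lt_iff₀ hqp, sub_lt_iff_lt_add, div_lt_iff₀ hAp]
    constructor
    · intro h
      have : ((M₁ : ℤ) : ℝ) < ((A * (y₀ + q * η) : ℤ) : ℝ) := by
        push_cast; linarith
      exact_mod_cast this
    · intro h
      have : ((M₁ : ℤ) : ℝ) < ((A * (y₀ + q * η) : ℤ) : ℝ) := by exact_mod_cast h
      push_cast at this
      linarith
  have hup : ∀ η : ℤ, (η : ℝ) ≤ v ↔ A * (y₀ + q * η) ≤ (M₂ : ℤ) := by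
    intro η
    rw [hv, le_div_iff₀ hqp, le_sub_iff_add_le, le_div_iff₀ hAp]
    constructor
    · intro h
      have : ((A * (y₀ + q * η) : ℤ) : ℝ) ≤ ((M₂ : ℤ) : ℝ) := by
        push_cast; linarith
      exact_mod_cast this
    · intro h
      have : ((A * (y₀ + q * η) : ℤ) : ℝ) ≤ ((M₂ : ℤ) : ℝ) := by exact_mod_cast h
      push_cast at this
      linarith
  refine ⟨⌊u⌋ + 1, (⌊v⌋ - ⌊u⌋).toNat, ?_, ?_, ?_⟩
  · ext y
    simp only [YS, Finset.mem_filter, Finset.mem_Icc, Finset.mem_image, Finset.mem_Ico]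
    rw [hl]
    constructor
    · rintro ⟨_, ⟨η, hη⟩, h2, h3⟩
      refine ⟨η, ⟨?_, ?_⟩, by linarith⟩
      · have hy : y = y₀ + q * η := by linarith
        rw [hy] at h2
        have := Int.floor_lt.2 ((hlow η).2 h2)
        linarith
      · have hy : y = y₀ + q * η := by linarith
        rw [hy] at h3
        have := Int.le_floor.2 ((hup η).2 h3)
        linarith
    · rintro ⟨η, ⟨h1, h2⟩, rfl⟩
      have h3 := (hlow η).1 (Int.floor_lt.1 (by linarith))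
      have h4 := (hup η).1 (Int.le_floor.1 (by linarith))
      have h5 : 0 < y₀ + q * η := by
        by_contra hcon
        push Not at hcon
        have h6 : A * (y₀ + q * η) ≤ 0 := mul_nonpos_of_nonneg_of_nonpos (by linarith) hcon
        have h7 : (0 : ℤ) ≤ M₁ := by positivity
        linarith
      refine ⟨⟨by linarith, ?_⟩, ⟨η, by ring⟩, h3, h4⟩
      have : 1 * (y₀ + q * η) ≤ A * (y₀ + q * η) := mul_le_mul_of_nonneg_right hA h5.le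
      linarith
  · rw [hlr, ← hvu]
    have h1 := Int.floor_le u
    have h2 := Int.lt_floor_add_one v
    linarith
  · rw [hlr, ← hvu]
    have h1 := Int.floor_le v
    have h2 := Int.lt_floor_add_one u
    linarith

theorem aff_inj (y₀ : ℤ) {q : ℕ} (hq : 1 ≤ q) :
    Function.Injective (fun η : ℤ => y₀ + q * η) := by
  intro η η' h
  have hq' : (q : ℤ) ≠ 0 := by
    have : 0 < (q : ℤ) := by exact_mod_cast hq
    exact this.ne'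
  have h2 : (q : ℤ) * η = q * η' := by
    have : y₀ + (q : ℤ) * η = y₀ + q * η' := h
    linarith
  exact mul_left_cancel₀ hq' h2

theorem YS_card_ge (a q : ℕ) (y₀ : ℤ) (M₁ M₂ : ℕ) (x : ℤ) (hA : 1 ≤ AA a x) (hq : 1 ≤ q)
    (hM : M₁ ≤ M₂) :
    ((M₂ : ℝ) - M₁) / ((AA a x : ℝ) * q) - 1 ≤ ((YS a q y₀ M₁ M₂ x).card : ℝ) := by
  classical
  obtain ⟨j, l, h1, h2, _⟩ := YS_interval a q y₀ M₁ M₂ x hA hq hM
  rw [h1, Finset.card_image_of_injective _ (aff_inj y₀ hq)]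
  have : (Ico j (j + l)).card = l := by simp
  rw [this]
  exact h2

theorem YS_cnt (a q : ℕ) (y₀ : ℤ) (M₁ M₂ M₁' M₂' : ℕ) (x x' : ℤ) (hA : 1 ≤ AA a x)
    (hA' : 1 ≤ AA a x') (hq : 1 ≤ q) (hM : M₁ ≤ M₂) (hM' : M₁' ≤ M₂') :
    ∃ (j j' : ℤ) (l l' : ℕ),
      (l : ℝ) ≤ ((M₂ : ℝ) - M₁) / ((AA a x : ℝ) * q) + 1 ∧
      (l' : ℝ) ≤ ((M₂' : ℝ) - M₁') / ((AA a x' : ℝ) * q) + 1 ∧
      ∀ (α β γ : ℤ) (e : ℕ),
        ((YS a q y₀ M₁ M₂ x ×ˢ YS a q y₀ M₁' M₂' x').filter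
          (fun t : ℤ × ℤ => (e : ℤ) ∣ PP α β γ t.1 t.2)).card =
          cnt α β γ y₀ y₀ q j j' l l' e := by
  classical
  obtain ⟨j, l, h1, _, h3⟩ := YS_interval a q y₀ M₁ M₂ x hA hq hM
  obtain ⟨j', l', h1', _, h3'⟩ := YS_interval a q y₀ M₁' M₂' x' hA' hq hM'
  refine ⟨j, j', l, l', h3, h3', ?_⟩
  intro α β γ e
  rw [h1, h1']
  unfold cnt
  symm
  apply Finset.card_bij (fun t _ => (y₀ + q * t.1, y₀ + q * t.2))
  · rintro ⟨s, t⟩ hst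
    obtain ⟨hm, hd⟩ := Finset.mem_filter.1 hst
    obtain ⟨hs, ht⟩ := Finset.mem_product.1 hm
    exact Finset.mem_filter.2 ⟨Finset.mem_product.2 ⟨Finset.mem_image_of_mem _ hs,
      Finset.mem_image_of_mem _ ht⟩, hd⟩
  · rintro ⟨s, t⟩ _ ⟨s', t'⟩ _ h
    have ha := congrArg Prod.fst h
    have hb := congrArg Prod.snd h
    exact Prod.ext (aff_inj y₀ hq ha) (aff_inj y₀ hq hb)
  · rintro ⟨s, t⟩ hst
    obtain ⟨hm, hd⟩ := Finset.mem_filter.1 hst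
    obtain ⟨hs, ht⟩ := Finset.mem_product.1 hm
    obtain ⟨η, hη, rfl⟩ := Finset.mem_image.1 hs
    obtain ⟨η', hη', rfl⟩ := Finset.mem_image.1 ht
    exact ⟨(η, η'), Finset.mem_filter.2 ⟨Finset.mem_product.2 ⟨hη, hη'⟩, hd⟩, rfl⟩

end Pool.Agent.MKA
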