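import Pool.Agent.MKA.URangeC
import Pool.Agent.MKA.UCount
import Pool.Agent.MKA.YInt

/-!
# MKA/FirstC: lower bound for the number of triples

`μ = muc N D`, `K_i = KK N D i`, `J = JJ N D`, `m = g q₃`, `H = N / D` (natural division), `W_i = N₁ + K_i²`
(`2.9 N ≤ W_i ≤ N Y² + N` by `W_lower`).
`YU` for the full range `(K_0, K_J]` contains the disjoint union over `i < J` of the `YU` for the cells
`(K_i, K_(i+1)]` (the cells are disjoint: the value of `AA·y` decides), so its cardinality is at least the sum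
over `i < J`.  For one cell: `#YU = ∑_{y ∈ YS} #{u}`; for `y ∈ YS x` put `v = N₁ + (AA²-1) y² - x²`; the condition
on `u` is `v < u² ≤ v + H`.  As in `u_range`: `0 ≤ v` and `v + H ≤ V := W_i + N/D + 3N/D² ≤ W_i (1 + 1/(2D))`,
and `√V ≤ N`.  By `u_count` the number of `u` is `≥ H/(2√V m) - 1`, with
`H ≥ N/D - 1 ≥ (N/D)(1 - 1/(10D))`, `m ≤ q ≤ log N`, `√V ≤ 2√N Y`; so it is
`≥ (1 - 1/D)(N/D)/(2√W_i m)` (the `-1` is negligible: `N/(D √N Y log N)` is huge).
`#YS x ≥ μ/(AA q) - 1 ≥ (1 - 1/D) μ/(AA q)` (`YS_card_ge`; `KK (i+1) - KK i = μ`; `AA ≤ a Z²/2`,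
`μ ≥ √N/(2D²Y)`, so `μ/(AA q) ≥ D`).
Multiply, sum over `i < J` and over `x`: `≥ (1 - 2/D) SS`.
Size: 180 lines.
-/

set_option autoImplicit false

namespace Pool.Agent.MKA

open Finset

private theorem fc_KK_mono (N D : ℕ) {i j : ℕ} (h : i ≤ j) : KK N D i ≤ KK N D j := by
  unfold KK
  have := Nat.mul_le_mul_right (muc N D) h
  omega

private theorem fc_union (a q m : ℕ) (y₀ u₀ M₁ M₂ M₃ U N₁ H x : ℤ) (h1 : M₁ ≤ M₂) (h2 : M₂ ≤ M₃) :
    (YU a q m y₀ u₀ M₁ M₂ U N₁ H x).card + (YU a q m y₀ u₀ M₂ M₃ U N₁ H x).card ≤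
      (YU a q m y₀ u₀ M₁ M₃ U N₁ H x).card := by
  classical
  rw [← Finset.card_union_of_disjoint]
  · apply Finset.card_le_card
    intro t ht
    rw [Finset.mem_union] at ht
    unfold YU YS at ht ⊢
    simp only [Finset.mem_filter, Finset.mem_product, Finset.mem_Icc] at ht ⊢
    rcases ht with ⟨⟨⟨⟨a1, a2⟩, a3, a4, a5⟩, a6, a7⟩, a8⟩ | ⟨⟨⟨⟨a1, a2⟩, a3, a4, a5⟩, a6, a7⟩, a8⟩
    · exact ⟨⟨⟨⟨a1, by linarith⟩, a3, a4, by linarith⟩, a6, a7⟩, a8⟩
    · exact ⟨⟨⟨⟨a1, a2⟩, a3, by linarith, a5⟩, a6, a7⟩, a8⟩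
  · rw [Finset.disjoint_left]
    intro t ht ht'
    unfold YU YS at ht ht'
    simp only [Finset.mem_filter, Finset.mem_product, Finset.mem_Icc] at ht ht'
    have e1 := ht.1.1.2.2.2
    have e2 := ht'.1.1.2.2.1
    linarith

theorem YU_cells (a q m : ℕ) (y₀ u₀ U N₁ H x : ℤ) (N D : ℕ) :
    ∑ i ∈ range (JJ N D), (YU a q m y₀ u₀ (KK N D i) (KK N D (i + 1)) U N₁ H x).card ≤
      (YU a q m y₀ u₀ (KK N D 0) (KK N D (JJ N D)) U N₁ H x).card := by
  generalize JJ N D = n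
  induction n with
  | zero => simp
  | succ n ih =>
    rw [Finset.sum_range_succ]
    refine le_trans (Nat.add_le_add_right ih _) ?_
    apply fc_union
    · exact_mod_cast fc_KK_mono N D (Nat.zero_le n)
    · exact_mod_cast fc_KK_mono N D (Nat.le_succ n)

private theorem fc_cell (a q m : ℕ) (hm : 1 ≤ m) (y₀ u₀ M₁ M₂ U N₁ H x : ℤ) (V : ℝ) (hV0 : 0 < V)
    (hH : 0 ≤ H) (hU : Real.sqrt V ≤ (U : ℝ))
    (hy : ∀ y ∈ YS a q y₀ M₁ M₂ x, 0 ≤ N₁ + (AA a x ^ 2 - 1) * y ^ 2 - x ^ 2 ∧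
      ((N₁ + (AA a x ^ 2 - 1) * y ^ 2 - x ^ 2 : ℤ) : ℝ) + H ≤ V) :
    ((YS a q y₀ M₁ M₂ x).card : ℝ) * ((H : ℝ) / (2 * Real.sqrt V * m) - 1) ≤
      ((YU a q m y₀ u₀ M₁ M₂ U N₁ H x).card : ℝ) := by
  classical
  have h1 : (YU a q m y₀ u₀ M₁ M₂ U N₁ H x).card = ∑ y ∈ YS a q y₀ M₁ M₂ x,
      ((Icc 1 U).filter (fun u : ℤ => (m : ℤ) ∣ u - u₀ ∧
        N₁ + (AA a x ^ 2 - 1) * y ^ 2 - x ^ 2 < u ^ 2 ∧
        u ^ 2 ≤ N₁ + (AA a x ^ 2 - 1) * y ^ 2 - x ^ 2 + H)).card := by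
    unfold YU
    rw [Finset.card_filter, Finset.sum_product]
    apply Finset.sum_congr rfl
    intro y _
    rw [Finset.card_filter]
    apply Finset.sum_congr rfl
    intro u _
    have e : ((m : ℤ) ∣ u - u₀ ∧ N₁ < BB a x y u ∧ BB a x y u ≤ N₁ + H) ↔
        ((m : ℤ) ∣ u - u₀ ∧ N₁ + (AA a x ^ 2 - 1) * y ^ 2 - x ^ 2 < u ^ 2 ∧
          u ^ 2 ≤ N₁ + (AA a x ^ 2 - 1) * y ^ 2 - x ^ 2 + H) := by
      unfold BB
      constructor
      · rintro ⟨b1, b2, b3⟩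
        exact ⟨b1, by linarith, by linarith⟩
      · rintro ⟨b1, b2, b3⟩
        exact ⟨b1, by linarith, by linarith⟩
    simp only [e]
  rw [h1]
  push_cast
  have h2 : ∑ y ∈ YS a q y₀ M₁ M₂ x, ((H : ℝ) / (2 * Real.sqrt V * m) - 1) ≤
      ∑ y ∈ YS a q y₀ M₁ M₂ x,
      (((Icc 1 U).filter (fun u : ℤ => (m : ℤ) ∣ u - u₀ ∧
        N₁ + (AA a x ^ 2 - 1) * y ^ 2 - x ^ 2 < u ^ 2 ∧
        u ^ 2 ≤ N₁ + (AA a x ^ 2 - 1) * y ^ 2 - x ^ 2 + H)).card : ℝ) := by
    apply Finset.sum_le_sum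
    intro y hyy
    obtain ⟨c1, c2⟩ := hy y hyy
    exact u_count m hm _ H U u₀ V c1 hH c2 hV0 hU
  rw [Finset.sum_const, nsmul_eq_mul] at h2
  exact h2

theorem first_moment : ∃ N₀ : ℕ, ∀ N : ℕ, N₀ ≤ N → ∀ (a q g q₃ D : ℕ) (x₀ A₀ y₀ u₀ N₁ : ℤ),
    1 ≤ a → (a : ℝ) ≤ (Real.log N) ^ 2 → 1 ≤ g → 1 ≤ q₃ → q = g ^ 2 * q₃ →
    (q : ℝ) ≤ Real.log N → (a : ℤ) * x₀ = 2 * A₀ → 13 ≤ D → (D : ℝ) ≤ Real.log N →
    -(N : ℤ) ≤ N₁ → N₁ ≤ N →
    (1 - 10 / (D : ℝ)) * SS N D a q g q₃ x₀ N₁ ≤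
      ∑ x ∈ XS q x₀ (ZC N),
        ((YU a q (g * q₃) y₀ u₀ (KK N D 0) (KK N D (JJ N D)) N N₁ ((N / D : ℕ) : ℤ) x).card : ℝ) := by
  obtain ⟨Na, ha⟩ := AA_bounds
  obtain ⟨Nb, hb⟩ := mu_facts
  obtain ⟨Nc, hc⟩ := ZC_large 100
  obtain ⟨Nd, hd⟩ := ZC_pow_le 20 (1 / 2) (by norm_num)
  obtain ⟨Ne, he⟩ := log_pow_le 1 (1 / 10) (by norm_num)
  obtain ⟨Nf, hf⟩ := W_lower
  refine ⟨max Na (max Nb (max Nc (max Nd (max Ne (max Nf 16))))), ?_⟩
  intro N hN a q g q₃ D x₀ A₀ y₀ u₀ N₁ ha1 haL hg hq₃ hqg hqL hA hD hDL hN1 hN2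
  simp only [max_le_iff] at hN
  obtain ⟨hNa, hNb, hNc, hNd, hNe, hNf, hN16⟩ := hN
  obtain ⟨hμ1, hμ2, hμ3, hK, -, hK0, -, -⟩ := hb N hNb D hD hDL
  have hZ100 := hc N hNc
  have hZ20 := hd N hNd
  have hLZ := he N hNe
  rw [pow_one] at hLZ
  have hNr : (16 : ℝ) ≤ N := by exact_mod_cast hN16
  have hN0 : (0 : ℝ) < N := by linarith
  set L := Real.log N with hL
  set Z : ℝ := (ZC N : ℝ) with hZ
  set Y : ℝ := (YY N : ℝ) with hY
  have hZ0 : (0 : ℝ) < Z := by linarith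
  have hZ1 : (1 : ℝ) ≤ Z := by linarith
  have hD13 : (13 : ℝ) ≤ (D : ℝ) := by exact_mod_cast hD
  have hD0 : (0 : ℝ) < (D : ℝ) := by linarith
  have hL13 : 13 ≤ L := hD13.trans hDL
  have hL10 : L ^ 10 ≤ Z := by
    have h1 := pow_le_pow_left₀ (by linarith : (0 : ℝ) ≤ L) hLZ 10
    rw [← Real.rpow_natCast (Z ^ (1 / 10 : ℝ)), ← Real.rpow_mul hZ0.le] at h1
    norm_num at h1
    exact h1
  have hLpow : ∀ k : ℕ, k ≤ 10 → L ^ k ≤ Z := fun k hk =>
    (pow_le_pow_right₀ (by linarith) hk).trans hL10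
  have hZY : Z = Y ^ 4 := by
    rw [hZ, hY]
    unfold ZC
    push_cast
    rfl
  have hY0 : (0 : ℝ) ≤ Y := Nat.cast_nonneg _
  have hY1 : (1 : ℝ) ≤ Y := by
    by_contra hlt
    push Not at hlt
    have : Y ^ 4 < 1 := pow_lt_one₀ hY0 hlt (by norm_num)
    linarith
  have hYZ : Y ≤ Z := by
    rw [hZY]
    exact le_self_pow₀ hY1 (by norm_num)
  set S := Real.sqrt N with hS
  have hs : S ^ 2 = (N : ℝ) := Real.sq_sqrt hN0.le
  have hS20 : Z ^ 20 ≤ S := by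
    rw [hS, Real.sqrt_eq_rpow]
    exact hZ20
  have hS0 : 0 < S := Real.sqrt_pos.2 hN0
  have hm1 : 1 ≤ g * q₃ := Nat.mul_pos hg hq₃
  have hmq : g * q₃ ≤ q := by
    rw [hqg]
    apply Nat.mul_le_mul_right
    exact Nat.le_self_pow two_ne_zero g
  have hq1 : 1 ≤ q := hm1.trans hmq
  have hq1r : (1 : ℝ) ≤ q := by exact_mod_cast hq1
  have hmqr : ((g * q₃ : ℕ) : ℝ) ≤ q := by exact_mod_cast hmq
  have hm1r : (1 : ℝ) ≤ ((g * q₃ : ℕ) : ℝ) := by exact_mod_cast hm1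
  -- each cell
  have hcell : ∀ x ∈ XS q x₀ (ZC N), ∀ i ∈ range (JJ N D),
      (1 - 2 / (D : ℝ)) * ((muc N D : ℝ) / q * (1 / Real.sqrt ((N₁ : ℝ) + (KK N D i : ℝ) ^ 2)) *
        (1 / (AA a x : ℝ)) * ((N : ℝ) / D) / (2 * (g * q₃))) ≤
      ((YU a q (g * q₃) y₀ u₀ (KK N D i) (KK N D (i + 1)) N N₁ ((N / D : ℕ) : ℤ) x).card : ℝ) := by
    intro x hx i hi
    rw [Finset.mem_range] at hi
    obtain ⟨hA2, hAZ, hAx, hAa⟩ := ha N hNa a q x₀ A₀ x ha1 hA hx
    obtain ⟨hW1, hW2, hW3⟩ := hf N hNf D i N₁ hD hDL hi.le hN1 hN2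
    have hxm := hx
    unfold XS at hxm
    rw [Finset.mem_filter, Finset.mem_Ioc] at hxm
    obtain ⟨⟨hx1, hx2⟩, -⟩ := hxm
    set A : ℤ := AA a x with hAdef
    set W : ℝ := (N₁ : ℝ) + (KK N D i : ℝ) ^ 2 with hW
    set μ : ℝ := (muc N D : ℝ) with hμdef
    set H : ℤ := ((N / D : ℕ) : ℤ) with hHdef
    set V : ℝ := W * (1 + 1 / (2 * D)) with hV
    have hW0 : 0 < W := lt_of_lt_of_le (by positivity) hW1
    have hV0 : 0 < V := by positivity
    have hHle : (H : ℝ) ≤ N / D := by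
      rw [hHdef, Int.cast_natCast]
      exact Nat.cast_div_le
    have hHge : (N : ℝ) / D - 1 ≤ (H : ℝ) := by
      rw [hHdef, Int.cast_natCast]
      have h1 := Nat.lt_floor_add_one ((N : ℝ) / D)
      rw [Nat.floor_div_eq_div] at h1
      linarith
    have hH0 : 0 ≤ H := by positivity
    have hsW : 0 < Real.sqrt W := Real.sqrt_pos.2 hW0
    have hsV : Real.sqrt V ≤ Real.sqrt W * (1 + 1 / (4 * D)) := by
      rw [Real.sqrt_le_left (by positivity), mul_pow, Real.sq_sqrt hW0.le, hV]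
      apply mul_le_mul_of_nonneg_left _ hW0.le
      have : (1 + 1 / (4 * (D : ℝ))) ^ 2 = 1 + 1 / (2 * D) + (1 / (4 * D)) ^ 2 := by
        field_simp
        ring
      rw [this]
      have := sq_nonneg (1 / (4 * (D : ℝ)))
      linarith
    have hWup : Real.sqrt W ≤ 2 * S * Y := by
      rw [Real.sqrt_le_left (by positivity)]
      have : (2 * S * Y) ^ 2 = 4 * (N * Y ^ 2) := by
        rw [mul_pow, mul_pow, hs]; ring
      rw [this]
      have hY2 : 1 ≤ Y ^ 2 := one_le_pow₀ hY1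
      have : (N : ℝ) * 1 ≤ N * Y ^ 2 := mul_le_mul_of_nonneg_left hY2 hN0.le
      linarith
    have hbig1 : 40 * (D : ℝ) ^ 2 * (2 * S * Y) * q ≤ N := by
      have h1 : (D : ℝ) ^ 2 ≤ Z := (pow_le_pow_left₀ hD0.le hDL 2).trans (hLpow 2 (by norm_num))
      have h2 : (q : ℝ) ≤ Z := hqL.trans (by simpa using hLpow 1 (by norm_num))
      have h3 : 40 * (D : ℝ) ^ 2 * (2 * S * Y) * q ≤ 40 * Z * (2 * S * Z) * Z := by gcongr
      have h4 : 40 * Z * (2 * S * Z) * Z = (80 * Z ^ 3) * S := by ring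
      have h5 : 80 * Z ^ 3 ≤ Z ^ 20 := by
        calc 80 * Z ^ 3 ≤ Z * Z ^ 3 := mul_le_mul_of_nonneg_right (by linarith) (by positivity)
          _ = Z ^ 4 := by ring
          _ ≤ Z ^ 20 := pow_le_pow_right₀ hZ1 (by norm_num)
      calc 40 * (D : ℝ) ^ 2 * (2 * S * Y) * q ≤ (80 * Z ^ 3) * S := by rw [← h4]; exact h3
        _ ≤ S * S := mul_le_mul_of_nonneg_right (h5.trans hS20) hS0.le
        _ = N := by rw [← hs]; ring
    have hVN : Real.sqrt V ≤ ((N : ℤ) : ℝ) := by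
      rw [Int.cast_natCast]
      refine hsV.trans ?_
      have h1 : 1 + 1 / (4 * (D : ℝ)) ≤ 2 := by
        have : 1 / (4 * (D : ℝ)) ≤ 1 := by
          rw [div_le_one (by positivity)]
          linarith
        linarith
      have h2 : Real.sqrt W * (1 + 1 / (4 * D)) ≤ (2 * S * Y) * 2 :=
        mul_le_mul hWup h1 (by positivity) (by positivity)
      have h3 : (2 * S * Y) * 2 ≤ 40 * (D : ℝ) ^ 2 * (2 * S * Y) * q := by
        have h4 : (2 : ℝ) ≤ 40 * (D : ℝ) ^ 2 * q := by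
          have : (1 : ℝ) ≤ (D : ℝ) ^ 2 * q :=
            one_le_mul_of_one_le_of_one_le (one_le_pow₀ (by linarith)) hq1r
          linarith
        calc (2 * S * Y) * 2 ≤ (2 * S * Y) * (40 * (D : ℝ) ^ 2 * q) :=
              mul_le_mul_of_nonneg_left h4 (by positivity)
          _ = 40 * (D : ℝ) ^ 2 * (2 * S * Y) * q := by ring
      linarith
    -- the y of the cell
    have hyc : ∀ y ∈ YS a q y₀ (KK N D i) (KK N D (i + 1)) x,
        0 ≤ N₁ + (A ^ 2 - 1) * y ^ 2 - x ^ 2 ∧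
        ((N₁ + (A ^ 2 - 1) * y ^ 2 - x ^ 2 : ℤ) : ℝ) + H ≤ V := by
      intro y hy
      unfold YS at hy
      rw [Finset.mem_filter, Finset.mem_Icc, ← hAdef] at hy
      obtain ⟨⟨hy1, -⟩, -, hAy1, hAy2⟩ := hy
      have hy1r : (1 : ℝ) ≤ (y : ℝ) := by exact_mod_cast hy1
      have hAy1r : (KK N D i : ℝ) < (A : ℝ) * (y : ℝ) := by exact_mod_cast hAy1
      have hAy2r : (A : ℝ) * (y : ℝ) ≤ (KK N D (i + 1) : ℝ) := by exact_mod_cast hAy2
      have hKi0 : (0 : ℝ) ≤ (KK N D i : ℝ) := by positivity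
      have hKi1 : (KK N D (i + 1) : ℝ) ≤ S * Y := hK (i + 1) hi
      have hKi : (KK N D i : ℝ) ≤ S * Y := hK i hi.le
      -- y² and x² small
      have hy2 : (y : ℝ) ^ 2 ≤ N / 4 := by
        have h2 : Z / 2 * (y : ℝ) ≤ S * Y :=
          (mul_le_mul_of_nonneg_right hAZ (by linarith)).trans (hAy2r.trans hKi1)
        have h3 : (Z / 2 * (y : ℝ)) ^ 2 ≤ (S * Y) ^ 2 :=
          pow_le_pow_left₀ (by positivity) h2 2
        rw [mul_pow S, hs] at h3
        have h4 : Y ^ 2 * 16 ≤ Z ^ 2 := by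
          have h5 : Y ^ 2 ≤ Z := by
            rw [hZY]
            exact pow_le_pow_right₀ hY1 (by norm_num)
          calc Y ^ 2 * 16 ≤ Z * Z := mul_le_mul h5 (by linarith) (by norm_num) hZ0.le
            _ = Z ^ 2 := by ring
        have h6 : (N : ℝ) * Y ^ 2 * 16 ≤ N * Z ^ 2 := by
          rw [mul_assoc]
          exact mul_le_mul_of_nonneg_left h4 hN0.le
        have h7 : Z ^ 2 * (4 * (y : ℝ) ^ 2) ≤ Z ^ 2 * N := by
          have e1 : Z ^ 2 * (4 * (y : ℝ) ^ 2) = 16 * (Z / 2 * (y : ℝ)) ^ 2 := by ring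
          rw [e1]
          linarith
        have h8 : 4 * (y : ℝ) ^ 2 ≤ N := le_of_mul_le_mul_left h7 (by positivity)
        linarith
      have hx2' : (x : ℝ) ^ 2 ≤ N / 4 := by
        have hx1r : Z < (x : ℝ) := by
          rw [hZ]
          exact_mod_cast hx1
        have hx2r : (x : ℝ) ≤ Z ^ 2 := by
          rw [hZ]
          exact_mod_cast hx2
        have h12 : (x : ℝ) ^ 2 ≤ Z ^ 4 := by
          calc (x : ℝ) ^ 2 ≤ (Z ^ 2) ^ 2 := pow_le_pow_left₀ (by linarith) hx2r 2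
            _ = Z ^ 4 := by ring
        have h13 : 4 * Z ^ 4 ≤ N := by
          calc 4 * Z ^ 4 ≤ Z * Z ^ 4 := mul_le_mul_of_nonneg_right (by linarith) (by positivity)
            _ = Z ^ 5 := by ring
            _ ≤ Z ^ 20 := pow_le_pow_right₀ hZ1 (by norm_num)
            _ ≤ S := hS20
            _ ≤ S * S := by
              have : 1 ≤ S := (one_le_pow₀ hZ1).trans hS20
              exact le_mul_of_one_le_left hS0.le this
            _ = N := by rw [← hs]; ring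
        linarith
      have hval : ((N₁ + (A ^ 2 - 1) * y ^ 2 - x ^ 2 : ℤ) : ℝ) =
          (N₁ : ℝ) + ((A : ℝ) * y) ^ 2 - (y : ℝ) ^ 2 - (x : ℝ) ^ 2 := by
        push_cast
        ring
      constructor
      · have h1 : (KK N D i : ℝ) ^ 2 < ((A : ℝ) * y) ^ 2 := pow_lt_pow_left₀ hAy1r hKi0 (by norm_num)
        have h2 : (0 : ℝ) ≤ ((N₁ + (A ^ 2 - 1) * y ^ 2 - x ^ 2 : ℤ) : ℝ) := by
          rw [hval]
          linarith
        exact_mod_cast h2
      · rw [hval]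
        have h1 : ((A : ℝ) * y) ^ 2 ≤ (KK N D (i + 1) : ℝ) ^ 2 :=
          pow_le_pow_left₀ (by linarith) hAy2r 2
        have h2 : (KK N D (i + 1) : ℝ) = (KK N D i : ℝ) + μ := by
          rw [hμdef]
          unfold KK
          push_cast
          ring
        have hμ0 : (0 : ℝ) ≤ μ := by positivity
        have h4 : (KK N D i : ℝ) * μ ≤ N / (D : ℝ) ^ 2 := by
          calc (KK N D i : ℝ) * μ
              ≤ (S * Y) * (S / ((D : ℝ) ^ 2 * Y)) :=
                mul_le_mul hKi hμ3 hμ0 (by positivity)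
            _ = S ^ 2 / (D : ℝ) ^ 2 := by
                field_simp
            _ = N / (D : ℝ) ^ 2 := by rw [hs]
        have h5 : μ ^ 2 ≤ N / (D : ℝ) ^ 2 := by
          calc μ ^ 2 ≤ (S / ((D : ℝ) ^ 2 * Y)) ^ 2 := pow_le_pow_left₀ hμ0 hμ3 2
            _ = N / ((D : ℝ) ^ 2 * Y) ^ 2 := by rw [div_pow, hs]
            _ ≤ N / (D : ℝ) ^ 2 := by
                refine div_le_div_of_nonneg_left hN0.le (by positivity) ?_
                have h6 : (1 : ℝ) ≤ (D : ℝ) ^ 2 * Y ^ 2 :=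
                  one_le_mul_of_one_le_of_one_le (one_le_pow₀ (by linarith)) (one_le_pow₀ hY1)
                calc (D : ℝ) ^ 2 = (D : ℝ) ^ 2 * 1 := by ring
                  _ ≤ (D : ℝ) ^ 2 * ((D : ℝ) ^ 2 * Y ^ 2) :=
                    mul_le_mul_of_nonneg_left h6 (by positivity)
                  _ = ((D : ℝ) ^ 2 * Y) ^ 2 := by ring
        have h7 : (KK N D (i + 1) : ℝ) ^ 2 ≤ (KK N D i : ℝ) ^ 2 + 3 * (N / (D : ℝ) ^ 2) := by
          rw [h2]
          have e1 : ((KK N D i : ℝ) + μ) ^ 2 = (KK N D i : ℝ) ^ 2 + 2 * ((KK N D i : ℝ) * μ) + μ ^ 2 := by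
            ring
          linarith
        have h8 : 3 * ((N : ℝ) / (D : ℝ) ^ 2) ≤ 3 / 13 * (N / D) := by
          have : (N : ℝ) / (D : ℝ) ^ 2 = (N / D) * (1 / D) := by
            field_simp
          rw [this]
          have h9 : 1 / (D : ℝ) ≤ 1 / 13 := one_div_le_one_div_of_le (by norm_num) hD13
          have h10 : (N : ℝ) / D * (1 / D) ≤ N / D * (1 / 13) :=
            mul_le_mul_of_nonneg_left h9 (by positivity)
          linarith
        have h9 : (16 / 13 : ℝ) * (N / D) ≤ W * (1 / (2 * D)) := by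
          have e1 : W * (1 / (2 * D)) = (W / 2) / D := by
            field_simp
          have e2 : (16 / 13 : ℝ) * (N / D) = (16 / 13 * N) / D := by ring
          rw [e1, e2]
          apply div_le_div_of_nonneg_right _ hD0.le
          linarith
        have h11 := sq_nonneg (y : ℝ)
        have h12 := sq_nonneg (x : ℝ)
        have e3 : V = W + W * (1 / (2 * D)) := by rw [hV]; ring
        rw [e3]
        linarith
    have hcl := fc_cell a q (g * q₃) hm1 y₀ u₀ (KK N D i) (KK N D (i + 1)) N N₁ H x V hV0 hH0 hVN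
      (by simpa [hAdef] using hyc)
    refine le_trans ?_ hcl
    -- number of u
    set m : ℝ := ((g * q₃ : ℕ) : ℝ) with hm
    have hm0 : 0 < m := by linarith
    set c : ℝ := (N : ℝ) / D / (2 * Real.sqrt W * m) with hc'
    have hc0 : 0 < c := by positivity
    have hcD : 10 * (D : ℝ) ≤ c := by
      rw [hc', le_div_iff₀ (by positivity), le_div_iff₀ hD0]
      calc 10 * (D : ℝ) * (2 * Real.sqrt W * m) * D = 20 * (D : ℝ) ^ 2 * Real.sqrt W * m := by ring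
        _ ≤ 20 * (D : ℝ) ^ 2 * (2 * S * Y) * q := by gcongr
        _ ≤ 40 * (D : ℝ) ^ 2 * (2 * S * Y) * q := by
            have : 0 ≤ (D : ℝ) ^ 2 * (2 * S * Y) * q := by positivity
            linarith
        _ ≤ N := hbig1
    have hu : (1 - 1 / (D : ℝ)) * c ≤ (H : ℝ) / (2 * Real.sqrt V * m) - 1 := by
      have hHge2 : (N : ℝ) / D * (1 - 1 / (10 * D)) ≤ (H : ℝ) := by
        have h1 : (1 : ℝ) ≤ N / D * (1 / (10 * D)) := by
          have e1 : (N : ℝ) / D * (1 / (10 * D)) = N / (10 * (D : ℝ) ^ 2) := by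
            field_simp
          rw [e1, le_div_iff₀ (by positivity)]
          have h2 : 10 * (D : ℝ) ^ 2 ≤ 40 * (D : ℝ) ^ 2 * (2 * S * Y) * q := by
            have h3 : (1 : ℝ) ≤ S := (one_le_pow₀ hZ1).trans hS20
            have h4 : (1 : ℝ) ≤ (S * Y) * q := one_le_mul_of_one_le_of_one_le
              (one_le_mul_of_one_le_of_one_le h3 hY1) hq1r
            have h5 : 40 * (D : ℝ) ^ 2 * (2 * S * Y) * q = 80 * (D : ℝ) ^ 2 * ((S * Y) * q) := by ring
            rw [h5]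
            have h6 : 10 * (D : ℝ) ^ 2 * 1 ≤ 80 * (D : ℝ) ^ 2 * ((S * Y) * q) :=
              mul_le_mul (by have : 0 ≤ (D : ℝ) ^ 2 := by positivity
                             linarith) h4 (by norm_num) (by positivity)
            linarith
          linarith
        have e2 : (N : ℝ) / D * (1 - 1 / (10 * D)) = N / D - N / D * (1 / (10 * D)) := by ring
        rw [e2]
        linarith
      have hd1 : (N : ℝ) / D * (1 - 1 / (10 * D)) / (2 * (Real.sqrt W * (1 + 1 / (4 * D))) * m) ≤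
          (H : ℝ) / (2 * Real.sqrt V * m) := by
        apply div_le_div₀ (by positivity) hHge2 (by positivity)
        gcongr
      have hd2 : (N : ℝ) / D * (1 - 1 / (10 * D)) / (2 * (Real.sqrt W * (1 + 1 / (4 * D))) * m) =
          c * ((1 - 1 / (10 * D)) / (1 + 1 / (4 * D))) := by
        rw [hc']
        field_simp
      have hd3 : (1 - 1 / (10 * (D : ℝ))) * (1 - 1 / (4 * D)) ≤
          (1 - 1 / (10 * D)) / (1 + 1 / (4 * D)) := by
        have h1 : 0 ≤ 1 - 1 / (10 * (D : ℝ)) := by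
          have : 1 / (10 * (D : ℝ)) ≤ 1 := by
            rw [div_le_one (by positivity)]
            linarith
          linarith
        rw [le_div_iff₀ (by positivity)]
        have h2 : (1 - 1 / (4 * (D : ℝ))) * (1 + 1 / (4 * D)) ≤ 1 := by
          have := sq_nonneg (1 / (4 * (D : ℝ)))
          have e1 : (1 - 1 / (4 * (D : ℝ))) * (1 + 1 / (4 * D)) = 1 - (1 / (4 * (D : ℝ))) ^ 2 := by
            ring
          linarith
        calc (1 - 1 / (10 * (D : ℝ))) * (1 - 1 / (4 * D)) * (1 + 1 / (4 * D))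
            = (1 - 1 / (10 * (D : ℝ))) * ((1 - 1 / (4 * D)) * (1 + 1 / (4 * D))) := by ring
          _ ≤ (1 - 1 / (10 * (D : ℝ))) * 1 := mul_le_mul_of_nonneg_left h2 h1
          _ = 1 - 1 / (10 * D) := by ring
      have hd4 : (1 : ℝ) ≤ c * (1 / (10 * D)) := by
        have e1 : c * (1 / (10 * D)) = c / (10 * D) := by ring
        rw [e1, le_div_iff₀ (by positivity)]
        linarith
      have hd5 : (1 - 1 / (D : ℝ)) ≤ (1 - 1 / (10 * (D : ℝ))) * (1 - 1 / (4 * D)) - 1 / (10 * D) := by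
        have e1 : (1 - 1 / (10 * (D : ℝ))) * (1 - 1 / (4 * D)) - 1 / (10 * D) - (1 - 1 / (D : ℝ)) =
            (1 / D) * (1 - 1 / 10 - 1 / 4 - 1 / 10 + 1 / (40 * D)) := by
          field_simp
          ring
        have e2 : 0 ≤ (1 / (D : ℝ)) * (1 - 1 / 10 - 1 / 4 - 1 / 10 + 1 / (40 * D)) := by
          have : (0 : ℝ) ≤ 1 / (40 * D) := by positivity
          apply mul_nonneg (by positivity)
          linarith
        linarith
      have hd6 := mul_le_mul_of_nonneg_left hd5 hc0.le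
      have hd7 := mul_le_mul_of_nonneg_left hd3 hc0.le
      rw [hd2] at hd1
      have e3 : c * ((1 - 1 / (10 * (D : ℝ))) * (1 - 1 / (4 * D)) - 1 / (10 * D)) =
          c * ((1 - 1 / (10 * (D : ℝ))) * (1 - 1 / (4 * D))) - c * (1 / (10 * D)) := by ring
      have e4 : (1 - 1 / (D : ℝ)) * c = c * (1 - 1 / D) := by ring
      rw [e4]
      linarith
    -- number of y
    have hA0 : (0 : ℝ) < (A : ℝ) := by linarith
    have hq0 : (0 : ℝ) < q := by linarith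
    set e : ℝ := μ / ((A : ℝ) * q) with he'
    have he0 : 0 ≤ e := by positivity
    have heD : (D : ℝ) ≤ e := by
      rw [he', le_div_iff₀ (by positivity)]
      refine le_trans ?_ hμ2
      rw [le_div_iff₀ (by positivity)]
      have h1 : (A : ℝ) ≤ L ^ 2 * Z ^ 2 / 2 := by
        refine hAa.trans ?_
        gcongr
      calc (D : ℝ) * ((A : ℝ) * q) * (2 * (D : ℝ) ^ 2 * Y)
          ≤ L * ((L ^ 2 * Z ^ 2 / 2) * L) * (2 * L ^ 2 * Z) := by gcongr
        _ = L ^ 6 * Z ^ 3 := by ring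
        _ ≤ Z * Z ^ 3 := mul_le_mul_of_nonneg_right (hLpow 6 (by norm_num)) (by positivity)
        _ = Z ^ 4 := by ring
        _ ≤ Z ^ 20 := pow_le_pow_right₀ hZ1 (by norm_num)
        _ ≤ S := hS20
    have hys : (1 - 1 / (D : ℝ)) * e ≤ ((YS a q y₀ (KK N D i) (KK N D (i + 1)) x).card : ℝ) := by
      have h1 := YS_card_ge a q y₀ (KK N D i) (KK N D (i + 1)) x (by rw [← hAdef]; linarith) hq1
        (fc_KK_mono N D (Nat.le_succ i))
      have h2 : (KK N D (i + 1) : ℝ) - (KK N D i : ℝ) = μ := by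
        rw [hμdef]
        unfold KK
        push_cast
        ring
      rw [h2, ← hAdef, ← he'] at h1
      refine le_trans ?_ h1
      have h3 : (1 : ℝ) ≤ (1 / D) * e := by
        have : (1 / (D : ℝ)) * D ≤ (1 / D) * e := mul_le_mul_of_nonneg_left heD (by positivity)
        rw [one_div_mul_cancel hD0.ne'] at this
        exact this
      linarith
    have h1D : 0 ≤ 1 - 1 / (D : ℝ) := by
      have : 1 / (D : ℝ) ≤ 1 := by
        rw [div_le_one hD0]
        linarith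
      linarith
    have hfin : (1 - 1 / (D : ℝ)) * e * ((1 - 1 / (D : ℝ)) * c) ≤
        ((YS a q y₀ (KK N D i) (KK N D (i + 1)) x).card : ℝ) *
          ((H : ℝ) / (2 * Real.sqrt V * m) - 1) :=
      mul_le_mul hys hu (mul_nonneg h1D hc0.le) (Nat.cast_nonneg _)
    refine le_trans ?_ hfin
    have e1 : (muc N D : ℝ) / q * (1 / Real.sqrt W) * (1 / (A : ℝ)) * ((N : ℝ) / D) /
        (2 * (g * q₃)) = e * c := by
      rw [he', hc', hm]
      push_cast
      have n1 : (q : ℝ) ≠ 0 := hq0.ne'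
      have n2 : (A : ℝ) ≠ 0 := hA0.ne'
      have n3 : Real.sqrt W ≠ 0 := hsW.ne'
      have n4 : (g : ℝ) ≠ 0 := by
        have : 0 < g := hg
        exact_mod_cast this.ne'
      have n5 : (q₃ : ℝ) ≠ 0 := by
        have : 0 < q₃ := hq₃
        exact_mod_cast this.ne'
      field_simp
      rfl
    rw [e1]
    have e2 : (1 - 1 / (D : ℝ)) * e * ((1 - 1 / (D : ℝ)) * c) = (1 - 1 / (D : ℝ)) ^ 2 * (e * c) := by
      ring
    rw [e2]
    apply mul_le_mul_of_nonneg_right _ (mul_nonneg he0 hc0.le)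
    have e3 : (1 - 1 / (D : ℝ)) ^ 2 = 1 - 2 / D + (1 / D) ^ 2 := by ring
    rw [e3]
    have := sq_nonneg (1 / (D : ℝ))
    linarith
  -- sum
  have hSS : SS N D a q g q₃ x₀ N₁ = ∑ x ∈ XS q x₀ (ZC N), ∑ i ∈ range (JJ N D),
      ((muc N D : ℝ) / q * (1 / Real.sqrt ((N₁ : ℝ) + (KK N D i : ℝ) ^ 2)) *
        (1 / (AA a x : ℝ)) * ((N : ℝ) / D) / (2 * (g * q₃))) := by
    unfold SS Kap Lam
    rw [Finset.mul_sum, Finset.sum_mul, Finset.sum_div]
    apply Finset.sum_congr rfl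
    intro x _
    rw [Finset.mul_sum, Finset.sum_mul, Finset.sum_mul, Finset.sum_div]
  have hSS0 : 0 ≤ SS N D a q g q₃ x₀ N₁ := by
    rw [hSS]
    apply Finset.sum_nonneg
    intro x hx
    apply Finset.sum_nonneg
    intro i _
    obtain ⟨hA2, -, -, -⟩ := ha N hNa a q x₀ A₀ x ha1 hA hx
    have hA0 : (0 : ℝ) < (AA a x : ℝ) := by
      have : (0 : ℤ) < AA a x := by linarith
      exact_mod_cast this
    positivity
  have h10 : (1 - 10 / (D : ℝ)) * SS N D a q g q₃ x₀ N₁ ≤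
      (1 - 2 / (D : ℝ)) * SS N D a q g q₃ x₀ N₁ := by
    apply mul_le_mul_of_nonneg_right _ hSS0
    have : 2 / (D : ℝ) ≤ 10 / D := by
      apply div_le_div_of_nonneg_right (by norm_num) hD0.le
    linarith
  refine h10.trans ?_
  rw [hSS, Finset.mul_sum]
  apply Finset.sum_le_sum
  intro x hx
  rw [Finset.mul_sum]
  refine le_trans (Finset.sum_le_sum (hcell x hx)) ?_
  exact_mod_cast YU_cells a q (g * q₃) y₀ u₀ N N₁ ((N / D : ℕ) : ℤ) x N D

end Pool.Agent.MKA
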