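import Pool.Agent.MKA.CoreAC
import Pool.Agent.MKA.CoreBC
import Pool.Agent.MKA.FirstC
import Pool.Agent.MKA.DiagC
import Pool.Agent.MKA.CS

/-!
# MKA/CoreC: one window, one residue class

From `ClassData a q b₀` take `g, q₃, x₀, y₀, u₀, A₀, c₀`.  `C₁` from `orders` (`C₁ ≥ 1`, so `a ≤ (log N)²`).
`MM = MM N D a q q₃ x₀ N₁`, `SS = SS N D a q g q₃ x₀ N₁`.
`S₁ = ∑_x #YU x`, `S₂ = ∑_{x,x'} #PXX x x'` (over `XS q x₀ (ZC N)`, `m = g q₃`, `U = N`, `H = N/D`, range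
`(KK 0, KK (JJ)]`), `V = vals`.  `cauchy`: `S₁² ≤ #V · S₂`.  `first_moment`: `S₁ ≥ S_* := (1-10/D) SS`.
`S₂ = ∑_x #PXX x x + ∑_x ∑_{x' ≠ x} ≤ S₁ + N Z^(-1/4) + (1+C/√w) MM + N^(24/25) ≤ S₁ + (1 + (C+2)/√w) MM`
(`diag_bound`, `offdiag`, `orders`).
With `c = (1+(C+2)/√w) MM`, `t ↦ t²/(t+c)` is increasing on `t ≥ 0`, so (for `D ≥ 13`)
`#V ≥ S₁²/(S₁+c) ≥ S_*²/(S_*+c) ≥ (1-10/D)² SS²/((1 + (C+3)/√w) MM) = (1-10/D)²/(1+(C+3)/√w) · N/(Dq)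
≥ (1 - C''/√w) N/(Dq)` (`1/D ≤ 1/√w`).  By `vals_spec` all elements of `V` are `≡ b₀ mod q`, solvable, and in
`(N₁, N₁+H]`; the number of `b ∈ (N₁, N₁+H]` with `q ∣ b - b₀` is at most `H/q + 1 ≤ N/(Dq) + 1`.  Subtract.
Size: 150 lines.
-/

set_option autoImplicit false

namespace Pool.Agent.MKA

open Finset

/-- Number of elements of a residue class in an interval. -/
theorem core_class_card (N₁ b₀ : ℤ) (q H : ℕ) (hq : 1 ≤ q) :
    (((Ioc N₁ (N₁ + (H : ℤ))).filter (fun b : ℤ => (q : ℤ) ∣ b - b₀)).card : ℝ) ≤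
      (H : ℝ) / q + 1 := by
  have hqz : (0 : ℤ) < q := by exact_mod_cast hq
  have hqr : (0 : ℝ) < q := by exact_mod_cast hq
  have h1 : (Ioc N₁ (N₁ + (H : ℤ))).filter (fun b : ℤ => (q : ℤ) ∣ b - b₀) ⊆
      (Icc ((N₁ - b₀) / q + 1) ((N₁ + H - b₀) / q)).image (fun k : ℤ => b₀ + q * k) := by
    intro b hb
    rw [mem_filter, mem_Ioc] at hb
    obtain ⟨⟨hb1, hb2⟩, k, hk⟩ := hb
    rw [mem_image]
    refine ⟨k, ?_, by linarith⟩
    rw [mem_Icc]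
    constructor
    · have : (N₁ - b₀) / q < k := by
        apply Int.ediv_lt_of_lt_mul hqz
        rw [mul_comm]; linarith
      omega
    · apply Int.le_ediv_of_mul_le hqz
      rw [mul_comm]; linarith
  have h2 := card_le_card h1
  have h3 := h2.trans card_image_le
  rw [Int.card_Icc] at h3
  have h4 : ((N₁ + H - b₀) / q : ℤ) + 1 - ((N₁ - b₀) / q + 1) ≤ (H : ℤ) / q + 1 := by
    have e : N₁ + H - b₀ = (N₁ - b₀) + H := by ring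
    rw [e]
    have hd1 := Int.emod_add_mul_ediv (N₁ - b₀) q
    have hd2 := Int.emod_add_mul_ediv (H : ℤ) q
    have hd3 := Int.emod_add_mul_ediv (N₁ - b₀ + H) q
    have hr1 := Int.emod_lt_of_pos (N₁ - b₀) hqz
    have hr2 := Int.emod_lt_of_pos (H : ℤ) hqz
    have hr3 := Int.emod_nonneg (N₁ - b₀ + H) hqz.ne'
    by_contra hcon
    push Not at hcon
    have : (q : ℤ) * ((N₁ - b₀ + H) / q) ≥ q * ((N₁ - b₀) / q + (H : ℤ) / q + 2) := by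
      apply mul_le_mul_of_nonneg_left _ hqz.le
      omega
    nlinarith
  have h5 : ((((Ioc N₁ (N₁ + (H : ℤ))).filter (fun b : ℤ => (q : ℤ) ∣ b - b₀)).card : ℕ) : ℤ) ≤
      (H : ℤ) / q + 1 := by
    have h6 : (0 : ℤ) ≤ (H : ℤ) / q + 1 := by positivity
    omega
  have h7 : ((((Ioc N₁ (N₁ + (H : ℤ))).filter (fun b : ℤ => (q : ℤ) ∣ b - b₀)).card : ℕ) : ℝ) ≤
      (((H : ℤ) / q + 1 : ℤ) : ℝ) := by exact_mod_cast h5
  refine h7.trans ?_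
  push_cast
  have h8 : (((H : ℤ) / (q : ℤ) : ℤ) : ℝ) ≤ (H : ℝ) / q := by
    rw [le_div_iff₀ hqr]
    have h9 : (H : ℤ) / (q : ℤ) * q ≤ H := Int.ediv_mul_le _ hqz.ne'
    exact_mod_cast h9
  linarith

/-- The final inequality. -/
theorem core_ineq (V S₁ S₂ SS MM n C s D : ℝ) (hV : 0 ≤ V) (hMM : 0 < MM) (hSS : 0 < SS)
    (hn : 0 < n) (hC : 0 < C) (hs : 0 < s) (hD : 13 ≤ D) (hDs : 1 / D ≤ s)
    (hcs : S₁ ^ 2 ≤ V * S₂) (hfirst : (1 - 10 / D) * SS ≤ S₁)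
    (hS₂ : S₂ ≤ S₁ + (1 + (C + 2) * s) * MM) (hSM : SS ≤ s * MM) (hSS2 : SS ^ 2 = MM * n) :
    n * (1 - (C + 23) * s) ≤ V := by
  have hD0 : 0 < D := by linarith
  set r := 1 - 10 / D with hr
  have h10 : 10 / D ≤ 10 / 13 := by
    rw [div_le_div_iff₀ hD0 (by norm_num)]; linarith
  have hr0 : 0 < r := by rw [hr]; linarith
  have hr1 : r ≤ 1 := by
    have : 0 < 10 / D := by positivity
    rw [hr]; linarith
  set T := r * SS with hT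
  have hT0 : 0 < T := mul_pos hr0 hSS
  set c := (1 + (C + 2) * s) * MM with hc
  have hc0 : 0 < c := by positivity
  have hS0 : 0 < S₁ := lt_of_lt_of_le hT0 hfirst
  have h1 : S₁ ^ 2 ≤ V * (S₁ + c) := hcs.trans (mul_le_mul_of_nonneg_left hS₂ hV)
  have h2 : T ^ 2 * (S₁ + c) ≤ S₁ ^ 2 * (T + c) := by
    have h3 : T ^ 2 * S₁ ≤ S₁ ^ 2 * T := by
      have : T * (T * S₁) ≤ S₁ * (T * S₁) := mul_le_mul_of_nonneg_right hfirst (by positivity)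
      nlinarith
    have h4 : T ^ 2 * c ≤ S₁ ^ 2 * c := by
      apply mul_le_mul_of_nonneg_right _ hc0.le
      exact pow_le_pow_left₀ hT0.le hfirst 2
    nlinarith
  have h5 : T ^ 2 ≤ V * (T + c) := by
    have h6 : T ^ 2 * (S₁ + c) ≤ V * (T + c) * (S₁ + c) := by
      calc T ^ 2 * (S₁ + c) ≤ S₁ ^ 2 * (T + c) := h2
        _ ≤ V * (S₁ + c) * (T + c) := mul_le_mul_of_nonneg_right h1 (by positivity)
        _ = V * (T + c) * (S₁ + c) := by ring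
    exact le_of_mul_le_mul_right h6 (by positivity)
  have h7 : T + c ≤ (1 + (C + 3) * s) * MM := by
    have h8 : T ≤ s * MM := by
      refine le_trans ?_ hSM
      rw [hT]
      exact mul_le_of_le_one_left hSS.le hr1
    rw [hc]
    nlinarith
  have h9 : r ^ 2 * n ≤ V * (1 + (C + 3) * s) := by
    have h10 : r ^ 2 * n * MM ≤ V * (1 + (C + 3) * s) * MM := by
      calc r ^ 2 * n * MM = T ^ 2 := by rw [hT, mul_pow, hSS2]; ring
        _ ≤ V * (T + c) := h5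
        _ ≤ V * ((1 + (C + 3) * s) * MM) := mul_le_mul_of_nonneg_left h7 hV
        _ = V * (1 + (C + 3) * s) * MM := by ring
    exact le_of_mul_le_mul_right h10 hMM
  have h11 : 1 - 20 * s ≤ r ^ 2 := by
    have h12 : 10 / D = 10 * (1 / D) := by ring
    have h13 : r = 1 - 10 * (1 / D) := by rw [hr, h12]
    have h14 : r ^ 2 = 1 - 20 * (1 / D) + 100 * (1 / D) ^ 2 := by rw [h13]; ring
    rw [h14]
    have : 0 ≤ 100 * (1 / D) ^ 2 := by positivity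
    linarith
  have h15 : n * (1 - (C + 23) * s) * (1 + (C + 3) * s) ≤ V * (1 + (C + 3) * s) := by
    refine le_trans ?_ h9
    have h16 : (1 - (C + 23) * s) * (1 + (C + 3) * s) ≤ r ^ 2 := by
      refine le_trans ?_ h11
      have : 0 ≤ (C + 23) * s * ((C + 3) * s) := by positivity
      nlinarith
    calc n * (1 - (C + 23) * s) * (1 + (C + 3) * s) = ((1 - (C + 23) * s) * (1 + (C + 3) * s)) * n := by
          ring
      _ ≤ r ^ 2 * n := mul_le_mul_of_nonneg_right h16 hn.le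
  exact le_of_mul_le_mul_right h15 (by positivity)

open Classical in
theorem core : ∃ C : ℝ, 0 < C ∧ ∃ C₁ : ℝ, 1 ≤ C₁ ∧ ∃ N₀ : ℕ, ∀ N : ℕ, N₀ ≤ N →
    ∀ (a q w D : ℕ) (b₀ N₁ : ℤ),
    1 ≤ a → 1 ≤ q → (q : ℝ) ≤ Real.log N → 13 ≤ w → w ≤ D → (D : ℝ) ≤ Real.log N →
    C₁ * a * (q : ℝ) ^ 2 * D ≤ (Real.log N) ^ 2 →
    (∀ p : ℕ, p.Prime → p ≤ w → p ∣ q) → ClassData a q b₀ →
    -(N : ℤ) ≤ N₁ → N₁ ≤ N →
    (((Ioc N₁ (N₁ + ((N / D : ℕ) : ℤ))).filter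
      (fun b : ℤ => (q : ℤ) ∣ b - b₀ ∧ ¬ Sol a b)).card : ℝ) ≤
      C / Real.sqrt w * ((N : ℝ) / (D * q)) + 1 := by
  obtain ⟨C, hC, Na, hoff⟩ := offdiag
  obtain ⟨C₁, hC₁, Nb, hord⟩ := orders
  obtain ⟨Nc, hfirst⟩ := first_moment
  obtain ⟨Nd, hdiag⟩ := diag_bound
  refine ⟨C + 23, by positivity, C₁, hC₁, Na + Nb + Nc + Nd + 1, ?_⟩
  intro N hN a q w D b₀ N₁ ha hq hqL hw hwD hDL hcond hp hcd hN₁ hN₁'
  obtain ⟨g, q₃, x₀, y₀, u₀, A₀, c₀, hg, hq₃, hqe, h2q₃, hrad, hA, hu, hc₀, hb₀⟩ := hcd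
  have hD13 : 13 ≤ D := hw.trans hwD
  have hNpos : (0 : ℝ) < N := by
    have : 0 < N := by omega
    exact_mod_cast this
  have har : (1 : ℝ) ≤ a := by exact_mod_cast ha
  have hqr : (1 : ℝ) ≤ q := by exact_mod_cast hq
  have hDr : (13 : ℝ) ≤ D := by exact_mod_cast hD13
  have haL : (a : ℝ) ≤ (Real.log N) ^ 2 := by
    refine le_trans ?_ hcond
    have h1 : (1 : ℝ) ≤ (q : ℝ) ^ 2 := one_le_pow₀ hqr
    have h2 : (1 : ℝ) ≤ C₁ * (q : ℝ) ^ 2 * D := by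
      have h3 : (1 : ℝ) ≤ C₁ * (q : ℝ) ^ 2 := one_le_mul_of_one_le_of_one_le hC₁ h1
      exact one_le_mul_of_one_le_of_one_le h3 (by linarith)
    calc (a : ℝ) ≤ a * (C₁ * (q : ℝ) ^ 2 * D) := le_mul_of_one_le_right (by linarith) h2
      _ = C₁ * a * (q : ℝ) ^ 2 * D := by ring
  obtain ⟨hMM, hSS, ho1, ho2, ho3, ho4⟩ := hord N (by omega) a q g q₃ w D x₀ A₀ N₁ ha hg hq₃ hqe hqL hA
    (by omega) hwD hD13 hDL hcond hN₁ hN₁'
  have hf := hfirst N (by omega) a q g q₃ D x₀ A₀ y₀ u₀ N₁ ha haL hg hq₃ hqe hqL hA hD13 hDL hN₁ hN₁'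
  have hd := hdiag N (by omega) a q (g * q₃) D x₀ A₀ y₀ u₀ N₁ ha haL hq hA hD13 hDL hN₁ hN₁'
  have ho := hoff N (by omega) a q g q₃ w D x₀ A₀ y₀ u₀ c₀ N₁ ha haL hg hq₃ hqe h2q₃ hrad hqL hA hu hc₀
    hw hwD hDL hp hN₁ hN₁'
  set M := MM N D a q q₃ x₀ N₁ with hMdef
  set S := SS N D a q g q₃ x₀ N₁ with hSdef
  set X := XS q x₀ (ZC N) with hX
  set k₀ : ℤ := ((KK N D 0 : ℕ) : ℤ) with hk₀
  set k₁ : ℤ := ((KK N D (JJ N D) : ℕ) : ℤ) with hk₁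
  set H : ℤ := ((N / D : ℕ) : ℤ) with hH
  have hcs := cauchy a q (g * q₃) y₀ u₀ k₀ k₁ N N₁ H X
  set V := vals a q (g * q₃) y₀ u₀ k₀ k₁ N N₁ H X with hV
  have hs0 : 0 < Real.sqrt w := Real.sqrt_pos.2 (by
    have : 0 < w := by omega
    exact_mod_cast this)
  have hwr : (13 : ℝ) ≤ w := by exact_mod_cast hw
  set s := 1 / Real.sqrt w with hs
  have hspos : 0 < s := by positivity
  have hDs : 1 / (D : ℝ) ≤ s := by
    rw [hs]
    apply one_div_le_one_div_of_le hs0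
    have h1 : Real.sqrt w ≤ w := by
      apply Real.sqrt_le_iff.2
      exact ⟨by linarith, le_self_pow₀ (by linarith) two_ne_zero⟩
    have h2 : (w : ℝ) ≤ D := by exact_mod_cast hwD
    linarith
  have hn : (0 : ℝ) < (N : ℝ) / (D * q) := by positivity
  have hS₂ : ∑ x ∈ X, ∑ x' ∈ X, ((PXX a q (g * q₃) y₀ u₀ k₀ k₁ N N₁ H x x').card : ℝ) ≤
      (∑ x ∈ X, ((YU a q (g * q₃) y₀ u₀ k₀ k₁ N N₁ H x).card : ℝ)) + (1 + (C + 2) * s) * M := by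
    have h1 : ∑ x ∈ X, ∑ x' ∈ X, ((PXX a q (g * q₃) y₀ u₀ k₀ k₁ N N₁ H x x').card : ℝ) =
        (∑ x ∈ X, ((PXX a q (g * q₃) y₀ u₀ k₀ k₁ N N₁ H x x).card : ℝ)) +
        ∑ x ∈ X, ∑ x' ∈ X.erase x, ((PXX a q (g * q₃) y₀ u₀ k₀ k₁ N N₁ H x x').card : ℝ) := by
      rw [← sum_add_distrib]
      apply sum_congr rfl
      intro x hx
      rw [add_sum_erase X (fun x' => ((PXX a q (g * q₃) y₀ u₀ k₀ k₁ N N₁ H x x').card : ℝ)) hx]
    rw [h1]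
    have e1 : M / Real.sqrt w = s * M := by rw [hs]; ring
    have e2 : C / Real.sqrt w = C * s := by rw [hs]; ring
    rw [e1] at ho1 ho2
    rw [e2] at ho
    linarith
  have hSM : S ≤ s * M := by
    have e1 : M / Real.sqrt w = s * M := by rw [hs]; ring
    rw [← e1]; exact ho3
  have hVge := core_ineq (V.card : ℝ) _ _ S M ((N : ℝ) / (D * q)) C s D (Nat.cast_nonneg _) hMM hSS hn hC
    hspos hDr hDs hcs hf hS₂ hSM ho4
  -- the classes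
  have hsub : V ∪ (Ioc N₁ (N₁ + H)).filter (fun b : ℤ => (q : ℤ) ∣ b - b₀ ∧ ¬ Sol a b) ⊆
      (Ioc N₁ (N₁ + H)).filter (fun b : ℤ => (q : ℤ) ∣ b - b₀) := by
    intro b hb
    rw [mem_union] at hb
    rcases hb with hb | hb
    · have h1 := vals_spec a q g q₃ x₀ A₀ y₀ u₀ c₀ b₀ k₀ k₁ N N₁ H (ZC N) hqe hA hu hb₀ b hb
      rw [mem_filter]
      refine ⟨?_, h1.1⟩
      rw [hV] at hb
      exact (mem_filter.1 hb).1
    · rw [mem_filter] at hb ⊢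
      exact ⟨hb.1, hb.2.1⟩
  have hdisj : Disjoint V ((Ioc N₁ (N₁ + H)).filter (fun b : ℤ => (q : ℤ) ∣ b - b₀ ∧ ¬ Sol a b)) := by
    rw [disjoint_left]
    intro b hb hb'
    have h1 := vals_spec a q g q₃ x₀ A₀ y₀ u₀ c₀ b₀ k₀ k₁ N N₁ H (ZC N) hqe hA hu hb₀ b hb
    exact (mem_filter.1 hb').2.2 h1.2
  have hcard := card_le_card hsub
  rw [card_union_of_disjoint hdisj] at hcard
  have hcl := core_class_card N₁ b₀ q (N / D) hq
  have hHn : (((N / D : ℕ) : ℝ)) / q ≤ (N : ℝ) / (D * q) := by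
    have h1 : ((N / D : ℕ) : ℝ) ≤ (N : ℝ) / D := Nat.cast_div_le
    calc (((N / D : ℕ) : ℝ)) / q ≤ (N : ℝ) / D / q := by gcongr
      _ = (N : ℝ) / (D * q) := by rw [div_div]
  have hcard' : (V.card : ℝ) +
      (((Ioc N₁ (N₁ + H)).filter (fun b : ℤ => (q : ℤ) ∣ b - b₀ ∧ ¬ Sol a b)).card : ℝ) ≤
      (((Ioc N₁ (N₁ + H)).filter (fun b : ℤ => (q : ℤ) ∣ b - b₀)).card : ℝ) := by
    exact_mod_cast hcard
  have e3 : (C + 23) / Real.sqrt w * ((N : ℝ) / (D * q)) =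
      (C + 23) * s * ((N : ℝ) / (D * q)) := by rw [hs]; ring
  rw [e3]
  have e4 : (N : ℝ) / (D * q) * (1 - (C + 23) * s) =
      (N : ℝ) / (D * q) - (C + 23) * s * ((N : ℝ) / (D * q)) := by ring
  rw [e4] at hVge
  linarith

end Pool.Agent.MKA
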