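import Pool.Agent.MK47.CntTriv
import Pool.Agent.MKA.BoxSqf

/-!
# The count of `(y, y')` in a box, in a class mod `Q`, with `f h ∣ A y² - B y'² + C`

`h` squarefree, odd, prime to `f Q` and to `A B C`: split along the residues modulo `f`
(`cnt_split`), parametrise (`box_param`) and apply `box_sqf` modulo `h`.
-/

namespace Pool.Agent.MKA

open Finset Pool.Agent.MK47

/-- the local densities product `∏_{p ∣ h} (p + 1)` -/
noncomputable def PF (h : ℕ) : ℝ := ∏ p ∈ h.primeFactors, ((p : ℝ) + 1)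

/-- the error term of the count in a box of side `l` modulo the squarefree number `h` -/
noncomputable def Err (h : ℕ) (l : ℝ) : ℝ :=
  2 ^ h.primeFactors.card * h.divisors.card * (h : ℝ) ^ (3 / 4 : ℝ) *
    ((1 + Real.log h) ^ 2 + 2 * l * (1 + Real.log h) / h)

theorem PF_nonneg (h : ℕ) : 0 ≤ PF h := prod_nonneg fun p _ => by positivity

/-- **The count in a box for the modulus `f h`.** -/
theorem cnt_fh (A B C : ℤ) (Q f h : ℕ) (hQ : 0 < Q) (hf : 0 < f) (hsq : Squarefree h)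
    (h2 : ¬ 2 ∣ h) (hfQ : f.Coprime Q) (hfh : h.Coprime f) (hhQ : h.Coprime Q)
    (hu : Unit3 h A B C) (y0 : ℤ) (s s' L : ℕ) :
    (cnt A B C Q y0 (f * h) s s' L : ℝ) ≤ rho A B C f *
      (((L : ℝ) / (f * Q) + 1) ^ 2 * PF h / (h : ℝ) ^ 2 + Err h ((L : ℝ) / (f * Q) + 1)) := by
  classical
  have hh0 : h ≠ 0 := hsq.ne_zero
  have : NeZero h := ⟨hh0⟩
  have hhpos : 0 < h := Nat.pos_of_ne_zero hh0
  have hhr : (0 : ℝ) < h := by exact_mod_cast hhpos
  have hlog : 0 ≤ Real.log h := Real.log_natCast_nonneg h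
  apply cnt_split A B C Q f (f * h) hf y0 s s' L _ (dvd_mul_right _ _)
  intro r _ r' _ _
  obtain ⟨t, t', m, m', h1, h2', h3, h4, h5⟩ := box_param Q f hQ hf hfQ y0 r r' s s' L
    (fun v => ((f * h : ℕ) : ℤ) ∣ A * (v.1 : ℤ) ^ 2 - B * (v.2 : ℤ) ^ 2 + C)
  have hF : IsCoprime (h : ℤ) ((f * Q : ℕ) : ℤ) := by
    rw [Nat.isCoprime_iff_coprime]
    exact Nat.Coprime.mul_right hfh hhQ
  have hu' : Unit3 h A B (-C) := by
    intro p hp hph
    obtain ⟨u1, u2, u3⟩ := hu p hp hph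
    exact ⟨u1, u2, fun hd => u3 ((dvd_neg).1 hd)⟩
  have h6 := box_sqf (m := h) hsq h2 hu' hF hF (t : ℤ) (t' : ℤ) m m'
  have h7 : ((range m ×ˢ range m').filter fun q : ℕ × ℕ => ((f * h : ℕ) : ℤ) ∣
      A * ((t + f * Q * q.1 : ℕ) : ℤ) ^ 2 - B * ((t' + f * Q * q.2 : ℕ) : ℤ) ^ 2 + C).card ≤
      ((range m ×ˢ range m').filter fun q : ℕ × ℕ =>
      (h : ℤ) ∣ A * ((t : ℤ) + ((f * Q : ℕ) : ℤ) * q.1) ^ 2 -
        B * ((t' : ℤ) + ((f * Q : ℕ) : ℤ) * q.2) ^ 2 - -C).card := by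
    apply card_le_card
    intro q hq
    rw [mem_filter] at hq ⊢
    refine ⟨hq.1, ?_⟩
    have h8 : (h : ℤ) ∣
      A * ((t + f * Q * q.1 : ℕ) : ℤ) ^ 2 - B * ((t' + f * Q * q.2 : ℕ) : ℤ) ^ 2 + C :=
      dvd_trans ⟨(f : ℤ), by push_cast; ring⟩ hq.2
    have e : A * ((t : ℤ) + ((f * Q : ℕ) : ℤ) * q.1) ^ 2 -
        B * ((t' : ℤ) + ((f * Q : ℕ) : ℤ) * q.2) ^ 2 - -C =
        A * ((t + f * Q * q.1 : ℕ) : ℤ) ^ 2 - B * ((t' + f * Q * q.2 : ℕ) : ℤ) ^ 2 + C := by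
      push_cast
      ring
    rw [e]
    exact h8
  have h9 := h5.trans h7
  refine le_trans (by exact_mod_cast h9) (h6.trans ?_)
  have hm0 : (0 : ℝ) ≤ m := Nat.cast_nonneg _
  have hm0' : (0 : ℝ) ≤ m' := Nat.cast_nonneg _
  unfold Err
  apply add_le_add
  · apply div_le_div_of_nonneg_right _ (by positivity)
    apply mul_le_mul_of_nonneg_right _ (PF_nonneg h)
    rw [sq]
    apply mul_le_mul h1 h2' hm0' (by positivity)
  · apply mul_le_mul_of_nonneg_left _ (by positivity)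
    apply add_le_add le_rfl
    apply div_le_div_of_nonneg_right _ hhr.le
    apply mul_le_mul_of_nonneg_right _ (by linarith)
    linarith

end Pool.Agent.MKA
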