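import Pool.Agent.MKA.ConicSum

/-!
# MKA/Crt: exponential sums over conics modulo squarefree numbers
-/

set_option autoImplicit false

namespace Pool.Agent.MKA

open Finset ZMod

/-- the exponential sum over the conic `al u² - be v² = n` modulo `m` -/
noncomputable def EZ (m : ℕ) [NeZero m] (al be n k l : ℤ) : ℂ :=
  ∑ q ∈ con (al : ZMod m) (be : ZMod m) (n : ZMod m),
    stdAddChar ((k : ZMod m) * q.1 + (l : ZMod m) * q.2)

section crt

variable {m₁ m₂ : ℕ} [NeZero m₁] [NeZero m₂]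

private instance crtNe : NeZero (m₁ * m₂) := ⟨Nat.mul_ne_zero (NeZero.ne m₁) (NeZero.ne m₂)⟩

/-- the additive Chinese remainder map -/
private def cg (x : ZMod m₁ × ZMod m₂) : ZMod (m₁ * m₂) :=
  ((m₂ * x.1.val + m₁ * x.2.val : ℕ) : ZMod (m₁ * m₂))

private theorem cg_bij (h : m₁.Coprime m₂) : Function.Bijective (cg (m₁ := m₁) (m₂ := m₂)) := by
  rw [Fintype.bijective_iff_injective_and_card]
  constructor
  · rintro ⟨a, b⟩ ⟨a', b'⟩ hab
    unfold cg at hab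
    simp only at hab
    rw [ZMod.natCast_eq_natCast_iff] at hab
    have h1 : m₂ * a.val ≡ m₂ * a'.val [MOD m₁] := by
      have h2 := Nat.ModEq.of_mul_right m₂ hab
      have e1 : m₂ * a.val + m₁ * b.val ≡ m₂ * a.val [MOD m₁] := by
        unfold Nat.ModEq; rw [Nat.add_mul_mod_self_left]
      have e2 : m₂ * a'.val + m₁ * b'.val ≡ m₂ * a'.val [MOD m₁] := by
        unfold Nat.ModEq; rw [Nat.add_mul_mod_self_left]
      exact e1.symm.trans (h2.trans e2)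
    have h3 : m₁ * b.val ≡ m₁ * b'.val [MOD m₂] := by
      have h2 := Nat.ModEq.of_mul_left m₁ hab
      have e1 : m₂ * a.val + m₁ * b.val ≡ m₁ * b.val [MOD m₂] := by
        unfold Nat.ModEq; rw [Nat.mul_add_mod]
      have e2 : m₂ * a'.val + m₁ * b'.val ≡ m₁ * b'.val [MOD m₂] := by
        unfold Nat.ModEq; rw [Nat.mul_add_mod]
      exact e1.symm.trans (h2.trans e2)
    have h4 : a.val ≡ a'.val [MOD m₁] := Nat.ModEq.cancel_left_of_coprime h h1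
    have h5 : b.val ≡ b'.val [MOD m₂] := Nat.ModEq.cancel_left_of_coprime h.symm h3
    have h6 : a = a' := by
      rw [← ZMod.natCast_zmod_val a, ← ZMod.natCast_zmod_val a', ZMod.natCast_eq_natCast_iff]
      exact h4
    have h7 : b = b' := by
      rw [← ZMod.natCast_zmod_val b, ← ZMod.natCast_zmod_val b', ZMod.natCast_eq_natCast_iff]
      exact h5
    rw [h6, h7]
  · rw [Fintype.card_prod, ZMod.card, ZMod.card, ZMod.card]

private theorem cg_char (k : ℤ) (x : ZMod m₁ × ZMod m₂) :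
    (stdAddChar ((k : ZMod (m₁ * m₂)) * cg x) : ℂ) =
      stdAddChar ((k : ZMod m₁) * x.1) * stdAddChar ((k : ZMod m₂) * x.2) := by
  obtain ⟨a, b⟩ := x
  have e0 : (k : ZMod (m₁ * m₂)) * cg (a, b) =
      ((k * (m₂ * a.val + m₁ * b.val) : ℤ) : ZMod (m₁ * m₂)) := by
    unfold cg
    push_cast
    ring
  have e1 : (k : ZMod m₁) * a = ((k * a.val : ℤ) : ZMod m₁) := by
    push_cast
    rw [ZMod.natCast_zmod_val]
  have e2 : (k : ZMod m₂) * b = ((k * b.val : ℤ) : ZMod m₂) := by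
    push_cast
    rw [ZMod.natCast_zmod_val]
  simp only
  rw [e0, e1, e2, stdAddChar_coe, stdAddChar_coe, stdAddChar_coe, ← Complex.exp_add]
  congr 1
  have h1 : ((m₁ : ℕ) : ℂ) ≠ 0 := by exact_mod_cast NeZero.ne m₁
  have h2 : ((m₂ : ℕ) : ℂ) ≠ 0 := by exact_mod_cast NeZero.ne m₂
  push_cast
  field_simp

private theorem cg_con (h : m₁.Coprime m₂) (al be n : ℤ) (x y : ZMod m₁ × ZMod m₂) :
    (cg x, cg y) ∈ con (al : ZMod (m₁ * m₂)) (be : ZMod (m₁ * m₂)) (n : ZMod (m₁ * m₂)) ↔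
      (x.1, y.1) ∈ con ((al * m₂ ^ 2 : ℤ) : ZMod m₁) ((be * m₂ ^ 2 : ℤ) : ZMod m₁) (n : ZMod m₁) ∧
      (x.2, y.2) ∈ con ((al * m₁ ^ 2 : ℤ) : ZMod m₂) ((be * m₁ ^ 2 : ℤ) : ZMod m₂)
        (n : ZMod m₂) := by
  obtain ⟨a, b⟩ := x
  obtain ⟨c, d⟩ := y
  rw [mem_con, mem_con, mem_con]
  simp only
  have e0 : (al : ZMod (m₁ * m₂)) * cg (a, b) ^ 2 - (be : ZMod (m₁ * m₂)) * cg (c, d) ^ 2 =
      (n : ZMod (m₁ * m₂)) ↔ ((m₁ * m₂ : ℕ) : ℤ) ∣
      (al * (m₂ * a.val + m₁ * b.val) ^ 2 - be * (m₂ * c.val + m₁ * d.val) ^ 2 - n) := by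
    rw [← ZMod.intCast_zmod_eq_zero_iff_dvd, ← sub_eq_zero]
    unfold cg
    push_cast
    rfl
  have e1 : ((al * m₂ ^ 2 : ℤ) : ZMod m₁) * a ^ 2 - ((be * m₂ ^ 2 : ℤ) : ZMod m₁) * c ^ 2 =
      (n : ZMod m₁) ↔ (m₁ : ℤ) ∣
      (al * (m₂ * a.val + m₁ * b.val) ^ 2 - be * (m₂ * c.val + m₁ * d.val) ^ 2 - n) := by
    rw [← ZMod.intCast_zmod_eq_zero_iff_dvd, ← sub_eq_zero]
    push_cast
    rw [ZMod.natCast_zmod_val, ZMod.natCast_zmod_val, ZMod.natCast_self]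
    constructor
    · intro h3
      linear_combination h3
    · intro h3
      linear_combination h3
  have e2 : ((al * m₁ ^ 2 : ℤ) : ZMod m₂) * b ^ 2 - ((be * m₁ ^ 2 : ℤ) : ZMod m₂) * d ^ 2 =
      (n : ZMod m₂) ↔ (m₂ : ℤ) ∣
      (al * (m₂ * a.val + m₁ * b.val) ^ 2 - be * (m₂ * c.val + m₁ * d.val) ^ 2 - n) := by
    rw [← ZMod.intCast_zmod_eq_zero_iff_dvd, ← sub_eq_zero]
    push_cast
    rw [ZMod.natCast_zmod_val, ZMod.natCast_zmod_val, ZMod.natCast_self]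
    constructor
    · intro h3
      linear_combination h3
    · intro h3
      linear_combination h3
  rw [e0, e1, e2]
  push_cast
  constructor
  · intro h3
    exact ⟨dvd_trans (dvd_mul_right _ _) h3, dvd_trans (dvd_mul_left _ _) h3⟩
  · rintro ⟨h3, h4⟩
    exact (Nat.isCoprime_iff_coprime.2 h).mul_dvd h3 h4

/-- **multiplicativity** -/
theorem EZ_mul (h : m₁.Coprime m₂) (al be n k l : ℤ) :
    EZ (m₁ * m₂) al be n k l =
      EZ m₁ (al * m₂ ^ 2) (be * m₂ ^ 2) n k l * EZ m₂ (al * m₁ ^ 2) (be * m₁ ^ 2) n k l := by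
  classical
  unfold EZ
  rw [sum_mul_sum, ← sum_product']
  symm
  refine sum_bij (fun x _ => (cg (x.1.1, x.2.1), cg (x.1.2, x.2.2))) ?_ ?_ ?_ ?_
  · rintro ⟨⟨a, c⟩, ⟨b, d⟩⟩ hx
    rw [mem_product] at hx
    exact (cg_con h al be n (a, b) (c, d)).2 hx
  · rintro ⟨⟨a, c⟩, ⟨b, d⟩⟩ _ ⟨⟨a', c'⟩, ⟨b', d'⟩⟩ _ hxy
    simp only [Prod.mk.injEq] at hxy
    have h1 := (cg_bij h).1 hxy.1
    have h2 := (cg_bij h).1 hxy.2
    rw [Prod.mk.injEq] at h1 h2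
    rw [h1.1, h1.2, h2.1, h2.2]
  · rintro ⟨u, v⟩ hq
    obtain ⟨⟨a, b⟩, hu⟩ := (cg_bij h).2 u
    obtain ⟨⟨c, d⟩, hv⟩ := (cg_bij h).2 v
    refine ⟨((a, c), (b, d)), ?_, ?_⟩
    · rw [mem_product]
      rw [← hu, ← hv] at hq
      exact (cg_con h al be n (a, b) (c, d)).1 hq
    · simp only
      rw [hu, hv]
  · rintro ⟨⟨a, c⟩, ⟨b, d⟩⟩ _
    simp only
    rw [AddChar.map_add_eq_mul, AddChar.map_add_eq_mul, AddChar.map_add_eq_mul, cg_char, cg_char]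
    ring

end crt

end Pool.Agent.MKA
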