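import Mathlib

/-!
# MKA: almost every `b` is represented by `x² + y² + z² − a x y z` — definitions

Namespace `Pool.Agent.MKA`.  Everything here is elementary; no proofs in this file.
-/

set_option autoImplicit false

namespace Pool.Agent.MKA

open Finset

/-! ## The binary polynomial and its numbers of zeros -/

/-- The binary polynomial `α y² − β y'² + γ`. -/
def PP (α β γ y y' : ℤ) : ℤ := α * y ^ 2 - β * y' ^ 2 + γ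

/-- `rho α β γ n`: number of zeros of `α y² − β y'² + γ` modulo `n`. -/
def rho (α β γ : ℤ) (n : ℕ) : ℕ :=
  ((range n ×ˢ range n).filter
    (fun t : ℕ × ℕ => (n : ℤ) ∣ PP α β γ (t.1 : ℤ) (t.2 : ℤ))).card

/-- Number of points `(η, η')` of the box `[j, j+l) × [j', j'+l')` with
`n ∣ α (c₁ + qη)² − β (c₂ + qη')² + γ`. -/
noncomputable def cnt (α β γ c₁ c₂ : ℤ) (q : ℕ) (j j' : ℤ) (l l' n : ℕ) : ℕ :=
  ((Ico j (j + l) ×ˢ Ico j' (j' + l')).filter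
    (fun t : ℤ × ℤ => (n : ℤ) ∣ PP α β γ (c₁ + q * t.1) (c₂ + q * t.2))).card

/-- The exponential sum over the conic modulo `n`. -/
noncomputable def ES (α β γ : ℤ) (n : ℕ) [NeZero n] (ψ : AddChar (ZMod n) ℂ)
    (h k : ZMod n) : ℂ :=
  ∑ y : ZMod n, ∑ y' : ZMod n,
    if (α : ZMod n) * y ^ 2 - (β : ZMod n) * y' ^ 2 + (γ : ZMod n) = 0
      then ψ (h * y + k * y') else 0

/-- The geometric sum over an interval of integers. -/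
noncomputable def GJ (n : ℕ) [NeZero n] (j : ℤ) (l : ℕ) (h : ZMod n) : ℂ :=
  ∑ i ∈ Ico j (j + l), ZMod.stdAddChar (h * (i : ZMod n))

/-! ## The three parts of a modulus -/

/-- Bad part of `e`: prime powers of `e` at the primes dividing `n`. -/
def bpt (n : ℤ) (e : ℕ) : ℕ :=
  ∏ p ∈ e.primeFactors.filter (fun p : ℕ => (p : ℤ) ∣ n), p ^ e.factorization p

/-- Squarefree good part of `e`. -/
def rpt (n : ℤ) (e : ℕ) : ℕ :=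
  ∏ p ∈ e.primeFactors.filter (fun p : ℕ => ¬ (p : ℤ) ∣ n ∧ ¬ p ^ 2 ∣ e), p

/-- Powerful good part of `e`. -/
def gpt (n : ℤ) (e : ℕ) : ℕ :=
  ∏ p ∈ e.primeFactors.filter (fun p : ℕ => ¬ (p : ℤ) ∣ n ∧ p ^ 2 ∣ e),
    p ^ e.factorization p

/-- Integers `1 ≤ s ≤ B`, coprime to `2q`, all of whose prime factors divide `n`. -/
def bs (n : ℤ) (q B : ℕ) : Finset ℕ :=
  (Icc 1 B).filter (fun s => Nat.Coprime s (2 * q) ∧ ∀ p ∈ s.primeFactors, (p : ℤ) ∣ n)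

/-- The bad factor of the singular series. -/
noncomputable def Sb (α β γ : ℤ) (q B : ℕ) : ℝ :=
  ∑ s ∈ bs (α * β * γ) q B, (rho α β γ s : ℝ) / (s : ℝ) ^ 2

/-- `∏ (1 + c/p)` over the primes `p ∣ n` not dividing `2q`. -/
noncomputable def FP (c : ℝ) (q : ℕ) (n : ℤ) : ℝ :=
  ∏ p ∈ n.natAbs.primeFactors.filter (fun p : ℕ => ¬ p ∣ 2 * q), (1 + c / (p : ℝ))

/-- Number of divisors of `g` coprime to `2q`. -/
noncomputable def TG (q g : ℕ) : ℝ :=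
  ((g.divisors.filter (fun d => Nat.Coprime d (2 * q))).card : ℝ)

/-! ## The Markoff side -/

/-- `A = a x / 2`. -/
def AA (a : ℕ) (x : ℤ) : ℤ := a * x / 2

/-- The `x` used: `Z < x ≤ Z²`, `x ≡ x₀ mod 2q`. -/
noncomputable def XS (q : ℕ) (x₀ : ℤ) (Z : ℕ) : Finset ℤ :=
  (Ioc (Z : ℤ) ((Z : ℤ) ^ 2)).filter (fun x => (2 * q : ℤ) ∣ x - x₀)

/-- The `y` used: `y ≡ y₀ mod q`, `M₁ < A y ≤ M₂`. -/
noncomputable def YS (a q : ℕ) (y₀ M₁ M₂ : ℤ) (x : ℤ) : Finset ℤ :=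
  (Icc 1 M₂).filter (fun y => (q : ℤ) ∣ y - y₀ ∧ M₁ < AA a x * y ∧ AA a x * y ≤ M₂)

/-- The value represented: with `z = u + A y`, `2A = a x`, this is `x² + y² + z² − a x y z`. -/
def BB (a : ℕ) (x y u : ℤ) : ℤ := u ^ 2 - (AA a x ^ 2 - 1) * y ^ 2 + x ^ 2

/-- The pairs `(y, u)` over `x`: `y ∈ YS`, `1 ≤ u ≤ U`, `u ≡ u₀ mod m`, value in `(N₁, N₁+H]`. -/
noncomputable def YU (a q m : ℕ) (y₀ u₀ M₁ M₂ U N₁ H : ℤ) (x : ℤ) : Finset (ℤ × ℤ) :=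
  (YS a q y₀ M₁ M₂ x ×ˢ Icc 1 U).filter
    (fun t : ℤ × ℤ => (m : ℤ) ∣ t.2 - u₀ ∧ N₁ < BB a x t.1 t.2 ∧ BB a x t.1 t.2 ≤ N₁ + H)

/-- Pairs over `x` and `x'` with the same value. -/
noncomputable def PXX (a q m : ℕ) (y₀ u₀ M₁ M₂ U N₁ H : ℤ) (x x' : ℤ) : Finset ((ℤ × ℤ) × (ℤ × ℤ)) :=
  (YU a q m y₀ u₀ M₁ M₂ U N₁ H x ×ˢ YU a q m y₀ u₀ M₁ M₂ U N₁ H x').filter
    (fun t : (ℤ × ℤ) × (ℤ × ℤ) => BB a x t.1.1 t.1.2 = BB a x' t.2.1 t.2.2)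

/-- Solvability. -/
def Sol (a b : ℤ) : Prop := ∃ x y z : ℤ, x ^ 2 + y ^ 2 + z ^ 2 - a * x * y * z = b

/-- A nonsingular residue class solution modulo `q`. -/
def ClassData (a q : ℕ) (b : ℤ) : Prop :=
  ∃ (g q₃ : ℕ) (x₀ y₀ u₀ A₀ c₀ : ℤ),
    1 ≤ g ∧ 1 ≤ q₃ ∧ q = g ^ 2 * q₃ ∧ 2 ∣ q₃ ∧ (∀ p : ℕ, p.Prime → p ∣ q → p ∣ q₃) ∧
    (a : ℤ) * x₀ = 2 * A₀ ∧ 2 * u₀ = (g : ℤ) * c₀ ∧
    (∀ p : ℕ, p.Prime → p ∣ q → ¬ (p : ℤ) ∣ c₀) ∧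
    (q : ℤ) ∣ u₀ ^ 2 - (A₀ ^ 2 - 1) * y₀ ^ 2 + x₀ ^ 2 - b

/-! ## The parameters as functions of `N` -/

/-- `Z = ⌈exp((log N)^(9/10))⌉`. -/
noncomputable def ZZ (N : ℕ) : ℕ := ⌈Real.exp ((Real.log N) ^ (9 / 10 : ℝ))⌉₊

/-- `D = ⌊(log N)^(1/200)⌋`. -/
noncomputable def DD (N : ℕ) : ℕ := ⌊(Real.log N) ^ (1 / 200 : ℝ)⌋₊

/-- `H = ⌊N / D⌋`. -/
noncomputable def HH (N : ℕ) : ℕ := N / DD N

/-- `M₁ = 2 ⌊√N⌋`. -/
def MA (N : ℕ) : ℕ := 2 * Nat.sqrt N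

/-- `M₂ = M₁ + ⌊M₁ / D²⌋`. -/
noncomputable def MB (N : ℕ) : ℕ := MA N + MA N / (DD N) ^ 2

end Pool.Agent.MKA
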