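import Pool.Agent.MKA.Defs

/-!
# MKA/DefsC: parameters and cells (version with `|a| ≤ (log N)^(2-ε)`)

`Y = ⌈N^(1/16000)⌉`, `Z = Y⁴`.  `D` is a natural number with `13 ≤ D ≤ log N`.  The range of `A y` is
`(K₀, K_J]`, `K_i = 2⌊√N⌋ + i μ`, `μ = ⌊√N⌋ / (D² Y)` (natural division), cut into the cells
`(K_i, K_(i+1)]`; `K_J ≤ √N Y`.
-/

set_option autoImplicit false

namespace Pool.Agent.MKA

open Finset

/-- `Y = ⌈N^(1/16000)⌉`. -/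
noncomputable def YY (N : ℕ) : ℕ := ⌈(N : ℝ) ^ (1 / 16000 : ℝ)⌉₊

/-- `Z = Y⁴`. -/
noncomputable def ZC (N : ℕ) : ℕ := (YY N) ^ 4

/-- Length of a cell. -/
noncomputable def muc (N D : ℕ) : ℕ := Nat.sqrt N / (D ^ 2 * YY N)

/-- Number of cells. -/
noncomputable def JJ (N D : ℕ) : ℕ := Nat.sqrt N * (YY N - 2) / muc N D

/-- The cell boundaries. -/
noncomputable def KK (N D i : ℕ) : ℕ := 2 * Nat.sqrt N + i * muc N D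

/-- Pairs over `x` and `x'` with the same value, `A y ∈ (M₁, M₂]`, `A' y' ∈ (M₁', M₂']`. -/
noncomputable def PXC (a q m : ℕ) (y₀ u₀ M₁ M₂ M₁' M₂' U N₁ H : ℤ) (x x' : ℤ) :
    Finset ((ℤ × ℤ) × (ℤ × ℤ)) :=
  (YU a q m y₀ u₀ M₁ M₂ U N₁ H x ×ˢ YU a q m y₀ u₀ M₁' M₂' U N₁ H x').filter
    (fun t : (ℤ × ℤ) × (ℤ × ℤ) => BB a x t.1.1 t.1.2 = BB a x' t.2.1 t.2.2)

/-- `Λ = ∑ 1/A` over `x`. -/
noncomputable def Lam (N a q : ℕ) (x₀ : ℤ) : ℝ := ∑ x ∈ XS q x₀ (ZC N), 1 / (AA a x : ℝ)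

/-- `∑ 1/√(N₁ + K_i²)` over the cells. -/
noncomputable def Kap (N D : ℕ) (N₁ : ℤ) : ℝ :=
  ∑ i ∈ range (JJ N D), 1 / Real.sqrt ((N₁ : ℝ) + (KK N D i : ℝ) ^ 2)

/-- Expected number of pairs. -/
noncomputable def MM (N D a q q₃ : ℕ) (x₀ N₁ : ℤ) : ℝ :=
  ((muc N D : ℝ) / q) ^ 2 * ((N : ℝ) / D) / (4 * q₃) * (Kap N D N₁) ^ 2 * (Lam N a q x₀) ^ 2

/-- Expected number of triples. -/
noncomputable def SS (N D a q g q₃ : ℕ) (x₀ N₁ : ℤ) : ℝ :=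
  (muc N D : ℝ) / q * Kap N D N₁ * Lam N a q x₀ * ((N : ℝ) / D) / (2 * (g * q₃))

end Pool.Agent.MKA
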