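import Pool.Agent.MKA.Defs

/-!
# MKA/DivPair: divisor sums over pairs

`y ≠ y'` in `[1,M]`: `τ(|y²-y'²|) ≤ τ(|y-y'|) τ(y+y')` (`Nat.divisors_mul`, `card_image_le`; submultiplicativity).
The map `(y,y') ↦ (|y-y'|, y+y') ∈ [1,2M]²` is at most two to one, so the sum is at most
`2 (∑_{h ≤ 2M} τ(h))² ≤ 2 (2M(1 + log(2M)))²` (`∑_{h ≤ X} τ(h) = ∑_{d ≤ X} ⌊X/d⌋ ≤ X (1 + log X)`).
-/

set_option autoImplicit false

namespace Pool.Agent.MKA

open Finset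

theorem dp_tau_mul (m n : ℕ) : (m * n).divisors.card ≤ m.divisors.card * n.divisors.card := by
  rw [Nat.divisors_mul]
  exact Finset.card_mul_le

theorem dp_sum_tau (X : ℕ) :
    ∑ h ∈ Ioc 0 X, ((h.divisors.card : ℕ) : ℝ) ≤ X * (1 + Real.log X) := by
  have h1 : ∑ h ∈ Ioc 0 X, h.divisors.card = ∑ d ∈ Ioc 0 X, X / d := by
    have h2 : ∀ h ∈ Ioc 0 X, h.divisors.card = ((Ioc 0 X).filter (fun d => d ∣ h)).card := by
      intro h hh
      rw [mem_Ioc] at hh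
      congr 1
      ext d
      rw [Nat.mem_divisors, mem_filter, mem_Ioc]
      constructor
      · rintro ⟨hd, hne⟩
        exact ⟨⟨Nat.pos_of_dvd_of_pos hd hh.1, (Nat.le_of_dvd hh.1 hd).trans hh.2⟩, hd⟩
      · rintro ⟨_, hd⟩
        exact ⟨hd, hh.1.ne'⟩
    rw [sum_congr rfl h2]
    simp_rw [card_filter]
    rw [sum_comm]
    apply sum_congr rfl
    intro d _
    rw [← card_filter, Nat.Ioc_filter_dvd_card_eq_div]
  have h3 : ∑ h ∈ Ioc 0 X, ((h.divisors.card : ℕ) : ℝ) = ∑ d ∈ Ioc 0 X, ((X / d : ℕ) : ℝ) := by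
    exact_mod_cast h1
  rw [h3]
  have h4 : ∑ d ∈ Ioc 0 X, ((X / d : ℕ) : ℝ) ≤ ∑ d ∈ Ioc 0 X, (X : ℝ) * (d : ℝ)⁻¹ := by
    apply sum_le_sum
    intro d _
    rw [← div_eq_mul_inv]
    exact Nat.cast_div_le
  have h5 := harmonic_le_one_add_log X
  have h6 : ((harmonic X : ℚ) : ℝ) = ∑ d ∈ Ioc 0 X, (d : ℝ)⁻¹ := by
    rw [harmonic_eq_sum_Icc]
    push_cast
    rfl
  rw [h6] at h5
  refine h4.trans ?_
  rw [← mul_sum]
  exact mul_le_mul_of_nonneg_left h5 (Nat.cast_nonneg X)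

theorem div_pair (M : ℕ) (hM : 1 ≤ M) :
    ∑ t ∈ ((Icc (1 : ℤ) M) ×ˢ (Icc (1 : ℤ) M)).filter (fun t : ℤ × ℤ => t.1 ≠ t.2),
      (((t.1 ^ 2 - t.2 ^ 2).natAbs.divisors.card : ℕ) : ℝ) ≤
      8 * (M : ℝ) ^ 2 * (1 + Real.log (2 * M)) ^ 2 := by
  set S := (Icc (1 : ℤ) M) ×ˢ (Icc (1 : ℤ) M) with hS
  set τ : ℕ → ℝ := fun h => ((h.divisors.card : ℕ) : ℝ) with hτ
  set R := ∑ h ∈ Ioc 0 (2 * M), τ h with hR
  have hτ0 : ∀ h, 0 ≤ τ h := fun h => Nat.cast_nonneg _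
  -- one half
  have half : ∀ (P : ℤ × ℤ → Prop) [DecidablePred P],
      (∀ t, P t → t.1 ≠ t.2) →
      (∀ t, P t → ∀ t', P t' → (t.1 - t.2).natAbs = (t'.1 - t'.2).natAbs →
        t.1 + t.2 = t'.1 + t'.2 → t = t') →
      ∑ t ∈ S.filter P, (((t.1 ^ 2 - t.2 ^ 2).natAbs.divisors.card : ℕ) : ℝ) ≤ R ^ 2 := by
    intro P _ hP hinj
    set φ : ℤ × ℤ → ℕ × ℕ := fun t => ((t.1 - t.2).natAbs, (t.1 + t.2).natAbs) with hφ
    have h1 : ∑ t ∈ S.filter P, (((t.1 ^ 2 - t.2 ^ 2).natAbs.divisors.card : ℕ) : ℝ) ≤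
        ∑ t ∈ S.filter P, τ (φ t).1 * τ (φ t).2 := by
      apply sum_le_sum
      intro t _
      have e : (t.1 ^ 2 - t.2 ^ 2).natAbs = (t.1 - t.2).natAbs * (t.1 + t.2).natAbs := by
        rw [← Int.natAbs_mul]; congr 1; ring
      have h0 := dp_tau_mul (t.1 - t.2).natAbs (t.1 + t.2).natAbs
      rw [← e] at h0
      show _ ≤ ((((t.1 - t.2).natAbs).divisors.card : ℕ) : ℝ) *
        ((((t.1 + t.2).natAbs).divisors.card : ℕ) : ℝ)
      exact_mod_cast h0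
    have h2 : ∑ t ∈ S.filter P, τ (φ t).1 * τ (φ t).2 =
        ∑ u ∈ (S.filter P).image φ, τ u.1 * τ u.2 := by
      rw [sum_image]
      intro t ht t' ht' he
      have ht1 := (mem_filter.1 ht)
      have ht2 := (mem_filter.1 ht')
      have hm1 := mem_product.1 ht1.1
      have hm2 := mem_product.1 ht2.1
      rw [mem_Icc, mem_Icc] at hm1 hm2
      simp only [hφ, Prod.mk.injEq] at he
      apply hinj t ht1.2 t' ht2.2 he.1
      omega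
    have h3 : (S.filter P).image φ ⊆ (Ioc 0 (2 * M)) ×ˢ (Ioc 0 (2 * M)) := by
      intro u hu
      rw [mem_image] at hu
      obtain ⟨t, ht, rfl⟩ := hu
      rw [mem_filter] at ht
      have hm1 := mem_product.1 ht.1
      rw [mem_Icc, mem_Icc] at hm1
      have hne := hP t ht.2
      rw [mem_product, mem_Ioc, mem_Ioc]
      simp only [hφ]
      omega
    have h4 : ∑ u ∈ (S.filter P).image φ, τ u.1 * τ u.2 ≤
        ∑ u ∈ (Ioc 0 (2 * M)) ×ˢ (Ioc 0 (2 * M)), τ u.1 * τ u.2 :=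
      sum_le_sum_of_subset_of_nonneg h3 (fun u _ _ => mul_nonneg (hτ0 _) (hτ0 _))
    have h5 : ∑ u ∈ (Ioc 0 (2 * M)) ×ˢ (Ioc 0 (2 * M)), τ u.1 * τ u.2 = R ^ 2 := by
      rw [sum_product, sq, hR, sum_mul_sum]
    linarith
  have hsplit : S.filter (fun t : ℤ × ℤ => t.1 ≠ t.2) =
      S.filter (fun t : ℤ × ℤ => t.2 < t.1) ∪ S.filter (fun t : ℤ × ℤ => t.1 < t.2) := by
    ext t
    simp only [mem_union, mem_filter]
    constructor
    · rintro ⟨h1, h2⟩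
      rcases lt_or_gt_of_ne h2 with h | h
      · right; exact ⟨h1, h⟩
      · left; exact ⟨h1, h⟩
    · rintro (⟨h1, h2⟩ | ⟨h1, h2⟩)
      · exact ⟨h1, ne_of_gt h2⟩
      · exact ⟨h1, ne_of_lt h2⟩
  have hdisj : Disjoint (S.filter (fun t : ℤ × ℤ => t.2 < t.1))
      (S.filter (fun t : ℤ × ℤ => t.1 < t.2)) := by
    rw [disjoint_left]
    intro t h1 h2
    have h3 := (mem_filter.1 h1).2
    have h4 := (mem_filter.1 h2).2
    exact absurd (lt_trans h3 h4) (lt_irrefl _)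
  rw [hsplit, sum_union hdisj]
  have hA := half (fun t : ℤ × ℤ => t.2 < t.1) (fun t h => ne_of_gt h) (by
    intro t ht t' ht' h1 h2
    apply Prod.ext <;> omega)
  have hB := half (fun t : ℤ × ℤ => t.1 < t.2) (fun t h => ne_of_lt h) (by
    intro t ht t' ht' h1 h2
    apply Prod.ext <;> omega)
  have hR0 : 0 ≤ R := sum_nonneg (fun h _ => hτ0 h)
  have hRle : R ≤ (2 * M : ℕ) * (1 + Real.log (2 * M : ℕ)) := dp_sum_tau (2 * M)
  have hR2 : R ^ 2 ≤ ((2 * M : ℕ) * (1 + Real.log (2 * M : ℕ))) ^ 2 := pow_le_pow_left₀ hR0 hRle 2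
  have e : 8 * (M : ℝ) ^ 2 * (1 + Real.log (2 * M)) ^ 2 =
      2 * (((2 * M : ℕ) : ℝ) * (1 + Real.log (2 * M : ℕ))) ^ 2 := by
    push_cast
    ring
  rw [e]
  linarith

end Pool.Agent.MKA
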