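import Pool.Agent.MKA.RhoMul

/-!
# MKA/RhoBad: `rho` in general (helper99; proof by helper18)

`root_prime`: `p` odd prime, `p ∤ ε`: the number of `Y mod p^l` with `p^l ∣ ε Y² - c` is at most
`(l+1) p^⌊l/2⌋`.  Proof: if `Y₀` is one root, every root `Y` satisfies `p^l ∣ (Y-Y₀)(Y+Y₀)` (as
`p ∤ ε`).  For every `n` the number of `Y mod n` with `n ∣ (Y-Y₀)(Y+Y₀)` is at most the sum of
`gcd(s, n/s)` over the divisors `s` of `n`: with `s = gcd(n, Y-Y₀)` one has `n/s ∣ Y+Y₀`, so `Y` lies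
in one class modulo `lcm(s, n/s)`; and `gcd(s,n/s)^2 ∣ n`.

`rho_pp`: let `i = vv p α β = min(v_p(α), v_p(β))`, say `v_p(α) = i` (the other case is symmetric,
exchanging the roles of the two variables: `βY'² ≡ αY² + γ`).  For each of the `p^j` values of `Y'`
count the `Y mod p^j` with `p^j ∣ αY² - c`: at most `p^j` if `j ≤ i`; if `j > i`, then (if there is
one) `p^i ∣ c` and `p^(j-i) ∣ (α/p^i) Y² - c/p^i`, so `Y mod p^(j-i)` takes at most
`(j-i+1) p^⌊(j-i)/2⌋` values and `Y mod p^j` at most `p^i` times as many.  Divide by `p^(2j)`.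

`rho_crude`: for each `Y'` the number of `Y mod n` with `n ∣ αY² - c` is at most
`|α| τ(n) √n`: let `d = gcd(α,n)`, `n' = n/d`, `Y₀` a root; then `n' ∣ (Y-Y₀)(Y+Y₀)`; there are at
most `τ(n') √n'` such classes modulo `n'`, `d` times as many modulo `n`, and `d ≤ |α|`.
Multiply by `n`.
-/

set_option autoImplicit false

namespace Pool.Agent.MKA

open Finset

/-- `min(v_p(α), v_p(β))`. -/
def vv (p : ℕ) (α β : ℤ) : ℕ := min (padicValInt p α) (padicValInt p β)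

/-- The local bound for `rho (p^j) / p^(2j)`. -/
noncomputable def tt (p i j : ℕ) : ℝ :=
  if j ≤ i then 1 else ((j - i : ℕ) + 1 : ℝ) * (p : ℝ) ^ ((j - i) / 2) / (p : ℝ) ^ (j - i)

private theorem rb_fib (d m : ℕ) (hm : 0 < m) (P P' : ℕ → Prop) [DecidablePred P]
    [DecidablePred P'] (h : ∀ y, P y → P' (y % m)) :
    ((range (d * m)).filter P).card ≤ d * ((range m).filter P').card := by
  have h1 : ((range (d * m)).filter P).card ≤ (range d ×ˢ ((range m).filter P')).card := by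
    apply Finset.card_le_card_of_injOn (fun y => (y / m, y % m))
    · intro y hy
      rw [Finset.mem_coe, mem_filter, mem_range] at hy
      rw [Finset.mem_coe, mem_product, mem_filter, mem_range, mem_range]
      exact ⟨(Nat.div_lt_iff_lt_mul hm).2 hy.1, Nat.mod_lt _ hm, h y hy.2⟩
    · intro y _ y' _ hyy
      have e1 := congrArg Prod.fst hyy
      have e2 := congrArg Prod.snd hyy
      dsimp only at e1 e2
      rw [← Nat.div_add_mod y m, ← Nat.div_add_mod y' m, e1, e2]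
  rwa [card_product, card_range] at h1

private theorem rb_one (n s : ℕ) (hn : 0 < n) (hs : s ∣ n) (Y : ℤ) :
    ((range n).filter (fun y : ℕ => (s : ℤ) ∣ (y : ℤ) - Y ∧ ((n / s : ℕ) : ℤ) ∣ (y : ℤ) + Y)).card ≤
      Nat.gcd s (n / s) := by
  have hs0 : 0 < s := Nat.pos_of_dvd_of_pos hs hn
  have hns : 0 < n / s := Nat.div_pos (Nat.le_of_dvd hn hs) hs0
  have hL : 0 < Nat.lcm s (n / s) := Nat.lcm_pos hs0 hns
  have hprod : Nat.gcd s (n / s) * Nat.lcm s (n / s) = n := by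
    rw [Nat.gcd_mul_lcm, Nat.mul_div_cancel' hs]
  by_cases hne : ((range n).filter
      (fun y : ℕ => (s : ℤ) ∣ (y : ℤ) - Y ∧ ((n / s : ℕ) : ℤ) ∣ (y : ℤ) + Y)).Nonempty
  · obtain ⟨y₁, hy₁⟩ := hne
    rw [mem_filter] at hy₁
    have h1 := rb_fib (Nat.gcd s (n / s)) (Nat.lcm s (n / s)) hL
      (fun y : ℕ => (s : ℤ) ∣ (y : ℤ) - Y ∧ ((n / s : ℕ) : ℤ) ∣ (y : ℤ) + Y)
      (fun y : ℕ => y = y₁ % Nat.lcm s (n / s)) (by
        intro y hy
        have e1 : (s : ℤ) ∣ (y₁ : ℤ) - y := by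
          have := dvd_sub hy₁.2.1 hy.1
          rwa [show (y₁ : ℤ) - Y - (y - Y) = y₁ - y by ring] at this
        have e2 : ((n / s : ℕ) : ℤ) ∣ (y₁ : ℤ) - y := by
          have := dvd_sub hy₁.2.2 hy.2
          rwa [show (y₁ : ℤ) + Y - (y + Y) = y₁ - y by ring] at this
        rw [Int.natCast_dvd] at e1 e2
        have e3 := Nat.lcm_dvd e1 e2
        rw [← Int.natCast_dvd] at e3
        exact (Nat.modEq_iff_dvd.2 e3))
    rw [hprod] at h1
    refine h1.trans ?_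
    have h2 : ((range (Nat.lcm s (n / s))).filter
        (fun y : ℕ => y = y₁ % Nat.lcm s (n / s))).card ≤ 1 := by
      rw [Finset.card_le_one]
      intro a ha b hb
      rw [(mem_filter.1 ha).2, (mem_filter.1 hb).2]
    calc Nat.gcd s (n / s) * _ ≤ Nat.gcd s (n / s) * 1 := Nat.mul_le_mul_left _ h2
      _ = _ := mul_one _
  · rw [Finset.not_nonempty_iff_eq_empty.1 hne, card_empty]
    exact Nat.zero_le _

private theorem rb_sum (n : ℕ) (hn : 0 < n) (Y : ℤ) :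
    ((range n).filter (fun y : ℕ => (n : ℤ) ∣ ((y : ℤ) - Y) * ((y : ℤ) + Y))).card ≤
      ∑ s ∈ n.divisors, Nat.gcd s (n / s) := by
  classical
  refine (Finset.card_le_card (t := n.divisors.biUnion (fun s => (range n).filter
    (fun y : ℕ => (s : ℤ) ∣ (y : ℤ) - Y ∧ ((n / s : ℕ) : ℤ) ∣ (y : ℤ) + Y))) ?_).trans
    (Finset.card_biUnion_le.trans ?_)
  · intro y hy
    rw [mem_filter] at hy
    rw [mem_biUnion]
    have hs : Int.gcd (n : ℤ) ((y : ℤ) - Y) ∣ n := by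
      have := Int.gcd_dvd_left (a := (n : ℤ)) (b := (y : ℤ) - Y)
      exact_mod_cast this
    have hs0 : 0 < Int.gcd (n : ℤ) ((y : ℤ) - Y) := Nat.pos_of_dvd_of_pos hs hn
    refine ⟨Int.gcd (n : ℤ) ((y : ℤ) - Y), Nat.mem_divisors.2 ⟨hs, hn.ne'⟩, ?_⟩
    rw [mem_filter]
    refine ⟨hy.1, Int.gcd_dvd_right _ _, ?_⟩
    obtain ⟨s, hs'⟩ : ∃ s, s = Int.gcd (n : ℤ) ((y : ℤ) - Y) := ⟨_, rfl⟩
    rw [← hs'] at hs hs0 ⊢
    obtain ⟨m, hm⟩ := hs
    have hm' : n / s = m := by rw [hm, Nat.mul_div_cancel_left _ hs0]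
    rw [hm']
    obtain ⟨z, hz⟩ : (s : ℤ) ∣ (y : ℤ) - Y := by rw [hs']; exact Int.gcd_dvd_right _ _
    have hcop : IsCoprime (m : ℤ) z := by
      rw [Int.isCoprime_iff_gcd_eq_one]
      have e1 : (s : ℤ) * m = (n : ℤ) := by exact_mod_cast hm.symm
      have h1 : Int.gcd ((s : ℤ) * m) ((s : ℤ) * z) = s := by
        rw [e1, ← hz, ← hs']
      rw [Int.gcd_mul_left, Int.natAbs_natCast] at h1
      exact Nat.eq_of_mul_eq_mul_left hs0 (by rw [h1, mul_one])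
    have h2 := hy.2
    rw [hz, hm, Nat.cast_mul, mul_assoc] at h2
    have h3 := (mul_dvd_mul_iff_left (show (s : ℤ) ≠ 0 by exact_mod_cast hs0.ne')).1 h2
    exact hcop.dvd_of_dvd_mul_left h3
  · exact Finset.sum_le_sum fun s hs => rb_one n s hn (Nat.dvd_of_mem_divisors hs) Y

private theorem rb_gcd (n s : ℕ) (hs : s ∣ n) : Nat.gcd s (n / s) * Nat.gcd s (n / s) ∣ n := by
  have h1 := mul_dvd_mul (Nat.gcd_dvd_left s (n / s)) (Nat.gcd_dvd_right s (n / s))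
  rwa [Nat.mul_div_cancel' hs] at h1

theorem root_prime (p l : ℕ) (hp : p.Prime) (h2 : p ≠ 2) (ε c : ℤ) (hε : ¬ (p : ℤ) ∣ ε) :
    ((range (p ^ l)).filter (fun y : ℕ => ((p : ℤ) ^ l) ∣ ε * (y : ℤ) ^ 2 - c)).card ≤
      (l + 1) * p ^ (l / 2) := by
  have hcop : IsCoprime ((p : ℤ) ^ l) ε := by
    apply IsCoprime.pow_left
    exact (Nat.prime_iff_prime_int.1 hp).coprime_iff_not_dvd.2 hε
  by_cases hne : ((range (p ^ l)).filter
      (fun y : ℕ => ((p : ℤ) ^ l) ∣ ε * (y : ℤ) ^ 2 - c)).Nonempty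
  · obtain ⟨Y, hY⟩ := hne
    have hY := (mem_filter.1 hY).2
    have h1 : ((range (p ^ l)).filter (fun y : ℕ => ((p : ℤ) ^ l) ∣ ε * (y : ℤ) ^ 2 - c)).card ≤
        ((range (p ^ l)).filter
          (fun y : ℕ => ((p ^ l : ℕ) : ℤ) ∣ ((y : ℤ) - Y) * ((y : ℤ) + Y))).card := by
      apply Finset.card_le_card
      intro y hy
      rw [mem_filter] at hy ⊢
      refine ⟨hy.1, ?_⟩
      have h3 := dvd_sub hy.2 hY
      rw [show ε * (y : ℤ) ^ 2 - c - (ε * (Y : ℤ) ^ 2 - c) = ε * (((y : ℤ) - Y) * ((y : ℤ) + Y)) by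
        ring] at h3
      rw [Nat.cast_pow]
      exact hcop.dvd_of_dvd_mul_left h3
    refine h1.trans ((rb_sum (p ^ l) (pow_pos hp.pos l) Y).trans ?_)
    have h4 : ∀ s ∈ (p ^ l).divisors, Nat.gcd s (p ^ l / s) ≤ p ^ (l / 2) := by
      intro s hs
      have h5 := rb_gcd (p ^ l) s (Nat.dvd_of_mem_divisors hs)
      obtain ⟨k, hk, hk'⟩ := (Nat.dvd_prime_pow hp).1 ((dvd_mul_right _ _).trans h5)
      rw [hk', ← pow_add] at h5
      have h6 := (Nat.pow_dvd_pow_iff_le_right hp.one_lt).1 h5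
      rw [hk']
      exact Nat.pow_le_pow_right hp.pos (by omega)
    refine (Finset.sum_le_card_nsmul _ _ _ h4).trans ?_
    rw [Nat.divisors_prime_pow hp, card_map, card_range, smul_eq_mul]
  · rw [Finset.not_nonempty_iff_eq_empty.1 hne, card_empty]
    exact Nat.zero_le _

/-- number of roots of a quadratic congruence modulo a prime power -/
private theorem rb_pp (α c : ℤ) (hα : α ≠ 0) (p j : ℕ) (hp : p.Prime) (h2 : p ≠ 2) :
    (((range (p ^ j)).filter (fun y : ℕ => ((p ^ j : ℕ) : ℤ) ∣ α * (y : ℤ) ^ 2 - c)).card : ℝ) ≤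
      (p : ℝ) ^ j * tt p (padicValInt p α) j := by
  have hp0 : (0 : ℝ) < p := by exact_mod_cast hp.pos
  have : Fact p.Prime := ⟨hp⟩
  obtain ⟨i, hi⟩ : ∃ i, i = padicValInt p α := ⟨_, rfl⟩
  rw [← hi]
  unfold tt
  split_ifs with hji
  · rw [mul_one]
    have h1 := Finset.card_filter_le (range (p ^ j))
      (fun y : ℕ => ((p ^ j : ℕ) : ℤ) ∣ α * (y : ℤ) ^ 2 - c)
    rw [card_range] at h1
    exact_mod_cast h1
  · rw [not_le] at hji
    -- `α = p^i ε`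
    have hdv : ((p : ℤ) ^ i) ∣ α := by rw [hi]; exact padicValInt_dvd α
    obtain ⟨ε, hε⟩ := hdv
    have hε' : ¬ (p : ℤ) ∣ ε := by
      rintro ⟨z, hz⟩
      have h3 : ((p : ℤ) ^ (i + 1)) ∣ α := ⟨z, by rw [hε, hz, pow_succ]; ring⟩
      rw [padicValInt_dvd_iff] at h3
      rcases h3 with h3 | h3
      · exact hα h3
      · omega
    have key : ((range (p ^ j)).filter
        (fun y : ℕ => ((p ^ j : ℕ) : ℤ) ∣ α * (y : ℤ) ^ 2 - c)).card ≤
        p ^ i * ((j - i + 1) * p ^ ((j - i) / 2)) := by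
      by_cases hne : ((range (p ^ j)).filter
        (fun y : ℕ => ((p ^ j : ℕ) : ℤ) ∣ α * (y : ℤ) ^ 2 - c)).Nonempty
      · obtain ⟨Y, hY⟩ := hne
        have hY := (mem_filter.1 hY).2
        rw [Nat.cast_pow] at hY
        have hpij : (p : ℤ) ^ j = (p : ℤ) ^ i * (p : ℤ) ^ (j - i) := by
          rw [← pow_add]; congr 1; omega
        have hc : ((p : ℤ) ^ i) ∣ c := by
          have h4 : ((p : ℤ) ^ i) ∣ α * (Y : ℤ) ^ 2 - c :=
            (dvd_trans ⟨_, hpij⟩ hY)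
          have h5 : ((p : ℤ) ^ i) ∣ α * (Y : ℤ) ^ 2 := Dvd.dvd.mul_right ⟨ε, hε⟩ _
          have h6 := dvd_sub h5 h4
          rwa [sub_sub_cancel] at h6
        obtain ⟨c', hc'⟩ := hc
        have hpj : p ^ j = p ^ i * p ^ (j - i) := by
          rw [← pow_add]; congr 1; omega
        have h7 := rb_fib (p ^ i) (p ^ (j - i)) (pow_pos hp.pos _)
          (fun y : ℕ => ((p ^ j : ℕ) : ℤ) ∣ α * (y : ℤ) ^ 2 - c)
          (fun y : ℕ => ((p : ℤ) ^ (j - i)) ∣ ε * (y : ℤ) ^ 2 - c') (by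
            intro y hy
            rw [Nat.cast_pow, hpij, hε, hc', show (p : ℤ) ^ i * ε * (y : ℤ) ^ 2 - (p : ℤ) ^ i * c' =
              (p : ℤ) ^ i * (ε * (y : ℤ) ^ 2 - c') by ring] at hy
            have h8 := (mul_dvd_mul_iff_left (show (p : ℤ) ^ i ≠ 0 by
              exact pow_ne_zero _ (by exact_mod_cast hp.ne_zero))).1 hy
            have h9 : ((p : ℤ) ^ (j - i)) ∣ (y : ℤ) - ((y % p ^ (j - i) : ℕ) : ℤ) := by
              rw [Int.natCast_mod, Nat.cast_pow]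
              exact Int.dvd_self_sub_emod
            have h10 : ((p : ℤ) ^ (j - i)) ∣
                (ε * (y : ℤ) ^ 2 - c') - (ε * ((y % p ^ (j - i) : ℕ) : ℤ) ^ 2 - c') := by
              rw [show (ε * (y : ℤ) ^ 2 - c') - (ε * ((y % p ^ (j - i) : ℕ) : ℤ) ^ 2 - c') =
                ((y : ℤ) - ((y % p ^ (j - i) : ℕ) : ℤ)) *
                  (ε * ((y : ℤ) + ((y % p ^ (j - i) : ℕ) : ℤ))) by ring]
              exact Dvd.dvd.mul_right h9 _
            exact (dvd_sub_right h8).1 h10)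
        rw [← hpj] at h7
        refine h7.trans (Nat.mul_le_mul_left _ ?_)
        exact root_prime p (j - i) hp h2 ε c' hε'
      · rw [Finset.not_nonempty_iff_eq_empty.1 hne, card_empty]
        exact Nat.zero_le _
    have key' : (((range (p ^ j)).filter
        (fun y : ℕ => ((p ^ j : ℕ) : ℤ) ∣ α * (y : ℤ) ^ 2 - c)).card : ℝ) ≤
        (p : ℝ) ^ i * (((j - i : ℕ) + 1 : ℝ) * (p : ℝ) ^ ((j - i) / 2)) := by
      exact_mod_cast key
    refine key'.trans (le_of_eq ?_)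
    have hpj : (p : ℝ) ^ j = (p : ℝ) ^ i * (p : ℝ) ^ (j - i) := by
      rw [← pow_add]; congr 1; omega
    rw [hpj]
    have h11 : (p : ℝ) ^ (j - i) ≠ 0 := (pow_pos hp0 _).ne'
    field_simp

private theorem rb_rho (α β γ : ℤ) (n : ℕ) : rho α β γ n =
    ∑ y' ∈ range n, ((range n).filter
      (fun y : ℕ => (n : ℤ) ∣ α * (y : ℤ) ^ 2 - (β * (y' : ℤ) ^ 2 - γ))).card := by
  unfold rho
  rw [Finset.card_filter, Finset.sum_product_right]
  refine Finset.sum_congr rfl fun y' _ => ?_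
  rw [Finset.card_filter]
  refine Finset.sum_congr rfl fun y _ => ?_
  have : PP α β γ (y : ℤ) (y' : ℤ) = α * (y : ℤ) ^ 2 - (β * (y' : ℤ) ^ 2 - γ) := by
    unfold PP; ring
  dsimp only
  rw [this]

private theorem rb_rho' (α β γ : ℤ) (n : ℕ) : rho α β γ n =
    ∑ y ∈ range n, ((range n).filter
      (fun y' : ℕ => (n : ℤ) ∣ β * (y' : ℤ) ^ 2 - (α * (y : ℤ) ^ 2 + γ))).card := by
  unfold rho
  rw [Finset.card_filter, Finset.sum_product]
  refine Finset.sum_congr rfl fun y _ => ?_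
  rw [Finset.card_filter]
  refine Finset.sum_congr rfl fun y' _ => ?_
  have : β * (y' : ℤ) ^ 2 - (α * (y : ℤ) ^ 2 + γ) = - PP α β γ (y : ℤ) (y' : ℤ) := by
    unfold PP; ring
  exact if_congr (by dsimp only; rw [this, dvd_neg]) rfl rfl

theorem rho_pp (α β γ : ℤ) (hα : α ≠ 0) (hβ : β ≠ 0) (p j : ℕ) (hp : p.Prime) (h2 : p ≠ 2) :
    (rho α β γ (p ^ j) : ℝ) / ((p : ℝ) ^ j) ^ 2 ≤ tt p (vv p α β) j := by
  have hp0 : (0 : ℝ) < p := by exact_mod_cast hp.pos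
  have hpj : (0 : ℝ) < (p : ℝ) ^ j := pow_pos hp0 j
  rw [div_le_iff₀ (pow_pos hpj 2)]
  unfold vv
  rcases le_total (padicValInt p α) (padicValInt p β) with h | h
  · rw [min_eq_left h, rb_rho, Nat.cast_sum]
    have h3 : ∀ y' ∈ range (p ^ j), (((range (p ^ j)).filter (fun y : ℕ =>
        ((p ^ j : ℕ) : ℤ) ∣ α * (y : ℤ) ^ 2 - (β * (y' : ℤ) ^ 2 - γ))).card : ℝ) ≤
        (p : ℝ) ^ j * tt p (padicValInt p α) j := fun y' _ =>
      rb_pp α (β * (y' : ℤ) ^ 2 - γ) hα p j hp h2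
    refine (Finset.sum_le_card_nsmul _ _ _ h3).trans (le_of_eq ?_)
    rw [card_range, nsmul_eq_mul, Nat.cast_pow]
    ring
  · rw [min_eq_right h, rb_rho', Nat.cast_sum]
    have h3 : ∀ y ∈ range (p ^ j), (((range (p ^ j)).filter (fun y' : ℕ =>
        ((p ^ j : ℕ) : ℤ) ∣ β * (y' : ℤ) ^ 2 - (α * (y : ℤ) ^ 2 + γ))).card : ℝ) ≤
        (p : ℝ) ^ j * tt p (padicValInt p β) j := fun y _ =>
      rb_pp β (α * (y : ℤ) ^ 2 + γ) hβ p j hp h2
    refine (Finset.sum_le_card_nsmul _ _ _ h3).trans (le_of_eq ?_)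
    rw [card_range, nsmul_eq_mul, Nat.cast_pow]
    ring

private theorem rb_gen (α c : ℤ) (hα : α ≠ 0) (n : ℕ) (hn : 1 ≤ n) :
    (((range n).filter (fun y : ℕ => (n : ℤ) ∣ α * (y : ℤ) ^ 2 - c)).card : ℝ) ≤
      |(α : ℝ)| * (n.divisors.card : ℝ) * (n : ℝ) ^ (1 / 2 : ℝ) := by
  have hn0 : (0 : ℝ) < n := by exact_mod_cast hn
  by_cases hne : ((range n).filter (fun y : ℕ => (n : ℤ) ∣ α * (y : ℤ) ^ 2 - c)).Nonempty
  · obtain ⟨Y, hY⟩ := hne
    have hY := (mem_filter.1 hY).2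
    obtain ⟨d, hd⟩ : ∃ d, d = Int.gcd α (n : ℤ) := ⟨_, rfl⟩
    have hdn : d ∣ n := by
      have := Int.gcd_dvd_right (a := α) (b := (n : ℤ))
      rw [← hd] at this
      exact_mod_cast this
    have hd0 : 0 < d := Nat.pos_of_dvd_of_pos hdn hn
    obtain ⟨m, hm⟩ := hdn
    have hm0 : 0 < m := by
      rcases Nat.eq_zero_or_pos m with h | h
      · rw [h, mul_zero] at hm; omega
      · exact h
    obtain ⟨α', hα'⟩ : (d : ℤ) ∣ α := by rw [hd]; exact Int.gcd_dvd_left _ _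
    have hcop : IsCoprime (m : ℤ) α' := by
      rw [Int.isCoprime_iff_gcd_eq_one, Int.gcd_comm]
      have e1 : (d : ℤ) * m = (n : ℤ) := by exact_mod_cast hm.symm
      have h1 : Int.gcd ((d : ℤ) * α') ((d : ℤ) * m) = d := by
        rw [e1, ← hα', ← hd]
      rw [Int.gcd_mul_left, Int.natAbs_natCast] at h1
      exact Nat.eq_of_mul_eq_mul_left hd0 (by rw [h1, mul_one])
    have h7 := rb_fib d m hm0 (fun y : ℕ => (n : ℤ) ∣ α * (y : ℤ) ^ 2 - c)
      (fun y : ℕ => (m : ℤ) ∣ ((y : ℤ) - Y) * ((y : ℤ) + Y)) (by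
        intro y hy
        have h3 := dvd_sub hy hY
        rw [show α * (y : ℤ) ^ 2 - c - (α * (Y : ℤ) ^ 2 - c) =
          α * (((y : ℤ) - Y) * ((y : ℤ) + Y)) by ring, hm, hα', Nat.cast_mul, mul_assoc] at h3
        have h4 := (mul_dvd_mul_iff_left (show (d : ℤ) ≠ 0 by exact_mod_cast hd0.ne')).1 h3
        have h5 := hcop.dvd_of_dvd_mul_left h4
        have h9 : (m : ℤ) ∣ (y : ℤ) - ((y % m : ℕ) : ℤ) := by
          rw [Int.natCast_mod]
          exact Int.dvd_self_sub_emod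
        have h10 : (m : ℤ) ∣ ((y : ℤ) - Y) * ((y : ℤ) + Y) -
            (((y % m : ℕ) : ℤ) - Y) * (((y % m : ℕ) : ℤ) + Y) := by
          rw [show ((y : ℤ) - Y) * ((y : ℤ) + Y) -
            (((y % m : ℕ) : ℤ) - Y) * (((y % m : ℕ) : ℤ) + Y) =
            ((y : ℤ) - ((y % m : ℕ) : ℤ)) * ((y : ℤ) + ((y % m : ℕ) : ℤ)) by ring]
          exact Dvd.dvd.mul_right h9 _
        exact (dvd_sub_right h5).1 h10)
    rw [← hm] at h7
    have h8 := h7.trans (Nat.mul_le_mul_left d (rb_sum m hm0 Y))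
    have h9 : ∀ s ∈ m.divisors, ((Nat.gcd s (m / s) : ℕ) : ℝ) ≤ (n : ℝ) ^ (1 / 2 : ℝ) := by
      intro s hs
      have h5 := Nat.le_of_dvd hm0 (rb_gcd m s (Nat.dvd_of_mem_divisors hs))
      rw [← Real.sqrt_eq_rpow]
      apply Real.le_sqrt_of_sq_le
      have h6 : Nat.gcd s (m / s) * Nat.gcd s (m / s) ≤ n := by
        refine h5.trans ?_
        rw [hm]
        exact Nat.le_mul_of_pos_left m hd0
      rw [pow_two]
      exact_mod_cast h6
    have h10 : (((range n).filter (fun y : ℕ => (n : ℤ) ∣ α * (y : ℤ) ^ 2 - c)).card : ℝ) ≤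
        (d : ℝ) * ∑ s ∈ m.divisors, ((Nat.gcd s (m / s) : ℕ) : ℝ) := by
      rw [← Nat.cast_sum, ← Nat.cast_mul]
      exact Nat.cast_le.2 h8
    refine h10.trans ?_
    have h11 := Finset.sum_le_card_nsmul _ _ _ h9
    rw [nsmul_eq_mul] at h11
    have h12 : (m.divisors.card : ℝ) ≤ (n.divisors.card : ℝ) :=
      Nat.cast_le.2 (Finset.card_le_card (Nat.divisors_subset_of_dvd (by omega)
        (by rw [hm]; exact dvd_mul_left m d)))
    have h13 : (d : ℝ) ≤ |(α : ℝ)| := by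
      have h14 : d ≤ α.natAbs := by
        refine Nat.le_of_dvd (Int.natAbs_pos.2 hα) ?_
        rw [← Int.natCast_dvd]
        exact ⟨α', hα'⟩
      have h15 : (d : ℝ) ≤ (α.natAbs : ℝ) := by exact_mod_cast h14
      rwa [Nat.cast_natAbs, Int.cast_abs] at h15
    have h16 : (0 : ℝ) ≤ (n : ℝ) ^ (1 / 2 : ℝ) := Real.rpow_nonneg hn0.le _
    calc (d : ℝ) * ∑ s ∈ m.divisors, ((Nat.gcd s (m / s) : ℕ) : ℝ)
        ≤ (d : ℝ) * ((m.divisors.card : ℝ) * (n : ℝ) ^ (1 / 2 : ℝ)) :=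
          mul_le_mul_of_nonneg_left h11 (Nat.cast_nonneg d)
      _ ≤ |(α : ℝ)| * ((n.divisors.card : ℝ) * (n : ℝ) ^ (1 / 2 : ℝ)) :=
          mul_le_mul h13 (mul_le_mul_of_nonneg_right h12 h16)
            (mul_nonneg (Nat.cast_nonneg _) h16) (abs_nonneg _)
      _ = _ := by ring
  · rw [Finset.not_nonempty_iff_eq_empty.1 hne, card_empty, Nat.cast_zero]
    positivity

theorem rho_crude (α β γ : ℤ) (hα : α ≠ 0) (n : ℕ) (hn : 1 ≤ n) :
    (rho α β γ n : ℝ) ≤ |(α : ℝ)| * (n.divisors.card : ℝ) * (n : ℝ) ^ (3 / 2 : ℝ) := by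
  have hn0 : (0 : ℝ) < n := by exact_mod_cast hn
  rw [rb_rho, Nat.cast_sum]
  have h3 : ∀ y' ∈ range n, (((range n).filter (fun y : ℕ =>
      (n : ℤ) ∣ α * (y : ℤ) ^ 2 - (β * (y' : ℤ) ^ 2 - γ))).card : ℝ) ≤
      |(α : ℝ)| * (n.divisors.card : ℝ) * (n : ℝ) ^ (1 / 2 : ℝ) := fun y' _ =>
    rb_gen α (β * (y' : ℤ) ^ 2 - γ) hα n hn
  refine (Finset.sum_le_card_nsmul _ _ _ h3).trans (le_of_eq ?_)
  rw [card_range, nsmul_eq_mul]
  have h1 : (n : ℝ) ^ (3 / 2 : ℝ) = (n : ℝ) * (n : ℝ) ^ (1 / 2 : ℝ) := by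
    rw [show (3 / 2 : ℝ) = 1 + 1 / 2 by norm_num, Real.rpow_add hn0, Real.rpow_one]
  rw [h1]
  ring

end Pool.Agent.MKA
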