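import Pool.Agent.MKA.RhoGood
import Pool.Agent.MKA.RhoBad

/-!
# MKA/Parts: the decomposition `e = rpt · gpt · bpt`

All facts follow from the factorization `e = ∏_{p ∣ e} p^(v_p(e))` (`Nat.factorization_prod_pow_eq_self`,
`Nat.prod_factorization_pow_eq_self`) and the disjoint splitting of `e.primeFactors` into the three
filtered sets (for `p ∣ e` with `p² ∤ e` the exponent is `1`).
`exists_sq`: `m = ∏_{p ∣ gpt} p^⌊v/2⌋` (`v = v_p(e) ≥ 2`): `m² ∣ gpt`, and `v ≤ 3⌊v/2⌋` gives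
`gpt ≤ m³`; `gpt` and `bpt` are coprime and their product divides `e`.
`rho_gb_le`: `rho(gpt·bpt) = rho(gpt) rho(bpt)`, `rho(gpt) ≤ gpt τ(gpt)` (`rho_good_tau`: the primes of
`gpt` divide `e`, which is coprime to `2q`, so odd, and do not divide `αβγ`),
`rho(bpt) ≤ |α| τ(bpt) bpt^(3/2)` (`rho_crude`), `τ(gpt), τ(bpt) ≤ τ(e)`.
Size: 150 lines.
-/

set_option autoImplicit false

namespace Pool.Agent.MKA

open Finset

private theorem pt_ne {n : ℤ} {e : ℕ} {P : ℕ → Prop} [DecidablePred P] (p : ℕ)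
    (hp : p ∈ e.primeFactors.filter P) : p.Prime ∧ p ∣ e ∧ e ≠ 0 ∧ P p := by
  have _ := n
  rw [mem_filter, Nat.mem_primeFactors] at hp
  exact ⟨hp.1.1, hp.1.2.1, hp.1.2.2, hp.2⟩

private theorem rpt_eq (n : ℤ) (e : ℕ) :
    rpt n e = ∏ p ∈ e.primeFactors.filter (fun p : ℕ => ¬ (p : ℤ) ∣ n ∧ ¬ p ^ 2 ∣ e),
      p ^ e.factorization p := by
  unfold rpt
  apply prod_congr rfl
  intro p hp
  obtain ⟨hp1, hp2, he, hp3, hp4⟩ := pt_ne (n := n) p hp
  have h1 : e.factorization p = 1 := by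
    have h2 : 1 ≤ e.factorization p := (hp1.dvd_iff_one_le_factorization he).1 hp2
    have h3 : ¬ 2 ≤ e.factorization p := fun h => hp4 ((hp1.pow_dvd_iff_le_factorization he).2 h)
    omega
  rw [h1, pow_one]

private theorem pt_prime {T : Finset ℕ} {f : ℕ → ℕ} (hT : ∀ p ∈ T, p.Prime) (q : ℕ)
    (hq : q.Prime) (h : q ∣ ∏ p ∈ T, p ^ f p) : q ∈ T := by
  obtain ⟨p, hp, hqp⟩ := (Prime.dvd_finsetProd_iff hq.prime _).1 h
  have := (Nat.prime_dvd_prime_iff_eq hq (hT p hp)).1 (hq.dvd_of_dvd_pow hqp)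
  rw [this]; exact hp

private theorem pt_coprime {T S : Finset ℕ} {f g : ℕ → ℕ} (hT : ∀ p ∈ T, p.Prime)
    (hS : ∀ p ∈ S, p.Prime) (hd : ∀ p, p ∈ T → p ∈ S → False) :
    Nat.Coprime (∏ p ∈ T, p ^ f p) (∏ p ∈ S, p ^ g p) := by
  apply Nat.Coprime.prod_left
  intro p hp
  apply Nat.Coprime.prod_right
  intro q hq
  apply Nat.Coprime.pow
  rw [Nat.coprime_primes (hT p hp) (hS q hq)]
  rintro rfl
  exact hd p hp hq

private theorem pt_filter_prime {e : ℕ} {P : ℕ → Prop} [DecidablePred P] :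
    ∀ p ∈ e.primeFactors.filter P, p.Prime := fun _ hp =>
  Nat.prime_of_mem_primeFactors (mem_filter.1 hp).1

theorem parts_mul (n : ℤ) (e : ℕ) (he : 1 ≤ e) : rpt n e * (gpt n e * bpt n e) = e := by
  have h0 : ∏ p ∈ e.primeFactors, p ^ e.factorization p = e := by
    have := Nat.prod_factorization_pow_eq_self (n := e) (by omega)
    rw [Finsupp.prod, Nat.support_factorization] at this
    exact this
  have h1 := prod_filter_mul_prod_filter_not e.primeFactors (fun p : ℕ => (p : ℤ) ∣ n)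
    (fun p => p ^ e.factorization p)
  have h2 := prod_filter_mul_prod_filter_not (e.primeFactors.filter (fun p : ℕ => ¬ (p : ℤ) ∣ n))
    (fun p : ℕ => p ^ 2 ∣ e) (fun p => p ^ e.factorization p)
  rw [filter_filter, filter_filter] at h2
  rw [rpt_eq]
  unfold gpt bpt
  rw [← h2, h0] at h1
  conv_rhs => rw [← h1]
  ring

theorem parts_pos (n : ℤ) (e : ℕ) (he : 1 ≤ e) : 1 ≤ rpt n e ∧ 1 ≤ gpt n e ∧ 1 ≤ bpt n e := by
  have h := parts_mul n e he
  refine ⟨?_, ?_, ?_⟩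
  · rcases Nat.eq_zero_or_pos (rpt n e) with h0 | h0
    · rw [h0, zero_mul] at h; omega
    · exact h0
  · rcases Nat.eq_zero_or_pos (gpt n e) with h0 | h0
    · rw [h0, zero_mul, mul_zero] at h; omega
    · exact h0
  · rcases Nat.eq_zero_or_pos (bpt n e) with h0 | h0
    · rw [h0, mul_zero, mul_zero] at h; omega
    · exact h0

private theorem pt_dvd (n : ℤ) (e : ℕ) (he : 1 ≤ e) :
    rpt n e ∣ e ∧ gpt n e ∣ e ∧ bpt n e ∣ e := by
  have h := parts_mul n e he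
  refine ⟨⟨_, h.symm⟩, ⟨rpt n e * bpt n e, ?_⟩, ⟨rpt n e * gpt n e, ?_⟩⟩
  · rw [← mul_assoc, mul_comm (gpt n e), mul_assoc]; exact h.symm
  · rw [mul_comm (bpt n e), mul_assoc]; exact h.symm

private theorem rpt_mem (n : ℤ) (e : ℕ) (p : ℕ) (hp : p.Prime) (h : p ∣ rpt n e) :
    ¬ (p : ℤ) ∣ n ∧ ¬ p ^ 2 ∣ e := by
  rw [rpt_eq] at h
  exact (mem_filter.1 (pt_prime pt_filter_prime p hp h)).2

private theorem gpt_mem (n : ℤ) (e : ℕ) (p : ℕ) (hp : p.Prime) (h : p ∣ gpt n e) :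
    ¬ (p : ℤ) ∣ n ∧ p ^ 2 ∣ e := by
  unfold gpt at h
  exact (mem_filter.1 (pt_prime pt_filter_prime p hp h)).2

private theorem bpt_mem (n : ℤ) (e : ℕ) (p : ℕ) (hp : p.Prime) (h : p ∣ bpt n e) :
    (p : ℤ) ∣ n := by
  unfold bpt at h
  exact (mem_filter.1 (pt_prime pt_filter_prime p hp h)).2

theorem rpt_squarefree (n : ℤ) (e : ℕ) (he : 1 ≤ e) : Squarefree (rpt n e) := by
  rw [Nat.squarefree_iff_prime_squarefree]
  intro p hp h
  have h1 := rpt_mem n e p hp ((dvd_mul_right p p).trans h)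
  apply h1.2
  rw [pow_two]
  exact h.trans (pt_dvd n e he).1

theorem gpt_coprime_bpt (n : ℤ) (e : ℕ) (he : 1 ≤ e) : Nat.Coprime (gpt n e) (bpt n e) := by
  have _ := he
  apply Nat.Coprime.symm
  rw [Nat.coprime_comm]
  apply Nat.coprime_of_dvd
  intro p hp h1 h2
  exact (gpt_mem n e p hp h1).1 (bpt_mem n e p hp h2)

theorem rpt_coprime (n : ℤ) (e : ℕ) (he : 1 ≤ e) :
    Nat.Coprime (rpt n e) (gpt n e * bpt n e) := by
  have _ := he
  apply Nat.coprime_of_dvd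
  intro p hp h1 h2
  rcases (hp.dvd_mul).1 h2 with h3 | h3
  · exact (rpt_mem n e p hp h1).2 (gpt_mem n e p hp h3).2
  · exact (rpt_mem n e p hp h1).1 (bpt_mem n e p hp h3)

theorem rpt_good (n : ℤ) (e : ℕ) (he : 1 ≤ e) (p : ℕ) (hp : p.Prime) (h : p ∣ rpt n e) :
    ¬ (p : ℤ) ∣ n := by
  have _ := he
  exact (rpt_mem n e p hp h).1

theorem gpt_good (n : ℤ) (e : ℕ) (he : 1 ≤ e) (p : ℕ) (hp : p.Prime) (h : p ∣ gpt n e) :
    ¬ (p : ℤ) ∣ n := by
  have _ := he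
  exact (gpt_mem n e p hp h).1

theorem bpt_bad (n : ℤ) (e : ℕ) (he : 1 ≤ e) (p : ℕ) (hp : p.Prime) (h : p ∣ bpt n e) :
    (p : ℤ) ∣ n := by
  have _ := he
  exact bpt_mem n e p hp h

/-- `rpt · gpt` is coprime to `bpt` and has only good primes. -/
theorem rg_good (n : ℤ) (e : ℕ) (he : 1 ≤ e) :
    Nat.Coprime (rpt n e * gpt n e) (bpt n e) ∧
      ∀ p : ℕ, p.Prime → p ∣ rpt n e * gpt n e → ¬ (p : ℤ) ∣ n := by
  refine ⟨?_, ?_⟩
  · apply Nat.Coprime.mul_left _ (gpt_coprime_bpt n e he)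
    exact Nat.Coprime.coprime_dvd_right (dvd_mul_left _ _) (rpt_coprime n e he)
  · intro p hp h
    rcases (hp.dvd_mul).1 h with h3 | h3
    · exact rpt_good n e he p hp h3
    · exact gpt_good n e he p hp h3

theorem bpt_mem_bs (n : ℤ) (e q B : ℕ) (he : 1 ≤ e) (hB : e ≤ B)
    (hq : Nat.Coprime e (2 * q)) : bpt n e ∈ bs n q B := by
  unfold bs
  rw [mem_filter, mem_Icc]
  refine ⟨⟨(parts_pos n e he).2.2, (Nat.le_of_dvd (by omega) (pt_dvd n e he).2.2).trans hB⟩,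
    Nat.Coprime.coprime_dvd_left (pt_dvd n e he).2.2 hq, ?_⟩
  intro p hp
  rw [Nat.mem_primeFactors] at hp
  exact bpt_mem n e p hp.1 hp.2.1

theorem exists_sq (n : ℤ) (e : ℕ) (he : 1 ≤ e) :
    ∃ m : ℕ, 1 ≤ m ∧ m ^ 2 * bpt n e ∣ e ∧ gpt n e ≤ m ^ 3 := by
  refine ⟨∏ p ∈ e.primeFactors.filter (fun p : ℕ => ¬ (p : ℤ) ∣ n ∧ p ^ 2 ∣ e),
    p ^ (e.factorization p / 2), ?_, ?_, ?_⟩
  · apply Nat.one_le_iff_ne_zero.2
    rw [prod_ne_zero_iff]
    intro p hp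
    exact pow_ne_zero _ (pt_filter_prime p hp).ne_zero
  · have h1 : (∏ p ∈ e.primeFactors.filter (fun p : ℕ => ¬ (p : ℤ) ∣ n ∧ p ^ 2 ∣ e),
      p ^ (e.factorization p / 2)) ^ 2 ∣ gpt n e := by
      unfold gpt
      rw [← prod_pow]
      apply prod_dvd_prod_of_dvd
      intro p _
      rw [← pow_mul]
      exact pow_dvd_pow _ (by omega)
    have h2 : gpt n e * bpt n e ∣ e := ⟨rpt n e, by rw [mul_comm]; exact (parts_mul n e he).symm⟩
    exact (mul_dvd_mul_right h1 _).trans h2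
  · unfold gpt
    rw [← prod_pow]
    apply prod_le_prod' 
    intro p hp
    obtain ⟨hp1, hp2, he0, hp3, hp4⟩ := pt_ne (n := n) p hp
    have h2 : 2 ≤ e.factorization p := (hp1.pow_dvd_iff_le_factorization he0).1 hp4
    rw [← pow_mul]
    exact Nat.pow_le_pow_right hp1.pos (by omega)

theorem rho_gb_le (α β γ : ℤ) (hα : α ≠ 0) (e : ℕ) (he : 1 ≤ e) (hodd : Odd e) :
    (rho α β γ (gpt (α * β * γ) e * bpt (α * β * γ) e) : ℝ) ≤
      |(α : ℝ)| * (e.divisors.card : ℝ) ^ 2 * (gpt (α * β * γ) e : ℝ) *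
        (bpt (α * β * γ) e : ℝ) ^ (3 / 2 : ℝ) := by
  set n := α * β * γ with hn
  obtain ⟨_, hg, hb⟩ := parts_pos n e he
  obtain ⟨_, hgd, hbd⟩ := pt_dvd n e he
  rw [rho_mul α β γ _ _ hg hb (gpt_coprime_bpt n e he)]
  have h1 := rho_good_tau α β γ (gpt n e) hg (by
    intro p hp hpg
    refine ⟨?_, gpt_good n e he p hp hpg⟩
    rintro rfl
    have h2 : 2 ∣ e := hpg.trans hgd
    exact (Nat.not_even_iff_odd.2 hodd) (even_iff_two_dvd.2 h2))
  have h2 := rho_crude α β γ hα (bpt n e) hb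
  have h3 : ((gpt n e).divisors.card : ℝ) ≤ (e.divisors.card : ℝ) := by
    exact_mod_cast card_le_card (Nat.divisors_subset_of_dvd (by omega) hgd)
  have h4 : ((bpt n e).divisors.card : ℝ) ≤ (e.divisors.card : ℝ) := by
    exact_mod_cast card_le_card (Nat.divisors_subset_of_dvd (by omega) hbd)
  push_cast
  calc (rho α β γ (gpt n e) : ℝ) * (rho α β γ (bpt n e) : ℝ)
      ≤ ((gpt n e : ℝ) * (e.divisors.card : ℝ)) *
        (|(α : ℝ)| * (e.divisors.card : ℝ) * (bpt n e : ℝ) ^ (3 / 2 : ℝ)) := by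
        apply mul_le_mul _ _ (by positivity) (by positivity)
        · exact h1.trans (mul_le_mul_of_nonneg_left h3 (by positivity))
        · refine h2.trans ?_
          gcongr
    _ = _ := by ring

end Pool.Agent.MKA
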