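import Pool.Agent.MKA.Pt
import Pool.Agent.MKA.Parts

/-!
# MKA/ErrPt: pointwise bound for the number of points of a box, every modulus

Proof.  `e` is odd (coprime to `2q`).  Apply `cnt_le` with `n₀ = αβγ`, `r = rpt n₀ e`,
`s = gpt n₀ e * bpt n₀ e` (`parts_mul : r * s = e`, `rpt_squarefree`, `rpt_coprime`, `rpt_good`), then
`rho_gb_le`, `τ(r) ≤ τ(e)`, and
`r^(3/4) · gpt · bpt^(3/2) = e^(3/4) gpt^(1/4) bpt^(3/4)` (`e = r·gpt·bpt`, `Real.mul_rpow`).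
Size: 60-80 lines.
-/

set_option autoImplicit false

namespace Pool.Agent.MKA

open Finset

theorem cnt_pointwise (α β γ c₁ c₂ : ℤ) (hα : α ≠ 0) (q : ℕ) (j j' : ℤ) (l l' e : ℕ)
    (he : 1 ≤ e) (hq : Nat.Coprime e (2 * q)) (hl : l ≤ e) (hl' : l' ≤ e) :
    (cnt α β γ c₁ c₂ q j j' l l' e : ℝ) ≤
      (rho α β γ e : ℝ) * l * l' / (e : ℝ) ^ 2 +
        8 * |(α : ℝ)| * (1 + Real.log e) ^ 2 * (e.divisors.card : ℝ) ^ 4 * (e : ℝ) ^ (3 / 4 : ℝ) *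
          ((gpt (α * β * γ) e : ℝ) ^ (1 / 4 : ℝ) * (bpt (α * β * γ) e : ℝ) ^ (3 / 4 : ℝ)) := by
  set n₀ : ℤ := α * β * γ with hn₀
  obtain ⟨hr1, hg1, hb1⟩ := parts_pos n₀ e he
  have hmul := parts_mul n₀ e he
  set r := rpt n₀ e with hr
  set g := gpt n₀ e with hg
  set b := bpt n₀ e with hb
  have hodd : Odd e := by
    have h1 : Nat.Coprime e 2 := Nat.Coprime.coprime_mul_right_right hq
    exact Nat.coprime_two_right.1 h1
  have hrd : r ∣ e := ⟨g * b, hmul.symm⟩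
  have hro : Odd r := by
    obtain ⟨c, hc⟩ := hrd
    rw [hc] at hodd
    exact (Nat.odd_mul.1 hodd).1
  have hqe : Nat.Coprime q (r * (g * b)) := by
    rw [hmul]
    exact (Nat.Coprime.coprime_mul_left_right hq).symm
  have h1 := cnt_le α β γ c₁ c₂ q j j' l l' r (g * b) (rpt_squarefree n₀ e he) hro
    (rpt_good n₀ e he) (Nat.mul_pos hg1 hb1) (rpt_coprime n₀ e he) hqe
    (by rw [hmul]; exact hl) (by rw [hmul]; exact hl')
  have hmulr : (r : ℝ) * ((g * b : ℕ) : ℝ) = e := by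
    rw [← Nat.cast_mul, hmul]
  rw [hmulr, hmul] at h1
  refine h1.trans ?_
  apply add_le_add_right
  have h2 := rho_gb_le α β γ hα e he hodd
  rw [← hn₀, ← hg, ← hb] at h2
  have hrp : (0 : ℝ) < r := by exact_mod_cast hr1
  have hgp : (0 : ℝ) < g := by exact_mod_cast hg1
  have hbp : (0 : ℝ) < b := by exact_mod_cast hb1
  have hτ : (r.divisors.card : ℝ) ≤ (e.divisors.card : ℝ) := by
    exact_mod_cast Finset.card_le_card (Nat.divisors_subset_of_dvd (by omega) hrd)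
  have hlog : 0 ≤ 1 + Real.log e := by
    have : 0 ≤ Real.log e := Real.log_natCast_nonneg e
    linarith
  have he34 : (e : ℝ) ^ (3 / 4 : ℝ) = (r : ℝ) ^ (3 / 4 : ℝ) * ((g : ℝ) ^ (3 / 4 : ℝ) *
      (b : ℝ) ^ (3 / 4 : ℝ)) := by
    rw [← hmulr]
    push_cast
    rw [Real.mul_rpow hrp.le (by positivity), Real.mul_rpow hgp.le hbp.le]
  have hg34 : (g : ℝ) ^ (3 / 4 : ℝ) * (g : ℝ) ^ (1 / 4 : ℝ) = g := by
    rw [← Real.rpow_add hgp]; norm_num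
  have hb34 : (b : ℝ) ^ (3 / 4 : ℝ) * (b : ℝ) ^ (3 / 4 : ℝ) = (b : ℝ) ^ (3 / 2 : ℝ) := by
    rw [← Real.rpow_add hbp]; norm_num
  calc 8 * (rho α β γ (g * b) : ℝ) * (1 + Real.log e) ^ 2 * (r.divisors.card : ℝ) ^ 2 *
        (r : ℝ) ^ (3 / 4 : ℝ)
      ≤ 8 * (|(α : ℝ)| * (e.divisors.card : ℝ) ^ 2 * (g : ℝ) * (b : ℝ) ^ (3 / 2 : ℝ)) *
          (1 + Real.log e) ^ 2 * (e.divisors.card : ℝ) ^ 2 * (r : ℝ) ^ (3 / 4 : ℝ) := by
        gcongr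
    _ = 8 * |(α : ℝ)| * (1 + Real.log e) ^ 2 * (e.divisors.card : ℝ) ^ 4 *
          ((r : ℝ) ^ (3 / 4 : ℝ) * ((g : ℝ) ^ (3 / 4 : ℝ) * (b : ℝ) ^ (3 / 4 : ℝ))) *
          ((g : ℝ) ^ (1 / 4 : ℝ) * (b : ℝ) ^ (3 / 4 : ℝ)) := by
        rw [← hb34]
        nth_rewrite 1 [← hg34]
        ring
    _ = _ := by rw [← he34]

end Pool.Agent.MKA
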