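import Pool.Agent.MKA.Parts

/-!
# MKA/ErrSum: sum of the powerful and bad parts

Proof.  For each `e` choose `m(e)` from `exists_sq`: `m² bpt ∣ e`, `gpt ≤ m³`, so
`gpt^(1/4) bpt^(3/4) ≤ m^(3/4) bpt^(3/4)`.  Hence, summing over the possible values `s` of `bpt`
(`bpt_mem_bs`: in `bs n q B`) and `m ∈ [1,B]`,
`∑_e ≤ ∑_{s ∈ bs} ∑_{m=1}^B m^(3/4) s^(3/4) · #{e ∈ [1,B] : m² s ∣ e}
    ≤ ∑_s ∑_m m^(3/4) s^(3/4) · B/(m² s) ≤ B · #bs · ∑_m m^(-5/4) ≤ 5 B #bs`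
(`s^(-1/4) ≤ 1`; `∑_{m=1}^M m^(-5/4) ≤ 5`: e.g. induction with
`m^(-5/4) ≤ 4 ((m-1)^(-1/4) - m^(-1/4))` for `m ≥ 2`, or an integral comparison).
Size: 100-130 lines.
-/

set_option autoImplicit false

namespace Pool.Agent.MKA

open Finset

theorem es_step (u v : ℝ) (hu : 0 < u) (hv : 0 < v) (huv : u ≤ v) (h : v ^ 4 = u ^ 4 + 1) :
    1 / v ^ 5 ≤ 4 * (1 / u - 1 / v) := by
  have h1 : (v - u) * (v ^ 3 + v ^ 2 * u + v * u ^ 2 + u ^ 3) = 1 := by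
    have : (v - u) * (v ^ 3 + v ^ 2 * u + v * u ^ 2 + u ^ 3) = v ^ 4 - u ^ 4 := by ring
    rw [this, h]
    ring
  have h2 : v ^ 3 + v ^ 2 * u + v * u ^ 2 + u ^ 3 ≤ 4 * v ^ 3 := by
    have h3 : v ^ 2 * u ≤ v ^ 2 * v := mul_le_mul_of_nonneg_left huv (by positivity)
    have h4 : u ^ 2 ≤ v ^ 2 := pow_le_pow_left₀ hu.le huv 2
    have h5 : v * u ^ 2 ≤ v * v ^ 2 := mul_le_mul_of_nonneg_left h4 hv.le
    have h6 : u ^ 3 ≤ v ^ 3 := pow_le_pow_left₀ hu.le huv 3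
    nlinarith
  have h3 : 1 ≤ (v - u) * (4 * v ^ 3) := by
    rw [← h1]
    exact mul_le_mul_of_nonneg_left h2 (by linarith)
  have h4 : u ≤ 4 * v ^ 4 * (v - u) := by
    have h5 : v * 1 ≤ v * ((v - u) * (4 * v ^ 3)) := mul_le_mul_of_nonneg_left h3 hv.le
    have h6 : v * ((v - u) * (4 * v ^ 3)) = 4 * v ^ 4 * (v - u) := by ring
    linarith
  have h5 : 4 * (1 / u - 1 / v) = 4 * (v - u) / (u * v) := by
    field_simp
  rw [h5, div_le_div_iff₀ (by positivity) (by positivity)]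
  calc 1 * (u * v) = u * v := by ring
    _ ≤ (4 * v ^ 4 * (v - u)) * v := mul_le_mul_of_nonneg_right h4 hv.le
    _ = 4 * (v - u) * v ^ 5 := by ring

theorem es_four (m : ℕ) : (((m : ℝ) ^ (1 / 4 : ℝ)) ^ 4) = m := by
  rw [← Real.rpow_natCast, ← Real.rpow_mul (Nat.cast_nonneg _)]
  norm_num

theorem es_pos (m : ℕ) (hm : 1 ≤ m) : 0 < (m : ℝ) ^ (1 / 4 : ℝ) :=
  Real.rpow_pos_of_pos (by exact_mod_cast hm) _

theorem es_sum (M : ℕ) : ∑ m ∈ Icc 1 M, 1 / ((m : ℝ) ^ (1 / 4 : ℝ)) ^ 5 ≤ 5 := by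
  rcases Nat.eq_zero_or_pos M with rfl | hM
  · simp
  have key : ∑ m ∈ Icc 1 M, 1 / ((m : ℝ) ^ (1 / 4 : ℝ)) ^ 5 ≤ 5 - 4 * (1 / (M : ℝ) ^ (1 / 4 : ℝ)) := by
    induction M, hM using Nat.le_induction with
    | base =>
      simp
      norm_num
    | succ M hM ih =>
      rw [sum_Icc_succ_top (by omega)]
      have h := es_step ((M : ℝ) ^ (1 / 4 : ℝ)) (((M + 1 : ℕ) : ℝ) ^ (1 / 4 : ℝ))
        (es_pos M hM) (es_pos (M + 1) (by omega)) (by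
          apply Real.rpow_le_rpow (Nat.cast_nonneg _) _ (by norm_num)
          push_cast
          linarith) (by
          rw [es_four, es_four]
          push_cast
          ring)
      linarith
  have h1 : 0 < 1 / (M : ℝ) ^ (1 / 4 : ℝ) := one_div_pos.2 (es_pos M hM)
  linarith

theorem err_sum_le (n : ℤ) (q B : ℕ) :
    ∑ e ∈ (Icc 1 B).filter (fun e => Nat.Coprime e (2 * q)),
      (gpt n e : ℝ) ^ (1 / 4 : ℝ) * (bpt n e : ℝ) ^ (3 / 4 : ℝ) ≤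
      5 * (B : ℝ) * ((bs n q B).card : ℝ) := by
  have h1 : ∀ e ∈ (Icc 1 B).filter (fun e => Nat.Coprime e (2 * q)),
      (gpt n e : ℝ) ^ (1 / 4 : ℝ) * (bpt n e : ℝ) ^ (3 / 4 : ℝ) ≤
      ∑ s ∈ bs n q B, ∑ m ∈ Icc 1 B,
        if m ^ 2 * s ∣ e then ((m : ℝ) ^ (1 / 4 : ℝ)) ^ 3 * (s : ℝ) else 0 := by
    intro e he
    rw [mem_filter, mem_Icc] at he
    obtain ⟨⟨he1, heB⟩, hq⟩ := he
    obtain ⟨m, hm1, hm2, hm3⟩ := exists_sq n e he1
    obtain ⟨_, hg1, hb1⟩ := parts_pos n e he1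
    have hmB : m ∈ Icc 1 B := by
      rw [mem_Icc]
      refine ⟨hm1, ?_⟩
      have h2 : m ^ 2 * bpt n e ≤ e := Nat.le_of_dvd he1 hm2
      calc m = m * 1 * 1 := by ring
        _ ≤ m * m * bpt n e := Nat.mul_le_mul (Nat.mul_le_mul_left _ hm1) hb1
        _ = m ^ 2 * bpt n e := by ring
        _ ≤ e := h2
        _ ≤ B := heB
    have hs := bpt_mem_bs n e q B he1 heB hq
    have hterm : (gpt n e : ℝ) ^ (1 / 4 : ℝ) * (bpt n e : ℝ) ^ (3 / 4 : ℝ) ≤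
        if m ^ 2 * bpt n e ∣ e then ((m : ℝ) ^ (1 / 4 : ℝ)) ^ 3 * (bpt n e : ℝ) else 0 := by
      rw [if_pos hm2]
      apply mul_le_mul
      · have h3 : (gpt n e : ℝ) ≤ (m : ℝ) ^ (3 : ℕ) := by exact_mod_cast hm3
        calc (gpt n e : ℝ) ^ (1 / 4 : ℝ) ≤ ((m : ℝ) ^ (3 : ℕ)) ^ (1 / 4 : ℝ) :=
              Real.rpow_le_rpow (Nat.cast_nonneg _) h3 (by norm_num)
          _ = ((m : ℝ) ^ (1 / 4 : ℝ)) ^ 3 := by
              rw [← Real.rpow_natCast, ← Real.rpow_natCast, ← Real.rpow_mul (Nat.cast_nonneg _),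
                ← Real.rpow_mul (Nat.cast_nonneg _)]
              congr 1
              norm_num
      · have h3 : (1 : ℝ) ≤ (bpt n e : ℝ) := by exact_mod_cast hb1
        calc (bpt n e : ℝ) ^ (3 / 4 : ℝ) ≤ (bpt n e : ℝ) ^ (1 : ℝ) :=
              Real.rpow_le_rpow_of_exponent_le h3 (by norm_num)
          _ = bpt n e := Real.rpow_one _
      · positivity
      · positivity
    refine hterm.trans ?_
    have hnn : ∀ s m : ℕ, 0 ≤ (if m ^ 2 * s ∣ e then ((m : ℝ) ^ (1 / 4 : ℝ)) ^ 3 * (s : ℝ) else 0) := by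
      intro s m
      split_ifs
      · positivity
      · exact le_rfl
    refine le_trans ?_ (single_le_sum (f := fun s : ℕ => ∑ m ∈ Icc 1 B,
        if m ^ 2 * s ∣ e then ((m : ℝ) ^ (1 / 4 : ℝ)) ^ 3 * (s : ℝ) else 0)
        (fun s _ => sum_nonneg fun m _ => hnn s m) hs)
    exact single_le_sum (f := fun m : ℕ =>
        if m ^ 2 * bpt n e ∣ e then ((m : ℝ) ^ (1 / 4 : ℝ)) ^ 3 * (bpt n e : ℝ) else 0)
        (fun m _ => hnn _ m) hmB
  refine (sum_le_sum h1).trans ?_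
  rw [sum_comm]
  have h2 : ∀ s ∈ bs n q B, ∑ e ∈ (Icc 1 B).filter (fun e => Nat.Coprime e (2 * q)),
      ∑ m ∈ Icc 1 B, (if m ^ 2 * s ∣ e then ((m : ℝ) ^ (1 / 4 : ℝ)) ^ 3 * (s : ℝ) else 0) ≤
      5 * (B : ℝ) := by
    intro s hs
    unfold bs at hs
    rw [mem_filter, mem_Icc] at hs
    have hs0 : (0 : ℝ) < s := by exact_mod_cast hs.1.1
    rw [sum_comm]
    have h3 : ∀ m ∈ Icc 1 B, ∑ e ∈ (Icc 1 B).filter (fun e => Nat.Coprime e (2 * q)),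
        (if m ^ 2 * s ∣ e then ((m : ℝ) ^ (1 / 4 : ℝ)) ^ 3 * (s : ℝ) else 0) ≤
        B * (1 / ((m : ℝ) ^ (1 / 4 : ℝ)) ^ 5) := by
      intro m hm
      rw [mem_Icc] at hm
      have hf := es_pos m hm.1
      rw [← sum_filter, sum_const, nsmul_eq_mul]
      have h4 : ((((Icc 1 B).filter (fun e => Nat.Coprime e (2 * q))).filter
          (fun e => m ^ 2 * s ∣ e)).card : ℝ) ≤ (B : ℝ) / ((m ^ 2 * s : ℕ) : ℝ) := by
        have h5 : (((Icc 1 B).filter (fun e => Nat.Coprime e (2 * q))).filter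
          (fun e => m ^ 2 * s ∣ e)) ⊆ ((Ioc 0 B).filter fun e => m ^ 2 * s ∣ e) := by
          intro e he
          rw [mem_filter, mem_filter, mem_Icc] at he
          rw [mem_filter, mem_Ioc]
          exact ⟨⟨by omega, he.1.1.2⟩, he.2⟩
        have h6 := card_le_card h5
        rw [Nat.Ioc_filter_dvd_card_eq_div] at h6
        calc _ ≤ ((B / (m ^ 2 * s) : ℕ) : ℝ) := by exact_mod_cast h6
          _ ≤ _ := Nat.cast_div_le
      calc _ ≤ (B : ℝ) / ((m ^ 2 * s : ℕ) : ℝ) * (((m : ℝ) ^ (1 / 4 : ℝ)) ^ 3 * (s : ℝ)) :=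
            mul_le_mul_of_nonneg_right h4 (by positivity)
        _ = B * (1 / ((m : ℝ) ^ (1 / 4 : ℝ)) ^ 5) := by
            have h5 : ((m ^ 2 * s : ℕ) : ℝ) = ((m : ℝ) ^ (1 / 4 : ℝ)) ^ 8 * s := by
              push_cast
              nth_rewrite 1 [← es_four m]
              ring
            rw [h5]
            field_simp
    refine (sum_le_sum h3).trans ?_
    rw [← mul_sum]
    calc (B : ℝ) * _ ≤ B * 5 := mul_le_mul_of_nonneg_left (es_sum B) (Nat.cast_nonneg _)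
      _ = 5 * B := by ring
  refine (sum_le_sum h2).trans ?_
  rw [sum_const, nsmul_eq_mul, mul_comm]

end Pool.Agent.MKA
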