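import Pool.Agent.MKA.Defs

/-!
# MKA/Exc: the excluded residue classes are few

For each prime `p ≤ w`: the `b ∈ [-N,N]` with `p^j ∣ b` are at most `2N/p^j + 1`.
If `p^j ∣ a²b - 4` and `p^j ∣ a²b' - 4` then `p^(j-2) ∣ b - b'`: for `p` odd, `p ∤ a` (otherwise `p ∣ 4`) so
`p^j ∣ b - b'`; for `p = 2`, `j ≥ 3`: `a` odd gives `2^j ∣ b - b'`; `a = 2a₁`: `2^(j-2) ∣ a₁²b - 1`, so (`j ≥ 3`) `a₁` is
odd and `2^(j-2) ∣ b - b'`.  So these `b` are at most `2N/p^(j-2) + 1` in number.  With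
`p^(j-2) ≥ 2^(j-2)` the union over the at most `w` primes has at most
`w (2N/2^j + 1 + 2N/2^(j-2) + 1) ≤ w (10 N/2^j + 2)` elements.
-/

set_option autoImplicit false

namespace Pool.Agent.MKA

open Finset

theorem card_le_of_congr (N m : ℕ) (hm : 1 ≤ m) (S : Finset ℤ)
    (hS : ∀ x ∈ S, -(N : ℤ) ≤ x ∧ x ≤ N) (hd : ∀ x ∈ S, ∀ y ∈ S, (m : ℤ) ∣ x - y) :
    S.card ≤ 2 * N / m + 1 := by
  rcases S.eq_empty_or_nonempty with rfl | hne
  · simp
  set x0 := S.min' hne with hx0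
  have hx0S : x0 ∈ S := S.min'_mem hne
  have hmpos : (0 : ℤ) < m := by exact_mod_cast hm
  calc S.card = (S.image (fun x : ℤ => ((x - x0) / (m : ℤ)).toNat)).card := by
        rw [card_image_of_injOn]
        intro x hx y hy hxy
        have hxS : x ∈ S := hx
        have hyS : y ∈ S := hy
        have h1 : 0 ≤ x - x0 := sub_nonneg.2 (S.min'_le x hxS)
        have h2 : 0 ≤ y - x0 := sub_nonneg.2 (S.min'_le y hyS)
        have h3 : 0 ≤ (x - x0) / (m : ℤ) := Int.ediv_nonneg h1 hmpos.le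
        have h4 : 0 ≤ (y - x0) / (m : ℤ) := Int.ediv_nonneg h2 hmpos.le
        have h5 : (x - x0) / (m : ℤ) = (y - x0) / (m : ℤ) := by
          have := congrArg (fun t : ℕ => (t : ℤ)) hxy
          simp only [Int.toNat_of_nonneg h3, Int.toNat_of_nonneg h4] at this
          exact this
        have h6 := Int.ediv_mul_cancel (hd x hxS x0 hx0S)
        have h7 := Int.ediv_mul_cancel (hd y hyS x0 hx0S)
        rw [h5] at h6
        linarith
    _ ≤ (range (2 * N / m + 1)).card := by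
        apply card_le_card
        intro t ht
        simp only [mem_image] at ht
        obtain ⟨x, hx, rfl⟩ := ht
        rw [mem_range]
        have h1 : x - x0 ≤ 2 * N := by
          have := (hS x hx).2
          have := (hS x0 hx0S).1
          linarith
        have h2 : (x - x0) / (m : ℤ) ≤ (2 * N : ℤ) / m := Int.ediv_le_ediv hmpos h1
        have h3 : ((2 * N / m : ℕ) : ℤ) = (2 * N : ℤ) / m := by push_cast; rfl
        rw [← h3] at h2
        have h4 : ((x - x0) / (m : ℤ)).toNat ≤ 2 * N / m := by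
          rw [Int.toNat_le]; exact h2
        omega
    _ = 2 * N / m + 1 := card_range _

theorem exc_pair (p j : ℕ) (a b b' : ℤ) (hp : p.Prime) (hj : 3 ≤ j)
    (h : (p : ℤ) ^ j ∣ a ^ 2 * b - 4) (h' : (p : ℤ) ^ j ∣ a ^ 2 * b' - 4) :
    (p : ℤ) ^ (j - 2) ∣ b - b' := by
  have hpp : Prime (p : ℤ) := Nat.prime_iff_prime_int.1 hp
  have hsub : (p : ℤ) ^ j ∣ a ^ 2 * (b - b') := by
    have := dvd_sub h h'
    have e : a ^ 2 * b - 4 - (a ^ 2 * b' - 4) = a ^ 2 * (b - b') := by ring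
    rwa [e] at this
  by_cases hpa : (p : ℤ) ∣ a
  · -- then p = 2
    have h1 : (p : ℤ) ∣ a ^ 2 * b - 4 := (dvd_pow_self _ (by omega)).trans h
    have h2 : (p : ℤ) ∣ a ^ 2 * b := (dvd_pow hpa (by norm_num)).mul_right b
    have h3 : (p : ℤ) ∣ 4 := by
      have := dvd_sub h2 h1
      have e : a ^ 2 * b - (a ^ 2 * b - 4) = 4 := by ring
      rwa [e] at this
    have h4 : p ∣ 4 := by exact_mod_cast h3
    have h5 : p = 2 := by
      have : p ∣ 2 ^ 2 := by norm_num; exact h4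
      exact (Nat.prime_dvd_prime_iff_eq hp Nat.prime_two).1 (hp.dvd_of_dvd_pow this)
    subst h5
    obtain ⟨a₁, rfl⟩ := hpa
    obtain ⟨i, rfl⟩ : ∃ i, j = i + 2 := ⟨j - 2, by omega⟩
    have hi : 1 ≤ i := by omega
    have h6 : (2 : ℤ) ^ i ∣ a₁ ^ 2 * b - 1 := by
      obtain ⟨c, hc⟩ := h
      refine ⟨c, ?_⟩
      push_cast at hc
      have : (4 : ℤ) * (a₁ ^ 2 * b - 1) = 4 * (2 ^ i * c) := by
        rw [pow_add] at hc
        linear_combination hc
      linarith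
    have h7 : (2 : ℤ) ^ i ∣ a₁ ^ 2 * (b - b') := by
      obtain ⟨c, hc⟩ := hsub
      refine ⟨c, ?_⟩
      push_cast at hc
      have : (4 : ℤ) * (a₁ ^ 2 * (b - b')) = 4 * (2 ^ i * c) := by
        rw [pow_add] at hc
        linear_combination hc
      linarith
    have h8 : ¬ (2 : ℤ) ∣ a₁ := by
      intro h8
      have h9 : (2 : ℤ) ∣ a₁ ^ 2 * b - 1 := (dvd_pow_self _ (by omega)).trans h6
      have h10 : (2 : ℤ) ∣ a₁ ^ 2 * b := (dvd_pow h8 (by norm_num)).mul_right b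
      have h11 := dvd_sub h10 h9
      have e : a₁ ^ 2 * b - (a₁ ^ 2 * b - 1) = 1 := by ring
      rw [e] at h11
      norm_num at h11
    have h9 : IsCoprime ((2 : ℤ) ^ i) (a₁ ^ 2) := by
      apply IsCoprime.pow
      exact (Prime.coprime_iff_not_dvd Int.prime_two).2 h8
    have h10 : (2 : ℤ) ^ i ∣ b - b' := h9.dvd_of_dvd_mul_left h7
    simpa using h10
  · have h9 : IsCoprime ((p : ℤ) ^ j) (a ^ 2) := by
      apply IsCoprime.pow
      exact (Prime.coprime_iff_not_dvd hpp).2 hpa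
    exact (pow_dvd_pow _ (by omega)).trans (h9.dvd_of_dvd_mul_left hsub)

open Classical in
theorem exc_card (a w j N : ℕ) (ha : 1 ≤ a) (hj : 3 ≤ j) :
    (((Icc (-(N : ℤ)) N).filter (fun b : ℤ => ∃ p : ℕ, p.Prime ∧ p ≤ w ∧
      ((p : ℤ) ^ j ∣ b ∨ (p : ℤ) ^ j ∣ (a : ℤ) ^ 2 * b - 4))).card : ℝ) ≤
      w * (10 * (N : ℝ) / 2 ^ j + 2) := by
  set P := (Icc 1 w).filter Nat.Prime with hP
  set A : ℕ → Finset ℤ := fun p => (Icc (-(N : ℤ)) N).filter (fun b : ℤ => (p : ℤ) ^ j ∣ b) with hA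
  set B : ℕ → Finset ℤ := fun p => (Icc (-(N : ℤ)) N).filter
    (fun b : ℤ => (p : ℤ) ^ j ∣ (a : ℤ) ^ 2 * b - 4) with hB
  have hsub : (Icc (-(N : ℤ)) N).filter (fun b : ℤ => ∃ p : ℕ, p.Prime ∧ p ≤ w ∧
      ((p : ℤ) ^ j ∣ b ∨ (p : ℤ) ^ j ∣ (a : ℤ) ^ 2 * b - 4)) ⊆ P.biUnion (fun p => A p ∪ B p) := by
    intro b hb
    rw [mem_filter] at hb
    obtain ⟨hbI, p, hp, hpw, h⟩ := hb
    rw [mem_biUnion]
    refine ⟨p, ?_, ?_⟩
    · rw [hP, mem_filter, mem_Icc]
      exact ⟨⟨hp.one_lt.le, hpw⟩, hp⟩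
    · rw [mem_union]
      rcases h with h | h
      · left; rw [hA]; exact mem_filter.2 ⟨hbI, h⟩
      · right; rw [hB]; exact mem_filter.2 ⟨hbI, h⟩
  have hpow : (0 : ℝ) < 2 ^ j := by positivity
  have hone : ∀ p ∈ P, (((A p ∪ B p).card : ℕ) : ℝ) ≤ 10 * (N : ℝ) / 2 ^ j + 2 := by
    intro p hp
    rw [hP, mem_filter] at hp
    have hpp := hp.2
    have h2p : (2 : ℝ) ≤ p := by exact_mod_cast hpp.two_le
    have hAc : (((A p).card : ℕ) : ℝ) ≤ 2 * N / 2 ^ j + 1 := by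
      have h1 : (A p).card ≤ 2 * N / (p ^ j) + 1 := by
        apply card_le_of_congr N (p ^ j) (Nat.one_le_pow _ _ hpp.pos)
        · intro x hx
          rw [hA, mem_filter, mem_Icc] at hx
          exact hx.1
        · intro x hx y hy
          rw [hA, mem_filter] at hx hy
          push_cast
          exact dvd_sub hx.2 hy.2
      have h2 : (((2 * N / (p ^ j) : ℕ)) : ℝ) ≤ (2 * N : ℝ) / (p : ℝ) ^ j := by
        have := @Nat.cast_div_le ℝ _ _ _ (2 * N) (p ^ j)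
        push_cast at this
        exact this
      have h3 : (2 * N : ℝ) / (p : ℝ) ^ j ≤ 2 * N / 2 ^ j := by
        apply div_le_div_of_nonneg_left (by positivity) hpow
        exact pow_le_pow_left₀ (by norm_num) h2p j
      have h4 : (((A p).card : ℕ) : ℝ) ≤ ((2 * N / (p ^ j) : ℕ) : ℝ) + 1 := by exact_mod_cast h1
      linarith
    have hBc : (((B p).card : ℕ) : ℝ) ≤ 8 * N / 2 ^ j + 1 := by
      have h1 : (B p).card ≤ 2 * N / (p ^ (j - 2)) + 1 := by
        apply card_le_of_congr N (p ^ (j - 2)) (Nat.one_le_pow _ _ hpp.pos)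
        · intro x hx
          rw [hB, mem_filter, mem_Icc] at hx
          exact hx.1
        · intro x hx y hy
          rw [hB, mem_filter] at hx hy
          push_cast
          exact exc_pair p j a x y hpp hj hx.2 hy.2
      have h2 : (((2 * N / (p ^ (j - 2)) : ℕ)) : ℝ) ≤ (2 * N : ℝ) / (p : ℝ) ^ (j - 2) := by
        have := @Nat.cast_div_le ℝ _ _ _ (2 * N) (p ^ (j - 2))
        push_cast at this
        exact this
      have h3 : (2 * N : ℝ) / (p : ℝ) ^ (j - 2) ≤ 2 * N / 2 ^ (j - 2) := by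
        apply div_le_div_of_nonneg_left (by positivity) (by positivity)
        exact pow_le_pow_left₀ (by norm_num) h2p _
      have h3' : (2 * N : ℝ) / 2 ^ (j - 2) = 8 * N / 2 ^ j := by
        obtain ⟨i, rfl⟩ : ∃ i, j = i + 2 := ⟨j - 2, by omega⟩
        rw [Nat.add_sub_cancel, pow_add]
        field_simp
        ring
      have h4 : (((B p).card : ℕ) : ℝ) ≤ ((2 * N / (p ^ (j - 2)) : ℕ) : ℝ) + 1 := by exact_mod_cast h1
      linarith
    have hu : (((A p ∪ B p).card : ℕ) : ℝ) ≤ (A p).card + (B p).card := by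
      exact_mod_cast card_union_le _ _
    have e : 10 * (N : ℝ) / 2 ^ j = 2 * N / 2 ^ j + 8 * N / 2 ^ j := by ring
    linarith
  have hPw : ((P.card : ℕ) : ℝ) ≤ w := by
    have : P.card ≤ w := by
      calc P.card ≤ (Icc 1 w).card := card_filter_le _ _
        _ = w := by simp
    exact_mod_cast this
  calc (((Icc (-(N : ℤ)) N).filter (fun b : ℤ => ∃ p : ℕ, p.Prime ∧ p ≤ w ∧
      ((p : ℤ) ^ j ∣ b ∨ (p : ℤ) ^ j ∣ (a : ℤ) ^ 2 * b - 4))).card : ℝ)
      ≤ ((P.biUnion (fun p => A p ∪ B p)).card : ℝ) := by exact_mod_cast card_le_card hsub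
    _ ≤ ((∑ p ∈ P, (A p ∪ B p).card : ℕ) : ℝ) := by exact_mod_cast card_biUnion_le
    _ = ∑ p ∈ P, (((A p ∪ B p).card : ℕ) : ℝ) := by push_cast; rfl
    _ ≤ ∑ _p ∈ P, (10 * (N : ℝ) / 2 ^ j + 2) := sum_le_sum hone
    _ = P.card * (10 * (N : ℝ) / 2 ^ j + 2) := by rw [sum_const, nsmul_eq_mul]
    _ ≤ w * (10 * (N : ℝ) / 2 ^ j + 2) := by
        apply mul_le_mul_of_nonneg_right hPw
        positivity

end Pool.Agent.MKA
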