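import Pool.Agent.MKA.Defs
import Pool.Agent.H8.AlmostAll

/-!
# MKA/LargeA: large `a`

Same proof as `Pool.Agent.H8.AlmostAll.exceptional_mem_cand`, for one fixed `a`.
`|a| ≤ 3`: the number is at most `2N+1 ≤ 3N ≤ 9N/|a|`.  Let `|a| ≥ 4`.  A `b` in the set (with `Sol`, not a sum
of two squares; the other direction of the equivalence is `solvable_of_isSumTwoSq`) is, by `reduction`
and the computations in `exceptional_mem_cand`, of the form `x²+y²+z²+|a|xyz` with `x,y,z ≥ 1`,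
`|a|xyz ≤ N`, or `x²+y²+z²-|a|xyz` with `|a|xyz ≤ 4N`.  The number of triples of positive integers with
`xyz ≤ K` (`K = ⌊M/|a|⌋`) is at most `∑_{x,y ≤ K} K/(xy) ≤ K (1+log K)²`.  So the number of `b` is at most
`(N/|a|)(1+log N)² + (4N/|a|)(1+log N)² ≤ 9 N (1+log N)²/|a|` (`K ≤ 4N/|a| ≤ N`, so `1 + log K ≤ 1 + log N`).
Size: 120-150 lines.
-/

set_option autoImplicit false

namespace Pool.Agent.MKA

open Finset

/-- Triples of positive integers with product at most `M`. -/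
private def T3 (M : ℕ) : Finset (ℕ × ℕ × ℕ) :=
  (Icc 1 M ×ˢ Icc 1 M ×ˢ Icc 1 M).filter (fun q => q.1 * q.2.1 * q.2.2 ≤ M)

private theorem card_T3_le (M : ℕ) : ((T3 M).card : ℝ) ≤ M * (1 + Real.log M) ^ 2 := by
  classical
  have h1 : (T3 M).card ≤ ∑ x ∈ Icc 1 M, ∑ y ∈ Icc 1 M, M / (x * y) := by
    have : T3 M ⊆ ((Icc 1 M ×ˢ Icc 1 M).sigma
        (fun t => Icc 1 (M / (t.1 * t.2)))).image
        (fun s => (s.1.1, s.1.2, s.2)) := by
      intro q hq
      simp only [T3, mem_filter, mem_product, mem_Icc] at hq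
      simp only [mem_image, mem_sigma, mem_product, mem_Icc, Sigma.exists]
      refine ⟨(q.1, q.2.1), q.2.2, ⟨⟨hq.1.1, hq.1.2.1⟩, hq.1.2.2.1, ?_⟩, rfl⟩
      rw [Nat.le_div_iff_mul_le]
      · calc q.2.2 * (q.1 * q.2.1) = q.1 * q.2.1 * q.2.2 := by ring
          _ ≤ M := hq.2
      · have h1 : 0 < q.1 := by omega
        have h2 : 0 < q.2.1 := by omega
        positivity
    calc (T3 M).card ≤ _ := card_le_card this
      _ ≤ _ := card_image_le
      _ = ∑ x ∈ Icc 1 M, ∑ y ∈ Icc 1 M, M / (x * y) := by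
        rw [card_sigma, sum_product]
        simp
  have h2 : (((∑ x ∈ Icc 1 M, ∑ y ∈ Icc 1 M, M / (x * y) : ℕ)) : ℝ) ≤
      M * (∑ x ∈ Icc 1 M, (x : ℝ)⁻¹) ^ 2 := by
    push_cast
    have h3 : (M : ℝ) * (∑ x ∈ Icc 1 M, (x : ℝ)⁻¹) ^ 2 =
        ∑ x ∈ Icc 1 M, ∑ y ∈ Icc 1 M, (M : ℝ) * ((x : ℝ)⁻¹ * (y : ℝ)⁻¹) := by
      rw [pow_succ, pow_one, Finset.sum_mul_sum, Finset.mul_sum]
      refine sum_congr rfl fun x _ => ?_
      rw [Finset.mul_sum]
    rw [h3]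
    apply sum_le_sum; intro x _
    apply sum_le_sum; intro y _
    refine le_trans Nat.cast_div_le ?_
    push_cast
    rw [div_eq_mul_inv, mul_inv]
  have h4 : (∑ x ∈ Icc 1 M, (x : ℝ)⁻¹) ≤ 1 + Real.log M := by
    have := harmonic_le_one_add_log M
    rw [harmonic_eq_sum_Icc] at this
    push_cast at this
    exact this
  have h5 : (0 : ℝ) ≤ ∑ x ∈ Icc 1 M, (x : ℝ)⁻¹ := sum_nonneg (fun _ _ => by positivity)
  calc ((T3 M).card : ℝ) ≤ ((∑ x ∈ Icc 1 M, ∑ y ∈ Icc 1 M, M / (x * y) : ℕ) : ℝ) := by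
        exact_mod_cast h1
    _ ≤ _ := h2
    _ ≤ _ := by gcongr

private theorem mem_T3 (M : ℕ) (a x y z : ℤ) (ha : a ≠ 0) (hx : 1 ≤ x) (hy : 1 ≤ y) (hz : 1 ≤ z)
    (h : |a| * (x * y * z) ≤ M) : (x.toNat, y.toNat, z.toNat) ∈ T3 (M / a.natAbs) := by
  lift x to ℕ using by omega
  lift y to ℕ using by omega
  lift z to ℕ using by omega
  have hx' : 1 ≤ x := by exact_mod_cast hx
  have hy' : 1 ≤ y := by exact_mod_cast hy
  have hz' : 1 ≤ z := by exact_mod_cast hz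
  have hA : 0 < a.natAbs := Int.natAbs_pos.mpr ha
  have h1 : x * y * z ≤ M / a.natAbs := by
    rw [Nat.le_div_iff_mul_le hA]
    zify
    rw [mul_comm]
    exact h
  have hxy : 1 ≤ x * y := Nat.mul_pos hx' hy'
  have h2 : x ≤ x * y * z := by
    calc x = x * 1 * 1 := by ring
      _ ≤ x * y * z := Nat.mul_le_mul (Nat.mul_le_mul le_rfl hy') hz'
  have h3 : y ≤ x * y * z := by
    calc y = 1 * y * 1 := by ring
      _ ≤ x * y * z := Nat.mul_le_mul (Nat.mul_le_mul hx' le_rfl) hz'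
  have h4 : z ≤ x * y * z := by
    calc z = 1 * z := by ring
      _ ≤ x * y * z := Nat.mul_le_mul hxy le_rfl
  simp only [T3, mem_filter, mem_product, mem_Icc, Int.toNat_natCast]
  exact ⟨⟨⟨hx', h2.trans h1⟩, ⟨hy', h3.trans h1⟩, ⟨hz', h4.trans h1⟩⟩, h1⟩

private theorem exc_mem (N : ℕ) (a b : ℤ) (ha : 4 ≤ |a|) (hb : |b| ≤ N) (hS : Sol a b)
    (hT : ¬ ∃ u v : ℤ, b = u ^ 2 + v ^ 2) :
    b ∈ (T3 (N / a.natAbs)).image (fun q => (q.1 : ℤ) ^ 2 + (q.2.1 : ℤ) ^ 2 + (q.2.2 : ℤ) ^ 2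
        + |a| * ((q.1 : ℤ) * q.2.1 * q.2.2)) ∪
      (T3 (4 * N / a.natAbs)).image (fun q => (q.1 : ℤ) ^ 2 + (q.2.1 : ℤ) ^ 2 + (q.2.2 : ℤ) ^ 2
        - |a| * ((q.1 : ℤ) * q.2.1 * q.2.2)) := by
  have ha0 : a ≠ 0 := by
    intro h
    rw [h] at ha
    simp at ha
  rcases Pool.Agent.H8.Markoff.reduction a b hS with
    ⟨x, y, z, hx, hxy, hyz, h⟩ | ⟨hbneg, x, y, z, hx, hxy, hyz, hz, h⟩
  · have hx1 : 1 ≤ x := by
      by_contra hcon
      have hx0 : x = 0 := by omega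
      apply hT
      refine ⟨y, z, ?_⟩
      rw [← h, hx0]; ring
    have hy1 : 1 ≤ y := le_trans hx1 hxy
    have hz1 : 1 ≤ z := le_trans hy1 hyz
    have hle : |a| * (x * y * z) ≤ N := by
      have := le_trans (le_abs_self b) hb
      nlinarith [sq_nonneg x, sq_nonneg y, sq_nonneg z]
    apply mem_union_left
    rw [mem_image]
    refine ⟨_, mem_T3 N a x y z ha0 hx1 hy1 hz1 hle, ?_⟩
    simp only []
    rw [Int.toNat_of_nonneg (by omega), Int.toNat_of_nonneg (by omega),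
      Int.toNat_of_nonneg (by omega), ← h]
  · have hy1 : 1 ≤ y := le_trans hx hxy
    have hz1 : 1 ≤ z := le_trans hy1 hyz
    have hax4 : 4 ≤ |a| * x := by nlinarith
    have h4y : 4 * y ≤ |a| * (x * y) := by nlinarith
    have hkey := Pool.Agent.H8.AlmostAll.four_mul_ge (|a| * (x * y)) x y z hx hxy hyz hz h4y
    have hle : |a| * (x * y * z) ≤ ((4 * N : ℕ) : ℤ) := by
      have h1 : |a| * (x * y) * z = |a| * (x * y * z) := by ring
      have h2 := le_trans (neg_le_abs b) hb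
      rw [h1] at hkey
      push_cast
      linarith
    apply mem_union_right
    rw [mem_image]
    refine ⟨_, mem_T3 (4 * N) a x y z ha0 hx hy1 hz1 hle, ?_⟩
    simp only []
    rw [Int.toNat_of_nonneg (by omega), Int.toNat_of_nonneg (by omega),
      Int.toNat_of_nonneg (by omega), ← h]

private theorem T3_bound (N K : ℕ) (hK : K ≤ N) :
    ((T3 K).card : ℝ) ≤ K * (1 + Real.log N) ^ 2 := by
  refine (card_T3_le K).trans ?_
  rcases Nat.eq_zero_or_pos K with h | h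
  · subst h
    simp
  · have h1 : (1 : ℝ) ≤ K := by exact_mod_cast h
    have h2 : (K : ℝ) ≤ N := by exact_mod_cast hK
    have h3 : 0 ≤ Real.log K := Real.log_nonneg h1
    have h4 : Real.log K ≤ Real.log N := Real.log_le_log (by linarith) h2
    gcongr

open Classical in
theorem large_a (N : ℕ) (a : ℤ) (hN : 1 ≤ N) (ha : a ≠ 0) :
    (((Icc (-(N : ℤ)) N).filter
      (fun b : ℤ => ¬ (Sol a b ↔ ∃ u v : ℤ, b = u ^ 2 + v ^ 2))).card : ℝ) ≤
      9 * N * (1 + Real.log N) ^ 2 / |(a : ℝ)| := by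
  have hNr : (1 : ℝ) ≤ N := by exact_mod_cast hN
  have hlog : 0 ≤ Real.log N := Real.log_nonneg hNr
  have hL : (1 : ℝ) ≤ (1 + Real.log N) ^ 2 := one_le_pow₀ (by linarith)
  have hapos : (0 : ℝ) < |(a : ℝ)| := abs_pos.mpr (by exact_mod_cast ha)
  have hcast : |(a : ℝ)| = ((a.natAbs : ℕ) : ℝ) := by
    rw [Nat.cast_natAbs]
    push_cast
    rfl
  by_cases h4 : 4 ≤ |a|
  · have hA4 : 4 ≤ a.natAbs := by
      have hna := Int.natCast_natAbs a
      omega
    have hsub : (Icc (-(N : ℤ)) N).filter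
        (fun b : ℤ => ¬ (Sol a b ↔ ∃ u v : ℤ, b = u ^ 2 + v ^ 2)) ⊆
        (T3 (N / a.natAbs)).image (fun q => (q.1 : ℤ) ^ 2 + (q.2.1 : ℤ) ^ 2 + (q.2.2 : ℤ) ^ 2
          + |a| * ((q.1 : ℤ) * q.2.1 * q.2.2)) ∪
        (T3 (4 * N / a.natAbs)).image (fun q => (q.1 : ℤ) ^ 2 + (q.2.1 : ℤ) ^ 2 + (q.2.2 : ℤ) ^ 2
          - |a| * ((q.1 : ℤ) * q.2.1 * q.2.2)) := by
      intro b hb
      rw [mem_filter, mem_Icc] at hb
      obtain ⟨hb1, hb2⟩ := hb
      have hnot : ¬ ∃ u v : ℤ, b = u ^ 2 + v ^ 2 := by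
        intro h
        apply hb2
        refine ⟨fun _ => h, fun _ => ?_⟩
        obtain ⟨u, v, h⟩ := h
        exact ⟨0, u, v, by rw [h]; ring⟩
      have hS : Sol a b := by
        by_contra hcon
        exact hb2 ⟨fun h => absurd h hcon, fun h => absurd h hnot⟩
      have := exc_mem N a b h4 (abs_le.2 hb1) hS hnot
      convert this
    have h1 := (card_le_card hsub).trans ((card_union_le _ _).trans
      (add_le_add card_image_le card_image_le))
    have h1' : (((Icc (-(N : ℤ)) N).filter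
        (fun b : ℤ => ¬ (Sol a b ↔ ∃ u v : ℤ, b = u ^ 2 + v ^ 2))).card : ℝ) ≤
        ((T3 (N / a.natAbs)).card : ℝ) + ((T3 (4 * N / a.natAbs)).card : ℝ) := by
      exact_mod_cast h1
    have hK1 : N / a.natAbs ≤ N := Nat.div_le_self _ _
    have hK2 : 4 * N / a.natAbs ≤ N := by
      apply Nat.div_le_of_le_mul
      exact Nat.mul_le_mul_right N hA4
    have h2 := T3_bound N _ hK1
    have h3 := T3_bound N _ hK2
    have h5 : ((N / a.natAbs : ℕ) : ℝ) ≤ N / |(a : ℝ)| := by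
      rw [hcast]
      exact Nat.cast_div_le
    have h6 : ((4 * N / a.natAbs : ℕ) : ℝ) ≤ 4 * N / |(a : ℝ)| := by
      rw [hcast]
      have := @Nat.cast_div_le ℝ _ _ _ (4 * N) a.natAbs
      push_cast at this ⊢
      exact this
    have h7 : ((N / a.natAbs : ℕ) : ℝ) * (1 + Real.log N) ^ 2 ≤ N / |(a : ℝ)| * (1 + Real.log N) ^ 2 :=
      mul_le_mul_of_nonneg_right h5 (by positivity)
    have h8 : ((4 * N / a.natAbs : ℕ) : ℝ) * (1 + Real.log N) ^ 2 ≤
        4 * N / |(a : ℝ)| * (1 + Real.log N) ^ 2 :=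
      mul_le_mul_of_nonneg_right h6 (by positivity)
    have h9 : 9 * N * (1 + Real.log N) ^ 2 / |(a : ℝ)| =
        N / |(a : ℝ)| * (1 + Real.log N) ^ 2 + 4 * N / |(a : ℝ)| * (1 + Real.log N) ^ 2 +
          4 * N / |(a : ℝ)| * (1 + Real.log N) ^ 2 := by
      field_simp
      ring
    have h10 : 0 ≤ 4 * N / |(a : ℝ)| * (1 + Real.log N) ^ 2 := by positivity
    rw [h9]
    linarith
  · have h1 : ((Icc (-(N : ℤ)) N).filter
        (fun b : ℤ => ¬ (Sol a b ↔ ∃ u v : ℤ, b = u ^ 2 + v ^ 2))).card ≤ 2 * N + 1 := by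
      refine (card_filter_le _ _).trans ?_
      rw [Int.card_Icc]
      omega
    have h2 : (((Icc (-(N : ℤ)) N).filter
        (fun b : ℤ => ¬ (Sol a b ↔ ∃ u v : ℤ, b = u ^ 2 + v ^ 2))).card : ℝ) ≤ 2 * N + 1 := by
      exact_mod_cast h1
    have h3 : |(a : ℝ)| ≤ 3 := by
      have : |a| ≤ 3 := by omega
      exact_mod_cast this
    rw [le_div_iff₀ hapos]
    have h5 : (2 * (N : ℝ) + 1) * |(a : ℝ)| ≤ 3 * N * 3 := by
      apply mul_le_mul (by linarith) h3 hapos.le (by positivity)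
    have h6 : (((Icc (-(N : ℤ)) N).filter
        (fun b : ℤ => ¬ (Sol a b ↔ ∃ u v : ℤ, b = u ^ 2 + v ^ 2))).card : ℝ) * |(a : ℝ)| ≤
        (2 * (N : ℝ) + 1) * |(a : ℝ)| := mul_le_mul_of_nonneg_right h2 hapos.le
    nlinarith

end Pool.Agent.MKA
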