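import Pool.Agent.MKA.FinPosC
import Pool.Agent.MKA.LargeA
import Pool.Agent.H8.MarkoffLocal2

/-!
# MKA/FinAllC: the theorem for all `N ≥ 16` and all `a` of either sign
-/

set_option autoImplicit false

namespace Pool.Agent.MKA

open Finset

theorem Sol_neg (a b : ℤ) : Sol (-a) b ↔ Sol a b := by
  constructor
  · rintro ⟨x, y, z, h⟩
    exact ⟨-x, y, z, by linear_combination h⟩
  · rintro ⟨x, y, z, h⟩
    exact ⟨-x, y, z, by linear_combination h⟩

theorem loc_neg (a b : ℤ) (h : ∀ m : ℕ, 0 < m →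
    ∃ x y z : ℤ, (m : ℤ) ∣ x ^ 2 + y ^ 2 + z ^ 2 - (-a) * x * y * z - b) :
    ∀ m : ℕ, 0 < m → ∃ x y z : ℤ, (m : ℤ) ∣ x ^ 2 + y ^ 2 + z ^ 2 - a * x * y * z - b := by
  intro m hm
  obtain ⟨x, y, z, h⟩ := h m hm
  refine ⟨-x, y, z, ?_⟩
  have : (-x) ^ 2 + y ^ 2 + z ^ 2 - a * (-x) * y * z - b =
      x ^ 2 + y ^ 2 + z ^ 2 - (-a) * x * y * z - b := by ring
  rw [this]; exact h

theorem loc_of_Sol (a b : ℤ) (h : Sol a b) : Pool.Agent.H8.MarkoffLocal.Loc a b := by
  obtain ⟨x, y, z, h⟩ := h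
  intro m _
  exact ⟨x, y, z, by rw [h]; simp⟩

open Classical in
theorem fin_all : ∃ C : ℝ, 0 < C ∧ ∀ (N : ℕ) (a : ℤ), 16 ≤ N → a ≠ 0 →
    2 * |(a : ℝ)| ≤ (Real.log N) ^ 2 →
    (((Icc (-(N : ℤ)) N).filter (fun b : ℤ =>
      ¬ (Sol a b ↔ Pool.Agent.H8.MarkoffLocal.LocCond a b))).card : ℝ) ≤
      C * N / (Real.log ((Real.log N) ^ 2 / |(a : ℝ)|)) ^ (1 / 4 : ℝ) := by
  obtain ⟨C, hC, K₀, N₀, hN₀⟩ := fin_pos
  set M : ℕ := max N₀ 16 with hM
  set C₁ : ℝ := 3 * (Real.log ((Real.log M) ^ 2)) ^ (1 / 4 : ℝ) with hC₁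
  set C₂ : ℝ := 3 * (Real.log (max K₀ 2)) ^ (1 / 4 : ℝ) with hC₂
  refine ⟨max C (max C₁ C₂), lt_max_of_lt_left hC, ?_⟩
  intro N a hN ha haL
  have haR : 0 < |(a : ℝ)| := by
    rw [abs_pos]; exact_mod_cast ha
  have haR1 : 1 ≤ |(a : ℝ)| := by
    have : (1 : ℤ) ≤ |a| := Int.one_le_abs ha
    exact_mod_cast this
  set K : ℝ := (Real.log N) ^ 2 / |(a : ℝ)| with hK
  have hK2 : 2 ≤ K := by
    rw [hK, le_div_iff₀ haR]; exact haL
  have hLK : 0 < Real.log K := Real.log_pos (by linarith)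
  have hLKp : 0 < (Real.log K) ^ (1 / 4 : ℝ) := Real.rpow_pos_of_pos hLK _
  have hNr : (0 : ℝ) ≤ N := Nat.cast_nonneg N
  have hlogN : 0 < Real.log N := by
    apply Real.log_pos
    have : 1 < N := by omega
    exact_mod_cast this
  have hcard : (((Icc (-(N : ℤ)) N).filter (fun b : ℤ =>
      ¬ (Sol a b ↔ Pool.Agent.H8.MarkoffLocal.LocCond a b))).card : ℝ) ≤ 3 * N := by
    have h1 := card_filter_le (Icc (-(N : ℤ)) N) (fun b : ℤ =>
      ¬ (Sol a b ↔ Pool.Agent.H8.MarkoffLocal.LocCond a b))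
    rw [Int.card_Icc] at h1
    have h2 : ((N : ℤ) + 1 - -(N : ℤ)).toNat ≤ 3 * N := by omega
    exact_mod_cast h1.trans h2
  by_cases hlarge : N₀ ≤ N
  · by_cases hKl : K₀ ≤ K
    · have hsub : (Icc (-(N : ℤ)) N).filter (fun b : ℤ =>
          ¬ (Sol a b ↔ Pool.Agent.H8.MarkoffLocal.LocCond a b)) ⊆
          (Icc (-(N : ℤ)) N).filter (fun b : ℤ => (∀ m : ℕ, 0 < m →
            ∃ x y z : ℤ, (m : ℤ) ∣ x ^ 2 + y ^ 2 + z ^ 2 - ((a.natAbs : ℕ) : ℤ) * x * y * z - b) ∧
              ¬ Sol (a.natAbs : ℤ) b) := by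
        intro b hb
        rw [mem_filter] at hb ⊢
        refine ⟨hb.1, ?_⟩
        have h1 : Pool.Agent.H8.MarkoffLocal.Loc a b ∧ ¬ Sol a b := by
          rw [← Pool.Agent.H8.MarkoffLocal.loc_iff] at hb
          by_cases hs : Sol a b
          · exact absurd ⟨fun _ => loc_of_Sol a b hs, fun _ => hs⟩ hb.2
          · refine ⟨?_, hs⟩
            by_contra hl
            exact hb.2 ⟨fun h => absurd h hs, fun h => absurd h hl⟩
        rcases Int.natAbs_eq a with h | h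
        · rw [← h]; exact h1
        · have h2 : ((a.natAbs : ℕ) : ℤ) = -a := by omega
          rw [h2]
          refine ⟨?_, fun h => h1.2 ((Sol_neg a b).1 h)⟩
          apply loc_neg
          rw [neg_neg]
          exact h1.1
      have hna : 1 ≤ a.natAbs := by
        have := Int.natAbs_pos.2 ha
        omega
      have hcast : ((a.natAbs : ℕ) : ℝ) = |(a : ℝ)| := by
        rw [Nat.cast_natAbs, Int.cast_abs]
      have h3 := hN₀ N hlarge a.natAbs hna (by rw [hcast]; exact hKl)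
      rw [hcast] at h3
      calc _ ≤ _ := by exact_mod_cast card_le_card hsub
        _ ≤ _ := h3
        _ ≤ _ := by
          apply div_le_div_of_nonneg_right _ hLKp.le
          exact mul_le_mul_of_nonneg_right (le_max_left _ _) hNr
    · refine hcard.trans ?_
      rw [le_div_iff₀ hLKp]
      have hmono : (Real.log K) ^ (1 / 4 : ℝ) ≤ (Real.log (max K₀ 2)) ^ (1 / 4 : ℝ) := by
        apply Real.rpow_le_rpow hLK.le _ (by norm_num)
        apply Real.log_le_log (by linarith)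
        exact le_trans (le_of_lt (not_le.1 hKl)) (le_max_left _ _)
      calc 3 * (N : ℝ) * (Real.log K) ^ (1 / 4 : ℝ)
          ≤ 3 * (N : ℝ) * (Real.log (max K₀ 2)) ^ (1 / 4 : ℝ) := by gcongr
        _ = C₂ * N := by rw [hC₂]; ring
        _ ≤ max C (max C₁ C₂) * N := by
          apply mul_le_mul_of_nonneg_right _ hNr
          exact le_trans (le_max_right _ _) (le_max_right _ _)
  · refine hcard.trans ?_
    rw [le_div_iff₀ hLKp]
    have hle : N ≤ M := by omega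
    have hmono : (Real.log K) ^ (1 / 4 : ℝ) ≤
        (Real.log ((Real.log M) ^ 2)) ^ (1 / 4 : ℝ) := by
      apply Real.rpow_le_rpow hLK.le _ (by norm_num)
      apply Real.log_le_log (by linarith)
      have hN1 : (0 : ℝ) < N := by
        have : 0 < N := by omega
        exact_mod_cast this
      have h1 : Real.log N ≤ Real.log M := by
        apply Real.log_le_log hN1
        exact_mod_cast hle
      calc K ≤ (Real.log N) ^ 2 := by
            rw [hK]; exact div_le_self (by positivity) haR1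
        _ ≤ (Real.log M) ^ 2 := by gcongr
    calc 3 * (N : ℝ) * (Real.log K) ^ (1 / 4 : ℝ)
        ≤ 3 * (N : ℝ) * (Real.log ((Real.log M) ^ 2)) ^ (1 / 4 : ℝ) := by gcongr
      _ = C₁ * N := by rw [hC₁]; ring
      _ ≤ max C (max C₁ C₂) * N := by
          apply mul_le_mul_of_nonneg_right _ hNr
          exact le_trans (le_max_left _ _) (le_max_right _ _)

end Pool.Agent.MKA
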