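import Mathlib

/-!
# MKA/FinParC: the final parameters as functions of `K = (log N)²/a`

`w = WK K = ⌊√(log K)/8⌋`, `q = (primorial w)^w ≤ 4^(w²) ≤ exp(1.3863 · log K/64) ≤ K^(1/40)`
(`primorial_le_4_pow`; `1.3863/64 < 1/40`); `w → ∞`, `w ≤ √(log K)`, so `C₁ q² w ≤ C₁ K^(1/20) √(log K) ≤ K` and
`q w² ≤ K^(1/40) log K ≤ √K` for large `K`.
`exc_small`: `j = ((w-1)/2)/2` (natural division) satisfies `j ≥ 3`, `10 w ≤ 2^j/√w` for large `w`
(`j ≥ w/4 - 2`).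
`1/√w ≤ 4/(log K)^(1/4)` (`w ≥ √(log K)/16`).
Size: 120 lines.
-/

set_option autoImplicit false

namespace Pool.Agent.MKA

open Finset

/-- `w = ⌊√(log K)/8⌋`. -/
noncomputable def WK (K : ℝ) : ℕ := ⌊Real.sqrt (Real.log K) / 8⌋₊

theorem WK_large (C : ℕ) : ∃ K₀ : ℝ, ∀ K : ℝ, K₀ ≤ K → C ≤ WK K := by
  refine ⟨Real.exp ((8 * C) ^ 2), ?_⟩
  intro K hK
  have hK0 : 0 < K := (Real.exp_pos _).trans_le hK
  have hL : ((8 : ℝ) * C) ^ 2 ≤ Real.log K := by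
    rw [Real.le_log_iff_exp_le hK0]; exact hK
  unfold WK
  apply Nat.le_floor
  rw [le_div_iff₀ (by norm_num)]
  have h1 : (8 : ℝ) * C ≤ Real.sqrt (Real.log K) := Real.le_sqrt_of_sq_le hL
  linarith

theorem WK_bds (K : ℝ) (hL0 : 0 ≤ Real.log K) :
    (((primorial (WK K)) ^ (WK K) : ℕ) : ℝ) ≤ Real.exp (Real.log K / 40) ∧
      (WK K : ℝ) ^ 2 ≤ Real.log K / 64 ∧ (WK K : ℝ) ≤ 1 + Real.log K / 2 := by
  set L := Real.log K with hL
  have hsL := Real.sqrt_nonneg L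
  have hw : (WK K : ℝ) ≤ Real.sqrt L / 8 := Nat.floor_le (by positivity)
  have hw0 : (0 : ℝ) ≤ (WK K : ℝ) := by positivity
  have hsq : Real.sqrt L ^ 2 = L := Real.sq_sqrt hL0
  have hw2 : (WK K : ℝ) ^ 2 ≤ L / 64 := by
    calc (WK K : ℝ) ^ 2 ≤ (Real.sqrt L / 8) ^ 2 := pow_le_pow_left₀ hw0 hw 2
      _ = L / 64 := by rw [div_pow, hsq]; norm_num
  refine ⟨?_, hw2, ?_⟩
  · have h1 : (primorial (WK K)) ^ (WK K) ≤ (4 ^ (WK K)) ^ (WK K) :=
      Nat.pow_le_pow_left (primorial_le_four_pow _) _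
    have h2 : (((primorial (WK K)) ^ (WK K) : ℕ) : ℝ) ≤ (4 : ℝ) ^ (WK K * WK K) := by
      rw [pow_mul]
      exact_mod_cast h1
    refine h2.trans ?_
    have h3 : (4 : ℝ) ^ (WK K * WK K) = Real.exp ((WK K : ℝ) ^ 2 * Real.log 4) := by
      have h4 : (4 : ℝ) = Real.exp (Real.log 4) := (Real.exp_log (by norm_num)).symm
      rw [h4, ← Real.exp_nat_mul, Real.log_exp]
      push_cast
      congr 1; ring
    rw [h3]
    apply Real.exp_le_exp.2
    have h5 : Real.log 4 < 1.4 := by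
      have h6 : Real.log 4 = 2 * Real.log 2 := by
        have : (4 : ℝ) = 2 ^ 2 := by norm_num
        rw [this, Real.log_pow]; norm_num
      have := Real.log_two_lt_d9
      rw [h6]; linarith
    have h7 : 0 ≤ Real.log 4 := Real.log_nonneg (by norm_num)
    calc (WK K : ℝ) ^ 2 * Real.log 4 ≤ L / 64 * 1.4 :=
          mul_le_mul hw2 h5.le h7 (by positivity)
      _ ≤ L / 40 := by linarith
  · nlinarith [sq_nonneg (Real.sqrt L - 1)]

theorem WK_q (C₁ : ℝ) : ∃ K₀ : ℝ, ∀ K : ℝ, K₀ ≤ K →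
    C₁ * (((primorial (WK K)) ^ (WK K) : ℕ) : ℝ) ^ 2 * (WK K : ℝ) ≤ K ∧
    (((primorial (WK K)) ^ (WK K) : ℕ) : ℝ) * (WK K : ℝ) ^ 2 ≤ Real.sqrt K := by
  refine ⟨Real.exp (3 * |C₁| + 1), ?_⟩
  intro K hK
  have hK0 : 0 < K := (Real.exp_pos _).trans_le hK
  have hL : 3 * |C₁| + 1 ≤ Real.log K := by
    rw [Real.le_log_iff_exp_le hK0]; exact hK
  set L := Real.log K with hLdef
  have hC0 := abs_nonneg C₁
  have hL0 : 0 ≤ L := by linarith
  have hKL : K = Real.exp L := (Real.exp_log hK0).symm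
  obtain ⟨hq, hw2, hw⟩ := WK_bds K hL0
  set q : ℝ := (((primorial (WK K)) ^ (WK K) : ℕ) : ℝ) with hqdef
  set w : ℝ := (WK K : ℝ) with hwdef
  have hq0 : 0 ≤ q := by positivity
  have hw0 : 0 ≤ w := by positivity
  rw [← hLdef] at hq hw2 hw
  constructor
  · have h1 : q ^ 2 ≤ Real.exp (L / 20) := by
      calc q ^ 2 ≤ (Real.exp (L / 40)) ^ 2 := pow_le_pow_left₀ hq0 hq 2
        _ = Real.exp (L / 20) := by rw [← Real.exp_nat_mul]; congr 1; push_cast; ring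
    have h2 : w ≤ Real.exp (L / 2) := by
      have h3 := Real.add_one_le_exp (L / 2)
      linarith
    have h3 : |C₁| ≤ Real.exp (9 * L / 20) := by
      have h4 := Real.add_one_le_exp (9 * L / 20)
      linarith
    calc C₁ * q ^ 2 * w ≤ |C₁| * q ^ 2 * w := by
          gcongr
          exact le_abs_self _
      _ ≤ Real.exp (9 * L / 20) * Real.exp (L / 20) * Real.exp (L / 2) := by gcongr
      _ = K := by
          rw [← Real.exp_add, ← Real.exp_add, hKL]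
          congr 1; ring
  · have h1 : w ^ 2 ≤ Real.exp (L / 64) := by
      have h3 := Real.add_one_le_exp (L / 64)
      linarith
    calc q * w ^ 2 ≤ Real.exp (L / 40) * Real.exp (L / 64) := by gcongr
      _ = Real.exp (L / 40 + L / 64) := by rw [← Real.exp_add]
      _ ≤ Real.exp (L / 2) := Real.exp_le_exp.2 (by linarith)
      _ = Real.sqrt K := by rw [hKL, Real.exp_half]

theorem pow_aux (j : ℕ) (hj : 16 ≤ j) : 160 * (j + 1) ^ 2 ≤ 2 ^ j := by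
  induction j, hj using Nat.le_induction with
  | base => norm_num
  | succ j hj ih =>
    have h1 : (j + 1 + 1) ^ 2 ≤ 2 * (j + 1) ^ 2 := by nlinarith
    calc 160 * (j + 1 + 1) ^ 2 ≤ 160 * (2 * (j + 1) ^ 2) := Nat.mul_le_mul_left _ h1
      _ = 2 * (160 * (j + 1) ^ 2) := by ring
      _ ≤ 2 * 2 ^ j := Nat.mul_le_mul_left _ ih
      _ = 2 ^ (j + 1) := by rw [pow_succ]; ring

theorem exc_small : ∃ w₀ : ℕ, ∀ w : ℕ, w₀ ≤ w → 3 ≤ (w - 1) / 2 / 2 ∧
    (w : ℝ) * 10 / 2 ^ ((w - 1) / 2 / 2) ≤ 1 / Real.sqrt w := by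
  refine ⟨65, ?_⟩
  intro w hw
  set j := (w - 1) / 2 / 2 with hj
  have hj16 : 16 ≤ j := by omega
  have hwj : w ≤ 4 * j + 4 := by omega
  refine ⟨by omega, ?_⟩
  have h1 := pow_aux j hj16
  have hw0 : (0 : ℝ) < w := by
    have : 0 < w := by omega
    exact_mod_cast this
  have hw1 : (1 : ℝ) ≤ w := by
    have : 1 ≤ w := by omega
    exact_mod_cast this
  have hs : 0 < Real.sqrt w := Real.sqrt_pos.2 hw0
  have hsw : Real.sqrt w ≤ w := by
    rw [Real.sqrt_le_left hw0.le]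
    nlinarith
  rw [div_le_div_iff₀ (by positivity) hs, one_mul]
  have h2 : (w : ℝ) ≤ 4 * ((j : ℝ) + 1) := by
    have : ((w : ℕ) : ℝ) ≤ ((4 * j + 4 : ℕ) : ℝ) := by exact_mod_cast hwj
    push_cast at this
    linarith
  have h3 : (160 : ℝ) * ((j : ℝ) + 1) ^ 2 ≤ 2 ^ j := by exact_mod_cast h1
  calc (w : ℝ) * 10 * Real.sqrt w ≤ w * 10 * w := by gcongr
    _ = 10 * w ^ 2 := by ring
    _ ≤ 10 * (4 * ((j : ℝ) + 1)) ^ 2 := by gcongr
    _ = 160 * ((j : ℝ) + 1) ^ 2 := by ring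
    _ ≤ 2 ^ j := h3

theorem sqrt_WK : ∃ K₀ : ℝ, ∀ K : ℝ, K₀ ≤ K →
    1 / Real.sqrt (WK K) ≤ 4 / (Real.log K) ^ (1 / 4 : ℝ) := by
  refine ⟨Real.exp 256, ?_⟩
  intro K hK
  have hK0 : 0 < K := (Real.exp_pos _).trans_le hK
  have hL : 256 ≤ Real.log K := by
    rw [Real.le_log_iff_exp_le hK0]; exact hK
  set L := Real.log K with hLdef
  have hL0 : 0 < L := by linarith
  have hs16 : 16 ≤ Real.sqrt L := by
    apply Real.le_sqrt_of_sq_le
    linarith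
  have h1 : Real.sqrt L / 8 - 1 < (WK K : ℝ) := by
    have := Nat.lt_floor_add_one (Real.sqrt L / 8)
    unfold WK
    rw [← hLdef]
    linarith
  have h2 : Real.sqrt L / 16 ≤ (WK K : ℝ) := by linarith
  have h3 : L ^ (1 / 4 : ℝ) / 4 ≤ Real.sqrt (WK K) := by
    apply Real.le_sqrt_of_sq_le
    refine le_trans (le_of_eq ?_) h2
    rw [div_pow, ← Real.rpow_natCast (L ^ (1 / 4 : ℝ)) 2, ← Real.rpow_mul hL0.le,
      Real.sqrt_eq_rpow]
    norm_num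
  have h4 : 0 < L ^ (1 / 4 : ℝ) := Real.rpow_pos_of_pos hL0 _
  calc 1 / Real.sqrt (WK K) ≤ 1 / (L ^ (1 / 4 : ℝ) / 4) :=
        one_div_le_one_div_of_le (by positivity) h3
    _ = 4 / L ^ (1 / 4 : ℝ) := by field_simp

end Pool.Agent.MKA
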