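import Mathlib

/-!
# MKA/FinWin: windows and residue classes (proof by helper56)
-/

set_option autoImplicit false

namespace Pool.Agent.MKA

open Finset

theorem finpos_window (N H q : ℕ) (hH : 1 ≤ H) (hq : 1 ≤ q) (P : ℤ → Prop) [DecidablePred P]
    (B : ℝ) (hB : 0 ≤ B)
    (h : ∀ N₁ : ℤ, -(N : ℤ) ≤ N₁ → N₁ ≤ N → ∀ b₀ : ℤ, P b₀ →
      (((Ioc N₁ (N₁ + H)).filter (fun b : ℤ => (q : ℤ) ∣ b - b₀ ∧ P b)).card : ℝ) ≤ B) :
    (((Icc (-(N : ℤ)) N).filter P).card : ℝ) ≤ 1 + ((2 * N / H : ℕ) + 1) * q * B := by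
  set F : ℕ × ℕ → Finset ℤ := fun t =>
    (Ioc (-(N : ℤ) + t.1 * H) (-(N : ℤ) + t.1 * H + H)).filter
      (fun b : ℤ => (q : ℤ) ∣ b - t.2 ∧ P b) with hF
  have hHz : (0 : ℤ) < H := by exact_mod_cast hH
  have hqz : (0 : ℤ) < q := by exact_mod_cast hq
  have hsub : (Icc (-(N : ℤ)) N).filter P ⊆
      {(-(N : ℤ))} ∪ (range (2 * N / H + 1) ×ˢ range q).biUnion F := by
    intro b hb
    rw [mem_filter, mem_Icc] at hb
    obtain ⟨⟨hb1, hb2⟩, hb3⟩ := hb
    rw [mem_union]
    by_cases hbN : b = -(N : ℤ)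
    · left; rw [mem_singleton]; exact hbN
    · right
      rw [mem_biUnion]
      have hpos : 0 ≤ b + N - 1 := by omega
      obtain ⟨m, hm⟩ := Int.eq_ofNat_of_zero_le hpos
      have hr0 : 0 ≤ b % q := Int.emod_nonneg _ (by omega)
      obtain ⟨r, hr⟩ := Int.eq_ofNat_of_zero_le hr0
      have hrq : b % q < q := Int.emod_lt_of_pos _ hqz
      refine ⟨(m / H, r), ?_, ?_⟩
      · rw [mem_product, mem_range, mem_range]
        constructor
        · have h1 : m ≤ 2 * N := by omega
          have := Nat.div_le_div_right (c := H) h1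
          show m / H < 2 * N / H + 1
          omega
        · show r < q
          rw [hr] at hrq
          exact_mod_cast hrq
      · rw [hF]
        simp only
        rw [mem_filter, mem_Ioc]
        have hd := Nat.div_add_mod m H
        have hml := Nat.mod_lt m hH
        have hd' : (H : ℤ) * ((m / H : ℕ) : ℤ) + ((m % H : ℕ) : ℤ) = m := by exact_mod_cast hd
        have hml' : ((m % H : ℕ) : ℤ) < H := by exact_mod_cast hml
        have hm0 : (0 : ℤ) ≤ ((m % H : ℕ) : ℤ) := by positivity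
        refine ⟨⟨?_, ?_⟩, ?_, hb3⟩
        · have : b = m + 1 - N := by
            have : (m : ℤ) = b + N - 1 := hm.symm
            omega
          rw [this, mul_comm ((m / H : ℕ) : ℤ) (H : ℤ)]
          omega
        · have : b = m + 1 - N := by
            have : (m : ℤ) = b + N - 1 := hm.symm
            omega
          rw [this, mul_comm ((m / H : ℕ) : ℤ) (H : ℤ)]
          omega
        · have : ((r : ℕ) : ℤ) = b % q := hr.symm
          rw [this]
          exact Int.dvd_self_sub_of_emod_eq rfl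
  have hone : ∀ t ∈ range (2 * N / H + 1) ×ˢ range q, ((F t).card : ℝ) ≤ B := by
    intro t ht
    rw [mem_product, mem_range, mem_range] at ht
    by_cases hne : (F t).Nonempty
    · obtain ⟨b₀, hb₀⟩ := hne
      have hb₀' := hb₀
      rw [hF] at hb₀'
      simp only at hb₀'
      rw [mem_filter] at hb₀'
      refine le_trans ?_ (h (-(N : ℤ) + t.1 * H) ?_ ?_ b₀ hb₀'.2.2)
      · apply Nat.cast_le.2
        apply card_le_card
        intro b hb
        rw [hF] at hb
        simp only at hb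
        rw [mem_filter] at hb ⊢
        refine ⟨hb.1, ?_, hb.2.2⟩
        have e : b - b₀ = (b - t.2) - (b₀ - t.2) := by ring
        rw [e]
        exact dvd_sub hb.2.1 hb₀'.2.1
      · have : (0 : ℤ) ≤ (t.1 : ℤ) * H := by positivity
        omega
      · have h1 : t.1 ≤ 2 * N / H := by omega
        have h2 : t.1 * H ≤ 2 * N := le_trans (Nat.mul_le_mul_right H h1) (Nat.div_mul_le_self _ _)
        have h3 : (t.1 : ℤ) * H ≤ 2 * N := by exact_mod_cast h2
        omega
    · rw [not_nonempty_iff_eq_empty] at hne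
      rw [hne]
      simpa using hB
  have h1 : ((Icc (-(N : ℤ)) N).filter P).card ≤
      1 + ∑ t ∈ range (2 * N / H + 1) ×ˢ range q, (F t).card := by
    refine le_trans (card_le_card hsub) (le_trans (card_union_le _ _) ?_)
    rw [card_singleton]
    exact Nat.add_le_add_left card_biUnion_le 1
  have h2 : (((Icc (-(N : ℤ)) N).filter P).card : ℝ) ≤
      1 + ∑ t ∈ range (2 * N / H + 1) ×ˢ range q, ((F t).card : ℝ) := by exact_mod_cast h1
  refine le_trans h2 ?_
  have h3 : ∑ t ∈ range (2 * N / H + 1) ×ˢ range q, ((F t).card : ℝ) ≤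
      ∑ t ∈ range (2 * N / H + 1) ×ˢ range q, B := sum_le_sum hone
  rw [sum_const, card_product, card_range, card_range, nsmul_eq_mul] at h3
  push_cast at h3 ⊢
  linarith

/-- `8 (log N)^2 ≤ N` for `N ≥ 16384`. -/
theorem finpos_log (N : ℕ) (hN : 16384 ≤ N) : 8 * (Real.log N) ^ 2 ≤ N := by
  have hN' : (16384 : ℝ) ≤ N := by exact_mod_cast hN
  have hN0 : (0 : ℝ) ≤ N := by linarith
  have h1 := Real.log_le_rpow_div hN0 (show (0 : ℝ) < 1 / 4 by norm_num)
  have h0 : 0 ≤ Real.log N := Real.log_nonneg (by linarith)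
  have h2 : (Real.log N) ^ 2 ≤ ((N : ℝ) ^ (1 / 4 : ℝ) / (1 / 4)) ^ 2 :=
    pow_le_pow_left₀ h0 h1 2
  have h3 : ((N : ℝ) ^ (1 / 4 : ℝ)) ^ 2 = Real.sqrt N := by
    rw [← Real.rpow_natCast, ← Real.rpow_mul hN0, Real.sqrt_eq_rpow]
    norm_num
  have h4 : ((N : ℝ) ^ (1 / 4 : ℝ) / (1 / 4)) ^ 2 = 16 * Real.sqrt N := by
    rw [div_pow, h3]; ring
  have h5 : (128 : ℝ) ≤ Real.sqrt N := by
    apply Real.le_sqrt_of_sq_le
    linarith
  have h6 : Real.sqrt N * Real.sqrt N = N := Real.mul_self_sqrt hN0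
  nlinarith

end Pool.Agent.MKA
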