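import Pool.Agent.MKA.Defs

/-!
# MKA/LocTwo: the prime 2, `a` odd: a nonsingular solution with `x` even

Take a solution mod `2^K`, `K ≥ 1`.
* `b` odd.  Mod 2, `F ≡ x + y + z + xyz` is odd iff exactly one of `x, y, z` is odd.  Permute so that `z` is
  odd, `x, y` even.  Then `2z - axy ≡ 2 mod 4`, not divisible by `4`, and `k + 1 ≥ 2`.
* `b` even.  Take `y = z = 1` and `x` even with `2^K ∣ x² - a x + 2 - b` (Hensel: the polynomial
  `f(x) = x² - ax + 2 - b` has `f(0)` even and `f'(x) = 2x - a` odd; induction on `K`: if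
  `2^n ∣ f(x)` and `2^(n+1) ∤ f(x)`, replace `x` by `x + 2^n`, for `n ≥ 1`, which keeps `x` even).
  If `2^(k+1) ∣ 2 - a x` then, mod `2^(k+1)` (`k + 1 ≤ K`), `a² f(x) = (ax)² - a²(ax) + 2a² - a²b ≡ 4 - a²b`,
  so `2^(k+1) ∣ a²b - 4`, hence `2^j ∣ a²b - 4` (`j ≤ k+1`): excluded.
Size: 80-100 lines.
-/

set_option autoImplicit false

namespace Pool.Agent.MKA

open Finset

theorem lt_four (k : ℕ) (hk : 1 ≤ k) (v : ℤ) (h : ¬ (4 : ℤ) ∣ v) : ¬ (2 : ℤ) ^ (k + 1) ∣ v := by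
  intro h1
  apply h
  have h2 : (2 : ℤ) ^ 2 ∣ (2 : ℤ) ^ (k + 1) := pow_dvd_pow _ (by omega)
  have h3 := h2.trans h1
  norm_num at h3
  exact h3

theorem lt_hensel (a b : ℤ) (ha : a % 2 = 1) (hb : b % 2 = 0) (n : ℕ) (hn : 1 ≤ n) :
    ∃ x : ℤ, (2 : ℤ) ∣ x ∧ (2 : ℤ) ^ n ∣ x ^ 2 - a * x + 2 - b := by
  induction n, hn using Nat.le_induction with
  | base =>
    refine ⟨0, dvd_zero _, ?_⟩
    rw [pow_one]
    have : (0 : ℤ) ^ 2 - a * 0 + 2 - b = 2 - b := by ring
    rw [this]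
    omega
  | succ n hn ih =>
    obtain ⟨x, hx, c, hc⟩ := ih
    obtain ⟨m, hm⟩ : ∃ m : ℕ, n = m + 1 := ⟨n - 1, by omega⟩
    by_cases h2 : (2 : ℤ) ∣ c
    · obtain ⟨c', hc'⟩ := h2
      refine ⟨x, hx, c', ?_⟩
      rw [hc, hc']
      ring
    · refine ⟨x + 2 ^ n, ?_, ?_⟩
      · refine dvd_add hx ?_
        rw [hm, pow_succ]
        exact dvd_mul_left _ _
      · have h3 : (x + 2 ^ n) ^ 2 - a * (x + 2 ^ n) + 2 - b =
            2 ^ n * (c + 2 * x - a + 2 ^ n) := by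
          have h4 : (x + 2 ^ n) ^ 2 - a * (x + 2 ^ n) + 2 - b =
            (x ^ 2 - a * x + 2 - b) + 2 ^ n * (2 * x - a + 2 ^ n) := by ring
          rw [h4, hc]
          ring
        rw [h3, pow_succ]
        apply mul_dvd_mul_left
        have h5 : (2 : ℤ) ^ n = 2 * 2 ^ m := by
          rw [hm]
          ring
        rw [h5]
        obtain ⟨x', hx'⟩ := hx
        omega

theorem good_sol_two (a b : ℤ) (K k j : ℕ) (ha : a % 2 = 1) (hK : k + 1 ≤ K) (hk : 1 ≤ k)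
    (hjk : j ≤ k + 1) (hab : ¬ (2 : ℤ) ^ j ∣ a ^ 2 * b - 4)
    (hloc : ∃ x y z : ℤ, (2 : ℤ) ^ K ∣ x ^ 2 + y ^ 2 + z ^ 2 - a * x * y * z - b) :
    ∃ x y z : ℤ, (2 : ℤ) ∣ x ∧ (2 : ℤ) ^ K ∣ x ^ 2 + y ^ 2 + z ^ 2 - a * x * y * z - b ∧
      ¬ (2 : ℤ) ^ (k + 1) ∣ 2 * z - a * x * y := by
  rcases Int.emod_two_eq_zero_or_one b with hb | hb
  · -- `b` even
    obtain ⟨x, hx, hd⟩ := lt_hensel a b ha hb K (by omega)
    refine ⟨x, 1, 1, hx, ?_, ?_⟩
    · have h1 : x ^ 2 + 1 ^ 2 + 1 ^ 2 - a * x * 1 * 1 - b = x ^ 2 - a * x + 2 - b := by ring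
      rw [h1]
      exact hd
    · intro h
      apply hab
      have h1 : (2 : ℤ) ^ (k + 1) ∣ x ^ 2 - a * x + 2 - b := (pow_dvd_pow _ hK).trans hd
      have h2 : a ^ 2 * b - 4 = -(a ^ 2) * (x ^ 2 - a * x + 2 - b) -
          (2 * 1 - a * x * 1) * (2 + a * x - a ^ 2) := by ring
      have h3 : (2 : ℤ) ^ (k + 1) ∣ a ^ 2 * b - 4 := by
        rw [h2]
        exact dvd_sub (dvd_mul_of_dvd_right h1 _) (dvd_mul_of_dvd_left h _)
      exact (pow_dvd_pow _ hjk).trans h3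
  · -- `b` odd
    obtain ⟨x, y, z, hd⟩ := hloc
    have h2 : (2 : ℤ) ∣ x ^ 2 + y ^ 2 + z ^ 2 - a * x * y * z - b := by
      refine dvd_trans ?_ hd
      exact dvd_pow_self _ (by omega)
    have key : ∀ x y z : ℤ, (2 : ℤ) ^ K ∣ x ^ 2 + y ^ 2 + z ^ 2 - a * x * y * z - b →
        x % 2 = 0 → y % 2 = 0 → z % 2 = 1 →
        ∃ x y z : ℤ, (2 : ℤ) ∣ x ∧ (2 : ℤ) ^ K ∣ x ^ 2 + y ^ 2 + z ^ 2 - a * x * y * z - b ∧
          ¬ (2 : ℤ) ^ (k + 1) ∣ 2 * z - a * x * y := by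
      intro x y z h hx hy hz
      refine ⟨x, y, z, Int.dvd_of_emod_eq_zero hx, h, ?_⟩
      apply lt_four k hk
      obtain ⟨x', hx'⟩ := Int.dvd_of_emod_eq_zero hx
      obtain ⟨y', hy'⟩ := Int.dvd_of_emod_eq_zero hy
      have h3 : 2 * z - a * x * y = 2 * z - 4 * (a * x' * y') := by
        rw [hx', hy']
        ring
      rw [h3]
      omega
    have par : ∀ v : ℤ, v ^ 2 % 2 = v % 2 := by
      intro v
      rcases Int.emod_two_eq_zero_or_one v with h | h
      · obtain ⟨w, hw⟩ := Int.dvd_of_emod_eq_zero h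
        have : v ^ 2 = 2 * (w * v) := by
          rw [sq]
          nth_rewrite 1 [hw]
          ring
        omega
      · obtain ⟨w, hw⟩ : ∃ w, v = 2 * w + 1 := ⟨v / 2, by omega⟩
        have : v ^ 2 = 2 * (2 * w * w + 2 * w) + 1 := by
          rw [hw]
          ring
        omega
    have px := par x
    have py := par y
    have pz := par z
    rcases Int.emod_two_eq_zero_or_one x with hx | hx <;>
      rcases Int.emod_two_eq_zero_or_one y with hy | hy <;>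
      rcases Int.emod_two_eq_zero_or_one z with hz | hz
    · -- 0 0 0
      exfalso
      have h3 : (2 : ℤ) ∣ a * x * y * z := by
        have : (2 : ℤ) ∣ z := Int.dvd_of_emod_eq_zero hz
        exact dvd_mul_of_dvd_right this _
      omega
    · exact key x y z hd hx hy hz
    · -- x even, y odd, z even
      refine key x z y ?_ hx hz hy
      have h3 : x ^ 2 + z ^ 2 + y ^ 2 - a * x * z * y - b =
        x ^ 2 + y ^ 2 + z ^ 2 - a * x * y * z - b := by ring
      rw [h3]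
      exact hd
    · -- 0 1 1
      exfalso
      have h3 : (2 : ℤ) ∣ a * x * y * z := by
        have : (2 : ℤ) ∣ x := Int.dvd_of_emod_eq_zero hx
        have h4 : a * x * y * z = x * (a * y * z) := by ring
        rw [h4]
        exact dvd_mul_of_dvd_left this _
      omega
    · -- 1 0 0
      refine key z y x ?_ hz hy hx
      have h3 : z ^ 2 + y ^ 2 + x ^ 2 - a * z * y * x - b =
        x ^ 2 + y ^ 2 + z ^ 2 - a * x * y * z - b := by ring
      rw [h3]
      exact hd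
    · -- 1 0 1
      exfalso
      have h3 : (2 : ℤ) ∣ a * x * y * z := by
        have : (2 : ℤ) ∣ y := Int.dvd_of_emod_eq_zero hy
        have h4 : a * x * y * z = y * (a * x * z) := by ring
        rw [h4]
        exact dvd_mul_of_dvd_left this _
      omega
    · -- 1 1 0
      exfalso
      have h3 : (2 : ℤ) ∣ a * x * y * z := by
        have : (2 : ℤ) ∣ z := Int.dvd_of_emod_eq_zero hz
        exact dvd_mul_of_dvd_right this _
      omega
    · -- 1 1 1
      exfalso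
      have h3 : (a * x * y * z) % 2 = 1 := by
        rw [Int.mul_emod, Int.mul_emod (a * x), Int.mul_emod a, ha, hx, hy, hz]
        norm_num
      omega

end Pool.Agent.MKA
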