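import Pool.Agent.MKA.LocGen
import Pool.Agent.MKA.LocTwo

/-!
# MKA/LocCRT: class data for a locally soluble `b`

`q = (primorial w)^K`.  For every prime `p ≤ w` there is `(x_p, y_p, z_p)` with `p^K ∣ F - b`,
`p^(k+1) ∤ 2z_p - a x_p y_p`, and `2 ∣ a x_2` (`good_sol`; for `p = 2` and `a` odd `good_sol_two`; for `a` even
`2 ∣ a x` is automatic).  By the Chinese remainder theorem (`Nat.chineseRemainderOfFinset`, moduli `p^K`, or
induction) there are `x₀, y₀, z₀` congruent to them mod `p^K` for all primes `p ≤ w`; so for all these `p`: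
`p^K ∣ F(x₀,y₀,z₀) - b`, `p^(k+1) ∤ 2z₀ - a x₀ y₀`, and `2 ∣ a x₀` (`K ≥ 1`).  Put `A₀ = a x₀/2`, `u₀ = z₀ - A₀ y₀`,
so `2u₀ = 2z₀ - a x₀ y₀`, and `F(x₀,y₀,z₀) = u₀² - (A₀²-1) y₀² + x₀²`; as the `p^K` are pairwise coprime with product
`q`, `q ∣ F(x₀,y₀,z₀) - b`.  Let `g = gcd(2u₀, q)`, `v_p = v_p(2u₀) ≤ k` (`2u₀ ≠ 0`), so `v_p(g) = min(v_p,K) = v_p`
for all `p ≤ w`, `2 v_p ≤ 2k < K`: `g² ∣ q`; `q₃ = q/g²` is divisible by all primes `p ≤ w`, in particular by `2`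
(`w ≥ 2`); `c₀ = 2u₀/g` is divisible by no prime `p ≤ w`.  The primes dividing `q` are those `≤ w`.
Size: 150-200 lines.
-/

set_option autoImplicit false

namespace Pool.Agent.MKA

open Finset

theorem crt_fin (P : Finset ℕ) (hP : ∀ p ∈ P, p.Prime) (K : ℕ) (v : ℕ → ℤ) :
    ∃ X : ℤ, ∀ p ∈ P, (p : ℤ) ^ K ∣ X - v p := by
  classical
  induction P using Finset.induction_on with
  | empty => exact ⟨0, by simp⟩
  | insert r S hr ih =>
    obtain ⟨X, hX⟩ := ih (fun p hp => hP p (Finset.mem_insert_of_mem hp))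
    have hcop : IsCoprime (∏ p ∈ S, (p : ℤ) ^ K) ((r : ℤ) ^ K) := by
      apply IsCoprime.prod_left
      intro p hp
      apply IsCoprime.pow
      refine (Nat.isCoprime_iff_coprime).2 ((Nat.coprime_primes
        (hP p (Finset.mem_insert_of_mem hp)) (hP r (Finset.mem_insert_self _ _))).2 ?_)
      rintro rfl
      exact hr hp
    obtain ⟨α, β, hαβ⟩ := hcop
    refine ⟨X + (v r - X) * (α * ∏ p ∈ S, (p : ℤ) ^ K), ?_⟩
    intro p hp
    rcases Finset.mem_insert.1 hp with rfl | hpS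
    · refine ⟨(X - v p) * β, ?_⟩
      have h1 : α * ∏ p ∈ S, (p : ℤ) ^ K = 1 - β * (p : ℤ) ^ K := by linarith
      rw [h1]; ring
    · have h1 : (p : ℤ) ^ K ∣ ∏ p ∈ S, (p : ℤ) ^ K := Finset.dvd_prod_of_mem _ hpS
      have h2 : X + (v r - X) * (α * ∏ p ∈ S, (p : ℤ) ^ K) - v p =
          (X - v p) + (v r - X) * α * ∏ p ∈ S, (p : ℤ) ^ K := by ring
      rw [h2]
      exact dvd_add (hX p hpS) (Dvd.dvd.mul_left h1 _)

theorem class_exists (a w K k j : ℕ) (ha : 1 ≤ a) (hw : 2 ≤ w) (hk : 2 * k < K) (hj : 1 ≤ j)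
    (hjk : 2 * j ≤ k) (b : ℤ)
    (hloc : ∀ m : ℕ, 0 < m →
      ∃ x y z : ℤ, (m : ℤ) ∣ x ^ 2 + y ^ 2 + z ^ 2 - (a : ℤ) * x * y * z - b)
    (hexc : ∀ p : ℕ, p.Prime → p ≤ w → ¬ (p : ℤ) ^ j ∣ b ∧ ¬ (p : ℤ) ^ j ∣ (a : ℤ) ^ 2 * b - 4) :
    ClassData a ((primorial w) ^ K) b := by
  classical
  set R := primorial w with hR
  set P : Finset ℕ := (range (w + 1)).filter Nat.Prime with hP
  have hRP : R = ∏ p ∈ P, p := rfl
  have hPp : ∀ p ∈ P, p.Prime := fun p hp => (Finset.mem_filter.1 hp).2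
  have hPw : ∀ p ∈ P, p ≤ w := fun p hp => by
    have := Finset.mem_range.1 (Finset.mem_filter.1 hp).1
    omega
  have hPm : ∀ p : ℕ, p.Prime → p ≤ w → p ∈ P := fun p hp hpw =>
    Finset.mem_filter.2 ⟨Finset.mem_range.2 (by omega), hp⟩
  have hPdvd : ∀ p ∈ P, p ∣ R := fun p hp => by
    rw [hRP]; exact Finset.dvd_prod_of_mem _ hp
  have hdvdP : ∀ p : ℕ, p.Prime → p ∣ R → p ∈ P := by
    intro p hp hd
    rw [hRP, hp.prime.dvd_finsetProd_iff] at hd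
    obtain ⟨r, hr, hpr⟩ := hd
    rw [(Nat.prime_dvd_prime_iff_eq hp (hPp r hr)).1 hpr]
    exact hr
  have hR0 : R ≠ 0 := primorial_ne_zero w
  have h2P : 2 ∈ P := hPm 2 Nat.prime_two hw
  have hK1 : 1 ≤ K := by omega
  -- local solutions
  have hdat : ∀ p : ℕ, ∃ t : ℤ × ℤ × ℤ, p ∈ P →
      ((p : ℤ) ^ K ∣ t.1 ^ 2 + t.2.1 ^ 2 + t.2.2 ^ 2 - a * t.1 * t.2.1 * t.2.2 - b ∧
      ¬ (p : ℤ) ^ (k + 1) ∣ 2 * t.2.2 - a * t.1 * t.2.1 ∧ (p = 2 → (2 : ℤ) ∣ a * t.1)) := by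
    intro p
    by_cases hpP : p ∈ P
    · have hp := hPp p hpP
      have hpw := hPw p hpP
      obtain ⟨he1, he2⟩ := hexc p hp hpw
      obtain ⟨x, y, z, hxyz⟩ := hloc (p ^ K) (pow_pos hp.pos _)
      have hxyz' : (p : ℤ) ^ K ∣ x ^ 2 + y ^ 2 + z ^ 2 - (a : ℤ) * x * y * z - b := by
        push_cast at hxyz; exact hxyz
      by_cases h2 : p = 2
      · rcases Int.emod_two_eq_zero_or_one (a : ℤ) with ha0 | ha1
        · obtain ⟨x', y', z', h3, h4⟩ := good_sol a b p K k j hp (by omega) hj hjk he1 he2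
            ⟨x, y, z, hxyz'⟩
          refine ⟨(x', y', z'), fun _ => ⟨h3, h4, fun _ => ?_⟩⟩
          exact Dvd.dvd.mul_right (Int.dvd_of_emod_eq_zero ha0) _
        · subst h2
          obtain ⟨x', y', z', h3, h4, h5⟩ := good_sol_two a b K k j ha1 (by omega) (by omega)
            (by omega) (by exact_mod_cast he2) ⟨x, y, z, by exact_mod_cast hxyz'⟩
          refine ⟨(x', y', z'), fun _ => ⟨by exact_mod_cast h4, by exact_mod_cast h5, fun _ => ?_⟩⟩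
          exact Dvd.dvd.mul_left h3 _
      · obtain ⟨x', y', z', h3, h4⟩ := good_sol a b p K k j hp (by omega) hj hjk he1 he2
          ⟨x, y, z, hxyz'⟩
        exact ⟨(x', y', z'), fun _ => ⟨h3, h4, fun h => absurd h h2⟩⟩
    · exact ⟨(0, 0, 0), fun h => absurd h hpP⟩
  choose t ht using hdat
  obtain ⟨x₀, hx₀⟩ := crt_fin P hPp K (fun p => (t p).1)
  obtain ⟨y₀, hy₀⟩ := crt_fin P hPp K (fun p => (t p).2.1)
  obtain ⟨z₀, hz₀⟩ := crt_fin P hPp K (fun p => (t p).2.2)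
  have hF : ∀ p ∈ P, (p : ℤ) ^ K ∣ x₀ ^ 2 + y₀ ^ 2 + z₀ ^ 2 - a * x₀ * y₀ * z₀ - b := by
    intro p hp
    have h1 := (ht p hp).1
    have hx := (Int.modEq_iff_dvd.2 (hx₀ p hp)).symm
    have hy := (Int.modEq_iff_dvd.2 (hy₀ p hp)).symm
    have hz := (Int.modEq_iff_dvd.2 (hz₀ p hp)).symm
    have h2 : x₀ ^ 2 + y₀ ^ 2 + z₀ ^ 2 - a * x₀ * y₀ * z₀ - b ≡
        (t p).1 ^ 2 + (t p).2.1 ^ 2 + (t p).2.2 ^ 2 - a * (t p).1 * (t p).2.1 * (t p).2.2 - b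
        [ZMOD (p : ℤ) ^ K] := by
      apply Int.ModEq.sub _ rfl
      apply Int.ModEq.sub
      · exact Int.ModEq.add (Int.ModEq.add (hx.pow 2) (hy.pow 2)) (hz.pow 2)
      · exact Int.ModEq.mul (Int.ModEq.mul (Int.ModEq.mul rfl hx) hy) hz
    have h3 := dvd_sub h1 (Int.modEq_iff_dvd.1 h2)
    rwa [sub_sub_cancel] at h3
  have hD : ∀ p ∈ P, ¬ (p : ℤ) ^ (k + 1) ∣ 2 * z₀ - a * x₀ * y₀ := by
    intro p hp hcon
    apply (ht p hp).2.1
    have hx := (Int.modEq_iff_dvd.2 (hx₀ p hp)).symm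
    have hy := (Int.modEq_iff_dvd.2 (hy₀ p hp)).symm
    have hz := (Int.modEq_iff_dvd.2 (hz₀ p hp)).symm
    have h2 : 2 * z₀ - a * x₀ * y₀ ≡ 2 * (t p).2.2 - a * (t p).1 * (t p).2.1
        [ZMOD (p : ℤ) ^ K] := by
      apply Int.ModEq.sub
      · exact Int.ModEq.mul rfl hz
      · exact Int.ModEq.mul (Int.ModEq.mul rfl hx) hy
    have h3 := h2.of_dvd (pow_dvd_pow (p : ℤ) (show k + 1 ≤ K by omega))
    have h4 := dvd_add hcon (Int.modEq_iff_dvd.1 h3)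
    rwa [add_sub_cancel] at h4
  have h2a : (2 : ℤ) ∣ a * x₀ := by
    have h1 := (ht 2 h2P).2.2 rfl
    have h2 : (2 : ℤ) ∣ x₀ - (t 2).1 := by
      refine dvd_trans ?_ (hx₀ 2 h2P)
      exact dvd_pow_self _ (by omega)
    have h3 : (a : ℤ) * x₀ = a * (t 2).1 + a * (x₀ - (t 2).1) := by ring
    rw [h3]
    exact dvd_add h1 (Dvd.dvd.mul_left h2 _)
  obtain ⟨A₀, hA₀⟩ := h2a
  set u₀ : ℤ := z₀ - A₀ * y₀ with hu₀
  have h2u : 2 * u₀ = 2 * z₀ - a * x₀ * y₀ := by rw [hu₀, hA₀]; ring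
  have h2u0 : 2 * u₀ ≠ 0 := by
    intro h
    apply hD 2 h2P
    rw [← h2u, h]
    exact dvd_zero _
  set q : ℕ := R ^ K with hq
  have hq0 : q ≠ 0 := pow_ne_zero _ hR0
  have hqF : (q : ℤ) ∣ x₀ ^ 2 + y₀ ^ 2 + z₀ ^ 2 - a * x₀ * y₀ * z₀ - b := by
    have h1 : (q : ℤ) = ∏ p ∈ P, (p : ℤ) ^ K := by
      rw [hq, hRP, Finset.prod_pow]
      push_cast
      rfl
    rw [h1]
    apply Finset.prod_dvd_of_coprime
    · intro p hp r hr hpr
      apply IsCoprime.pow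
      exact (Nat.isCoprime_iff_coprime).2 ((Nat.coprime_primes (hPp p hp) (hPp r hr)).2 hpr)
    · exact hF
  set g : ℕ := Int.gcd (2 * u₀) q with hg
  have hg0 : g ≠ 0 := by
    intro h
    exact h2u0 (Int.gcd_eq_zero_iff.1 h).1
  have hgu : (g : ℤ) ∣ 2 * u₀ := Int.gcd_dvd_left ..
  have hgq : g ∣ q := by
    have : (g : ℤ) ∣ q := Int.gcd_dvd_right ..
    exact_mod_cast this
  have hgk : ∀ p ∈ P, g.factorization p ≤ k := by
    intro p hp
    by_contra hcon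
    push Not at hcon
    apply hD p hp
    rw [← h2u]
    refine dvd_trans ?_ hgu
    have h1 : p ^ (k + 1) ∣ g := ((hPp p hp).pow_dvd_iff_le_factorization hg0).2 (by omega)
    exact_mod_cast h1
  have hgR : g ∣ R ^ k := by
    rw [← Nat.factorization_prime_le_iff_dvd hg0 (pow_ne_zero _ hR0)]
    intro p hp
    by_cases hpP : p ∈ P
    · refine (hgk p hpP).trans ?_
      rw [Nat.factorization_pow]
      have h1 : 1 ≤ R.factorization p := (hp.dvd_iff_one_le_factorization hR0).1 (hPdvd p hpP)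
      calc k = k * 1 := (mul_one k).symm
        _ ≤ k * R.factorization p := Nat.mul_le_mul_left _ h1
    · have h1 : ¬ p ∣ g := by
        intro h
        apply hpP
        exact hdvdP p hp (hp.dvd_of_dvd_pow (h.trans hgq))
      rw [Nat.factorization_eq_zero_of_not_dvd h1]
      exact Nat.zero_le _
  obtain ⟨s, hs⟩ := hgR
  obtain ⟨c₀, hc₀⟩ := hgu
  have hqg : q = g ^ 2 * (s ^ 2 * R ^ (K - 2 * k)) := by
    have h1 : R ^ (2 * k) = g ^ 2 * s ^ 2 := by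
      rw [mul_comm, pow_mul, hs]; ring
    rw [hq, ← mul_assoc, ← h1, ← pow_add]
    congr 1
    omega
  have hRq3 : R ∣ s ^ 2 * R ^ (K - 2 * k) :=
    Dvd.dvd.mul_left (dvd_pow_self _ (by omega)) _
  refine ⟨g, s ^ 2 * R ^ (K - 2 * k), x₀, y₀, u₀, A₀, c₀, Nat.one_le_iff_ne_zero.2 hg0, ?_,
    hqg, ?_, ?_, hA₀, hc₀, ?_, ?_⟩
  · rw [Nat.one_le_iff_ne_zero]
    intro h
    rw [h, mul_zero] at hqg
    exact hq0 hqg
  · exact (hPdvd 2 h2P).trans hRq3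
  · intro p hp hpq
    exact (hp.dvd_of_dvd_pow hpq).trans hRq3
  · intro p hp hpq hpc
    have hpP : p ∈ P := hdvdP p hp (hp.dvd_of_dvd_pow hpq)
    have h1 := hgk p hpP
    set v := g.factorization p with hv
    have h2 : p ^ v ∣ g := Nat.ordProj_dvd _ _
    have h3 : ((p ^ (v + 1) : ℕ) : ℤ) ∣ 2 * u₀ := by
      rw [hc₀, pow_succ]
      push_cast
      exact mul_dvd_mul (by exact_mod_cast h2) hpc
    have h4 : ((p ^ (v + 1) : ℕ) : ℤ) ∣ q := by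
      have : p ^ (v + 1) ∣ q := by
        rw [hq]
        exact (pow_dvd_pow p (show v + 1 ≤ K by omega)).trans (pow_dvd_pow_of_dvd (hPdvd p hpP) _)
      exact_mod_cast this
    have h5 : p ^ (v + 1) ∣ g := by
      have := Int.dvd_coe_gcd h3 h4
      exact_mod_cast this
    have h6 := (hp.pow_dvd_iff_le_factorization hg0).1 h5
    omega
  · have h1 : u₀ ^ 2 - (A₀ ^ 2 - 1) * y₀ ^ 2 + x₀ ^ 2 - b =
        x₀ ^ 2 + y₀ ^ 2 + z₀ ^ 2 - a * x₀ * y₀ * z₀ - b := by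
      rw [hA₀, hu₀]; ring
    rw [h1]
    exact hqF

end Pool.Agent.MKA
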