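import Pool.Agent.MKA.CoreC
import Pool.Agent.MKA.LocCRT
import Pool.Agent.MKA.Exc
import Pool.Agent.MKA.FinParC
import Pool.Agent.MKA.FinWin

/-!
# MKA/FinPosC: all `b ∈ [-N, N]`, `a > 0` (adapted from helper56's proof)

`K = (log N)²/a ≥ K₀`, `w = D = WK K`, `k = (w-1)/2`, `j = k/2`, `q = (primorial w)^w`, `H = N / D`.
-/

set_option autoImplicit false

namespace Pool.Agent.MKA

open Finset

open Classical in
theorem fin_pos : ∃ C : ℝ, 0 < C ∧ ∃ K₀ : ℝ, ∃ N₀ : ℕ, ∀ N : ℕ, N₀ ≤ N → ∀ a : ℕ, 1 ≤ a →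
    K₀ ≤ (Real.log N) ^ 2 / a →
    (((Icc (-(N : ℤ)) N).filter (fun b : ℤ => (∀ m : ℕ, 0 < m →
      ∃ x y z : ℤ, (m : ℤ) ∣ x ^ 2 + y ^ 2 + z ^ 2 - (a : ℤ) * x * y * z - b) ∧
        ¬ Sol a b)).card : ℝ) ≤ C * N / (Real.log ((Real.log N) ^ 2 / a)) ^ (1 / 4 : ℝ) := by
  obtain ⟨C, hC, C₁, hC₁, N1, hcore⟩ := core
  obtain ⟨w₀, hexc⟩ := exc_small
  obtain ⟨K2, hK2⟩ := WK_large (max 13 w₀)
  obtain ⟨K4, hK4⟩ := WK_q C₁
  obtain ⟨K5, hK5⟩ := sqrt_WK
  refine ⟨20 * C + 8, by positivity, max K2 (max K4 (max K5 1)), max N1 16384, ?_⟩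
  intro N hN a ha haL
  simp only [max_le_iff] at hN haL
  obtain ⟨g1, g6⟩ := hN
  obtain ⟨k2, k4, k5, k1⟩ := haL
  set K : ℝ := (Real.log N) ^ 2 / a with hKdef
  have har : (1 : ℝ) ≤ a := by exact_mod_cast ha
  have hw1 := hK2 K k2
  rw [max_le_iff] at hw1
  obtain ⟨hw13, hww0⟩ := hw1
  obtain ⟨hq2, hqle⟩ := hK4 K k4
  have hsq := hK5 K k5
  obtain ⟨hj3, hjw⟩ := hexc (WK K) hww0
  have hlog := finpos_log N g6
  have hNr : (16384 : ℝ) ≤ N := by exact_mod_cast g6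
  have hL1 : 1 ≤ Real.log N := by
    have h1 : Real.log 16384 ≤ Real.log N := Real.log_le_log (by norm_num) hNr
    have h2 : Real.log 16384 = 14 * Real.log 2 := by
      rw [show (16384 : ℝ) = 2 ^ 14 by norm_num, Real.log_pow]; norm_num
    have h3 := Real.log_two_gt_d9
    linarith
  have hKL : Real.sqrt K ≤ Real.log N := by
    have h1 : K ≤ (Real.log N) ^ 2 := by
      rw [hKdef]
      exact div_le_self (by positivity) har
    calc Real.sqrt K ≤ Real.sqrt ((Real.log N) ^ 2) := Real.sqrt_le_sqrt h1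
      _ = Real.log N := Real.sqrt_sq (by linarith)
  have hKa : K * a = (Real.log N) ^ 2 := by
    rw [hKdef]; field_simp
  set w := WK K with hw
  set j := (w - 1) / 2 / 2 with hj
  set q := (primorial w) ^ w with hq
  have hq1 : 1 ≤ q := Nat.one_le_pow _ _ (primorial_pos w)
  have hq1r : (1 : ℝ) ≤ q := by exact_mod_cast hq1
  have hw1r : (13 : ℝ) ≤ w := by exact_mod_cast hw13
  have hDq : (w : ℝ) * q * w ≤ Real.log N := by
    have : (w : ℝ) * q * w = q * (w : ℝ) ^ 2 := by ring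
    rw [this]; exact le_trans hqle hKL
  have hqw : (q : ℝ) ≤ q * (w : ℝ) ^ 2 := le_mul_of_one_le_right (by linarith) (by nlinarith)
  have hwq : (w : ℝ) ≤ (w : ℝ) * q * w := by
    have h3 : (1 : ℝ) ≤ (q : ℝ) * w := one_le_mul_of_one_le_of_one_le hq1r (by linarith)
    have h4 : (w : ℝ) ≤ w * ((q : ℝ) * w) := le_mul_of_one_le_right (by linarith) h3
    linarith
  have hqL : (q : ℝ) ≤ Real.log N := by linarith
  have hwL : (w : ℝ) ≤ Real.log N := by linarith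
  have hcond : C₁ * a * (q : ℝ) ^ 2 * w ≤ (Real.log N) ^ 2 := by
    rw [← hKa]
    have : C₁ * a * (q : ℝ) ^ 2 * w = (C₁ * (q : ℝ) ^ 2 * w) * a := by ring
    rw [this]
    exact mul_le_mul_of_nonneg_right hq2 (by linarith)
  have hL2 : Real.log N ≤ (Real.log N) ^ 2 := le_self_pow₀ hL1 two_ne_zero
  have hDleN : 2 * w ≤ N := by
    have h1 : (2 : ℝ) * w ≤ N := by linarith
    exact_mod_cast h1
  have hH1 : 1 ≤ N / w := Nat.div_pos (by omega) (by omega)
  -- number of windows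
  have hnum : ((2 * N / (N / w) : ℕ) : ℝ) + 1 ≤ 5 * w := by
    have hHr : (N : ℝ) / (2 * w) ≤ (N / w : ℕ) := by
      have h1 : N < w * (N / w + 1) := Nat.lt_mul_div_succ N (by omega)
      have h2 : (N : ℝ) < w * ((N / w : ℕ) + 1) := by exact_mod_cast h1
      have h3 : (1 : ℝ) ≤ (N / w : ℕ) := by exact_mod_cast hH1
      have h3' : (w : ℝ) ≤ w * (N / w : ℕ) := le_mul_of_one_le_right (by linarith) h3
      rw [div_le_iff₀ (by positivity)]
      linarith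
    have h4 : ((2 * N / (N / w) : ℕ) : ℝ) ≤ (2 * N : ℕ) / (N / w : ℕ) := Nat.cast_div_le
    have hHpos : (0 : ℝ) < (N / w : ℕ) := by exact_mod_cast hH1
    have h5 : (((2 * N : ℕ) : ℝ)) / (N / w : ℕ) ≤ 4 * w := by
      rw [div_le_iff₀ hHpos]
      rw [div_le_iff₀ (by positivity)] at hHr
      push_cast at hHr ⊢
      linarith
    linarith
  -- the two parts
  set E := (Icc (-(N : ℤ)) N).filter (fun b : ℤ => ∃ p : ℕ, p.Prime ∧ p ≤ w ∧
      ((p : ℤ) ^ j ∣ b ∨ (p : ℤ) ^ j ∣ (a : ℤ) ^ 2 * b - 4)) with hE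
  set G := (Icc (-(N : ℤ)) N).filter (fun b : ℤ => ClassData a q b ∧ ¬ Sol a b) with hG
  have hsub : (Icc (-(N : ℤ)) N).filter (fun b : ℤ => (∀ m : ℕ, 0 < m →
      ∃ x y z : ℤ, (m : ℤ) ∣ x ^ 2 + y ^ 2 + z ^ 2 - (a : ℤ) * x * y * z - b) ∧
        ¬ Sol a b) ⊆ E ∪ G := by
    intro b hb
    rw [mem_filter] at hb
    obtain ⟨hb1, hb2, hb3⟩ := hb
    rw [mem_union]
    by_cases hbE : b ∈ E
    · left; exact hbE
    · right
      rw [hG, mem_filter]
      refine ⟨hb1, ?_, hb3⟩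
      rw [hE, mem_filter] at hbE
      refine class_exists a w w ((w - 1) / 2) j ha (by omega) (by omega) (by omega) (by omega) b hb2 ?_
      intro p hp hpw
      constructor
      · intro hc
        exact hbE ⟨hb1, p, hp, hpw, Or.inl hc⟩
      · intro hc
        exact hbE ⟨hb1, p, hp, hpw, Or.inr hc⟩
  have hEc : (E.card : ℝ) ≤ w * (10 * (N : ℝ) / 2 ^ j + 2) := exc_card a w j N ha hj3
  have hGc : (G.card : ℝ) ≤ 1 + ((2 * N / (N / w) : ℕ) + 1) * q *
      (C / Real.sqrt w * ((N : ℝ) / (w * q)) + 1) := by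
    refine finpos_window N (N / w) q hH1 hq1 (fun b : ℤ => ClassData a q b ∧ ¬ Sol a b)
      (C / Real.sqrt w * ((N : ℝ) / (w * q)) + 1) (by positivity) ?_
    intro N₁ h1 h2 b₀ hb₀
    refine le_trans ?_ (hcore N g1 a q w w b₀ N₁ ha hq1 hqL hw13 le_rfl hwL hcond ?_ hb₀.1 h1 h2)
    · apply Nat.cast_le.2
      apply card_le_card
      intro b hb
      rw [mem_filter] at hb ⊢
      exact ⟨hb.1, hb.2.1, hb.2.2.2⟩
    · intro p hp hpw
      refine dvd_pow ?_ (by omega)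
      unfold primorial
      exact dvd_prod_of_mem _ (mem_filter.2 ⟨mem_range.2 (by omega), hp⟩)
  have htot : (((Icc (-(N : ℤ)) N).filter (fun b : ℤ => (∀ m : ℕ, 0 < m →
      ∃ x y z : ℤ, (m : ℤ) ∣ x ^ 2 + y ^ 2 + z ^ 2 - (a : ℤ) * x * y * z - b) ∧
        ¬ Sol a b)).card : ℝ) ≤ (E.card : ℝ) + G.card := by
    have := le_trans (card_le_card hsub) (card_union_le E G)
    exact_mod_cast this
  have hsw : 0 < Real.sqrt w := Real.sqrt_pos.2 (by linarith)
  have hsww : Real.sqrt w ≤ w := by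
    apply Real.sqrt_le_iff.2
    exact ⟨by linarith, le_self_pow₀ (by linarith) two_ne_zero⟩
  have hNpos : (0 : ℝ) < N := by linarith
  -- bound of `E`
  have hE2 : (E.card : ℝ) ≤ N / Real.sqrt w + 2 * w := by
    have h1 : (w : ℝ) * (10 * (N : ℝ) / 2 ^ j + 2) = (w * 10 / 2 ^ j) * N + 2 * w := by ring
    have h2 : ((w : ℝ) * 10 / 2 ^ j) * N ≤ 1 / Real.sqrt w * N :=
      mul_le_mul_of_nonneg_right hjw hNpos.le
    have h3 : 1 / Real.sqrt w * (N : ℝ) = N / Real.sqrt w := by ring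
    linarith
  have hG2 : (G.card : ℝ) ≤ 1 + 5 * C * N / Real.sqrt w + 5 * w * q := by
    have h1 : (((2 * N / (N / w) : ℕ) : ℝ) + 1) * q *
        (C / Real.sqrt w * ((N : ℝ) / (w * q)) + 1) ≤
        (5 * w) * q * (C / Real.sqrt w * ((N : ℝ) / (w * q)) + 1) := by
      gcongr
    have h2 : (5 * w : ℝ) * q * (C / Real.sqrt w * ((N : ℝ) / (w * q)) + 1) =
        5 * C * N / Real.sqrt w + 5 * w * q := by
      have hw0 : (w : ℝ) ≠ 0 := by linarith
      have hq0 : (q : ℝ) ≠ 0 := by linarith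
      field_simp
    linarith
  have hrest : 2 * (w : ℝ) + 1 + 5 * w * q ≤ N / Real.sqrt w := by
    rw [le_div_iff₀ hsw]
    have h1 : (w : ℝ) ≤ w * q := le_mul_of_one_le_right (by linarith) hq1r
    have h2 : 2 * (w : ℝ) + 1 + 5 * w * q ≤ 8 * (w * q) := by linarith
    have h3 : (2 * (w : ℝ) + 1 + 5 * w * q) * Real.sqrt w ≤ 8 * (w * q) * w := by
      apply mul_le_mul h2 hsww hsw.le (by positivity)
    have h4 : 8 * ((w : ℝ) * q) * w = 8 * (w * q * w) := by ring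
    linarith
  have hfin : (E.card : ℝ) + G.card ≤ (5 * C + 2) * N * (1 / Real.sqrt w) := by
    have : (5 * C + 2) * N * (1 / Real.sqrt w) = N / Real.sqrt w + 5 * C * N / Real.sqrt w +
        N / Real.sqrt w := by ring
    linarith
  have hlast : (5 * C + 2) * N * (1 / Real.sqrt w) ≤
      (20 * C + 8) * N / (Real.log K) ^ (1 / 4 : ℝ) := by
    have h1 : (5 * C + 2) * N * (1 / Real.sqrt w) ≤
        (5 * C + 2) * N * (4 / (Real.log K) ^ (1 / 4 : ℝ)) :=
      mul_le_mul_of_nonneg_left hsq (by positivity)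
    have h2 : (5 * C + 2) * N * (4 / (Real.log K) ^ (1 / 4 : ℝ)) =
        (20 * C + 8) * N / (Real.log K) ^ (1 / 4 : ℝ) := by ring
    linarith
  linarith

end Pool.Agent.MKA
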