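import Pool.Agent.MKA.Defs

/-!
# MKA/Harm: `∑ 1/x` over a residue class

The elements of the residue class in `(Z, Z²]` are `x₁ < x₁+M < … < x₁+(n-1)M` with
`Z < x₁ ≤ Z + M` and `x₁ + nM > Z²`.
Upper bound: `1/(x₁+iM) ≤ (1/M)(log(x₁+iM) - log(x₁+(i-1)M))` for `i ≥ 1`, so the sum is at most
`1/x₁ + (1/M) log(Z²/Z) ≤ 1/Z + (log Z)/M`.
Lower bound: `1/(x₁+iM) ≥ (1/M)(log(x₁+(i+1)M) - log(x₁+iM))`, so the sum is at least
`(1/M) log(Z²/(Z+M)) = (log Z)/M - (1/M) log(1+M/Z) ≥ (log Z)/M - 1/Z` (if the class is empty the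
right side is `≤ 0`, since then `Z² < Z + M`).
Suggestion: prove by induction on the upper end `T ≥ Z` (integers)
`∑_{Z<x≤T, M ∣ x-r} 1/x ≤ 1/Z + (1/M) log(last/Z)`, or param. by `x = x₁ + iM`.
Size: 80-120 lines.
-/

set_option autoImplicit false

namespace Pool.Agent.MKA

open Finset


private noncomputable def hS (Z M : ℕ) (r T : ℤ) : ℝ :=
  ∑ x ∈ (Ioc (Z : ℤ) T).filter (fun x => (M : ℤ) ∣ x - r), 1 / (x : ℝ)

private lemma hS_nonneg (Z M : ℕ) (r T : ℤ) : 0 ≤ hS Z M r T := by
  unfold hS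
  apply Finset.sum_nonneg
  intro x hx
  rw [mem_filter, mem_Ioc] at hx
  have h0 : (0 : ℤ) ≤ Z := Int.natCast_nonneg Z
  have h1 : (0 : ℤ) < x := lt_of_le_of_lt h0 hx.1.1
  have h2 : (0 : ℝ) < x := by exact_mod_cast h1
  positivity

private lemma hS_empty (Z M : ℕ) (r T : ℤ) (h : T ≤ Z) : hS Z M r T = 0 := by
  unfold hS
  rw [Ioc_eq_empty (by omega)]
  simp

private lemma hS_class (Z M : ℕ) (r x : ℤ) (hM : 1 ≤ M) (hx : (Z : ℤ) < x)
    (hr : (M : ℤ) ∣ x - r) : hS Z M r x = hS Z M r (x - M) + 1 / (x : ℝ) := by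
  unfold hS
  have hMz : (1 : ℤ) ≤ M := by exact_mod_cast hM
  have : (Ioc (Z : ℤ) x).filter (fun x => (M : ℤ) ∣ x - r) =
      insert x ((Ioc (Z : ℤ) (x - M)).filter (fun x => (M : ℤ) ∣ x - r)) := by
    ext y
    simp only [mem_filter, mem_Ioc, mem_insert]
    constructor
    · rintro ⟨⟨h1, h2⟩, h3⟩
      by_cases hy : y = x
      · left; exact hy
      · right
        refine ⟨⟨h1, ?_⟩, h3⟩
        have h4 : (M : ℤ) ∣ x - y := by
          have := dvd_sub hr h3
          have e : x - r - (y - r) = x - y := by ring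
          rwa [e] at this
        have h5 : 0 < x - y := by
          rcases lt_or_eq_of_le h2 with h | h
          · linarith
          · exact absurd h hy
        have := Int.le_of_dvd h5 h4
        linarith
    · rintro (h | ⟨⟨h1, h2⟩, h3⟩)
      · subst h
        exact ⟨⟨hx, le_refl _⟩, hr⟩
      · exact ⟨⟨h1, by linarith⟩, h3⟩
  rw [this, sum_insert, add_comm]
  simp only [mem_filter, mem_Ioc, not_and]
  intro h
  exfalso
  have := h.2
  linarith

private lemma hS_notclass (Z M : ℕ) (r x : ℤ) (hr : ¬ (M : ℤ) ∣ x - r) :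
    hS Z M r x = hS Z M r (x - 1) := by
  unfold hS
  have : (Ioc (Z : ℤ) x).filter (fun x => (M : ℤ) ∣ x - r) =
      ((Ioc (Z : ℤ) (x - 1)).filter (fun x => (M : ℤ) ∣ x - r)) := by
    ext y
    simp only [mem_filter, mem_Ioc]
    constructor
    · rintro ⟨⟨h1, h2⟩, h3⟩
      refine ⟨⟨h1, ?_⟩, h3⟩
      rcases lt_or_eq_of_le h2 with h | h
      · linarith [Int.add_one_le_of_lt h]
      · subst h
        exact absurd h3 hr
    · rintro ⟨⟨h1, h2⟩, h3⟩
      exact ⟨⟨h1, by linarith⟩, h3⟩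
  rw [this]

private lemma hS_mono (Z M : ℕ) (r a b : ℤ) (h : a ≤ b) : hS Z M r a ≤ hS Z M r b := by
  unfold hS
  apply Finset.sum_le_sum_of_subset_of_nonneg
  · intro y
    simp only [mem_filter, mem_Ioc]
    rintro ⟨⟨h1, h2⟩, h3⟩
    exact ⟨⟨h1, by linarith⟩, h3⟩
  · intro x hx _
    rw [mem_filter, mem_Ioc] at hx
    have h0 : (0 : ℤ) ≤ Z := Int.natCast_nonneg Z
    have h1 : (0 : ℤ) < x := lt_of_le_of_lt h0 hx.1.1
    have h2 : (0 : ℝ) < x := by exact_mod_cast h1
    positivity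

private lemma log_step (a b : ℝ) (ha : 0 < a) (hab : a ≤ b) :
    (b - a) / b ≤ Real.log b - Real.log a := by
  have hb : 0 < b := lt_of_lt_of_le ha hab
  have h1 := Real.log_le_sub_one_of_pos (x := a / b) (by positivity)
  rw [Real.log_div ha.ne' hb.ne'] at h1
  have h2 : (b - a) / b = 1 - a / b := by field_simp
  rw [h2]
  linarith

private lemma log_step' (a b : ℝ) (ha : 0 < a) (hab : a ≤ b) :
    Real.log b - Real.log a ≤ (b - a) / a := by
  have hb : 0 < b := lt_of_lt_of_le ha hab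
  have h1 := Real.log_le_sub_one_of_pos (x := b / a) (by positivity)
  rw [Real.log_div hb.ne' ha.ne'] at h1
  have h2 : (b - a) / a = b / a - 1 := by field_simp
  rw [h2]
  linarith

private lemma up_aux (Z M : ℕ) (r : ℤ) (hZ : 2 ≤ Z) (hM : 1 ≤ M) (n : ℕ) :
    ∀ T : ℤ, T ≤ Z + n → (Z : ℤ) ≤ T →
      hS Z M r T ≤ 1 / (Z : ℝ) + (Real.log T - Real.log Z) / M := by
  have hZ0 : (0 : ℝ) < Z := by positivity
  have hM0 : (0 : ℝ) < M := by positivity
  have hMz : (1 : ℤ) ≤ M := by exact_mod_cast hM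
  have hZz : (2 : ℤ) ≤ Z := by exact_mod_cast hZ
  induction n with
  | zero =>
    intro T h1 h2
    have hT : T = Z := by push_cast at h1; linarith
    subst hT
    rw [hS_empty _ _ _ _ (le_refl _)]
    simp
  | succ n ih =>
    intro T h1 h2
    by_cases hT : T ≤ Z + n
    · exact ih T hT h2
    · push_cast at h1
      have hTe : T = Z + n + 1 := by linarith [Int.add_one_le_of_lt (not_le.1 hT)]
      have hn0 : (0 : ℤ) ≤ n := Int.natCast_nonneg n
      have hZT : (Z : ℤ) < T := by linarith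
      have hTpos : (0 : ℝ) < T := by
        have : (0 : ℤ) < T := by linarith
        exact_mod_cast this
      have hZTr : (Z : ℝ) ≤ T := by exact_mod_cast h2
      by_cases hr : (M : ℤ) ∣ T - r
      · rw [hS_class Z M r T hM hZT hr]
        by_cases hc : (Z : ℤ) ≤ T - M
        · have h3 := ih (T - M) (by linarith) hc
          have h4 : (Z : ℝ) ≤ ((T - M : ℤ) : ℝ) := by exact_mod_cast hc
          have h5 := log_step ((T - M : ℤ) : ℝ) (T : ℝ) (by linarith) (by push_cast; linarith)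
          have h6 : 1 / (T : ℝ) ≤ (Real.log T - Real.log ((T - M : ℤ) : ℝ)) / M := by
            rw [le_div_iff₀ hM0]
            have : ((T : ℝ) - ((T - M : ℤ) : ℝ)) / T = 1 / (T : ℝ) * M := by
              push_cast
              field_simp
              ring
            rw [← this]
            exact h5
          calc hS Z M r (T - M) + 1 / (T : ℝ) ≤
              (1 / (Z : ℝ) + (Real.log ((T - M : ℤ) : ℝ) - Real.log Z) / M) +
                (Real.log T - Real.log ((T - M : ℤ) : ℝ)) / M := add_le_add h3 h6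
            _ = _ := by ring
        · rw [hS_empty _ _ _ _ (le_of_lt (not_le.1 hc)), zero_add]
          have h3 : 1 / (T : ℝ) ≤ 1 / Z := one_div_le_one_div_of_le hZ0 hZTr
          have h4 : 0 ≤ (Real.log T - Real.log Z) / M := by
            apply div_nonneg _ hM0.le
            linarith [Real.log_le_log hZ0 hZTr]
          linarith
      · rw [hS_notclass Z M r T hr]
        have h3 := ih (T - 1) (by linarith) (by linarith)
        have h4 : (Z : ℝ) ≤ ((T - 1 : ℤ) : ℝ) := by
          have : (Z : ℤ) ≤ T - 1 := by linarith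
          exact_mod_cast this
        have h5 : Real.log ((T - 1 : ℤ) : ℝ) ≤ Real.log T := by
          apply Real.log_le_log (by linarith)
          push_cast
          linarith
        refine h3.trans ?_
        gcongr

private lemma low_aux (Z M : ℕ) (r : ℤ) (hZ : 2 ≤ Z) (hM : 1 ≤ M) (n : ℕ) :
    ∀ x : ℤ, x ≤ Z + n → (Z : ℤ) < x → (M : ℤ) ∣ x - r →
      (Real.log ((x : ℝ) + M) - Real.log ((Z : ℝ) + M)) / M ≤ hS Z M r x := by
  have hZ0 : (0 : ℝ) < Z := by positivity
  have hM0 : (0 : ℝ) < M := by positivity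
  have hMz : (1 : ℤ) ≤ M := by exact_mod_cast hM
  have hZz : (2 : ℤ) ≤ Z := by exact_mod_cast hZ
  induction n with
  | zero =>
    intro x h1 h2 _
    exfalso
    push_cast at h1
    linarith
  | succ n ih =>
    intro x h1 h2 hr
    push_cast at h1
    have hxpos : (0 : ℝ) < x := by
      have : (0 : ℤ) < x := by linarith
      exact_mod_cast this
    have h5 := log_step' (x : ℝ) (x + M) hxpos (by linarith)
    have h6 : (Real.log ((x : ℝ) + M) - Real.log x) / M ≤ 1 / (x : ℝ) := by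
      rw [div_le_iff₀ hM0]
      have : ((x : ℝ) + M - x) / x = 1 / (x : ℝ) * M := by
        field_simp
        ring
      rw [← this]
      exact h5
    rw [hS_class Z M r x hM h2 hr]
    by_cases hc : (Z : ℤ) < x - M
    · have hr' : (M : ℤ) ∣ x - M - r := by
        have := dvd_sub hr (dvd_refl (M : ℤ))
        have e : x - r - M = x - M - r := by ring
        rwa [e] at this
      have h3 := ih (x - M) (by linarith) hc hr'
      have e1 : ((x - M : ℤ) : ℝ) + M = x := by push_cast; ring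
      rw [e1] at h3
      calc (Real.log ((x : ℝ) + M) - Real.log ((Z : ℝ) + M)) / M =
          (Real.log x - Real.log ((Z : ℝ) + M)) / M +
            (Real.log ((x : ℝ) + M) - Real.log x) / M := by ring
        _ ≤ _ := add_le_add h3 h6
    · rw [hS_empty _ _ _ _ (not_lt.1 hc), zero_add]
      refine le_trans ?_ h6
      have h7 : (x : ℝ) ≤ Z + M := by
        have : x ≤ Z + M := by linarith [not_lt.1 hc]
        exact_mod_cast this
      have h8 := Real.log_le_log hxpos h7
      gcongr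

theorem harm_upper (Z M : ℕ) (r : ℤ) (hZ : 2 ≤ Z) (hM : 1 ≤ M) :
    ∑ x ∈ (Ioc (Z : ℤ) ((Z : ℤ) ^ 2)).filter (fun x => (M : ℤ) ∣ x - r), 1 / (x : ℝ) ≤
      1 / (Z : ℝ) + Real.log Z / M := by
  have h := up_aux Z M r hZ hM ((Z ^ 2 - Z : ℕ)) ((Z : ℤ) ^ 2) (by
    have : Z ≤ Z ^ 2 := by nlinarith
    push_cast [Nat.cast_sub this]
    linarith) (by
    have : Z ≤ Z ^ 2 := by nlinarith
    exact_mod_cast this)
  unfold hS at h
  refine h.trans (le_of_eq ?_)
  push_cast
  rw [Real.log_pow]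
  push_cast
  ring

theorem harm_lower (Z M : ℕ) (r : ℤ) (hZ : 2 ≤ Z) (hM : 1 ≤ M) :
    Real.log Z / M - 1 / (Z : ℝ) ≤
      ∑ x ∈ (Ioc (Z : ℤ) ((Z : ℤ) ^ 2)).filter (fun x => (M : ℤ) ∣ x - r), 1 / (x : ℝ) := by
  have hZ0 : (0 : ℝ) < Z := by positivity
  have hM0 : (0 : ℝ) < M := by positivity
  have hMz : (1 : ℤ) ≤ M := by exact_mod_cast hM
  have hZz : (2 : ℤ) ≤ Z := by exact_mod_cast hZ
  change _ ≤ hS Z M r ((Z : ℤ) ^ 2)
  have h1 := log_step' (Z : ℝ) ((Z : ℝ) + M) hZ0 (by linarith)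
  have h2 : ((Z : ℝ) + M - Z) / Z = M / Z := by ring
  rw [h2] at h1
  have h3 : Real.log Z / M - 1 / (Z : ℝ) ≤
      (Real.log (((Z : ℝ)) ^ 2) - Real.log ((Z : ℝ) + M)) / M := by
    rw [Real.log_pow, le_div_iff₀ hM0]
    have : (Real.log Z / M - 1 / (Z : ℝ)) * M = Real.log Z - M / Z := by
      field_simp
    rw [this]
    push_cast
    linarith
  set T : ℤ := (Z : ℤ) ^ 2 with hT
  have hTr : ((T : ℤ) : ℝ) = (Z : ℝ) ^ 2 := by rw [hT]; push_cast; ring
  set x : ℤ := T - (T - r) % M with hx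
  have hm0 : 0 ≤ (T - r) % M := Int.emod_nonneg _ (by linarith)
  have hm1 : (T - r) % M < M := Int.emod_lt_of_pos _ (by linarith)
  have hxr : (M : ℤ) ∣ x - r := by
    have e : x - r = (T - r) - (T - r) % M := by rw [hx]; ring
    rw [e]
    exact Int.dvd_self_sub_emod
  refine h3.trans ?_
  by_cases hc : (Z : ℤ) < x
  · have h4 := low_aux Z M r hZ hM (x - Z).toNat x (by
      rw [Int.toNat_of_nonneg (by linarith)]; linarith) hc hxr
    refine le_trans ?_ (h4.trans (hS_mono Z M r x T (by linarith)))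
    have h5 : (Z : ℝ) ^ 2 ≤ x + M := by
      rw [← hTr]
      have : T ≤ x + M := by linarith
      exact_mod_cast this
    have h6 := Real.log_le_log (by positivity) h5
    gcongr
  · refine le_trans ?_ (hS_nonneg Z M r T)
    apply div_nonpos_of_nonpos_of_nonneg _ hM0.le
    have h5 : (Z : ℝ) ^ 2 ≤ Z + M := by
      rw [← hTr]
      have : T ≤ Z + M := by linarith [not_lt.1 hc]
      exact_mod_cast this
    have h6 := Real.log_le_log (by positivity) h5
    linarith

end Pool.Agent.MKA
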