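import Pool.Agent.MKA.XSum
import Pool.Agent.MKA.DefsC

/-!
# MKA/Inj: pairs with the same value are bounded by divisor pairs

Let `α = AA a x ^2 - 1`, `β = AA a x' ^2 - 1`, `γ = x'^2 - x^2`, `G(y,y') = α y² - β y'² + γ`.
For `((y,u),(y',u')) ∈ PXC`: `u² - αy² + x² = u'² - βy'² + x'²`, i.e. `(u-u')(u+u') = G(y,y')`.
(1) `2q ∣ G(y,y')`.  `q` is even.  `2q ∣ x' - x` gives `2q ∣ x'²-x²`.  `2 AA a x = a x` (`AA_spec`), so
`2(AA a x - AA a x') = a (x - x')`, hence `q ∣ AA a x - AA a x'`; then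
`AA² - AA'² = (AA-AA')(AA+AA')` and `AA+AA' = (AA-AA') + 2AA'` is even, so `2q ∣ α - β`.
`q ∣ y-y'`, `y+y' = (y-y')+2y'` even, so `2q ∣ y²-y'²`.
`G = α(y²-y'²) + (α-β)y'² + γ`.
(2) `m = g q₃` divides `u - u₀` and `u' - u₀`.  Write `u - u' = g q₃ d`, `u = u₀ + g q₃ t`.  Then
`u + u' = 2u - (u-u') = g (c₀ + 2 q₃ t - q₃ d) = g e`, `e = c₀ + q₃(2t - d)`; `e` is odd (`2 ∣ q₃`, `c₀` odd
because `2 ∣ q`).  `G = g q₃ d · g e = g² q₃ · d e = q d e` and `2q ∣ G`, so `2 ∣ d e`, `2 ∣ d`, hence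
`e ≡ c₀ mod 2 q₃`.
(3) `e` is coprime to `2q`: a prime `p ∣ 2q` divides `q` (as `2 ∣ q`), so `p ∣ q₃`, `p ∤ c₀`, `p ∤ e`.
`e > 0`, `e ∣ G(y,y')`; from `g B₁ < u + u' = g e ≤ g B₂`: `B₁ < e ≤ B₂`.
(4) `((y,u),(y',u')) ↦ (e, (y,y'))` is injective: `g e (u - u') = G(y,y')` determines `u - u'` and
`u + u' = g e`.  So `PXC` injects into the sigma-type on the right (`Finset.card_sigma` or
`Finset.card_le_card_of_injOn`, `Finset.card_biUnion_le`).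
Size: 150-180 lines.
-/

set_option autoImplicit false

namespace Pool.Agent.MKA

open Finset

private theorem key (a q g q₃ : ℕ) (x₀ A₀ y₀ u₀ c₀ x x' y y' u u' : ℤ)
    (hg : 1 ≤ g) (h3 : 1 ≤ q₃) (hq : q = g ^ 2 * q₃) (h2 : 2 ∣ q₃)
    (hrad : ∀ p : ℕ, p.Prime → p ∣ q → p ∣ q₃) (hA : (a : ℤ) * x₀ = 2 * A₀)
    (hu : 2 * u₀ = (g : ℤ) * c₀) (hc : ∀ p : ℕ, p.Prime → p ∣ q → ¬ (p : ℤ) ∣ c₀)
    (hx : (2 * q : ℤ) ∣ x - x₀) (hx' : (2 * q : ℤ) ∣ x' - x₀)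
    (hy : (q : ℤ) ∣ y - y₀) (hy' : (q : ℤ) ∣ y' - y₀)
    (hm : ((g * q₃ : ℕ) : ℤ) ∣ u - u₀) (hm' : ((g * q₃ : ℕ) : ℤ) ∣ u' - u₀)
    (hB : BB a x y u = BB a x' y' u') (hpos : 0 < u + u') :
    ∃ e : ℕ, u + u' = (g : ℤ) * e ∧ e ≡ (c₀ % (2 * (q₃ : ℤ))).toNat [MOD 2 * q₃] ∧
      Nat.Coprime e (2 * q) ∧
      (g : ℤ) * e * (u - u') =
        PP (AA a x ^ 2 - 1) (AA a x' ^ 2 - 1) (x' ^ 2 - x ^ 2) y y' := by
  have hq0 : (q : ℤ) ≠ 0 := by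
    have : q ≠ 0 := by
      rw [hq]
      positivity
    exact_mod_cast this
  have hgz : (0 : ℤ) < g := by exact_mod_cast hg
  have h3z : (0 : ℤ) < q₃ := by exact_mod_cast h3
  have hqz : (q : ℤ) = (g : ℤ) ^ 2 * q₃ := by exact_mod_cast hq
  have hPP : (u - u') * (u + u') =
      PP (AA a x ^ 2 - 1) (AA a x' ^ 2 - 1) (x' ^ 2 - x ^ 2) y y' := by
    unfold BB at hB
    unfold PP
    linear_combination hB
  have h2q : 2 ∣ q := by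
    rw [hq]
    exact h2.mul_left _
  obtain ⟨r, hr⟩ := h2q
  have hrz : (q : ℤ) = 2 * r := by exact_mod_cast hr
  -- divisibility by `2q`
  have hG : (2 * q : ℤ) ∣ PP (AA a x ^ 2 - 1) (AA a x' ^ 2 - 1) (x' ^ 2 - x ^ 2) y y' := by
    have e1 := AA_spec a q x x₀ A₀ hA hx
    have e2 := AA_spec a q x' x₀ A₀ hA hx'
    obtain ⟨k, hk⟩ : (2 * q : ℤ) ∣ x - x' := by
      have := dvd_sub hx hx'
      have h : x - x₀ - (x' - x₀) = x - x' := by ring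
      rwa [h] at this
    obtain ⟨l, hl⟩ : (q : ℤ) ∣ y - y' := by
      have := dvd_sub hy hy'
      have h : y - y₀ - (y' - y₀) = y - y' := by ring
      rwa [h] at this
    have e3 : AA a x - AA a x' = (a : ℤ) * q * k := by
      have h : 2 * (AA a x - AA a x') = 2 * ((a : ℤ) * q * k) := by
        linear_combination e1 - e2 + (a : ℤ) * hk
      exact mul_left_cancel₀ two_ne_zero h
    have hAx : AA a x = AA a x' + (a : ℤ) * q * k := by linear_combination e3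
    have hyy : y = y' + (q : ℤ) * l := by linear_combination hl
    have hxx : x = x' + 2 * (q : ℤ) * k := by linear_combination hk
    have e4 : (2 * q : ℤ) ∣ (AA a x ^ 2 - 1) - (AA a x' ^ 2 - 1) := by
      refine ⟨(a : ℤ) * k * ((a : ℤ) * r * k + AA a x'), ?_⟩
      rw [hAx, hrz]
      ring
    have e5 : (2 * q : ℤ) ∣ y ^ 2 - y' ^ 2 := by
      refine ⟨l * ((r : ℤ) * l + y'), ?_⟩
      rw [hyy, hrz]
      ring
    have e6 : (2 * q : ℤ) ∣ x' ^ 2 - x ^ 2 := by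
      refine ⟨-k * (2 * x' + 2 * (q : ℤ) * k), ?_⟩
      rw [hxx]
      ring
    have e7 : PP (AA a x ^ 2 - 1) (AA a x' ^ 2 - 1) (x' ^ 2 - x ^ 2) y y' =
        (AA a x ^ 2 - 1) * (y ^ 2 - y' ^ 2) +
        ((AA a x ^ 2 - 1) - (AA a x' ^ 2 - 1)) * y' ^ 2 + (x' ^ 2 - x ^ 2) := by
      unfold PP
      ring
    rw [e7]
    exact dvd_add (dvd_add (e5.mul_left _) (e4.mul_right _)) e6
  obtain ⟨s, hs⟩ := hm
  obtain ⟨s', hs'⟩ := hm'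
  push_cast at hs hs'
  -- `e`
  have hsum : u + u' = (g : ℤ) * (c₀ + (q₃ : ℤ) * (s + s')) := by
    linear_combination hs + hs' + hu
  have hdiff : u - u' = (g : ℤ) * q₃ * (s - s') := by
    linear_combination hs - hs'
  have hodd : ¬ (2 : ℤ) ∣ c₀ := by
    have h := hc 2 Nat.prime_two ⟨r, hr⟩
    exact_mod_cast h
  obtain ⟨w, hw⟩ := h2
  have hwz : (q₃ : ℤ) = 2 * w := by exact_mod_cast hw
  have heodd : ¬ (2 : ℤ) ∣ c₀ + (q₃ : ℤ) * (s + s') := by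
    intro h
    apply hodd
    have h' : (2 : ℤ) ∣ (q₃ : ℤ) * (s + s') := by
      rw [hwz]
      exact ⟨w * (s + s'), by ring⟩
    have := dvd_sub h h'
    have h'' : c₀ + (q₃ : ℤ) * (s + s') - (q₃ : ℤ) * (s + s') = c₀ := by ring
    rwa [h''] at this
  have hd : (2 : ℤ) ∣ s - s' := by
    rw [← hPP, hdiff, hsum] at hG
    have h : (g : ℤ) * q₃ * (s - s') * ((g : ℤ) * (c₀ + (q₃ : ℤ) * (s + s'))) =
        (q : ℤ) * ((s - s') * (c₀ + (q₃ : ℤ) * (s + s'))) := by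
      rw [hqz]
      ring
    rw [h, mul_comm (2 : ℤ) (q : ℤ)] at hG
    have h' := (mul_dvd_mul_iff_left hq0).1 hG
    rcases Int.prime_two.dvd_or_dvd h' with h'' | h''
    · exact h''
    · exact absurd h'' heodd
  obtain ⟨d, hd⟩ := hd
  have hepos : 0 < c₀ + (q₃ : ℤ) * (s + s') := by
    rw [hsum] at hpos
    exact (mul_pos_iff_of_pos_left hgz).1 hpos
  have hen : (((c₀ + (q₃ : ℤ) * (s + s')).toNat : ℕ) : ℤ) = c₀ + (q₃ : ℤ) * (s + s') :=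
    Int.toNat_of_nonneg hepos.le
  refine ⟨(c₀ + (q₃ : ℤ) * (s + s')).toNat, ?_, ?_, ?_, ?_⟩
  · rw [hen]
    exact hsum
  · rw [← Int.natCast_modEq_iff, hen, Int.toNat_of_nonneg
      (Int.emod_nonneg _ (by positivity))]
    push_cast
    have h1 : c₀ + (q₃ : ℤ) * (s + s') ≡ c₀ [ZMOD 2 * (q₃ : ℤ)] := by
      rw [Int.modEq_iff_dvd]
      refine ⟨-(s' + d), ?_⟩
      have h : s = s' + 2 * d := by linear_combination hd
      rw [h]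
      ring
    exact h1.trans (Int.mod_modEq _ _).symm
  · by_contra hcon
    rw [Nat.Prime.not_coprime_iff_dvd] at hcon
    obtain ⟨p, hp, hp1, hp2⟩ := hcon
    have hpq : p ∣ q := by
      rcases (Nat.Prime.dvd_mul hp).1 hp2 with h | h
      · have h' := (Nat.prime_dvd_prime_iff_eq hp Nat.prime_two).1 h
        rw [h']
        exact ⟨r, hr⟩
      · exact h
    have hp3 := hrad p hp hpq
    apply hc p hp hpq
    have h1 : (p : ℤ) ∣ c₀ + (q₃ : ℤ) * (s + s') := by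
      rw [← hen]
      exact_mod_cast hp1
    have h2' : (p : ℤ) ∣ (q₃ : ℤ) * (s + s') := by
      have : (p : ℤ) ∣ (q₃ : ℤ) := by exact_mod_cast hp3
      exact this.mul_right _
    have := dvd_sub h1 h2'
    have h'' : c₀ + (q₃ : ℤ) * (s + s') - (q₃ : ℤ) * (s + s') = c₀ := by ring
    rwa [h''] at this
  · rw [hen, ← hPP, hsum]
    ring

theorem pairs_le (a q g q₃ : ℕ) (x₀ A₀ y₀ u₀ c₀ M₁ M₂ M₁' M₂' U N₁ H x x' : ℤ) (B₁ B₂ : ℕ)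
    (hg : 1 ≤ g) (h3 : 1 ≤ q₃) (hq : q = g ^ 2 * q₃) (h2 : 2 ∣ q₃)
    (hrad : ∀ p : ℕ, p.Prime → p ∣ q → p ∣ q₃) (hA : (a : ℤ) * x₀ = 2 * A₀)
    (hu : 2 * u₀ = (g : ℤ) * c₀) (hc : ∀ p : ℕ, p.Prime → p ∣ q → ¬ (p : ℤ) ∣ c₀)
    (hx : (2 * q : ℤ) ∣ x - x₀) (hx' : (2 * q : ℤ) ∣ x' - x₀)
    (hU : ∀ t ∈ YU a q (g * q₃) y₀ u₀ M₁ M₂ U N₁ H x,
      ∀ t' ∈ YU a q (g * q₃) y₀ u₀ M₁' M₂' U N₁ H x',
        (g : ℤ) * B₁ < t.2 + t'.2 ∧ t.2 + t'.2 ≤ (g : ℤ) * B₂) :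
    (PXC a q (g * q₃) y₀ u₀ M₁ M₂ M₁' M₂' U N₁ H x x').card ≤
      ∑ e ∈ (Ioc B₁ B₂).filter
          (fun e => e ≡ (c₀ % (2 * (q₃ : ℤ))).toNat [MOD 2 * q₃] ∧ Nat.Coprime e (2 * q)),
        ((YS a q y₀ M₁ M₂ x ×ˢ YS a q y₀ M₁' M₂' x').filter
          (fun t : ℤ × ℤ => (e : ℤ) ∣
            PP (AA a x ^ 2 - 1) (AA a x' ^ 2 - 1) (x' ^ 2 - x ^ 2) t.1 t.2)).card := by
  classical
  set S := (Ioc B₁ B₂).filter
    (fun e => e ≡ (c₀ % (2 * (q₃ : ℤ))).toNat [MOD 2 * q₃] ∧ Nat.Coprime e (2 * q)) with hS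
  set T : ℕ → Finset (ℤ × ℤ) := fun e => (YS a q y₀ M₁ M₂ x ×ˢ YS a q y₀ M₁' M₂' x').filter
    (fun t : ℤ × ℤ => (e : ℤ) ∣
      PP (AA a x ^ 2 - 1) (AA a x' ^ 2 - 1) (x' ^ 2 - x ^ 2) t.1 t.2) with hT
  have h0 : ∑ e ∈ S, (T e).card = (S.sigma T).card := (Finset.card_sigma S T).symm
  have hgz : (0 : ℤ) < g := by exact_mod_cast hg
  have hkey : ∀ t ∈ PXC a q (g * q₃) y₀ u₀ M₁ M₂ M₁' M₂' U N₁ H x x', ∃ e : ℕ,
      t.1.2 + t.2.2 = (g : ℤ) * e ∧ e ∈ S ∧ (t.1.1, t.2.1) ∈ T e ∧ 0 < (g : ℤ) * e ∧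
      (g : ℤ) * e * (t.1.2 - t.2.2) =
        PP (AA a x ^ 2 - 1) (AA a x' ^ 2 - 1) (x' ^ 2 - x ^ 2) t.1.1 t.2.1 := by
    intro t ht
    unfold PXC at ht
    rw [mem_filter, mem_product] at ht
    obtain ⟨⟨ht1, ht2⟩, hB⟩ := ht
    have b1 := hU _ ht1 _ ht2
    unfold YU at ht1 ht2
    rw [mem_filter, mem_product] at ht1 ht2
    obtain ⟨⟨hy1, hu1⟩, hm1, _, _⟩ := ht1
    obtain ⟨⟨hy2, hu2⟩, hm2, _, _⟩ := ht2
    rw [mem_Icc] at hu1 hu2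
    have hy1' := hy1
    have hy2' := hy2
    unfold YS at hy1' hy2'
    rw [mem_filter] at hy1' hy2'
    obtain ⟨e, e1, e2, e3, e4⟩ := key a q g q₃ x₀ A₀ y₀ u₀ c₀ x x' t.1.1 t.2.1 t.1.2 t.2.2
      hg h3 hq h2 hrad hA hu hc hx hx' hy1'.2.1 hy2'.2.1 hm1 hm2 hB (by linarith [hu1.1, hu2.1])
    have hsum2 : (g : ℤ) * B₁ < (g : ℤ) * e ∧ (g : ℤ) * e ≤ (g : ℤ) * B₂ := by
      rw [← e1]
      exact b1
    have hlo : (B₁ : ℤ) < e := lt_of_mul_lt_mul_left hsum2.1 hgz.le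
    have hhi : (e : ℤ) ≤ B₂ := le_of_mul_le_mul_left hsum2.2 hgz
    refine ⟨e, e1, ?_, ?_, ?_, e4⟩
    · rw [hS, mem_filter, mem_Ioc]
      exact ⟨⟨by exact_mod_cast hlo, by exact_mod_cast hhi⟩, e2, e3⟩
    · rw [hT]
      simp only [mem_filter, mem_product]
      refine ⟨⟨hy1, hy2⟩, ?_⟩
      rw [← e4]
      exact ⟨(g : ℤ) * (t.1.2 - t.2.2), by ring⟩
    · rw [← e1]
      linarith [hu1.1, hu2.1]
  rw [h0]
  refine Finset.card_le_card_of_injOn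
    (fun t => (⟨((t.1.2 + t.2.2) / (g : ℤ)).toNat, (t.1.1, t.2.1)⟩ : (_ : ℕ) × (ℤ × ℤ))) ?_ ?_
  · intro t ht
    obtain ⟨e, e1, e2, e3, _, _⟩ := hkey t ht
    have h1 : ((t.1.2 + t.2.2) / (g : ℤ)).toNat = e := by
      rw [e1, Int.mul_ediv_cancel_left _ hgz.ne']
      simp
    rw [Finset.mem_coe, Finset.mem_sigma]
    simp only [h1]
    exact ⟨e2, e3⟩
  · intro t ht s hs hts
    obtain ⟨e, e1, _, _, e4, e5⟩ := hkey t ht
    obtain ⟨e', e1', _, _, _, e5'⟩ := hkey s hs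
    have h1 : ((t.1.2 + t.2.2) / (g : ℤ)).toNat = e := by
      rw [e1, Int.mul_ediv_cancel_left _ hgz.ne']
      simp
    have h1' : ((s.1.2 + s.2.2) / (g : ℤ)).toNat = e' := by
      rw [e1', Int.mul_ediv_cancel_left _ hgz.ne']
      simp
    simp only [Sigma.mk.injEq, heq_eq_eq, Prod.mk.injEq] at hts
    obtain ⟨h2', h3', h4'⟩ := hts
    rw [h1, h1'] at h2'
    subst h2'
    rw [h3', h4'] at e5
    have h5 : t.1.2 - t.2.2 = s.1.2 - s.2.2 := by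
      have : (g : ℤ) * e * (t.1.2 - t.2.2) = (g : ℤ) * e * (s.1.2 - s.2.2) := by
        rw [e5, e5']
      exact mul_left_cancel₀ e4.ne' this
    have h6 : t.1.2 + t.2.2 = s.1.2 + s.2.2 := by rw [e1, e1']
    have h7 : t.1.2 = s.1.2 := by linarith
    have h8 : t.2.2 = s.2.2 := by linarith
    exact Prod.ext (Prod.ext h3' h7) (Prod.ext h4' h8)

end Pool.Agent.MKA
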