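import Pool.Agent.MKA.Defs

/-!
# MKA/LocGen: a nonsingular solution modulo prime powers

`F = x² + y² + z² - a x y z`.
`sing_dvd`: suppose `p^(k+1)` divides `F - b` and the three derivatives `2x - ayz`, `2y - axz`, `2z - axy`.
Modulo `p^(k+1)`: `2x² ≡ axyz`, `2y² ≡ axyz`, `2z² ≡ axyz`, so `2b ≡ 2F ≡ 3axyz - 2axyz = axyz ≡ 2x² ≡ 2y²`.  Also
`4x ≡ 2ayz = a y (2z) ≡ a y · a x y = a² x y²`, so `x(4 - a²y²) ≡ 0`; multiply by `2x`: `2b(4 - a²y²) ≡ 0`;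
multiply by `2`: `2b(8 - a²·2y²) ≡ 2b(8 - 2a²b) = 4b(4 - a²b) ≡ 0`.
`good_sol`: take a solution mod `p^K`.  If all three derivatives were divisible by `p^(k+1)`, then
`p^(k+1) ∣ 4b(4 - a²b)` by `sing_dvd` (`k+1 ≤ K`); but `p^j ∤ b`, `p^j ∤ a²b - 4` and `p³ ∤ 4` give that
`p^(2(j-1)+2+1)` does not divide `4b(4-a²b)` (valuations: `≤ 2 + (j-1) + (j-1) = 2j`), and
`2j ≤ k`: contradiction.  So one derivative is not divisible by `p^(k+1)`; permute the variables (`F` is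
symmetric) so that it is the third one.
-/

set_option autoImplicit false

namespace Pool.Agent.MKA

open Finset

theorem sing_dvd (a b x y z n : ℤ) (h : n ∣ x ^ 2 + y ^ 2 + z ^ 2 - a * x * y * z - b)
    (hx : n ∣ 2 * x - a * y * z) (hy : n ∣ 2 * y - a * x * z) (hz : n ∣ 2 * z - a * x * y) :
    n ∣ 4 * b * (4 - a ^ 2 * b) := by
  obtain ⟨e, he⟩ := h
  obtain ⟨p, hp⟩ := hx
  obtain ⟨q, hq⟩ := hy
  obtain ⟨r, hr⟩ := hz
  refine ⟨2 * ((-2 * e + y * q + z * r) * (4 - a ^ 2 * y ^ 2) + 2 * x * (2 * p + a * y * r))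
    - 2 * a ^ 2 * b * (-2 * e + x * p + z * r), ?_⟩
  linear_combination (-4 * (4 - a ^ 2 * y ^ 2) + 4 * a ^ 2 * b) * he +
    (8 * x - 2 * a ^ 2 * b * x) * hp + (2 * y * (4 - a ^ 2 * y ^ 2)) * hq +
    (2 * z * (4 - a ^ 2 * y ^ 2) + 4 * x * a * y - 2 * a ^ 2 * b * z) * hr

theorem not_pow_dvd_mul {p : ℤ} (hp : Prime p) {a b : ℤ} {m n : ℕ} (hm : ¬ p ^ (m + 1) ∣ a)
    (hn : ¬ p ^ (n + 1) ∣ b) : ¬ p ^ (m + n + 1) ∣ a * b := by
  rw [← emultiplicity_lt_iff_not_dvd] at *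
  rw [emultiplicity_mul hp]
  push_cast at *
  have h1 : emultiplicity p a ≤ m := (ENat.lt_add_one_iff (ENat.natCast_ne_top m)).1 hm
  have h2 : emultiplicity p b ≤ n := (ENat.lt_add_one_iff (ENat.natCast_ne_top n)).1 hn
  have h3 : ((m : ℕ∞) + n) ≠ ⊤ := by
    rw [← Nat.cast_add]; exact ENat.natCast_ne_top _
  exact (ENat.lt_add_one_iff h3).2 (add_le_add h1 h2)

theorem good_sol (a b : ℤ) (p K k j : ℕ) (hp : p.Prime) (hK : k + 1 ≤ K) (hj : 1 ≤ j)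
    (hjk : 2 * j ≤ k) (hb : ¬ (p : ℤ) ^ j ∣ b) (hab : ¬ (p : ℤ) ^ j ∣ a ^ 2 * b - 4)
    (hloc : ∃ x y z : ℤ, (p : ℤ) ^ K ∣ x ^ 2 + y ^ 2 + z ^ 2 - a * x * y * z - b) :
    ∃ x y z : ℤ, (p : ℤ) ^ K ∣ x ^ 2 + y ^ 2 + z ^ 2 - a * x * y * z - b ∧
      ¬ (p : ℤ) ^ (k + 1) ∣ 2 * z - a * x * y := by
  obtain ⟨x, y, z, h⟩ := hloc
  by_cases hz : (p : ℤ) ^ (k + 1) ∣ 2 * z - a * x * y
  · by_cases hy : (p : ℤ) ^ (k + 1) ∣ 2 * y - a * x * z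
    · by_cases hx : (p : ℤ) ^ (k + 1) ∣ 2 * x - a * y * z
      · exfalso
        have hpp : Prime (p : ℤ) := Nat.prime_iff_prime_int.1 hp
        have h1 : (p : ℤ) ^ (k + 1) ∣ 4 * b * (4 - a ^ 2 * b) :=
          sing_dvd a b x y z _ ((pow_dvd_pow _ hK).trans h) hx hy hz
        obtain ⟨i, rfl⟩ : ∃ i, j = i + 1 := ⟨j - 1, by omega⟩
        have h4 : ¬ (p : ℤ) ^ (2 + 1) ∣ 4 := by
          intro h4
          have h5 := Int.le_of_dvd (by norm_num) h4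
          have h6 : (2 : ℤ) ≤ p := by exact_mod_cast hp.two_le
          have h7 : (2 : ℤ) ^ 3 ≤ (p : ℤ) ^ 3 := pow_le_pow_left₀ (by norm_num) h6 3
          norm_num at h5 h7
          linarith
        have h5 := not_pow_dvd_mul hpp h4 hb
        have h6 : ¬ (p : ℤ) ^ (i + 1) ∣ 4 - a ^ 2 * b := by
          rwa [← dvd_neg, neg_sub]
        have h7 := not_pow_dvd_mul hpp (m := 2 + i) h5 h6
        exact h7 ((pow_dvd_pow _ (by omega)).trans h1)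
      · refine ⟨y, z, x, ?_, hx⟩
        have e : y ^ 2 + z ^ 2 + x ^ 2 - a * y * z * x - b =
          x ^ 2 + y ^ 2 + z ^ 2 - a * x * y * z - b := by ring
        rwa [e]
    · refine ⟨x, z, y, ?_, hy⟩
      have e : x ^ 2 + z ^ 2 + y ^ 2 - a * x * z * y - b =
        x ^ 2 + y ^ 2 + z ^ 2 - a * x * y * z - b := by ring
      rwa [e]
  · exact ⟨x, y, z, h, hz⟩

end Pool.Agent.MKA
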