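import Pool.Agent.MKA.Parts

/-!
# MKA/MainSum: the main term

Let `n₀ = αβγ ≠ 0`.
`main_sum`.  For `e` in the range put `s = bpt n₀ e`, `n = rpt n₀ e * gpt n₀ e`, `e = s n`, coprime
(`rg_good`).  `rho e / e = (rho s / s)(rho n / n)` and `rho n / n ≤ ∑_{m ∣ n, squarefree} 1/m`
(`rho_good`; `n` is odd).  So the sum is at most
`∑_{s ∈ bs n₀ q B₂} (rho s / s) ∑_{m} (1/m) #{e ∈ (B₁,B₂] : s m ∣ e, e ≡ c mod Q}`
over `m ∈ [1,B₂]` squarefree and coprime to `2q`; if `gcd(sm,Q) = 1` (true: `Q ∣ 2q`) the number of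
such `e` is at most `(B₂-B₁)/(s m Q) + 1` (one residue class modulo `s m Q`).  Hence the sum is
`≤ ((B₂-B₁)/Q) (∑_s rho s/s²)(∑_m 1/m²) + (∑_s rho s / s)(∑_{m ≤ B₂} 1/m)`,
`∑_{m ≤ B₂} 1/m ≤ 1 + log B₂`, and `∑_m 1/m² ≤ 1 + ∑_{m > w} 1/m² ≤ 1 + 1/w`, because an `m > 1`
coprime to `2q` has a prime factor `> w`, so `m > w`.
`bs_rho_sum`.  `rho s / s ≤ |α| τ(s) s^(1/2)` (`rho_crude`), `s ≤ B`.
Size: 150-200 lines.
-/

set_option autoImplicit false

namespace Pool.Agent.MKA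

open Finset

theorem ms_count (K B₁ B₂ : ℕ) (hK : 1 ≤ K) (hB : B₁ ≤ B₂) (S : Finset ℕ)
    (h1 : ∀ e ∈ S, B₁ < e ∧ e ≤ B₂) (h2 : ∀ e ∈ S, ∀ e' ∈ S, e ≡ e' [MOD K]) :
    (S.card : ℝ) ≤ ((B₂ : ℝ) - B₁) / K + 1 := by
  have hBr : (B₁ : ℝ) ≤ B₂ := by exact_mod_cast hB
  have hK0 : (0 : ℝ) < K := by exact_mod_cast hK
  rcases S.eq_empty_or_nonempty with h0 | ⟨e0, he0⟩
  · rw [h0, card_empty, Nat.cast_zero]
    have : 0 ≤ ((B₂ : ℝ) - B₁) / K := div_nonneg (by linarith) hK0.le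
    linarith
  have hsub : S ⊆ (Ioc B₁ B₂).filter fun x => x ≡ e0 [MOD K] := by
    intro e he
    rw [mem_filter, mem_Ioc]
    exact ⟨h1 e he, h2 e he e0 he0⟩
  have h3 := card_le_card hsub
  have h4 := Nat.Ioc_filter_modEq_card B₁ B₂ (r := K) (by omega) e0
  have h5 : ((((Ioc B₁ B₂).filter fun x => x ≡ e0 [MOD K]).card : ℤ) : ℚ) ≤
      ((B₂ : ℚ) - B₁) / K + 1 := by
    rw [h4, Int.cast_max]
    apply max_le
    · rw [Int.cast_sub]
      have h6 := Int.floor_le (((B₂ : ℚ) - e0) / (K : ℚ))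
      have h7 := Int.lt_floor_add_one (((B₁ : ℚ) - e0) / (K : ℚ))
      have h8 : ((B₂ : ℚ) - B₁) / K = ((B₂ : ℚ) - e0) / K - ((B₁ : ℚ) - e0) / K := by ring
      rw [h8]
      linarith
    · have h9 : (B₁ : ℚ) ≤ B₂ := by exact_mod_cast hB
      have : 0 ≤ ((B₂ : ℚ) - B₁) / K := div_nonneg (by linarith) (Nat.cast_nonneg _)
      push_cast
      linarith
  have h6 : ((((Ioc B₁ B₂).filter fun x => x ≡ e0 [MOD K]).card : ℕ) : ℝ) ≤
      ((B₂ : ℝ) - B₁) / K + 1 := by
    have h8 := (Rat.cast_le (K := ℝ)).2 h5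
    push_cast at h8
    exact h8
  have h7 : (S.card : ℝ) ≤ ((((Ioc B₁ B₂).filter fun x => x ≡ e0 [MOD K]).card : ℕ) : ℝ) := by
    exact_mod_cast h3
  linarith

theorem ms_tail (w M : ℕ) (hw : 1 ≤ w) :
    ∑ m ∈ (Icc 1 M).filter (fun m => w < m), 1 / (m : ℝ) ^ 2 ≤ 1 / (w : ℝ) := by
  have hw0 : (0 : ℝ) < w := by exact_mod_cast hw
  have key : ∀ M : ℕ, w ≤ M → ∑ m ∈ (Icc 1 M).filter (fun m => w < m), 1 / (m : ℝ) ^ 2 ≤
      1 / (w : ℝ) - 1 / (M : ℝ) := by
    intro M hM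
    induction M, hM using Nat.le_induction with
    | base =>
      have h1 : (Icc 1 w).filter (fun m => w < m) = ∅ := by
        apply filter_eq_empty_iff.2
        intro m hm
        rw [mem_Icc] at hm
        omega
      rw [h1, sum_empty, sub_self]
    | succ M hM ih =>
      have h1 : (Icc 1 (M + 1)).filter (fun m => w < m) =
          insert (M + 1) ((Icc 1 M).filter (fun m => w < m)) := by
        ext m
        rw [mem_insert, mem_filter, mem_filter, mem_Icc, mem_Icc]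
        omega
      rw [h1, sum_insert (by
        rw [mem_filter, mem_Icc]
        omega)]
      have hM0 : (0 : ℝ) < M := by
        have : 0 < M := by omega
        exact_mod_cast this
      have h2 : 1 / (((M + 1 : ℕ) : ℝ)) ^ 2 ≤ 1 / (M : ℝ) - 1 / ((M + 1 : ℕ) : ℝ) := by
        push_cast
        rw [div_sub_div _ _ hM0.ne' (by positivity), div_le_div_iff₀ (by positivity) (by positivity)]
        nlinarith
      linarith
  rcases le_total w M with h | h
  · have h1 := key M h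
    have h2 : 0 ≤ 1 / (M : ℝ) := by positivity
    linarith
  · have h1 : (Icc 1 M).filter (fun m => w < m) = ∅ := by
      apply filter_eq_empty_iff.2
      intro m hm
      rw [mem_Icc] at hm
      omega
    rw [h1, sum_empty]
    positivity

theorem main_sum (α β γ : ℤ) (hα : α ≠ 0) (hβ : β ≠ 0) (hγ : γ ≠ 0) (q Q c w B₁ B₂ : ℕ)
    (hq : 1 ≤ q) (hQ : Q ∣ 2 * q) (hw1 : 1 ≤ w)
    (hw : ∀ p : ℕ, p.Prime → p ≤ w → p ∣ 2 * q) (hB1 : 1 ≤ B₁) (hB : B₁ ≤ B₂) :
    ∑ e ∈ (Ioc B₁ B₂).filter (fun e => e ≡ c [MOD Q] ∧ Nat.Coprime e (2 * q)),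
      (rho α β γ e : ℝ) / (e : ℝ) ≤
      (((B₂ : ℝ) - B₁) / Q) * (1 + 1 / (w : ℝ)) * Sb α β γ q B₂ +
        (1 + Real.log B₂) * ∑ s ∈ bs (α * β * γ) q B₂, (rho α β γ s : ℝ) / (s : ℝ) := by
  set n₀ : ℤ := α * β * γ with hn₀
  have hQ0 : 0 < Q := by
    rcases Nat.eq_zero_or_pos Q with h | h
    · rw [h] at hQ
      have := Nat.eq_zero_of_zero_dvd hQ
      omega
    · exact h
  have hQr : (0 : ℝ) < Q := by exact_mod_cast hQ0
  have hB2 : 1 ≤ B₂ := hB1.trans hB
  set MM := (Icc 1 B₂).filter (fun m => Nat.Coprime m (2 * q)) with hMM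
  set E := (Ioc B₁ B₂).filter (fun e => e ≡ c [MOD Q] ∧ Nat.Coprime e (2 * q)) with hE
  have h1 : ∀ e ∈ E, (rho α β γ e : ℝ) / (e : ℝ) ≤ ∑ s ∈ bs n₀ q B₂, ∑ m ∈ MM,
      if m * s ∣ e then (rho α β γ s : ℝ) / s * (1 / (m : ℝ)) else 0 := by
    intro e he
    rw [hE, mem_filter, mem_Ioc] at he
    obtain ⟨⟨heB1, heB2⟩, _, hcop⟩ := he
    have he1 : 1 ≤ e := by omega
    have hmul := parts_mul n₀ e he1
    obtain ⟨hr1, hg1, hb1⟩ := parts_pos n₀ e he1
    obtain ⟨hco, hgood⟩ := rg_good n₀ e he1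
    have hs := bpt_mem_bs n₀ e q B₂ he1 heB2 hcop
    set s := bpt n₀ e with hsdef
    set n := rpt n₀ e * gpt n₀ e with hndef
    have hes : e = n * s := by
      rw [hndef, mul_assoc]
      exact hmul.symm
    have hn1 : 1 ≤ n := Nat.mul_pos hr1 hg1
    have hs1 : 1 ≤ s := hb1
    have hs0 : (0 : ℝ) < s := by exact_mod_cast hs1
    have hn0 : (0 : ℝ) < n := by exact_mod_cast hn1
    have hodd : ∀ p : ℕ, p.Prime → p ∣ e → p ≠ 2 := by
      rintro p hp hpe rfl
      have h3 := Nat.Coprime.coprime_dvd_left hpe hcop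
      have h4 := Nat.Coprime.coprime_dvd_right (Nat.dvd_mul_right 2 q) h3
      norm_num at h4
    have hrho : (rho α β γ n : ℝ) / n ≤ ∑ m ∈ n.divisors.filter (fun m => Squarefree m), 1 / (m : ℝ) := by
      apply rho_good α β γ n hn1
      intro p hp hpn
      refine ⟨hodd p hp (hpn.trans (by rw [hes]; exact Nat.dvd_mul_right _ _)), ?_⟩
      exact hgood p hp hpn
    have hrm : rho α β γ e = rho α β γ n * rho α β γ s := by
      rw [hes]
      exact rho_mul α β γ n s hn1 hs1 hco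
    have hval : (rho α β γ e : ℝ) / (e : ℝ) = (rho α β γ s : ℝ) / s * ((rho α β γ n : ℝ) / n) := by
      rw [hrm]
      have : (e : ℝ) = (n : ℝ) * s := by exact_mod_cast hes
      rw [this]
      push_cast
      field_simp
    have hnn : ∀ s m : ℕ, 0 ≤ (if m * s ∣ e then (rho α β γ s : ℝ) / s * (1 / (m : ℝ)) else 0) := by
      intro s m
      split_ifs
      · positivity
      · exact le_rfl
    calc (rho α β γ e : ℝ) / (e : ℝ) = (rho α β γ s : ℝ) / s * ((rho α β γ n : ℝ) / n) := hval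
      _ ≤ (rho α β γ s : ℝ) / s * ∑ m ∈ n.divisors.filter (fun m => Squarefree m), 1 / (m : ℝ) :=
          mul_le_mul_of_nonneg_left hrho (by positivity)
      _ = ∑ m ∈ n.divisors.filter (fun m => Squarefree m),
            if m * s ∣ e then (rho α β γ s : ℝ) / s * (1 / (m : ℝ)) else 0 := by
          rw [mul_sum]
          refine sum_congr rfl fun m hm => ?_
          rw [mem_filter, Nat.mem_divisors] at hm
          rw [if_pos]
          rw [hes]
          exact Nat.mul_dvd_mul_right hm.1.1 s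
      _ ≤ ∑ m ∈ MM, if m * s ∣ e then (rho α β γ s : ℝ) / s * (1 / (m : ℝ)) else 0 := by
          apply sum_le_sum_of_subset_of_nonneg
          · intro m hm
            rw [mem_filter, Nat.mem_divisors] at hm
            have hme : m ∣ e := hm.1.1.trans (by rw [hes]; exact Nat.dvd_mul_right _ _)
            rw [hMM, mem_filter, mem_Icc]
            refine ⟨⟨Nat.pos_of_dvd_of_pos hme he1, (Nat.le_of_dvd he1 hme).trans heB2⟩, ?_⟩
            exact Nat.Coprime.coprime_dvd_left hme hcop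
          · intro m _ _
            exact hnn s m
      _ ≤ _ := single_le_sum (f := fun s : ℕ => ∑ m ∈ MM,
            if m * s ∣ e then (rho α β γ s : ℝ) / s * (1 / (m : ℝ)) else 0)
            (fun s _ => sum_nonneg fun m _ => hnn s m) hs
  refine (sum_le_sum h1).trans ?_
  rw [sum_comm]
  have hcount : ∀ s ∈ bs n₀ q B₂, ∀ m ∈ MM,
      ∑ e ∈ E, (if m * s ∣ e then (rho α β γ s : ℝ) / s * (1 / (m : ℝ)) else 0) ≤
      (((B₂ : ℝ) - B₁) / Q) * (1 / (m : ℝ) ^ 2) * ((rho α β γ s : ℝ) / (s : ℝ) ^ 2) +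
      (1 / (m : ℝ)) * ((rho α β γ s : ℝ) / s) := by
    intro s hs m hm
    unfold bs at hs
    rw [mem_filter, mem_Icc] at hs
    rw [hMM, mem_filter, mem_Icc] at hm
    have hs0 : (0 : ℝ) < s := by exact_mod_cast hs.1.1
    have hm0 : (0 : ℝ) < m := by exact_mod_cast hm.1.1
    rw [← sum_filter, sum_const, nsmul_eq_mul]
    have hcopQ : Nat.Coprime (m * s) Q :=
      Nat.Coprime.coprime_dvd_right hQ (Nat.Coprime.mul_left hm.2 hs.2.1)
    have hK1 : 1 ≤ m * s * Q := Nat.mul_pos (Nat.mul_pos hm.1.1 hs.1.1) hQ0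
    have h3 := ms_count (m * s * Q) B₁ B₂ hK1 hB (E.filter fun e => m * s ∣ e) (by
      intro e he
      rw [hE, mem_filter, mem_filter, mem_Ioc] at he
      exact he.1.1) (by
      intro e he e' he'
      rw [hE, mem_filter, mem_filter, mem_Ioc] at he he'
      rw [← Nat.modEq_and_modEq_iff_modEq_mul hcopQ]
      refine ⟨?_, he.1.2.1.trans he'.1.2.1.symm⟩
      exact ((Nat.modEq_zero_iff_dvd).2 he.2).trans ((Nat.modEq_zero_iff_dvd).2 he'.2).symm)
    have hnn : 0 ≤ (rho α β γ s : ℝ) / s * (1 / (m : ℝ)) := by positivity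
    calc _ ≤ (((B₂ : ℝ) - B₁) / ((m * s * Q : ℕ) : ℝ) + 1) * ((rho α β γ s : ℝ) / s * (1 / (m : ℝ))) :=
          mul_le_mul_of_nonneg_right h3 hnn
      _ = _ := by
          push_cast
          field_simp
  have h2 : ∀ s ∈ bs n₀ q B₂, ∑ e ∈ E, ∑ m ∈ MM,
      (if m * s ∣ e then (rho α β γ s : ℝ) / s * (1 / (m : ℝ)) else 0) ≤
      (((B₂ : ℝ) - B₁) / Q) * (1 + 1 / (w : ℝ)) * ((rho α β γ s : ℝ) / (s : ℝ) ^ 2) +
      (1 + Real.log B₂) * ((rho α β γ s : ℝ) / s) := by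
    intro s hs
    rw [sum_comm]
    refine (sum_le_sum fun m hm => hcount s hs m hm).trans ?_
    rw [sum_add_distrib]
    have hBr : (B₁ : ℝ) ≤ B₂ := by exact_mod_cast hB
    apply add_le_add
    · rw [← sum_mul, ← mul_sum]
      apply mul_le_mul_of_nonneg_right _ (by positivity)
      apply mul_le_mul_of_nonneg_left _ (div_nonneg (by linarith) hQr.le)
      have hsub : MM ⊆ insert 1 ((Icc 1 B₂).filter (fun m => w < m)) := by
        intro m hm
        rw [hMM, mem_filter, mem_Icc] at hm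
        rw [mem_insert, mem_filter, mem_Icc]
        by_cases h1m : m = 1
        · left
          exact h1m
        · right
          refine ⟨hm.1, ?_⟩
          by_contra hcon
          push Not at hcon
          obtain ⟨p, hp, hpm⟩ := Nat.exists_prime_and_dvd h1m
          have h4 : p ≤ w := (Nat.le_of_dvd hm.1.1 hpm).trans hcon
          have h5 := hw p hp h4
          have h6 := Nat.Coprime.coprime_dvd_left hpm (Nat.Coprime.coprime_dvd_right h5 hm.2)
          rw [Nat.coprime_self] at h6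
          exact hp.one_lt.ne' h6
      calc ∑ m ∈ MM, 1 / (m : ℝ) ^ 2 ≤
            ∑ m ∈ insert 1 ((Icc 1 B₂).filter (fun m => w < m)), 1 / (m : ℝ) ^ 2 :=
            sum_le_sum_of_subset_of_nonneg hsub (fun _ _ _ => by positivity)
        _ = 1 + ∑ m ∈ (Icc 1 B₂).filter (fun m => w < m), 1 / (m : ℝ) ^ 2 := by
            rw [sum_insert (by
              rw [mem_filter]
              omega)]
            norm_num
        _ ≤ 1 + 1 / (w : ℝ) := by
            have := ms_tail w B₂ hw1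
            linarith
    · rw [← sum_mul]
      apply mul_le_mul_of_nonneg_right _ (by positivity)
      calc ∑ m ∈ MM, 1 / (m : ℝ) ≤ ∑ m ∈ Icc 1 B₂, 1 / (m : ℝ) :=
            sum_le_sum_of_subset_of_nonneg (filter_subset _ _) (fun _ _ _ => by positivity)
        _ ≤ 1 + Real.log B₂ := by
            have h := harmonic_le_one_add_log B₂
            rw [harmonic_eq_sum_Icc] at h
            push_cast at h
            simpa using h
  refine (sum_le_sum h2).trans (le_of_eq ?_)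
  rw [sum_add_distrib, ← mul_sum, ← mul_sum]
  rfl

theorem bs_rho_sum (α β γ : ℤ) (hα : α ≠ 0) (q B : ℕ) (T : ℝ)
    (hT : ∀ s ∈ Icc 1 B, (s.divisors.card : ℝ) ≤ T) :
    ∑ s ∈ bs (α * β * γ) q B, (rho α β γ s : ℝ) / (s : ℝ) ≤
      ((bs (α * β * γ) q B).card : ℝ) * (|(α : ℝ)| * T * Real.sqrt B) := by
  have h1 : ∀ s ∈ bs (α * β * γ) q B, (rho α β γ s : ℝ) / (s : ℝ) ≤ |(α : ℝ)| * T * Real.sqrt B := by
    intro s hs
    unfold bs at hs
    rw [mem_filter] at hs
    have hs1 := mem_Icc.1 hs.1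
    have hs0 : (0 : ℝ) < s := by exact_mod_cast hs1.1
    have h2 := rho_crude α β γ hα s hs1.1
    rw [div_le_iff₀ hs0]
    refine h2.trans ?_
    have h3 : (s : ℝ) ^ (3 / 2 : ℝ) = Real.sqrt s * s := by
      rw [Real.sqrt_eq_rpow]
      rw [← Real.rpow_add_one hs0.ne']
      norm_num
    rw [h3]
    have h4 : Real.sqrt s ≤ Real.sqrt B := Real.sqrt_le_sqrt (by exact_mod_cast hs1.2)
    have h5 := hT s hs.1
    have h6 : 0 ≤ |(α : ℝ)| := abs_nonneg _
    have h7 : (0 : ℝ) ≤ (s.divisors.card : ℝ) := Nat.cast_nonneg _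
    calc |(α : ℝ)| * (s.divisors.card : ℝ) * (Real.sqrt s * s) =
          (|(α : ℝ)| * (s.divisors.card : ℝ)) * Real.sqrt s * s := by ring
      _ ≤ (|(α : ℝ)| * T) * Real.sqrt B * s := by
          apply mul_le_mul_of_nonneg_right _ hs0.le
          apply mul_le_mul _ h4 (Real.sqrt_nonneg _) (by
            have : 0 ≤ T := h7.trans h5
            positivity)
          exact mul_le_mul_of_nonneg_left h5 h6
  refine (sum_le_sum h1).trans (le_of_eq ?_)
  rw [sum_const, nsmul_eq_mul]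

end Pool.Agent.MKA
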