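import Pool.Agent.MKA.ErrPt
import Pool.Agent.MKA.MainSum
import Pool.Agent.MKA.ErrSum
import Pool.Agent.MKA.BsCountC
import Pool.Agent.MKA.AsymC

/-!
# MKA/PairC: the sum over the moduli `e`

`n₀ = αβγ`, `|n₀| ≤ Z^15`.  Proof.  For each `e` in the range `cnt_pointwise` applies
(`l, l' ≤ B₁ ≤ e`).  Sum over `e`.
Main part: `l l' ∑ rho e / e² ≤ (l l'/B₁) ∑ rho e / e` and `main_sum`:
`≤ (l l'/B₁)((B₂-B₁)/Q)(1+1/w) Sb + (l l'/B₁)(1 + log B₂) ∑_{s ∈ bs} rho s/s`; here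
`l l'/B₁ ≤ B₂` and, by `bs_rho_sum`, the last sum is `≤ #bs · |α| T √B₂`, with `T` a bound for the
number of divisors.
Error part: `8 |α| (1 + log B₂)² T⁴ B₂^(3/4) ∑_e gpt^(1/4) bpt^(3/4)` and `err_sum_le`:
`≤ 40 |α| (1+log B₂)² T⁴ B₂^(7/4) #bs`.
Sizes: `#bs ≤ N^(1/50)` (`bs_card_le`, `bs_small`), `|α| ≤ Z^5 ≤ N^(1/500)` (`ZC_pow_le 5`, `5/4000 < 1/500`),
`T ≤ N^(1/1000)` (`div_small`), `1 + log B₂ ≤ 2 log N ≤ N^(1/1000)`, `B₂ ≤ √N Z ≤ N^(1/2+1/2000)`, so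
`B₂^(7/4) ≤ N^(7/8+1/1000)`; the error part is at most `40 N^(7/8 + 1/1000 + 1/50 + 1/500 + 6/1000) ≤ N^(92/100)`
and the other one is smaller (`B₂^(3/2)`).  The total is at most `N^(19/20)`.
Size: 100-150 lines.
-/

set_option autoImplicit false

namespace Pool.Agent.MKA

open Finset

private theorem pow_large (C δ : ℝ) (hδ : 0 < δ) : ∃ N₀ : ℕ, ∀ N : ℕ, N₀ ≤ N → C ≤ (N : ℝ) ^ δ := by
  have h := (tendsto_rpow_atTop hδ).comp (tendsto_natCast_atTop_atTop (R := ℝ))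
  obtain ⟨N₀, h0⟩ := Filter.eventually_atTop.1 (h.eventually_ge_atTop C)
  exact ⟨N₀, fun N hN => h0 N hN⟩

private theorem err_num (t al L T B S : ℝ) (ht : 1 ≤ t) (h6 : 164 ≤ t ^ 50) (hal0 : 0 ≤ al)
    (hal : al ≤ t ^ 4) (hL : 1 ≤ L) (hL2 : L ^ 2 ≤ 4 * t ^ 2) (hT0 : 0 ≤ T) (hT : T ≤ t ^ 2)
    (hB : 1 ≤ B) (hB' : B ≤ t ^ 1001) (hS0 : 0 ≤ S) (hS : S ≤ t ^ 40) :
    B * L * (S * (al * T * Real.sqrt B)) + 8 * al * L ^ 2 * T ^ 4 * B ^ (3 / 4 : ℝ) * (5 * B * S) ≤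
      t ^ 1900 := by
  have ht0 : 0 ≤ t := by linarith
  have ht2 : 1 ≤ t ^ 2 := one_le_pow₀ ht
  have hL1 : L ≤ 4 * t ^ 2 := by nlinarith
  have hB0 : 0 ≤ B := by linarith
  have hsB : Real.sqrt B ≤ t ^ 501 := by
    apply Real.sqrt_le_iff.2
    refine ⟨by positivity, ?_⟩
    calc B ≤ t ^ 1001 := hB'
      _ ≤ t ^ 1002 := pow_le_pow_right₀ ht (by norm_num)
      _ = (t ^ 501) ^ 2 := by rw [← pow_mul]
  have h34 : B ^ (3 / 4 : ℝ) ≤ t ^ 753 := by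
    have h1 : B ^ (3 / 4 : ℝ) ≤ (t ^ 1004) ^ (3 / 4 : ℝ) :=
      Real.rpow_le_rpow hB0 (hB'.trans (pow_le_pow_right₀ ht (by norm_num))) (by norm_num)
    refine h1.trans (le_of_eq ?_)
    rw [← Real.rpow_natCast t 1004, ← Real.rpow_mul ht0, ← Real.rpow_natCast t 753]
    norm_num
  have e1 : B * L * (S * (al * T * Real.sqrt B)) ≤ 4 * t ^ 1550 := by
    calc B * L * (S * (al * T * Real.sqrt B))
        ≤ (t ^ 1001) * (4 * t ^ 2) * (t ^ 40 * (t ^ 4 * t ^ 2 * (t ^ 501))) := by gcongr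
      _ = 4 * t ^ 1550 := by ring
  have e2 : 8 * al * L ^ 2 * T ^ 4 * B ^ (3 / 4 : ℝ) * (5 * B * S) ≤ 160 * t ^ 1808 := by
    calc 8 * al * L ^ 2 * T ^ 4 * B ^ (3 / 4 : ℝ) * (5 * B * S)
        ≤ 8 * t ^ 4 * (4 * t ^ 2) * (t ^ 2) ^ 4 * (t ^ 753) * (5 * t ^ 1001 * t ^ 40) := by gcongr
      _ = 160 * t ^ 1808 := by ring
  have e3 : t ^ 1550 ≤ t ^ 1808 := pow_le_pow_right₀ ht (by norm_num)
  have e4 : (164 : ℝ) * t ^ 1808 ≤ t ^ 1900 := by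
    calc (164 : ℝ) * t ^ 1808 ≤ t ^ 50 * t ^ 1808 :=
          mul_le_mul_of_nonneg_right h6 (by positivity)
      _ = t ^ 1858 := by rw [← pow_add]
      _ ≤ t ^ 1900 := pow_le_pow_right₀ ht (by norm_num)
  linarith

theorem pair_bound : ∃ N₀ : ℕ, ∀ N : ℕ, N₀ ≤ N → ∀ (α β γ c₁ c₂ j j' : ℤ)
    (q Q c w l l' B₁ B₂ : ℕ), α ≠ 0 → β ≠ 0 → γ ≠ 0 →
    |α| ≤ (ZC N : ℤ) ^ 5 → |β| ≤ (ZC N : ℤ) ^ 5 → |γ| ≤ (ZC N : ℤ) ^ 5 →
    1 ≤ q → Q ∣ 2 * q → 1 ≤ w → (∀ p : ℕ, p.Prime → p ≤ w → p ∣ 2 * q) →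
    l ≤ B₁ → l' ≤ B₁ → 1 ≤ B₁ → B₁ ≤ B₂ → (B₂ : ℝ) ≤ Real.sqrt N * ZC N →
    ∑ e ∈ (Ioc B₁ B₂).filter (fun e => e ≡ c [MOD Q] ∧ Nat.Coprime e (2 * q)),
      (cnt α β γ c₁ c₂ q j j' l l' e : ℝ) ≤
      ((l : ℝ) * l' / B₁) * (((B₂ : ℝ) - B₁) / Q) * (1 + 1 / (w : ℝ)) * Sb α β γ q B₂ +
        (N : ℝ) ^ (19 / 20 : ℝ) := by
  obtain ⟨N1, h1⟩ := ZC_pow_le 5 (1 / 500) (by norm_num)
  obtain ⟨N2, h2⟩ := log_pow_le' 2 (1 / 1000) (by norm_num)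
  obtain ⟨N3, h3⟩ := div_small (1 / 1000) (by norm_num)
  obtain ⟨N4, h4⟩ := bs_small
  obtain ⟨N5, h5⟩ := log_large 1
  obtain ⟨N6, h6⟩ := pow_large 164 (1 / 40) (by norm_num)
  obtain ⟨N7, h7⟩ := ZC_pow_le 1 (1 / 2000) (by norm_num)
  refine ⟨N1 + N2 + N3 + N4 + N5 + N6 + N7 + 100, ?_⟩
  intro N hN α β γ c₁ c₂ j j' q Q c w l l' B₁ B₂ hα hβ hγ hαZ hβZ hγZ hq hQ hw1 hw hl hl' hB1 hB hB2
  have hN1 := h1 N (by omega)
  have hN2 := h2 N (by omega)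
  have hN3 := h3 N (by omega)
  have hN4 := h4 N (by omega)
  have hN5 := h5 N (by omega)
  have hN6 := h6 N (by omega)
  have hN7 := h7 N (by omega)
  have hN100 : 100 ≤ N := by omega
  have hNr : (100 : ℝ) ≤ N := by exact_mod_cast hN100
  have hN0 : (0 : ℝ) < N := by linarith
  have hB2n : 1 ≤ B₂ := hB1.trans hB
  have hB2r : (1 : ℝ) ≤ B₂ := by exact_mod_cast hB2n
  have hB1r : (1 : ℝ) ≤ B₁ := by exact_mod_cast hB1
  have hBr : (B₁ : ℝ) ≤ B₂ := by exact_mod_cast hB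
  -- B₂ ≤ N
  have hN1r : (1 : ℝ) ≤ N := by linarith
  set t : ℝ := (N : ℝ) ^ (1 / 2000 : ℝ) with ht
  have ht1 : 1 ≤ t := Real.one_le_rpow hN1r (by norm_num)
  have htp : ∀ k : ℕ, t ^ k = (N : ℝ) ^ ((k : ℝ) / 2000) := by
    intro k
    rw [ht, ← Real.rpow_natCast, ← Real.rpow_mul hN0.le]
    congr 1
    ring
  have hB2t : (B₂ : ℝ) ≤ t ^ 1001 := by
    refine hB2.trans ?_
    rw [pow_one] at hN7
    have h8 : Real.sqrt N = t ^ 1000 := by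
      rw [htp, Real.sqrt_eq_rpow]
      norm_num
    rw [h8]
    calc t ^ 1000 * (ZC N : ℝ) ≤ t ^ 1000 * t := mul_le_mul_of_nonneg_left hN7 (by positivity)
      _ = t ^ 1001 := by ring
  have hB2N : (B₂ : ℝ) ≤ N := by
    refine hB2t.trans ?_
    calc t ^ 1001 ≤ t ^ 2000 := pow_le_pow_right₀ ht1 (by norm_num)
      _ = N := by
          rw [htp]
          norm_num
  have hN3' : (N : ℝ) ≤ (N : ℝ) ^ 3 := by
    have : (1 : ℝ) ≤ (N : ℝ) ^ 2 := one_le_pow₀ (by linarith)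
    nlinarith
  set T : ℝ := (N : ℝ) ^ (1 / 1000 : ℝ) with hT
  have hT0 : 0 ≤ T := by positivity
  have hTs : ∀ s ∈ Icc 1 B₂, (s.divisors.card : ℝ) ≤ T := by
    intro s hs
    rw [mem_Icc] at hs
    apply hN3 s hs.1
    have : (s : ℝ) ≤ B₂ := by exact_mod_cast hs.2
    linarith
  have hlB : 0 ≤ Real.log B₂ := Real.log_nonneg hB2r
  set L : ℝ := 1 + Real.log B₂ with hL
  have hL1 : 1 ≤ L := by linarith
  have hTt : T = t ^ 2 := by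
    rw [hT, htp]
    norm_num
  have hL2 : L ^ 2 ≤ 4 * t ^ 2 := by
    rw [← hTt]
    have h7 : Real.log B₂ ≤ Real.log N := Real.log_le_log (by linarith) hB2N
    have h8 : L ≤ 2 * Real.log N := by linarith
    have h9 : L ^ 2 ≤ (2 * Real.log N) ^ 2 := pow_le_pow_left₀ (by linarith) h8 2
    calc L ^ 2 ≤ (2 * Real.log N) ^ 2 := h9
      _ = 4 * (Real.log N) ^ 2 := by ring
      _ ≤ 4 * T := by linarith
  set al : ℝ := |(α : ℝ)| with hal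
  have hal0 : 0 ≤ al := abs_nonneg _
  have halT : al ≤ t ^ 4 := by
    have h7 : al ≤ (ZC N : ℝ) ^ 5 := by
      rw [hal]
      exact_mod_cast hαZ
    refine (h7.trans hN1).trans (le_of_eq ?_)
    rw [htp]
    norm_num
  have hn0 : α * β * γ ≠ 0 := mul_ne_zero (mul_ne_zero hα hβ) hγ
  have hnZ : (α * β * γ).natAbs ≤ (ZC N) ^ 15 := by
    have h7 : |α * β * γ| ≤ (ZC N : ℤ) ^ 15 := by
      rw [abs_mul, abs_mul]
      have hz : (0 : ℤ) ≤ (ZC N : ℤ) ^ 5 := by positivity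
      calc |α| * |β| * |γ| ≤ (ZC N : ℤ) ^ 5 * (ZC N : ℤ) ^ 5 * (ZC N : ℤ) ^ 5 := by
            gcongr
        _ = (ZC N : ℤ) ^ 15 := by ring
    rw [Int.abs_eq_natAbs] at h7
    exact_mod_cast h7
  set S : ℝ := ((bs (α * β * γ) q B₂).card : ℝ) with hS
  have hS0 : 0 ≤ S := Nat.cast_nonneg _
  have hST : S ≤ t ^ 40 := by
    have h9 : t ^ 40 = (N : ℝ) ^ (1 / 50 : ℝ) := by
      rw [htp]
      norm_num
    rw [h9]
    refine le_trans ?_ (hN4 B₂ _ hB2 (Nat.pos_of_ne_zero (Int.natAbs_ne_zero.2 hn0)) hnZ)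
    rw [hS]
    exact_mod_cast bs_card_le (α * β * γ) hn0 q B₂
  -- pointwise
  set E := (Ioc B₁ B₂).filter (fun e => e ≡ c [MOD Q] ∧ Nat.Coprime e (2 * q)) with hE
  have hpt : ∀ e ∈ E, (cnt α β γ c₁ c₂ q j j' l l' e : ℝ) ≤
      ((l : ℝ) * l' / B₁) * ((rho α β γ e : ℝ) / (e : ℝ)) +
      (8 * al * L ^ 2 * T ^ 4 * (B₂ : ℝ) ^ (3 / 4 : ℝ)) *
        ((gpt (α * β * γ) e : ℝ) ^ (1 / 4 : ℝ) * (bpt (α * β * γ) e : ℝ) ^ (3 / 4 : ℝ)) := by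
    intro e he
    rw [hE, mem_filter, mem_Ioc] at he
    obtain ⟨⟨he1, he2⟩, _, hcop⟩ := he
    have he0 : 1 ≤ e := by omega
    have her : (0 : ℝ) < e := by exact_mod_cast he0
    have her1 : (1 : ℝ) ≤ e := by exact_mod_cast he0
    have heB : (B₁ : ℝ) ≤ e := by
      have : B₁ ≤ e := by omega
      exact_mod_cast this
    have heB2 : (e : ℝ) ≤ B₂ := by exact_mod_cast he2
    refine (cnt_pointwise α β γ c₁ c₂ hα q j j' l l' e he0 hcop (by omega) (by omega)).trans ?_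
    apply add_le_add
    · have h7 : (rho α β γ e : ℝ) * l * l' / (e : ℝ) ^ 2 =
          ((l : ℝ) * l' / e) * ((rho α β γ e : ℝ) / (e : ℝ)) := by
        field_simp
      rw [h7]
      apply mul_le_mul_of_nonneg_right _ (by positivity)
      apply div_le_div_of_nonneg_left (by positivity) (by linarith) heB
    · have h8 : Real.log e ≤ Real.log B₂ := Real.log_le_log her heB2
      have h9 : 0 ≤ Real.log e := Real.log_nonneg her1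
      have h10 : (e.divisors.card : ℝ) ≤ T := hTs e (mem_Icc.2 ⟨he0, he2⟩)
      have h11 : 1 + Real.log e ≤ L := by linarith
      apply mul_le_mul_of_nonneg_right _ (by positivity)
      gcongr
  refine (sum_le_sum hpt).trans ?_
  rw [sum_add_distrib, ← mul_sum, ← mul_sum]
  have hm := main_sum α β γ hα hβ hγ q Q c w B₁ B₂ hq hQ hw1 hw hB1 hB
  rw [← hE] at hm
  have hbs := bs_rho_sum α β γ hα q B₂ T hTs
  have hes := err_sum_le (α * β * γ) q B₂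
  have hsub : ∑ e ∈ E, ((gpt (α * β * γ) e : ℝ) ^ (1 / 4 : ℝ) *
      (bpt (α * β * γ) e : ℝ) ^ (3 / 4 : ℝ)) ≤ 5 * (B₂ : ℝ) * S := by
    refine le_trans ?_ hes
    apply sum_le_sum_of_subset_of_nonneg
    · intro e he
      rw [hE, mem_filter, mem_Ioc] at he
      rw [mem_filter, mem_Icc]
      exact ⟨⟨by omega, he.1.2⟩, he.2.2⟩
    · intro e _ _
      positivity
  have hll : (l : ℝ) * l' / B₁ ≤ B₂ := by
    have hlr : (l : ℝ) ≤ B₁ := by exact_mod_cast hl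
    have hlr' : (l' : ℝ) ≤ B₁ := by exact_mod_cast hl'
    rw [div_le_iff₀ (by linarith)]
    calc (l : ℝ) * l' ≤ B₁ * B₁ := by gcongr
      _ ≤ B₂ * B₁ := by gcongr
  have hll0 : 0 ≤ (l : ℝ) * l' / B₁ := by positivity
  have h650 : (164 : ℝ) ≤ t ^ 50 := by
    rw [htp]
    refine hN6.trans (le_of_eq ?_)
    norm_num
  have hnum := err_num t al L T B₂ S ht1 h650 hal0 halT hL1 hL2 hT0 hTt.le hB2r hB2t hS0 hST
  have hN19 : t ^ 1900 = (N : ℝ) ^ (19 / 20 : ℝ) := by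
    rw [htp]
    norm_num
  rw [hN19] at hnum
  have hA : ((l : ℝ) * l' / B₁) * ∑ e ∈ E, (rho α β γ e : ℝ) / (e : ℝ) ≤
      ((l : ℝ) * l' / B₁) * (((B₂ : ℝ) - B₁) / Q) * (1 + 1 / (w : ℝ)) * Sb α β γ q B₂ +
      B₂ * L * (S * (al * T * Real.sqrt B₂)) := by
    have h12 : L * ∑ s ∈ bs (α * β * γ) q B₂, (rho α β γ s : ℝ) / (s : ℝ) ≤
        L * (S * (al * T * Real.sqrt B₂)) := mul_le_mul_of_nonneg_left hbs (by linarith)
    have h13 : 0 ≤ L * (S * (al * T * Real.sqrt B₂)) := by positivity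
    calc ((l : ℝ) * l' / B₁) * ∑ e ∈ E, (rho α β γ e : ℝ) / (e : ℝ)
        ≤ ((l : ℝ) * l' / B₁) * ((((B₂ : ℝ) - B₁) / Q) * (1 + 1 / (w : ℝ)) * Sb α β γ q B₂ +
          L * (S * (al * T * Real.sqrt B₂))) := by
          apply mul_le_mul_of_nonneg_left _ hll0
          linarith
      _ = ((l : ℝ) * l' / B₁) * (((B₂ : ℝ) - B₁) / Q) * (1 + 1 / (w : ℝ)) * Sb α β γ q B₂ +
          ((l : ℝ) * l' / B₁) * (L * (S * (al * T * Real.sqrt B₂))) := by ring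
      _ ≤ ((l : ℝ) * l' / B₁) * (((B₂ : ℝ) - B₁) / Q) * (1 + 1 / (w : ℝ)) * Sb α β γ q B₂ +
          B₂ * (L * (S * (al * T * Real.sqrt B₂))) := by
          have := mul_le_mul_of_nonneg_right hll h13
          linarith
      _ = _ := by ring
  have hBb : (8 * al * L ^ 2 * T ^ 4 * (B₂ : ℝ) ^ (3 / 4 : ℝ)) *
      ∑ e ∈ E, ((gpt (α * β * γ) e : ℝ) ^ (1 / 4 : ℝ) *
      (bpt (α * β * γ) e : ℝ) ^ (3 / 4 : ℝ)) ≤
      8 * al * L ^ 2 * T ^ 4 * (B₂ : ℝ) ^ (3 / 4 : ℝ) * (5 * (B₂ : ℝ) * S) :=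
    mul_le_mul_of_nonneg_left hsub (by positivity)
  linarith

end Pool.Agent.MKA
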