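import Pool.Agent.MKA.PairC
import Pool.Agent.MKA.Inj
import Pool.Agent.MKA.YInt
import Pool.Agent.MKA.URangeC

/-!
# MKA/PairXC: the number of pairs over `x ≠ x'` and two cells

`μ = muc N D`, `W = N₁ + K_i²`, `W' = N₁ + K_i'²` (both `≥ 2.9 N`), `V₁ = W - N/D²`, `V₂ = W + N/D + 3N/D²`,
`V₁', V₂'` similarly.  Put `B₁ = ⌊(√V₁+√V₁')/g⌋`, `B₂ = ⌊(√V₂+√V₂')/g⌋`.  For `t, t'` in the two `YU`:
`u_range` gives `g B₁ ≤ √V₁+√V₁' < u + u' ≤ √V₂+√V₂'`, and `g ∣ u + u'` (`u ≡ u' ≡ u₀ mod g q₃`, `g ∣ 2u₀`), so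
`(u+u')/g ≤ B₂`.  Hence `pairs_le` applies, then `YS_cnt` (`AA_bounds`; `K_(i+1) - K_i = μ`) and
`pair_bound` with `α = AA² - 1`, `β = AA'² - 1`, `γ = x'² - x²` (nonzero, absolute values
`≤ a² Z⁴/4 ≤ Z^5`), `Q = 2 q₃ ∣ 2q`, `c₁ = c₂ = y₀`; hypotheses: `l ≤ μ/(AA q) + 1 ≤ B₁` (`AA ≥ Z/2`,
`g ≤ q ≤ L`), `B₂ ≤ √N Z`.
Size of the main term (`ratio_B`): `l ≤ (1+1/D) μ/(AA q)` (`μ/(AA q) ≥ D`);
`√V₂ - √V₁ ≤ (V₂-V₁)/(2√V₁)`, `V₂ - V₁ ≤ (N/D)(1+4/D)`, so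
`B₂ - B₁ ≤ (N/D)(1+4/D)(1/√V₁ + 1/√V₁')/(2g) + 1`, `B₁ ≥ (√V₁+√V₁')/g - 1`, and
`(1/√V₁ + 1/√V₁')/(√V₁+√V₁') = 1/(√V₁√V₁')`, `V₁ ≥ W(1-1/D)`; hence
`(B₂-B₁)/B₁ ≤ (1 + 40/D) (N/D)/(2√W√W')` for large `N`, and the main term is at most
`(1+1/D)² (μ/(AA q)) (μ/(AA' q)) · (1+40/D)(N/D)/(2√W√W') · 1/(2q₃) · (1+1/w) Sb`.
`Sb` is monotone in `B` (`B₂ ≤ N`; all terms are nonnegative).
Size: 200 lines.
-/

set_option autoImplicit false

namespace Pool.Agent.MKA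

open Finset

theorem Sb_mono (α β γ : ℤ) (q B B' : ℕ) (h : B ≤ B') : Sb α β γ q B ≤ Sb α β γ q B' := by
  unfold Sb
  apply Finset.sum_le_sum_of_subset_of_nonneg
  · intro s hs
    unfold bs at hs ⊢
    rw [mem_filter, mem_Icc] at hs ⊢
    exact ⟨⟨hs.1.1, hs.1.2.trans h⟩, hs.2⟩
  · intro s _ _; positivity

private theorem sqrt_sub_le (V₁ V₂ : ℝ) (h1 : 0 < V₁) (h2 : V₁ ≤ V₂) :
    Real.sqrt V₂ - Real.sqrt V₁ ≤ (V₂ - V₁) / 2 * (1 / Real.sqrt V₁) := by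
  have hs1 : 0 < Real.sqrt V₁ := Real.sqrt_pos.mpr h1
  have e1 : Real.sqrt V₁ ^ 2 = V₁ := Real.sq_sqrt h1.le
  have e2 : Real.sqrt V₂ ^ 2 = V₂ := Real.sq_sqrt (h1.le.trans h2)
  rw [mul_one_div, le_div_iff₀ hs1]
  nlinarith [sq_nonneg (Real.sqrt V₂ - Real.sqrt V₁)]

private theorem ratio_num (N D g W W' : ℝ) (hD : 13 ≤ D) (hg : 1 ≤ g) (hN : 0 < N)
    (hW : (29 / 10 : ℝ) * N ≤ W) (hW' : (29 / 10 : ℝ) * N ≤ W')
    (hcond : 2 * g ≤ N / D / (2 * (Real.sqrt W * Real.sqrt W')) *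
      (Real.sqrt (W - N / D ^ 2) + Real.sqrt (W' - N / D ^ 2)) * (35 / D))
    (s₁ s₂ : ℝ)
    (hs₁ : s₁ = (Real.sqrt (W - N / D ^ 2) + Real.sqrt (W' - N / D ^ 2)) / g)
    (hs₂ : s₂ = (Real.sqrt (W + N / D + 3 * N / D ^ 2) +
      Real.sqrt (W' + N / D + 3 * N / D ^ 2)) / g)
    (B₁ B₂ : ℝ) (hB₁ : s₁ - 1 ≤ B₁) (hB₁0 : 0 < B₁) (hB₂ : B₂ ≤ s₂) :
    (B₂ - B₁) / B₁ ≤ (1 + 40 / D) * (N / D / (2 * (Real.sqrt W * Real.sqrt W'))) := by
  have hD0 : (0 : ℝ) < D := by linarith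
  have hg0 : (0 : ℝ) < g := by linarith
  have hD2 : (169 : ℝ) ≤ D ^ 2 := by nlinarith
  have hND2 : N / D ^ 2 ≤ N := div_le_self hN.le (by linarith)
  have hND2' : 0 < N / D ^ 2 := by positivity
  have hND : 0 < N / D := by positivity
  have hW0 : 0 < W := by linarith
  have hW0' : 0 < W' := by linarith
  have hV : 0 < W - N / D ^ 2 := by linarith
  have hV' : 0 < W' - N / D ^ 2 := by linarith
  have hr : 0 ≤ 1 - 1 / D ^ 2 := by
    have : 1 / D ^ 2 ≤ 1 := by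
      rw [div_le_one (by linarith)]; linarith
    linarith
  set v := Real.sqrt (W - N / D ^ 2) with hv
  set v' := Real.sqrt (W' - N / D ^ 2) with hv'
  set P := Real.sqrt W * Real.sqrt W' with hP
  have hv0 : 0 < v := Real.sqrt_pos.mpr hV
  have hv0' : 0 < v' := Real.sqrt_pos.mpr hV'
  have hP0 : 0 < P := mul_pos (Real.sqrt_pos.mpr hW0) (Real.sqrt_pos.mpr hW0')
  -- product
  have hprod : P * (1 - 1 / D ^ 2) ≤ v * v' := by
    have h1 : Real.sqrt W * Real.sqrt (1 - 1 / D ^ 2) ≤ v := by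
      rw [← Real.sqrt_mul hW0.le]
      apply Real.sqrt_le_sqrt
      have : W * (1 - 1 / D ^ 2) = W - W / D ^ 2 := by ring
      rw [this]
      have : N / D ^ 2 ≤ W / D ^ 2 := div_le_div_of_nonneg_right (by linarith) (by linarith)
      linarith
    have h2 : Real.sqrt W' * Real.sqrt (1 - 1 / D ^ 2) ≤ v' := by
      rw [← Real.sqrt_mul hW0'.le]
      apply Real.sqrt_le_sqrt
      have : W' * (1 - 1 / D ^ 2) = W' - W' / D ^ 2 := by ring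
      rw [this]
      have : N / D ^ 2 ≤ W' / D ^ 2 := div_le_div_of_nonneg_right (by linarith) (by linarith)
      linarith
    calc P * (1 - 1 / D ^ 2) = (Real.sqrt W * Real.sqrt (1 - 1 / D ^ 2)) *
          (Real.sqrt W' * Real.sqrt (1 - 1 / D ^ 2)) := by
          have e := Real.mul_self_sqrt hr
          calc P * (1 - 1 / D ^ 2) = P * (Real.sqrt (1 - 1 / D ^ 2) *
                Real.sqrt (1 - 1 / D ^ 2)) := by rw [e]
            _ = _ := by rw [hP]; ring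
      _ ≤ v * v' := mul_le_mul h1 h2 (by positivity) hv0.le
  -- the difference of the square roots
  have hX : (Real.sqrt (W + N / D + 3 * N / D ^ 2) - v) +
      (Real.sqrt (W' + N / D + 3 * N / D ^ 2) - v') ≤
      N / D / (2 * P) * (v + v') * (1 + 5 / D) := by
    have h1 := sqrt_sub_le (W - N / D ^ 2) (W + N / D + 3 * N / D ^ 2) hV (by
      have : 0 < 3 * N / D ^ 2 := by positivity
      linarith)
    have h2 := sqrt_sub_le (W' - N / D ^ 2) (W' + N / D + 3 * N / D ^ 2) hV' (by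
      have : 0 < 3 * N / D ^ 2 := by positivity
      linarith)
    rw [← hv] at h1
    rw [← hv'] at h2
    have e1 : (W + N / D + 3 * N / D ^ 2 - (W - N / D ^ 2)) / 2 = N / D * (1 + 4 / D) / 2 := by
      field_simp; ring
    have e2 : (W' + N / D + 3 * N / D ^ 2 - (W' - N / D ^ 2)) / 2 = N / D * (1 + 4 / D) / 2 := by
      field_simp; ring
    rw [e1] at h1
    rw [e2] at h2
    have h3 : (Real.sqrt (W + N / D + 3 * N / D ^ 2) - v) +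
      (Real.sqrt (W' + N / D + 3 * N / D ^ 2) - v') ≤
        N / D * (1 + 4 / D) / 2 * ((v + v') / (v * v')) := by
      have : (v + v') / (v * v') = 1 / v + 1 / v' := by field_simp; ring
      rw [this, mul_add]
      linarith
    refine h3.trans ?_
    have h4 : (v + v') / (v * v') ≤ (v + v') / (P * (1 - 1 / D ^ 2)) := by
      apply div_le_div_of_nonneg_left (by positivity) _ hprod
      apply mul_pos hP0
      have : 1 / D ^ 2 < 1 := by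
        rw [div_lt_one (by linarith)]; linarith
      linarith
    have h5 : (1 + 4 / D) ≤ (1 + 5 / D) * (1 - 1 / D ^ 2) := by
      have : (1 + 5 / D) * (1 - 1 / D ^ 2) - (1 + 4 / D) = (D ^ 2 - D - 5) / D ^ 3 := by
        field_simp; ring
      have h6 : 0 ≤ (D ^ 2 - D - 5) / D ^ 3 := by
        apply div_nonneg _ (by positivity)
        nlinarith
      linarith
    have hr' : 0 < 1 - 1 / D ^ 2 := by
      have : 1 / D ^ 2 < 1 := by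
        rw [div_lt_one (by linarith)]; linarith
      linarith
    calc N / D * (1 + 4 / D) / 2 * ((v + v') / (v * v')) ≤
          N / D * (1 + 4 / D) / 2 * ((v + v') / (P * (1 - 1 / D ^ 2))) :=
          mul_le_mul_of_nonneg_left h4 (by positivity)
      _ ≤ N / D * ((1 + 5 / D) * (1 - 1 / D ^ 2)) / 2 * ((v + v') / (P * (1 - 1 / D ^ 2))) := by
          apply mul_le_mul_of_nonneg_right _ (by positivity)
          apply div_le_div_of_nonneg_right _ (by norm_num)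
          exact mul_le_mul_of_nonneg_left h5 hND.le
      _ = N / D / (2 * P) * (v + v') * (1 + 5 / D) := by
          generalize 1 - 1 / D ^ 2 = r at hr'
          field_simp
  set κ := N / D / (2 * P) with hκ
  have hκ0 : 0 < κ := by positivity
  have hPN : (29 / 10 : ℝ) * N ≤ P := by
    have h1 : Real.sqrt ((29 / 10 : ℝ) * N) ≤ Real.sqrt W := Real.sqrt_le_sqrt hW
    have h2 : Real.sqrt ((29 / 10 : ℝ) * N) ≤ Real.sqrt W' := Real.sqrt_le_sqrt hW'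
    calc (29 / 10 : ℝ) * N = Real.sqrt ((29 / 10 : ℝ) * N) * Real.sqrt ((29 / 10 : ℝ) * N) :=
          (Real.mul_self_sqrt (by positivity)).symm
      _ ≤ P := mul_le_mul h1 h2 (Real.sqrt_nonneg _) (Real.sqrt_nonneg _)
  have hκ1 : κ ≤ 1 / 75 := by
    rw [hκ, div_div, div_le_iff₀ (by positivity)]
    nlinarith
  have h40 : 1 + 40 / D ≤ 5 := by
    have : 40 / D ≤ 40 / 13 := div_le_div_of_nonneg_left (by norm_num) (by norm_num) hD
    linarith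
  have h40' : 0 < 1 + 40 / D := by positivity
  have hc1 : (1 + 40 / D) * κ ≤ 1 := by nlinarith
  have hc0 : 0 < (1 + 40 / D) * κ := by positivity
  rw [div_le_iff₀ hB₁0]
  have key : s₂ - s₁ + 1 ≤ (1 + 40 / D) * κ * (s₁ - 1) := by
    have e1 : s₂ - s₁ + 1 = ((Real.sqrt (W + N / D + 3 * N / D ^ 2) - v) +
      (Real.sqrt (W' + N / D + 3 * N / D ^ 2) - v') + g) / g := by
      rw [hs₁, hs₂]; field_simp; ring
    have e2 : (1 + 40 / D) * κ * (s₁ - 1) = ((1 + 40 / D) * κ * (v + v' - g)) / g := by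
      rw [hs₁]; field_simp
    rw [e1, e2]
    apply div_le_div_of_nonneg_right _ hg0.le
    have e3 : (1 + 40 / D) * κ * (v + v' - g) = κ * (v + v') * (1 + 5 / D) +
        κ * (v + v') * (35 / D) - (1 + 40 / D) * κ * g := by ring
    rw [e3]
    have : (1 + 40 / D) * κ * g ≤ 1 * g := mul_le_mul_of_nonneg_right hc1 hg0.le
    linarith
  have h1 : B₂ - B₁ ≤ s₂ - s₁ + 1 := by linarith
  have h2 : (1 + 40 / D) * κ * (s₁ - 1) ≤ (1 + 40 / D) * κ * B₁ :=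
    mul_le_mul_of_nonneg_left hB₁ hc0.le
  exact h1.trans (key.trans h2)

private theorem aux_E (E : ℝ) (hE : 100 ≤ E) : 2 * E * E ≤ 28 * E ^ 4 := by
  have h1 : 1 ≤ E ^ 2 := one_le_pow₀ (by linarith)
  have h2 : E ^ 4 = E ^ 2 * E ^ 2 := by ring
  rw [h2]
  nlinarith

private theorem aux_Y (Y : ℝ) (hY : 3 ≤ Y) : 4 * Y ≤ Y ^ 4 := by
  have h1 : 4 ≤ Y ^ 3 := by
    have : (3 : ℝ) ^ 3 ≤ Y ^ 3 := pow_le_pow_left₀ (by norm_num) hY 3
    linarith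
  calc 4 * Y ≤ Y ^ 3 * Y := mul_le_mul_of_nonneg_right h1 (by linarith)
    _ = Y ^ 4 := by ring

private theorem aux_V (N Y V a b : ℝ) (hN : 0 < N) (hY : 3 ≤ Y) (hV : V ≤ N * Y ^ 2 + N)
    (ha : a ≤ N / 13) (hb : b ≤ N / 169) : V + a + 3 * b ≤ N * (2 * Y) ^ 2 := by
  have h1 : N * 9 ≤ N * Y ^ 2 := mul_le_mul_of_nonneg_left (by nlinarith) hN.le
  have h2 : N * (2 * Y) ^ 2 = 4 * (N * Y ^ 2) := by ring
  rw [h2]; linarith

private theorem aux_W (N Y W : ℝ) (hN : 0 < N) (hY : 3 ≤ Y) (hV : W ≤ N * Y ^ 2 + N) :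
    W ≤ N * (2 * Y ^ 2) := by
  have h1 : N * 9 ≤ N * Y ^ 2 := mul_le_mul_of_nonneg_left (by nlinarith) hN.le
  have h2 : N * (2 * Y ^ 2) = 2 * (N * Y ^ 2) := by ring
  rw [h2]; linarith

private theorem aux_A (A : ℤ) (h : 2 ≤ A) : 3 ≤ A ^ 2 - 1 := by nlinarith

private theorem aux_g (x x' M : ℤ) (h1 : x ^ 2 ≤ M) (h2 : x' ^ 2 ≤ M) :
    |x' ^ 2 - x ^ 2| ≤ M := by
  have h3 := sq_nonneg x
  have h4 := sq_nonneg x'
  rw [abs_le]
  constructor <;> linarith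

private theorem aux_t (t : ℝ) (h0 : 0 < t) (h : t ≤ 1 / 13) :
    (1 + t) ^ 2 * (1 + 40 * t) ≤ 1 + 400 * t := by
  have h1 : t * t ≤ t := by nlinarith
  have h2 : t * t * t ≤ t := by nlinarith
  nlinarith

private theorem aux_Y3 (Y : ℝ) (hY : 0 ≤ Y) (h : 100 ≤ Y ^ 4) : 3 ≤ Y := by
  by_contra hcon
  push Not at hcon
  have : Y ^ 4 < 3 ^ 4 := pow_lt_pow_left₀ hcon hY (by norm_num)
  linarith

private theorem aux_L (L : ℝ) (hL : 13 ≤ L) : L ≤ L ^ 3 := by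
  calc L = L * 1 := (mul_one L).symm
    _ ≤ L * L ^ 2 := mul_le_mul_of_nonneg_left (one_le_pow₀ (by linarith)) (by linarith)
    _ = L ^ 3 := by ring

theorem ratio_B : ∃ N₀ : ℕ, ∀ N : ℕ, N₀ ≤ N → ∀ (g D i i' : ℕ) (N₁ : ℤ), 1 ≤ g →
    (g : ℝ) ≤ Real.log N → 13 ≤ D → (D : ℝ) ≤ Real.log N → i < JJ N D → i' < JJ N D →
    -(N : ℤ) ≤ N₁ → N₁ ≤ N →
    ∀ W W' s₁ s₂ : ℝ, W = (N₁ : ℝ) + (KK N D i : ℝ) ^ 2 → W' = (N₁ : ℝ) + (KK N D i' : ℝ) ^ 2 →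
    s₁ = (Real.sqrt (W - N / (D : ℝ) ^ 2) + Real.sqrt (W' - N / (D : ℝ) ^ 2)) / g →
    s₂ = (Real.sqrt (W + N / (D : ℝ) + 3 * N / (D : ℝ) ^ 2) +
      Real.sqrt (W' + N / (D : ℝ) + 3 * N / (D : ℝ) ^ 2)) / g →
    1 ≤ ⌊s₁⌋₊ ∧ ⌊s₁⌋₊ ≤ ⌊s₂⌋₊ ∧ (⌊s₂⌋₊ : ℝ) ≤ Real.sqrt N * ZC N ∧ ⌊s₂⌋₊ ≤ N ∧
    Real.sqrt N / Real.log N ≤ (⌊s₁⌋₊ : ℝ) ∧
    ((⌊s₂⌋₊ : ℝ) - ⌊s₁⌋₊) / ⌊s₁⌋₊ ≤
      (1 + 40 / (D : ℝ)) * ((N : ℝ) / D / (2 * (Real.sqrt W * Real.sqrt W'))) := by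
  rw [← Filter.eventually_atTop]
  have f1 := Filter.eventually_atTop.mpr W_lower
  have f2 := Filter.eventually_atTop.mpr (log_large 13)
  have f3 := Filter.eventually_atTop.mpr (ZC_pow_le 1 (1 / 8) (by norm_num))
  have f4 := Filter.eventually_atTop.mpr (log_pow_le' 3 (1 / 8) (by norm_num))
  have f5 := Filter.eventually_atTop.mpr (ZC_large 100)
  filter_upwards [f1, f2, f3, f4, f5, Filter.eventually_ge_atTop 100] with N h1 h2 h3 h4 h5 hN100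
  intro g D i i' N₁ hg hgL hD hDL hi hi' hN₁ hN₁' W W' s₁ s₂ hWe hWe' hs₁ hs₂
  obtain ⟨w1, -, w3⟩ := h1 D i N₁ hD hDL hi.le hN₁ hN₁'
  obtain ⟨w1', -, w3'⟩ := h1 D i' N₁ hD hDL hi'.le hN₁ hN₁'
  rw [← hWe] at w1 w3
  rw [← hWe'] at w1' w3'
  set L : ℝ := Real.log N with hL
  have hNr : (100 : ℝ) ≤ N := by exact_mod_cast hN100
  have hN0 : (0 : ℝ) < N := by linarith
  have hL0 : 0 < L := by linarith
  have hDr : (13 : ℝ) ≤ D := by exact_mod_cast hD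
  have hD0 : (0 : ℝ) < D := by linarith
  have hg1 : (1 : ℝ) ≤ g := by exact_mod_cast hg
  have hg0 : (0 : ℝ) < g := by linarith
  rw [pow_one] at h3
  set E : ℝ := (N : ℝ) ^ (1 / 8 : ℝ) with hE
  have hE0 : 0 < E := Real.rpow_pos_of_pos hN0 _
  have hE4 : E ^ 4 = Real.sqrt N := by
    rw [hE, ← Real.rpow_natCast, ← Real.rpow_mul hN0.le, Real.sqrt_eq_rpow]
    norm_num
  set S : ℝ := Real.sqrt N with hS
  have hS0 : 0 < S := Real.sqrt_pos.mpr hN0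
  have hS2 : S ^ 2 = N := Real.sq_sqrt hN0.le
  -- Y
  have hZY : (ZC N : ℝ) = (YY N : ℝ) ^ 4 := by unfold ZC; push_cast; rfl
  set Y : ℝ := (YY N : ℝ) with hY
  have hY0 : 0 ≤ Y := Nat.cast_nonneg _
  have hY4 : 100 ≤ Y ^ 4 := by rw [← hZY]; exact h5
  have hY3 : 3 ≤ Y := aux_Y3 Y hY0 hY4
  have hYE : Y ^ 4 ≤ E := by rw [← hZY]; exact h3
  have hE100 : 100 ≤ E := by linarith
  have hD2 : (169 : ℝ) ≤ (D : ℝ) ^ 2 := by nlinarith
  have hND : (N : ℝ) / D ≤ N / 13 := div_le_div_of_nonneg_left hN0.le (by norm_num) hDr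
  have hND2 : (N : ℝ) / (D : ℝ) ^ 2 ≤ N / 169 :=
    div_le_div_of_nonneg_left hN0.le (by norm_num) hD2
  have hND0 : 0 < (N : ℝ) / D := by positivity
  have hND20 : 0 < (N : ℝ) / (D : ℝ) ^ 2 := by positivity
  have e3 : 3 * (N : ℝ) / (D : ℝ) ^ 2 = 3 * (N / (D : ℝ) ^ 2) := by ring
  -- lower bounds of the roots
  have lo : ∀ V : ℝ, (29 / 10 : ℝ) * N ≤ V → (8 / 5 : ℝ) * S ≤ Real.sqrt (V - N / (D : ℝ) ^ 2) := by
    intro V hV
    apply Real.le_sqrt_of_sq_le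
    rw [mul_pow, hS2]
    linarith
  have hi1 : ∀ V : ℝ, V ≤ (N : ℝ) * Y ^ 2 + N →
      Real.sqrt (V + N / (D : ℝ) + 3 * N / (D : ℝ) ^ 2) ≤ S * (2 * Y) := by
    intro V hV
    rw [Real.sqrt_le_iff]
    refine ⟨by positivity, ?_⟩
    rw [mul_pow, hS2, e3]
    exact aux_V N Y V _ _ hN0 hY3 hV hND hND2
  have hs₁lo : (16 / 5 : ℝ) * (S / L) ≤ s₁ := by
    rw [hs₁]
    have a1 := lo W w1
    have a2 := lo W' w1'
    calc (16 / 5 : ℝ) * (S / L) = (8 / 5 * S + 8 / 5 * S) / L := by ring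
      _ ≤ (8 / 5 * S + 8 / 5 * S) / g :=
          div_le_div_of_nonneg_left (by positivity) hg0 hgL
      _ ≤ _ := div_le_div_of_nonneg_right (by linarith) hg0.le
  have hLE : L ^ 3 ≤ E := h4
  have hL1 : L ≤ L ^ 3 := aux_L L h2
  have hLE1 : L ≤ E := hL1.trans hLE
  have hSL : 1 ≤ S / L := by
    rw [le_div_iff₀ hL0, one_mul, ← hE4]
    have : E ≤ E ^ 4 := by
      calc E = E * 1 := (mul_one E).symm
        _ ≤ E * E ^ 3 := mul_le_mul_of_nonneg_left (one_le_pow₀ (by linarith)) hE0.le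
        _ = E ^ 4 := by ring
    linarith
  have hs₂hi : s₂ ≤ S * (4 * Y) := by
    rw [hs₂]
    have a1 := hi1 W w3
    have a2 := hi1 W' w3'
    calc _ ≤ (Real.sqrt (W + N / (D : ℝ) + 3 * N / (D : ℝ) ^ 2) +
      Real.sqrt (W' + N / (D : ℝ) + 3 * N / (D : ℝ) ^ 2)) := div_le_self (by positivity) hg1
      _ ≤ _ := by linarith
  have hs₂0 : 0 ≤ s₂ := by rw [hs₂]; positivity
  have hs₁₂ : s₁ ≤ s₂ := by
    rw [hs₁, hs₂]
    apply div_le_div_of_nonneg_right _ hg0.le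
    have a1 : Real.sqrt (W - N / (D : ℝ) ^ 2) ≤
        Real.sqrt (W + N / (D : ℝ) + 3 * N / (D : ℝ) ^ 2) :=
      Real.sqrt_le_sqrt (by rw [e3]; linarith)
    have a2 : Real.sqrt (W' - N / (D : ℝ) ^ 2) ≤
        Real.sqrt (W' + N / (D : ℝ) + 3 * N / (D : ℝ) ^ 2) :=
      Real.sqrt_le_sqrt (by rw [e3]; linarith)
    linarith
  have hfl1 : s₁ - 1 ≤ (⌊s₁⌋₊ : ℝ) := by
    have := Nat.lt_floor_add_one s₁
    linarith
  have hfl2 : (⌊s₂⌋₊ : ℝ) ≤ s₂ := Nat.floor_le hs₂0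
  have hB1 : 1 ≤ ⌊s₁⌋₊ := by
    rw [Nat.one_le_floor_iff]
    linarith
  have h4Y : 4 * Y ≤ Y ^ 4 := aux_Y Y hY3
  have hB2 : (⌊s₂⌋₊ : ℝ) ≤ S * ZC N := by
    rw [hZY]
    exact hfl2.trans (hs₂hi.trans (mul_le_mul_of_nonneg_left h4Y hS0.le))
  refine ⟨hB1, Nat.floor_le_floor hs₁₂, hB2, ?_, ?_, ?_⟩
  · have : (⌊s₂⌋₊ : ℝ) ≤ N := by
      refine hB2.trans ?_
      rw [hZY, ← hS2, sq]
      apply mul_le_mul_of_nonneg_left _ hS0.le
      refine hYE.trans ?_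
      rw [← hE4]
      calc E = E * 1 := (mul_one E).symm
        _ ≤ E * E ^ 3 := mul_le_mul_of_nonneg_left (one_le_pow₀ (by linarith)) hE0.le
        _ = E ^ 4 := by ring
    exact_mod_cast this
  · linarith
  · apply ratio_num (N : ℝ) D g W W' hDr hg1 hN0 w1 w1' _ s₁ s₂ hs₁ hs₂ _ _ hfl1 (by
      exact_mod_cast hB1) hfl2
    -- the condition
    set P := Real.sqrt W * Real.sqrt W' with hP
    have hP0 : 0 < P := mul_pos (Real.sqrt_pos.mpr (by linarith)) (Real.sqrt_pos.mpr (by linarith))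
    have hPu : P ≤ N * (2 * Y ^ 2) := by
      have a1 : Real.sqrt W ≤ Real.sqrt (N * (2 * Y ^ 2)) :=
        Real.sqrt_le_sqrt (aux_W N Y W hN0 hY3 w3)
      have a2 : Real.sqrt W' ≤ Real.sqrt (N * (2 * Y ^ 2)) :=
        Real.sqrt_le_sqrt (aux_W N Y W' hN0 hY3 w3')
      calc P ≤ Real.sqrt (N * (2 * Y ^ 2)) * Real.sqrt (N * (2 * Y ^ 2)) :=
            mul_le_mul a1 a2 (Real.sqrt_nonneg _) (Real.sqrt_nonneg _)
        _ = _ := Real.mul_self_sqrt (by positivity)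
    have a1 := lo W w1
    have a2 := lo W' w1'
    have b1 : (N : ℝ) / D / (2 * (N * (2 * Y ^ 2))) ≤ N / D / (2 * P) :=
      div_le_div_of_nonneg_left (by positivity) (by positivity) (by linarith)
    have b2 : (N : ℝ) / D / (2 * (N * (2 * Y ^ 2))) * (16 / 5 * S) * (35 / D) ≤
        N / D / (2 * P) * (Real.sqrt (W - N / (D : ℝ) ^ 2) + Real.sqrt (W' - N / (D : ℝ) ^ 2)) *
          (35 / D) := by
      apply mul_le_mul_of_nonneg_right _ (by positivity)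
      apply mul_le_mul b1 (by linarith) (by positivity) (by positivity)
    refine le_trans ?_ b2
    have b3 : (N : ℝ) / D / (2 * (N * (2 * Y ^ 2))) * (16 / 5 * S) * (35 / D) =
        28 * S / (Y ^ 2 * (D : ℝ) ^ 2) := by
      field_simp
      ring
    rw [b3, le_div_iff₀ (by positivity)]
    have c1 : (g : ℝ) * (D : ℝ) ^ 2 ≤ L ^ 3 := by
      calc (g : ℝ) * (D : ℝ) ^ 2 ≤ L * L ^ 2 := by
            apply mul_le_mul hgL _ (by positivity) hL0.le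
            exact pow_le_pow_left₀ hD0.le hDL 2
        _ = L ^ 3 := by ring
    have c2 : Y ^ 2 ≤ E := by
      have : Y ^ 2 ≤ Y ^ 4 := pow_le_pow_right₀ (by linarith) (by norm_num)
      linarith
    calc 2 * (g : ℝ) * (Y ^ 2 * (D : ℝ) ^ 2) = 2 * ((g : ℝ) * (D : ℝ) ^ 2) * Y ^ 2 := by ring
      _ ≤ 2 * E * E := by
          apply mul_le_mul _ c2 (by positivity) (by positivity)
          linarith
      _ ≤ 28 * E ^ 4 := aux_E E hE100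
      _ = 28 * S := by rw [hE4]

/-- `l ≤ (1 + 1/D) μ/(A q)` and `l ≤ B₁`. -/
private theorem size_l (S L E Y D A q μ l B : ℝ) (hE : 100 ≤ E) (hE4 : E ^ 4 = S) (hL : 13 ≤ L)
    (hLE : L ^ 6 ≤ E) (hY : 3 ≤ Y) (hYE : Y ^ 4 ≤ E ^ (1 : ℕ)) (hD : 13 ≤ D) (hDL : D ≤ L) (hq : 1 ≤ q)
    (hqL : q ≤ L) (hA0 : Y ^ 4 / 2 ≤ A) (hA : A ≤ L ^ 2 * (Y ^ 4) ^ 2 / 2)
    (hμ1 : S / (2 * D ^ 2 * Y) ≤ μ) (hμ2 : μ ≤ S / (D ^ 2 * Y)) (hLY : L ≤ Y ^ 4)
    (hl : l ≤ μ / (A * q) + 1) (hB : S / L ≤ B) :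
    l ≤ B ∧ l ≤ (1 + 1 / D) * (μ / (A * q)) := by
  have hL0 : 0 < L := by linarith
  have hD0 : 0 < D := by linarith
  have hY0 : 0 < Y := by linarith
  have hY4 : 0 < Y ^ 4 := by positivity
  have hAp : 0 < A := by linarith
  have hE0 : 0 < E := by linarith
  have hS0 : 0 < S := by rw [← hE4]; positivity
  have hq0 : 0 < q := by linarith
  rw [pow_one] at hYE
  constructor
  · have h1 : μ / (A * q) ≤ S / L / 2 := by
      rw [div_le_iff₀ (by positivity)]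
      refine hμ2.trans ?_
      rw [div_le_iff₀ (by positivity)]
      have h2 : L / 2 ≤ A * q := by nlinarith
      have h3 : 169 ≤ D ^ 2 := by nlinarith
      have h4 : 4 ≤ D ^ 2 * Y := by nlinarith
      calc S = S / L / 2 * (L / 2) * 4 := by field_simp; norm_num
        _ ≤ S / L / 2 * (A * q) * 4 := by
            apply mul_le_mul_of_nonneg_right _ (by norm_num)
            exact mul_le_mul_of_nonneg_left h2 (by positivity)
        _ ≤ S / L / 2 * (A * q) * (D ^ 2 * Y) :=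
            mul_le_mul_of_nonneg_left h4 (by positivity)
    have h2 : 2 ≤ S / L := by
      rw [le_div_iff₀ hL0, ← hE4]
      have : L ≤ L ^ 6 := by
        calc L = L * 1 := (mul_one L).symm
          _ ≤ L * L ^ 5 := mul_le_mul_of_nonneg_left (one_le_pow₀ (by linarith)) hL0.le
          _ = L ^ 6 := by ring
      have h3 : 2 * E ≤ E ^ 4 := by
        calc 2 * E ≤ E ^ 3 * E := by
              apply mul_le_mul_of_nonneg_right _ hE0.le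
              have : E ≤ E ^ 3 := by
                calc E = E * 1 := (mul_one E).symm
                  _ ≤ E * E ^ 2 := mul_le_mul_of_nonneg_left (one_le_pow₀ (by linarith)) hE0.le
                  _ = E ^ 3 := by ring
              linarith
          _ = E ^ 4 := by ring
      linarith
    linarith
  · have h1 : 1 ≤ 1 / D * (μ / (A * q)) := by
      rw [one_div_mul_eq_div, le_div_iff₀ hD0, one_mul, le_div_iff₀ (by positivity)]
      refine le_trans ?_ hμ1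
      rw [le_div_iff₀ (by positivity), ← hE4]
      have a1 : D * (A * q) * (2 * D ^ 2 * Y) = D ^ 3 * (2 * A) * q * Y := by ring
      rw [a1]
      have a2 : D ^ 3 ≤ L ^ 3 := pow_le_pow_left₀ hD0.le hDL 3
      have a3 : 2 * A ≤ L ^ 2 * (Y ^ 4) ^ 2 := by linarith
      have a4 : D ^ 3 * (2 * A) ≤ L ^ 3 * (L ^ 2 * (Y ^ 4) ^ 2) :=
        mul_le_mul a2 a3 (by positivity) (by positivity)
      have a5 : D ^ 3 * (2 * A) * q ≤ L ^ 3 * (L ^ 2 * (Y ^ 4) ^ 2) * L :=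
        mul_le_mul a4 hqL hq0.le (by positivity)
      have a6 : Y ≤ Y ^ 4 := by
        calc Y = Y * 1 := (mul_one Y).symm
          _ ≤ Y * Y ^ 3 := mul_le_mul_of_nonneg_left (one_le_pow₀ (by linarith)) hY0.le
          _ = Y ^ 4 := by ring
      calc D ^ 3 * (2 * A) * q * Y ≤ L ^ 3 * (L ^ 2 * (Y ^ 4) ^ 2) * L * Y ^ 4 :=
            mul_le_mul a5 a6 hY0.le (by positivity)
        _ = L ^ 6 * (Y ^ 4) ^ 3 := by ring
        _ ≤ E * E ^ 3 := by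
            apply mul_le_mul hLE _ (by positivity) hE0.le
            exact pow_le_pow_left₀ hY4.le hYE 3
        _ = E ^ 4 := by ring
    linarith

theorem pairX : ∃ N₀ : ℕ, ∀ N : ℕ, N₀ ≤ N →
    ∀ (a q g q₃ w D i i' : ℕ) (x₀ A₀ y₀ u₀ c₀ N₁ x x' : ℤ),
    1 ≤ a → (a : ℝ) ≤ (Real.log N) ^ 2 → 1 ≤ g → 1 ≤ q₃ → q = g ^ 2 * q₃ → 2 ∣ q₃ →
    (∀ p : ℕ, p.Prime → p ∣ q → p ∣ q₃) → (q : ℝ) ≤ Real.log N →
    (a : ℤ) * x₀ = 2 * A₀ → 2 * u₀ = (g : ℤ) * c₀ →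
    (∀ p : ℕ, p.Prime → p ∣ q → ¬ (p : ℤ) ∣ c₀) →
    1 ≤ w → (∀ p : ℕ, p.Prime → p ≤ w → p ∣ 2 * q) → 13 ≤ D → (D : ℝ) ≤ Real.log N →
    -(N : ℤ) ≤ N₁ → N₁ ≤ N → i < JJ N D → i' < JJ N D →
    x ∈ XS q x₀ (ZC N) → x' ∈ (XS q x₀ (ZC N)).erase x →
    ((PXC a q (g * q₃) y₀ u₀ (KK N D i) (KK N D (i + 1)) (KK N D i') (KK N D (i' + 1))
        N N₁ ((N / D : ℕ) : ℤ) x x').card : ℝ) ≤
      (1 + 400 / (D : ℝ)) * (1 + 1 / (w : ℝ)) *
        (((muc N D : ℝ) / q) ^ 2 * ((N : ℝ) / D) / (4 * q₃) *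
          (1 / Real.sqrt ((N₁ : ℝ) + (KK N D i : ℝ) ^ 2) *
            (1 / Real.sqrt ((N₁ : ℝ) + (KK N D i' : ℝ) ^ 2)))) *
        (1 / ((AA a x : ℝ) * AA a x') *
          Sb (AA a x ^ 2 - 1) (AA a x' ^ 2 - 1) (x' ^ 2 - x ^ 2) q N) +
        (N : ℝ) ^ (19 / 20 : ℝ) := by
  rw [← Filter.eventually_atTop]
  have f1 := Filter.eventually_atTop.mpr W_lower
  have f2 := Filter.eventually_atTop.mpr (log_large 13)
  have f3 := Filter.eventually_atTop.mpr (ZC_pow_le 1 (1 / 8) (by norm_num))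
  have f4 := Filter.eventually_atTop.mpr (log_pow_le' 6 (1 / 8) (by norm_num))
  have f5 := Filter.eventually_atTop.mpr (ZC_large 100)
  have f6 := Filter.eventually_atTop.mpr (log_pow_le 4 1 (by norm_num))
  have f7 := Filter.eventually_atTop.mpr ratio_B
  have f8 := Filter.eventually_atTop.mpr AA_bounds
  have f9 := Filter.eventually_atTop.mpr u_range
  have f10 := Filter.eventually_atTop.mpr pair_bound
  have f11 := Filter.eventually_atTop.mpr mu_facts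
  filter_upwards [f1, f2, f3, f4, f5, f6, f7, f8, f9, f10, f11,
    Filter.eventually_ge_atTop 100] with N h1 h2 h3 h4 h5 h6 h7 h8 h9 h10 h11 hN100
  intro a q g q₃ w D i i' x₀ A₀ y₀ u₀ c₀ N₁ x x' ha haL hg h3q hq h23 hrad hqL hAx hu hc hw hpw
    hD hDL hN₁ hN₁' hi hi' hx hx'
  obtain ⟨w1, -, w3⟩ := h1 D i N₁ hD hDL hi.le hN₁ hN₁'
  obtain ⟨w1', -, w3'⟩ := h1 D i' N₁ hD hDL hi'.le hN₁ hN₁'
  obtain ⟨m1, m2, m3, -⟩ := h11 D hD hDL
  have hxx := Finset.mem_erase.1 hx'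
  obtain ⟨A1, A2, -, A4⟩ := h8 a q x₀ A₀ x ha hAx hx
  obtain ⟨A1', A2', -, A4'⟩ := h8 a q x₀ A₀ x' ha hAx hxx.2
  set L : ℝ := Real.log N with hL
  have hNr : (100 : ℝ) ≤ N := by exact_mod_cast hN100
  have hN0 : (0 : ℝ) < N := by linarith
  have hL0 : 0 < L := by linarith
  have hDr : (13 : ℝ) ≤ D := by exact_mod_cast hD
  have hD0 : (0 : ℝ) < D := by linarith
  have hg1 : (1 : ℝ) ≤ g := by exact_mod_cast hg
  have hg0 : (0 : ℝ) < g := by linarith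
  have hq1 : 1 ≤ q := by
    rw [hq]; exact Nat.mul_pos (by positivity) h3q
  have hq1r : (1 : ℝ) ≤ q := by exact_mod_cast hq1
  have hq3r : (1 : ℝ) ≤ q₃ := by exact_mod_cast h3q
  have hgq : g ≤ q := by
    rw [hq]
    calc g = g * 1 * 1 := by ring
      _ ≤ g * g * q₃ := Nat.mul_le_mul (Nat.mul_le_mul le_rfl hg) h3q
      _ = g ^ 2 * q₃ := by ring
  have hgL : (g : ℝ) ≤ L := by
    have : (g : ℝ) ≤ q := by exact_mod_cast hgq
    linarith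
  rw [pow_one] at h3
  set E : ℝ := (N : ℝ) ^ (1 / 8 : ℝ) with hE
  have hE0 : 0 < E := Real.rpow_pos_of_pos hN0 _
  have hE4 : E ^ 4 = Real.sqrt N := by
    rw [hE, ← Real.rpow_natCast, ← Real.rpow_mul hN0.le, Real.sqrt_eq_rpow]
    norm_num
  set S : ℝ := Real.sqrt N with hS
  have hS0 : 0 < S := Real.sqrt_pos.mpr hN0
  have hZY : (ZC N : ℝ) = (YY N : ℝ) ^ 4 := by unfold ZC; push_cast; rfl
  have hZr : (100 : ℝ) ≤ (ZC N : ℝ) := h5
  have hY0 : (0 : ℝ) ≤ (YY N : ℝ) := Nat.cast_nonneg _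
  have hY3 : (3 : ℝ) ≤ (YY N : ℝ) := aux_Y3 _ hY0 (by rw [← hZY]; exact hZr)
  have hE100 : 100 ≤ E := by linarith
  have hL4 : L ^ 4 ≤ (ZC N : ℝ) := by
    have := h6
    rwa [Real.rpow_one] at this
  have hLZ : L ≤ (ZC N : ℝ) := by
    have : L ≤ L ^ 4 := by
      calc L = L * 1 := (mul_one L).symm
        _ ≤ L * L ^ 3 := mul_le_mul_of_nonneg_left (one_le_pow₀ (by linarith)) hL0.le
        _ = L ^ 4 := by ring
    exact this.trans hL4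
  -- W
  set W : ℝ := (N₁ : ℝ) + (KK N D i : ℝ) ^ 2 with hW
  set W' : ℝ := (N₁ : ℝ) + (KK N D i' : ℝ) ^ 2 with hW'
  set v₁ := Real.sqrt (W - N / (D : ℝ) ^ 2) with hv₁
  set v₁' := Real.sqrt (W' - N / (D : ℝ) ^ 2) with hv₁'
  set v₂ := Real.sqrt (W + N / (D : ℝ) + 3 * N / (D : ℝ) ^ 2) with hv₂
  set v₂' := Real.sqrt (W' + N / (D : ℝ) + 3 * N / (D : ℝ) ^ 2) with hv₂'
  set s₁ := (v₁ + v₁') / g with hs₁
  set s₂ := (v₂ + v₂') / g with hs₂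
  obtain ⟨B1, B2, B3, B4, B5, B6⟩ := h7 g D i i' N₁ hg hgL hD hDL hi hi' hN₁ hN₁' W W' s₁ s₂
    rfl rfl rfl rfl
  set B₁ := ⌊s₁⌋₊ with hB₁
  set B₂ := ⌊s₂⌋₊ with hB₂
  have hs₁0 : 0 ≤ s₁ := by positivity
  have hU : ∀ t ∈ YU a q (g * q₃) y₀ u₀ (KK N D i) (KK N D (i + 1)) N N₁ ((N / D : ℕ) : ℤ) x,
      ∀ t' ∈ YU a q (g * q₃) y₀ u₀ (KK N D i') (KK N D (i' + 1)) N N₁ ((N / D : ℕ) : ℤ) x',
        (g : ℤ) * B₁ < t.2 + t'.2 ∧ t.2 + t'.2 ≤ (g : ℤ) * B₂ := by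
    intro t ht t' ht'
    obtain ⟨r1, r2⟩ := h9 a q (g * q₃) D i x₀ A₀ y₀ u₀ N N₁ x ha hAx hx hD hDL hi hN₁ hN₁' t ht
    obtain ⟨r1', r2'⟩ := h9 a q (g * q₃) D i' x₀ A₀ y₀ u₀ N N₁ x' ha hAx hxx.2 hD hDL hi' hN₁ hN₁'
      t' ht'
    unfold YU at ht ht'
    rw [mem_filter, mem_product, mem_Icc] at ht ht'
    obtain ⟨⟨-, t1, -⟩, t3, -⟩ := ht
    obtain ⟨⟨-, t1', -⟩, t3', -⟩ := ht'
    have p1 : (0 : ℝ) < (t.2 : ℝ) := by
      have : (0 : ℤ) < t.2 := by linarith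
      exact_mod_cast this
    have p1' : (0 : ℝ) < (t'.2 : ℝ) := by
      have : (0 : ℤ) < t'.2 := by linarith
      exact_mod_cast this
    have l1 : v₁ < (t.2 : ℝ) := by
      rw [hv₁, Real.sqrt_lt' p1]
      exact r1
    have l1' : v₁' < (t'.2 : ℝ) := by
      rw [hv₁', Real.sqrt_lt' p1']
      exact r1'
    have l2 : (t.2 : ℝ) ≤ v₂ := Real.le_sqrt_of_sq_le r2
    have l2' : (t'.2 : ℝ) ≤ v₂' := Real.le_sqrt_of_sq_le r2'
    obtain ⟨k, hk⟩ := t3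
    obtain ⟨k', hk'⟩ := t3'
    have hsum : t.2 + t'.2 = (g : ℤ) * (c₀ + q₃ * (k + k')) := by
      push_cast at hk hk'
      linear_combination hk + hk' + hu
    constructor
    · have : ((g : ℤ) * B₁ : ℝ) < ((t.2 + t'.2 : ℤ) : ℝ) := by
        push_cast
        have a1 : (B₁ : ℝ) ≤ s₁ := Nat.floor_le hs₁0
        have a2 : (g : ℝ) * B₁ ≤ g * s₁ := mul_le_mul_of_nonneg_left a1 hg0.le
        have a3 : (g : ℝ) * s₁ = v₁ + v₁' := by rw [hs₁]; field_simp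
        linarith
      exact_mod_cast this
    · rw [hsum]
      apply mul_le_mul_of_nonneg_left _ (by positivity)
      have a1 : ((c₀ + q₃ * (k + k') : ℤ) : ℝ) ≤ s₂ := by
        rw [hs₂, le_div_iff₀ hg0]
        have : (((g : ℤ) * (c₀ + q₃ * (k + k')) : ℤ) : ℝ) ≤ v₂ + v₂' := by
          rw [← hsum]; push_cast; linarith
        push_cast at this ⊢
        linarith
      have a2 : c₀ + q₃ * (k + k') ≤ ⌊s₂⌋ := Int.le_floor.2 a1
      have a3 : (B₂ : ℤ) = ⌊s₂⌋ := Int.natCast_floor_eq_floor (by positivity)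
      rw [a3]; exact a2
  have hx2 : (2 * q : ℤ) ∣ x - x₀ := (Finset.mem_filter.1 hx).2
  have hx2' : (2 * q : ℤ) ∣ x' - x₀ := (Finset.mem_filter.1 hxx.2).2
  have hxI := Finset.mem_Ioc.1 (Finset.mem_filter.1 hx).1
  have hxI' := Finset.mem_Ioc.1 (Finset.mem_filter.1 hxx.2).1
  have hpl := pairs_le a q g q₃ x₀ A₀ y₀ u₀ c₀ (KK N D i) (KK N D (i + 1)) (KK N D i')
    (KK N D (i' + 1)) N N₁ ((N / D : ℕ) : ℤ) x x' B₁ B₂ hg h3q hq h23 hrad hAx hu hc hx2 hx2' hU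
  have hKK : ∀ j : ℕ, KK N D (j + 1) = KK N D j + muc N D := by
    intro j; unfold KK; ring
  have hKKr : ∀ j : ℕ, (KK N D (j + 1) : ℝ) - KK N D j = muc N D := by
    intro j; rw [hKK]; push_cast; ring
  obtain ⟨j, j', l, l', hl, hl', hcnt⟩ := YS_cnt a q y₀ (KK N D i) (KK N D (i + 1)) (KK N D i')
    (KK N D (i' + 1)) x x' (by linarith) (by linarith) hq1 (by rw [hKK]; omega) (by rw [hKK]; omega)
  rw [hKKr] at hl hl'
  set α : ℤ := AA a x ^ 2 - 1 with hα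
  set β : ℤ := AA a x' ^ 2 - 1 with hβ
  set γ : ℤ := x' ^ 2 - x ^ 2 with hγ
  set c : ℕ := (c₀ % (2 * (q₃ : ℤ))).toNat with hcc
  have hpl2 : ((PXC a q (g * q₃) y₀ u₀ (KK N D i) (KK N D (i + 1)) (KK N D i') (KK N D (i' + 1))
        N N₁ ((N / D : ℕ) : ℤ) x x').card : ℝ) ≤
      ∑ e ∈ (Ioc B₁ B₂).filter (fun e => e ≡ c [MOD 2 * q₃] ∧ Nat.Coprime e (2 * q)),
        (cnt α β γ y₀ y₀ q j j' l l' e : ℝ) := by
    have h : ∀ e ∈ (Ioc B₁ B₂).filter (fun e => e ≡ c [MOD 2 * q₃] ∧ Nat.Coprime e (2 * q)),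
        ((YS a q y₀ (KK N D i) (KK N D (i + 1)) x ×ˢ
          YS a q y₀ (KK N D i') (KK N D (i' + 1)) x').filter
          (fun t : ℤ × ℤ => (e : ℤ) ∣ PP α β γ t.1 t.2)).card = cnt α β γ y₀ y₀ q j j' l l' e :=
      fun e _ => hcnt α β γ e
    rw [Finset.sum_congr rfl h] at hpl
    exact_mod_cast hpl
  -- sizes of `A`
  have hA_up : ∀ t : ℤ, ((AA a t : ℤ) : ℝ) ≤ (a : ℝ) * (ZC N : ℝ) ^ 2 / 2 →
      ((AA a t : ℤ) : ℝ) ≤ L ^ 2 * (ZC N : ℝ) ^ 2 / 2 := by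
    intro t ht
    refine ht.trans ?_
    apply div_le_div_of_nonneg_right _ (by norm_num)
    exact mul_le_mul_of_nonneg_right haL (by positivity)
  have hAu := hA_up x A4
  have hAu' := hA_up x' A4'
  have hsq : ∀ t : ℤ, 2 ≤ AA a t → ((AA a t : ℤ) : ℝ) ≤ L ^ 2 * (ZC N : ℝ) ^ 2 / 2 →
      AA a t ^ 2 - 1 ≠ 0 ∧ |AA a t ^ 2 - 1| ≤ (ZC N : ℤ) ^ 5 := by
    intro t ht1 ht2
    have h0 : 3 ≤ AA a t ^ 2 - 1 := aux_A _ ht1
    refine ⟨by omega, ?_⟩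
    rw [abs_of_nonneg (by omega)]
    have h1 : (((AA a t) ^ 2 : ℤ) : ℝ) ≤ (ZC N : ℝ) ^ 5 := by
      push_cast
      have hp : (0 : ℝ) ≤ ((AA a t : ℤ) : ℝ) := by
        have : (0 : ℤ) ≤ AA a t := by linarith
        exact_mod_cast this
      calc ((AA a t : ℤ) : ℝ) ^ 2 ≤ (L ^ 2 * (ZC N : ℝ) ^ 2 / 2) ^ 2 :=
            pow_le_pow_left₀ hp ht2 2
        _ = L ^ 4 * (ZC N : ℝ) ^ 4 / 4 := by ring
        _ ≤ (ZC N : ℝ) * (ZC N : ℝ) ^ 4 / 4 := by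
            apply div_le_div_of_nonneg_right _ (by norm_num)
            exact mul_le_mul_of_nonneg_right hL4 (by positivity)
        _ ≤ (ZC N : ℝ) ^ 5 := by
            have : (ZC N : ℝ) * (ZC N : ℝ) ^ 4 = (ZC N : ℝ) ^ 5 := by ring
            rw [this]
            have : 0 ≤ (ZC N : ℝ) ^ 5 := by positivity
            linarith
    have h2 : (AA a t) ^ 2 ≤ (ZC N : ℤ) ^ 5 := by exact_mod_cast h1
    linarith
  obtain ⟨α0, αZ⟩ := hsq x A1 hAu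
  obtain ⟨β0, βZ⟩ := hsq x' A1' hAu'
  have hZz : (100 : ℤ) ≤ (ZC N : ℤ) := by exact_mod_cast hZr
  have γ0 : γ ≠ 0 := by
    intro h
    have h' : (x' - x) * (x' + x) = 0 := by rw [hγ] at h; linear_combination h
    rcases mul_eq_zero.1 h' with h'' | h''
    · exact hxx.1 (by linarith)
    · linarith [hxI.1, hxI'.1]
  have γZ : |γ| ≤ (ZC N : ℤ) ^ 5 := by
    have b1 : x ^ 2 ≤ ((ZC N : ℤ) ^ 2) ^ 2 := pow_le_pow_left₀ (by linarith [hxI.1]) hxI.2 2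
    have b2 : x' ^ 2 ≤ ((ZC N : ℤ) ^ 2) ^ 2 := pow_le_pow_left₀ (by linarith [hxI'.1]) hxI'.2 2
    have b3 : ((ZC N : ℤ) ^ 2) ^ 2 ≤ (ZC N : ℤ) ^ 5 := by
      rw [← pow_mul]
      exact pow_le_pow_right₀ (by linarith) (by norm_num)
    exact aux_g x x' _ (b1.trans b3) (b2.trans b3)
  -- `l`
  have hYE : ((YY N : ℕ) : ℝ) ^ 4 ≤ E ^ 1 := by rw [pow_one, ← hZY]; exact h3
  have hLY : L ≤ ((YY N : ℕ) : ℝ) ^ 4 := by rw [← hZY]; exact hLZ
  obtain ⟨lB, lM⟩ := size_l S L E (YY N) D (AA a x : ℝ) q (muc N D) l B₁ hE100 hE4 h2 h4 hY3 hYE hDr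
    hDL hq1r hqL (by rw [← hZY]; exact A2) (by rw [← hZY]; exact hAu) m2 m3 hLY hl B5
  obtain ⟨lB', lM'⟩ := size_l S L E (YY N) D (AA a x' : ℝ) q (muc N D) l' B₁ hE100 hE4 h2 h4 hY3 hYE
    hDr hDL hq1r hqL (by rw [← hZY]; exact A2') (by rw [← hZY]; exact hAu') m2 m3 hLY hl' B5
  have hQ : 2 * q₃ ∣ 2 * q := by
    rw [hq]
    exact ⟨g ^ 2, by ring⟩
  have hpb := h10 α β γ y₀ y₀ j j' q (2 * q₃) c w l l' B₁ B₂ α0 β0 γ0 αZ βZ γZ hq1 hQ hw hpw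
    (by exact_mod_cast lB) (by exact_mod_cast lB') B1 B2 B3
  refine hpl2.trans (hpb.trans ?_)
  gcongr ?_ + _
  -- main term
  have hwr : (1 : ℝ) ≤ w := by exact_mod_cast hw
  have hB1r : (1 : ℝ) ≤ B₁ := by exact_mod_cast B1
  have hB2r : (B₁ : ℝ) ≤ B₂ := by exact_mod_cast B2
  have hSb : Sb α β γ q B₂ ≤ Sb α β γ q N := Sb_mono α β γ q B₂ N B4
  have hSb0 : 0 ≤ Sb α β γ q B₂ := by
    unfold Sb; exact Finset.sum_nonneg fun s _ => by positivity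
  have hAp : (0 : ℝ) < (AA a x : ℝ) := by linarith
  have hAp' : (0 : ℝ) < (AA a x' : ℝ) := by linarith
  have hμ0 : (0 : ℝ) ≤ (muc N D : ℝ) := Nat.cast_nonneg _
  have hsW : 0 < Real.sqrt W := Real.sqrt_pos.mpr (by linarith)
  have hsW' : 0 < Real.sqrt W' := Real.sqrt_pos.mpr (by linarith)
  set ρ : ℝ := ((B₂ : ℝ) - B₁) / B₁ with hρ
  have hρ0 : 0 ≤ ρ := div_nonneg (by linarith) (by linarith)
  set κ : ℝ := (N : ℝ) / D / (2 * (Real.sqrt W * Real.sqrt W')) with hκ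
  have hκ0 : 0 ≤ κ := by positivity
  have hll : (l : ℝ) * l' ≤ ((1 + 1 / (D : ℝ)) * ((muc N D : ℝ) / ((AA a x : ℝ) * q))) *
      ((1 + 1 / (D : ℝ)) * ((muc N D : ℝ) / ((AA a x' : ℝ) * q))) :=
    mul_le_mul lM lM' (Nat.cast_nonneg _) (by positivity)
  have hstep : ((l : ℝ) * l' / B₁) * (((B₂ : ℝ) - B₁) / ((2 * q₃ : ℕ) : ℝ)) =
      (l : ℝ) * l' * ρ / (2 * q₃) := by
    rw [hρ]; push_cast; field_simp
  have hD1 : (1 + 1 / (D : ℝ)) ^ 2 * (1 + 40 / (D : ℝ)) ≤ 1 + 400 / (D : ℝ) := by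
    have ht : 1 / (D : ℝ) ≤ 1 / 13 := div_le_div_of_nonneg_left (by norm_num) (by norm_num) hDr
    have ht0 : 0 < 1 / (D : ℝ) := by positivity
    have e1 : 40 / (D : ℝ) = 40 * (1 / (D : ℝ)) := by ring
    have e2 : 400 / (D : ℝ) = 400 * (1 / (D : ℝ)) := by ring
    rw [e1, e2]
    exact aux_t _ ht0 ht
  have hmain : (l : ℝ) * l' * ρ / (2 * q₃) ≤ (1 + 400 / (D : ℝ)) *
      (((muc N D : ℝ) / q) ^ 2 * ((N : ℝ) / D) / (4 * q₃) *
          (1 / Real.sqrt W * (1 / Real.sqrt W'))) * (1 / ((AA a x : ℝ) * AA a x')) := by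
    calc (l : ℝ) * l' * ρ / (2 * q₃) ≤
        (((1 + 1 / (D : ℝ)) * ((muc N D : ℝ) / ((AA a x : ℝ) * q))) *
          ((1 + 1 / (D : ℝ)) * ((muc N D : ℝ) / ((AA a x' : ℝ) * q)))) *
          ((1 + 40 / (D : ℝ)) * κ) / (2 * q₃) := by
          apply div_le_div_of_nonneg_right _ (by positivity)
          exact mul_le_mul hll B6 hρ0 (by positivity)
      _ = ((1 + 1 / (D : ℝ)) ^ 2 * (1 + 40 / (D : ℝ))) *
          ((((muc N D : ℝ) / q) ^ 2 * ((N : ℝ) / D) / (4 * q₃) *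
          (1 / Real.sqrt W * (1 / Real.sqrt W'))) * (1 / ((AA a x : ℝ) * AA a x'))) := by
          rw [hκ]
          field_simp
          ring
      _ ≤ (1 + 400 / (D : ℝ)) *
          ((((muc N D : ℝ) / q) ^ 2 * ((N : ℝ) / D) / (4 * q₃) *
          (1 / Real.sqrt W * (1 / Real.sqrt W'))) * (1 / ((AA a x : ℝ) * AA a x'))) :=
          mul_le_mul_of_nonneg_right hD1 (by positivity)
      _ = _ := by ring
  rw [hstep]
  have hmain0 : 0 ≤ (l : ℝ) * l' * ρ / (2 * q₃) := by positivity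
  calc (l : ℝ) * l' * ρ / (2 * q₃) * (1 + 1 / (w : ℝ)) * Sb α β γ q B₂ ≤
      ((1 + 400 / (D : ℝ)) *
      (((muc N D : ℝ) / q) ^ 2 * ((N : ℝ) / D) / (4 * q₃) *
          (1 / Real.sqrt W * (1 / Real.sqrt W'))) * (1 / ((AA a x : ℝ) * AA a x'))) *
          (1 + 1 / (w : ℝ)) * Sb α β γ q N := by
        apply mul_le_mul _ hSb hSb0 (by positivity)
        exact mul_le_mul_of_nonneg_right hmain (by positivity)
    _ = _ := by ring

end Pool.Agent.MKA
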