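import Pool.Agent.MK47.RhoMul
import Pool.Agent.MKA.Conic

/-!
# Exact growth of `rho` at prime powers

`SM A B C p k` = the solutions modulo `p^k` which are not divisible by `p`; their number grows by a factor
at most `p` (Hensel).
-/

namespace Pool.Agent.RhoPow

open Finset Pool.Agent.MK47 Pool.Agent.MKA

/-- the solutions of `A y² - B y'² + C = 0` modulo `p^k` with `(y, y')` not `0` modulo `p` -/
def SM (A B C : ℤ) (p k : ℕ) : Finset (ℕ × ℕ) :=
  (range (p ^ k) ×ˢ range (p ^ k)).filter fun v =>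
    ((p ^ k : ℕ) : ℤ) ∣ A * (v.1 : ℤ) ^ 2 - B * (v.2 : ℤ) ^ 2 + C ∧ ¬ (p ∣ v.1 ∧ p ∣ v.2)

/-- a nontrivial linear congruence in two variables modulo `p` has at most `p` solutions -/
theorem lin_card (p : ℕ) (hp : p.Prime) (c al be : ℤ) (h : ¬ ((p : ℤ) ∣ al ∧ (p : ℤ) ∣ be)) :
    ((range p ×ˢ range p).filter fun q : ℕ × ℕ =>
      (p : ℤ) ∣ c + al * q.1 + be * q.2).card ≤ p := by
  have hpi : Prime (p : ℤ) := Nat.prime_iff_prime_int.1 hp
  have hsmall : ∀ i i' : ℕ, i < p → i' < p → (p : ℤ) ∣ (i : ℤ) - i' → i = i' := by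
    intro i i' hi hi' hd
    have h1 : i' ≡ i [MOD p] := (Nat.modEq_iff_dvd).2 hd
    exact (Nat.ModEq.eq_of_lt_of_lt h1 hi' hi).symm
  by_cases h1 : (p : ℤ) ∣ al
  · have h2 : ¬ (p : ℤ) ∣ be := fun h2 => h ⟨h1, h2⟩
    calc _ ≤ (range p).card := by
          apply card_le_card_of_injOn (fun q => q.1)
          · intro q hq
            rw [mem_coe, mem_filter, mem_product] at hq
            rw [mem_coe]
            exact hq.1.1
          · rintro ⟨i, j⟩ hq ⟨i', j'⟩ hq' he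
            rw [mem_coe, mem_filter, mem_product, mem_range, mem_range] at hq hq'
            simp only at he hq hq'
            subst he
            have h3 := dvd_sub hq.2 hq'.2
            have e : c + al * (i : ℤ) + be * (j : ℤ) - (c + al * (i : ℤ) + be * (j' : ℤ)) =
              be * ((j : ℤ) - j') := by ring
            rw [e] at h3
            rcases hpi.dvd_or_dvd h3 with h4 | h4
            · exact absurd h4 h2
            · rw [hsmall j j' hq.1.2 hq'.1.2 h4]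
      _ = p := card_range p
  · calc _ ≤ (range p).card := by
          apply card_le_card_of_injOn (fun q => q.2)
          · intro q hq
            rw [mem_coe, mem_filter, mem_product] at hq
            rw [mem_coe]
            exact hq.1.2
          · rintro ⟨i, j⟩ hq ⟨i', j'⟩ hq' he
            rw [mem_coe, mem_filter, mem_product, mem_range, mem_range] at hq hq'
            simp only at he hq hq'
            subst he
            have h3 := dvd_sub hq.2 hq'.2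
            have e : c + al * (i : ℤ) + be * (j : ℤ) - (c + al * (i' : ℤ) + be * (j : ℤ)) =
              al * ((i : ℤ) - i') := by ring
            rw [e] at h3
            rcases hpi.dvd_or_dvd h3 with h4 | h4
            · exact absurd h4 h1
            · rw [hsmall i i' hq.1.1 hq'.1.1 h4]
      _ = p := card_range p

/-- Hensel: each solution mod `p^k` which is not `0` mod `p` has at most `p` lifts. -/
theorem SM_succ (A B C : ℤ) (p : ℕ) (hp : p.Prime)
    (hg : ∀ r r' : ℕ, (p : ℤ) ∣ A * (r : ℤ) ^ 2 - B * (r' : ℤ) ^ 2 + C → ¬ (p ∣ r ∧ p ∣ r') →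
      ¬ ((p : ℤ) ∣ 2 * A * r ∧ (p : ℤ) ∣ 2 * B * r')) (k : ℕ) (hk : 1 ≤ k) :
    (SM A B C p (k + 1)).card ≤ p * (SM A B C p k).card := by
  classical
  have hpi : Prime (p : ℤ) := Nat.prime_iff_prime_int.1 hp
  have hpk : 0 < p ^ k := Nat.pow_pos hp.pos
  have hpk1 : p ∣ p ^ k := dvd_pow_self p (by omega)
  have hmod : ∀ y : ℕ, (y % p ^ k) % p = y % p := fun y => Nat.mod_mod_of_dvd y hpk1
  apply card_le_mul_card_image_of_maps_to (f := fun v : ℕ × ℕ => (v.1 % p ^ k, v.2 % p ^ k))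
  · rintro ⟨v, w⟩ hv
    rw [SM, mem_filter, mem_product, mem_range, mem_range] at hv
    rw [SM, mem_filter, mem_product, mem_range, mem_range]
    refine ⟨⟨Nat.mod_lt _ hpk, Nat.mod_lt _ hpk⟩, ?_, ?_⟩
    · have h3 : ((p ^ k : ℕ) : ℤ) ∣ A * (v : ℤ) ^ 2 - B * (w : ℤ) ^ 2 + C :=
        dvd_trans (by push_cast; exact pow_dvd_pow _ (Nat.le_succ k)) hv.2.1
      have hm : ∀ y : ℕ, ((p ^ k : ℕ) : ℤ) ∣ (y : ℤ) - ((y % p ^ k : ℕ) : ℤ) := by
        intro y
        rw [Int.natCast_mod]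
        exact Int.dvd_self_sub_emod
      have h4 : ((p ^ k : ℕ) : ℤ) ∣ (A * (v : ℤ) ^ 2 - B * (w : ℤ) ^ 2 + C) -
          (A * ((v % p ^ k : ℕ) : ℤ) ^ 2 - B * ((w % p ^ k : ℕ) : ℤ) ^ 2 + C) := by
        have e : (A * (v : ℤ) ^ 2 - B * (w : ℤ) ^ 2 + C) -
            (A * ((v % p ^ k : ℕ) : ℤ) ^ 2 - B * ((w % p ^ k : ℕ) : ℤ) ^ 2 + C) =
            ((v : ℤ) - ((v % p ^ k : ℕ) : ℤ)) * (A * ((v : ℤ) + ((v % p ^ k : ℕ) : ℤ))) -
            ((w : ℤ) - ((w % p ^ k : ℕ) : ℤ)) * (B * ((w : ℤ) + ((w % p ^ k : ℕ) : ℤ))) := by ring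
        rw [e]
        exact dvd_sub (dvd_mul_of_dvd_left (hm _) _) (dvd_mul_of_dvd_left (hm _) _)
      exact (dvd_iff_dvd_of_dvd_sub h4).1 h3
    · intro h3
      apply hv.2.2
      simp only at h3 ⊢
      rw [Nat.dvd_iff_mod_eq_zero, Nat.dvd_iff_mod_eq_zero, hmod, hmod] at h3
      exact ⟨Nat.dvd_of_mod_eq_zero h3.1, Nat.dvd_of_mod_eq_zero h3.2⟩
  · rintro ⟨r, r'⟩ hr
    rw [SM, mem_filter, mem_product, mem_range, mem_range] at hr
    obtain ⟨⟨r1, r2⟩, ⟨c, hc⟩, r4⟩ := hr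
    simp only at r1 r2 hc r4
    refine le_trans ?_ (lin_card p hp c (2 * A * r) (-(2 * B * r')) ?_)
    · apply card_le_card_of_injOn (fun v => (v.1 / p ^ k, v.2 / p ^ k))
      · rintro ⟨v, w⟩ hv
        rw [mem_coe, mem_filter, SM, mem_filter, mem_product, mem_range, mem_range,
          Prod.mk.injEq] at hv
        obtain ⟨⟨⟨v1, w1⟩, hd, _⟩, e1, e2⟩ := hv
        simp only at v1 w1 hd e1 e2
        rw [mem_coe, mem_filter, mem_product, mem_range, mem_range]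
        refine ⟨⟨Nat.div_lt_of_lt_mul (by rwa [pow_succ] at v1),
          Nat.div_lt_of_lt_mul (by rwa [pow_succ] at w1)⟩, ?_⟩
        simp only
        set i := v / p ^ k with hi
        set j := w / p ^ k with hj
        have f1 : (v : ℤ) = r + (p : ℤ) ^ k * i := by
          have := Nat.mod_add_div v (p ^ k)
          rw [e1] at this
          exact_mod_cast this.symm
        have f2 : (w : ℤ) = r' + (p : ℤ) ^ k * j := by
          have := Nat.mod_add_div w (p ^ k)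
          rw [e2] at this
          exact_mod_cast this.symm
        have f3 : (p : ℤ) ^ (k + 1) ∣ (p : ℤ) ^ k * (p : ℤ) ^ k :=
          by rw [← pow_add]; exact pow_dvd_pow _ (by omega)
        have f4 : A * (v : ℤ) ^ 2 - B * (w : ℤ) ^ 2 + C =
            (p : ℤ) ^ k * (c + 2 * A * r * i + -(2 * B * r') * j) +
            (p : ℤ) ^ k * (p : ℤ) ^ k * (A * i ^ 2 - B * j ^ 2) := by
          rw [f1, f2]
          have hc' : A * (r : ℤ) ^ 2 - B * (r' : ℤ) ^ 2 + C = (p : ℤ) ^ k * c := by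
            rw [hc]
            push_cast
            rfl
          linear_combination hc'
        have f5 : (p : ℤ) ^ (k + 1) ∣ (p : ℤ) ^ k * (c + 2 * A * r * i + -(2 * B * r') * j) := by
          have h5 : (p : ℤ) ^ (k + 1) ∣ A * (v : ℤ) ^ 2 - B * (w : ℤ) ^ 2 + C := by
            exact_mod_cast hd
          rw [f4] at h5
          exact (dvd_add_left (dvd_mul_of_dvd_left f3 _)).1 h5
        rw [pow_succ] at f5
        exact (mul_dvd_mul_iff_left (pow_ne_zero k hpi.ne_zero)).1 f5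
      · rintro ⟨v, w⟩ hv ⟨v', w'⟩ hv' he
        rw [mem_coe, mem_filter, Prod.mk.injEq] at hv hv'
        simp only [Prod.mk.injEq] at he hv hv'
        rw [← Nat.mod_add_div v (p ^ k), ← Nat.mod_add_div w (p ^ k),
          ← Nat.mod_add_div v' (p ^ k), ← Nat.mod_add_div w' (p ^ k), hv.2.1, hv.2.2, hv'.2.1,
          hv'.2.2, he.1, he.2]
    · rintro ⟨g1, g2⟩
      rw [dvd_neg] at g2
      refine hg r r' ?_ r4 ⟨g1, g2⟩
      rw [hc]
      exact dvd_mul_of_dvd_left (by exact_mod_cast hpk1) _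

theorem SM_le (A B C : ℤ) (p : ℕ) (hp : p.Prime)
    (hg : ∀ r r' : ℕ, (p : ℤ) ∣ A * (r : ℤ) ^ 2 - B * (r' : ℤ) ^ 2 + C → ¬ (p ∣ r ∧ p ∣ r') →
      ¬ ((p : ℤ) ∣ 2 * A * r ∧ (p : ℤ) ∣ 2 * B * r')) (k : ℕ) :
    (SM A B C p (k + 1)).card ≤ p ^ k * (SM A B C p 1).card := by
  induction k with
  | zero => simp
  | succ k ih =>
    refine (SM_succ A B C p hp hg (k + 1) (by omega)).trans ?_
    calc p * (SM A B C p (k + 1)).card ≤ p * (p ^ k * (SM A B C p 1).card) :=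
          Nat.mul_le_mul_left _ ih
      _ = p ^ (k + 1) * (SM A B C p 1).card := by rw [pow_succ]; ring

theorem rp_two {p : ℕ} (hp : p.Prime) (h2 : p ≠ 2) : ¬ (p : ℤ) ∣ 2 := by
  intro h
  have h3 : p ∣ 2 := by exact_mod_cast h
  exact h2 ((Nat.prime_dvd_prime_iff_eq hp Nat.prime_two).1 h3)

/-- the gradient does not vanish when `p ∤ A B` -/
theorem grad_unit {p : ℕ} (hp : p.Prime) (h2 : p ≠ 2) {A B : ℤ} (hA : ¬ (p : ℤ) ∣ A)
    (hB : ¬ (p : ℤ) ∣ B) (C : ℤ) : ∀ r r' : ℕ, (p : ℤ) ∣ A * (r : ℤ) ^ 2 - B * (r' : ℤ) ^ 2 + C →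
      ¬ (p ∣ r ∧ p ∣ r') → ¬ ((p : ℤ) ∣ 2 * A * r ∧ (p : ℤ) ∣ 2 * B * r') := by
  have hpi : Prime (p : ℤ) := Nat.prime_iff_prime_int.1 hp
  have hp2 := rp_two hp h2
  rintro r r' _ r4 ⟨g1, g2⟩
  apply r4
  constructor
  · rcases hpi.dvd_or_dvd g1 with h | h
    · rcases hpi.dvd_or_dvd h with h | h
      · exact absurd h hp2
      · exact absurd h hA
    · exact_mod_cast h
  · rcases hpi.dvd_or_dvd g2 with h | h
    · rcases hpi.dvd_or_dvd h with h | h
      · exact absurd h hp2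
      · exact absurd h hB
    · exact_mod_cast h

/-- at most two square roots modulo a prime -/
theorem two_roots (p : ℕ) (hp : p.Prime) (B c : ℤ) (hB : ¬ (p : ℤ) ∣ B) :
    ((range p).filter fun y : ℕ => (p : ℤ) ∣ B * (y : ℤ) ^ 2 - c).card ≤ 2 := by
  classical
  have hpi : Prime (p : ℤ) := Nat.prime_iff_prime_int.1 hp
  rcases ((range p).filter fun y : ℕ => (p : ℤ) ∣ B * (y : ℤ) ^ 2 - c).eq_empty_or_nonempty with
    he | ⟨y0, hy0⟩
  · rw [he]
    simp
  rw [mem_filter, mem_range] at hy0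
  refine le_trans (card_le_card (t := {y0, p - y0}) ?_) (card_le_two)
  intro y hy
  rw [mem_filter, mem_range] at hy
  rw [mem_insert, mem_singleton]
  have h1 := dvd_sub hy.2 hy0.2
  have e : B * (y : ℤ) ^ 2 - c - (B * (y0 : ℤ) ^ 2 - c) = B * (((y : ℤ) - y0) * (y + y0)) := by
    ring
  rw [e] at h1
  rcases hpi.dvd_or_dvd h1 with h | h
  · exact absurd h hB
  rcases hpi.dvd_or_dvd h with h | h
  · left
    have h3 : y0 ≡ y [MOD p] := (Nat.modEq_iff_dvd).2 h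
    exact (Nat.ModEq.eq_of_lt_of_lt h3 hy0.1 hy.1).symm
  · have h3 : p ∣ y + y0 := by exact_mod_cast h
    obtain ⟨d, hd⟩ := h3
    have hd2 : d < 2 := by
      by_contra hcon
      have : p * 2 ≤ p * d := Nat.mul_le_mul_left p (by omega)
      omega
    interval_cases d
    · left
      omega
    · right
      omega

theorem rho_split (A B C : ℤ) (p k : ℕ) : rho A B C (p ^ k) = (SM A B C p k).card +
    ((range (p ^ k) ×ˢ range (p ^ k)).filter fun v : ℕ × ℕ =>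
      ((p ^ k : ℕ) : ℤ) ∣ A * (v.1 : ℤ) ^ 2 - B * (v.2 : ℤ) ^ 2 + C ∧ (p ∣ v.1 ∧ p ∣ v.2)).card := by
  classical
  unfold rho SM
  rw [← filter_filter, ← filter_filter, add_comm]
  exact (card_filter_add_card_filter_not _).symm

/-- if `p ∤ C` all solutions are counted by `SM` -/
theorem rho_eq_SM (A B C : ℤ) (p k : ℕ) (hk : 1 ≤ k) (hC : ¬ (p : ℤ) ∣ C) :
    rho A B C (p ^ k) = (SM A B C p k).card := by
  rw [rho_split]
  rw [Nat.add_eq_left, card_eq_zero, filter_eq_empty_iff]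
  rintro ⟨v, w⟩ _ ⟨h1, h2, h3⟩
  apply hC
  have h4 : (p : ℤ) ∣ A * (v : ℤ) ^ 2 - B * (w : ℤ) ^ 2 + C :=
    dvd_trans (by exact_mod_cast dvd_pow_self p (by omega)) h1
  have h5 : (p : ℤ) ∣ A * (v : ℤ) ^ 2 - B * (w : ℤ) ^ 2 := by
    apply dvd_sub
    · exact dvd_mul_of_dvd_right (dvd_pow (by exact_mod_cast h2) two_ne_zero) _
    · exact dvd_mul_of_dvd_right (dvd_pow (by exact_mod_cast h3) two_ne_zero) _
  exact (dvd_add_right h5).1 h4

/-- **good primes**: `ρ(p^k) ≤ p^(k-1) (p+1)` -/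
theorem rho_pow_good (A B C : ℤ) (p : ℕ) (hp : p.Prime) (h2 : p ≠ 2) (hA : ¬ (p : ℤ) ∣ A)
    (hB : ¬ (p : ℤ) ∣ B) (hC : ¬ (p : ℤ) ∣ C) (k : ℕ) :
    rho A B C (p ^ (k + 1)) ≤ p ^ k * (p + 1) := by
  have : Fact p.Prime := ⟨hp⟩
  rw [rho_eq_SM A B C p (k + 1) (by omega) hC]
  refine (SM_le A B C p hp (grad_unit hp h2 hA hB C) k).trans (Nat.mul_le_mul_left _ ?_)
  have hA' : (A : ZMod p) ≠ 0 := fun h => hA ((ZMod.intCast_zmod_eq_zero_iff_dvd A p).1 h)
  have hB' : (B : ZMod p) ≠ 0 := fun h => hB ((ZMod.intCast_zmod_eq_zero_iff_dvd B p).1 h)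
  have hC' : (-C : ZMod p) ≠ 0 := fun h => hC ((ZMod.intCast_zmod_eq_zero_iff_dvd C p).1
    (neg_eq_zero.1 h))
  refine le_trans ?_ (card_con_le h2 hA' hB' hC')
  apply card_le_card_of_injOn (fun v => ((v.1 : ZMod p), (v.2 : ZMod p)))
  · rintro ⟨v, w⟩ hv
    rw [mem_coe, SM, mem_filter] at hv
    rw [mem_coe, mem_con]
    have h3 := hv.2.1
    rw [pow_one, ← ZMod.intCast_zmod_eq_zero_iff_dvd] at h3
    push_cast at h3
    linear_combination h3
  · rintro ⟨v, w⟩ hv ⟨v', w'⟩ hv' he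
    rw [mem_coe, SM, mem_filter, mem_product, mem_range, mem_range, pow_one] at hv hv'
    simp only [Prod.mk.injEq] at he
    rw [ZMod.natCast_eq_natCast_iff, ZMod.natCast_eq_natCast_iff] at he
    rw [Nat.ModEq.eq_of_lt_of_lt he.1 hv.1.1 hv'.1.1, Nat.ModEq.eq_of_lt_of_lt he.2 hv.1.2 hv'.1.2]

/-- for each `y` at most two `y'` -/
theorem SM_one_le (A B C : ℤ) (p : ℕ) (hp : p.Prime) (hB : ¬ (p : ℤ) ∣ B) :
    (SM A B C p 1).card ≤ 2 * p := by
  classical
  have h1 : (SM A B C p 1).card ≤ 2 * (range p).card := by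
    apply card_le_mul_card_image_of_maps_to (f := fun v : ℕ × ℕ => v.1)
    · intro v hv
      rw [SM, mem_filter, mem_product, pow_one] at hv
      exact hv.1.1
    · intro y _
      refine le_trans ?_ (two_roots p hp B (A * (y : ℤ) ^ 2 + C) hB)
      apply card_le_card_of_injOn (fun v => v.2)
      · rintro ⟨v, w⟩ hv
        rw [mem_coe, mem_filter, SM, mem_filter, mem_product, pow_one] at hv
        rw [mem_coe, mem_filter]
        simp only at hv ⊢
        obtain ⟨⟨⟨_, h4⟩, h5, _⟩, h6⟩ := hv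
        subst h6
        refine ⟨h4, ?_⟩
        have e : B * (w : ℤ) ^ 2 - (A * (v : ℤ) ^ 2 + C) =
          -(A * (v : ℤ) ^ 2 - B * (w : ℤ) ^ 2 + C) := by ring
        rw [e]
        exact (dvd_neg).2 h5
      · rintro ⟨v, w⟩ hv ⟨v', w'⟩ hv' he
        rw [mem_coe, mem_filter] at hv hv'
        simp only at hv hv' he
        rw [he, hv.2, hv'.2]
  rwa [card_range] at h1

/-- if `p ∣ C`: for each `y ≠ 0` at most two `y'` -/
theorem SM_one_le' (A B C : ℤ) (p : ℕ) (hp : p.Prime) (hB : ¬ (p : ℤ) ∣ B) (hC : (p : ℤ) ∣ C) :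
    (SM A B C p 1).card ≤ 2 * (p - 1) := by
  classical
  have hpi : Prime (p : ℤ) := Nat.prime_iff_prime_int.1 hp
  have h1 : (SM A B C p 1).card ≤ 2 * ((range p).erase 0).card := by
    apply card_le_mul_card_image_of_maps_to (f := fun v : ℕ × ℕ => v.1)
    · rintro ⟨v, w⟩ hv
      rw [SM, mem_filter, mem_product, pow_one] at hv
      rw [mem_erase]
      refine ⟨?_, hv.1.1⟩
      simp only at hv ⊢
      rintro rfl
      obtain ⟨_, h5, h6⟩ := hv
      apply h6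
      refine ⟨dvd_zero _, ?_⟩
      have h7 : (p : ℤ) ∣ B * (w : ℤ) ^ 2 := by
        have h8 := dvd_sub hC h5
        have e : C - (A * ((0 : ℕ) : ℤ) ^ 2 - B * (w : ℤ) ^ 2 + C) = B * (w : ℤ) ^ 2 := by
          push_cast
          ring
        rwa [e] at h8
      rcases hpi.dvd_or_dvd h7 with h | h
      · exact absurd h hB
      · exact_mod_cast hpi.dvd_of_dvd_pow h
    · intro y _
      refine le_trans ?_ (two_roots p hp B (A * (y : ℤ) ^ 2 + C) hB)
      apply card_le_card_of_injOn (fun v => v.2)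
      · rintro ⟨v, w⟩ hv
        rw [mem_coe, mem_filter, SM, mem_filter, mem_product, pow_one] at hv
        rw [mem_coe, mem_filter]
        simp only at hv ⊢
        obtain ⟨⟨⟨_, h4⟩, h5, _⟩, h6⟩ := hv
        subst h6
        refine ⟨h4, ?_⟩
        have e : B * (w : ℤ) ^ 2 - (A * (v : ℤ) ^ 2 + C) =
          -(A * (v : ℤ) ^ 2 - B * (w : ℤ) ^ 2 + C) := by ring
        rw [e]
        exact (dvd_neg).2 h5
      · rintro ⟨v, w⟩ hv ⟨v', w'⟩ hv' he
        rw [mem_coe, mem_filter] at hv hv'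
        simp only at hv hv' he
        rw [he, hv.2, hv'.2]
  rwa [card_erase_of_mem (mem_range.2 hp.pos), card_range] at h1

theorem rho_swap (A B C : ℤ) (n : ℕ) : rho A B C n = rho B A (-C) n := by
  unfold rho
  apply card_bij (fun v _ => (v.2, v.1))
  · rintro ⟨v, w⟩ hv
    rw [mem_filter, mem_product] at hv ⊢
    refine ⟨⟨hv.1.2, hv.1.1⟩, ?_⟩
    simp only
    have e : B * (w : ℤ) ^ 2 - A * (v : ℤ) ^ 2 + -C = -(A * (v : ℤ) ^ 2 - B * (w : ℤ) ^ 2 + C) := by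
      ring
    rw [e]
    exact (dvd_neg).2 hv.2
  · rintro ⟨v, w⟩ _ ⟨v', w'⟩ _ he
    simp only [Prod.mk.injEq] at he ⊢
    exact ⟨he.2, he.1⟩
  · rintro ⟨v, w⟩ hv
    refine ⟨(w, v), ?_, rfl⟩
    rw [mem_filter, mem_product] at hv ⊢
    refine ⟨⟨hv.1.2, hv.1.1⟩, ?_⟩
    simp only
    have e : A * (w : ℤ) ^ 2 - B * (v : ℤ) ^ 2 + C = -(B * (v : ℤ) ^ 2 - A * (w : ℤ) ^ 2 + -C) := by
      ring
    rw [e]
    exact (dvd_neg).2 hv.2

/-- the solutions divisible by `p` -/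
theorem card_div (A B C : ℤ) (p : ℕ) (hp : p.Prime) (k : ℕ) :
    ((range (p ^ (k + 2)) ×ˢ range (p ^ (k + 2))).filter fun v : ℕ × ℕ =>
      ((p ^ (k + 2) : ℕ) : ℤ) ∣ A * (v.1 : ℤ) ^ 2 - B * (v.2 : ℤ) ^ 2 + (p : ℤ) ^ 2 * C ∧
        (p ∣ v.1 ∧ p ∣ v.2)).card ≤ p ^ 2 * rho A B C (p ^ k) := by
  have hpos : 0 < p := hp.pos
  have hpz : (p : ℤ) ≠ 0 := by exact_mod_cast hpos.ne'
  have h1 := rho_scale A B C p (p ^ k) hpos (Nat.pow_pos hpos)
  rw [← h1]
  unfold rho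
  apply card_le_card_of_injOn (fun v => (v.1 / p, v.2 / p))
  · rintro ⟨v, w⟩ hv
    rw [mem_coe, mem_filter, mem_product, mem_range, mem_range] at hv
    obtain ⟨⟨h3, h4⟩, h5, ⟨v', rfl⟩, w', rfl⟩ := hv
    rw [mem_coe, mem_filter, mem_product, mem_range, mem_range]
    simp only at h3 h4 h5 ⊢
    rw [Nat.mul_div_cancel_left _ hpos, Nat.mul_div_cancel_left _ hpos]
    have e1 : p ^ (k + 2) = p * (p * p ^ k) := by ring
    rw [e1] at h3 h4
    refine ⟨⟨Nat.lt_of_mul_lt_mul_left h3, Nat.lt_of_mul_lt_mul_left h4⟩, ?_⟩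
    obtain ⟨d, hd⟩ := h5
    refine ⟨d, ?_⟩
    have h6 : (p : ℤ) * (p * A * (v' : ℤ) ^ 2 - p * B * (w' : ℤ) ^ 2 + p * C) =
        p * (((p * p ^ k : ℕ) : ℤ) * d) := by
      push_cast at hd ⊢
      linear_combination hd
    exact mul_left_cancel₀ hpz h6
  · rintro ⟨v, w⟩ hv ⟨v', w'⟩ hv' he
    rw [mem_coe, mem_filter] at hv hv'
    obtain ⟨_, _, h3, h4⟩ := hv
    obtain ⟨_, _, h3', h4'⟩ := hv'
    simp only [Prod.mk.injEq] at he
    simp only at h3 h4 h3' h4'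
    rw [Prod.mk.injEq]
    exact ⟨(Nat.div_left_inj h3 h3').1 he.1, (Nat.div_left_inj h4 h4').1 he.2⟩

/-- units `A, B`, arbitrary `C`: `ρ(p^k) ≤ (k+1) p^k` -/
theorem rho_pow_unit (p : ℕ) (hp : p.Prime) (h2 : p ≠ 2) (A B : ℤ) (hA : ¬ (p : ℤ) ∣ A)
    (hB : ¬ (p : ℤ) ∣ B) : ∀ (k : ℕ) (C : ℤ), rho A B C (p ^ k) ≤ (k + 1) * p ^ k := by
  have hpi : Prime (p : ℤ) := Nat.prime_iff_prime_int.1 hp
  have hgood : ∀ (k : ℕ) (C : ℤ), ¬ (p : ℤ) ∣ C → rho A B C (p ^ (k + 1)) ≤ 2 * p ^ (k + 1) := by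
    intro k C hC
    refine (rho_pow_good A B C p hp h2 hA hB hC k).trans ?_
    rw [pow_succ]
    have := Nat.mul_le_mul_left (p ^ k) (show p + 1 ≤ 2 * p by have := hp.two_le; omega)
    calc p ^ k * (p + 1) ≤ p ^ k * (2 * p) := this
      _ = 2 * (p ^ k * p) := by ring
  have hsm : ∀ (k : ℕ) (C : ℤ), (p : ℤ) ∣ C →
      (SM A B C p (k + 1)).card ≤ 2 * (p ^ k * (p - 1)) := by
    intro k C hC
    refine (SM_le A B C p hp (grad_unit hp h2 hA hB C) k).trans ?_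
    calc p ^ k * (SM A B C p 1).card ≤ p ^ k * (2 * (p - 1)) :=
          Nat.mul_le_mul_left _ (SM_one_le' A B C p hp hB hC)
      _ = 2 * (p ^ k * (p - 1)) := by ring
  intro k
  induction k using Nat.strong_induction_on with
  | _ k ih =>
    intro C
    match k, ih with
    | 0, _ => simp [rho_one]
    | 1, _ =>
      by_cases hC : (p : ℤ) ∣ C
      · have h3 := hsm 0 C hC
        have h4 : ((range (p ^ 1) ×ˢ range (p ^ 1)).filter fun v : ℕ × ℕ =>
            ((p ^ 1 : ℕ) : ℤ) ∣ A * (v.1 : ℤ) ^ 2 - B * (v.2 : ℤ) ^ 2 + C ∧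
              (p ∣ v.1 ∧ p ∣ v.2)).card ≤ 1 := by
          rw [card_le_one]
          rintro ⟨v, w⟩ hv ⟨v', w'⟩ hv'
          rw [mem_filter, mem_product, mem_range, mem_range, pow_one] at hv hv'
          obtain ⟨⟨a1, a2⟩, _, a3, a4⟩ := hv
          obtain ⟨⟨b1, b2⟩, _, b3, b4⟩ := hv'
          simp only at a1 a2 a3 a4 b1 b2 b3 b4
          rw [Nat.eq_zero_of_dvd_of_lt a3 a1, Nat.eq_zero_of_dvd_of_lt a4 a2,
            Nat.eq_zero_of_dvd_of_lt b3 b1, Nat.eq_zero_of_dvd_of_lt b4 b2]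
        rw [rho_split]
        have h5 := hp.two_le
        simp only [zero_add, pow_zero, one_mul] at h3
        rw [pow_one] at h4 ⊢
        have h6 := add_le_add h3 h4
        refine h6.trans ?_
        omega
      · have := hgood 0 C hC
        simpa using this
    | k + 2, ih =>
      have h5 := hp.two_le
      by_cases hC : (p : ℤ) ∣ C
      · have h3 := hsm (k + 1) C hC
        rw [rho_split]
        by_cases hC2 : (p : ℤ) ^ 2 ∣ C
        · obtain ⟨C1, rfl⟩ := hC2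
          have h4 := card_div A B C1 p hp k
          have h6 := ih k (by omega) C1
          have h7 : (p ^ (k + 1) * (p - 1)) ≤ p ^ (k + 2) := by
            rw [pow_succ p (k + 1)]
            exact Nat.mul_le_mul_left _ (by omega)
          calc _ ≤ 2 * p ^ (k + 2) + p ^ 2 * ((k + 1) * p ^ k) :=
                add_le_add (h3.trans (Nat.mul_le_mul_left 2 h7))
                  (h4.trans (Nat.mul_le_mul_left _ h6))
            _ = (k + 2 + 1) * p ^ (k + 2) := by ring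
        · have h4 : ((range (p ^ (k + 2)) ×ˢ range (p ^ (k + 2))).filter fun v : ℕ × ℕ =>
              ((p ^ (k + 2) : ℕ) : ℤ) ∣ A * (v.1 : ℤ) ^ 2 - B * (v.2 : ℤ) ^ 2 + C ∧
                (p ∣ v.1 ∧ p ∣ v.2)) = ∅ := by
            rw [filter_eq_empty_iff]
            rintro ⟨v, w⟩ _ ⟨g1, g2, g3⟩
            apply hC2
            have g4 : (p : ℤ) ^ 2 ∣ A * (v : ℤ) ^ 2 - B * (w : ℤ) ^ 2 + C :=
              dvd_trans (by push_cast; exact pow_dvd_pow _ (by omega)) g1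
            have g5 : (p : ℤ) ^ 2 ∣ A * (v : ℤ) ^ 2 - B * (w : ℤ) ^ 2 := by
              apply dvd_sub
              · exact dvd_mul_of_dvd_right (pow_dvd_pow_of_dvd (by exact_mod_cast g2) 2) _
              · exact dvd_mul_of_dvd_right (pow_dvd_pow_of_dvd (by exact_mod_cast g3) 2) _
            exact (dvd_add_right g5).1 g4
          rw [h4, card_empty, add_zero]
          refine h3.trans ?_
          have h7 : (p ^ (k + 1) * (p - 1)) ≤ p ^ (k + 2) := by
            rw [pow_succ p (k + 1)]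
            exact Nat.mul_le_mul_left _ (by omega)
          calc 2 * (p ^ (k + 1) * (p - 1)) ≤ 2 * p ^ (k + 2) := Nat.mul_le_mul_left 2 h7
            _ ≤ (k + 2 + 1) * p ^ (k + 2) := Nat.mul_le_mul_right _ (by omega)
      · refine (hgood (k + 1) C hC).trans (Nat.mul_le_mul_right _ (by omega))

/-- `p ∣ A`, `p ∤ B C`: `ρ(p^k) ≤ 2 p^k` -/
theorem rho_pow_left (A B C : ℤ) (p : ℕ) (hp : p.Prime) (h2 : p ≠ 2) (hA : (p : ℤ) ∣ A)
    (hB : ¬ (p : ℤ) ∣ B) (hC : ¬ (p : ℤ) ∣ C) (k : ℕ) :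
    rho A B C (p ^ k) ≤ 2 * p ^ k := by
  have hpi : Prime (p : ℤ) := Nat.prime_iff_prime_int.1 hp
  have hp2 := rp_two hp h2
  rcases k with _ | k
  · simp [rho_one]
  rw [rho_eq_SM A B C p (k + 1) (by omega) hC]
  refine (SM_le A B C p hp ?_ k).trans ?_
  · rintro r r' h3 h4 ⟨_, g2⟩
    rcases hpi.dvd_or_dvd g2 with h | h
    · rcases hpi.dvd_or_dvd h with h | h
      · exact hp2 h
      · exact hB h
    · apply hC
      have h5 : (p : ℤ) ∣ A * (r : ℤ) ^ 2 - B * (r' : ℤ) ^ 2 := by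
        apply dvd_sub
        · exact dvd_mul_of_dvd_left hA _
        · exact dvd_mul_of_dvd_right (dvd_pow h two_ne_zero) _
      exact (dvd_add_right h5).1 h3
  · calc p ^ k * (SM A B C p 1).card ≤ p ^ k * (2 * p) :=
          Nat.mul_le_mul_left _ (SM_one_le A B C p hp hB)
      _ = 2 * p ^ (k + 1) := by rw [pow_succ]; ring

/-- **bad primes not dividing both leading coefficients** -/
theorem rho_pow_bad (A B C : ℤ) (p : ℕ) (hp : p.Prime) (h2 : p ≠ 2)
    (hAB : ¬ ((p : ℤ) ∣ A ∧ (p : ℤ) ∣ B)) (hA : (p : ℤ) ∣ A → ¬ (p : ℤ) ∣ C)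
    (hB : (p : ℤ) ∣ B → ¬ (p : ℤ) ∣ C) (k : ℕ) : rho A B C (p ^ k) ≤ (k + 1) * p ^ k := by
  rcases k with _ | k
  · simp [rho_one]
  by_cases h1 : (p : ℤ) ∣ A
  · refine (rho_pow_left A B C p hp h2 h1 (fun h => hAB ⟨h1, h⟩) (hA h1) (k + 1)).trans ?_
    exact Nat.mul_le_mul_right _ (by omega)
  · by_cases h3 : (p : ℤ) ∣ B
    · rw [rho_swap]
      refine (rho_pow_left B A (-C) p hp h2 h3 h1 (fun h => hB h3 ((dvd_neg).1 h)) (k + 1)).trans ?_
      exact Nat.mul_le_mul_right _ (by omega)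
    · exact rho_pow_unit p hp h2 A B h1 h3 (k + 1) C

/-- **primes dividing both leading coefficients exactly once** -/
theorem rho_pow_both (A B C : ℤ) (p : ℕ) (hp : p.Prime) (h2 : p ≠ 2) (hA : (p : ℤ) ∣ A)
    (hB : (p : ℤ) ∣ B) (hA2 : ¬ (p : ℤ) ^ 2 ∣ A) (hB2 : ¬ (p : ℤ) ^ 2 ∣ B) (k : ℕ) (hk : 1 ≤ k) :
    rho A B C (p ^ k) ≤ k * p ^ (k + 1) := by
  have hpz : (p : ℤ) ≠ 0 := by exact_mod_cast hp.ne_zero
  obtain ⟨k, rfl⟩ : ∃ j, k = j + 1 := ⟨k - 1, by omega⟩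
  by_cases hC : (p : ℤ) ∣ C
  · obtain ⟨A', rfl⟩ := hA
    obtain ⟨B', rfl⟩ := hB
    obtain ⟨C', rfl⟩ := hC
    have h3 : ¬ (p : ℤ) ∣ A' := fun h => hA2 (by rw [sq]; exact mul_dvd_mul_left _ h)
    have h4 : ¬ (p : ℤ) ∣ B' := fun h => hB2 (by rw [sq]; exact mul_dvd_mul_left _ h)
    rw [pow_succ' p k, rho_scale A' B' C' p (p ^ k) hp.pos (Nat.pow_pos hp.pos)]
    calc p ^ 2 * rho A' B' C' (p ^ k) ≤ p ^ 2 * ((k + 1) * p ^ k) :=
          Nat.mul_le_mul_left _ (rho_pow_unit p hp h2 A' B' h3 h4 k C')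
      _ = (k + 1) * p ^ (k + 1 + 1) := by ring
  · have h3 : rho A B C (p ^ (k + 1)) = 0 := by
      unfold rho
      rw [card_eq_zero, filter_eq_empty_iff]
      rintro ⟨v, w⟩ _ h
      apply hC
      have g4 : (p : ℤ) ∣ A * (v : ℤ) ^ 2 - B * (w : ℤ) ^ 2 + C :=
        dvd_trans (by push_cast; exact dvd_pow_self _ (by omega)) h
      exact (dvd_add_right (dvd_sub (dvd_mul_of_dvd_left hA _) (dvd_mul_of_dvd_left hB _))).1 g4
    rw [h3]
    exact Nat.zero_le _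

end Pool.Agent.RhoPow
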