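import Pool.Agent.MKA.RhoMul
import Pool.Agent.MKA.RhoPow

/-!
# MKA/RhoGood: `rho` at good primes

A prime `p` is good if `p ≠ 2` and `p ∤ αβγ`.
`rho_prime_le`: `rho_eq_zmod` and `card_conic_le`.
`rho_pow_le`: for `j ≥ 1`, `rho (p^(j+1)) ≤ p · rho (p^j)`: the reduction map from the zeros mod
`p^(j+1)` to the zeros mod `p^j` has fibres of size `≤ p`.  Indeed the points above `(y, y')` are
`(y + p^j s, y' + p^j s')`, `0 ≤ s, s' < p`, and
`PP(y + p^j s, y' + p^j s') ≡ PP(y,y') + p^j (2αy s - 2βy' s') mod p^(j+1)`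
(`2j ≥ j+1`); with `PP(y,y') = p^j c` the condition is `c + 2αy s - 2βy' s' ≡ 0 mod p`.
`2αy` and `2βy'` are not both divisible by `p` (otherwise `p ∣ y`, `p ∣ y'`, so `p ∣ γ`), so for each
value of one of `s, s'` there is exactly one value of the other.
(So `rho (p^(j+1)) ≤ p^j (p+1)` by induction from `rho_prime_le`.)
`rho_good`: multiplicativity (`rho_mul`; e.g. induction `Nat.recOnPosPrimePosCoprime`) and
`rho (p^j)/p^j ≤ 1 + 1/p`, `∑_{m ∣ n, m squarefree} 1/m = ∏_{p ∣ n} (1 + 1/p)`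
(for coprime `m, n` the squarefree divisors of `mn` are the products; an inequality
`(∑_{m ∣ a} 1/m)(∑_{m ∣ b} 1/m) ≤ ∑_{m ∣ ab} 1/m` over squarefree divisors suffices).
`rho_good_tau`: every squarefree divisor has `1/m ≤ 1`.
Size: 150-200 lines.
-/

set_option autoImplicit false

namespace Pool.Agent.MKA

open Finset

private theorem rg_split {α β γ : ℤ} {p : ℕ} (hn : ¬ (p : ℤ) ∣ α * β * γ) :
    ¬ (p : ℤ) ∣ α ∧ ¬ (p : ℤ) ∣ β ∧ ¬ (p : ℤ) ∣ γ :=
  ⟨fun h => hn (dvd_mul_of_dvd_left (dvd_mul_of_dvd_left h _) _),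
    fun h => hn (dvd_mul_of_dvd_left (dvd_mul_of_dvd_right h _) _),
    fun h => hn (dvd_mul_of_dvd_right h _)⟩

theorem rho_pow_le (α β γ : ℤ) (p j : ℕ) (hp : p.Prime) (h2 : p ≠ 2)
    (hn : ¬ (p : ℤ) ∣ α * β * γ) : rho α β γ (p ^ (j + 1)) ≤ p ^ j * (p + 1) := by
  obtain ⟨h3, h4, h5⟩ := rg_split hn
  rw [rho_eq_mk]
  exact Pool.Agent.RhoPow.rho_pow_good α β γ p hp h2 h3 h4 h5 j

theorem rho_prime_le (α β γ : ℤ) (p : ℕ) (hp : p.Prime) (h2 : p ≠ 2)
    (hn : ¬ (p : ℤ) ∣ α * β * γ) : rho α β γ p ≤ p + 1 := by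
  have h := rho_pow_le α β γ p 0 hp h2 hn
  rwa [zero_add, pow_one, pow_zero, one_mul] at h

/-- the sum over squarefree divisors is supermultiplicative -/
private theorem rg_mul (a b : ℕ) (ha : a ≠ 0) (hb : b ≠ 0) (h : Nat.Coprime a b) :
    (∑ m ∈ a.divisors.filter (fun m => Squarefree m), 1 / (m : ℝ)) *
      (∑ m ∈ b.divisors.filter (fun m => Squarefree m), 1 / (m : ℝ)) ≤
      ∑ m ∈ (a * b).divisors.filter (fun m => Squarefree m), 1 / (m : ℝ) := by
  classical
  rw [sum_mul_sum, ← sum_product']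
  have hinj : Set.InjOn (fun t : ℕ × ℕ => t.1 * t.2)
      ((a.divisors.filter (fun m => Squarefree m) ×ˢ
        b.divisors.filter (fun m => Squarefree m) : Finset (ℕ × ℕ)) : Set (ℕ × ℕ)) := by
    rintro ⟨m, k⟩ hm ⟨m', k'⟩ hm' he
    rw [mem_coe, mem_product, mem_filter, mem_filter, Nat.mem_divisors, Nat.mem_divisors] at hm hm'
    simp only at hm hm' he
    have c1 : Nat.Coprime k a := Nat.Coprime.coprime_dvd_left hm.2.1.1 h.symm
    have c2 : Nat.Coprime k' a := Nat.Coprime.coprime_dvd_left hm'.2.1.1 h.symm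
    have e1 : Nat.gcd (m * k) a = m := by
      rw [Nat.Coprime.gcd_mul_right_cancel m c1]
      exact Nat.gcd_eq_left hm.1.1.1
    have e2 : Nat.gcd (m' * k') a = m' := by
      rw [Nat.Coprime.gcd_mul_right_cancel m' c2]
      exact Nat.gcd_eq_left hm'.1.1.1
    have e3 : m = m' := by rw [← e1, ← e2, he]
    subst e3
    have hm0 : 0 < m := Nat.pos_of_dvd_of_pos hm.1.1.1 (Nat.pos_of_ne_zero ha)
    rw [Nat.eq_of_mul_eq_mul_left hm0 he]
  have h1 : ∑ t ∈ a.divisors.filter (fun m => Squarefree m) ×ˢ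
      b.divisors.filter (fun m => Squarefree m), (1 / (t.1 : ℝ)) * (1 / (t.2 : ℝ)) =
      ∑ d ∈ (a.divisors.filter (fun m => Squarefree m) ×ˢ
      b.divisors.filter (fun m => Squarefree m)).image (fun t : ℕ × ℕ => t.1 * t.2),
        1 / (d : ℝ) := by
    rw [sum_image hinj]
    apply sum_congr rfl
    rintro ⟨m, k⟩ _
    push_cast
    rw [div_mul_div_comm, one_mul]
  rw [h1]
  apply sum_le_sum_of_subset_of_nonneg
  · intro d hd
    rw [mem_image] at hd
    obtain ⟨⟨m, k⟩, ht, rfl⟩ := hd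
    rw [mem_product, mem_filter, mem_filter, Nat.mem_divisors, Nat.mem_divisors] at ht
    obtain ⟨⟨⟨h3, _⟩, h4⟩, ⟨h5, _⟩, h6⟩ := ht
    simp only at h3 h4 h5 h6
    rw [mem_filter, Nat.mem_divisors]
    refine ⟨⟨mul_dvd_mul h3 h5, mul_ne_zero ha hb⟩, ?_⟩
    have hc : Nat.Coprime m k := Nat.Coprime.coprime_dvd_left h3 (Nat.Coprime.coprime_dvd_right h5 h)
    exact (Nat.squarefree_mul hc).2 ⟨h4, h6⟩
  · intro d _ _
    positivity

theorem rho_good (α β γ : ℤ) (n : ℕ) (hn1 : 1 ≤ n)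
    (hn : ∀ p : ℕ, p.Prime → p ∣ n → p ≠ 2 ∧ ¬ (p : ℤ) ∣ α * β * γ) :
    (rho α β γ n : ℝ) / n ≤ ∑ m ∈ n.divisors.filter (fun m => Squarefree m), 1 / (m : ℝ) := by
  revert hn1 hn
  induction n using Nat.recOnPosPrimePosCoprime with
  | prime_pow p k hp hk =>
    intro _ hn
    obtain ⟨j, rfl⟩ : ∃ j, k = j + 1 := ⟨k - 1, by omega⟩
    have h1 := hn p hp (dvd_pow_self p (by omega))
    have h2 := rho_pow_le α β γ p j hp h1.1 h1.2
    have hp0 : (0 : ℝ) < p := by exact_mod_cast hp.pos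
    have h3 : (rho α β γ (p ^ (j + 1)) : ℝ) / ((p ^ (j + 1) : ℕ) : ℝ) ≤ 1 + 1 / (p : ℝ) := by
      have h4 : (rho α β γ (p ^ (j + 1)) : ℝ) ≤ (p : ℝ) ^ j * (p + 1) := by exact_mod_cast h2
      rw [div_le_iff₀ (by positivity)]
      refine h4.trans (le_of_eq ?_)
      push_cast
      rw [pow_succ]
      field_simp
    refine h3.trans ?_
    have h5 : ({1, p} : Finset ℕ) ⊆ (p ^ (j + 1)).divisors.filter (fun m => Squarefree m) := by
      intro m hm
      rw [mem_insert, mem_singleton] at hm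
      rw [mem_filter, Nat.mem_divisors]
      rcases hm with rfl | rfl
      · exact ⟨⟨one_dvd _, pow_ne_zero _ hp.ne_zero⟩, squarefree_one⟩
      · exact ⟨⟨dvd_pow_self _ (by omega), pow_ne_zero _ hp.ne_zero⟩, hp.squarefree⟩
    refine le_trans (le_of_eq ?_) (sum_le_sum_of_subset_of_nonneg h5 fun d _ _ => by positivity)
    rw [sum_pair hp.one_lt.ne]
    simp
  | zero => intro h; exact absurd h (by omega)
  | one =>
    intro _ _
    rw [rho_one, Nat.divisors_one, filter_singleton, if_pos squarefree_one, sum_singleton]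
    simp
  | coprime a b ha hb hab iha ihb =>
    intro _ hn
    have ha0 : a ≠ 0 := by omega
    have hb0 : b ≠ 0 := by omega
    have h1 := iha (by omega) (fun p hp hpa => hn p hp (dvd_mul_of_dvd_left hpa b))
    have h2 := ihb (by omega) (fun p hp hpb => hn p hp (dvd_mul_of_dvd_right hpb a))
    refine le_trans ?_ (rg_mul a b ha0 hb0 hab)
    rw [rho_mul α β γ a b (by omega) (by omega) hab]
    push_cast
    rw [mul_div_mul_comm]
    exact mul_le_mul h1 h2 (by positivity) (sum_nonneg fun d _ => by positivity)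

theorem rho_good_tau (α β γ : ℤ) (n : ℕ) (hn1 : 1 ≤ n)
    (hn : ∀ p : ℕ, p.Prime → p ∣ n → p ≠ 2 ∧ ¬ (p : ℤ) ∣ α * β * γ) :
    (rho α β γ n : ℝ) ≤ n * (n.divisors.card : ℝ) := by
  have h1 := rho_good α β γ n hn1 hn
  have hn0 : (0 : ℝ) < n := by exact_mod_cast hn1
  rw [div_le_iff₀ hn0] at h1
  have h2 : ∑ m ∈ n.divisors.filter (fun m => Squarefree m), 1 / (m : ℝ) ≤ (n.divisors.card : ℝ) := by
    calc ∑ m ∈ n.divisors.filter (fun m => Squarefree m), 1 / (m : ℝ)
        ≤ ∑ _m ∈ n.divisors.filter (fun m => Squarefree m), (1 : ℝ) := by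
          apply sum_le_sum
          intro m hm
          rw [mem_filter, Nat.mem_divisors] at hm
          have hm1 : (1 : ℝ) ≤ m := by
            have : 0 < m := Nat.pos_of_dvd_of_pos hm.1.1 hn1
            exact_mod_cast this
          rw [div_le_one (by linarith)]
          exact hm1
      _ = ((n.divisors.filter (fun m => Squarefree m)).card : ℝ) := by simp
      _ ≤ (n.divisors.card : ℝ) := by exact_mod_cast card_filter_le _ _
  calc (rho α β γ n : ℝ) ≤ (∑ m ∈ n.divisors.filter (fun m => Squarefree m), 1 / (m : ℝ)) * n := h1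
    _ ≤ (n.divisors.card : ℝ) * n := mul_le_mul_of_nonneg_right h2 hn0.le
    _ = n * (n.divisors.card : ℝ) := by ring

end Pool.Agent.MKA
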