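import Pool.Agent.MKA.PtR
import Pool.Agent.MKA.RhoGood

/-!
# MKA/Pt: points in a box modulo `e = r s`

Proof.  Write `η = σ + s ζ`, `η' = σ' + s ζ'` with `0 ≤ σ, σ' < s` (`Int.emod`, `Int.ediv`).  For given
`σ` the `ζ` with `j ≤ σ + s ζ < j + l` form an interval `Ico j₁ (j₁ + l₁)` of integers with
`l₁ ≤ l/s + 1` (real division), so `l₁ ≤ 2r` because `l ≤ r s`.  If `rs ∣ PP(c₁+qη, c₂+qη')` then
`s ∣ PP(c₁+qσ, c₂+qσ')` (polynomial congruence), and the number of such `(σ,σ')` is `rho s`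
(`rho_shift`, `gcd(q,s) = 1`); and `r ∣ PP((c₁+qσ) + qs ζ, (c₂+qσ') + qs ζ')`, so for given
`(σ,σ')` the number of `(ζ,ζ')` is bounded by `cnt_sqfree_le` with `c₁+qσ`, `c₂+qσ'`, `qs` (coprime
to `r`).  Hence, with `E = 5 (1+log r)² τ(r)² r^(3/4)`,
`cnt ≤ rho s · (rho r (l/s+1)(l'/s+1)/r² + E) = rho(s) rho(r) (l+s)(l'+s)/(rs)² + rho(s) E`.
Now `rho(r s) = rho r · rho s` (`rho_mul`), `(l+s)(l'+s) = l l' + s(l+l') + s² ≤ l l' + 3 s · r s`
(`l, l' ≤ rs`, `s ≤ rs`), so the first term is at most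
`rho(rs) l l'/(rs)² + 3 rho(s) rho(r)/r`, and `rho r ≤ r τ(r)` (`rho_good_tau`).  Finally
`3 τ(r) + E ≤ 8 (1+log(rs))² τ(r)² r^(3/4)`.
Size: 150 lines.
-/

set_option autoImplicit false

namespace Pool.Agent.MKA

open Finset

/-- the `ζ` with `j ≤ σ + s ζ < j + l` form a short interval -/
theorem pt_interval (j σ : ℤ) (l s : ℕ) (hs : 1 ≤ s) :
    ∃ (j₁ : ℤ) (l₁ : ℕ), (l₁ : ℝ) ≤ (l : ℝ) / s + 1 ∧
      ∀ ζ : ℤ, j ≤ σ + s * ζ → σ + s * ζ < j + l → ζ ∈ Ico j₁ (j₁ + l₁) := by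
  have hs0 : (0 : ℤ) < s := by exact_mod_cast hs
  have hsr : (0 : ℝ) < s := by exact_mod_cast hs
  set u : ℤ := (σ - j) / s with hu
  set v : ℤ := (σ - j - l) / s with hv
  have hvu : v ≤ u := Int.ediv_le_ediv hs0 (by omega)
  refine ⟨-u, (u - v).toNat, ?_, ?_⟩
  · have h1 : (((u - v).toNat : ℕ) : ℝ) = (u : ℝ) - v := by
      have : (((u - v).toNat : ℕ) : ℤ) = u - v := Int.toNat_of_nonneg (by omega)
      exact_mod_cast this
    rw [h1]
    have h2 : s * u ≤ σ - j := Int.mul_ediv_self_le hs0.ne'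
    have h3 : σ - j - l < s * v + s := Int.lt_mul_ediv_self_add hs0
    have h4 : (s : ℤ) * (u - v) < l + s := by
      rw [mul_sub]
      omega
    have h5 : (s : ℝ) * ((u : ℝ) - v) < l + s := by exact_mod_cast h4
    have h6 : (l : ℝ) / s + 1 = (l + s) / s := by field_simp
    rw [h6, le_div_iff₀ hsr, mul_comm]
    exact h5.le
  · intro ζ h1 h2
    rw [mem_Ico]
    constructor
    · have h3 : -ζ ≤ u := by
        rw [hu, Int.le_ediv_iff_mul_le hs0]
        nlinarith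
      omega
    · have h3 : ¬ -ζ ≤ v := by
        intro h
        rw [hv, Int.le_ediv_iff_mul_le hs0] at h
        nlinarith
      have h4 : (((u - v).toNat : ℕ) : ℤ) = u - v := Int.toNat_of_nonneg (by omega)
      rw [h4]
      omega

private theorem pt_cong (α β γ c₁ c₂ : ℤ) (q s : ℕ) (x y x' y' : ℤ) (h1 : (s : ℤ) ∣ x - x')
    (h2 : (s : ℤ) ∣ y - y') (h : (s : ℤ) ∣ PP α β γ (c₁ + q * x) (c₂ + q * y)) :
    (s : ℤ) ∣ PP α β γ (c₁ + q * x') (c₂ + q * y') := by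
  have h3 : (s : ℤ) ∣ PP α β γ (c₁ + q * x) (c₂ + q * y) - PP α β γ (c₁ + q * x') (c₂ + q * y') := by
    have e : PP α β γ (c₁ + q * x) (c₂ + q * y) - PP α β γ (c₁ + q * x') (c₂ + q * y') =
        (x - x') * (α * q * (2 * c₁ + q * (x + x'))) -
          (y - y') * (β * q * (2 * c₂ + q * (y + y'))) := by
      unfold PP
      ring
    rw [e]
    exact dvd_sub (dvd_mul_of_dvd_left h1 _) (dvd_mul_of_dvd_left h2 _)
  exact (dvd_iff_dvd_of_dvd_sub h3).1 h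

theorem cnt_le (α β γ c₁ c₂ : ℤ) (q : ℕ) (j j' : ℤ) (l l' r s : ℕ) (hr : Squarefree r)
    (hodd : Odd r) (hcop : ∀ p : ℕ, p.Prime → p ∣ r → ¬ (p : ℤ) ∣ α * β * γ)
    (hs : 1 ≤ s) (hrs : Nat.Coprime r s) (hq : Nat.Coprime q (r * s))
    (hl : l ≤ r * s) (hl' : l' ≤ r * s) :
    (cnt α β γ c₁ c₂ q j j' l l' (r * s) : ℝ) ≤
      (rho α β γ (r * s) : ℝ) * l * l' / ((r : ℝ) * s) ^ 2 +
        8 * (rho α β γ s : ℝ) * (1 + Real.log ((r : ℝ) * s)) ^ 2 * (r.divisors.card : ℝ) ^ 2 *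
          (r : ℝ) ^ (3 / 4 : ℝ) := by
  classical
  have hr0 : r ≠ 0 := hr.ne_zero
  have hrpos : (0 : ℝ) < r := by exact_mod_cast Nat.pos_of_ne_zero hr0
  have hr1 : (1 : ℝ) ≤ r := by exact_mod_cast Nat.pos_of_ne_zero hr0
  have hsr : (0 : ℝ) < s := by exact_mod_cast hs
  have hs1 : (1 : ℝ) ≤ s := by exact_mod_cast hs
  have hsz : (0 : ℤ) < s := by exact_mod_cast hs
  have hqr : Nat.Coprime q r := Nat.Coprime.coprime_dvd_right (dvd_mul_right r s) hq
  have hqs : Nat.Coprime q s := Nat.Coprime.coprime_dvd_right (dvd_mul_left s r) hq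
  set E : ℝ := 5 * (1 + Real.log r) ^ 2 * (r.divisors.card : ℝ) ^ 2 * (r : ℝ) ^ (3 / 4 : ℝ) with hE
  set K : ℝ := (rho α β γ r : ℝ) * ((l : ℝ) / s + 1) * ((l' : ℝ) / s + 1) / (r : ℝ) ^ 2 + E with hK
  have hE0 : 0 ≤ E := by positivity
  -- the set and its residues
  set T := (Ico j (j + l) ×ˢ Ico j' (j' + l')).filter
    (fun t : ℤ × ℤ => ((r * s : ℕ) : ℤ) ∣ PP α β γ (c₁ + q * t.1) (c₂ + q * t.2)) with hT
  set W := (range s ×ˢ range s).filter
    (fun t : ℕ × ℕ => (s : ℤ) ∣ PP α β γ (c₁ + q * (t.1 : ℤ)) (c₂ + q * (t.2 : ℤ))) with hW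
  have hWc : W.card = rho α β γ s := rho_shift α β γ c₁ c₂ q s hs hqs
  set φ : ℤ × ℤ → ℕ × ℕ := fun t => ((t.1 % s).toNat, (t.2 % s).toNat) with hφ
  have hmodnn : ∀ x : ℤ, (((x % s).toNat : ℕ) : ℤ) = x % s := fun x =>
    Int.toNat_of_nonneg (Int.emod_nonneg x hsz.ne')
  have hmaps : ∀ t ∈ T, φ t ∈ W := by
    intro t ht
    rw [hT, mem_filter] at ht
    rw [hW, mem_filter, mem_product, mem_range, mem_range]
    have hlt : ∀ x : ℤ, (x % s).toNat < s := by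
      intro x
      have h1 := Int.emod_lt_of_pos x hsz
      have h2 := Int.emod_nonneg x hsz.ne'
      omega
    refine ⟨⟨hlt _, hlt _⟩, ?_⟩
    simp only [hφ]
    rw [hmodnn, hmodnn]
    refine pt_cong α β γ c₁ c₂ q s t.1 t.2 _ _ Int.dvd_self_sub_emod Int.dvd_self_sub_emod ?_
    refine dvd_trans ?_ ht.2
    push_cast
    exact dvd_mul_left _ _
  have hfib : ∀ w ∈ W, ((T.filter fun t => φ t = w).card : ℝ) ≤ K := by
    rintro ⟨σ, σ'⟩ _
    obtain ⟨j₁, l₁, h1, h2⟩ := pt_interval j σ l s hs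
    obtain ⟨j₂, l₂, h3, h4⟩ := pt_interval j' σ' l' s hs
    have hbd : ∀ (l l₁ : ℕ), l ≤ r * s → (l₁ : ℝ) ≤ (l : ℝ) / s + 1 → l₁ ≤ 2 * r := by
      intro l l₁ hl h
      have h5 : (l : ℝ) / s ≤ r := by
        rw [div_le_iff₀ hsr]
        exact_mod_cast hl
      have h6 : (l₁ : ℝ) ≤ ((r + 1 : ℕ) : ℝ) := by
        push_cast
        linarith
      have h7 : l₁ ≤ r + 1 := by exact_mod_cast h6
      omega
    have h5 : (T.filter fun t => φ t = (σ, σ')).card ≤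
        cnt α β γ (c₁ + q * σ) (c₂ + q * σ') (q * s) j₁ j₂ l₁ l₂ r := by
      unfold cnt
      apply card_le_card_of_injOn (fun t : ℤ × ℤ => (t.1 / (s : ℤ), t.2 / (s : ℤ)))
      · rintro ⟨x, y⟩ ht
        rw [mem_coe, mem_filter, hT, mem_filter, mem_product, mem_Ico, mem_Ico] at ht
        obtain ⟨⟨⟨⟨a1, a2⟩, a3, a4⟩, a5⟩, a6⟩ := ht
        simp only [hφ, Prod.mk.injEq] at a1 a2 a3 a4 a5 a6
        have e1 : x % s = σ := by rw [← hmodnn x, a6.1]
        have e2 : y % s = σ' := by rw [← hmodnn y, a6.2]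
        have f1 : (σ : ℤ) + s * (x / s) = x := by
          rw [← e1]
          exact Int.emod_add_mul_ediv x s
        have f2 : (σ' : ℤ) + s * (y / s) = y := by
          rw [← e2]
          exact Int.emod_add_mul_ediv y s
        rw [mem_coe, mem_filter, mem_product]
        refine ⟨⟨h2 _ (by rw [f1]; exact a1) (by rw [f1]; exact a2),
          h4 _ (by rw [f2]; exact a3) (by rw [f2]; exact a4)⟩, ?_⟩
        simp only
        have g1 : c₁ + (q : ℤ) * σ + ((q * s : ℕ) : ℤ) * (x / s) = c₁ + q * x := by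
          conv_rhs => rw [← f1]
          push_cast
          ring
        have g2 : c₂ + (q : ℤ) * σ' + ((q * s : ℕ) : ℤ) * (y / s) = c₂ + q * y := by
          conv_rhs => rw [← f2]
          push_cast
          ring
        rw [g1, g2]
        refine dvd_trans ?_ a5
        push_cast
        exact dvd_mul_right _ _
      · rintro ⟨x, y⟩ ht ⟨x', y'⟩ ht' he
        rw [mem_coe, mem_filter] at ht ht'
        have a6 := ht.2
        have a6' := ht'.2
        simp only [hφ, Prod.mk.injEq] at a6 a6' he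
        have e1 : x % s = σ := by rw [← hmodnn x, a6.1]
        have e2 : y % s = σ' := by rw [← hmodnn y, a6.2]
        have e1' : x' % s = σ := by rw [← hmodnn x', a6'.1]
        have e2' : y' % s = σ' := by rw [← hmodnn y', a6'.2]
        rw [← Int.emod_add_mul_ediv x s, ← Int.emod_add_mul_ediv y s,
          ← Int.emod_add_mul_ediv x' s, ← Int.emod_add_mul_ediv y' s, e1, e2, e1', e2', he.1, he.2]
    have hqsr : Nat.Coprime (q * s) r := Nat.Coprime.mul_left hqr hrs.symm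
    have h6 := cnt_sqfree_le α β γ (c₁ + q * σ) (c₂ + q * σ') (q * s) j₁ j₂ l₁ l₂ r hr hodd hcop
      hqsr (hbd l l₁ hl h1) (hbd l' l₂ hl' h3)
    calc ((T.filter fun t => φ t = (σ, σ')).card : ℝ)
        ≤ (cnt α β γ (c₁ + q * σ) (c₂ + q * σ') (q * s) j₁ j₂ l₁ l₂ r : ℝ) := by exact_mod_cast h5
      _ ≤ _ := h6
      _ ≤ K := by
          rw [hK]
          apply add_le_add _ le_rfl
          gcongr
  have hcount : (cnt α β γ c₁ c₂ q j j' l l' (r * s) : ℝ) ≤ rho α β γ s * K := by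
    have h1 : cnt α β γ c₁ c₂ q j j' l l' (r * s) = ∑ w ∈ W, (T.filter fun t => φ t = w).card :=
      card_eq_sum_card_fiberwise hmaps
    rw [h1]
    push_cast
    refine (sum_le_sum hfib).trans ?_
    rw [sum_const, nsmul_eq_mul, hWc]
  refine hcount.trans ?_
  have hmul : (rho α β γ (r * s) : ℝ) = (rho α β γ r : ℝ) * rho α β γ s := by
    exact_mod_cast rho_mul α β γ r s (Nat.pos_of_ne_zero hr0) hs hrs
  have htau : (rho α β γ r : ℝ) ≤ r * (r.divisors.card : ℝ) := by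
    apply rho_good_tau α β γ r (Nat.pos_of_ne_zero hr0)
    intro p hp hpr
    refine ⟨?_, hcop p hp hpr⟩
    rintro rfl
    exact (Nat.not_even_iff_odd.2 hodd) (even_iff_two_dvd.2 hpr)
  have hd1 : (1 : ℝ) ≤ (r.divisors.card : ℝ) := by
    have : 0 < r.divisors.card := card_pos.2 ⟨1, Nat.one_mem_divisors.2 hr0⟩
    exact_mod_cast this
  have hlog : 0 ≤ Real.log r := Real.log_nonneg hr1
  have hlog2 : Real.log r ≤ Real.log ((r : ℝ) * s) :=
    Real.log_le_log hrpos (le_mul_of_one_le_right hrpos.le hs1)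
  have hlr : (l : ℝ) ≤ r * s := by exact_mod_cast hl
  have hlr' : (l' : ℝ) ≤ r * s := by exact_mod_cast hl'
  have hsrs : (s : ℝ) ≤ r * s := le_mul_of_one_le_left hsr.le hr1
  have hR0 : (0 : ℝ) ≤ rho α β γ r := Nat.cast_nonneg _
  have hS0 : (0 : ℝ) ≤ rho α β γ s := Nat.cast_nonneg _
  have hpow1 : (1 : ℝ) ≤ (r : ℝ) ^ (3 / 4 : ℝ) := Real.one_le_rpow hr1 (by norm_num)
  -- the main term
  have hmain : (rho α β γ r : ℝ) * ((l : ℝ) / s + 1) * ((l' : ℝ) / s + 1) / (r : ℝ) ^ 2 ≤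
      (rho α β γ r : ℝ) * l * l' / ((r : ℝ) * s) ^ 2 + 3 * (r.divisors.card : ℝ) := by
    have h1 : (rho α β γ r : ℝ) * ((l : ℝ) / s + 1) * ((l' : ℝ) / s + 1) / (r : ℝ) ^ 2 =
        (rho α β γ r : ℝ) * ((l + s) * (l' + s)) / ((r : ℝ) * s) ^ 2 := by
      field_simp
    have h2 : ((l : ℝ) + s) * (l' + s) ≤ l * l' + 3 * s * (r * s) := by nlinarith
    have h3 : (rho α β γ r : ℝ) * (3 * s * (r * s)) / ((r : ℝ) * s) ^ 2 ≤
        3 * (r.divisors.card : ℝ) := by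
      rw [div_le_iff₀ (by positivity)]
      nlinarith [mul_le_mul_of_nonneg_right htau (show (0 : ℝ) ≤ 3 * s * (r * s) by positivity)]
    calc _ = (rho α β γ r : ℝ) * ((l + s) * (l' + s)) / ((r : ℝ) * s) ^ 2 := h1
      _ ≤ (rho α β γ r : ℝ) * (l * l' + 3 * s * (r * s)) / ((r : ℝ) * s) ^ 2 := by gcongr
      _ = (rho α β γ r : ℝ) * l * l' / ((r : ℝ) * s) ^ 2 +
          (rho α β γ r : ℝ) * (3 * s * (r * s)) / ((r : ℝ) * s) ^ 2 := by ring
      _ ≤ _ := add_le_add le_rfl h3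
  have herr : 3 * (r.divisors.card : ℝ) + E ≤
      8 * (1 + Real.log ((r : ℝ) * s)) ^ 2 * (r.divisors.card : ℝ) ^ 2 *
          (r : ℝ) ^ (3 / 4 : ℝ) := by
    set M : ℝ := (1 + Real.log ((r : ℝ) * s)) ^ 2 * (r.divisors.card : ℝ) ^ 2 *
      (r : ℝ) ^ (3 / 4 : ℝ) with hM
    have h1 : E ≤ 5 * M := by
      rw [hE, hM]
      have : (1 + Real.log r) ^ 2 ≤ (1 + Real.log ((r : ℝ) * s)) ^ 2 := by
        apply pow_le_pow_left₀ (by linarith)
        linarith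
      calc 5 * (1 + Real.log r) ^ 2 * (r.divisors.card : ℝ) ^ 2 * (r : ℝ) ^ (3 / 4 : ℝ)
          ≤ 5 * (1 + Real.log ((r : ℝ) * s)) ^ 2 * (r.divisors.card : ℝ) ^ 2 *
            (r : ℝ) ^ (3 / 4 : ℝ) := by gcongr
        _ = _ := by ring
    have h2 : (r.divisors.card : ℝ) ≤ M := by
      have h3 : (1 : ℝ) ≤ (1 + Real.log ((r : ℝ) * s)) ^ 2 := one_le_pow₀ (by linarith)
      have h4 : (r.divisors.card : ℝ) ≤ (r.divisors.card : ℝ) ^ 2 := le_self_pow₀ hd1 two_ne_zero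
      calc (r.divisors.card : ℝ) = 1 * (r.divisors.card : ℝ) * 1 := by ring
        _ ≤ (1 + Real.log ((r : ℝ) * s)) ^ 2 * (r.divisors.card : ℝ) ^ 2 *
            (r : ℝ) ^ (3 / 4 : ℝ) := by gcongr
    calc 3 * (r.divisors.card : ℝ) + E ≤ 3 * M + 5 * M := by linarith
      _ = _ := by rw [hM]; ring
  calc (rho α β γ s : ℝ) * K ≤ (rho α β γ s : ℝ) *
        ((rho α β γ r : ℝ) * l * l' / ((r : ℝ) * s) ^ 2 + (3 * (r.divisors.card : ℝ) + E)) := by
        apply mul_le_mul_of_nonneg_left _ hS0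
        rw [hK]
        linarith
    _ ≤ (rho α β γ s : ℝ) *
        ((rho α β γ r : ℝ) * l * l' / ((r : ℝ) * s) ^ 2 +
        8 * (1 + Real.log ((r : ℝ) * s)) ^ 2 * (r.divisors.card : ℝ) ^ 2 *
          (r : ℝ) ^ (3 / 4 : ℝ)) := by
        apply mul_le_mul_of_nonneg_left _ hS0
        linarith
    _ = _ := by
        rw [hmul]
        ring

end Pool.Agent.MKA
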