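import Pool.Agent.MKA.Defs
import Pool.Agent.MK47.RhoMul

/-!
# MKA/RhoMul: basic facts on `rho`

`rho_eq_zmod`: `rho` counts the zeros in `(ZMod n)²` (bijection `range n ≃ ZMod n`, `x ↦ (x : ZMod n)`,
inverse `ZMod.val`; `(n : ℤ) ∣ k ↔ (k : ZMod n) = 0`, `ZMod.intCast_zmod_eq_zero_iff_dvd`).
`rho_mul`: Chinese remainder theorem (`ZMod.chineseRemainder`), via `rho_eq_zmod`.
`rho_shift`: `t ↦ c + q t` is a bijection of `ZMod n` when `q` is a unit mod `n`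
(`ZMod.unitOfCoprime`).
`rho_le_sq`: trivial.
`mem_zeros`: the number of `(η, η')` in `(ZMod n)²` with
`α (c₁ + q η)² - β (c₂ + q η')² + γ = 0` is `rho α β γ n` (same bijection).
Size: 80-120 lines.
-/

set_option autoImplicit false

namespace Pool.Agent.MKA

open Finset

theorem rho_eq_mk (α β γ : ℤ) (n : ℕ) : rho α β γ n = Pool.Agent.MK47.rho α β γ n := rfl

/-- counting modulo `n` in `range` and in `ZMod n` -/
theorem rho_count_zmod (n : ℕ) [NeZero n] (f : ℤ → ℤ → ℤ) (P : ZMod n → ZMod n → Prop)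
    [∀ a b, Decidable (P a b)]
    (h : ∀ a b : ℕ, (n : ℤ) ∣ f a b ↔ P (a : ZMod n) (b : ZMod n)) :
    ((range n ×ˢ range n).filter (fun t : ℕ × ℕ => (n : ℤ) ∣ f (t.1 : ℤ) (t.2 : ℤ))).card =
      ((univ : Finset (ZMod n × ZMod n)).filter (fun t => P t.1 t.2)).card := by
  apply card_bij (fun v _ => ((v.1 : ZMod n), (v.2 : ZMod n)))
  · rintro ⟨v, w⟩ hv
    rw [mem_filter] at hv ⊢
    exact ⟨mem_univ _, (h v w).1 hv.2⟩
  · rintro ⟨v, w⟩ hv ⟨v', w'⟩ hv' he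
    rw [mem_filter, mem_product, mem_range, mem_range] at hv hv'
    simp only [Prod.mk.injEq] at he
    rw [ZMod.natCast_eq_natCast_iff, ZMod.natCast_eq_natCast_iff] at he
    rw [Nat.ModEq.eq_of_lt_of_lt he.1 hv.1.1 hv'.1.1, Nat.ModEq.eq_of_lt_of_lt he.2 hv.1.2 hv'.1.2]
  · rintro ⟨a, b⟩ hv
    rw [mem_filter] at hv
    refine ⟨(a.val, b.val), ?_, ?_⟩
    · rw [mem_filter, mem_product, mem_range, mem_range]
      refine ⟨⟨ZMod.val_lt a, ZMod.val_lt b⟩, ?_⟩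
      simp only
      rw [h, ZMod.natCast_zmod_val, ZMod.natCast_zmod_val]
      exact hv.2
    · simp only
      rw [ZMod.natCast_zmod_val, ZMod.natCast_zmod_val]

theorem rho_eq_zmod (α β γ : ℤ) (n : ℕ) [NeZero n] :
    rho α β γ n = ((univ : Finset (ZMod n × ZMod n)).filter
      (fun t => (α : ZMod n) * t.1 ^ 2 - (β : ZMod n) * t.2 ^ 2 + (γ : ZMod n) = 0)).card := by
  unfold rho
  apply rho_count_zmod n (fun a b => PP α β γ a b)
    (fun a b => (α : ZMod n) * a ^ 2 - (β : ZMod n) * b ^ 2 + (γ : ZMod n) = 0)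
  intro a b
  rw [← ZMod.intCast_zmod_eq_zero_iff_dvd]
  unfold PP
  push_cast
  exact Iff.rfl

theorem rho_shift_zmod (α β γ c₁ c₂ : ℤ) (q n : ℕ) [NeZero n] (hq : Nat.Coprime q n) :
    ((univ : Finset (ZMod n × ZMod n)).filter
      (fun t => (α : ZMod n) * ((c₁ : ZMod n) + q * t.1) ^ 2 -
        (β : ZMod n) * ((c₂ : ZMod n) + q * t.2) ^ 2 + (γ : ZMod n) = 0)).card =
      rho α β γ n := by
  rw [rho_eq_zmod]
  set u := ZMod.unitOfCoprime q hq with hu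
  have huq : (u : ZMod n) = (q : ZMod n) := ZMod.coe_unitOfCoprime q hq
  apply card_bij (fun t _ => ((c₁ : ZMod n) + q * t.1, (c₂ : ZMod n) + q * t.2))
  · intro t ht
    rw [mem_filter] at ht ⊢
    exact ⟨mem_univ _, ht.2⟩
  · rintro ⟨a, b⟩ _ ⟨a', b'⟩ _ he
    simp only [Prod.mk.injEq, add_right_inj] at he
    rw [← huq] at he
    rw [Units.mul_right_inj, Units.mul_right_inj] at he
    rw [he.1, he.2]
  · rintro ⟨a, b⟩ ht
    rw [mem_filter] at ht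
    have h1 : ∀ c x : ZMod n, c + q * (((u⁻¹ : (ZMod n)ˣ) : ZMod n) * (x - c)) = x := by
      intro c x
      rw [← huq, ← mul_assoc, Units.mul_inv, one_mul]
      ring
    refine ⟨(((u⁻¹ : (ZMod n)ˣ) : ZMod n) * (a - c₁), ((u⁻¹ : (ZMod n)ˣ) : ZMod n) * (b - c₂)),
      ?_, ?_⟩
    · rw [mem_filter]
      refine ⟨mem_univ _, ?_⟩
      simp only
      rw [h1, h1]
      exact ht.2
    · simp only
      rw [h1, h1]

theorem rho_shift (α β γ c₁ c₂ : ℤ) (q n : ℕ) (hn : 1 ≤ n) (hq : Nat.Coprime q n) :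
    ((range n ×ˢ range n).filter
      (fun t : ℕ × ℕ => (n : ℤ) ∣ PP α β γ (c₁ + q * (t.1 : ℤ)) (c₂ + q * (t.2 : ℤ)))).card =
      rho α β γ n := by
  have : NeZero n := ⟨by omega⟩
  rw [← rho_shift_zmod α β γ c₁ c₂ q n hq]
  apply rho_count_zmod n (fun a b => PP α β γ (c₁ + q * a) (c₂ + q * b))
    (fun a b => (α : ZMod n) * ((c₁ : ZMod n) + q * a) ^ 2 -
        (β : ZMod n) * ((c₂ : ZMod n) + q * b) ^ 2 + (γ : ZMod n) = 0)
  intro a b
  rw [← ZMod.intCast_zmod_eq_zero_iff_dvd]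
  unfold PP
  push_cast
  exact Iff.rfl

theorem rho_one (α β γ : ℤ) : rho α β γ 1 = 1 := by
  rw [rho_eq_mk]
  exact Pool.Agent.MK47.rho_one α β γ

theorem rho_mul (α β γ : ℤ) (m n : ℕ) (hm : 1 ≤ m) (hn : 1 ≤ n) (h : Nat.Coprime m n) :
    rho α β γ (m * n) = rho α β γ m * rho α β γ n := by
  rw [rho_eq_mk, rho_eq_mk, rho_eq_mk]
  exact Pool.Agent.MK47.rho_mul α β γ m n hm hn h

theorem rho_le_sq (α β γ : ℤ) (n : ℕ) : rho α β γ n ≤ n ^ 2 := by
  rw [rho_eq_mk]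
  exact Pool.Agent.MK47.rho_le α β γ n

end Pool.Agent.MKA
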