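import Pool.Agent.MKA.BoxSqf
import Pool.Agent.MKA.RhoMul

/-!
# MKA/PtR: points in a box modulo a squarefree good modulus

Proof.  Apply `completion` with `n = r` and
`S = {(y,y') ∈ (ZMod r)² : α (c₁ + q y)² - β (c₂ + q y')² + γ = 0}`; `#S = rho α β γ r`
(`rho_shift_zmod`), and the count of `completion` is `cnt` (`(r:ℤ) ∣ k ↔ (k : ZMod r) = 0`).
For `u = (h,k)`: with `q̄` the inverse of `q` mod `r`, the substitution `Y = c₁ + q y`,
`Y' = c₂ + q y'` gives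
`‖∑_{s ∈ S} ψ(-(h s₁ + k s₂))‖ = ‖ES α β γ r ψ (-h q̄) (-k q̄)‖`
(`ψ = ZMod.stdAddChar`, primitive), and multiplying `h, k` by a unit does not change
`gcd(gcd(h.val, k.val), r)`.  By `ES_sqfree_le` this is at most
`τ(r) r^(3/4) gcd(gcd(h.val,k.val),r)^(1/4)`.
For `u ≠ 0`, `f = gcd(gcd(h.val,k.val),r)` divides `r`; group by `f`:
`∑_{u ≠ 0} ‖GJ(h)‖‖GJ'(k)‖ f(u)^(1/4) ≤ ∑_{f ∣ r} f^(1/4) ∑_{u ≠ 0, f ∣ h.val, f ∣ k.val} ‖GJ(h)‖‖GJ'(k)‖`
and with `m = r/f`, `L = 1 + log r`, by `sum_GJ_le`, `GJ_zero`, the inner sum is at most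
`l · mL + l' · mL + (mL)² ≤ 4 r m L + m² L² ≤ 5 r² L² / f`
(splitting according to `h = 0` or `k = 0`; `l, l' ≤ 2r`, `m ≤ r`, `L ≥ 1`).
As `f^(1/4)/f ≤ 1`, the total is `≤ 5 r² L² τ(r)`; multiply by `τ(r) r^(3/4)/r²`.
Size: 120-180 lines.
-/

set_option autoImplicit false

namespace Pool.Agent.MKA

open Finset

private theorem pr_omega (E : ℕ) (hE : E ≠ 0) :
    (2 : ℝ) ^ E.primeFactors.card ≤ E.divisors.card := by
  rw [Nat.card_divisors hE]
  push_cast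
  rw [← prod_const]
  apply Finset.prod_le_prod
  · intro p _
    norm_num
  · intro p hp
    have : 1 ≤ E.factorization p := by
      rw [Nat.mem_primeFactors] at hp
      exact (hp.1.dvd_iff_one_le_factorization hE).1 hp.2.1
    have h2 : (1 : ℝ) ≤ (E.factorization p : ℝ) := by exact_mod_cast this
    linarith

/-- `cnt` as a count over `range l ×ˢ range l'` -/
theorem cnt_eq_range (α β γ c₁ c₂ : ℤ) (q : ℕ) (j j' : ℤ) (l l' r : ℕ) :
    cnt α β γ c₁ c₂ q j j' l l' r = ((range l ×ˢ range l').filter fun t : ℕ × ℕ =>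
      (r : ℤ) ∣ α * ((c₁ + q * j) + q * t.1) ^ 2 - β * ((c₂ + q * j') + q * t.2) ^ 2 - -γ).card := by
  unfold cnt
  symm
  have key : ∀ i i' : ℕ, PP α β γ (c₁ + q * (j + i)) (c₂ + q * (j' + i')) =
      α * ((c₁ + q * j) + q * i) ^ 2 - β * ((c₂ + q * j') + q * i') ^ 2 - -γ := by
    intro i i'
    unfold PP
    ring
  apply card_bij (fun t _ => (j + (t.1 : ℤ), j' + (t.2 : ℤ)))
  · rintro ⟨i, i'⟩ ht
    rw [mem_filter, mem_product, mem_range, mem_range] at ht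
    rw [mem_filter, mem_product, mem_Ico, mem_Ico]
    simp only at ht ⊢
    refine ⟨⟨⟨by omega, by omega⟩, ⟨by omega, by omega⟩⟩, ?_⟩
    rw [key]
    exact ht.2
  · rintro ⟨i, i'⟩ _ ⟨k, k'⟩ _ h
    rw [Prod.mk.injEq] at h ⊢
    omega
  · rintro ⟨u, v⟩ ht
    rw [mem_filter, mem_product, mem_Ico, mem_Ico] at ht
    obtain ⟨⟨⟨h1, h2⟩, h3, h4⟩, h5⟩ := ht
    simp only at h1 h2 h3 h4 h5
    have e1 : j + (((u - j).toNat : ℕ) : ℤ) = u := by omega
    have e2 : j' + (((v - j').toNat : ℕ) : ℤ) = v := by omega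
    refine ⟨((u - j).toNat, (v - j').toNat), ?_, ?_⟩
    · rw [mem_filter, mem_product, mem_range, mem_range]
      refine ⟨⟨by simp only; omega, by simp only; omega⟩, ?_⟩
      simp only
      rw [← key, e1, e2]
      exact h5
    · simp only
      rw [e1, e2]

theorem cnt_sqfree_le (α β γ c₁ c₂ : ℤ) (q : ℕ) (j j' : ℤ) (l l' r : ℕ) (hr : Squarefree r)
    (hodd : Odd r) (hcop : ∀ p : ℕ, p.Prime → p ∣ r → ¬ (p : ℤ) ∣ α * β * γ)
    (hq : Nat.Coprime q r) (hl : l ≤ 2 * r) (hl' : l' ≤ 2 * r) :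
    (cnt α β γ c₁ c₂ q j j' l l' r : ℝ) ≤
      (rho α β γ r : ℝ) * l * l' / (r : ℝ) ^ 2 +
        5 * (1 + Real.log r) ^ 2 * (r.divisors.card : ℝ) ^ 2 * (r : ℝ) ^ (3 / 4 : ℝ) := by
  have hr0 : r ≠ 0 := hr.ne_zero
  have : NeZero r := ⟨hr0⟩
  have hrpos : (0 : ℝ) < r := by exact_mod_cast Nat.pos_of_ne_zero hr0
  have hr1 : (1 : ℝ) ≤ r := by exact_mod_cast Nat.pos_of_ne_zero hr0
  have hlog : 0 ≤ Real.log r := Real.log_nonneg hr1
  have h2 : ¬ 2 ∣ r := by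
    intro h
    exact (Nat.not_even_iff_odd.2 hodd) (even_iff_two_dvd.2 h)
  have hu : Unit3 r α β (-γ) := by
    intro p hp hpr
    have h3 := hcop p hp hpr
    refine ⟨fun h => h3 (dvd_mul_of_dvd_left (dvd_mul_of_dvd_left h _) _),
      fun h => h3 (dvd_mul_of_dvd_left (dvd_mul_of_dvd_right h _) _),
      fun h => h3 (dvd_mul_of_dvd_right ((dvd_neg).1 h) _)⟩
  have hF : IsCoprime (r : ℤ) ((q : ℕ) : ℤ) := Nat.isCoprime_iff_coprime.2 hq.symm
  have h4 := box_sqf_card (m := r) hr h2 hu hF hF (c₁ + q * j) (c₂ + q * j') l l'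
  have h5 : (con (α : ZMod r) (β : ZMod r) ((-γ : ℤ) : ZMod r)).card = rho α β γ r := by
    rw [rho_eq_zmod]
    unfold con
    congr 1
    ext t
    rw [mem_filter, mem_filter]
    push_cast
    constructor
    · rintro ⟨_, h⟩
      exact ⟨mem_univ _, by rw [h]; ring⟩
    · rintro ⟨_, h⟩
      exact ⟨mem_univ _, by linear_combination h⟩
  rw [h5] at h4
  rw [cnt_eq_range]
  refine h4.trans ?_
  apply add_le_add (le_of_eq (by ring))
  have h6 := pr_omega r hr0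
  have hll : ((l : ℝ) + l') * (1 + Real.log r) / r ≤ 4 * (1 + Real.log r) ^ 2 := by
    rw [div_le_iff₀ hrpos]
    have h7 : (l : ℝ) ≤ 2 * r := by exact_mod_cast hl
    have h8 : (l' : ℝ) ≤ 2 * r := by exact_mod_cast hl'
    have h9 : (l : ℝ) + l' ≤ 4 * r := by linarith
    calc ((l : ℝ) + l') * (1 + Real.log r) ≤ (4 * r) * (1 + Real.log r) :=
          mul_le_mul_of_nonneg_right h9 (by linarith)
      _ = 4 * ((1 + Real.log r) * 1) * r := by ring
      _ ≤ 4 * ((1 + Real.log r) * (1 + Real.log r)) * r := by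
          apply mul_le_mul_of_nonneg_right _ hrpos.le
          apply mul_le_mul_of_nonneg_left _ (by norm_num)
          apply mul_le_mul_of_nonneg_left _ (by linarith)
          linarith
      _ = 4 * (1 + Real.log r) ^ 2 * r := by ring
  calc 2 ^ r.primeFactors.card * (r.divisors.card : ℝ) * (r : ℝ) ^ (3 / 4 : ℝ) *
        ((1 + Real.log r) ^ 2 + ((l : ℝ) + l') * (1 + Real.log r) / r)
      ≤ (r.divisors.card : ℝ) * (r.divisors.card : ℝ) * (r : ℝ) ^ (3 / 4 : ℝ) *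
        ((1 + Real.log r) ^ 2 + 4 * (1 + Real.log r) ^ 2) := by
        gcongr
    _ = 5 * (1 + Real.log r) ^ 2 * (r.divisors.card : ℝ) ^ 2 * (r : ℝ) ^ (3 / 4 : ℝ) := by ring

end Pool.Agent.MKA
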