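import Pool.Agent.MKA.Defs

/-!
# MKA/Roots: roots of quadratic congruences

`roots_a`: `m` odd.  If `m ∣ a²x² - 4 = (ax-2)(ax+2)` then `gcd(a,m) = 1` (an odd prime dividing both
would divide `4`) and, with `s₁ = gcd(m, ax-2)`, `s₂ = m/s₁`: `s₂ ∣ ax+2`; and `s₁, s₂` are coprime: more
precisely `gcd(ax-2, ax+2) ∣ 4`, `m` odd, so a prime dividing `s₁` and `s₂` divides both `ax-2` and
`ax+2`, hence `4`.  For given `s₁ ∣ m` with `gcd(s₁, m/s₁) = 1`, `x` is determined mod `s₁` and mod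
`m/s₁` (as `a` is invertible), so mod `m`.  The number of roots in `range m` is at most the number of
divisors `s₁`.  (Injection `x ↦ gcd(m, ax-2)`.)
`roots_x`: `m` squarefree (odd not needed): `x' ↦ s₁ = gcd(m, x'-x)` is injective on the roots: `s₁ ∣ x'-x`
and `m/s₁ ∣ x'+x`, `s₁` and `m/s₁` coprime since `m` is squarefree.
Size: 80-100 lines.
-/

set_option autoImplicit false

namespace Pool.Agent.MKA

open Finset

private theorem roots_split {m : ℕ} (hm : m ≠ 0) {u v : ℤ} (h : (m : ℤ) ∣ u * v) :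
    ∃ t : ℕ, m = Int.gcd m u * t ∧ (t : ℤ) ∣ v := by
  obtain ⟨s, hs⟩ : ∃ s : ℕ, s = Int.gcd m u := ⟨_, rfl⟩
  have hsm : s ∣ m := by
    have h1 := Int.gcd_dvd_left (a := (m : ℤ)) (b := u)
    rw [← hs] at h1
    exact_mod_cast h1
  have hsu : (s : ℤ) ∣ u := by
    rw [hs]
    exact Int.gcd_dvd_right ..
  have hs0 : s ≠ 0 := by
    intro h0
    rw [h0] at hsm
    exact hm (Nat.eq_zero_of_zero_dvd hsm)
  obtain ⟨t, ht⟩ := hsm
  obtain ⟨u', hu'⟩ := hsu
  refine ⟨t, by rw [← hs]; exact ht, ?_⟩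
  have hs0' : (s : ℤ) ≠ 0 := by exact_mod_cast hs0
  have h1 : (t : ℤ) ∣ u' * v := by
    have h2 : (s : ℤ) * t ∣ s * (u' * v) := by
      have h3 : (s : ℤ) * t = (m : ℤ) := by
        rw [ht]
        push_cast
        rfl
      rw [h3, ← mul_assoc, ← hu']
      exact h
    exact (mul_dvd_mul_iff_left hs0').1 h2
  have hcop : IsCoprime (t : ℤ) u' := by
    rw [Int.isCoprime_iff_gcd_eq_one]
    have h4 : Int.gcd ((s : ℤ) * t) ((s : ℤ) * u') = s := by
      rw [← hu']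
      have h3 : (s : ℤ) * t = (m : ℤ) := by
        rw [ht]
        push_cast
        rfl
      rw [h3, ← hs]
    rw [Int.gcd_mul_left, Int.natAbs_natCast] at h4
    exact Nat.eq_of_mul_eq_mul_left (Nat.pos_of_ne_zero hs0) (by rw [h4, mul_one])
  exact hcop.dvd_of_dvd_mul_left h1

private theorem roots_eq {m x x' : ℕ} (hx : x < m) (hx' : x' < m)
    (h : (m : ℤ) ∣ (x : ℤ) - x') : x = x' :=
  (((Nat.modEq_iff_dvd).2 h).eq_of_lt_of_lt hx' hx).symm

theorem roots_a (a m : ℕ) (hm : Odd m) :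
    ((range m).filter (fun x : ℕ => (m : ℤ) ∣ (a : ℤ) ^ 2 * (x : ℤ) ^ 2 - 4)).card ≤
      m.divisors.card := by
  have hm0 : m ≠ 0 := by
    rintro rfl
    exact absurd hm (by decide)
  have h4 : IsCoprime (m : ℤ) 4 := by
    have h1 : Nat.Coprime m 4 := Nat.Coprime.pow_right 2 (Nat.coprime_two_right.2 hm)
    exact_mod_cast (Nat.isCoprime_iff_coprime.2 h1)
  refine card_le_card_of_injOn (fun x : ℕ => Int.gcd m ((a : ℤ) * x - 2)) ?_ ?_
  · intro x _
    refine Nat.mem_divisors.2 ⟨?_, hm0⟩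
    have h1 := Int.gcd_dvd_left (a := (m : ℤ)) (b := (a : ℤ) * x - 2)
    exact_mod_cast h1
  · intro x hx x' hx' hxx
    obtain ⟨hxr, hxd⟩ := mem_filter.1 hx
    obtain ⟨hxr', hxd'⟩ := mem_filter.1 hx'
    have hxx1 : Int.gcd m ((a : ℤ) * x - 2) = Int.gcd m ((a : ℤ) * x' - 2) := hxx
    have e1 : (a : ℤ) ^ 2 * (x : ℤ) ^ 2 - 4 = ((a : ℤ) * x - 2) * ((a : ℤ) * x + 2) := by ring
    have e2 : (a : ℤ) ^ 2 * (x' : ℤ) ^ 2 - 4 = ((a : ℤ) * x' - 2) * ((a : ℤ) * x' + 2) := by ring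
    have hxd1 := hxd
    rw [e1] at hxd1
    rw [e2] at hxd'
    obtain ⟨t, ht, htd⟩ := roots_split hm0 hxd1
    obtain ⟨t', ht', htd'⟩ := roots_split hm0 hxd'
    have hsd : ((Int.gcd m ((a : ℤ) * x - 2) : ℕ) : ℤ) ∣ (a : ℤ) * x - 2 := Int.gcd_dvd_right ..
    have hsd' : ((Int.gcd m ((a : ℤ) * x' - 2) : ℕ) : ℤ) ∣ (a : ℤ) * x' - 2 :=
      Int.gcd_dvd_right ..
    rw [← hxx1] at ht' hsd'
    obtain ⟨s, hs⟩ : ∃ s : ℕ, s = Int.gcd m ((a : ℤ) * x - 2) := ⟨_, rfl⟩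
    rw [← hs] at ht ht' hsd hsd'
    have hs0 : s ≠ 0 := by
      intro h0
      rw [h0, zero_mul] at ht
      exact hm0 ht
    have htt : t' = t := Nat.eq_of_mul_eq_mul_left (Nat.pos_of_ne_zero hs0) (ht'.symm.trans ht)
    rw [htt] at htd'
    have hmz : (m : ℤ) = (s : ℤ) * t := by
      rw [ht]
      push_cast
      rfl
    -- `s` and `t` are coprime
    have hst : IsCoprime (s : ℤ) (t : ℤ) := by
      have h1 : IsCoprime (s : ℤ) 4 := by
        refine IsCoprime.of_isCoprime_of_dvd_left h4 ?_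
        rw [hmz]
        exact Dvd.intro _ rfl
      obtain ⟨j, hj⟩ := hsd
      have h2 : (a : ℤ) * x + 2 = 4 + s * j := by
        rw [← hj]
        ring
      have h3 : IsCoprime (s : ℤ) ((a : ℤ) * x + 2) := by
        rw [h2]
        exact h1.add_mul_left_right j
      exact IsCoprime.of_isCoprime_of_dvd_right h3 htd
    have ham : IsCoprime (m : ℤ) (a : ℤ) := by
      obtain ⟨k, hk⟩ := hxd
      have h2 : (a : ℤ) * (a * (x : ℤ) ^ 2) = 4 + m * k := by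
        rw [← hk]
        ring
      have h3 : IsCoprime (m : ℤ) ((a : ℤ) * (a * (x : ℤ) ^ 2)) := by
        rw [h2]
        exact h4.add_mul_left_right k
      exact h3.of_mul_right_left
    have h5 : (m : ℤ) ∣ (a : ℤ) * ((x : ℤ) - x') := by
      rw [hmz]
      refine hst.mul_dvd ?_ ?_
      · have h6 := dvd_sub hsd hsd'
        have e : (a : ℤ) * x - 2 - ((a : ℤ) * x' - 2) = (a : ℤ) * ((x : ℤ) - x') := by ring
        rwa [e] at h6
      · have h6 := dvd_sub htd htd'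
        have e : (a : ℤ) * x + 2 - ((a : ℤ) * x' + 2) = (a : ℤ) * ((x : ℤ) - x') := by ring
        rwa [e] at h6
    exact roots_eq (mem_range.1 hxr) (mem_range.1 hxr') (ham.dvd_of_dvd_mul_left h5)

theorem roots_x (x : ℤ) (m : ℕ) (hm : Squarefree m) :
    ((range m).filter (fun x' : ℕ => (m : ℤ) ∣ (x' : ℤ) ^ 2 - x ^ 2)).card ≤
      m.divisors.card := by
  have hm0 : m ≠ 0 := hm.ne_zero
  refine card_le_card_of_injOn (fun x' : ℕ => Int.gcd m ((x' : ℤ) - x)) ?_ ?_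
  · intro x' _
    refine Nat.mem_divisors.2 ⟨?_, hm0⟩
    have h1 := Int.gcd_dvd_left (a := (m : ℤ)) (b := (x' : ℤ) - x)
    exact_mod_cast h1
  · intro y hy y' hy' hyy
    obtain ⟨hyr, hyd⟩ := mem_filter.1 hy
    obtain ⟨hyr', hyd'⟩ := mem_filter.1 hy'
    have hyy1 : Int.gcd m ((y : ℤ) - x) = Int.gcd m ((y' : ℤ) - x) := hyy
    have e1 : (y : ℤ) ^ 2 - x ^ 2 = ((y : ℤ) - x) * ((y : ℤ) + x) := by ring
    have e2 : (y' : ℤ) ^ 2 - x ^ 2 = ((y' : ℤ) - x) * ((y' : ℤ) + x) := by ring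
    rw [e1] at hyd
    rw [e2] at hyd'
    obtain ⟨t, ht, htd⟩ := roots_split hm0 hyd
    obtain ⟨t', ht', htd'⟩ := roots_split hm0 hyd'
    have hsd : ((Int.gcd m ((y : ℤ) - x) : ℕ) : ℤ) ∣ (y : ℤ) - x := Int.gcd_dvd_right ..
    have hsd' : ((Int.gcd m ((y' : ℤ) - x) : ℕ) : ℤ) ∣ (y' : ℤ) - x := Int.gcd_dvd_right ..
    rw [← hyy1] at ht' hsd'
    obtain ⟨s, hs⟩ : ∃ s : ℕ, s = Int.gcd m ((y : ℤ) - x) := ⟨_, rfl⟩
    rw [← hs] at ht ht' hsd hsd'
    have hs0 : s ≠ 0 := by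
      intro h0
      rw [h0, zero_mul] at ht
      exact hm0 ht
    have htt : t' = t := Nat.eq_of_mul_eq_mul_left (Nat.pos_of_ne_zero hs0) (ht'.symm.trans ht)
    rw [htt] at htd'
    have hmz : (m : ℤ) = (s : ℤ) * t := by
      rw [ht]
      push_cast
      rfl
    have hst : IsCoprime (s : ℤ) (t : ℤ) := by
      have h1 : Nat.Coprime s t := Nat.coprime_of_squarefree_mul (by rw [← ht]; exact hm)
      exact Nat.isCoprime_iff_coprime.2 h1
    have h5 : (m : ℤ) ∣ (y : ℤ) - y' := by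
      rw [hmz]
      refine hst.mul_dvd ?_ ?_
      · have h6 := dvd_sub hsd hsd'
        have e : (y : ℤ) - x - ((y' : ℤ) - x) = (y : ℤ) - y' := by ring
        rwa [e] at h6
      · have h6 := dvd_sub htd htd'
        have e : (y : ℤ) + x - ((y' : ℤ) + x) = (y : ℤ) - y' := by ring
        rwa [e] at h6
    exact roots_eq (mem_range.1 hyr) (mem_range.1 hyr') h5

end Pool.Agent.MKA
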