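import Pool.Agent.MKA.RhoBad

/-!
# MKA/SbEuler: the bad factor is bounded by an Euler product (helper99; proof by helper18)

Let `P` be the set of the primes dividing `αβγ` and not dividing `2q`; all are `≥ 11`.
(1) For `s ∈ bs (αβγ) q B`: `rho s / s² = ∏_{p ∣ s} rho(p^v)/p^(2v)`, `v = v_p(s)`
(`rho_mul`; `Nat.multiplicative_factorization`), and this is at most
`∏_{p ∣ s} tt p (vv p α β) v` by `rho_pp`.
(2) All exponents are `≤ B`, the map `s ↦ (v_p(s))_{p ∈ P}` is injective on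
`bs` with values in functions `P → {0,…,B}`, hence
`∑_{s ∈ bs} ∏_{p ∈ P} t_p(v_p(s)) ≤ ∏_{p ∈ P} ∑_{v=0}^B t_p(v)` where `t_p(v) = tt …`
(`Finset.prod_sum`; all terms nonnegative).
(3) For `p ≥ 11`, `i = vv p α β`: `∑_{v=0}^B t_p(v) ≤ 1 + i + ∑_{l ≥ 1} (l+1) p^(⌊l/2⌋ - l)`, and
`⌊l/2⌋ - l = -⌈l/2⌉`, so the sum over `l = 2k-1, 2k` is `(4k+1) p^(-k)` and the total is
`(5p-1)/(p-1)² ≤ 6/p` (equivalent to `p² - 11 p + 6 ≥ 0`).  For a finite sum use the telescoping
`(4k+1) p^(-k) = c_k - c_(k+1)` with `c_k = (4pk/(p-1) + p(p+3)/(p-1)²) p^(-k) ≥ 0`, so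
`∑_{k=1}^K (4k+1) p^(-k) ≤ c_1 = (5p-1)/(p-1)²`.
(4) `1 + i + 6/p ≤ (1+i)(1 + 6/p)`.
-/

set_option autoImplicit false

namespace Pool.Agent.MKA

open Finset

private theorem se_tt_zero (p i : ℕ) : tt p i 0 = 1 := by
  unfold tt
  rw [if_pos (Nat.zero_le i)]

private theorem se_tt_nonneg (p i j : ℕ) : 0 ≤ tt p i j := by
  unfold tt
  split_ifs
  · exact zero_le_one
  · positivity

/-- the telescoping constants -/
private noncomputable def cc (x : ℝ) (k : ℕ) : ℝ :=
  (4 * x * k / (x - 1) + x * (x + 3) / (x - 1) ^ 2) / x ^ k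

private theorem cc_step (x : ℝ) (hx : 1 < x) (k : ℕ) :
    cc x k - cc x (k + 1) = (4 * k + 1) / x ^ k := by
  unfold cc
  have h1 : x - 1 ≠ 0 := by linarith
  have h2 : x ≠ 0 := by linarith
  have h3 : x ^ k ≠ 0 := pow_ne_zero _ h2
  rw [pow_succ]
  push_cast
  field_simp
  ring

private theorem cc_nonneg (x : ℝ) (hx : 1 < x) (k : ℕ) : 0 ≤ cc x k := by
  unfold cc
  have h1 : 0 < x - 1 := by linarith
  positivity

private theorem se_tail (p i : ℕ) (hp : 2 ≤ p) (K : ℕ) :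
    ∑ l ∈ range (2 * K), tt p i (i + 1 + l) ≤ cc (p : ℝ) 1 - cc (p : ℝ) (K + 1) := by
  have hx : (1 : ℝ) < p := by exact_mod_cast hp
  have hx0 : (p : ℝ) ≠ 0 := by linarith
  induction K with
  | zero => simp
  | succ K ih =>
    rw [show 2 * (K + 1) = 2 * K + 1 + 1 by ring, Finset.sum_range_succ, Finset.sum_range_succ]
    have e1 : tt p i (i + 1 + 2 * K) = (2 * K + 2) / (p : ℝ) ^ (K + 1) := by
      unfold tt
      rw [if_neg (by omega), show i + 1 + 2 * K - i = 2 * K + 1 by omega,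
        show (2 * K + 1) / 2 = K by omega, show 2 * K + 1 = K + (K + 1) by ring, pow_add]
      push_cast
      field_simp
      ring
    have e2 : tt p i (i + 1 + (2 * K + 1)) = (2 * K + 3) / (p : ℝ) ^ (K + 1) := by
      unfold tt
      rw [if_neg (by omega), show i + 1 + (2 * K + 1) - i = 2 * K + 2 by omega,
        show (2 * K + 2) / 2 = K + 1 by omega, show 2 * K + 2 = (K + 1) + (K + 1) by ring, pow_add]
      push_cast
      field_simp
      ring
    rw [e1, e2]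
    have e3 := cc_step (p : ℝ) hx (K + 1)
    have e4 : ((2 : ℝ) * K + 2) / (p : ℝ) ^ (K + 1) + (2 * K + 3) / (p : ℝ) ^ (K + 1) =
        (4 * ((K + 1 : ℕ) : ℝ) + 1) / (p : ℝ) ^ (K + 1) := by
      rw [← add_div]
      congr 1
      push_cast
      ring
    linarith

private theorem se_cc_one (x : ℝ) (hx : 11 ≤ x) : cc x 1 ≤ 6 / x := by
  have h1 : 0 < x - 1 := by linarith
  have h2 : 0 < x := by linarith
  have h3 : cc x 1 = (5 * x - 1) / (x - 1) ^ 2 := by
    unfold cc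
    push_cast
    field_simp
    ring
  rw [h3, div_le_div_iff₀ (by positivity) h2]
  nlinarith

private theorem se_local (p i B : ℕ) (hp : 11 ≤ p) :
    ∑ v ∈ range (B + 1), tt p i v ≤ (1 + (i : ℝ)) * (1 + 6 / (p : ℝ)) := by
  have hx : (11 : ℝ) ≤ p := by exact_mod_cast hp
  have h1 : ∑ v ∈ range (B + 1), tt p i v ≤ ∑ v ∈ range (i + 1 + 2 * (B + 1)), tt p i v := by
    apply Finset.sum_le_sum_of_subset_of_nonneg
    · intro v hv
      rw [mem_range] at hv ⊢
      omega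
    · intro v _ _
      exact se_tt_nonneg p i v
  rw [Finset.sum_range_add (fun v => tt p i v) (i + 1) (2 * (B + 1))] at h1
  have h2 : ∑ v ∈ range (i + 1), tt p i v = i + 1 := by
    rw [Finset.sum_congr rfl (g := fun _ => (1 : ℝ)) (fun v hv => by
      unfold tt
      rw [if_pos (by rw [mem_range] at hv; omega)])]
    simp
  have h3 := se_tail p i (by omega) (B + 1)
  have h4 := cc_nonneg (p : ℝ) (by linarith) (B + 1 + 1)
  have h5 := se_cc_one (p : ℝ) hx
  have h6 : 0 ≤ (i : ℝ) * (6 / (p : ℝ)) := by positivity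
  rw [h2] at h1
  nlinarith

private theorem se_mul (α β γ : ℤ) (x y : ℕ) (h : Nat.Coprime x y) :
    (rho α β γ (x * y) : ℝ) / ((x * y : ℕ) : ℝ) ^ 2 =
      (rho α β γ x : ℝ) / (x : ℝ) ^ 2 * ((rho α β γ y : ℝ) / (y : ℝ) ^ 2) := by
  rcases Nat.eq_zero_or_pos x with hx | hx
  · subst hx; simp
  rcases Nat.eq_zero_or_pos y with hy | hy
  · subst hy; simp
  rw [rho_mul α β γ x y hx hy h]
  push_cast
  rw [mul_pow, div_mul_div_comm]

private theorem se_fac (α β γ : ℤ) (s : ℕ) (hs : s ≠ 0) :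
    (rho α β γ s : ℝ) / (s : ℝ) ^ 2 =
      ∏ p ∈ s.primeFactors, (rho α β γ (p ^ s.factorization p) : ℝ) /
        ((p : ℝ) ^ s.factorization p) ^ 2 := by
  have h := Nat.multiplicative_factorization (fun s : ℕ => (rho α β γ s : ℝ) / (s : ℝ) ^ 2)
    (fun x y hxy => se_mul α β γ x y hxy) (by rw [rho_one]; simp) hs
  rw [h, Finsupp.prod, Nat.support_factorization]
  exact Finset.prod_congr rfl fun p _ => by rw [Nat.cast_pow]

theorem Sb_le_prod (α β γ : ℤ) (hα : α ≠ 0) (hβ : β ≠ 0) (hγ : γ ≠ 0) (q B : ℕ) (hq : 1 ≤ q)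
    (h10 : ∀ p : ℕ, p.Prime → p ≤ 10 → p ∣ 2 * q) :
    Sb α β γ q B ≤
      ∏ p ∈ (α * β * γ).natAbs.primeFactors.filter (fun p : ℕ => ¬ p ∣ 2 * q),
        ((1 + (vv p α β : ℝ)) * (1 + 6 / (p : ℝ))) := by
  classical
  obtain ⟨P, hP⟩ : ∃ P, P = (α * β * γ).natAbs.primeFactors.filter
    (fun p : ℕ => ¬ p ∣ 2 * q) := ⟨_, rfl⟩
  rw [← hP]
  have hn : α * β * γ ≠ 0 := mul_ne_zero (mul_ne_zero hα hβ) hγ
  have hP11 : ∀ p ∈ P, 11 ≤ p := by
    intro p hp
    rw [hP, mem_filter, Nat.mem_primeFactors] at hp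
    by_contra hcon
    exact hp.2 (h10 p hp.1.1 (by omega))
  have hbs : ∀ s ∈ bs (α * β * γ) q B, s.primeFactors ⊆ P ∧ s ≠ 0 ∧ s ≤ B := by
    intro s hs
    unfold bs at hs
    rw [mem_filter, mem_Icc] at hs
    refine ⟨?_, by omega, hs.1.2⟩
    intro p hp
    rw [hP, mem_filter, Nat.mem_primeFactors]
    have hp' := Nat.mem_primeFactors.1 hp
    refine ⟨⟨hp'.1, ?_, Int.natAbs_ne_zero.2 hn⟩, ?_⟩
    · have := hs.2.2 p hp
      rwa [Int.natCast_dvd] at this
    · intro hpq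
      have h1 := Nat.dvd_gcd hp'.2.1 hpq
      rw [hs.2.1] at h1
      exact hp'.1.one_lt.ne' (Nat.dvd_one.1 h1)
  have h1 : ∀ s ∈ bs (α * β * γ) q B, (rho α β γ s : ℝ) / (s : ℝ) ^ 2 ≤
      ∏ x ∈ P.attach, tt x.1 (vv x.1 α β) (s.factorization x.1) := by
    intro s hs
    obtain ⟨hsP, hs0, hsB⟩ := hbs s hs
    rw [Finset.prod_attach P (fun p => tt p (vv p α β) (s.factorization p)),
      ← Finset.prod_subset hsP (f := fun p => tt p (vv p α β) (s.factorization p)) (by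
        intro p _ hp
        rw [← Nat.support_factorization, Finsupp.notMem_support_iff] at hp
        rw [hp, se_tt_zero]), se_fac α β γ s hs0]
    apply Finset.prod_le_prod
    · intro p _
      positivity
    · intro p hp
      apply rho_pp α β γ hα hβ p _ (Nat.prime_of_mem_primeFactors hp)
      have := hP11 p (hsP hp)
      omega
  unfold Sb
  refine (Finset.sum_le_sum h1).trans ?_
  have h2 : ∏ p ∈ P, ∑ v ∈ range (B + 1), tt p (vv p α β) v ≤
      ∏ p ∈ P, ((1 + (vv p α β : ℝ)) * (1 + 6 / (p : ℝ))) := by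
    apply Finset.prod_le_prod
    · intro p _
      exact Finset.sum_nonneg fun v _ => se_tt_nonneg _ _ _
    · intro p hp
      exact se_local p _ B (hP11 p hp)
  refine le_trans ?_ h2
  rw [Finset.prod_sum]
  have hinj : Set.InjOn (fun (s : ℕ) (p : ℕ) (_ : p ∈ P) => s.factorization p)
      (bs (α * β * γ) q B : Set ℕ) := by
    intro s hs s' hs' hss
    obtain ⟨hsP, hs0, _⟩ := hbs s hs
    obtain ⟨hsP', hs0', _⟩ := hbs s' hs'
    apply Nat.eq_of_factorization_eq hs0 hs0'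
    intro p
    by_cases hp : p ∈ P
    · exact congrFun (congrFun hss p) hp
    · have e1 : s.factorization p = 0 := by
        rw [← Finsupp.notMem_support_iff, Nat.support_factorization]
        exact fun h => hp (hsP h)
      have e2 : s'.factorization p = 0 := by
        rw [← Finsupp.notMem_support_iff, Nat.support_factorization]
        exact fun h => hp (hsP' h)
      rw [e1, e2]
  rw [← Finset.sum_image (s := bs (α * β * γ) q B)
    (g := fun (s : ℕ) (p : ℕ) (_ : p ∈ P) => s.factorization p)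
    (f := fun F : (∀ p ∈ P, ℕ) => ∏ x ∈ P.attach, tt x.1 (vv x.1 α β) (F x.1 x.2)) hinj]
  apply Finset.sum_le_sum_of_subset_of_nonneg
  · intro F hF
    obtain ⟨s, hs, rfl⟩ := Finset.mem_image.1 hF
    rw [Finset.mem_pi]
    intro p _
    obtain ⟨_, hs0, hsB⟩ := hbs s hs
    rw [mem_range]
    have := Nat.factorization_lt p hs0
    omega
  · intro F _ _
    exact Finset.prod_nonneg fun x _ => se_tt_nonneg _ _ _

end Pool.Agent.MKA
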