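import Pool.Agent.MKA.Crt

/-!
# MKA/Sqf: exponential sums over conics modulo squarefree numbers
-/

set_option autoImplicit false

namespace Pool.Agent.MKA

open Finset ZMod

/-- `al be n` are prime to `h` -/
def Unit3 (h : ℕ) (al be n : ℤ) : Prop :=
  ∀ p : ℕ, p.Prime → p ∣ h → ¬ (p : ℤ) ∣ al ∧ ¬ (p : ℤ) ∣ be ∧ ¬ (p : ℤ) ∣ n

theorem Unit3.mul {p h : ℕ} {al be n : ℤ} (hu : Unit3 (p * h) al be n) (hc : p.Coprime h) :
    Unit3 p (al * h ^ 2) (be * h ^ 2) n := by
  intro q hq hqp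
  have h1 := hu q hq (dvd_mul_of_dvd_left hqp h)
  have h2 : ¬ (q : ℤ) ∣ (h : ℤ) ^ 2 := by
    intro h3
    have h4 : (q : ℤ) ∣ (h : ℤ) := (Nat.prime_iff_prime_int.1 hq).dvd_of_dvd_pow h3
    have h5 : q ∣ h := by exact_mod_cast h4
    have h6 : q ∣ Nat.gcd p h := Nat.dvd_gcd hqp h5
    rw [hc] at h6
    exact hq.one_lt.ne' (Nat.dvd_one.1 h6)
  refine ⟨?_, ?_, h1.2.2⟩
  · intro h3
    rcases (Nat.prime_iff_prime_int.1 hq).dvd_or_dvd h3 with h4 | h4
    · exact h1.1 h4
    · exact h2 h4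
  · intro h3
    rcases (Nat.prime_iff_prime_int.1 hq).dvd_or_dvd h3 with h4 | h4
    · exact h1.2.1 h4
    · exact h2 h4

private theorem zne {p : ℕ} {x : ℤ} (hx : ¬ (p : ℤ) ∣ x) : (x : ZMod p) ≠ 0 := by
  intro h
  exact hx ((ZMod.intCast_zmod_eq_zero_iff_dvd x p).1 h)

private theorem EZ_prime {p : ℕ} [hp : Fact p.Prime] (h2 : p ≠ 2) {al be n : ℤ}
    (hu : Unit3 p al be n) (k l : ℤ) : ‖EZ p al be n k l‖ ≤
      2 * (p : ℝ) ^ (3 / 4 : ℝ) * ((Nat.gcd (Int.gcd k l) p : ℕ) : ℝ) ^ (1 / 4 : ℝ) := by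
  have hh := hu p hp.out dvd_rfl
  have hp0 : (0 : ℝ) < p := by exact_mod_cast hp.out.pos
  have hp1 : (1 : ℝ) ≤ p := by exact_mod_cast hp.out.one_le
  have hE : EZ p al be n k l = ESc (al : ZMod p) (be : ZMod p) (n : ZMod p) (k : ZMod p)
      (l : ZMod p) := rfl
  rw [hE]
  by_cases hk : (p : ℤ) ∣ k ∧ (p : ℤ) ∣ l
  · have hk0 : (k : ZMod p) = 0 := (ZMod.intCast_zmod_eq_zero_iff_dvd k p).2 hk.1
    have hl0 : (l : ZMod p) = 0 := (ZMod.intCast_zmod_eq_zero_iff_dvd l p).2 hk.2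
    rw [hk0, hl0, ES_zero, Complex.norm_natCast]
    have h3 := card_con_le h2 (zne hh.1) (zne hh.2.1) (zne hh.2.2)
    have h4 : Nat.gcd (Int.gcd k l) p = p := by
      apply Nat.gcd_eq_right
      have h5 : (p : ℤ) ∣ (Int.gcd k l : ℤ) := Int.dvd_coe_gcd hk.1 hk.2
      exact_mod_cast h5
    rw [h4, mul_assoc, ← Real.rpow_add hp0]
    norm_num
    calc (((con (al : ZMod p) (be : ZMod p) (n : ZMod p)).card : ℕ) : ℝ) ≤ ((p + 1 : ℕ) : ℝ) := by
          exact_mod_cast h3
      _ ≤ 2 * p := by push_cast; linarith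
  · have hkl : ((k : ZMod p), (l : ZMod p)) ≠ (0, 0) := by
      intro h
      rw [Prod.mk.injEq] at h
      exact hk ⟨(ZMod.intCast_zmod_eq_zero_iff_dvd k p).1 h.1,
        (ZMod.intCast_zmod_eq_zero_iff_dvd l p).1 h.2⟩
    refine (norm_ES_le h2 (zne hh.1) (zne hh.2.1) (zne hh.2.2) hkl).trans ?_
    have h3 : (1 : ℝ) ≤ ((Nat.gcd (Int.gcd k l) p : ℕ) : ℝ) ^ (1 / 4 : ℝ) := by
      apply Real.one_le_rpow _ (by norm_num)
      have : 0 < Nat.gcd (Int.gcd k l) p := Nat.gcd_pos_of_pos_right _ hp.out.pos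
      exact_mod_cast this
    calc 2 * (p : ℝ) ^ (3 / 4 : ℝ) = 2 * (p : ℝ) ^ (3 / 4 : ℝ) * 1 := (mul_one _).symm
      _ ≤ _ := mul_le_mul_of_nonneg_left h3 (by positivity)

private theorem EZ_one (al be n k l : ℤ) : ‖EZ 1 al be n k l‖ ≤ 1 := by
  unfold EZ
  refine (norm_sum_le _ _).trans ?_
  have h1 : ∀ q ∈ con (al : ZMod 1) (be : ZMod 1) (n : ZMod 1),
      ‖(stdAddChar ((k : ZMod 1) * q.1 + (l : ZMod 1) * q.2) : ℂ)‖ = 1 :=
    fun q _ => AddChar.norm_apply _ _
  rw [sum_congr rfl h1, sum_const, nsmul_eq_mul, mul_one]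
  have h2 : (con (al : ZMod 1) (be : ZMod 1) (n : ZMod 1)).card ≤
      (univ : Finset (ZMod 1 × ZMod 1)).card := card_le_univ _
  have h3 : (univ : Finset (ZMod 1 × ZMod 1)).card = 1 := by
    rw [card_univ, Fintype.card_prod, ZMod.card]
  rw [h3] at h2
  exact_mod_cast h2

/-- **Exponential sums over conics modulo squarefree numbers.** -/
theorem norm_EZ_le : ∀ (h : ℕ) [NeZero h], Squarefree h → ¬ 2 ∣ h → ∀ al be n : ℤ,
    Unit3 h al be n → ∀ k l : ℤ, ‖EZ h al be n k l‖ ≤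
      2 ^ h.primeFactors.card * (h : ℝ) ^ (3 / 4 : ℝ) *
        ((Nat.gcd (Int.gcd k l) h : ℕ) : ℝ) ^ (1 / 4 : ℝ) := by
  intro h
  induction h using Nat.strong_induction_on with
  | _ h ih =>
    intro _ hsq h2 al be n hu k l
    by_cases h1 : h = 1
    · subst h1
      refine (EZ_one al be n k l).trans ?_
      simp
    · obtain ⟨p, hp, h', hh'⟩ := Nat.exists_prime_and_dvd h1
      subst hh'
      have : Fact p.Prime := ⟨hp⟩
      have hh0 : h' ≠ 0 := by
        rintro rfl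
        exact NeZero.ne (p * 0) rfl
      have : NeZero h' := ⟨hh0⟩
      have hc : p.Coprime h' := (Nat.squarefree_mul_iff.1 hsq).1
      have hp2 : p ≠ 2 := by
        rintro rfl
        exact h2 (dvd_mul_right 2 h')
      have hlt : h' < p * h' := by
        have := hp.two_le
        nlinarith [Nat.pos_of_ne_zero hh0]
      have h3 := EZ_prime (p := p) hp2 (hu.mul hc) k l
      have hu' : Unit3 h' (al * p ^ 2) (be * p ^ 2) n := by
        have h4 : Unit3 (h' * p) al be n := by rwa [mul_comm]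
        exact h4.mul hc.symm
      have h5 := ih h' hlt (Nat.squarefree_mul_iff.1 hsq).2.2
        (fun h6 => h2 (dvd_mul_of_dvd_right h6 p)) _ _ _ hu' k l
      have h7 : EZ (p * h') al be n k l =
          EZ p (al * h' ^ 2) (be * h' ^ 2) n k l * EZ h' (al * p ^ 2) (be * p ^ 2) n k l :=
        EZ_mul hc al be n k l
      rw [h7, norm_mul]
      refine (mul_le_mul h3 h5 (norm_nonneg _) (by positivity)).trans (le_of_eq ?_)
      have e1 : (p * h').primeFactors.card = 1 + h'.primeFactors.card := by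
        rw [hc.primeFactors_mul, card_union_of_disjoint hc.disjoint_primeFactors,
          hp.primeFactors, card_singleton]
      have e2 : Nat.gcd (Int.gcd k l) (p * h') =
          Nat.gcd (Int.gcd k l) p * Nat.gcd (Int.gcd k l) h' := by
        rw [Nat.Coprime.gcd_mul _ hc]
      rw [e1, e2, Nat.cast_mul, Nat.cast_mul, Real.mul_rpow (by positivity) (by positivity),
        Real.mul_rpow (by positivity) (by positivity), pow_add, pow_one]
      ring

/-- the number of points -/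
theorem card_con_sqf : ∀ (h : ℕ) [NeZero h], Squarefree h → ¬ 2 ∣ h → ∀ al be n : ℤ,
    Unit3 h al be n → (con (al : ZMod h) (be : ZMod h) (n : ZMod h)).card ≤
      ∏ p ∈ h.primeFactors, (p + 1) := by
  intro h
  induction h using Nat.strong_induction_on with
  | _ h ih =>
    intro _ hsq h2 al be n hu
    by_cases h1 : h = 1
    · subst h1
      have h3 : (con (al : ZMod 1) (be : ZMod 1) (n : ZMod 1)).card ≤
          (univ : Finset (ZMod 1 × ZMod 1)).card := card_le_univ _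
      have h4 : (univ : Finset (ZMod 1 × ZMod 1)).card = 1 := by
        rw [card_univ, Fintype.card_prod, ZMod.card]
      rw [h4] at h3
      simpa using h3
    · obtain ⟨p, hp, h', hh'⟩ := Nat.exists_prime_and_dvd h1
      subst hh'
      have : Fact p.Prime := ⟨hp⟩
      have hh0 : h' ≠ 0 := by
        rintro rfl
        exact NeZero.ne (p * 0) rfl
      have : NeZero h' := ⟨hh0⟩
      have hc : p.Coprime h' := (Nat.squarefree_mul_iff.1 hsq).1
      have hp2 : p ≠ 2 := by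
        rintro rfl
        exact h2 (dvd_mul_right 2 h')
      have hlt : h' < p * h' := by
        have := hp.two_le
        nlinarith [Nat.pos_of_ne_zero hh0]
      have hu1 := hu.mul hc
      have hh := hu1 p hp dvd_rfl
      have h3 := card_con_le hp2 (zne hh.1) (zne hh.2.1) (zne hh.2.2)
      have hu' : Unit3 h' (al * p ^ 2) (be * p ^ 2) n := by
        have h4 : Unit3 (h' * p) al be n := by rwa [mul_comm]
        exact h4.mul hc.symm
      have h5 := ih h' hlt (Nat.squarefree_mul_iff.1 hsq).2.2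
        (fun h6 => h2 (dvd_mul_of_dvd_right h6 p)) _ _ _ hu'
      have hE0 : ∀ (m : ℕ) [NeZero m] (al be n : ℤ), EZ m al be n 0 0 =
          ((con (al : ZMod m) (be : ZMod m) (n : ZMod m)).card : ℂ) := by
        intro m _ al be n
        unfold EZ
        simp
      have h7 : EZ (p * h') al be n 0 0 =
          EZ p (al * h' ^ 2) (be * h' ^ 2) n 0 0 * EZ h' (al * p ^ 2) (be * p ^ 2) n 0 0 :=
        EZ_mul hc al be n 0 0
      rw [hE0, hE0, hE0] at h7
      have h8 : (con (al : ZMod (p * h')) (be : ZMod (p * h')) (n : ZMod (p * h'))).card =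
          (con ((al * h' ^ 2 : ℤ) : ZMod p) ((be * h' ^ 2 : ℤ) : ZMod p) (n : ZMod p)).card *
          (con ((al * p ^ 2 : ℤ) : ZMod h') ((be * p ^ 2 : ℤ) : ZMod h') (n : ZMod h')).card := by
        exact_mod_cast h7
      rw [h8, hc.primeFactors_mul, prod_union hc.disjoint_primeFactors, hp.primeFactors,
        prod_singleton]
      exact Nat.mul_le_mul h3 h5

end Pool.Agent.MKA
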