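import Pool.Agent.MKA.Harm
import Pool.Agent.MKA.Roots

/-!
# MKA/XSum: sums `∑ 1/x` over `x ∈ XS` with a divisibility condition

`AA_spec`: for `x ≡ x₀ mod 2q` and `a x₀ = 2 A₀`: `2 · AA a x = a x` (as `a x = a x₀ + 2 a q k`).
`xsum_a`: `m` is odd and coprime to `q`.  `m ∣ AA² - 1` iff `m ∣ 4AA² - 4 = a²x² - 4`.  By `roots_a` such `x`
lie in at most `τ(m)` residue classes mod `m`; for each class, with `x ≡ x₀ mod 2q`
(`gcd(m, 2q) = 1`) `x` lies in one class mod `2qm`; apply `harm_upper` with `M = 2 q m`.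
`xsum_x`: the same with `roots_x`.
Size: 80-120 lines.
-/

set_option autoImplicit false

namespace Pool.Agent.MKA

open Finset

theorem AA_spec (a q : ℕ) (x x₀ A₀ : ℤ) (hA : (a : ℤ) * x₀ = 2 * A₀)
    (hx : (2 * q : ℤ) ∣ x - x₀) : 2 * AA a x = (a : ℤ) * x := by
  unfold AA
  obtain ⟨k, hk⟩ := hx
  have hx1 : x = x₀ + 2 * q * k := by linarith
  have h1 : (a : ℤ) * x = 2 * (A₀ + a * q * k) := by
    rw [hx1, mul_add, hA]
    ring
  rw [h1, Int.mul_ediv_cancel_left _ (by norm_num)]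

private theorem xsum_class (q Z m : ℕ) (x₀ r : ℤ) (hq : 1 ≤ q) (hZ : 2 ≤ Z)
    (hm : Nat.Coprime m (2 * q)) (hm1 : 1 ≤ m) :
    ∑ x ∈ (XS q x₀ Z).filter (fun x => (m : ℤ) ∣ x - r), 1 / (x : ℝ) ≤
      1 / (Z : ℝ) + Real.log Z / (2 * q * m) := by
  have hc : IsCoprime (m : ℤ) ((2 * q : ℕ) : ℤ) := Nat.isCoprime_iff_coprime.2 hm
  obtain ⟨u, v, huv⟩ := hc
  push_cast at huv
  -- `r' = r + u m (x₀ - r)`
  have h1 : (2 * q : ℤ) ∣ (r + u * m * (x₀ - r)) - x₀ := by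
    refine ⟨- v * (x₀ - r), ?_⟩
    linear_combination (x₀ - r) * huv
  have h2 : (m : ℤ) ∣ (r + u * m * (x₀ - r)) - r := ⟨u * (x₀ - r), by ring⟩
  obtain ⟨r', hr'⟩ : ∃ r' : ℤ, r' = r + u * m * (x₀ - r) := ⟨_, rfl⟩
  rw [← hr'] at h1 h2
  have hM : 1 ≤ 2 * q * m := by
    have : 0 < 2 * q * m := by positivity
    exact this
  have h3 := harm_upper Z (2 * q * m) r' hZ hM
  have h4 : ((2 * q * m : ℕ) : ℝ) = 2 * q * m := by push_cast; ring
  rw [h4] at h3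
  refine le_trans ?_ h3
  apply Finset.sum_le_sum_of_subset_of_nonneg
  · intro y hy
    simp only [XS, mem_filter, mem_Ioc] at hy ⊢
    obtain ⟨⟨⟨hy1, hy2⟩, hy3⟩, hy4⟩ := hy
    refine ⟨⟨hy1, hy2⟩, ?_⟩
    have h5 : (2 * q : ℤ) ∣ y - r' := by
      have := dvd_sub hy3 h1
      have e : y - x₀ - (r' - x₀) = y - r' := by ring
      rwa [e] at this
    have h6 : (m : ℤ) ∣ y - r' := by
      have := dvd_sub hy4 h2
      have e : y - r - (r' - r) = y - r' := by ring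
      rwa [e] at this
    have h7 : IsCoprime ((2 * q : ℕ) : ℤ) (m : ℤ) := (Nat.isCoprime_iff_coprime.2 hm).symm
    push_cast at h7 ⊢
    exact h7.mul_dvd h5 h6
  · intro y hy _
    rw [mem_filter, mem_Ioc] at hy
    have h0 : (0 : ℤ) ≤ Z := Int.natCast_nonneg Z
    have h5 : (0 : ℤ) < y := lt_of_le_of_lt h0 hy.1.1
    have h6 : (0 : ℝ) < y := by exact_mod_cast h5
    positivity

private theorem xsum_gen (q Z m : ℕ) (x₀ : ℤ) (P : ℤ → Prop) [DecidablePred P] (R : Finset ℕ)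
    (hq : 1 ≤ q) (hZ : 2 ≤ Z) (hm : Nat.Coprime m (2 * q)) (hm1 : 1 ≤ m)
    (hR : R.card ≤ m.divisors.card)
    (hP : ∀ x ∈ XS q x₀ Z, P x → (x % (m : ℤ)).toNat ∈ R) :
    ∑ x ∈ (XS q x₀ Z).filter P, 1 / (x : ℝ) ≤
      (m.divisors.card : ℝ) * (1 / (Z : ℝ) + Real.log Z / (2 * q * m)) := by
  have hmz : (1 : ℤ) ≤ m := by exact_mod_cast hm1
  have h1 : ∑ x ∈ (XS q x₀ Z).filter P, 1 / (x : ℝ) =
      ∑ r ∈ R, ∑ x ∈ ((XS q x₀ Z).filter P).filter (fun x : ℤ => (x % (m : ℤ)).toNat = r), 1 / (x : ℝ) := by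
    refine (Finset.sum_fiberwise_of_maps_to ?_ _).symm
    intro x hx
    rw [mem_filter] at hx
    exact hP x hx.1 hx.2
  have hlog : 0 ≤ Real.log Z := Real.log_natCast_nonneg Z
  have h0 : 0 ≤ 1 / (Z : ℝ) + Real.log Z / (2 * q * m) := by positivity
  rw [h1]
  calc ∑ r ∈ R, ∑ x ∈ ((XS q x₀ Z).filter P).filter (fun x : ℤ => (x % (m : ℤ)).toNat = r), 1 / (x : ℝ)
      ≤ ∑ _r ∈ R, (1 / (Z : ℝ) + Real.log Z / (2 * q * m)) := by
        apply Finset.sum_le_sum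
        intro r _
        refine le_trans ?_ (xsum_class q Z m x₀ (r : ℤ) hq hZ hm hm1)
        apply Finset.sum_le_sum_of_subset_of_nonneg
        · intro y hy
          rw [mem_filter, mem_filter] at hy
          rw [mem_filter]
          refine ⟨hy.1.1, ?_⟩
          have h2 : 0 ≤ y % m := Int.emod_nonneg _ (by linarith)
          have h3 : y % m = (r : ℤ) := by
            rw [← hy.2, Int.toNat_of_nonneg h2]
          rw [← h3]
          exact Int.dvd_self_sub_emod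
        · intro y hy _
          simp only [XS, mem_filter, mem_Ioc] at hy
          have h0' : (0 : ℤ) ≤ Z := Int.natCast_nonneg Z
          have h5 : (0 : ℤ) < y := lt_of_le_of_lt h0' hy.1.1.1
          have h6 : (0 : ℝ) < y := by exact_mod_cast h5
          positivity
    _ = (R.card : ℝ) * (1 / (Z : ℝ) + Real.log Z / (2 * q * m)) := by
        rw [Finset.sum_const, nsmul_eq_mul]
    _ ≤ _ := by
        apply mul_le_mul_of_nonneg_right _ h0
        exact_mod_cast hR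

theorem xsum_a (a q Z m : ℕ) (x₀ A₀ : ℤ) (hA : (a : ℤ) * x₀ = 2 * A₀) (hq : 1 ≤ q) (hZ : 2 ≤ Z)
    (hm : Nat.Coprime m (2 * q)) :
    ∑ x ∈ (XS q x₀ Z).filter (fun x => (m : ℤ) ∣ AA a x ^ 2 - 1), 1 / (x : ℝ) ≤
      (m.divisors.card : ℝ) * (1 / (Z : ℝ) + Real.log Z / (2 * q * m)) := by
  have hm2 : Nat.Coprime m 2 := Nat.Coprime.coprime_mul_right_right hm
  have hodd : Odd m := Nat.coprime_two_right.1 hm2
  have hm1 : 1 ≤ m := hodd.pos
  have hmz : (1 : ℤ) ≤ m := by exact_mod_cast hm1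
  refine xsum_gen q Z m x₀ _
    ((range m).filter (fun x : ℕ => (m : ℤ) ∣ (a : ℤ) ^ 2 * (x : ℤ) ^ 2 - 4)) hq hZ hm hm1
    (roots_a a m hodd) ?_
  intro x hx hd
  simp only [XS, mem_filter, mem_Ioc] at hx
  have hAA := AA_spec a q x x₀ A₀ hA hx.2
  have h0 : 0 ≤ x % m := Int.emod_nonneg _ (by linarith)
  have hlt : x % m < m := Int.emod_lt_of_pos _ (by linarith)
  rw [mem_filter, mem_range]
  constructor
  · omega
  · rw [Int.toNat_of_nonneg h0]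
    obtain ⟨j, hj⟩ : (m : ℤ) ∣ x - x % m := Int.dvd_self_sub_emod
    have hd2 : (m : ℤ) ∣ (a : ℤ) ^ 2 * x ^ 2 - 4 := by
      have e : (a : ℤ) ^ 2 * x ^ 2 - 4 = 4 * (AA a x ^ 2 - 1) := by
        have : ((a : ℤ) * x) ^ 2 = (2 * AA a x) ^ 2 := by rw [hAA]
        linear_combination this
      rw [e]
      exact Dvd.dvd.mul_left hd 4
    have e2 : (a : ℤ) ^ 2 * (x % m) ^ 2 - 4 =
        ((a : ℤ) ^ 2 * x ^ 2 - 4) - (m : ℤ) * (j * (a ^ 2 * (x + x % m))) := by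
      have e3 : (a : ℤ) ^ 2 * x ^ 2 - (a : ℤ) ^ 2 * (x % m) ^ 2 =
          (x - x % m) * (a ^ 2 * (x + x % m)) := by ring
      rw [hj] at e3
      linear_combination -e3
    rw [e2]
    exact dvd_sub hd2 (Dvd.intro _ rfl)

theorem xsum_x (q Z m : ℕ) (x x₀ : ℤ) (hq : 1 ≤ q) (hZ : 2 ≤ Z)
    (hm : Nat.Coprime m (2 * q)) (hs : Squarefree m) :
    ∑ x' ∈ (XS q x₀ Z).filter (fun x' => (m : ℤ) ∣ x' ^ 2 - x ^ 2), 1 / (x' : ℝ) ≤
      (m.divisors.card : ℝ) * (1 / (Z : ℝ) + Real.log Z / (2 * q * m)) := by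
  have hm1 : 1 ≤ m := Nat.pos_of_ne_zero hs.ne_zero
  have hmz : (1 : ℤ) ≤ m := by exact_mod_cast hm1
  refine xsum_gen q Z m x₀ _
    ((range m).filter (fun x' : ℕ => (m : ℤ) ∣ (x' : ℤ) ^ 2 - x ^ 2)) hq hZ hm hm1
    (roots_x x m hs) ?_
  intro x' _ hd
  have h0 : 0 ≤ x' % m := Int.emod_nonneg _ (by linarith)
  have hlt : x' % m < m := Int.emod_lt_of_pos _ (by linarith)
  rw [mem_filter, mem_range]
  constructor
  · omega
  · rw [Int.toNat_of_nonneg h0]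
    obtain ⟨j, hj⟩ : (m : ℤ) ∣ x' - x' % m := Int.dvd_self_sub_emod
    have e2 : (x' % m) ^ 2 - x ^ 2 = (x' ^ 2 - x ^ 2) - (m : ℤ) * (j * (x' + x' % m)) := by
      have e3 : x' ^ 2 - (x' % m) ^ 2 = (x' - x' % m) * (x' + x' % m) := by ring
      rw [hj] at e3
      linear_combination -e3
    rw [e2]
    exact dvd_sub hd (Dvd.intro _ rfl)

end Pool.Agent.MKA
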